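import Mathlib
import Pool.Agent.Work.MP_b30479_gt.TBS.G2.CN.GI

section

/-!
# First order forms in two complex variables with exact Gaussian coefficients

`⟨c, p, r, m, l, e⟩`: the value is `C + P δ + R ε` up to `e`, where `C, P, R` are Gaussian integers
with the encodings `c, p, r`; `m` bounds `‖C‖` and `l` bounds `‖P‖ ρ + ‖R‖ σ`. The numbers `b` are
bounds of `‖C‖`, `‖P‖`, `‖R‖` for all cells (they are not computed with the forms).
-/

namespace Pool.Agent.Work.MP_b30479_gtS.G2.CN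

open Complex

noncomputable section

/-- the complex number of a Gaussian integer -/
abbrev tc : GaussianInt →+* ℂ := GaussianInt.toComplex

lemma tc_re (z : GaussianInt) : (tc z).re = z.re := (GaussianInt.intCast_re z).symm
lemma tc_im (z : GaussianInt) : (tc z).im = z.im := (GaussianInt.intCast_im z).symm
lemma tc_star (z : GaussianInt) : tc (star z) = (starRingEnd ℂ) (tc z) := GaussianInt.toComplex_star z

/-- case distinction for numbers -/
def cN (c : Bool) (a b : ℕ) : ℕ := @Bool.rec (fun _ => ℕ) b a c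
/-- case distinction for truth values -/
def cB (c a b : Bool) : Bool := @Bool.rec (fun _ => Bool) b a c

lemma cB_and {c a : Bool} (h : cB c a false = true) : c = true ∧ a = true := by
  cases c
  · exact absurd h (by simp [cB])
  · exact ⟨rfl, h⟩

/-- distance of natural numbers -/
def ad (P Q : ℕ) : ℕ := Nat.add (Nat.sub P Q) (Nat.sub Q P)

lemma ad_cast (P Q : ℕ) : (ad P Q : ℝ) = |(P : ℝ) - Q| := by
  change (((P - Q) + (Q - P) : ℕ) : ℝ) = _
  rw [Nat.cast_add]
  rcases le_total P Q with h | h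
  · have h' : (P : ℝ) ≤ Q := by exact_mod_cast h
    rw [Nat.sub_eq_zero_of_le h, Nat.cast_sub h, abs_of_nonpos (by linarith only [h'])]; simp
  · have h' : (Q : ℝ) ≤ P := by exact_mod_cast h
    rw [Nat.sub_eq_zero_of_le h, Nat.cast_sub h, abs_of_nonneg (by linarith only [h'])]; simp

/-- one step of the square root algorithm -/
def nw (s t : ℕ) : ℕ := Nat.succ (Nat.div (Nat.add t (Nat.div s t)) (nat_lit 2))
/-- two steps -/
def nw2 (s t : ℕ) : ℕ := nw s (nw s t)
/-- bound for the absolute value -/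
def bd (x y : ℕ) : ℕ := nw2 (Nat.add (Nat.mul x x) (Nat.mul y y)) (Nat.add x y)

lemma nw_def (s t : ℕ) : nw s t = (t + s / t) / 2 + 1 := rfl

lemma one_le_nw (s t : ℕ) : 1 ≤ nw s t := by rw [nw_def]; exact Nat.le_add_left 1 _

lemma le_nw (s : ℕ) {t : ℕ} (ht : 0 < t) : √(s : ℝ) ≤ (nw s t : ℝ) := by
  have h1 : s < t * (s / t + 1) := Nat.lt_mul_div_succ s ht
  have h2 : t + s / t + 1 ≤ 2 * nw s t := by rw [nw_def]; omega
  have h3 : s ≤ t * (s / t + 1) := h1.le
  have h4 : (s : ℝ) ≤ t * (((s / t : ℕ) : ℝ) + 1) := by exact_mod_cast h3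
  have h5 : (t : ℝ) + ((s / t : ℕ) : ℝ) + 1 ≤ 2 * (nw s t : ℝ) := by exact_mod_cast h2
  have ht' : (0 : ℝ) < t := by exact_mod_cast ht
  have h6 : √(s : ℝ) * √(s : ℝ) = s := Real.mul_self_sqrt (Nat.cast_nonneg _)
  have h7 : 2 * t * √(s : ℝ) ≤ t * (2 * (nw s t : ℝ)) := by
    nlinarith only [h4, h6, h5, sq_nonneg ((t : ℝ) - √(s : ℝ))]
  have h8 : t * √(s : ℝ) ≤ t * (nw s t : ℝ) := by linarith only [h7]
  exact le_of_mul_le_mul_left h8 ht'

lemma le_bd (x y : ℕ) {z : ℂ} (hx : |z.re| ≤ x) (hy : |z.im| ≤ y) : ‖z‖ ≤ (bd x y : ℝ) := by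
  have h0 : ‖z‖ ≤ √((x : ℝ) ^ 2 + (y : ℝ) ^ 2) := by
    rw [Complex.norm_eq_sqrt_sq_add_sq]
    apply Real.sqrt_le_sqrt
    have := sq_le_sq' (by linarith only [abs_nonneg z.re]) hx
    have := sq_le_sq' (by linarith only [abs_nonneg z.im]) hy
    rw [sq_abs] at *
    linarith
  refine h0.trans ?_
  have h1 := le_nw (x * x + y * y) (one_le_nw (x * x + y * y) (x + y))
  push_cast at h1
  rw [pow_two, pow_two]
  exact h1

/-- the range needed for decoding -/
structure Rg (z : GaussianInt) : Prop where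
  h1 : -(HH : ℤ) ≤ z.re
  h2 : z.re < HH
  h3 : -(HH : ℤ) ≤ z.im
  h4 : z.im < HH

lemma Rg_of {z : GaussianInt} (h : ‖tc z‖ < HH) : Rg z := by
  have h1 := (Complex.abs_re_le_norm (tc z)).trans_lt h
  have h2 := (Complex.abs_im_le_norm (tc z)).trans_lt h
  rw [tc_re, abs_lt] at h1
  rw [tc_im, abs_lt] at h2
  have a1 : (-(HH : ℤ) : ℤ) < z.re := by
    have := h1.1
    exact_mod_cast this
  have a2 : z.re < (HH : ℤ) := by exact_mod_cast h1.2
  have a3 : (-(HH : ℤ) : ℤ) < z.im := by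
    have := h2.1
    exact_mod_cast this
  have a4 : z.im < (HH : ℤ) := by exact_mod_cast h2.2
  exact ⟨a1.le, a2, a3.le, a4⟩

lemma dec_re {n : ℕ} {z : GaussianInt} (h : Rep n z) (g : Rg z) : (dre n : ℝ) = (tc z).re + HH := by
  have := (decode h g.h1 g.h2 g.h3 g.h4).1
  rw [tc_re]
  exact_mod_cast this

lemma dec_im {n : ℕ} {z : GaussianInt} (h : Rep n z) (g : Rg z) : (dim n : ℝ) = (tc z).im + HH := by
  have := (decode h g.h1 g.h2 g.h3 g.h4).2
  rw [tc_im]
  exact_mod_cast this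

lemma Rep.cj {n : ℕ} {z : GaussianInt} (h : Rep n z) (g : Rg z) : Rep (CN.cj n) (star z) :=
  (Rep_cj h g.h1 g.h2 g.h3 g.h4).1

lemma Rep.nj {n : ℕ} {z : GaussianInt} (h : Rep n z) (g : Rg z) : Rep (CN.nj n) (-star z) :=
  (Rep_cj h g.h1 g.h2 g.h3 g.h4).2

/-- bound of the absolute value of a decoded number -/
def nrd (d : ℕ) : ℕ := bd (ad (Nat.mod d (nat_lit 13407807929942597099574024998205846127479365820592393377723561443721764030073546976801874298166903427690031858186486050853753882811946569946433649006084096)) (nat_lit 6703903964971298549787012499102923063739682910296196688861780721860882015036773488400937149083451713845015929093243025426876941405973284973216824503042048)) (ad (Nat.div d (nat_lit 13407807929942597099574024998205846127479365820592393377723561443721764030073546976801874298166903427690031858186486050853753882811946569946433649006084096)) (nat_lit 6703903964971298549787012499102923063739682910296196688861780721860882015036773488400937149083451713845015929093243025426876941405973284973216824503042048))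
/-- bound of the absolute value, by decoding -/
def nrmE (n : ℕ) : ℕ := nrd (dc n)

lemma nrmE_def (n : ℕ) : nrmE n = bd (ad (dre n) HH) (ad (dim n) HH) := rfl

lemma le_nrmE {n : ℕ} {z : GaussianInt} (h : Rep n z) (g : Rg z) : ‖tc z‖ ≤ (nrmE n : ℝ) := by
  rw [nrmE_def]
  apply le_bd
  · rw [ad_cast, dec_re h g]
    simp
  · rw [ad_cast, dec_im h g]
    simp

/-! ### encodings with bounds -/

/-- `n` represents `z` and `b` bounds its absolute value -/
structure RB (n : ℕ) (z : GaussianInt) (b : ℕ) : Prop where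
  rep : Rep n z
  le : ‖tc z‖ ≤ b

namespace RB

variable {n m b b' : ℕ} {z w : GaussianInt}

lemma add (h : RB n z b) (h' : RB m w b') : RB (Nat.add n m) (z + w) (Nat.add b b') := by
  refine ⟨h.rep.add h'.rep, ?_⟩
  change _ ≤ ((b + b' : ℕ) : ℝ)
  rw [map_add]
  push_cast
  exact (norm_add_le _ _).trans (add_le_add h.le h'.le)

lemma mul (h : RB n z b) (h' : RB m w b') : RB (Nat.mul n m) (z * w) (Nat.mul b b') := by
  refine ⟨h.rep.mul h'.rep, ?_⟩
  change _ ≤ ((b * b' : ℕ) : ℝ)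
  rw [map_mul, norm_mul]
  push_cast
  exact mul_le_mul h.le h'.le (norm_nonneg _) (Nat.cast_nonneg _)

lemma pow (h : RB n z b) (k : ℕ) : RB (Nat.pow n k) (z ^ k) (Nat.pow b k) := by
  refine ⟨h.rep.pow k, ?_⟩
  change _ ≤ ((b ^ k : ℕ) : ℝ)
  rw [map_pow, norm_pow]
  push_cast
  exact pow_le_pow_left₀ (norm_nonneg _) h.le k

lemma mod (h : RB n z b) : RB (Nat.mod n (nat_lit 179769313486231590772930519078902473361797697894230657273430081157732675805500963132708477322407536021120113879871393357658789768814416622492847430639474124377767893424865485276302219601246094119453082952085005768838150682342462881473913110540827237163350510684586298239947245938479716304835356329624224137217)) z b := ⟨h.rep.mod, h.le⟩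

lemma m1 : RB (nat_lit 179769313486231590772930519078902473361797697894230657273430081157732675805500963132708477322407536021120113879871393357658789768814416622492847430639474124377767893424865485276302219601246094119453082952085005768838150682342462881473913110540827237163350510684586298239947245938479716304835356329624224137216) (-1) (nat_lit 1) := by
  refine ⟨Rep_M1, ?_⟩
  rw [map_neg, map_one, norm_neg, norm_one]
  exact_mod_cast le_rfl

lemma nat (n : ℕ) : RB n (n : GaussianInt) n := by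
  refine ⟨Rep_nat n, ?_⟩
  have en : tc (n : GaussianInt) = (n : ℂ) := map_natCast tc n
  rw [en]
  simp

lemma mono (h : RB n z b) (hb : b ≤ b') : RB n z b' :=
  ⟨h.rep, h.le.trans (by exact_mod_cast hb)⟩

lemma rg (h : RB n z b) (hb : b < HH) : Rg z :=
  Rg_of (h.le.trans_lt (by exact_mod_cast hb))

lemma nrm (h : RB n z b) (hb : b < HH) : ‖tc z‖ ≤ (nrmE n : ℝ) := le_nrmE h.rep (h.rg hb)

lemma cj (h : RB n z b) (hb : b < HH) : RB (CN.cj n) (star z) b :=
  ⟨h.rep.cj (h.rg hb), by rw [tc_star, Complex.norm_conj]; exact h.le⟩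

lemma nj (h : RB n z b) (hb : b < HH) : RB (CN.nj n) (-star z) b :=
  ⟨h.rep.nj (h.rg hb), by rw [map_neg, norm_neg, tc_star, Complex.norm_conj]; exact h.le⟩

lemma zero (b : ℕ) : RB (nat_lit 0) 0 b := by
  refine ⟨Rep_zero, ?_⟩
  rw [map_zero, norm_zero]
  exact Nat.cast_nonneg _

lemma one {b : ℕ} (hb : 1 ≤ b) : RB (nat_lit 1) 1 b := by
  refine ⟨Rep_one, ?_⟩
  rw [map_one, norm_one]
  exact_mod_cast hb

end RB

/-! ### the environment -/

/-- the scale -/
def D : ℝ := 16384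

lemma D_pos : 0 < D := by unfold D; norm_num

/-- bound of all centres -/
def WW : ℕ := nat_lit 262144

/-- encoded centres, bounds of their absolute values, half widths, bounds of the offsets -/
structure Env where
  x : ℕ
  y : ℕ
  mx : ℕ
  my : ℕ
  a : ℕ
  b : ℕ
  c : ℕ
  d : ℕ
  ρ : ℕ
  σ : ℕ

structure Env.Ok (E : Env) (X Y : GaussianInt) : Prop where
  x : RB E.x X (nat_lit 262144)
  y : RB E.y Y (nat_lit 262144)
  mx : ‖tc X‖ ≤ E.mx
  my : ‖tc Y‖ ≤ E.my

structure Off (E : Env) (δ ε : ℂ) : Prop where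
  a : |δ.re| ≤ E.a
  b : |δ.im| ≤ E.b
  c : |ε.re| ≤ E.c
  d : |ε.im| ≤ E.d
  ρ : ‖δ‖ ≤ E.ρ
  σ : ‖ε‖ ≤ E.σ

/-! ### forms -/

structure G where
  c : ℕ
  p : ℕ
  r : ℕ
  m : ℕ
  l : ℕ
  e : ℕ

/-- the form `A` with the bound `b` describes `x` -/
def Enc (E : Env) (δ ε : ℂ) (b : ℕ) (A : G) (x : ℂ) : Prop :=
  ∃ C P R : GaussianInt, RB A.c C b ∧ RB A.p P b ∧ RB A.r R b ∧ ‖tc C‖ ≤ A.m ∧
    ‖tc P‖ * E.ρ + ‖tc R‖ * E.σ ≤ A.l ∧ ‖x - (tc C + tc P * δ + tc R * ε)‖ ≤ A.e

variable {E : Env} {δ ε x y : ℂ} {A B : G} {b b' : ℕ}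

lemma lin_le (h : Off E δ ε) {P R : ℂ} {l : ℝ} (hl : ‖P‖ * E.ρ + ‖R‖ * E.σ ≤ l) :
    ‖P * δ + R * ε‖ ≤ l := by
  refine (norm_add_le _ _).trans ?_
  rw [norm_mul, norm_mul]
  have h1 := mul_le_mul_of_nonneg_left h.ρ (norm_nonneg P)
  have h2 := mul_le_mul_of_nonneg_left h.σ (norm_nonneg R)
  linarith only [hl, h1, h2]

namespace G

def add (A B : G) : G := @G.rec (fun _ => G) (fun c p r m l e => @G.rec (fun _ => G) (fun c' p' r' m' l' e' =>
  ⟨Nat.add c c', Nat.add p p', Nat.add r r', Nat.add m m', Nat.add l l', Nat.add e e'⟩) B) A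

def sub (A B : G) : G := @G.rec (fun _ => G) (fun c p r m l e => @G.rec (fun _ => G) (fun c' p' r' m' l' e' =>
  ⟨Nat.add c (Nat.mul (nat_lit 179769313486231590772930519078902473361797697894230657273430081157732675805500963132708477322407536021120113879871393357658789768814416622492847430639474124377767893424865485276302219601246094119453082952085005768838150682342462881473913110540827237163350510684586298239947245938479716304835356329624224137216) c'), Nat.add p (Nat.mul (nat_lit 179769313486231590772930519078902473361797697894230657273430081157732675805500963132708477322407536021120113879871393357658789768814416622492847430639474124377767893424865485276302219601246094119453082952085005768838150682342462881473913110540827237163350510684586298239947245938479716304835356329624224137216) p'),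
    Nat.add r (Nat.mul (nat_lit 179769313486231590772930519078902473361797697894230657273430081157732675805500963132708477322407536021120113879871393357658789768814416622492847430639474124377767893424865485276302219601246094119453082952085005768838150682342462881473913110540827237163350510684586298239947245938479716304835356329624224137216) r'), Nat.add m m', Nat.add l l', Nat.add e e'⟩) B) A

def mul (A B : G) : G := @G.rec (fun _ => G) (fun c p r m l e => @G.rec (fun _ => G) (fun c' p' r' m' l' e' =>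
  ⟨Nat.mod (Nat.mul c c') (nat_lit 179769313486231590772930519078902473361797697894230657273430081157732675805500963132708477322407536021120113879871393357658789768814416622492847430639474124377767893424865485276302219601246094119453082952085005768838150682342462881473913110540827237163350510684586298239947245938479716304835356329624224137217), Nat.mod (Nat.add (Nat.mul c p') (Nat.mul c' p)) (nat_lit 179769313486231590772930519078902473361797697894230657273430081157732675805500963132708477322407536021120113879871393357658789768814416622492847430639474124377767893424865485276302219601246094119453082952085005768838150682342462881473913110540827237163350510684586298239947245938479716304835356329624224137217),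
    Nat.mod (Nat.add (Nat.mul c r') (Nat.mul c' r)) (nat_lit 179769313486231590772930519078902473361797697894230657273430081157732675805500963132708477322407536021120113879871393357658789768814416622492847430639474124377767893424865485276302219601246094119453082952085005768838150682342462881473913110540827237163350510684586298239947245938479716304835356329624224137217), Nat.mul m m',
    Nat.add (Nat.mul m l') (Nat.mul m' l),
    Nat.add (Nat.add (Nat.mul m e') (Nat.mul m' e)) (Nat.mul (Nat.add l e) (Nat.add l' e'))⟩) B) A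

def sq (A : G) : G := @G.rec (fun _ => G) (fun c p r m l e =>
  ⟨Nat.mod (Nat.mul c c) (nat_lit 179769313486231590772930519078902473361797697894230657273430081157732675805500963132708477322407536021120113879871393357658789768814416622492847430639474124377767893424865485276302219601246094119453082952085005768838150682342462881473913110540827237163350510684586298239947245938479716304835356329624224137217), Nat.mod (Nat.mul (nat_lit 2) (Nat.mul c p)) (nat_lit 179769313486231590772930519078902473361797697894230657273430081157732675805500963132708477322407536021120113879871393357658789768814416622492847430639474124377767893424865485276302219601246094119453082952085005768838150682342462881473913110540827237163350510684586298239947245938479716304835356329624224137217),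
    Nat.mod (Nat.mul (nat_lit 2) (Nat.mul c r)) (nat_lit 179769313486231590772930519078902473361797697894230657273430081157732675805500963132708477322407536021120113879871393357658789768814416622492847430639474124377767893424865485276302219601246094119453082952085005768838150682342462881473913110540827237163350510684586298239947245938479716304835356329624224137217), Nat.mul m m, Nat.mul (nat_lit 2) (Nat.mul m l),
    Nat.add (Nat.mul (nat_lit 2) (Nat.mul m e)) (Nat.mul (Nat.add l e) (Nat.add l e))⟩) A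

/-- multiplication by the Gaussian integer with encoding `g` and bound `n` -/
def gm (g n : ℕ) (A : G) : G := @G.rec (fun _ => G) (fun c p r m l e =>
  ⟨Nat.mod (Nat.mul g c) (nat_lit 179769313486231590772930519078902473361797697894230657273430081157732675805500963132708477322407536021120113879871393357658789768814416622492847430639474124377767893424865485276302219601246094119453082952085005768838150682342462881473913110540827237163350510684586298239947245938479716304835356329624224137217), Nat.mod (Nat.mul g p) (nat_lit 179769313486231590772930519078902473361797697894230657273430081157732675805500963132708477322407536021120113879871393357658789768814416622492847430639474124377767893424865485276302219601246094119453082952085005768838150682342462881473913110540827237163350510684586298239947245938479716304835356329624224137217),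
    Nat.mod (Nat.mul g r) (nat_lit 179769313486231590772930519078902473361797697894230657273430081157732675805500963132708477322407536021120113879871393357658789768814416622492847430639474124377767893424865485276302219601246094119453082952085005768838150682342462881473913110540827237163350510684586298239947245938479716304835356329624224137217), Nat.mul n m, Nat.mul n l, Nat.mul n e⟩) A

/-- multiplication by a natural number -/
def nm (n : ℕ) (A : G) : G := @G.rec (fun _ => G) (fun c p r m l e =>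
  ⟨Nat.mul n c, Nat.mul n p, Nat.mul n r, Nat.mul n m, Nat.mul n l, Nat.mul n e⟩) A

/-- new bound for the value -/
def nc (A : G) : G := @G.rec (fun _ => G) (fun c p r _ l e => ⟨c, p, r, nrmE c, l, e⟩) A

/-- new bounds for the value and the linear part -/
def nl (ρ σ : ℕ) (A : G) : G := @G.rec (fun _ => G) (fun c p r _ _ e =>
  ⟨c, p, r, nrmE c, Nat.add (Nat.mul (nrmE p) ρ) (Nat.mul (nrmE r) σ), e⟩) A

end G

lemma Enc.add (h : Enc E δ ε b A x) (h' : Enc E δ ε b' B y) :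
    Enc E δ ε (Nat.add b b') (A.add B) (x + y) := by
  obtain ⟨C, P, R, h1, h2, h3, h4, h5, h6⟩ := h
  obtain ⟨C', P', R', g1, g2, g3, g4, g5, g6⟩ := h'
  obtain ⟨c, p, r, m, l, e⟩ := A
  obtain ⟨c', p', r', m', l', e'⟩ := B
  refine ⟨C + C', P + P', R + R', h1.add g1, h2.add g2, h3.add g3, ?_, ?_, ?_⟩
  · change _ ≤ ((m + m' : ℕ) : ℝ)
    rw [map_add]
    push_cast
    exact (norm_add_le _ _).trans (add_le_add h4 g4)
  · change _ ≤ ((l + l' : ℕ) : ℝ)
    rw [map_add, map_add]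
    push_cast
    dsimp only at h5 g5
    have a1 := mul_le_mul_of_nonneg_right (norm_add_le (tc P) (tc P')) (Nat.cast_nonneg (α := ℝ) E.ρ)
    have a2 := mul_le_mul_of_nonneg_right (norm_add_le (tc R) (tc R')) (Nat.cast_nonneg (α := ℝ) E.σ)
    linarith only [h5, g5, a1, a2]
  · change _ ≤ ((e + e' : ℕ) : ℝ)
    rw [map_add, map_add, map_add]
    push_cast
    have e : x + y - (tc C + tc C' + (tc P + tc P') * δ + (tc R + tc R') * ε) =
        (x - (tc C + tc P * δ + tc R * ε)) + (y - (tc C' + tc P' * δ + tc R' * ε)) := by ring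
    rw [e]
    exact (norm_add_le _ _).trans (add_le_add h6 g6)

lemma one_mul_le {b : ℕ} : Nat.mul 1 b ≤ b := by
  change 1 * b ≤ b
  omega

lemma Enc.neg {c p r m l e : ℕ} (h : Enc E δ ε b ⟨c, p, r, m, l, e⟩ x) :
    Enc E δ ε b ⟨Nat.mul (nat_lit 179769313486231590772930519078902473361797697894230657273430081157732675805500963132708477322407536021120113879871393357658789768814416622492847430639474124377767893424865485276302219601246094119453082952085005768838150682342462881473913110540827237163350510684586298239947245938479716304835356329624224137216) c, Nat.mul (nat_lit 179769313486231590772930519078902473361797697894230657273430081157732675805500963132708477322407536021120113879871393357658789768814416622492847430639474124377767893424865485276302219601246094119453082952085005768838150682342462881473913110540827237163350510684586298239947245938479716304835356329624224137216) p, Nat.mul (nat_lit 179769313486231590772930519078902473361797697894230657273430081157732675805500963132708477322407536021120113879871393357658789768814416622492847430639474124377767893424865485276302219601246094119453082952085005768838150682342462881473913110540827237163350510684586298239947245938479716304835356329624224137216)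 r, m, l, e⟩ (-x) := by
  obtain ⟨C, P, R, h1, h2, h3, h4, h5, h6⟩ := h
  refine ⟨-1 * C, -1 * P, -1 * R, (RB.m1.mul h1).mono one_mul_le, (RB.m1.mul h2).mono one_mul_le,
    (RB.m1.mul h3).mono one_mul_le, ?_, ?_, ?_⟩
  · rw [map_mul, map_neg, map_one, neg_one_mul, norm_neg]
    exact h4
  · rw [map_mul, map_mul, map_neg, map_one, neg_one_mul, neg_one_mul, norm_neg, norm_neg]
    exact h5
  · rw [map_mul, map_mul, map_mul, map_neg, map_one, ← norm_neg]
    have e : -(-x - (-1 * tc C + -1 * tc P * δ + -1 * tc R * ε)) =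
        x - (tc C + tc P * δ + tc R * ε) := by ring
    rw [e]
    exact h6

lemma Enc.sub (h : Enc E δ ε b A x) (h' : Enc E δ ε b' B y) :
    Enc E δ ε (Nat.add b b') (A.sub B) (x - y) := by
  obtain ⟨c', p', r', m', l', e'⟩ := B
  rw [sub_eq_add_neg]
  exact h.add h'.neg

lemma dbl_le {b b' : ℕ} : Nat.mul b b' ≤ Nat.mul 2 (Nat.mul b b') := by
  change b * b' ≤ 2 * (b * b')
  omega

lemma dbl_le' {b b' : ℕ} : Nat.add (Nat.mul b b') (Nat.mul b' b) ≤ Nat.mul 2 (Nat.mul b b') := by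
  change b * b' + b' * b ≤ 2 * (b * b')
  rw [mul_comm b' b]
  omega

lemma Enc.mul (ho : Off E δ ε) (h : Enc E δ ε b A x) (h' : Enc E δ ε b' B y) :
    Enc E δ ε (Nat.mul 2 (Nat.mul b b')) (A.mul B) (x * y) := by
  obtain ⟨C, P, R, h1, h2, h3, h4, h5, h6⟩ := h
  obtain ⟨C', P', R', g1, g2, g3, g4, g5, g6⟩ := h'
  obtain ⟨c, p, r, m, l, e⟩ := A
  obtain ⟨c', p', r', m', l', e'⟩ := B
  dsimp only at h4 h5 h6 g4 g5 g6
  refine ⟨C * C', C * P' + C' * P, C * R' + C' * R, (h1.mul g1).mod.mono dbl_le,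
    ((h1.mul g2).add (g1.mul h2)).mod.mono dbl_le', ((h1.mul g3).add (g1.mul h3)).mod.mono dbl_le', ?_, ?_, ?_⟩
  · change _ ≤ ((m * m' : ℕ) : ℝ)
    rw [map_mul, norm_mul]
    push_cast
    exact mul_le_mul h4 g4 (norm_nonneg _) (Nat.cast_nonneg _)
  · change _ ≤ ((m * l' + m' * l : ℕ) : ℝ)
    rw [map_add, map_add, map_mul, map_mul, map_mul, map_mul]
    push_cast
    have r0 : (0 : ℝ) ≤ E.ρ := Nat.cast_nonneg _
    have s0 : (0 : ℝ) ≤ E.σ := Nat.cast_nonneg _
    have a1 := mul_le_mul_of_nonneg_right (norm_add_le (tc C * tc P') (tc C' * tc P)) r0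
    have a2 := mul_le_mul_of_nonneg_right (norm_add_le (tc C * tc R') (tc C' * tc R)) s0
    rw [norm_mul, norm_mul] at a1 a2
    have a3 := mul_le_mul h4 g5 (by positivity) (Nat.cast_nonneg _)
    have a4 := mul_le_mul g4 h5 (by positivity) (Nat.cast_nonneg _)
    linarith only [a1, a2, a3, a4]
  · change _ ≤ ((m * e' + m' * e + (l + e) * (l' + e') : ℕ) : ℝ)
    have l1 := lin_le ho h5
    have l2 := lin_le ho g5
    set s := x - (tc C + tc P * δ + tc R * ε) with hs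
    set s' := y - (tc C' + tc P' * δ + tc R' * ε) with hs'
    set L := tc P * δ + tc R * ε with hL
    set L' := tc P' * δ + tc R' * ε with hL'
    rw [map_add, map_add, map_mul, map_mul, map_mul, map_mul, map_mul]
    have e0 : x * y - (tc C * tc C' + (tc C * tc P' + tc C' * tc P) * δ +
        (tc C * tc R' + tc C' * tc R) * ε) =
        tc C * s' + tc C' * s + (L + s) * (L' + s') := by
      have ex : x = tc C + L + s := by rw [hs, hL]; ring
      have ey : y = tc C' + L' + s' := by rw [hs', hL']; ring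
      rw [ex, ey, hL, hL']
      ring
    rw [e0]
    push_cast
    have b1 : ‖tc C * s'‖ ≤ (m : ℝ) * e' := by
      rw [norm_mul]; exact mul_le_mul h4 g6 (norm_nonneg _) (Nat.cast_nonneg _)
    have b2 : ‖tc C' * s‖ ≤ (m' : ℝ) * e := by
      rw [norm_mul]; exact mul_le_mul g4 h6 (norm_nonneg _) (Nat.cast_nonneg _)
    have b3 : ‖(L + s) * (L' + s')‖ ≤ ((l : ℝ) + e) * (l' + e') := by
      rw [norm_mul]
      exact mul_le_mul ((norm_add_le _ _).trans (add_le_add l1 h6))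
        ((norm_add_le _ _).trans (add_le_add l2 g6)) (norm_nonneg _) (by positivity)
    exact (norm_add₃_le).trans (by linarith only [b1, b2, b3])

lemma Rep_two : Rep (nat_lit 2) (2 : GaussianInt) := by
  have := Rep_nat 2
  simpa using this

lemma RB_two : RB (nat_lit 2) (2 : GaussianInt) 2 := by
  refine ⟨Rep_two, ?_⟩
  rw [map_ofNat]
  simp

lemma Enc.sq (ho : Off E δ ε) (h : Enc E δ ε b A x) :
    Enc E δ ε (Nat.mul 2 (Nat.mul b b)) A.sq (x ^ 2) := by
  obtain ⟨C, P, R, h1, h2, h3, h4, h5, h6⟩ := h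
  obtain ⟨c, p, r, m, l, e⟩ := A
  dsimp only at h4 h5 h6
  refine ⟨C * C, 2 * (C * P), 2 * (C * R), (h1.mul h1).mod.mono dbl_le, (RB_two.mul (h1.mul h2)).mod,
    (RB_two.mul (h1.mul h3)).mod, ?_, ?_, ?_⟩
  · change _ ≤ ((m * m : ℕ) : ℝ)
    rw [map_mul, norm_mul]
    push_cast
    exact mul_le_mul h4 h4 (norm_nonneg _) (Nat.cast_nonneg _)
  · change _ ≤ ((2 * (m * l) : ℕ) : ℝ)
    rw [map_mul, map_mul, map_mul, map_mul, norm_mul, norm_mul, norm_mul, norm_mul]
    have e2 : ‖tc (2 : GaussianInt)‖ = 2 := by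
      rw [map_ofNat]; simp
    rw [e2]
    push_cast
    have a3 := mul_le_mul h4 h5 (by positivity) (Nat.cast_nonneg _)
    linarith only [a3]
  · change _ ≤ ((2 * (m * e) + (l + e) * (l + e) : ℕ) : ℝ)
    have l1 := lin_le ho h5
    set s := x - (tc C + tc P * δ + tc R * ε) with hs
    set L := tc P * δ + tc R * ε with hL
    rw [map_mul, map_mul, map_mul, map_mul, map_mul, map_ofNat]
    have e0 : x ^ 2 - (tc C * tc C + 2 * (tc C * tc P) * δ + 2 * (tc C * tc R) * ε) =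
        2 * (tc C * s) + (L + s) * (L + s) := by
      have ex : x = tc C + L + s := by rw [hs, hL]; ring
      rw [ex, hL]
      ring
    rw [e0]
    push_cast
    have b1 : ‖tc C * s‖ ≤ (m : ℝ) * e := by
      rw [norm_mul]; exact mul_le_mul h4 h6 (norm_nonneg _) (Nat.cast_nonneg _)
    have b1' : ‖2 * (tc C * s)‖ ≤ 2 * ((m : ℝ) * e) := by
      rw [norm_mul (2 : ℂ), Complex.norm_ofNat]
      linarith only [b1]
    have b3 : ‖(L + s) * (L + s)‖ ≤ ((l : ℝ) + e) * (l + e) := by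
      rw [norm_mul]
      exact mul_le_mul ((norm_add_le _ _).trans (add_le_add l1 h6))
        ((norm_add_le _ _).trans (add_le_add l1 h6)) (norm_nonneg _) (by positivity)
    exact (norm_add_le _ _).trans (by linarith only [b1', b3])

lemma Enc.gm {g n : ℕ} {z : GaussianInt} (hg : RB g z n) (h : Enc E δ ε b A x) :
    Enc E δ ε (Nat.mul n b) (A.gm g n) (tc z * x) := by
  obtain ⟨C, P, R, h1, h2, h3, h4, h5, h6⟩ := h
  obtain ⟨c, p, r, m, l, e⟩ := A
  dsimp only at h4 h5 h6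
  refine ⟨z * C, z * P, z * R, (hg.mul h1).mod, (hg.mul h2).mod, (hg.mul h3).mod, ?_, ?_, ?_⟩
  · change _ ≤ ((n * m : ℕ) : ℝ)
    rw [map_mul, norm_mul]
    push_cast
    exact mul_le_mul hg.le h4 (norm_nonneg _) (Nat.cast_nonneg _)
  · change _ ≤ ((n * l : ℕ) : ℝ)
    rw [map_mul, map_mul, norm_mul, norm_mul]
    push_cast
    have r0 : (0 : ℝ) ≤ E.ρ := Nat.cast_nonneg _
    have s0 : (0 : ℝ) ≤ E.σ := Nat.cast_nonneg _
    have := mul_le_mul hg.le h5 (by positivity) (Nat.cast_nonneg _)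
    linarith only [this]
  · change _ ≤ ((n * e : ℕ) : ℝ)
    rw [map_mul, map_mul, map_mul]
    have e0 : tc z * x - (tc z * tc C + tc z * tc P * δ + tc z * tc R * ε) =
        tc z * (x - (tc C + tc P * δ + tc R * ε)) := by ring
    rw [e0, norm_mul]
    push_cast
    exact mul_le_mul hg.le h6 (norm_nonneg _) (Nat.cast_nonneg _)

lemma Enc.nm (n : ℕ) (h : Enc E δ ε b A x) : Enc E δ ε (Nat.mul n b) (A.nm n) (n * x) := by
  obtain ⟨C, P, R, h1, h2, h3, h4, h5, h6⟩ := h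
  obtain ⟨c, p, r, m, l, e⟩ := A
  dsimp only at h4 h5 h6
  have hg := RB.nat n
  have en : tc (n : GaussianInt) = (n : ℂ) := map_natCast tc n
  have hn : ‖tc (n : GaussianInt)‖ = n := by
    rw [en]
    simp
  refine ⟨n * C, n * P, n * R, hg.mul h1, hg.mul h2, hg.mul h3, ?_, ?_, ?_⟩
  · change _ ≤ ((n * m : ℕ) : ℝ)
    rw [map_mul, norm_mul, hn]
    push_cast
    exact mul_le_mul_of_nonneg_left h4 (Nat.cast_nonneg _)
  · change _ ≤ ((n * l : ℕ) : ℝ)
    rw [map_mul, map_mul, norm_mul, norm_mul, hn]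
    push_cast
    have := mul_le_mul_of_nonneg_left h5 (Nat.cast_nonneg (α := ℝ) n)
    linarith only [this]
  · change _ ≤ ((n * e : ℕ) : ℝ)
    rw [map_mul, map_mul, map_mul, en]
    have e0 : (n : ℂ) * x - ((n : ℂ) * tc C + n * tc P * δ + n * tc R * ε) =
        n * (x - (tc C + tc P * δ + tc R * ε)) := by ring
    rw [e0, norm_mul, Complex.norm_natCast]
    push_cast
    exact mul_le_mul_of_nonneg_left h6 (Nat.cast_nonneg _)

lemma Enc.nc (hb : b < HH) (h : Enc E δ ε b A x) : Enc E δ ε b A.nc x := by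
  obtain ⟨C, P, R, h1, h2, h3, h4, h5, h6⟩ := h
  obtain ⟨c, p, r, m, l, e⟩ := A
  exact ⟨C, P, R, h1, h2, h3, h1.nrm hb, h5, h6⟩

/-- the general way to a form -/
lemma Enc.mk {C P R : GaussianInt} {c p r e : ℕ} {t : ℂ} (hb : b < HH) (hc : RB c C b) (hp : RB p P b)
    (hr : RB r R b) (hx : x = tc C + tc P * δ + tc R * ε + t) (ht : ‖t‖ ≤ e) :
    Enc E δ ε b ⟨c, p, r, nrmE c, Nat.add (Nat.mul (nrmE p) E.ρ) (Nat.mul (nrmE r) E.σ), e⟩ x := by
  refine ⟨C, P, R, hc, hp, hr, hc.nrm hb, ?_, ?_⟩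
  · change _ ≤ ((nrmE p * E.ρ + nrmE r * E.σ : ℕ) : ℝ)
    push_cast
    have d1 := mul_le_mul_of_nonneg_right (hp.nrm hb) (Nat.cast_nonneg (α := ℝ) E.ρ)
    have d2 := mul_le_mul_of_nonneg_right (hr.nrm hb) (Nat.cast_nonneg (α := ℝ) E.σ)
    linarith only [d1, d2]
  · have e0 : x - (tc C + tc P * δ + tc R * ε) = t := by rw [hx]; ring
    rw [e0]
    exact ht

lemma Enc.nl (hb : b < HH) (h : Enc E δ ε b A x) : Enc E δ ε b (A.nl E.ρ E.σ) x := by
  obtain ⟨C, P, R, h1, h2, h3, h4, h5, h6⟩ := h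
  obtain ⟨c, p, r, m, l, e⟩ := A
  exact Enc.mk hb h1 h2 h3 (t := x - (tc C + tc P * δ + tc R * ε)) (by ring) h6

end

end Pool.Agent.Work.MP_b30479_gtS.G2.CN

end

section

/-!
# Linear forms on a cell

* `LF`: a form `Im F + Im (V δ) + Im (W ε) + e` in the offsets `δ`, `ε`; `LOk`: a real number is at
  most the value of the form; `tst4`: the form is negative on the cell;
* `lqI`, `lqM`, `lqG`, `lqB`, `lqA`: forms for `Im (z N conj M) - γ ‖N‖² - μ ‖M‖²`;
* `ll`, `ld`: forms for `Im (z A) - m ‖A‖² + k`.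
-/

namespace Pool.Agent.Work.MP_b30479_gtS.G2.CN

open Complex

noncomputable section

variable {E : Env} {δ ε x y : ℂ} {N M : G} {bN bM : ℕ}

/-! ### forms and their test -/

/-- a form: `F`, `V`, `W` are encoded complex numbers -/
structure LF where
  F : ℕ
  V : ℕ
  W : ℕ
  e : ℕ

/-- `x` is at most the value of the form -/
def LOk (δ ε : ℂ) (b : ℕ) (L : LF) (x : ℝ) : Prop :=
  ∃ z0 z1 z2 : GaussianInt, RB L.F z0 b ∧ RB L.V z1 b ∧ RB L.W z2 b ∧
    x ≤ (tc z0).im + (tc z1 * δ).im + (tc z2 * ε).im + L.e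

/-- the last part of the test: `f`, `v`, `w` decoded values -/
def tst3 (a b c d e f v w : ℕ) : Bool :=
  Nat.ble (Nat.succ (Nat.add (Nat.add (Nat.add (Nat.add (Nat.add (Nat.div f (nat_lit 13407807929942597099574024998205846127479365820592393377723561443721764030073546976801874298166903427690031858186486050853753882811946569946433649006084096))
    (Nat.mul (ad (Nat.div v (nat_lit 13407807929942597099574024998205846127479365820592393377723561443721764030073546976801874298166903427690031858186486050853753882811946569946433649006084096)) (nat_lit 6703903964971298549787012499102923063739682910296196688861780721860882015036773488400937149083451713845015929093243025426876941405973284973216824503042048)) a))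
    (Nat.mul (ad (Nat.mod v (nat_lit 13407807929942597099574024998205846127479365820592393377723561443721764030073546976801874298166903427690031858186486050853753882811946569946433649006084096)) (nat_lit 6703903964971298549787012499102923063739682910296196688861780721860882015036773488400937149083451713845015929093243025426876941405973284973216824503042048)) b))
    (Nat.mul (ad (Nat.div w (nat_lit 13407807929942597099574024998205846127479365820592393377723561443721764030073546976801874298166903427690031858186486050853753882811946569946433649006084096)) (nat_lit 6703903964971298549787012499102923063739682910296196688861780721860882015036773488400937149083451713845015929093243025426876941405973284973216824503042048)) c))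
    (Nat.mul (ad (Nat.mod w (nat_lit 13407807929942597099574024998205846127479365820592393377723561443721764030073546976801874298166903427690031858186486050853753882811946569946433649006084096)) (nat_lit 6703903964971298549787012499102923063739682910296196688861780721860882015036773488400937149083451713845015929093243025426876941405973284973216824503042048)) d)) e)) (nat_lit 6703903964971298549787012499102923063739682910296196688861780721860882015036773488400937149083451713845015929093243025426876941405973284973216824503042048)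

/-- the form is negative on the cell with the half widths `a, b, c, d` -/
def tst4 (a b c d F V W e : ℕ) : Bool := tst3 a b c d e (dc F) (dc V) (dc W)

/-- the form is negative on the cell -/
def tst (L : LF) (a b c d : ℕ) : Bool := @LF.rec (fun _ => Bool) (fun F V W e => tst4 a b c d F V W e) L

lemma im_lin {v : ℂ} {a b : ℝ} (ha : |δ.re| ≤ a) (hb : |δ.im| ≤ b) :
    (v * δ).im ≤ |v.im| * a + |v.re| * b := by
  rw [Complex.mul_im]
  have h1 : v.re * δ.im ≤ |v.re| * b := by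
    refine (le_abs_self _).trans ?_
    rw [abs_mul]
    exact mul_le_mul_of_nonneg_left hb (abs_nonneg _)
  have h2 : v.im * δ.re ≤ |v.im| * a := by
    refine (le_abs_self _).trans ?_
    rw [abs_mul]
    exact mul_le_mul_of_nonneg_left ha (abs_nonneg _)
  linarith only [h1, h2]

theorem tst4_spec {b F V W e : ℕ} {x : ℝ} (ho : Off E δ ε) (h : LOk δ ε b ⟨F, V, W, e⟩ x) (hb : b < HH)
    (ht : tst4 E.a E.b E.c E.d F V W e = true) : x < 0 := by
  obtain ⟨z0, z1, z2, h0, h1, h2, h3⟩ := h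
  dsimp only at h0 h1 h2 h3
  have v0 := dec_im h0.rep (h0.rg hb)
  have v1 := dec_im h1.rep (h1.rg hb)
  have v1' := dec_re h1.rep (h1.rg hb)
  have v2 := dec_im h2.rep (h2.rg hb)
  have v2' := dec_re h2.rep (h2.rg hb)
  have hh : dim F + ad (dim V) HH * E.a + ad (dre V) HH * E.b + ad (dim W) HH * E.c +
      ad (dre W) HH * E.d + e + 1 ≤ HH := Nat.le_of_ble_eq_true ht
  have hh2 : ((dim F + ad (dim V) HH * E.a + ad (dre V) HH * E.b + ad (dim W) HH * E.c +
      ad (dre W) HH * E.d + e + 1 : ℕ) : ℝ) ≤ HH := by exact_mod_cast hh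
  push_cast [ad_cast] at hh2
  rw [v0, v1, v1', v2, v2'] at hh2
  simp only [add_sub_cancel_right] at hh2
  have b3 := im_lin (v := tc z1) ho.a ho.b
  have b4 := im_lin (v := tc z2) ho.c ho.d
  linarith only [h3, hh2, b3, b4]

theorem tst_spec {b : ℕ} {L : LF} {x : ℝ} (ho : Off E δ ε) (h : LOk δ ε b L x) (hb : b < HH)
    (ht : tst L E.a E.b E.c E.d = true) : x < 0 := by
  obtain ⟨F, V, W, e⟩ := L
  exact tst4_spec ho h hb ht

lemma LOk.mono {b b' : ℕ} {L : LF} {x x' : ℝ} (h : LOk δ ε b L x) (hb : b ≤ b') (hx : x' ≤ x) :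
    LOk δ ε b' L x' := by
  obtain ⟨z0, z1, z2, h0, h1, h2, h3⟩ := h
  exact ⟨z0, z1, z2, h0.mono hb, h1.mono hb, h2.mono hb, hx.trans h3⟩

lemma LOk.zero : LOk δ ε 0 ⟨nat_lit 0, nat_lit 0, nat_lit 0, nat_lit 0⟩ 0 := by
  refine ⟨0, 0, 0, RB.zero 0, RB.zero 0, RB.zero 0, ?_⟩
  simp

/-- sum of forms -/
lemma LOk.add {b b' m : ℕ} {F V W e F' V' W' e' : ℕ} {x x' : ℝ} (h : LOk δ ε b ⟨F, V, W, e⟩ x)
    (h' : LOk δ ε b' ⟨F', V', W', e'⟩ x') : LOk δ ε (Nat.add b (Nat.mul m b'))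
      ⟨Nat.add F (Nat.mul m F'), Nat.add V (Nat.mul m V'), Nat.add W (Nat.mul m W'), Nat.add e (Nat.mul m e')⟩
      (x + m * x') := by
  obtain ⟨z0, z1, z2, h0, h1, h2, h3⟩ := h
  obtain ⟨w0, w1, w2, k0, k1, k2, k3⟩ := h'
  dsimp only at h0 h1 h2 h3 k0 k1 k2 k3
  have hm := RB.nat m
  refine ⟨_, _, _, h0.add (hm.mul k0), h1.add (hm.mul k1), h2.add (hm.mul k2), ?_⟩
  have n0 : (0 : ℝ) ≤ m := Nat.cast_nonneg _
  have k4 := mul_le_mul_of_nonneg_left k3 n0
  have e0 : (tc (z0 + (m : GaussianInt) * w0)).im = (tc z0).im + m * (tc w0).im := by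
    rw [map_add, map_mul, map_natCast, Complex.add_im, ← Complex.ofReal_natCast, Complex.im_ofReal_mul]
  have e1 : (tc (z1 + (m : GaussianInt) * w1) * δ).im = (tc z1 * δ).im + m * (tc w1 * δ).im := by
    rw [map_add, map_mul, map_natCast, add_mul, mul_assoc, Complex.add_im, ← Complex.ofReal_natCast,
      Complex.im_ofReal_mul]
  have e2 : (tc (z2 + (m : GaussianInt) * w2) * ε).im = (tc z2 * ε).im + m * (tc w2 * ε).im := by
    rw [map_add, map_mul, map_natCast, add_mul, mul_assoc, Complex.add_im, ← Complex.ofReal_natCast,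
      Complex.im_ofReal_mul]
  have e3 : (((Nat.add e (Nat.mul m e') : ℕ)) : ℝ) = e + m * e' := by
    change ((e + m * e' : ℕ) : ℝ) = _
    push_cast
    rfl
  rw [e0, e1, e2]
  dsimp only
  rw [e3]
  linarith only [h3, k4]

/-! ### quotients -/

/-- the error of the product -/
def qe (n Nm Ne Mm Me i j : ℕ) : ℕ :=
  Nat.mul n (Nat.add (Nat.add (Nat.mul i j) (Nat.mul Mm Ne)) (Nat.mul Nm Me))

/-- the error of a square; `g2 = 2 γ`, `gm` the negative part of `γ` -/
def qs (g2 gm Nm Ne i : ℕ) : ℕ := Nat.add (Nat.mul g2 (Nat.mul Nm Ne)) (Nat.mul gm (Nat.mul i i))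

def lqI2 (n Nc Np Nr Nm Nl Ne Mp Mr Mm Ml Me u v : ℕ) : LF :=
  ⟨Nat.mul u Nc, Nat.add (Nat.mul u Np) (Nat.mul v Mp), Nat.add (Nat.mul u Nr) (Nat.mul v Mr),
    qe n Nm Ne Mm Me (Nat.add Nl Ne) (Nat.add Ml Me)⟩

/-- `Im (z N conj M)`; `g` encodes `z`, `h` encodes `- conj z`, `n` bounds `|z|` -/
def lqI (g h n : ℕ) (N M : G) : LF :=
  @G.rec (fun _ => LF) (fun Nc Np Nr Nm Nl Ne => @G.rec (fun _ => LF) (fun Mc Mp Mr Mm Ml Me =>
    lqI2 n Nc Np Nr Nm Nl Ne Mp Mr Mm Ml Me (Nat.mul g (cj Mc)) (Nat.mul h (cj Nc))) M) N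

def lqM3 (n m2 mm Nc Np Nr Nm Ne Mc Mp Mr Mm Me i j u t q : ℕ) : LF :=
  ⟨Nat.add (Nat.mul u Nc) (Nat.mul t Mc), Nat.add (Nat.mul u Np) (Nat.mul q Mp),
    Nat.add (Nat.mul u Nr) (Nat.mul q Mr), Nat.add (qe n Nm Ne Mm Me i j) (qs m2 mm Mm Me j)⟩

def lqM2 (n m2 mm Nc Np Nr Nm Ne Mc Mp Mr Mm Me i j u v t : ℕ) : LF :=
  lqM3 n m2 mm Nc Np Nr Nm Ne Mc Mp Mr Mm Me i j u t (Nat.add v (Nat.mul (nat_lit 2) t))

/-- `Im (z N conj M) - μ ‖M‖²`; `b` encodes `- μ i`, `m2 = 2 |μ|`, `mm` the negative part of `μ` -/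
def lqM (g h n b m2 mm : ℕ) (N M : G) : LF :=
  @G.rec (fun _ => LF) (fun Nc Np Nr Nm Nl Ne => @G.rec (fun _ => LF) (fun Mc Mp Mr Mm Ml Me =>
    lqM2 n m2 mm Nc Np Nr Nm Ne Mc Mp Mr Mm Me (Nat.add Nl Ne) (Nat.add Ml Me) (Nat.mul g (cj Mc))
      (Nat.mul h (cj Nc)) (Nat.mul b (cj Mc))) M) N

def lqG3 (n g2 gm Nc Np Nr Nm Ne Mp Mr Mm Me i j u v s p : ℕ) : LF :=
  ⟨Nat.mul (Nat.add u s) Nc, Nat.add (Nat.mul p Np) (Nat.mul v Mp),
    Nat.add (Nat.mul p Nr) (Nat.mul v Mr), Nat.add (qe n Nm Ne Mm Me i j) (qs g2 gm Nm Ne i)⟩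

def lqG2 (n g2 gm Nc Np Nr Nm Ne Mp Mr Mm Me i j u v s : ℕ) : LF :=
  lqG3 n g2 gm Nc Np Nr Nm Ne Mp Mr Mm Me i j u v s (Nat.add u (Nat.mul (nat_lit 2) s))

/-- `Im (z N conj M) - γ ‖N‖²`; `a` encodes `- γ i`, `g2 = 2 |γ|`, `gm` the negative part of `γ` -/
def lqG (g h n a g2 gm : ℕ) (N M : G) : LF :=
  @G.rec (fun _ => LF) (fun Nc Np Nr Nm Nl Ne => @G.rec (fun _ => LF) (fun Mc Mp Mr Mm Ml Me =>
    lqG2 n g2 gm Nc Np Nr Nm Ne Mp Mr Mm Me (Nat.add Nl Ne) (Nat.add Ml Me) (Nat.mul g (cj Mc))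
      (Nat.mul h (cj Nc)) (Nat.mul a (cj Nc))) M) N

def lqB3 (g2 gm m2 mm Nc Np Nr Nm Nl Ne Mc Mp Mr Mm Ml Me s t p q : ℕ) : LF :=
  ⟨Nat.add (Nat.mul s Nc) (Nat.mul t Mc), Nat.add (Nat.mul p Np) (Nat.mul q Mp),
    Nat.add (Nat.mul p Nr) (Nat.mul q Mr),
    Nat.add (qs g2 gm Nm Ne (Nat.add Nl Ne)) (qs m2 mm Mm Me (Nat.add Ml Me))⟩

def lqB2 (g2 gm m2 mm Nc Np Nr Nm Nl Ne Mc Mp Mr Mm Ml Me s t : ℕ) : LF :=
  lqB3 g2 gm m2 mm Nc Np Nr Nm Nl Ne Mc Mp Mr Mm Ml Me s t (Nat.mul (nat_lit 2) s) (Nat.mul (nat_lit 2) t)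

/-- `- γ ‖N‖² - μ ‖M‖²` -/
def lqB (a g2 gm b m2 mm : ℕ) (N M : G) : LF :=
  @G.rec (fun _ => LF) (fun Nc Np Nr Nm Nl Ne => @G.rec (fun _ => LF) (fun Mc Mp Mr Mm Ml Me =>
    lqB2 g2 gm m2 mm Nc Np Nr Nm Nl Ne Mc Mp Mr Mm Ml Me (Nat.mul a (cj Nc)) (Nat.mul b (cj Mc))) M) N

def lqA4 (n g2 gm m2 mm Nc Np Nr Nm Ne Mc Mp Mr Mm Me i j u s t p q : ℕ) : LF :=
  ⟨Nat.add (Nat.mul (Nat.add u s) Nc) (Nat.mul t Mc), Nat.add (Nat.mul p Np) (Nat.mul q Mp),
    Nat.add (Nat.mul p Nr) (Nat.mul q Mr),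
    Nat.add (qe n Nm Ne Mm Me i j) (Nat.add (qs g2 gm Nm Ne i) (qs m2 mm Mm Me j))⟩

def lqA3 (n g2 gm m2 mm Nc Np Nr Nm Ne Mc Mp Mr Mm Me i j u v s t : ℕ) : LF :=
  lqA4 n g2 gm m2 mm Nc Np Nr Nm Ne Mc Mp Mr Mm Me i j u s t (Nat.add u (Nat.mul (nat_lit 2) s))
    (Nat.add v (Nat.mul (nat_lit 2) t))

/-- `Im (z N conj M) - γ ‖N‖² - μ ‖M‖²` -/
def lqA (g h n a g2 gm b m2 mm : ℕ) (N M : G) : LF :=
  @G.rec (fun _ => LF) (fun Nc Np Nr Nm Nl Ne => @G.rec (fun _ => LF) (fun Mc Mp Mr Mm Ml Me =>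
    lqA3 n g2 gm m2 mm Nc Np Nr Nm Ne Mc Mp Mr Mm Me (Nat.add Nl Ne) (Nat.add Ml Me) (Nat.mul g (cj Mc))
      (Nat.mul h (cj Nc)) (Nat.mul a (cj Nc)) (Nat.mul b (cj Mc))) M) N

/-- the bound of the coefficients -/
def lqb (n g2 m2 bN bM : ℕ) : ℕ :=
  Nat.add (Nat.mul (Nat.add (Nat.mul n bM) (Nat.mul g2 bN)) bN) (Nat.mul (Nat.add (Nat.mul n bN) (Nat.mul m2 bM)) bM)

lemma quad_id (z C l C' l' : ℂ) (γ μ : ℝ) :
    (z * ((C + l) * (starRingEnd ℂ) (C' + l'))).im - γ * ‖C + l‖ ^ 2 - μ * ‖C' + l'‖ ^ 2 =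
      ((z * (starRingEnd ℂ) C' + ((-γ : ℝ) : ℂ) * I * (starRingEnd ℂ) C) * C +
        ((-μ : ℝ) : ℂ) * I * (starRingEnd ℂ) C' * C').im +
      ((z * (starRingEnd ℂ) C' + 2 * (((-γ : ℝ) : ℂ) * I * (starRingEnd ℂ) C)) * l).im +
      ((-(starRingEnd ℂ) z * (starRingEnd ℂ) C + 2 * (((-μ : ℝ) : ℂ) * I * (starRingEnd ℂ) C')) * l').im +
      ((z * (l * (starRingEnd ℂ) l')).im - γ * ‖l‖ ^ 2 - μ * ‖l'‖ ^ 2) := by
  simp only [← Complex.normSq_eq_norm_sq, Complex.normSq_apply, map_add, Complex.mul_im, Complex.mul_re,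
    Complex.add_re, Complex.add_im, Complex.conj_re, Complex.conj_im, Complex.neg_re, Complex.neg_im,
    Complex.ofReal_re, Complex.ofReal_im, Complex.I_re, Complex.I_im, Complex.re_ofNat, Complex.im_ofNat]
  ring

theorem lqA_spec {z ζ η : GaussianInt} {g h n a γp γm b μp μm : ℕ} (ho : Off E δ ε) (hg : RB g z n)
    (hh : RB h (-star z) n) (ha : RB a ζ (γp + γm)) (hζ : tc ζ = ((-((γp : ℝ) - γm) : ℝ) : ℂ) * I)
    (hb : RB b η (μp + μm)) (hη : tc η = ((-((μp : ℝ) - μm) : ℝ) : ℂ) * I)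
    (hN : Enc E δ ε bN N x) (hM : Enc E δ ε bM M y) (kN : bN < HH) (kM : bM < HH) :
    LOk δ ε (lqb n (2 * (γp + γm)) (2 * (μp + μm)) bN bM)
      (lqA g h n a (2 * (γp + γm)) γm b (2 * (μp + μm)) μm N M)
      ((tc z * (x * (starRingEnd ℂ) y)).im - ((γp : ℝ) - γm) * ‖x‖ ^ 2 - ((μp : ℝ) - μm) * ‖y‖ ^ 2) := by
  obtain ⟨C, P, R, h1, h2, h3, h4, h5, h6⟩ := hN
  obtain ⟨C', P', R', k1, k2, k3, k4, k5, k6⟩ := hM
  obtain ⟨Nc, Np, Nr, Nm, Nl, Ne⟩ := N
  obtain ⟨Mc, Mp, Mr, Mm, Ml, Me⟩ := M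
  dsimp only at h1 h2 h3 h4 h5 h6 k1 k2 k3 k4 k5 k6
  have cA := h1.cj kN
  have cB := k1.cj kM
  have ru := hg.mul cB
  have rv := hh.mul cA
  have rs := ha.mul cA
  have rt := hb.mul cB
  have rp := ru.add (RB_two.mul rs)
  have rq := rv.add (RB_two.mul rt)
  have rF := ((ru.add rs).mul h1).add (rt.mul k1)
  have rV := (rp.mul h2).add (rq.mul k2)
  have rW := (rp.mul h3).add (rq.mul k3)
  have B1 : Nat.add (Nat.mul (Nat.add (Nat.mul n bM) (Nat.mul 2 (Nat.mul (γp + γm) bN))) bN)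
      (Nat.mul (Nat.add (Nat.mul n bN) (Nat.mul 2 (Nat.mul (μp + μm) bM))) bM) ≤
      lqb n (2 * (γp + γm)) (2 * (μp + μm)) bN bM := by
    change (n * bM + 2 * ((γp + γm) * bN)) * bN + (n * bN + 2 * ((μp + μm) * bM)) * bM ≤
      (n * bM + 2 * (γp + γm) * bN) * bN + (n * bN + 2 * (μp + μm) * bM) * bM
    exact le_of_eq (by ring)
  have B0 : Nat.add (Nat.mul (Nat.add (Nat.mul n bM) (Nat.mul (γp + γm) bN)) bN)
      (Nat.mul (Nat.mul (μp + μm) bM) bM) ≤ lqb n (2 * (γp + γm)) (2 * (μp + μm)) bN bM := by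
    change (n * bM + (γp + γm) * bN) * bN + ((μp + μm) * bM) * bM ≤
      (n * bM + 2 * (γp + γm) * bN) * bN + (n * bN + 2 * (μp + μm) * bM) * bM
    refine Nat.add_le_add (Nat.mul_le_mul ?_ le_rfl) (Nat.mul_le_mul ?_ le_rfl)
    · exact Nat.add_le_add le_rfl (Nat.mul_le_mul (by omega) le_rfl)
    · exact (Nat.mul_le_mul (by omega) le_rfl).trans (Nat.le_add_left _ _)
  refine ⟨_, _, _, rF.mono B0, rV.mono B1, rW.mono B1, ?_⟩
  have l1 := lin_le ho h5
  have l2 := lin_le ho k5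
  set s := x - (tc C + tc P * δ + tc R * ε) with hs
  set s' := y - (tc C' + tc P' * δ + tc R' * ε) with hs'
  set L := tc P * δ + tc R * ε with hL
  set L' := tc P' * δ + tc R' * ε with hL'
  have ex : x = tc C + (L + s) := by rw [hs, hL]; ring
  have ey : y = tc C' + (L' + s') := by rw [hs', hL']; ring
  have key := quad_id (tc z) (tc C) (L + s) (tc C') (L' + s') ((γp : ℝ) - γm) ((μp : ℝ) - μm)
  rw [← ex, ← ey] at key
  rw [key]
  set Λ := tc z * (starRingEnd ℂ) (tc C') + 2 * (((-((γp : ℝ) - γm) : ℝ) : ℂ) * I * (starRingEnd ℂ) (tc C)) with hΛ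
  set Λ' := -(starRingEnd ℂ) (tc z) * (starRingEnd ℂ) (tc C) +
    2 * (((-((μp : ℝ) - μm) : ℝ) : ℂ) * I * (starRingEnd ℂ) (tc C')) with hΛ'
  have n0 : (0 : ℝ) ≤ n := Nat.cast_nonneg _
  have nz : ‖tc z‖ ≤ (n : ℝ) := hg.le
  have nζ : ‖((-((γp : ℝ) - γm) : ℝ) : ℂ) * I‖ ≤ (γp : ℝ) + γm := by
    have := ha.le
    rw [hζ] at this
    push_cast at this ⊢
    exact this
  have nη : ‖((-((μp : ℝ) - μm) : ℝ) : ℂ) * I‖ ≤ (μp : ℝ) + μm := by
    have := hb.le
    rw [hη] at this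
    push_cast at this ⊢
    exact this
  have nΛ : ‖Λ‖ ≤ (n : ℝ) * Mm + 2 * (γp + γm) * Nm := by
    rw [hΛ]
    refine (norm_add_le _ _).trans (add_le_add ?_ ?_)
    · rw [norm_mul, Complex.norm_conj]
      exact mul_le_mul nz k4 (norm_nonneg _) n0
    · rw [norm_mul, norm_mul, Complex.norm_conj, Complex.norm_ofNat, mul_assoc]
      exact mul_le_mul_of_nonneg_left (mul_le_mul nζ h4 (norm_nonneg _) (by positivity)) (by norm_num)
  have nΛ' : ‖Λ'‖ ≤ (n : ℝ) * Nm + 2 * (μp + μm) * Mm := by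
    rw [hΛ']
    refine (norm_add_le _ _).trans (add_le_add ?_ ?_)
    · rw [norm_mul, norm_neg, Complex.norm_conj, Complex.norm_conj]
      exact mul_le_mul nz h4 (norm_nonneg _) n0
    · rw [norm_mul, norm_mul, Complex.norm_conj, Complex.norm_ofNat, mul_assoc]
      exact mul_le_mul_of_nonneg_left (mul_le_mul nη k4 (norm_nonneg _) (by positivity)) (by norm_num)
  have c1 : (Λ * s).im ≤ ((n : ℝ) * Mm + 2 * (γp + γm) * Nm) * Ne := by
    refine (le_abs_self _).trans ((Complex.abs_im_le_norm _).trans ?_)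
    rw [norm_mul]
    exact mul_le_mul nΛ h6 (norm_nonneg _) ((norm_nonneg _).trans nΛ)
  have c2 : (Λ' * s').im ≤ ((n : ℝ) * Nm + 2 * (μp + μm) * Mm) * Me := by
    refine (le_abs_self _).trans ((Complex.abs_im_le_norm _).trans ?_)
    rw [norm_mul]
    exact mul_le_mul nΛ' k6 (norm_nonneg _) ((norm_nonneg _).trans nΛ')
  have i1 : ‖L + s‖ ≤ (Nl : ℝ) + Ne := (norm_add_le _ _).trans (add_le_add l1 h6)
  have i2 : ‖L' + s'‖ ≤ (Ml : ℝ) + Me := (norm_add_le _ _).trans (add_le_add l2 k6)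
  have i1' : ‖L + s‖ ^ 2 ≤ ((Nl : ℝ) + Ne) ^ 2 := pow_le_pow_left₀ (norm_nonneg _) i1 2
  have i2' : ‖L' + s'‖ ^ 2 ≤ ((Ml : ℝ) + Me) ^ 2 := pow_le_pow_left₀ (norm_nonneg _) i2 2
  have c3 : (tc z * ((L + s) * (starRingEnd ℂ) (L' + s'))).im ≤ (n : ℝ) * (((Nl : ℝ) + Ne) * (Ml + Me)) := by
    refine (le_abs_self _).trans ((Complex.abs_im_le_norm _).trans ?_)
    rw [norm_mul, norm_mul, Complex.norm_conj]
    exact mul_le_mul nz (mul_le_mul i1 i2 (norm_nonneg _) ((norm_nonneg _).trans i1)) (by positivity) n0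
  have c4 : -(((γp : ℝ) - γm) * ‖L + s‖ ^ 2) ≤ γm * ((Nl : ℝ) + Ne) ^ 2 := by
    have t1 : (0 : ℝ) ≤ γp * ‖L + s‖ ^ 2 := mul_nonneg (Nat.cast_nonneg _) (sq_nonneg _)
    have t2 := mul_le_mul_of_nonneg_left i1' (Nat.cast_nonneg (α := ℝ) γm)
    rw [sub_mul]
    linarith only [t1, t2]
  have c5 : -(((μp : ℝ) - μm) * ‖L' + s'‖ ^ 2) ≤ μm * ((Ml : ℝ) + Me) ^ 2 := by
    have t1 : (0 : ℝ) ≤ μp * ‖L' + s'‖ ^ 2 := mul_nonneg (Nat.cast_nonneg _) (sq_nonneg _)
    have t2 := mul_le_mul_of_nonneg_left i2' (Nat.cast_nonneg (α := ℝ) μm)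
    rw [sub_mul]
    linarith only [t1, t2]
  have d1 : (Λ * (L + s)).im = ((Λ * tc P) * δ).im + ((Λ * tc R) * ε).im + (Λ * s).im := by
    rw [← Complex.add_im, ← Complex.add_im, hL]
    congr 1
    ring
  have d2 : (Λ' * (L' + s')).im = ((Λ' * tc P') * δ).im + ((Λ' * tc R') * ε).im + (Λ' * s').im := by
    rw [← Complex.add_im, ← Complex.add_im, hL']
    congr 1
    ring
  have f0 : tc ((z * star C' + ζ * star C) * C + η * star C' * C') =
      (tc z * (starRingEnd ℂ) (tc C') + ((-((γp : ℝ) - γm) : ℝ) : ℂ) * I * (starRingEnd ℂ) (tc C)) * tc C +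
        ((-((μp : ℝ) - μm) : ℝ) : ℂ) * I * (starRingEnd ℂ) (tc C') * tc C' := by
    simp only [map_add, map_mul, tc_star, hζ, hη]
  have f1 : tc ((z * star C' + 2 * (ζ * star C)) * P + (-star z * star C + 2 * (η * star C')) * P') =
      Λ * tc P + Λ' * tc P' := by
    simp only [map_add, map_mul, map_neg, map_ofNat, tc_star, hζ, hη, hΛ, hΛ']
  have f2 : tc ((z * star C' + 2 * (ζ * star C)) * R + (-star z * star C + 2 * (η * star C')) * R') =
      Λ * tc R + Λ' * tc R' := by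
    simp only [map_add, map_mul, map_neg, map_ofNat, tc_star, hζ, hη, hΛ, hΛ']
  have g1 : ((Λ * tc P + Λ' * tc P') * δ).im = (Λ * tc P * δ).im + (Λ' * tc P' * δ).im := by
    rw [add_mul, Complex.add_im]
  have g2 : ((Λ * tc R + Λ' * tc R') * ε).im = (Λ * tc R * ε).im + (Λ' * tc R' * ε).im := by
    rw [add_mul, Complex.add_im]
  rw [f0, f1, f2, g1, g2, d1, d2]
  have he : (((lqA g h n a (2 * (γp + γm)) γm b (2 * (μp + μm)) μm ⟨Nc, Np, Nr, Nm, Nl, Ne⟩
      ⟨Mc, Mp, Mr, Mm, Ml, Me⟩).e : ℕ) : ℝ) = (n : ℝ) * ((((Nl : ℝ) + Ne) * (Ml + Me)) + Mm * Ne + Nm * Me) +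
      ((2 * (γp + γm) * (Nm * Ne) + γm * ((Nl + Ne) * (Nl + Ne))) +
        (2 * (μp + μm) * (Mm * Me) + μm * ((Ml + Me) * (Ml + Me)))) := by
    change ((n * ((Nl + Ne) * (Ml + Me) + Mm * Ne + Nm * Me) +
      ((2 * (γp + γm) * (Nm * Ne) + γm * ((Nl + Ne) * (Nl + Ne))) +
        (2 * (μp + μm) * (Mm * Me) + μm * ((Ml + Me) * (Ml + Me)))) : ℕ) : ℝ) = _
    push_cast
    ring
  rw [he]
  clear_value L L' s s' Λ Λ'
  linarith only [c1, c2, c3, c4, c5, c1, c2, c3, c4, c5]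

/-! #### special cases -/

lemma lqA3_I (n Nc Np Nr Nm Nl Ne Mc Mp Mr Mm Ml Me u v A B : ℕ) :
    lqA3 n (2 * (0 + 0)) 0 (2 * (0 + 0)) 0 Nc Np Nr Nm Ne Mc Mp Mr Mm Me (Nat.add Nl Ne) (Nat.add Ml Me) u v
      (Nat.mul (nat_lit 0) A) (Nat.mul (nat_lit 0) B) = lqI2 n Nc Np Nr Nm Nl Ne Mp Mr Mm Ml Me u v := by
  change LF.mk ((u + 0 * A) * Nc + 0 * B * Mc) ((u + 2 * (0 * A)) * Np + (v + 2 * (0 * B)) * Mp)
      ((u + 2 * (0 * A)) * Nr + (v + 2 * (0 * B)) * Mr)
      (n * ((Nl + Ne) * (Ml + Me) + Mm * Ne + Nm * Me) + ((0 * (Nm * Ne) + 0 * ((Nl + Ne) * (Nl + Ne))) +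
        (0 * (Mm * Me) + 0 * ((Ml + Me) * (Ml + Me))))) =
    LF.mk (u * Nc) (u * Np + v * Mp) (u * Nr + v * Mr) (n * ((Nl + Ne) * (Ml + Me) + Mm * Ne + Nm * Me))
  simp only [Nat.zero_mul, Nat.mul_zero, Nat.add_zero]

lemma lqA3_M (n m2 mm Nc Np Nr Nm Ne Mc Mp Mr Mm Me i j u v t A : ℕ) :
    lqA3 n (2 * (0 + 0)) 0 m2 mm Nc Np Nr Nm Ne Mc Mp Mr Mm Me i j u v (Nat.mul (nat_lit 0) A) t =
      lqM2 n m2 mm Nc Np Nr Nm Ne Mc Mp Mr Mm Me i j u v t := by
  change LF.mk ((u + 0 * A) * Nc + t * Mc) ((u + 2 * (0 * A)) * Np + (v + 2 * t) * Mp)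
      ((u + 2 * (0 * A)) * Nr + (v + 2 * t) * Mr)
      (n * (i * j + Mm * Ne + Nm * Me) + ((0 * (Nm * Ne) + 0 * (i * i)) + (m2 * (Mm * Me) + mm * (j * j)))) =
    LF.mk (u * Nc + t * Mc) (u * Np + (v + 2 * t) * Mp) (u * Nr + (v + 2 * t) * Mr)
      (n * (i * j + Mm * Ne + Nm * Me) + (m2 * (Mm * Me) + mm * (j * j)))
  simp only [Nat.zero_mul, Nat.mul_zero, Nat.add_zero, Nat.zero_add]

lemma lqA3_G (n g2 gm Nc Np Nr Nm Ne Mc Mp Mr Mm Me i j u v s B : ℕ) :
    lqA3 n g2 gm (2 * (0 + 0)) 0 Nc Np Nr Nm Ne Mc Mp Mr Mm Me i j u v s (Nat.mul (nat_lit 0) B) =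
      lqG2 n g2 gm Nc Np Nr Nm Ne Mp Mr Mm Me i j u v s := by
  change LF.mk ((u + s) * Nc + 0 * B * Mc) ((u + 2 * s) * Np + (v + 2 * (0 * B)) * Mp)
      ((u + 2 * s) * Nr + (v + 2 * (0 * B)) * Mr)
      (n * (i * j + Mm * Ne + Nm * Me) + ((g2 * (Nm * Ne) + gm * (i * i)) + (0 * (Mm * Me) + 0 * (j * j)))) =
    LF.mk ((u + s) * Nc) ((u + 2 * s) * Np + v * Mp) ((u + 2 * s) * Nr + v * Mr)
      (n * (i * j + Mm * Ne + Nm * Me) + (g2 * (Nm * Ne) + gm * (i * i)))
  simp only [Nat.zero_mul, Nat.mul_zero, Nat.add_zero]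

lemma lqA3_B (g2 gm m2 mm Nc Np Nr Nm Nl Ne Mc Mp Mr Mm Ml Me s t A B : ℕ) :
    lqA3 (nat_lit 0) g2 gm m2 mm Nc Np Nr Nm Ne Mc Mp Mr Mm Me (Nat.add Nl Ne) (Nat.add Ml Me)
      (Nat.mul (nat_lit 0) B) (Nat.mul (nat_lit 0) A) s t =
      lqB2 g2 gm m2 mm Nc Np Nr Nm Nl Ne Mc Mp Mr Mm Ml Me s t := by
  change LF.mk ((0 * B + s) * Nc + t * Mc) ((0 * B + 2 * s) * Np + (0 * A + 2 * t) * Mp)
      ((0 * B + 2 * s) * Nr + (0 * A + 2 * t) * Mr)
      (0 * ((Nl + Ne) * (Ml + Me) + Mm * Ne + Nm * Me) +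
        ((g2 * (Nm * Ne) + gm * ((Nl + Ne) * (Nl + Ne))) + (m2 * (Mm * Me) + mm * ((Ml + Me) * (Ml + Me))))) =
    LF.mk (s * Nc + t * Mc) (2 * s * Np + 2 * t * Mp) (2 * s * Nr + 2 * t * Mr)
      ((g2 * (Nm * Ne) + gm * ((Nl + Ne) * (Nl + Ne))) + (m2 * (Mm * Me) + mm * ((Ml + Me) * (Ml + Me))))
  simp only [Nat.zero_mul, Nat.zero_add]

theorem lqI_spec {z : GaussianInt} {g h n : ℕ} (ho : Off E δ ε) (hg : RB g z n) (hh : RB h (-star z) n)
    (hN : Enc E δ ε bN N x) (hM : Enc E δ ε bM M y) (kN : bN < HH) (kM : bM < HH) :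
    LOk δ ε (lqb n (nat_lit 0) (nat_lit 0) bN bM) (lqI g h n N M) ((tc z * (x * (starRingEnd ℂ) y)).im) := by
  have h0 := lqA_spec (γp := 0) (γm := 0) (μp := 0) (μm := 0) ho hg hh (RB.zero _) (by simp)
    (RB.zero _) (by simp) hN hM kN kM
  obtain ⟨Nc, Np, Nr, Nm, Nl, Ne⟩ := N
  obtain ⟨Mc, Mp, Mr, Mm, Ml, Me⟩ := M
  have e : lqA g h n (nat_lit 0) (2 * (0 + 0)) 0 (nat_lit 0) (2 * (0 + 0)) 0 ⟨Nc, Np, Nr, Nm, Nl, Ne⟩
      ⟨Mc, Mp, Mr, Mm, Ml, Me⟩ = lqI g h n ⟨Nc, Np, Nr, Nm, Nl, Ne⟩ ⟨Mc, Mp, Mr, Mm, Ml, Me⟩ :=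
    lqA3_I n Nc Np Nr Nm Nl Ne Mc Mp Mr Mm Ml Me _ _ _ _
  rw [e] at h0
  refine h0.mono (le_of_eq rfl) ?_
  push_cast
  simp

theorem lqM_spec {z η : GaussianInt} {g h n b μp μm : ℕ} (ho : Off E δ ε) (hg : RB g z n)
    (hh : RB h (-star z) n) (hb : RB b η (μp + μm)) (hη : tc η = ((-((μp : ℝ) - μm) : ℝ) : ℂ) * I)
    (hN : Enc E δ ε bN N x) (hM : Enc E δ ε bM M y) (kN : bN < HH) (kM : bM < HH) :
    LOk δ ε (lqb n (nat_lit 0) (2 * (μp + μm)) bN bM) (lqM g h n b (2 * (μp + μm)) μm N M)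
      ((tc z * (x * (starRingEnd ℂ) y)).im - ((μp : ℝ) - μm) * ‖y‖ ^ 2) := by
  have h0 := lqA_spec (γp := 0) (γm := 0) ho hg hh (RB.zero _) (by simp) hb hη hN hM kN kM
  obtain ⟨Nc, Np, Nr, Nm, Nl, Ne⟩ := N
  obtain ⟨Mc, Mp, Mr, Mm, Ml, Me⟩ := M
  have e : lqA g h n (nat_lit 0) (2 * (0 + 0)) 0 b (2 * (μp + μm)) μm ⟨Nc, Np, Nr, Nm, Nl, Ne⟩
      ⟨Mc, Mp, Mr, Mm, Ml, Me⟩ = lqM g h n b (2 * (μp + μm)) μm ⟨Nc, Np, Nr, Nm, Nl, Ne⟩
        ⟨Mc, Mp, Mr, Mm, Ml, Me⟩ :=
    lqA3_M n _ _ Nc Np Nr Nm Ne Mc Mp Mr Mm Me _ _ _ _ _ _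
  rw [e] at h0
  refine h0.mono (le_of_eq rfl) ?_
  push_cast
  simp

theorem lqG_spec {z ζ : GaussianInt} {g h n a γp γm : ℕ} (ho : Off E δ ε) (hg : RB g z n)
    (hh : RB h (-star z) n) (ha : RB a ζ (γp + γm)) (hζ : tc ζ = ((-((γp : ℝ) - γm) : ℝ) : ℂ) * I)
    (hN : Enc E δ ε bN N x) (hM : Enc E δ ε bM M y) (kN : bN < HH) (kM : bM < HH) :
    LOk δ ε (lqb n (2 * (γp + γm)) (nat_lit 0) bN bM) (lqG g h n a (2 * (γp + γm)) γm N M)
      ((tc z * (x * (starRingEnd ℂ) y)).im - ((γp : ℝ) - γm) * ‖x‖ ^ 2) := by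
  have h0 := lqA_spec (μp := 0) (μm := 0) ho hg hh ha hζ (RB.zero _) (by simp) hN hM kN kM
  obtain ⟨Nc, Np, Nr, Nm, Nl, Ne⟩ := N
  obtain ⟨Mc, Mp, Mr, Mm, Ml, Me⟩ := M
  have e : lqA g h n a (2 * (γp + γm)) γm (nat_lit 0) (2 * (0 + 0)) 0 ⟨Nc, Np, Nr, Nm, Nl, Ne⟩
      ⟨Mc, Mp, Mr, Mm, Ml, Me⟩ = lqG g h n a (2 * (γp + γm)) γm ⟨Nc, Np, Nr, Nm, Nl, Ne⟩
        ⟨Mc, Mp, Mr, Mm, Ml, Me⟩ :=
    lqA3_G n _ _ Nc Np Nr Nm Ne Mc Mp Mr Mm Me _ _ _ _ _ _
  rw [e] at h0
  refine h0.mono (le_of_eq rfl) ?_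
  push_cast
  simp

theorem lqB_spec {ζ η : GaussianInt} {a γp γm b μp μm : ℕ} (ho : Off E δ ε)
    (ha : RB a ζ (γp + γm)) (hζ : tc ζ = ((-((γp : ℝ) - γm) : ℝ) : ℂ) * I)
    (hb : RB b η (μp + μm)) (hη : tc η = ((-((μp : ℝ) - μm) : ℝ) : ℂ) * I)
    (hN : Enc E δ ε bN N x) (hM : Enc E δ ε bM M y) (kN : bN < HH) (kM : bM < HH) :
    LOk δ ε (lqb (nat_lit 0) (2 * (γp + γm)) (2 * (μp + μm)) bN bM)
      (lqB a (2 * (γp + γm)) γm b (2 * (μp + μm)) μm N M)
      (-(((γp : ℝ) - γm) * ‖x‖ ^ 2) - ((μp : ℝ) - μm) * ‖y‖ ^ 2) := by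
  have h0 := lqA_spec (z := 0) (g := nat_lit 0) (h := nat_lit 0) (n := nat_lit 0) ho (RB.zero _)
    (by rw [star_zero, neg_zero]; exact RB.zero _) ha hζ hb hη hN hM kN kM
  obtain ⟨Nc, Np, Nr, Nm, Nl, Ne⟩ := N
  obtain ⟨Mc, Mp, Mr, Mm, Ml, Me⟩ := M
  have e : lqA (nat_lit 0) (nat_lit 0) (nat_lit 0) a (2 * (γp + γm)) γm b (2 * (μp + μm)) μm
      ⟨Nc, Np, Nr, Nm, Nl, Ne⟩ ⟨Mc, Mp, Mr, Mm, Ml, Me⟩ = lqB a (2 * (γp + γm)) γm b (2 * (μp + μm)) μm
        ⟨Nc, Np, Nr, Nm, Nl, Ne⟩ ⟨Mc, Mp, Mr, Mm, Ml, Me⟩ :=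
    lqA3_B _ _ _ _ Nc Np Nr Nm Nl Ne Mc Mp Mr Mm Ml Me _ _ _ _
  rw [e] at h0
  refine h0.mono (le_of_eq rfl) ?_
  rw [map_zero, zero_mul, Complex.zero_im]
  linarith only []

/-! ### linear and quadratic conditions for one expression -/

variable {A : G} {b : ℕ}

/-- `Im (z A) + Im ζ`; `g` encodes `z`, `n` bounds `|z|`, `k` encodes `ζ` -/
def ll (g n k : ℕ) (A : G) : LF :=
  @G.rec (fun _ => LF) (fun Ac Ap Ar _ _ Ae =>
    ⟨Nat.add (Nat.mul g Ac) k, Nat.mul g Ap, Nat.mul g Ar, Nat.mul n Ae⟩) A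

def ld2 (n m2 k Ac Ap Ar Al Ae L0 L : ℕ) : LF :=
  ⟨Nat.add (Nat.mul L0 Ac) k, Nat.mul L Ap, Nat.mul L Ar,
    Nat.add (Nat.mul n Ae) (Nat.mul m2 (Nat.mul (Nat.add Al Ae) (Nat.add Al Ae)))⟩

def ld1 (g n m2 k Ac Ap Ar Al Ae B : ℕ) : LF :=
  ld2 n m2 k Ac Ap Ar Al Ae (Nat.add g B) (Nat.add (Nat.add g B) B)

/-- `Im (z A) - (m1 - m2) ‖A‖² + Im ζ` (`nm = m2 + m1`) -/
def ld (g n m nm m2 k : ℕ) (A : G) : LF :=
  @G.rec (fun _ => LF) (fun Ac Ap Ar Am Al Ae =>
    ld1 g (Nat.add n (Nat.mul (nat_lit 2) (Nat.mul nm Am))) m2 k Ac Ap Ar Al Ae (Nat.mul m (cj Ac))) A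

/-- the bound of the coefficients -/
def ldb (n nm nk b : ℕ) : ℕ := Nat.add (Nat.mul (Nat.add n (Nat.mul (nat_lit 2) (Nat.mul nm b))) b) nk

theorem ll_spec {z ζ : GaussianInt} {g n k nk : ℕ} (hg : RB g z n) (hk : RB k ζ nk)
    (hA : Enc E δ ε b A x) : LOk δ ε (Nat.add (Nat.mul n b) nk) (ll g n k A) ((tc z * x).im + (tc ζ).im) := by
  obtain ⟨C, P, R, h1, h2, h3, h4, h5, h6⟩ := hA
  obtain ⟨Ac, Ap, Ar, Am, Al, Ae⟩ := A
  dsimp only at h1 h2 h3 h4 h5 h6
  refine ⟨_, _, _, (hg.mul h1).add hk, (hg.mul h2).mono (Nat.le_add_right _ _),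
    (hg.mul h3).mono (Nat.le_add_right _ _), ?_⟩
  set s := x - (tc C + tc P * δ + tc R * ε) with hs
  have e : (tc z * x).im + (tc ζ).im = (tc (z * C + ζ)).im + (tc (z * P) * δ).im + (tc (z * R) * ε).im +
      (tc z * s).im := by
    rw [← Complex.add_im, ← Complex.add_im, ← Complex.add_im, ← Complex.add_im, hs]
    congr 1
    simp only [map_add, map_mul]
    ring
  have b1 : ‖tc z * s‖ ≤ (n : ℝ) * Ae := by
    rw [norm_mul]
    exact mul_le_mul hg.le h6 (norm_nonneg _) (Nat.cast_nonneg _)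
  have b2 := (abs_le.1 ((Complex.abs_im_le_norm _).trans b1)).2
  have he : (((ll g n k ⟨Ac, Ap, Ar, Am, Al, Ae⟩).e : ℕ) : ℝ) = (n : ℝ) * Ae := by
    change ((n * Ae : ℕ) : ℝ) = _
    push_cast
    rfl
  rw [he, e]
  linarith only [b2]

theorem ld_spec {z ζ μ : GaussianInt} {g n m nm k nk m1 m2 : ℕ} (ho : Off E δ ε) (hg : RB g z n)
    (hm : RB m μ nm) (hμ : tc μ = (((m2 : ℝ) - m1 : ℝ) : ℂ) * I) (hk : RB k ζ nk)
    (hA : Enc E δ ε b A x) (hb1 : b < HH) :
    LOk δ ε (ldb n nm nk b) (ld g n m nm m2 k A)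
      ((tc z * x).im - ((m1 : ℝ) - m2) * ‖x‖ ^ 2 + (tc ζ).im) := by
  obtain ⟨C, P, R, h1, h2, h3, h4, h5, h6⟩ := hA
  obtain ⟨Ac, Ap, Ar, Am, Al, Ae⟩ := A
  dsimp only at h1 h2 h3 h4 h5 h6
  have cB := h1.cj hb1
  have rB := hm.mul cB
  have rL0 := hg.add rB
  have rL := rL0.add rB
  have rf := (rL0.mul h1).add hk
  have rv := rL.mul h2
  have rw' := rL.mul h3
  have B0 : Nat.add (Nat.mul (Nat.add n (Nat.mul nm b)) b) nk ≤ ldb n nm nk b := by
    change (n + nm * b) * b + nk ≤ (n + 2 * (nm * b)) * b + nk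
    exact Nat.add_le_add (Nat.mul_le_mul (by omega) le_rfl) le_rfl
  have B1 : Nat.mul (Nat.add (Nat.add n (Nat.mul nm b)) (Nat.mul nm b)) b ≤ ldb n nm nk b := by
    change (n + nm * b + nm * b) * b ≤ (n + 2 * (nm * b)) * b + nk
    have : (n + nm * b + nm * b) * b = (n + 2 * (nm * b)) * b := by ring
    omega
  refine ⟨_, _, _, rf.mono B0, rv.mono B1, rw'.mono B1, ?_⟩
  have l1 := lin_le ho h5
  set s := x - (tc C + tc P * δ + tc R * ε) with hs
  set L := tc P * δ + tc R * ε with hL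
  set Λ := tc z + 2 * (tc μ * (starRingEnd ℂ) (tc C)) with hΛ
  have ex : x = tc C + (L + s) := by rw [hs, hL]; ring
  have key : (tc z * x).im - ((m1 : ℝ) - m2) * ‖x‖ ^ 2 + (tc ζ).im =
      (tc ((z + μ * star C) * C + ζ)).im + (Λ * (L + s)).im - ((m1 : ℝ) - m2) * ‖L + s‖ ^ 2 := by
    have f1 : (tc ((z + μ * star C) * C + ζ)).im = (tc z * tc C).im + ((m2 : ℝ) - m1) * ‖tc C‖ ^ 2 +
        (tc ζ).im := by
      simp only [map_add, map_mul, tc_star]
      rw [add_mul, Complex.add_im, Complex.add_im, hμ]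
      have : (((m2 : ℝ) - m1 : ℝ) : ℂ) * I * (starRingEnd ℂ) (tc C) * tc C =
          ((((m2 : ℝ) - m1) * Complex.normSq (tc C) : ℝ) : ℂ) * I := by
        rw [mul_assoc, ← Complex.normSq_eq_conj_mul_self]
        push_cast
        ring
      rw [this, Complex.im_ofReal_mul, Complex.I_im, mul_one, Complex.normSq_eq_norm_sq]
    have f2 : (Λ * (L + s)).im = (tc z * (L + s)).im +
        2 * ((m2 : ℝ) - m1) * ((starRingEnd ℂ) (tc C) * (L + s)).re := by
      rw [hΛ, add_mul, Complex.add_im, hμ]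
      have : 2 * ((((m2 : ℝ) - m1 : ℝ) : ℂ) * I * (starRingEnd ℂ) (tc C)) * (L + s) =
          ((2 * ((m2 : ℝ) - m1) : ℝ) : ℂ) * (I * ((starRingEnd ℂ) (tc C) * (L + s))) := by
        push_cast
        ring
      rw [this, Complex.im_ofReal_mul, Complex.I_mul_im]
    have f3 : ‖x‖ ^ 2 = ‖tc C‖ ^ 2 + 2 * ((starRingEnd ℂ) (tc C) * (L + s)).re + ‖L + s‖ ^ 2 := by
      rw [ex, ← Complex.normSq_eq_norm_sq, ← Complex.normSq_eq_norm_sq, ← Complex.normSq_eq_norm_sq]
      simp only [Complex.normSq_apply, Complex.add_re, Complex.add_im, Complex.mul_re, Complex.conj_re,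
        Complex.conj_im]
      ring
    rw [f1, f2, f3]
    nth_rw 1 [ex]
    rw [mul_add, Complex.add_im]
    ring
  have hΛn : ‖Λ‖ ≤ (n : ℝ) + 2 * (nm * Am) := by
    rw [hΛ]
    refine (norm_add_le _ _).trans (add_le_add hg.le ?_)
    rw [norm_mul, norm_mul, Complex.norm_conj, Complex.norm_ofNat]
    have := mul_le_mul hm.le h4 (norm_nonneg _) (Nat.cast_nonneg _)
    linarith only [this]
  have b1 : ‖Λ * s‖ ≤ ((n : ℝ) + 2 * (nm * Am)) * Ae := by
    rw [norm_mul]
    exact mul_le_mul hΛn h6 (norm_nonneg _) ((norm_nonneg _).trans hΛn)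
  have b2 := (abs_le.1 ((Complex.abs_im_le_norm _).trans b1)).2
  have hLs : ‖L + s‖ ≤ (Al : ℝ) + Ae := (norm_add_le _ _).trans (add_le_add l1 h6)
  have hL2 : ‖L + s‖ ^ 2 ≤ ((Al : ℝ) + Ae) ^ 2 := pow_le_pow_left₀ (norm_nonneg _) hLs 2
  have b5 : -(((m1 : ℝ) - m2) * ‖L + s‖ ^ 2) ≤ m2 * (((Al : ℝ) + Ae) * (Al + Ae)) := by
    have t1 : (0 : ℝ) ≤ m1 * ‖L + s‖ ^ 2 := mul_nonneg (Nat.cast_nonneg _) (sq_nonneg _)
    have t2 : (m2 : ℝ) * ‖L + s‖ ^ 2 ≤ m2 * ((Al : ℝ) + Ae) ^ 2 :=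
      mul_le_mul_of_nonneg_left hL2 (Nat.cast_nonneg _)
    have t3 : (m2 : ℝ) * (((Al : ℝ) + Ae) * (Al + Ae)) = m2 * ((Al : ℝ) + Ae) ^ 2 := by
      rw [pow_two]
    rw [t3, sub_mul]
    linarith only [t1, t2]
  have e5 : (Λ * (L + s)).im = (tc ((z + μ * star C + μ * star C) * P) * δ).im +
      (tc ((z + μ * star C + μ * star C) * R) * ε).im + (Λ * s).im := by
    rw [← Complex.add_im, ← Complex.add_im, hΛ, hL]
    congr 1
    simp only [map_add, map_mul, tc_star]
    ring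
  have he : (((ld g n m nm m2 k ⟨Ac, Ap, Ar, Am, Al, Ae⟩).e : ℕ) : ℝ) =
      ((n : ℝ) + 2 * (nm * Am)) * Ae + m2 * (((Al : ℝ) + Ae) * (Al + Ae)) := by
    change (((n + 2 * (nm * Am)) * Ae + m2 * ((Al + Ae) * (Al + Ae)) : ℕ) : ℝ) = _
    push_cast
    rfl
  rw [he, key, e5]
  linarith only [b2, b5]

end

end Pool.Agent.Work.MP_b30479_gtS.G2.CN

end

section

/-!
# Inner variables of regions with three crossings: the equations
-/

namespace Pool.Agent.Work.MP_b30479_gtS.G2.CN.M3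

open Complex

/-- the two hinges and the inner variable (cotangents); `q = 1 / κ` -/
structure Tri (U V M q κ : ℂ) : Prop where
  qk : q * κ = 1
  um : (M - I) * (U + I) = q
  mv : q * (M + V + 2 * I) = -2 * I * ((M + I) * (V + I))
  u1 : U + I ≠ 0
  v1 : V + I ≠ 0

/-- `exp (- 2 π i m)` -/
noncomputable def yv (M : ℂ) : ℂ := (M - I) / (M + I)

namespace Tri

variable {U V M q κ : ℂ} (h : Tri U V M q κ)
include h

lemma q0 : q ≠ 0 := left_ne_zero_of_mul_eq_one h.qk

lemma m1 : M + I ≠ 0 := by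
  intro h0
  have h1 := h.mv
  rw [h0, zero_mul, mul_zero, show M + V + 2 * I = (M + I) + (V + I) by ring, h0, zero_add] at h1
  exact mul_ne_zero h.q0 h.v1 h1

lemma hy : yv M * (M + I) = M - I := div_mul_cancel₀ _ h.m1

lemma eU : (U + I) * (1 - yv M + 4 * κ * yv M) = (1 - yv M) * (U - I) := by
  apply mul_right_cancel₀ h.m1
  linear_combination ((U + I) * (-1 + 4 * κ) + (U - I)) * h.hy + 4 * κ * h.um + 4 * h.qk +
    4 * Complex.I_mul_I

lemma eV : (2 - 4 * κ - yv M) * (V + I) = V - I := by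
  apply mul_right_cancel₀ h.m1
  linear_combination (-(V + I)) * h.hy + (2 * I * κ) * h.mv -
    (2 * I * (M + V + 2 * I)) * h.qk - (4 * κ * ((M + I) * (V + I))) * Complex.I_mul_I

/-- the denominator of the values of the neighbours -/
lemma eden : (4 * κ * yv M + (1 - yv M) ^ 2) * ((U + I) * (M + I) ^ 2) = 4 * (M - U) := by
  linear_combination ((U + I) * (4 * κ * (M + I) + (yv M * (M + I) + (M - I) - 2 * (M + I)))) * h.hy +
    (4 * κ * (M + I)) * h.um + (4 * (M + I)) * h.qk + (4 * (U + I)) * Complex.I_mul_I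

/-- the value of the left neighbour, hinge not split -/
lemma left_a {κl ql : ℂ} (hl : ql * κl = 1) (hR : U ^ 2 + 1 = q + ql) :
    κl * (4 * κ * yv M + (1 - yv M) ^ 2) = -4 * (κ * yv M) ^ 2 := by
  have n : (U + I) ^ 2 * (M + I) ^ 2 ≠ 0 := mul_ne_zero (pow_ne_zero 2 h.u1) (pow_ne_zero 2 h.m1)
  have e1 : κ * (M - I) * (U + I) = 1 := by linear_combination κ * h.um + h.qk
  have e2 : κ * yv M * (M + I) * (U + I) = 1 := by
    linear_combination κ * (U + I) * h.hy + e1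
  have e3 : κl * (M - U) * (U + I) = -1 := by
    linear_combination κl * h.um - κl * hR - hl + κl * Complex.I_mul_I
  apply mul_right_cancel₀ n
  linear_combination (κl * (U + I)) * h.eden + 4 * e3 +
    (4 * (κ * yv M * (M + I) * (U + I)) + 4) * e2

/-- the value behind a split hinge -/
lemma split_aux {U' R ql κl : ℂ} (hl : ql * κl = 1) (hR : R ^ 2 + 1 = q + ql)
    (hS : (U' - I) * (R + I) = q) : κ * (U' - I) ^ 2 = κl * (q - U' ^ 2 - 1) := by
  have e1 : ql * (U' - I) ^ 2 = q * (q - U' ^ 2 - 1) := by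
    linear_combination (-(U' - I) ^ 2) * hR + ((R - I) * (U' - I)) * hS + q * hS +
      (U' - I) ^ 2 * Complex.I_mul_I + q * Complex.I_mul_I
  linear_combination (κl * κ) * e1 - (κ * (U' - I) ^ 2) * hl +
    (κl * (q - U' ^ 2 - 1)) * h.qk

/-- the value of the left neighbour, hinge split -/
lemma left_s {R κl ql : ℂ} (hl : ql * κl = 1) (hR : R ^ 2 + 1 = q + ql)
    (hS : (U - I) * (R + I) = q) : κl * (4 * κ * yv M + (1 - yv M) ^ 2) =
      -(κ * (1 - yv M + 4 * κ * yv M) ^ 2) := by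
  have n : (U + I) ^ 2 * (M + I) ^ 2 ≠ 0 := mul_ne_zero (pow_ne_zero 2 h.u1) (pow_ne_zero 2 h.m1)
  have e1 := h.split_aux hl hR hS
  have e2 : (1 - yv M) * (M + I) = 2 * I := by linear_combination -h.hy
  have e3 : (U + I) * (M + I) * (1 - yv M + 4 * κ * yv M) = 2 * I * (U - I) := by
    linear_combination (M + I) * h.eU + (U - I) * e2
  have e4 : (U + I) * (M - U) = q - U ^ 2 - 1 := by
    linear_combination h.um + Complex.I_mul_I
  apply mul_right_cancel₀ n
  have e5 : κ * ((U + I) * (M + I) * (1 - yv M + 4 * κ * yv M)) ^ 2 = -4 * (κ * (U - I) ^ 2) := by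
    rw [e3]
    linear_combination (4 * κ * (U - I) ^ 2) * Complex.I_mul_I
  linear_combination (κl * (U + I)) * h.eden + e5 - 4 * e1 + 4 * κl * e4

lemma dl : (V + I) * (q - 2 + 2 * I * M) = -q * (M + I) := by
  linear_combination h.mv - (2 * (V + I)) * Complex.I_mul_I

lemma den2 : (4 * κ * yv M + (1 - yv M) ^ 2) * (M + I) ^ 2 = 4 * κ * (M ^ 2 + 1 - q) := by
  linear_combination ((4 * κ * (M + I) + (yv M * (M + I) + (M - I) - 2 * (M + I)))) * h.hy +
    (4 - 4 * κ) * Complex.I_mul_I + 4 * h.qk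

lemma port : (V ^ 2 + 1 - q) * (q - 2 + 2 * I * M) ^ 2 = q ^ 2 * (M ^ 2 + 1 - q) := by
  linear_combination ((V + I) * (q - 2 + 2 * I * M) - q * (M + I) - 2 * I * (q - 2 + 2 * I * M)) *
    h.dl + (-4 * I * q * (M + I) + 4 * q * (q + 2 * I * (M + I)) - 4 * q * (I * I + 1) - q ^ 2 +
      (q - 2 + 2 * I * M) ^ 2) * Complex.I_mul_I

/-- the value of the right neighbour, hinge not split -/
lemma right_a {κr qr : ℂ} (hr : qr * κr = 1) (hV : V ^ 2 + 1 = q + qr) :
    κr * (4 * κ * yv M + (1 - yv M) ^ 2) = -(κ * (1 - yv M - 4 * κ) ^ 2) := by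
  have n : (M + I) ^ 2 ≠ 0 := pow_ne_zero 2 h.m1
  have e1 : (1 - yv M - 4 * κ) * (M + I) = 2 * I * (κ * (q - 2 + 2 * I * M)) := by
    linear_combination -h.hy - 2 * I * h.qk - (4 * κ * M) * Complex.I_mul_I
  have e2 := h.port
  have e3 : κr * (M ^ 2 + 1 - q) = κ ^ 2 * (q - 2 + 2 * I * M) ^ 2 := by
    linear_combination (-κr * κ ^ 2) * e2 - (κr * (M ^ 2 + 1 - q) * (q * κ + 1)) * h.qk +
      (κ ^ 2 * (q - 2 + 2 * I * M) ^ 2) * (hr + κr * hV)
  apply mul_right_cancel₀ n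
  have e5 : κ * ((1 - yv M - 4 * κ) * (M + I)) ^ 2 = -4 * κ * (κ ^ 2 * (q - 2 + 2 * I * M) ^ 2) := by
    rw [e1]
    linear_combination (4 * κ * (κ * (q - 2 + 2 * I * M)) ^ 2) * Complex.I_mul_I
  linear_combination κr * h.den2 + e5 + (4 * κ) * e3

/-- the value of the right neighbour, hinge split -/
lemma right_s {R κr qr : ℂ} (hr : qr * κr = 1) (hR : R ^ 2 + 1 = q + qr)
    (hS : (V - I) * (R + I) = q) : κr * (4 * κ * yv M + (1 - yv M) ^ 2) =
      -4 * (κ * (2 - 4 * κ - yv M)) ^ 2 := by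
  have n : (M + I) ^ 2 ≠ 0 := pow_ne_zero 2 h.m1
  have e1 := h.split_aux hr hR hS
  have e2 : (2 - 4 * κ - yv M) * (M + I) = -(κ * ((q - 2 + 2 * I * M) * (V - I))) := by
    linear_combination (κ * (2 - 4 * κ - yv M)) * h.dl -
      (κ * (q - 2 + 2 * I * M)) * h.eV - ((2 - 4 * κ - yv M) * (M + I)) * h.qk
  have e3 := h.port
  apply mul_right_cancel₀ n
  have e5 : (κ * ((2 - 4 * κ - yv M) * (M + I))) ^ 2 =
      κ ^ 3 * ((q - 2 + 2 * I * M) ^ 2 * (κ * (V - I) ^ 2)) := by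
    rw [e2]
    ring
  rw [e1] at e5
  linear_combination κr * h.den2 + 4 * e5 - (4 * κ ^ 3 * κr) * e3 -
    (4 * κ * κr * (M ^ 2 + 1 - q) * (q * κ + 1)) * h.qk
end Tri

end Pool.Agent.Work.MP_b30479_gtS.G2.CN.M3

end
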