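import Mathlib
import Pool.Agent.Work.MP_b30479_gt.TBS.G2.CN.M3Eq

section

/-!
# Expressions, constraints, cells, certificates

* `Ev`: expressions in two complex variables (value, evaluation, soundness);
* `Con`: constraints `0 ≤ Im (w N conj M)` and `b ‖M‖² ≤ a ‖N‖²` with a test for their failure on a
  cell;
* `run cs gs n code st`: a certificate `code` (base 64, least significant digit first): `0..11` cut the
  first cell (direction `t / 3`, position `(t % 3 + 1) / 4`), `12`: all constraints of `gs` fail on it,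
  `13 + k`: the constraint `k` of `cs` fails on it.
-/

set_option deprecated.oldSectionVars true

namespace Pool.Agent.Work.MP_b30479_gtS.G2.CN

open Complex

noncomputable section

/-! ### expressions -/

/-- the meaning of the kinds of expressions: `1`: the value is `1`, `2`: `u + i`, `3`: `u - i`,
`4`: `1 + i w`, `5`: `1 - i w` -/
structure Kd (k : ℕ) (val : ℂ → ℂ → ℂ) : Prop where
  k1 : k = 1 → ∀ u w, val u w = 1
  k2 : k = 2 → ∀ u w, val u w = u + I
  k3 : k = 3 → ∀ u w, val u w = u - I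
  k4 : k = 4 → ∀ u w, val u w = 1 + I * w
  k5 : k = 5 → ∀ u w, val u w = 1 - I * w

lemma Kd0 (val : ℂ → ℂ → ℂ) : Kd 0 val :=
  ⟨fun h => absurd h (by decide), fun h => absurd h (by decide), fun h => absurd h (by decide),
    fun h => absurd h (by decide), fun h => absurd h (by decide)⟩

lemma Kd1 {val : ℂ → ℂ → ℂ} (h : ∀ u w, val u w = 1) : Kd 1 val :=
  ⟨fun _ => h, fun h => absurd h (by decide), fun h => absurd h (by decide),
    fun h => absurd h (by decide), fun h => absurd h (by decide)⟩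

lemma Kd2 {val : ℂ → ℂ → ℂ} (h : ∀ u w, val u w = u + I) : Kd 2 val :=
  ⟨fun h => absurd h (by decide), fun _ => h, fun h => absurd h (by decide),
    fun h => absurd h (by decide), fun h => absurd h (by decide)⟩

lemma Kd3 {val : ℂ → ℂ → ℂ} (h : ∀ u w, val u w = u - I) : Kd 3 val :=
  ⟨fun h => absurd h (by decide), fun h => absurd h (by decide), fun _ => h,
    fun h => absurd h (by decide), fun h => absurd h (by decide)⟩

lemma Kd4 {val : ℂ → ℂ → ℂ} (h : ∀ u w, val u w = 1 + I * w) : Kd 4 val :=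
  ⟨fun h => absurd h (by decide), fun h => absurd h (by decide), fun h => absurd h (by decide),
    fun _ => h, fun h => absurd h (by decide)⟩

lemma Kd5 {val : ℂ → ℂ → ℂ} (h : ∀ u w, val u w = 1 - I * w) : Kd 5 val :=
  ⟨fun h => absurd h (by decide), fun h => absurd h (by decide), fun h => absurd h (by decide),
    fun h => absurd h (by decide), fun _ => h⟩

/-- An expression of degree `s + d` in the two variables: `f` evaluates `D ^ d * val`, the factor
`D ^ s` is left out. All numbers are in the range of the decoding if `g` is true. -/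
structure Ev where
  s : ℕ
  d : ℕ
  b : ℕ
  g : Bool
  ty : ℕ
  f : Env → G
  val : ℂ → ℂ → ℂ
  kd : Kd ty val
  ok : g = true → ∀ (E : Env) (X Y : GaussianInt) (δ ε u w : ℂ), E.Ok X Y → Off E δ ε →
    D * u = tc X + δ → D * w = tc Y + ε → Enc E δ ε b (f E) ((D : ℂ) ^ d * val u w)

/-- the degree -/
def Ev.deg (A : Ev) : ℕ := Nat.add A.s A.d

/-- the Gaussian integer `(a - b) + (c - d) i` -/
def gi (a b c d : ℕ) : GaussianInt := ⟨(a : ℤ) - b, (c : ℤ) - d⟩

/-- its complex number -/
def gz (a b c d : ℕ) : ℂ := ⟨(a : ℝ) - b, (c : ℝ) - d⟩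

lemma tc_gi (a b c d : ℕ) : tc (gi a b c d) = gz a b c d := by
  apply Complex.ext
  · rw [tc_re]; simp [gi, gz]
  · rw [tc_im]; simp [gi, gz]

/-- its encoding -/
def ge (a b c d : ℕ) : ℕ := Nat.mod (Nat.add (Nat.add (Nat.add a (Nat.mul (nat_lit 179769313486231590772930519078902473361797697894230657273430081157732675805500963132708477322407536021120113879871393357658789768814416622492847430639474124377767893424865485276302219601246094119453082952085005768838150682342462881473913110540827237163350510684586298239947245938479716304835356329624224137216) b))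
  (Nat.mul (nat_lit 13407807929942597099574024998205846127479365820592393377723561443721764030073546976801874298166903427690031858186486050853753882811946569946433649006084096) c)) (Nat.mul (nat_lit 179769313486231590772930519078902473361797697894230657273430081157732675805500963132708477322407536021120113879871393357658789768814416622492847430639474124377767893424865485276302219601246094119453082952085005768838150682342462881473913110540827237163350510684586298239947245938479716304835356329624224137216) (Nat.mul (nat_lit 13407807929942597099574024998205846127479365820592393377723561443721764030073546976801874298166903427690031858186486050853753882811946569946433649006084096) d))) (nat_lit 179769313486231590772930519078902473361797697894230657273430081157732675805500963132708477322407536021120113879871393357658789768814416622492847430639474124377767893424865485276302219601246094119453082952085005768838150682342462881473913110540827237163350510684586298239947245938479716304835356329624224137217)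

lemma Rep_XX : Rep (nat_lit 13407807929942597099574024998205846127479365820592393377723561443721764030073546976801874298166903427690031858186486050853753882811946569946433649006084096) ⟨0, 1⟩ := by
  change Rep XX ⟨0, 1⟩
  unfold Rep
  rw [phi_apply]
  simp

lemma Rep_ge (a b c d : ℕ) : Rep (ge a b c d) (gi a b c d) := by
  have h := (((Rep_nat a).add (Rep_M1.mul (Rep_nat b))).add (Rep_XX.mul (Rep_nat c))).add
    (Rep_M1.mul (Rep_XX.mul (Rep_nat d)))
  have e : (a : GaussianInt) + -1 * (b : GaussianInt) + ⟨0, 1⟩ * (c : GaussianInt) +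
      -1 * (⟨0, 1⟩ * (d : GaussianInt)) = gi a b c d := by
    apply Zsqrtd.ext
    · simp [gi]; ring
    · simp [gi]; ring
  rw [e] at h
  exact h.mod

/-- the bound of its absolute value -/
def gn (a b c d : ℕ) : ℕ := cN (Nat.beq (Nat.add a b) (nat_lit 0)) (Nat.add c d)
  (cN (Nat.beq (Nat.add c d) (nat_lit 0)) (Nat.add a b) (bd (Nat.add a b) (Nat.add c d)))

lemma le_gn (a b c d : ℕ) : ‖tc (gi a b c d)‖ ≤ (gn a b c d : ℝ) := by
  rw [tc_gi]
  have ha : (0 : ℝ) ≤ a := Nat.cast_nonneg _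
  have hb : (0 : ℝ) ≤ b := Nat.cast_nonneg _
  have hc : (0 : ℝ) ≤ c := Nat.cast_nonneg _
  have hd : (0 : ℝ) ≤ d := Nat.cast_nonneg _
  have h1 : |(a : ℝ) - b| ≤ ((Nat.add a b : ℕ) : ℝ) := by
    change |(a : ℝ) - b| ≤ ((a + b : ℕ) : ℝ)
    push_cast
    rw [abs_le]; constructor <;> linarith only []
  have h2 : |(c : ℝ) - d| ≤ ((Nat.add c d : ℕ) : ℝ) := by
    change |(c : ℝ) - d| ≤ ((c + d : ℕ) : ℝ)
    push_cast
    rw [abs_le]; constructor <;> linarith only []
  have h3 : ‖gz a b c d‖ ≤ ((Nat.add a b : ℕ) : ℝ) + ((Nat.add c d : ℕ) : ℝ) :=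
    (Complex.norm_le_abs_re_add_abs_im _).trans (add_le_add h1 h2)
  unfold gn
  rcases e1 : Nat.beq (Nat.add a b) (nat_lit 0) with _ | _
  · rcases e2 : Nat.beq (Nat.add c d) (nat_lit 0) with _ | _
    · exact le_bd _ _ h1 h2
    · have e3 : Nat.add c d = 0 := Nat.eq_of_beq_eq_true e2
      rw [e3, Nat.cast_zero, add_zero] at h3
      exact h3
  · have e3 : Nat.add a b = 0 := Nat.eq_of_beq_eq_true e1
    rw [e3, Nat.cast_zero, zero_add] at h3
    exact h3

lemma RB_ge (a b c d : ℕ) : RB (ge a b c d) (gi a b c d) (gn a b c d) := ⟨Rep_ge a b c d, le_gn a b c d⟩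

lemma pow_D (j : ℕ) : ((Nat.pow (nat_lit 16384) j : ℕ) : ℂ) = (D : ℂ) ^ j := by
  change ((16384 ^ j : ℕ) : ℂ) = _
  unfold D
  push_cast
  rfl

lemma pow_DR (j : ℕ) : ((Nat.pow (nat_lit 16384) j : ℕ) : ℝ) = D ^ j := by
  change ((16384 ^ j : ℕ) : ℝ) = _
  unfold D
  push_cast
  rfl

namespace Ev

/-- the first variable -/
def R : Ev where
  s := 0
  d := 1
  b := nat_lit 262144
  g := true
  ty := 0
  f := fun E => ⟨E.x, nat_lit 1, nat_lit 0, E.mx, E.ρ, nat_lit 0⟩
  val := fun u _ => u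
  kd := Kd0 _
  ok := fun _ E X Y δ ε u w hE _ hu _ => by
    refine ⟨X, 1, 0, hE.x, RB.one (by decide), RB.zero _, hE.mx, ?_, ?_⟩
    · rw [map_one, map_zero]
      simp
    · rw [pow_one, hu, map_one, map_zero]
      simp

/-- the second variable -/
def q : Ev where
  s := 0
  d := 1
  b := nat_lit 262144
  g := true
  ty := 0
  f := fun E => ⟨E.y, nat_lit 0, nat_lit 1, E.my, E.σ, nat_lit 0⟩
  val := fun _ w => w
  kd := Kd0 _
  ok := fun _ E X Y δ ε u w hE _ _ hw => by
    refine ⟨Y, 0, 1, hE.y, RB.zero _, RB.one (by decide), hE.my, ?_, ?_⟩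
    · rw [map_one, map_zero]
      simp
    · rw [pow_one, hw, map_one, map_zero]
      simp

/-- constants -/
def k (a b c d : ℕ) : Ev where
  s := 0
  d := 0
  b := gn a b c d
  g := true
  ty := 0
  f := fun _ => ⟨ge a b c d, nat_lit 0, nat_lit 0, gn a b c d, nat_lit 0, nat_lit 0⟩
  val := fun _ _ => gz a b c d
  kd := Kd0 _
  ok := fun _ E X Y δ ε u w _ _ _ _ => by
    refine ⟨gi a b c d, 0, 0, RB_ge a b c d, RB.zero _, RB.zero _, le_gn a b c d, ?_, ?_⟩
    · rw [map_zero]
      simp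
    · rw [pow_zero, tc_gi, map_zero]
      simp

/-- multiplication by a power of the scale (the value does not change) -/
def sc (j : ℕ) (A : Ev) : Ev where
  s := Nat.add j A.s
  d := A.d
  b := A.b
  g := A.g
  ty := A.ty
  f := A.f
  val := A.val
  kd := A.kd
  ok := A.ok

/-- evaluation with the factor `D ^ s` -/
def fl (A : Ev) : Env → G :=
  @Nat.rec (fun _ => Env → G) A.f (fun _ _ E => (A.f E).nm (Nat.pow (nat_lit 16384) A.s)) A.s

lemma fl_ok (A : Ev) (hg : A.g = true) (E : Env) (X Y : GaussianInt) (δ ε u w : ℂ) (hE : E.Ok X Y)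
    (ho : Off E δ ε) (hu : D * u = tc X + δ) (hw : D * w = tc Y + ε) :
    Enc E δ ε (Nat.mul (Nat.pow (nat_lit 16384) A.s) A.b) (A.fl E) ((D : ℂ) ^ A.deg * A.val u w) := by
  have h := A.ok hg E X Y δ ε u w hE ho hu hw
  have h2 := h.nm (Nat.pow (nat_lit 16384) A.s)
  rw [pow_D, ← mul_assoc, ← pow_add] at h2
  unfold fl
  rcases hs : A.s with _ | n
  · have e1 : A.deg = A.d := by
      unfold deg
      rw [hs]
      exact Nat.zero_add _
    have e2 : Nat.mul (Nat.pow (nat_lit 16384) 0) A.b = A.b := Nat.one_mul _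
    rw [e1, e2]
    exact h
  · rw [hs] at h2
    have e1 : A.deg = n + 1 + A.d := by
      unfold deg
      rw [hs]
      rfl
    rw [e1]
    exact h2

def add (A B : Ev) (hd : A.deg = B.deg) : Ev where
  s := 0
  d := A.deg
  b := Nat.add (Nat.mul (Nat.pow (nat_lit 16384) A.s) A.b) (Nat.mul (Nat.pow (nat_lit 16384) B.s) B.b)
  g := cB A.g B.g false
  ty := 0
  f := fun E => (A.fl E).add (B.fl E)
  val := fun u w => A.val u w + B.val u w
  kd := Kd0 _
  ok := fun hg E X Y δ ε u w hE ho hu hw => by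
    have h := (A.fl_ok (cB_and hg).1 E X Y δ ε u w hE ho hu hw).add (B.fl_ok (cB_and hg).2 E X Y δ ε u w hE ho hu hw)
    rw [← hd, ← mul_add] at h
    exact h

def sub (A B : Ev) (hd : A.deg = B.deg) : Ev where
  s := 0
  d := A.deg
  b := Nat.add (Nat.mul (Nat.pow (nat_lit 16384) A.s) A.b) (Nat.mul (Nat.pow (nat_lit 16384) B.s) B.b)
  g := cB A.g B.g false
  ty := 0
  f := fun E => (A.fl E).sub (B.fl E)
  val := fun u w => A.val u w - B.val u w
  kd := Kd0 _
  ok := fun hg E X Y δ ε u w hE ho hu hw => by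
    have h := (A.fl_ok (cB_and hg).1 E X Y δ ε u w hE ho hu hw).sub (B.fl_ok (cB_and hg).2 E X Y δ ε u w hE ho hu hw)
    rw [← hd, ← mul_sub] at h
    exact h

def mul (A B : Ev) : Ev where
  s := Nat.add A.s B.s
  d := Nat.add A.d B.d
  b := Nat.mul (nat_lit 2) (Nat.mul A.b B.b)
  g := cB A.g B.g false
  ty := 0
  f := fun E => (A.f E).mul (B.f E)
  val := fun u w => A.val u w * B.val u w
  kd := Kd0 _
  ok := fun hg E X Y δ ε u w hE ho hu hw => by
    have h := (A.ok (cB_and hg).1 E X Y δ ε u w hE ho hu hw).mul ho (B.ok (cB_and hg).2 E X Y δ ε u w hE ho hu hw)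
    have e : (D : ℂ) ^ A.d * A.val u w * ((D : ℂ) ^ B.d * B.val u w) =
        (D : ℂ) ^ (A.d + B.d) * (A.val u w * B.val u w) := by
      rw [pow_add]; ring
    rw [e] at h
    exact h

def sq (A : Ev) : Ev where
  s := Nat.mul 2 A.s
  d := Nat.mul 2 A.d
  b := Nat.mul (nat_lit 2) (Nat.mul A.b A.b)
  g := A.g
  ty := 0
  f := fun E => (A.f E).sq
  val := fun u w => A.val u w ^ 2
  kd := Kd0 _
  ok := fun hg E X Y δ ε u w hE ho hu hw => by
    have h := (A.ok hg E X Y δ ε u w hE ho hu hw).sq ho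
    rw [mul_pow, ← pow_mul, mul_comm A.d 2] at h
    exact h

/-- multiplication by the Gaussian integer `(a - b) + (c - d) i` -/
def gm (a b c d : ℕ) (A : Ev) : Ev where
  s := 0
  d := A.deg
  b := Nat.mul (Nat.mul (Nat.pow (nat_lit 16384) A.s) (gn a b c d)) A.b
  g := A.g
  ty := 0
  f := fun E => (A.f E).gm (Nat.mul (Nat.pow (nat_lit 16384) A.s) (ge a b c d))
    (Nat.mul (Nat.pow (nat_lit 16384) A.s) (gn a b c d))
  val := fun u w => gz a b c d * A.val u w
  kd := Kd0 _
  ok := fun hg E X Y δ ε u w hE ho hu hw => by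
    have h := (A.ok hg E X Y δ ε u w hE ho hu hw).gm ((RB.nat (Nat.pow (nat_lit 16384) A.s)).mul (RB_ge a b c d))
    rw [map_mul, map_natCast, pow_D, tc_gi] at h
    have e : (D : ℂ) ^ A.s * gz a b c d * ((D : ℂ) ^ A.d * A.val u w) =
        (D : ℂ) ^ A.deg * (gz a b c d * A.val u w) := by
      change _ = (D : ℂ) ^ (A.s + A.d) * _
      rw [pow_add]
      ring
    rw [e] at h
    exact h

/-- multiplication by a natural number -/
def nm (n : ℕ) (A : Ev) : Ev where
  s := A.s
  d := A.d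
  b := Nat.mul n A.b
  g := A.g
  ty := 0
  f := fun E => (A.f E).nm n
  val := fun u w => n * A.val u w
  kd := Kd0 _
  ok := fun hg E X Y δ ε u w hE ho hu hw => by
    have h := (A.ok hg E X Y δ ε u w hE ho hu hw).nm n
    have e : (n : ℂ) * ((D : ℂ) ^ A.d * A.val u w) = (D : ℂ) ^ A.d * (n * A.val u w) := by
      ring
    rw [e] at h
    exact h

/-- the range condition of the decoding -/
def rgB (b : ℕ) : Bool := Nat.ble (Nat.succ b) (nat_lit 6703903964971298549787012499102923063739682910296196688861780721860882015036773488400937149083451713845015929093243025426876941405973284973216824503042048)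

lemma rgB_lt {b : ℕ} (h : rgB b = true) : b < HH := Nat.le_of_ble_eq_true h

/-- new bound for the value -/
def nc (A : Ev) : Ev where
  s := A.s
  d := A.d
  b := A.b
  g := cB A.g (rgB A.b) false
  ty := A.ty
  f := fun E => (A.f E).nc
  val := A.val
  kd := A.kd
  ok := fun hg E X Y δ ε u w hE ho hu hw =>
    (A.ok (cB_and hg).1 E X Y δ ε u w hE ho hu hw).nc (rgB_lt (cB_and hg).2)

/-- new bounds for the value and the linear part -/
def nl (A : Ev) : Ev where
  s := A.s
  d := A.d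
  b := A.b
  g := cB A.g (rgB A.b) false
  ty := A.ty
  f := fun E => (A.f E).nl E.ρ E.σ
  val := A.val
  kd := A.kd
  ok := fun hg E X Y δ ε u w hE ho hu hw =>
    (A.ok (cB_and hg).1 E X Y δ ε u w hE ho hu hw).nl (rgB_lt (cB_and hg).2)

end Ev

/-! ### constraints -/

/-- a constraint: if it holds, a number which is at most the value of the form `lf` is nonnegative
(valid if `g` is true); `b` bounds the coefficients of the form -/
structure Con where
  g : Bool
  b : ℕ
  lf : Env → LF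
  Holds : ℂ → ℂ → Prop
  ok : g = true → b < HH ∧ ∀ (E : Env) (X Y : GaussianInt) (δ ε u w : ℂ), E.Ok X Y → Off E δ ε →
    D * u = tc X + δ → D * w = tc Y + ε → ∃ x : ℝ, LOk δ ε b (lf E) x ∧ (Holds u w → 0 ≤ x)

/-- the test of a failure -/
def Con.fails (c : Con) (E : Env) : Bool := tst (c.lf E) E.a E.b E.c E.d

/-- the encoding of `(a - b) i` -/
lemma RB_k (a b : ℕ) : RB (ge 0 0 a b) (gi 0 0 a b) (Nat.add a b) := by
  refine ⟨Rep_ge 0 0 a b, ?_⟩
  rw [tc_gi]
  unfold gz
  change _ ≤ ((a + b : ℕ) : ℝ)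
  refine (Complex.norm_le_abs_re_add_abs_im _).trans ?_
  simp only
  push_cast
  have ha : (0 : ℝ) ≤ a := Nat.cast_nonneg _
  have hb : (0 : ℝ) ≤ b := Nat.cast_nonneg _
  rw [sub_self, abs_zero, zero_add, abs_le]
  constructor <;> linarith only []

lemma gn_comm (a b c d : ℕ) : gn b a c d = gn a b c d := by
  unfold gn
  have e : Nat.add b a = Nat.add a b := Nat.add_comm b a
  rw [e]

/-- minus the conjugate -/
lemma RB_gh (a b c d : ℕ) : RB (ge b a c d) (-star (gi a b c d)) (gn a b c d) := by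
  have h := RB_ge b a c d
  rw [gn_comm a b c d] at h
  have e : gi b a c d = -star (gi a b c d) := by
    apply Zsqrtd.ext
    · simp [gi]
    · simp [gi]
  rw [e] at h
  exact h

lemma tc_k (a b : ℕ) : tc (gi 0 0 a b) = ((((a : ℝ) - b) : ℝ) : ℂ) * I := by
  rw [tc_gi]
  unfold gz
  apply Complex.ext <;> simp

/-- common factor -/
lemma scale_id {a b c d : ℕ} (N M z : ℂ) (γ μ : ℝ) (h : a + b = c + d) :
    ((((D ^ a * D ^ c : ℝ) : ℂ) * z) * (((D : ℂ) ^ b * N) * (starRingEnd ℂ) ((D : ℂ) ^ d * M))).im -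
      D ^ a * D ^ a * γ * ‖(D : ℂ) ^ b * N‖ ^ 2 - D ^ c * D ^ c * μ * ‖(D : ℂ) ^ d * M‖ ^ 2 =
      (D ^ (a + b)) ^ 2 * ((z * (N * (starRingEnd ℂ) M)).im - γ * ‖N‖ ^ 2 - μ * ‖M‖ ^ 2) := by
  have e1 : (((D ^ a * D ^ c : ℝ) : ℂ) * z) * (((D : ℂ) ^ b * N) * (starRingEnd ℂ) ((D : ℂ) ^ d * M)) =
      (((D ^ (a + b)) ^ 2 : ℝ) : ℂ) * (z * (N * (starRingEnd ℂ) M)) := by
    have e : (D ^ (a + b)) ^ 2 = D ^ a * D ^ c * (D ^ b * D ^ d) := by
      rw [pow_two]
      nth_rw 2 [h]
      rw [pow_add, pow_add]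
      ring
    rw [e, map_mul, map_pow, Complex.conj_ofReal]
    push_cast
    ring
  rw [e1, Complex.im_ofReal_mul, norm_mul, norm_mul, norm_pow, norm_pow, Complex.norm_real,
    Real.norm_of_nonneg D_pos.le]
  have e2 : D ^ c * D ^ c * μ * (D ^ d * ‖M‖) ^ 2 = (D ^ (c + d)) ^ 2 * (μ * ‖M‖ ^ 2) := by
    rw [pow_add]
    ring
  have e3 : D ^ a * D ^ a * γ * (D ^ b * ‖N‖) ^ 2 = (D ^ (a + b)) ^ 2 * (γ * ‖N‖ ^ 2) := by
    rw [pow_add]
    ring
  rw [e2, e3, ← h]
  ring

/-- `D ^ s D ^ t n` -/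
def pD (n s t : ℕ) : ℕ := Nat.mul (Nat.mul (Nat.pow (nat_lit 16384) s) (Nat.pow (nat_lit 16384) t)) n

lemma pD_cast (n s t : ℕ) : (pD n s t : ℝ) = D ^ s * D ^ t * n := by
  change ((Nat.pow (nat_lit 16384) s * Nat.pow (nat_lit 16384) t * n : ℕ) : ℝ) = _
  push_cast
  rw [pow_DR, pow_DR]

lemma RB_pD {n b : ℕ} {z : GaussianInt} (h : RB n z b) (s t : ℕ) :
    RB (pD n s t) (((Nat.pow (nat_lit 16384) s : ℕ) : GaussianInt) * ((Nat.pow (nat_lit 16384) t : ℕ) : GaussianInt) * z)
      (pD b s t) :=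
  ((RB.nat (Nat.pow (nat_lit 16384) s)).mul (RB.nat (Nat.pow (nat_lit 16384) t))).mul h

lemma tc_pD (z : GaussianInt) (s t : ℕ) :
    tc (((Nat.pow (nat_lit 16384) s : ℕ) : GaussianInt) * ((Nat.pow (nat_lit 16384) t : ℕ) : GaussianInt) * z) =
      ((D ^ s * D ^ t : ℝ) : ℂ) * tc z := by
  rw [map_mul, map_mul, map_natCast, map_natCast, pow_D, pow_D]
  push_cast
  rfl

lemma RB_pDh (a b c d s t : ℕ) : RB (pD (ge b a c d) s t)
    (-star (((Nat.pow (nat_lit 16384) s : ℕ) : GaussianInt) * ((Nat.pow (nat_lit 16384) t : ℕ) : GaussianInt) *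
      gi a b c d)) (pD (gn a b c d) s t) := by
  have h := RB_pD (RB_gh a b c d) s t
  have e : ((Nat.pow (nat_lit 16384) s : ℕ) : GaussianInt) * ((Nat.pow (nat_lit 16384) t : ℕ) : GaussianInt) *
      -star (gi a b c d) = -star (((Nat.pow (nat_lit 16384) s : ℕ) : GaussianInt) *
        ((Nat.pow (nat_lit 16384) t : ℕ) : GaussianInt) * gi a b c d) := by
    rw [star_mul', star_mul', star_natCast, star_natCast, mul_neg]
  rw [e] at h
  exact h

lemma RB_pk (g1 g2 s : ℕ) : RB (pD (ge 0 0 g2 g1) s s)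
    (((Nat.pow (nat_lit 16384) s : ℕ) : GaussianInt) * ((Nat.pow (nat_lit 16384) s : ℕ) : GaussianInt) *
      gi 0 0 g2 g1) (pD g1 s s + pD g2 s s) := by
  refine (RB_pD (RB_k g2 g1) s s).mono ?_
  change Nat.pow 16384 s * Nat.pow 16384 s * (g2 + g1) ≤
    Nat.pow 16384 s * Nat.pow 16384 s * g1 + Nat.pow 16384 s * Nat.pow 16384 s * g2
  rw [Nat.mul_add, Nat.add_comm]

lemma tc_pk (g1 g2 s : ℕ) :
    tc (((Nat.pow (nat_lit 16384) s : ℕ) : GaussianInt) * ((Nat.pow (nat_lit 16384) s : ℕ) : GaussianInt) *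
      gi 0 0 g2 g1) = ((-((pD g1 s s : ℝ) - pD g2 s s) : ℝ) : ℂ) * I := by
  rw [tc_pD, tc_k, pD_cast, pD_cast]
  push_cast
  ring

namespace Con

open Ev

/-- the range condition for `N`, `M` and the bound of the coefficients -/
def qg (N M : Ev) (b : ℕ) : Bool :=
  cB N.g (cB M.g (cB (rgB N.b) (cB (rgB M.b) (rgB b) false) false) false) false

lemma qg_spec {N M : Ev} {b : ℕ} (h : qg N M b = true) :
    N.g = true ∧ M.g = true ∧ N.b < HH ∧ M.b < HH ∧ b < HH :=
  ⟨(cB_and h).1, (cB_and (cB_and h).2).1, rgB_lt (cB_and (cB_and (cB_and h).2).2).1,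
    rgB_lt (cB_and (cB_and (cB_and (cB_and h).2).2).2).1, rgB_lt (cB_and (cB_and (cB_and (cB_and h).2).2).2).2⟩

/-- `0 ≤ Im (g N conj M)` with `g = (a - b) + (c - d) i` -/
def qI (a b c d : ℕ) (N M : Ev) : Con where
  g := qg N M (lqb (gn a b c d) (nat_lit 0) (nat_lit 0) N.b M.b)
  b := lqb (gn a b c d) (nat_lit 0) (nat_lit 0) N.b M.b
  lf := fun E => lqI (ge a b c d) (ge b a c d) (gn a b c d) (N.f E) (M.f E)
  Holds := fun u w => 0 ≤ (gz a b c d * (N.val u w * (starRingEnd ℂ) (M.val u w))).im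
  ok := fun hg => by
    obtain ⟨g1, g2, g3, g4, g5⟩ := qg_spec hg
    refine ⟨g5, fun E X Y δ ε u w hE ho hu hw => ?_⟩
    refine ⟨_, lqI_spec ho (RB_ge a b c d) (RB_gh a b c d) (N.ok g1 E X Y δ ε u w hE ho hu hw)
      (M.ok g2 E X Y δ ε u w hE ho hu hw) g3 g4, fun hH => ?_⟩
    have e : tc (gi a b c d) * ((D : ℂ) ^ N.d * N.val u w *
        (starRingEnd ℂ) ((D : ℂ) ^ M.d * M.val u w)) = ((D ^ (N.d + M.d) : ℝ) : ℂ) *
        (gz a b c d * (N.val u w * (starRingEnd ℂ) (M.val u w))) := by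
      rw [tc_gi, map_mul, map_pow, Complex.conj_ofReal]
      push_cast
      rw [pow_add]
      ring
    rw [e, Complex.im_ofReal_mul]
    exact mul_nonneg (pow_nonneg D_pos.le (N.d + M.d)) hH

/-- `0 ≤ Im (g N conj M) - μ ‖M‖²` with `μ = m1 - m2` -/
def qM (a b c d m1 m2 : ℕ) (N M : Ev) (hd : N.deg = M.deg) : Con where
  g := qg N M (lqb (pD (gn a b c d) N.s M.s) (nat_lit 0)
    (Nat.mul (nat_lit 2) (Nat.add (pD m1 M.s M.s) (pD m2 M.s M.s))) N.b M.b)
  b := lqb (pD (gn a b c d) N.s M.s) (nat_lit 0)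
    (Nat.mul (nat_lit 2) (Nat.add (pD m1 M.s M.s) (pD m2 M.s M.s))) N.b M.b
  lf := fun E => lqM (pD (ge a b c d) N.s M.s) (pD (ge b a c d) N.s M.s) (pD (gn a b c d) N.s M.s)
    (pD (ge 0 0 m2 m1) M.s M.s) (Nat.mul (nat_lit 2) (Nat.add (pD m1 M.s M.s) (pD m2 M.s M.s))) (pD m2 M.s M.s)
    (N.f E) (M.f E)
  Holds := fun u w => 0 ≤ (gz a b c d * (N.val u w * (starRingEnd ℂ) (M.val u w))).im - ((m1 : ℝ) - m2) * ‖M.val u w‖ ^ 2
  ok := fun hg => by
    obtain ⟨k1, k2, k3, k4, k5⟩ := qg_spec hg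
    refine ⟨k5, fun E X Y δ ε u w hE ho hu hw => ?_⟩
    refine ⟨_, lqM_spec ho (RB_pD (RB_ge a b c d) N.s M.s) (RB_pDh a b c d N.s M.s)
      (RB_pk m1 m2 M.s) (tc_pk m1 m2 M.s)
      (N.ok k1 E X Y δ ε u w hE ho hu hw) (M.ok k2 E X Y δ ε u w hE ho hu hw) k3 k4, fun hH => ?_⟩
    have e := scale_id (N.val u w) (M.val u w) (gz a b c d) (0 : ℝ) ((m1 : ℝ) - m2) hd
    rw [mul_zero, zero_mul, zero_mul, sub_zero, sub_zero] at e
    rw [tc_pD, tc_gi, pD_cast, pD_cast, ← mul_sub]
    refine le_of_le_of_eq (mul_nonneg (sq_nonneg (D ^ (N.s + N.d))) hH) (Eq.trans ?_ e.symm)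
    ring

/-- `0 ≤ Im (g N conj M) - γ ‖N‖²` with `γ = g1 - g2` -/
def qG (a b c d g1 g2 : ℕ) (N M : Ev) (hd : N.deg = M.deg) : Con where
  g := qg N M (lqb (pD (gn a b c d) N.s M.s) (Nat.mul (nat_lit 2) (Nat.add (pD g1 N.s N.s) (pD g2 N.s N.s)))
    (nat_lit 0) N.b M.b)
  b := lqb (pD (gn a b c d) N.s M.s) (Nat.mul (nat_lit 2) (Nat.add (pD g1 N.s N.s) (pD g2 N.s N.s)))
    (nat_lit 0) N.b M.b
  lf := fun E => lqG (pD (ge a b c d) N.s M.s) (pD (ge b a c d) N.s M.s) (pD (gn a b c d) N.s M.s)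
    (pD (ge 0 0 g2 g1) N.s N.s) (Nat.mul (nat_lit 2) (Nat.add (pD g1 N.s N.s) (pD g2 N.s N.s))) (pD g2 N.s N.s)
    (N.f E) (M.f E)
  Holds := fun u w => 0 ≤ (gz a b c d * (N.val u w * (starRingEnd ℂ) (M.val u w))).im -
    ((g1 : ℝ) - g2) * ‖N.val u w‖ ^ 2
  ok := fun hg => by
    obtain ⟨k1, k2, k3, k4, k5⟩ := qg_spec hg
    refine ⟨k5, fun E X Y δ ε u w hE ho hu hw => ?_⟩
    refine ⟨_, lqG_spec ho (RB_pD (RB_ge a b c d) N.s M.s) (RB_pDh a b c d N.s M.s)
      (RB_pk g1 g2 N.s) (tc_pk g1 g2 N.s)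
      (N.ok k1 E X Y δ ε u w hE ho hu hw) (M.ok k2 E X Y δ ε u w hE ho hu hw) k3 k4, fun hH => ?_⟩
    have e := scale_id (N.val u w) (M.val u w) (gz a b c d) ((g1 : ℝ) - g2) (0 : ℝ) hd
    rw [mul_zero, zero_mul, zero_mul, sub_zero, sub_zero] at e
    rw [tc_pD, tc_gi, pD_cast, pD_cast, ← mul_sub]
    refine le_of_le_of_eq (mul_nonneg (sq_nonneg (D ^ (N.s + N.d))) hH) (Eq.trans ?_ e.symm)
    ring

/-- `0 ≤ - γ ‖N‖² - μ ‖M‖²` -/
def qB (g1 g2 m1 m2 : ℕ) (N M : Ev) (hd : N.deg = M.deg) : Con where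
  g := qg N M (lqb (nat_lit 0) (Nat.mul (nat_lit 2) (Nat.add (pD g1 N.s N.s) (pD g2 N.s N.s)))
    (Nat.mul (nat_lit 2) (Nat.add (pD m1 M.s M.s) (pD m2 M.s M.s))) N.b M.b)
  b := lqb (nat_lit 0) (Nat.mul (nat_lit 2) (Nat.add (pD g1 N.s N.s) (pD g2 N.s N.s)))
    (Nat.mul (nat_lit 2) (Nat.add (pD m1 M.s M.s) (pD m2 M.s M.s))) N.b M.b
  lf := fun E => lqB (pD (ge 0 0 g2 g1) N.s N.s) (Nat.mul (nat_lit 2) (Nat.add (pD g1 N.s N.s) (pD g2 N.s N.s))) (pD g2 N.s N.s)
    (pD (ge 0 0 m2 m1) M.s M.s) (Nat.mul (nat_lit 2) (Nat.add (pD m1 M.s M.s) (pD m2 M.s M.s))) (pD m2 M.s M.s)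
    (N.f E) (M.f E)
  Holds := fun u w => 0 ≤ -(((g1 : ℝ) - g2) * ‖N.val u w‖ ^ 2) - ((m1 : ℝ) - m2) * ‖M.val u w‖ ^ 2
  ok := fun hg => by
    obtain ⟨k1, k2, k3, k4, k5⟩ := qg_spec hg
    refine ⟨k5, fun E X Y δ ε u w hE ho hu hw => ?_⟩
    refine ⟨_, lqB_spec ho (RB_pk g1 g2 N.s) (tc_pk g1 g2 N.s) (RB_pk m1 m2 M.s) (tc_pk m1 m2 M.s)
      (N.ok k1 E X Y δ ε u w hE ho hu hw) (M.ok k2 E X Y δ ε u w hE ho hu hw) k3 k4, fun hH => ?_⟩
    have e := scale_id (N.val u w) (M.val u w) (0 : ℂ) ((g1 : ℝ) - g2) ((m1 : ℝ) - m2) hd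
    rw [mul_zero, zero_mul, zero_mul, Complex.zero_im, zero_sub, zero_sub] at e
    rw [pD_cast, pD_cast, pD_cast, pD_cast, ← mul_sub, ← mul_sub]
    refine le_of_le_of_eq (mul_nonneg (sq_nonneg (D ^ (N.s + N.d))) hH) (Eq.trans ?_ e.symm)
    ring

/-- `0 ≤ Im (g N conj M) - γ ‖N‖² - μ ‖M‖²` with `γ = g1 - g2`, `μ = m1 - m2` -/
def qA (a b c d g1 g2 m1 m2 : ℕ) (N M : Ev) (hd : N.deg = M.deg) : Con where
  g := qg N M (lqb (pD (gn a b c d) N.s M.s) (Nat.mul (nat_lit 2) (Nat.add (pD g1 N.s N.s) (pD g2 N.s N.s)))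
    (Nat.mul (nat_lit 2) (Nat.add (pD m1 M.s M.s) (pD m2 M.s M.s))) N.b M.b)
  b := lqb (pD (gn a b c d) N.s M.s) (Nat.mul (nat_lit 2) (Nat.add (pD g1 N.s N.s) (pD g2 N.s N.s)))
    (Nat.mul (nat_lit 2) (Nat.add (pD m1 M.s M.s) (pD m2 M.s M.s))) N.b M.b
  lf := fun E => lqA (pD (ge a b c d) N.s M.s) (pD (ge b a c d) N.s M.s) (pD (gn a b c d) N.s M.s)
    (pD (ge 0 0 g2 g1) N.s N.s) (Nat.mul (nat_lit 2) (Nat.add (pD g1 N.s N.s) (pD g2 N.s N.s))) (pD g2 N.s N.s)
    (pD (ge 0 0 m2 m1) M.s M.s) (Nat.mul (nat_lit 2) (Nat.add (pD m1 M.s M.s) (pD m2 M.s M.s))) (pD m2 M.s M.s)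
    (N.f E) (M.f E)
  Holds := fun u w => 0 ≤ (gz a b c d * (N.val u w * (starRingEnd ℂ) (M.val u w))).im -
    ((g1 : ℝ) - g2) * ‖N.val u w‖ ^ 2 - ((m1 : ℝ) - m2) * ‖M.val u w‖ ^ 2
  ok := fun hg => by
    obtain ⟨k1, k2, k3, k4, k5⟩ := qg_spec hg
    refine ⟨k5, fun E X Y δ ε u w hE ho hu hw => ?_⟩
    refine ⟨_, lqA_spec ho (RB_pD (RB_ge a b c d) N.s M.s) (RB_pDh a b c d N.s M.s)
      (RB_pk g1 g2 N.s) (tc_pk g1 g2 N.s) (RB_pk m1 m2 M.s) (tc_pk m1 m2 M.s)
      (N.ok k1 E X Y δ ε u w hE ho hu hw) (M.ok k2 E X Y δ ε u w hE ho hu hw) k3 k4, fun hH => ?_⟩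
    have e := scale_id (N.val u w) (M.val u w) (gz a b c d) ((g1 : ℝ) - g2) ((m1 : ℝ) - m2) hd
    rw [tc_pD, tc_gi, pD_cast, pD_cast, pD_cast, pD_cast, ← mul_sub, ← mul_sub]
    refine le_of_le_of_eq (mul_nonneg (sq_nonneg (D ^ (N.s + N.d))) hH) (Eq.trans ?_ e.symm)
    ring

/-- `0 ≤ Im (g A) + k` with `g = (a - b) + (c - d) i`, `k = k1 - k2` -/
def ql (a b c d k1 k2 : ℕ) (A : Ev) : Con where
  g := cB A.g (rgB (Nat.add (Nat.mul (gn a b c d) A.b) (Nat.mul (Nat.pow (nat_lit 16384) A.d) (Nat.add k1 k2)))) false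
  b := Nat.add (Nat.mul (gn a b c d) A.b) (Nat.mul (Nat.pow (nat_lit 16384) A.d) (Nat.add k1 k2))
  lf := fun E => ll (ge a b c d) (gn a b c d) (Nat.mul (Nat.pow (nat_lit 16384) A.d) (ge 0 0 k1 k2)) (A.f E)
  Holds := fun u w => 0 ≤ (gz a b c d * A.val u w).im + ((k1 : ℝ) - k2)
  ok := fun hg => by
    refine ⟨rgB_lt (cB_and hg).2, fun E X Y δ ε u w hE ho hu hw => ?_⟩
    have hk : RB (Nat.mul (Nat.pow (nat_lit 16384) A.d) (ge 0 0 k1 k2))
        (((Nat.pow (nat_lit 16384) A.d : ℕ) : GaussianInt) * gi 0 0 k1 k2)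
        (Nat.mul (Nat.pow (nat_lit 16384) A.d) (Nat.add k1 k2)) :=
      (RB.nat (Nat.pow (nat_lit 16384) A.d)).mul (RB_k k1 k2)
    refine ⟨_, ll_spec (RB_ge a b c d) hk (A.ok (cB_and hg).1 E X Y δ ε u w hE ho hu hw), fun hH => ?_⟩
    rw [map_mul, map_natCast, pow_D, tc_gi, tc_gi]
    have e : (gz a b c d * ((D : ℂ) ^ A.d * A.val u w)).im + ((D : ℂ) ^ A.d * gz 0 0 k1 k2).im =
        D ^ A.d * ((gz a b c d * A.val u w).im + ((k1 : ℝ) - k2)) := by
      have e1 : gz a b c d * ((D : ℂ) ^ A.d * A.val u w) = ((D ^ A.d : ℝ) : ℂ) * (gz a b c d * A.val u w) := by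
        push_cast
        ring
      have e2 : (D : ℂ) ^ A.d * gz 0 0 k1 k2 = ((D ^ A.d : ℝ) : ℂ) * gz 0 0 k1 k2 := by
        push_cast
        rfl
      have e3 : (gz 0 0 k1 k2).im = (k1 : ℝ) - k2 := rfl
      rw [e1, e2, Complex.im_ofReal_mul, Complex.im_ofReal_mul, e3]
      ring
    rw [e]
    exact mul_nonneg (pow_nonneg D_pos.le A.d) hH

/-- `0 ≤ Im (g A) - m ‖A‖² + k` with `g = (a - b) + (c - d) i`, `m = m1 - m2`, `k = k1 - k2` -/
def qd (a b c d m1 m2 k1 k2 : ℕ) (A : Ev) : Con where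
  g := cB A.g (cB (rgB A.b) (rgB (ldb (Nat.mul (Nat.pow (nat_lit 16384) A.d) (gn a b c d)) (Nat.add m2 m1)
    (Nat.mul (Nat.mul (Nat.pow (nat_lit 16384) A.d) (Nat.pow (nat_lit 16384) A.d)) (Nat.add k1 k2)) A.b)) false) false
  b := ldb (Nat.mul (Nat.pow (nat_lit 16384) A.d) (gn a b c d)) (Nat.add m2 m1)
    (Nat.mul (Nat.mul (Nat.pow (nat_lit 16384) A.d) (Nat.pow (nat_lit 16384) A.d)) (Nat.add k1 k2)) A.b
  lf := fun E => ld (Nat.mul (Nat.pow (nat_lit 16384) A.d) (ge a b c d))
    (Nat.mul (Nat.pow (nat_lit 16384) A.d) (gn a b c d)) (ge 0 0 m2 m1) (Nat.add m2 m1) m2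
    (Nat.mul (Nat.mul (Nat.pow (nat_lit 16384) A.d) (Nat.pow (nat_lit 16384) A.d)) (ge 0 0 k1 k2)) (A.f E)
  Holds := fun u w => 0 ≤ (gz a b c d * A.val u w).im - ((m1 : ℝ) - m2) * ‖A.val u w‖ ^ 2 + ((k1 : ℝ) - k2)
  ok := fun hg => by
    obtain ⟨g1, g2⟩ := cB_and hg
    obtain ⟨g3, g4⟩ := cB_and g2
    refine ⟨rgB_lt g4, fun E X Y δ ε u w hE ho hu hw => ?_⟩
    have hk : RB (Nat.mul (Nat.mul (Nat.pow (nat_lit 16384) A.d) (Nat.pow (nat_lit 16384) A.d)) (ge 0 0 k1 k2))
        (((Nat.pow (nat_lit 16384) A.d : ℕ) : GaussianInt) * ((Nat.pow (nat_lit 16384) A.d : ℕ) : GaussianInt) *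
          gi 0 0 k1 k2)
        (Nat.mul (Nat.mul (Nat.pow (nat_lit 16384) A.d) (Nat.pow (nat_lit 16384) A.d)) (Nat.add k1 k2)) :=
      ((RB.nat (Nat.pow (nat_lit 16384) A.d)).mul (RB.nat (Nat.pow (nat_lit 16384) A.d))).mul (RB_k k1 k2)
    have hG : RB (Nat.mul (Nat.pow (nat_lit 16384) A.d) (ge a b c d))
        (((Nat.pow (nat_lit 16384) A.d : ℕ) : GaussianInt) * gi a b c d)
        (Nat.mul (Nat.pow (nat_lit 16384) A.d) (gn a b c d)) :=
      (RB.nat (Nat.pow (nat_lit 16384) A.d)).mul (RB_ge a b c d)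
    refine ⟨_, ld_spec (m1 := m1) (m2 := m2) ho hG (RB_k m2 m1) (tc_k m2 m1) hk
      (A.ok g1 E X Y δ ε u w hE ho hu hw) (rgB_lt g3), fun hH => ?_⟩
    rw [map_mul, map_mul, map_mul, map_natCast, pow_D, tc_gi, tc_gi, norm_mul, norm_pow, Complex.norm_real,
      Real.norm_of_nonneg D_pos.le]
    have e1 : (D : ℂ) ^ A.d * gz a b c d * ((D : ℂ) ^ A.d * A.val u w) =
        ((D ^ A.d * D ^ A.d : ℝ) : ℂ) * (gz a b c d * A.val u w) := by
      push_cast
      ring
    have e2 : (D : ℂ) ^ A.d * (D : ℂ) ^ A.d * gz 0 0 k1 k2 = ((D ^ A.d * D ^ A.d : ℝ) : ℂ) * gz 0 0 k1 k2 := by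
      push_cast
      ring
    have e3 : (gz 0 0 k1 k2).im = (k1 : ℝ) - k2 := rfl
    rw [e1, e2, Complex.im_ofReal_mul, Complex.im_ofReal_mul, e3]
    refine le_of_le_of_eq (mul_nonneg (mul_nonneg (pow_nonneg D_pos.le A.d) (pow_nonneg D_pos.le A.d)) hH) ?_
    ring

end Con

/-! ### cells -/

/-- intervals for `D u + 2 ^ 20 (1 + i)` and `D w + 2 ^ 20 (1 + i)` -/
structure Cell where
  xl : ℕ
  xh : ℕ
  yl : ℕ
  yh : ℕ
  ul : ℕ
  uh : ℕ
  vl : ℕ
  vh : ℕ

/-- membership in an interval -/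
def InI (l h : ℕ) (t : ℝ) : Prop := (l : ℝ) ≤ D * t + 1048576 ∧ D * t + 1048576 ≤ h

def Cell.Mem (C : Cell) (u w : ℂ) : Prop :=
  InI C.xl C.xh u.re ∧ InI C.yl C.yh u.im ∧ InI C.ul C.uh w.re ∧ InI C.vl C.vh w.im

/-- the range of the cells -/
def InR (n : ℕ) : Prop := 917504 ≤ n ∧ n ≤ 1179648

structure Cell.In (C : Cell) : Prop where
  xl : InR C.xl
  xh : InR C.xh
  yl : InR C.yl
  yh : InR C.yh
  ul : InR C.ul
  uh : InR C.uh
  vl : InR C.vl
  vh : InR C.vh

/-- middle -/
def mid (l h : ℕ) : ℕ := Nat.div (Nat.add l h) (nat_lit 2)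

lemma InR.mid {l h : ℕ} (hl : InR l) (hh : InR h) : InR (mid l h) := by
  unfold InR at *
  change 917504 ≤ (l + h) / 2 ∧ (l + h) / 2 ≤ 1179648
  omega

/-- encoding of `(s - 2 ^ 20) + (t - 2 ^ 20) i` -/
def eo (s t : ℕ) : ℕ := Nat.add (Nat.add s (Nat.mul t (nat_lit 13407807929942597099574024998205846127479365820592393377723561443721764030073546976801874298166903427690031858186486050853753882811946569946433649006084096))) (nat_lit 179769313486231590772930519078902473361797697894230657273430081157732675805500963132708477322407536021120113879871393357658789768814416622492847430625415018769820404728582552439783526292278290624759593473645144604426158242744063286726910966466168308569847664954833500979921414515060029776683746389420586041345)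

lemma Rep_eo (s t : ℕ) : Rep (eo s t) ⟨(s : ℤ) - 1048576, (t : ℤ) - 1048576⟩ := by
  have h0 : Rep (nat_lit 179769313486231590772930519078902473361797697894230657273430081157732675805500963132708477322407536021120113879871393357658789768814416622492847430625415018769820404728582552439783526292278290624759593473645144604426158242744063286726910966466168308569847664954833500979921414515060029776683746389420586041345) ⟨-1048576, -1048576⟩ := by
    have h1 : ((((nat_lit 179769313486231590772930519078902473361797697894230657273430081157732675805500963132708477322407536021120113879871393357658789768814416622492847430625415018769820404728582552439783526292278290624759593473645144604426158242744063286726910966466168308569847664954833500979921414515060029776683746389420586041345) + (1048576 + 1048576 * XX) : ℕ)) : ZMod MM) = 0 := by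
      have : (nat_lit 179769313486231590772930519078902473361797697894230657273430081157732675805500963132708477322407536021120113879871393357658789768814416622492847430625415018769820404728582552439783526292278290624759593473645144604426158242744063286726910966466168308569847664954833500979921414515060029776683746389420586041345) + (1048576 + 1048576 * XX) = MM := by decide +kernel
      rw [this]
      exact ZMod.natCast_self MM
    unfold Rep
    rw [phi_apply]
    push_cast at h1 ⊢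
    linear_combination h1
  have h := ((Rep_nat s).add ((Rep_nat t).mul Rep_XX)).add h0
  have e : (s : GaussianInt) + (t : GaussianInt) * ⟨0, 1⟩ + ⟨-1048576, -1048576⟩ =
      ⟨(s : ℤ) - 1048576, (t : ℤ) - 1048576⟩ := by
    apply Zsqrtd.ext
    · simp
      ring
    · simp
      ring
  rw [e] at h
  exact h

/-- the environment with the middles `m` and the half widths `a, b, c, d` -/
def env3 (m1 m2 m3 m4 a b c d : ℕ) : Env :=
  ⟨eo m1 m2, eo m3 m4, bd (ad m1 (nat_lit 1048576)) (ad m2 (nat_lit 1048576)),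
    bd (ad m3 (nat_lit 1048576)) (ad m4 (nat_lit 1048576)), a, b, c, d, bd a b, bd c d⟩

def env2 (m1 m2 m3 m4 h1 h2 h3 h4 : ℕ) : Env :=
  env3 m1 m2 m3 m4 (Nat.sub h1 m1) (Nat.sub h2 m2) (Nat.sub h3 m3) (Nat.sub h4 m4)

/-- the environment of a cell -/
def envOf (C : Cell) : Env := @Cell.rec (fun _ => Env) (fun xl xh yl yh ul uh vl vh =>
  env2 (mid xl xh) (mid yl yh) (mid ul uh) (mid vl vh) xh yh uh vh) C

lemma InI.mid {l h : ℕ} {t : ℝ} (H : InI l h t) :
    |D * t - ((CN.mid l h : ℝ) - 1048576)| ≤ ((h - CN.mid l h : ℕ) : ℝ) := by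
  obtain ⟨h1, h2⟩ := H
  have h3 : l ≤ h := by
    have : (l : ℝ) ≤ h := h1.trans h2
    exact_mod_cast this
  have h4 : CN.mid l h ≤ h := by
    change (l + h) / 2 ≤ h
    omega
  have h5 : CN.mid l h ≤ l + (h - CN.mid l h) := by
    change (l + h) / 2 ≤ l + (h - (l + h) / 2)
    omega
  have h6 : (CN.mid l h : ℝ) ≤ l + ((h - CN.mid l h : ℕ) : ℝ) := by exact_mod_cast h5
  rw [Nat.cast_sub h4] at h6 ⊢
  rw [abs_le]
  constructor <;> linarith only [h1, h6, h2]

lemma norm_eo {s t : ℕ} (hs : InR s) (ht : InR t) :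
    ‖tc ⟨(s : ℤ) - 1048576, (t : ℤ) - 1048576⟩‖ ≤ ((nat_lit 262144 : ℕ) : ℝ) := by
  refine (Complex.norm_le_abs_re_add_abs_im _).trans ?_
  rw [tc_re, tc_im]
  push_cast
  obtain ⟨a1, a2⟩ := hs
  obtain ⟨b1, b2⟩ := ht
  have a1' : (917504 : ℝ) ≤ s := by exact_mod_cast a1
  have a2' : (s : ℝ) ≤ 1179648 := by exact_mod_cast a2
  have b1' : (917504 : ℝ) ≤ t := by exact_mod_cast b1
  have b2' : (t : ℝ) ≤ 1179648 := by exact_mod_cast b2
  have c1 : |(s : ℝ) - 1048576| ≤ 131072 := by rw [abs_le]; constructor <;> linarith only [a1', a2']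
  have c2 : |(t : ℝ) - 1048576| ≤ 131072 := by rw [abs_le]; constructor <;> linarith only [b1', b2']
  have c3 : (((262144 : ℕ)) : ℝ) = 262144 := by norm_num
  change _ ≤ (((262144 : ℕ)) : ℝ)
  rw [c3]
  linarith only [c1, c2]

theorem envOf_ok (C : Cell) (hC : C.In) :
    (envOf C).Ok ⟨((mid C.xl C.xh : ℕ) : ℤ) - 1048576, ((mid C.yl C.yh : ℕ) : ℤ) - 1048576⟩
      ⟨((mid C.ul C.uh : ℕ) : ℤ) - 1048576, ((mid C.vl C.vh : ℕ) : ℤ) - 1048576⟩ := by
  refine ⟨⟨Rep_eo _ _, norm_eo (hC.xl.mid hC.xh) (hC.yl.mid hC.yh)⟩,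
    ⟨Rep_eo _ _, norm_eo (hC.ul.mid hC.uh) (hC.vl.mid hC.vh)⟩, ?_, ?_⟩
  · apply le_bd
    · rw [tc_re, ad_cast]
      push_cast
      exact le_rfl
    · rw [tc_im, ad_cast]
      push_cast
      exact le_rfl
  · apply le_bd
    · rw [tc_re, ad_cast]
      push_cast
      exact le_rfl
    · rw [tc_im, ad_cast]
      push_cast
      exact le_rfl

theorem Con.fails_cell {C : Cell} {u w : ℂ} (hC : C.In) (h : C.Mem u w) {c : Con} (hg : c.g = true)
    (hf : c.fails (envOf C) = true) : ¬ c.Holds u w := by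
  obtain ⟨h1, h2, h3, h4⟩ := h
  have k1 := h1.mid
  have k2 := h2.mid
  have k3 := h3.mid
  have k4 := h4.mid
  set X : GaussianInt := ⟨((mid C.xl C.xh : ℕ) : ℤ) - 1048576, ((mid C.yl C.yh : ℕ) : ℤ) - 1048576⟩
    with hX
  set Y : GaussianInt := ⟨((mid C.ul C.uh : ℕ) : ℤ) - 1048576, ((mid C.vl C.vh : ℕ) : ℤ) - 1048576⟩
    with hY
  have eX1 : (tc X).re = (mid C.xl C.xh : ℝ) - 1048576 := by
    rw [tc_re, hX]
    push_cast
    rfl
  have eX2 : (tc X).im = (mid C.yl C.yh : ℝ) - 1048576 := by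
    rw [tc_im, hX]
    push_cast
    rfl
  have eY1 : (tc Y).re = (mid C.ul C.uh : ℝ) - 1048576 := by
    rw [tc_re, hY]
    push_cast
    rfl
  have eY2 : (tc Y).im = (mid C.vl C.vh : ℝ) - 1048576 := by
    rw [tc_im, hY]
    push_cast
    rfl
  rw [← eX1] at k1
  rw [← eX2] at k2
  rw [← eY1] at k3
  rw [← eY2] at k4
  have d1 : |((D : ℂ) * u - tc X).re| ≤ ((C.xh - mid C.xl C.xh : ℕ) : ℝ) := by
    rw [Complex.sub_re, Complex.re_ofReal_mul]; exact k1
  have d2 : |((D : ℂ) * u - tc X).im| ≤ ((C.yh - mid C.yl C.yh : ℕ) : ℝ) := by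
    rw [Complex.sub_im, Complex.im_ofReal_mul]; exact k2
  have d3 : |((D : ℂ) * w - tc Y).re| ≤ ((C.uh - mid C.ul C.uh : ℕ) : ℝ) := by
    rw [Complex.sub_re, Complex.re_ofReal_mul]; exact k3
  have d4 : |((D : ℂ) * w - tc Y).im| ≤ ((C.vh - mid C.vl C.vh : ℕ) : ℝ) := by
    rw [Complex.sub_im, Complex.im_ofReal_mul]; exact k4
  have ho : Off (envOf C) (D * u - tc X) (D * w - tc Y) := ⟨d1, d2, d3, d4, le_bd _ _ d1 d2, le_bd _ _ d3 d4⟩
  obtain ⟨x, hx, hH⟩ := (c.ok hg).2 (envOf C) X Y (D * u - tc X) (D * w - tc Y) u w (envOf_ok C hC) ho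
    (by ring) (by ring)
  exact fun h => absurd (hH h) (not_le.2 (tst_spec ho hx (c.ok hg).1 hf))

/-- cut point -/
def cutp (k l h : ℕ) : ℕ :=
  Nat.div (Nat.add (Nat.mul (Nat.sub (nat_lit 4) k) l) (Nat.mul k h)) (nat_lit 4)

lemma InR.cutp {k l h : ℕ} (hk : k ≤ 4) (hl : InR l) (hh : InR h) : InR (cutp k l h) := by
  unfold InR at *
  change 917504 ≤ ((4 - k) * l + k * h) / 4 ∧ ((4 - k) * l + k * h) / 4 ≤ 1179648
  interval_cases k <;> omega

def cutX (k : ℕ) (C : Cell) (f : Cell → Cell → Bool) : Bool :=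
  @Cell.rec (fun _ => Bool) (fun xl xh yl yh ul uh vl vh =>
    f ⟨xl, (cutp k xl xh), yl, yh, ul, uh, vl, vh⟩ ⟨(cutp k xl xh), xh, yl, yh, ul, uh, vl, vh⟩) C
def cutY (k : ℕ) (C : Cell) (f : Cell → Cell → Bool) : Bool :=
  @Cell.rec (fun _ => Bool) (fun xl xh yl yh ul uh vl vh =>
    f ⟨xl, xh, yl, (cutp k yl yh), ul, uh, vl, vh⟩ ⟨xl, xh, (cutp k yl yh), yh, ul, uh, vl, vh⟩) C
def cutU (k : ℕ) (C : Cell) (f : Cell → Cell → Bool) : Bool :=
  @Cell.rec (fun _ => Bool) (fun xl xh yl yh ul uh vl vh =>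
    f ⟨xl, xh, yl, yh, ul, (cutp k ul uh), vl, vh⟩ ⟨xl, xh, yl, yh, (cutp k ul uh), uh, vl, vh⟩) C
def cutV (k : ℕ) (C : Cell) (f : Cell → Cell → Bool) : Bool :=
  @Cell.rec (fun _ => Bool) (fun xl xh yl yh ul uh vl vh =>
    f ⟨xl, xh, yl, yh, ul, uh, vl, (cutp k vl vh)⟩ ⟨xl, xh, yl, yh, ul, uh, (cutp k vl vh), vh⟩) C

/-- the two parts of a cell are passed to `f` -/
def cut (t : ℕ) (C : Cell) (f : Cell → Cell → Bool) : Bool :=
  cB (Nat.ble t (nat_lit 5))
    (cB (Nat.ble t (nat_lit 2)) (cutX (Nat.succ t) C f) (cutY (Nat.sub t (nat_lit 2)) C f))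
    (cB (Nat.ble t (nat_lit 8)) (cutU (Nat.sub t (nat_lit 5)) C f) (cutV (Nat.sub t (nat_lit 8)) C f))

lemma InI.cut {l h : ℕ} {t : ℝ} (m : ℕ) (H : InI l h t) : InI l m t ∨ InI m h t := by
  rcases le_total (D * t + 1048576) m with h1 | h1
  · exact Or.inl ⟨H.1, h1⟩
  · exact Or.inr ⟨h1, H.2⟩

/-- one of two cells contains the point -/
def Cov (u w : ℂ) (A B : Cell) : Prop := A.In ∧ B.In ∧ (A.Mem u w ∨ B.Mem u w)

lemma cB_cases {c a b : Bool} (h : cB c a b = true) : (c = true ∧ a = true) ∨ (c = false ∧ b = true) := by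
  cases c
  · exact Or.inr ⟨rfl, h⟩
  · exact Or.inl ⟨rfl, h⟩

theorem cut_spec {C : Cell} {u w : ℂ} (hC : C.In) (h : C.Mem u w) {t : ℕ} (ht : t ≤ 11)
    {f : Cell → Cell → Bool} (hf : cut t C f = true) : ∃ A B, f A B = true ∧ Cov u w A B := by
  obtain ⟨xl, xh, yl, yh, ul, uh, vl, vh⟩ := C
  obtain ⟨h1, h2, h3, h4⟩ := h
  obtain ⟨g1, g2, g3, g4, g5, g6, g7, g8⟩ := hC
  dsimp only at h1 h2 h3 h4 g1 g2 g3 g4 g5 g6 g7 g8
  rcases cB_cases hf with ⟨c1, hf⟩ | ⟨c1, hf⟩
  · have c1' : t ≤ 5 := Nat.le_of_ble_eq_true c1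
    rcases cB_cases hf with ⟨c2, hf⟩ | ⟨c2, hf⟩
    · have c2' : t ≤ 2 := Nat.le_of_ble_eq_true c2
      have g := g1.cutp (k := Nat.succ t) (by omega) g2
      refine ⟨_, _, hf, ⟨g1, g, g3, g4, g5, g6, g7, g8⟩, ⟨g, g2, g3, g4, g5, g6, g7, g8⟩, ?_⟩
      rcases h1.cut (cutp (Nat.succ t) xl xh) with h | h
      · exact Or.inl ⟨h, h2, h3, h4⟩
      · exact Or.inr ⟨h, h2, h3, h4⟩
    · have g := g3.cutp (k := Nat.sub t (nat_lit 2)) (by change t - 2 ≤ 4; omega) g4
      refine ⟨_, _, hf, ⟨g1, g2, g3, g, g5, g6, g7, g8⟩, ⟨g1, g2, g, g4, g5, g6, g7, g8⟩, ?_⟩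
      rcases h2.cut (cutp (Nat.sub t (nat_lit 2)) yl yh) with h | h
      · exact Or.inl ⟨h1, h, h3, h4⟩
      · exact Or.inr ⟨h1, h, h3, h4⟩
  · rcases cB_cases hf with ⟨c2, hf⟩ | ⟨c2, hf⟩
    · have c2' : t ≤ 8 := Nat.le_of_ble_eq_true c2
      have g := g5.cutp (k := Nat.sub t (nat_lit 5)) (by change t - 5 ≤ 4; omega) g6
      refine ⟨_, _, hf, ⟨g1, g2, g3, g4, g5, g, g7, g8⟩, ⟨g1, g2, g3, g4, g, g6, g7, g8⟩, ?_⟩
      rcases h3.cut (cutp (Nat.sub t (nat_lit 5)) ul uh) with h | h
      · exact Or.inl ⟨h1, h2, h, h4⟩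
      · exact Or.inr ⟨h1, h2, h, h4⟩
    · have g := g7.cutp (k := Nat.sub t (nat_lit 8)) (by change t - 8 ≤ 4; omega) g8
      refine ⟨_, _, hf, ⟨g1, g2, g3, g4, g5, g6, g7, g⟩, ⟨g1, g2, g3, g4, g5, g6, g, g8⟩, ?_⟩
      rcases h4.cut (cutp (Nat.sub t (nat_lit 8)) vl vh) with h | h
      · exact Or.inl ⟨h1, h2, h3, h⟩
      · exact Or.inr ⟨h1, h2, h3, h⟩

/-! ### the checker -/

/-- binary trees of constraints; `n i a b`: the constraints of `b` have the numbers `≥ i` -/
inductive CT where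
  | l : Con → CT
  | n : ℕ → CT → CT → CT

/-- the test of the constraint `k` -/
def CT.get (t : CT) : ℕ → Env → Bool :=
  @CT.rec (fun _ => ℕ → Env → Bool) (fun c _ E => c.fails E)
    (fun i _ _ a b k E => cB (Nat.ble i k) (b k E) (a k E)) t

/-- all constraints are valid and hold -/
def CT.All (u w : ℂ) : CT → Prop
  | .l c => c.g = true ∧ c.Holds u w
  | .n _ a b => a.All u w ∧ b.All u w

lemma CT.get_holds {C : Cell} {u w : ℂ} (hC : C.In) (hm : C.Mem u w) : ∀ (t : CT), t.All u w → ∀ k,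
    ¬ t.get k (envOf C) = true
  | .l _, h, _ => fun hf => Con.fails_cell hC hm h.1 hf h.2
  | .n i a b, h, k => by
    intro hf
    have h1 : cB (Nat.ble i k) (b.get k (envOf C)) (a.get k (envOf C)) = true := hf
    rcases cB_cases h1 with ⟨_, h2⟩ | ⟨_, h2⟩
    · exact CT.get_holds hC hm b h.2 _ h2
    · exact CT.get_holds hC hm a h.1 _ h2

/-- all constraints of the list fail -/
def allF (gs : List Con) (E : Env) : Bool :=
  @List.rec Con (fun _ => Bool) true (fun c _ ih => cB (c.fails E) ih false) gs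

/-- all constraints of the list are valid -/
def allG (gs : List Con) : Bool :=
  @List.rec Con (fun _ => Bool) true (fun c _ ih => cB c.g ih false) gs

lemma allG_spec : ∀ {gs : List Con}, allG gs = true → ∀ g ∈ gs, g.g = true
  | [], _, _, hg => absurd hg (by simp)
  | c :: gs, hf, g, hg => by
    have h1 : cB c.g (allG gs) false = true := hf
    obtain ⟨h2, h3⟩ := cB_and h1
    rcases List.mem_cons.1 hg with rfl | h4
    · exact h2
    · exact allG_spec h3 g h4

lemma allF_spec {C : Cell} {u w : ℂ} (hC : C.In) (h : C.Mem u w) : ∀ {gs : List Con},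
    (∀ g ∈ gs, g.g = true) → allF gs (envOf C) = true → ∀ g ∈ gs, ¬ g.Holds u w
  | [], _, _, _, hg => absurd hg (by simp)
  | c :: gs, hG, hf, g, hg => by
    have h1 : cB (c.fails (envOf C)) (allF gs (envOf C)) false = true := hf
    obtain ⟨h2, h3⟩ := cB_and h1
    rcases List.mem_cons.1 hg with rfl | h4
    · exact Con.fails_cell hC h (hG _ List.mem_cons_self) h2
    · exact allF_spec hC h (fun g hg => hG g (List.mem_cons_of_mem _ hg)) h3 g h4

/-- one step: token `t`, first cell `C` -/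
def step (cs : CT) (gs : List Con) (t : ℕ) (st' : List Cell) (C : Cell) (k : List Cell → Bool) : Bool :=
  cB (Nat.ble t (nat_lit 11)) (cut t C fun A B => k (A :: B :: st'))
    (cB (cB (Nat.beq t (nat_lit 12)) (allF gs (envOf C)) (cs.get t (envOf C))) (k st') false)

/-- at most `n` steps with the digits of `code`, then `k` -/
def inner (cs : CT) (gs : List Con) (n : ℕ) : ℕ → List Cell → (List Cell → Bool) → Bool :=
  @Nat.rec (fun _ => ℕ → List Cell → (List Cell → Bool) → Bool) (fun _ st k => k st)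
    (fun _ ih code st k => @List.rec Cell (fun _ => Bool) true
      (fun C st' _ => step cs gs (Nat.mod code (nat_lit 64)) st' C
        fun s => ih (Nat.div code (nat_lit 64)) s k) st) n

/-- the checker; `64` digits at a time -/
def run (cs : CT) (gs : List Con) (n : ℕ) : ℕ → List Cell → Bool :=
  @Nat.rec (fun _ => ℕ → List Cell → Bool)
    (fun _ st => @List.rec Cell (fun _ => Bool) true (fun _ _ _ => false) st)
    (fun _ ih code st => inner cs gs (nat_lit 64) (Nat.mod code (nat_lit 39402006196394479212279040100143613805079739270465446667948293404245721771497210611414266254884915640806627990306816)) st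
      (ih (Nat.div code (nat_lit 39402006196394479212279040100143613805079739270465446667948293404245721771497210611414266254884915640806627990306816)))) n

/-- the claim for the cells of a stack -/
def StOk (gs : List Con) (u w : ℂ) (st : List Cell) : Prop :=
  ∀ C ∈ st, C.In → C.Mem u w → ∀ g ∈ gs, ¬ g.Holds u w

lemma StOk_nil (gs : List Con) (u w : ℂ) : StOk gs u w [] := fun C hC => absurd hC (by simp)

lemma step_spec {cs : CT} {gs : List Con} {u w : ℂ} (hc : cs.All u w) (hG : ∀ g ∈ gs, g.g = true)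
    {t : ℕ} {st' : List Cell} {C : Cell} {k : List Cell → Bool} (h : step cs gs t st' C k = true)
    (hk : ∀ s, k s = true → StOk gs u w s) : StOk gs u w (C :: st') := by
  intro C' hC' hI hm g hg
  rcases cB_cases h with ⟨c1, h⟩ | ⟨_, h⟩
  · have c1' : t ≤ 11 := Nat.le_of_ble_eq_true c1
    rcases List.mem_cons.1 hC' with rfl | h2
    · obtain ⟨A, B, h3, hA, hB, h4⟩ := cut_spec hI hm c1' h
      have h5 := hk _ h3
      rcases h4 with h4 | h4
      · exact h5 A (by simp) hA h4 g hg
      · exact h5 B (by simp) hB h4 g hg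
    · have hcut : ∃ A B, k (A :: B :: st') = true := by
        obtain ⟨xl, xh, yl, yh, ul, uh, vl, vh⟩ := C
        rcases cB_cases h with ⟨_, h⟩ | ⟨_, h⟩
        · rcases cB_cases h with ⟨_, h⟩ | ⟨_, h⟩
          · exact ⟨_, _, h⟩
          · exact ⟨_, _, h⟩
        · rcases cB_cases h with ⟨_, h⟩ | ⟨_, h⟩
          · exact ⟨_, _, h⟩
          · exact ⟨_, _, h⟩
      obtain ⟨A, B, h3⟩ := hcut
      exact hk _ h3 C' (by simp [h2]) hI hm g hg
  · obtain ⟨h3, h4⟩ := cB_and h
    rcases List.mem_cons.1 hC' with rfl | h2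
    · rcases cB_cases h3 with ⟨_, h5⟩ | ⟨_, h5⟩
      · exact allF_spec hI hm hG h5 g hg
      · exact absurd h5 (CT.get_holds hI hm cs hc _)
    · exact hk _ h4 C' h2 hI hm g hg

lemma inner_spec {cs : CT} {gs : List Con} {u w : ℂ} (hc : cs.All u w) (hG : ∀ g ∈ gs, g.g = true) :
    ∀ (n code : ℕ) (st : List Cell) (k : List Cell → Bool), inner cs gs n code st k = true →
    (∀ s, k s = true → StOk gs u w s) → StOk gs u w st
  | 0, _, st, _, h, hk => hk st h
  | _ + 1, _, [], _, _, _ => StOk_nil _ _ _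
  | n + 1, code, C :: st', k, h, hk => by
    have h1 : step cs gs (Nat.mod code (nat_lit 64)) st' C
        (fun s => inner cs gs n (Nat.div code (nat_lit 64)) s k) = true := h
    exact step_spec hc hG h1 fun s hs => inner_spec hc hG n _ s k hs hk

theorem run_spec {cs : CT} {gs : List Con} {u w : ℂ} (hc : cs.All u w) (hG : ∀ g ∈ gs, g.g = true) :
    ∀ (n code : ℕ) (st : List Cell), run cs gs n code st = true → StOk gs u w st
  | 0, _, [], _ => StOk_nil _ _ _
  | 0, _, _ :: _, h => by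
    have : (false : Bool) = true := h
    simp at this
  | n + 1, code, st, h => by
    have h1 : inner cs gs (nat_lit 64) (Nat.mod code (nat_lit 39402006196394479212279040100143613805079739270465446667948293404245721771497210611414266254884915640806627990306816)) st
      (run cs gs n (Nat.div code (nat_lit 39402006196394479212279040100143613805079739270465446667948293404245721771497210611414266254884915640806627990306816))) = true := h
    exact inner_spec hc hG _ _ st _ h1 fun s hs => run_spec hc hG n _ s hs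

end

end Pool.Agent.Work.MP_b30479_gtS.G2.CN

end

section

/-!
# The second checker

Certificates: chunks of 512 bits; the first 7 bits of a chunk are the number of steps, then follow the
tokens (7 bits, least significant first):

* `0..27`: cut the first cell (direction `t / 7`, position `(t % 7 + 1) / 8`);
* `28`, `j` (7 bits): the goal `j` fails, it is removed from the open goals of the cell;
* `29`, `j`, `m` (16 bits), `n` (3 bits), `n` pairs: the same with a combination;
* `30`, `n` (3 bits), `n` pairs (`k`: 7 bits, `m`: 16 bits): a combination of constraints fails;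
* `31`, `a` (7 bits): both constraints of the pair `a` become open goals, a pair is not needed any more;
* `32 + k`: the constraint `k` fails.

A factor `m` is `s 2 ^ t` with `s` (7 bits), `t` (9 bits). The open goals of a cell are the bits of a
number: bit `0`: a pair is needed; bit `j + 1`: the goal `j`; the goals `31 + 2 a`, `32 + 2 a` are the
constraints of the pair `a`. A run can be cut into parts between the chunks (`partC`, `partC_cat`).
-/

namespace Pool.Agent.Work.MP_b30479_gtS.G2.CN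

open Complex

noncomputable section

/-! ### cuts -/

/-- cut point -/
def cutq (k l h : ℕ) : ℕ :=
  Nat.div (Nat.add (Nat.mul (Nat.sub (nat_lit 8) k) l) (Nat.mul k h)) (nat_lit 8)

lemma InR.cutq {k l h : ℕ} (hk : k ≤ 8) (hl : InR l) (hh : InR h) : InR (cutq k l h) := by
  unfold InR at *
  change 917504 ≤ ((8 - k) * l + k * h) / 8 ∧ ((8 - k) * l + k * h) / 8 ≤ 1179648
  interval_cases k <;> omega

def cqX (k : ℕ) (C : Cell) (f : Cell → Cell → Bool) : Bool :=
  @Cell.rec (fun _ => Bool) (fun xl xh yl yh ul uh vl vh =>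
    f ⟨xl, (cutq k xl xh), yl, yh, ul, uh, vl, vh⟩ ⟨(cutq k xl xh), xh, yl, yh, ul, uh, vl, vh⟩) C
def cqY (k : ℕ) (C : Cell) (f : Cell → Cell → Bool) : Bool :=
  @Cell.rec (fun _ => Bool) (fun xl xh yl yh ul uh vl vh =>
    f ⟨xl, xh, yl, (cutq k yl yh), ul, uh, vl, vh⟩ ⟨xl, xh, (cutq k yl yh), yh, ul, uh, vl, vh⟩) C
def cqU (k : ℕ) (C : Cell) (f : Cell → Cell → Bool) : Bool :=
  @Cell.rec (fun _ => Bool) (fun xl xh yl yh ul uh vl vh =>
    f ⟨xl, xh, yl, yh, ul, (cutq k ul uh), vl, vh⟩ ⟨xl, xh, yl, yh, (cutq k ul uh), uh, vl, vh⟩) C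
def cqV (k : ℕ) (C : Cell) (f : Cell → Cell → Bool) : Bool :=
  @Cell.rec (fun _ => Bool) (fun xl xh yl yh ul uh vl vh =>
    f ⟨xl, xh, yl, yh, ul, uh, vl, (cutq k vl vh)⟩ ⟨xl, xh, yl, yh, ul, uh, (cutq k vl vh), vh⟩) C

/-- the two parts of a cell are passed to `f` -/
def cutc (t : ℕ) (C : Cell) (f : Cell → Cell → Bool) : Bool :=
  cB (Nat.ble t (nat_lit 13))
    (cB (Nat.ble t (nat_lit 6)) (cqX (Nat.succ t) C f) (cqY (Nat.sub t (nat_lit 6)) C f))
    (cB (Nat.ble t (nat_lit 20)) (cqU (Nat.sub t (nat_lit 13)) C f) (cqV (Nat.sub t (nat_lit 20)) C f))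

theorem cutc_spec {C : Cell} {t : ℕ} (ht : t ≤ 27) {f : Cell → Cell → Bool} (hf : cutc t C f = true) :
    ∃ A B, f A B = true ∧ (C.In → ∀ {u w : ℂ}, C.Mem u w → Cov u w A B) := by
  obtain ⟨xl, xh, yl, yh, ul, uh, vl, vh⟩ := C
  rcases cB_cases hf with ⟨c1, hf⟩ | ⟨c1, hf⟩
  · have c1' : t ≤ 13 := Nat.le_of_ble_eq_true c1
    rcases cB_cases hf with ⟨c2, hf⟩ | ⟨c2, hf⟩
    · have c2' : t ≤ 6 := Nat.le_of_ble_eq_true c2
      refine ⟨_, _, hf, fun ⟨g1, g2, g3, g4, g5, g6, g7, g8⟩ {u w} ⟨h1, h2, h3, h4⟩ => ?_⟩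
      dsimp only at h1 h2 h3 h4 g1 g2 g3 g4 g5 g6 g7 g8
      have g := g1.cutq (k := Nat.succ t) (by omega) g2
      refine ⟨⟨g1, g, g3, g4, g5, g6, g7, g8⟩, ⟨g, g2, g3, g4, g5, g6, g7, g8⟩, ?_⟩
      rcases h1.cut (CN.cutq (Nat.succ t) xl xh) with h | h
      · exact Or.inl ⟨h, h2, h3, h4⟩
      · exact Or.inr ⟨h, h2, h3, h4⟩
    · refine ⟨_, _, hf, fun ⟨g1, g2, g3, g4, g5, g6, g7, g8⟩ {u w} ⟨h1, h2, h3, h4⟩ => ?_⟩
      dsimp only at h1 h2 h3 h4 g1 g2 g3 g4 g5 g6 g7 g8
      have g := g3.cutq (k := Nat.sub t (nat_lit 6)) (by change t - 6 ≤ 8; omega) g4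
      refine ⟨⟨g1, g2, g3, g, g5, g6, g7, g8⟩, ⟨g1, g2, g, g4, g5, g6, g7, g8⟩, ?_⟩
      rcases h2.cut (CN.cutq (Nat.sub t (nat_lit 6)) yl yh) with h | h
      · exact Or.inl ⟨h1, h, h3, h4⟩
      · exact Or.inr ⟨h1, h, h3, h4⟩
  · rcases cB_cases hf with ⟨c2, hf⟩ | ⟨c2, hf⟩
    · have c2' : t ≤ 20 := Nat.le_of_ble_eq_true c2
      refine ⟨_, _, hf, fun ⟨g1, g2, g3, g4, g5, g6, g7, g8⟩ {u w} ⟨h1, h2, h3, h4⟩ => ?_⟩
      dsimp only at h1 h2 h3 h4 g1 g2 g3 g4 g5 g6 g7 g8
      have g := g5.cutq (k := Nat.sub t (nat_lit 13)) (by change t - 13 ≤ 8; omega) g6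
      refine ⟨⟨g1, g2, g3, g4, g5, g, g7, g8⟩, ⟨g1, g2, g3, g4, g, g6, g7, g8⟩, ?_⟩
      rcases h3.cut (CN.cutq (Nat.sub t (nat_lit 13)) ul uh) with h | h
      · exact Or.inl ⟨h1, h2, h, h4⟩
      · exact Or.inr ⟨h1, h2, h, h4⟩
    · refine ⟨_, _, hf, fun ⟨g1, g2, g3, g4, g5, g6, g7, g8⟩ {u w} ⟨h1, h2, h3, h4⟩ => ?_⟩
      dsimp only at h1 h2 h3 h4 g1 g2 g3 g4 g5 g6 g7 g8
      have g := g7.cutq (k := Nat.sub t (nat_lit 20)) (by change t - 20 ≤ 8; omega) g8
      refine ⟨⟨g1, g2, g3, g4, g5, g6, g7, g⟩, ⟨g1, g2, g3, g4, g5, g6, g, g8⟩, ?_⟩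
      rcases h4.cut (CN.cutq (Nat.sub t (nat_lit 20)) vl vh) with h | h
      · exact Or.inl ⟨h1, h2, h3, h⟩
      · exact Or.inr ⟨h1, h2, h3, h⟩

/-! ### combinations -/

/-- the constraint `k` -/
def CT.getC (t : CT) : ℕ → Con :=
  @CT.rec (fun _ => ℕ → Con) (fun c _ => c)
    (fun i _ _ a b k => @Bool.rec (fun _ => Con) (a k) (b k) (Nat.ble i k)) t

lemma CT.getC_all {u w : ℂ} : ∀ (t : CT), t.All u w → ∀ k, (t.getC k).g = true ∧ (t.getC k).Holds u w
  | .l _, h, _ => h
  | .n i a b, h, k => by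
    change (@Bool.rec (fun _ => Con) (a.getC k) (b.getC k) (Nat.ble i k)).g = true ∧
      (@Bool.rec (fun _ => Con) (a.getC k) (b.getC k) (Nat.ble i k)).Holds u w
    cases Nat.ble i k
    · exact CT.getC_all a h.1 k
    · exact CT.getC_all b h.2 k

/-- `f` at the value of `e` -/
def stc (e : ℕ) (f : ℕ → Bool) : Bool := @Nat.rec (fun _ => Bool) (f (nat_lit 0)) (fun n _ => f (Nat.succ n)) e

lemma stc_eq (e : ℕ) (f : ℕ → Bool) : stc e f = f e := by
  cases e <;> rfl

/-- the factor -/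
def fac (c : ℕ) : ℕ := Nat.shiftLeft (Nat.mod c (nat_lit 128)) (Nat.mod (Nat.div c (nat_lit 128)) (nat_lit 512))

/-- add `m` times the form of a constraint -/
def addC (c : Con) (E : Env) (m F V W e b : ℕ) (k : ℕ → ℕ → ℕ → ℕ → ℕ → Bool) : Bool :=
  @LF.rec (fun _ => Bool) (fun F' V' W' e' => k (Nat.add F (Nat.mul m F')) (Nat.add V (Nat.mul m V'))
    (Nat.add W (Nat.mul m W')) (Nat.add e (Nat.mul m e')) (Nat.add b (Nat.mul m c.b))) (c.lf E)

/-- the final test -/
def tstb (E : Env) (F V W e b : ℕ) : Bool := cB (Ev.rgB b) (tst4 E.a E.b E.c E.d F V W e) false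

/-- combination of `n` constraints -/
def comb (cs : CT) (E : Env) (n : ℕ) : ℕ → ℕ → ℕ → ℕ → ℕ → ℕ → (ℕ → Bool) → Bool :=
  @Nat.rec (fun _ => ℕ → ℕ → ℕ → ℕ → ℕ → ℕ → (ℕ → Bool) → Bool)
    (fun code F V W e b k => cB (tstb E F V W e b) (k code) false)
    (fun _ ih code F V W e b k => stc (Nat.mod code (nat_lit 128)) fun i =>
      addC (cs.getC i) E (fac (Nat.div code (nat_lit 128))) F V W e b
        (fun F' V' W' e' b' => ih (Nat.div code (nat_lit 8388608)) F' V' W' e' b' k)) n

/-- the claim for a form -/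
def Acc (δ ε : ℂ) (F V W e b : ℕ) (P : Prop) : Prop := ∃ x : ℝ, LOk δ ε b ⟨F, V, W, e⟩ x ∧ (P → 0 ≤ x)

section
variable {C : Cell} {u w : ℂ} (hC : C.In) (hm : C.Mem u w)
include hC hm

lemma cell_pt : ∃ (X Y : GaussianInt) (δ ε : ℂ), (envOf C).Ok X Y ∧ Off (envOf C) δ ε ∧
    D * u = tc X + δ ∧ D * w = tc Y + ε := by
  obtain ⟨h1, h2, h3, h4⟩ := hm
  have k1 := h1.mid
  have k2 := h2.mid
  have k3 := h3.mid
  have k4 := h4.mid
  set X : GaussianInt := ⟨((mid C.xl C.xh : ℕ) : ℤ) - 1048576, ((mid C.yl C.yh : ℕ) : ℤ) - 1048576⟩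
    with hX
  set Y : GaussianInt := ⟨((mid C.ul C.uh : ℕ) : ℤ) - 1048576, ((mid C.vl C.vh : ℕ) : ℤ) - 1048576⟩
    with hY
  have eX1 : (tc X).re = (mid C.xl C.xh : ℝ) - 1048576 := by
    rw [tc_re, hX]
    push_cast
    rfl
  have eX2 : (tc X).im = (mid C.yl C.yh : ℝ) - 1048576 := by
    rw [tc_im, hX]
    push_cast
    rfl
  have eY1 : (tc Y).re = (mid C.ul C.uh : ℝ) - 1048576 := by
    rw [tc_re, hY]
    push_cast
    rfl
  have eY2 : (tc Y).im = (mid C.vl C.vh : ℝ) - 1048576 := by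
    rw [tc_im, hY]
    push_cast
    rfl
  rw [← eX1] at k1
  rw [← eX2] at k2
  rw [← eY1] at k3
  rw [← eY2] at k4
  have d1 : |((D : ℂ) * u - tc X).re| ≤ ((C.xh - mid C.xl C.xh : ℕ) : ℝ) := by
    rw [Complex.sub_re, Complex.re_ofReal_mul]; exact k1
  have d2 : |((D : ℂ) * u - tc X).im| ≤ ((C.yh - mid C.yl C.yh : ℕ) : ℝ) := by
    rw [Complex.sub_im, Complex.im_ofReal_mul]; exact k2
  have d3 : |((D : ℂ) * w - tc Y).re| ≤ ((C.uh - mid C.ul C.uh : ℕ) : ℝ) := by
    rw [Complex.sub_re, Complex.re_ofReal_mul]; exact k3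
  have d4 : |((D : ℂ) * w - tc Y).im| ≤ ((C.vh - mid C.vl C.vh : ℕ) : ℝ) := by
    rw [Complex.sub_im, Complex.im_ofReal_mul]; exact k4
  exact ⟨X, Y, D * u - tc X, D * w - tc Y, envOf_ok C hC,
    ⟨d1, d2, d3, d4, le_bd _ _ d1 d2, le_bd _ _ d3 d4⟩, by ring, by ring⟩

end

lemma comb_succ {cs : CT} {E : Env} (n code F V W e b : ℕ) (k : ℕ → Bool) :
    comb cs E (n + 1) code F V W e b k = addC (cs.getC (Nat.mod code (nat_lit 128))) E
      (fac (Nat.div code (nat_lit 128))) F V W e b
      (fun F' V' W' e' b' => comb cs E n (Nat.div code (nat_lit 8388608)) F' V' W' e' b' k) := by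
  have h := stc_eq (Nat.mod code (nat_lit 128)) (fun i => addC (cs.getC i) E
      (fac (Nat.div code (nat_lit 128))) F V W e b
      (fun F' V' W' e' b' => comb cs E n (Nat.div code (nat_lit 8388608)) F' V' W' e' b' k))
  exact h

lemma addC_spec {c : Con} (hg : c.g = true) {E : Env} {X Y : GaussianInt} {δ ε u w : ℂ} (hE : E.Ok X Y)
    (ho : Off E δ ε) (hu : D * u = tc X + δ) (hw : D * w = tc Y + ε) {m F V W e b : ℕ} {P : Prop}
    (h : Acc δ ε F V W e b P) {k : ℕ → ℕ → ℕ → ℕ → ℕ → Bool} (hf : addC c E m F V W e b k = true) :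
    ∃ F' V' W' e' b', k F' V' W' e' b' = true ∧ Acc δ ε F' V' W' e' b' (P ∧ c.Holds u w) := by
  obtain ⟨x, hx, hp⟩ := h
  obtain ⟨y, hy, hq⟩ := (c.ok hg).2 E X Y δ ε u w hE ho hu hw
  unfold addC at hf
  generalize c.lf E = L at hy hf
  obtain ⟨F', V', W', e'⟩ := L
  exact ⟨_, _, _, _, _, hf, _, hx.add (m := m) hy, fun hh =>
    add_nonneg (hp hh.1) (mul_nonneg (Nat.cast_nonneg _) (hq hh.2))⟩

lemma comb_spec {cs : CT} {u w : ℂ} (hcs : cs.All u w) {E : Env} {X Y : GaussianInt} {δ ε : ℂ}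
    (hE : E.Ok X Y) (ho : Off E δ ε) (hu : D * u = tc X + δ) (hw : D * w = tc Y + ε) :
    ∀ (n code F V W e b : ℕ) (k : ℕ → Bool) (P : Prop), Acc δ ε F V W e b P →
      comb cs E n code F V W e b k = true → ¬ P ∧ ∃ c, k c = true
  | 0, code, F, V, W, e, b, k, P, h, hf => by
    have h1 : cB (tstb E F V W e b) (k code) false = true := hf
    obtain ⟨h2, h3⟩ := cB_and h1
    obtain ⟨h4, h5⟩ := cB_and h2
    obtain ⟨x, hx, hp⟩ := h
    exact ⟨fun hP => absurd (hp hP) (not_le.2 (tst4_spec ho hx (Ev.rgB_lt h4) h5)), code, h3⟩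
  | n + 1, code, F, V, W, e, b, k, P, h, hf => by
    have h1 : addC (cs.getC (Nat.mod code (nat_lit 128))) E (fac (Nat.div code (nat_lit 128)))
      F V W e b (fun F' V' W' e' b' => comb cs E n (Nat.div code (nat_lit 8388608)) F' V' W' e' b' k) = true :=
      (comb_succ _ _ _ _ _ _ _ _).symm.trans hf
    have hc := CT.getC_all cs hcs (Nat.mod code (nat_lit 128))
    obtain ⟨F', V', W', e', b', h2, h3⟩ := addC_spec hc.1 hE ho hu hw h h1
    obtain ⟨h4, h5⟩ := comb_spec hcs hE ho hu hw n _ _ _ _ _ _ _ _ h3 h2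
    exact ⟨fun hP => h4 ⟨hP, hc.2⟩, h5⟩

lemma Acc.zero {δ ε : ℂ} : Acc δ ε (nat_lit 0) (nat_lit 0) (nat_lit 0) (nat_lit 0) (nat_lit 0) True :=
  ⟨0, LOk.zero, fun _ => le_rfl⟩

lemma addC_det (c : Con) (E : Env) (m F V W e b : ℕ) :
    ∃ F' V' W' e' b', ∀ K, addC c E m F V W e b K = K F' V' W' e' b' := by
  unfold addC
  generalize c.lf E = L
  obtain ⟨F', V', W', e'⟩ := L
  exact ⟨_, _, _, _, _, fun _ => rfl⟩

/-- a combination passes to the next step -/
lemma comb_det {cs : CT} {E : Env} : ∀ (n code F V W e b : ℕ) (k : ℕ → Bool),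
    comb cs E n code F V W e b k = true → ∃ c, k c = true ∧ ∀ K, comb cs E n code F V W e b K = K c
  | 0, code, F, V, W, e, b, k, hf => by
    have h1 : cB (tstb E F V W e b) (k code) false = true := hf
    obtain ⟨h2, h3⟩ := cB_and h1
    refine ⟨code, h3, fun K => ?_⟩
    change cB (tstb E F V W e b) (K code) false = K code
    rw [h2]
    rfl
  | n + 1, code, F, V, W, e, b, k, hf => by
    obtain ⟨F', V', W', e', b', h⟩ := addC_det (cs.getC (Nat.mod code (nat_lit 128))) E
      (fac (Nat.div code (nat_lit 128))) F V W e b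
    have key : ∀ K, comb cs E (n + 1) code F V W e b K =
        comb cs E n (Nat.div code (nat_lit 8388608)) F' V' W' e' b' K := fun K =>
      (comb_succ _ _ _ _ _ _ _ _).trans (h _)
    rw [key] at hf
    obtain ⟨c, h1, h2⟩ := comb_det n _ _ _ _ _ _ _ hf
    exact ⟨c, h1, fun K => (key K).trans (h2 K)⟩

/-! ### the stack -/

/-- a stack of cells with the numbers of the open goals -/
inductive Stk where
  | nil : Stk
  | cons : Cell → ℕ → Stk → Stk

/-- no condition -/
def Con.tv : Con where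
  g := true
  b := nat_lit 0
  lf := fun _ => ⟨nat_lit 0, nat_lit 0, nat_lit 0, nat_lit 0⟩
  Holds := fun _ _ => True
  ok := fun _ => ⟨HH_pos, fun _ _ _ _ _ _ _ _ _ _ _ => ⟨0, LOk.zero, fun _ => le_rfl⟩⟩

/-- the constraint `j` of a list -/
def getL (gs : List Con) : ℕ → Con :=
  @List.rec Con (fun _ => ℕ → Con) (fun _ => Con.tv)
    (fun g _ ih j => @Nat.rec (fun _ => Con) g (fun i _ => ih i) j) gs

lemma getL_g : ∀ {gs : List Con} (_ : ∀ g ∈ gs, g.g = true) (j : ℕ), (getL gs j).g = true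
  | [], _, _ => rfl
  | _ :: _, h, 0 => h _ List.mem_cons_self
  | _ :: gs, h, j + 1 => getL_g (gs := gs) (fun g hg => h g (List.mem_cons_of_mem _ hg)) j

lemma getL_mem : ∀ {gs : List Con} {g : Con}, g ∈ gs → ∃ j, j < gs.length ∧ getL gs j = g
  | [], _, h => absurd h (by simp)
  | g' :: gs, g, h => by
    rcases List.mem_cons.1 h with rfl | h
    · exact ⟨0, by simp, rfl⟩
    · obtain ⟨j, h1, h2⟩ := getL_mem h
      exact ⟨j + 1, by simpa using h1, h2⟩

/-- the constraint `j` of a list of pairs -/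
def getP (al : List (Con × Con)) : ℕ → Con :=
  @List.rec (Con × Con) (fun _ => ℕ → Con) (fun _ => Con.tv)
    (fun p _ ih j => @Nat.rec (fun _ => Con) p.1 (fun i _ => @Nat.rec (fun _ => Con) p.2 (fun i' _ => ih i') i) j) al

lemma getP_g : ∀ {al : List (Con × Con)} (_ : ∀ p ∈ al, p.1.g = true ∧ p.2.g = true) (j : ℕ),
    (getP al j).g = true
  | [], _, _ => rfl
  | _ :: _, h, 0 => (h _ List.mem_cons_self).1
  | _ :: _, h, 1 => (h _ List.mem_cons_self).2
  | _ :: al, h, j + 2 => getP_g (al := al) (fun g hg => h g (List.mem_cons_of_mem _ hg)) j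

lemma getP_mem {u w : ℂ} : ∀ {al : List (Con × Con)} {a : ℕ}, ¬ (getP al (2 * a)).Holds u w →
    ∃ p ∈ al, getP al (2 * a) = p.1 ∧ getP al (2 * a + 1) = p.2
  | [], _, h => absurd trivial h
  | p :: _, 0, _ => ⟨p, List.mem_cons_self, rfl, rfl⟩
  | p :: al, a + 1, h => by
    obtain ⟨p', h1, h2, h3⟩ := getP_mem (al := al) (a := a) h
    exact ⟨p', List.mem_cons_of_mem _ h1, h2, h3⟩

/-- the goal `j` -/
def getG (gs : List Con) (al : List (Con × Con)) (j : ℕ) : Con :=
  @Bool.rec (fun _ => Con) (getL gs j) (getP al (Nat.sub j (nat_lit 31))) (Nat.ble (nat_lit 31) j)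

lemma getG_g {gs : List Con} {al : List (Con × Con)} (h1 : ∀ g ∈ gs, g.g = true)
    (h2 : ∀ p ∈ al, p.1.g = true ∧ p.2.g = true) (j : ℕ) : (getG gs al j).g = true := by
  unfold getG
  cases Nat.ble (nat_lit 31) j
  · exact getL_g h1 _
  · exact getP_g h2 _

/-- the open goals at the start -/
def mk0 (gs : List Con) : ℕ :=
  @List.rec Con (fun _ => ℕ) (nat_lit 0) (fun _ _ ih => Nat.add (Nat.mul (nat_lit 2) ih) (nat_lit 2)) gs

lemma mk0_even : ∀ gs : List Con, mk0 gs % 2 = 0
  | [] => rfl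
  | _ :: gs => by
    change (2 * mk0 gs + 2) % 2 = 0
    omega

lemma mk0_bit : ∀ (gs : List Con) (j : ℕ), j < gs.length → (mk0 gs).testBit (j + 1) = true
  | [], _, h => absurd h (by simp)
  | g :: gs, 0, _ => by
    have h := mk0_even gs
    change (2 * mk0 gs + 2).testBit 1 = true
    rw [Nat.testBit_succ, Nat.testBit_zero]
    have : (2 * mk0 gs + 2) / 2 = mk0 gs + 1 := by omega
    rw [this]
    simp
    omega
  | g :: gs, j + 1, h => by
    have h1 := mk0_bit gs j (by simpa using h)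
    have h2 := mk0_even gs
    change (2 * mk0 gs + 2).testBit (j + 1 + 1) = true
    rw [Nat.testBit_succ] at h1 ⊢
    rw [Nat.testBit_succ]
    have e : (2 * mk0 gs + 2) / 2 / 2 = mk0 gs / 2 := by omega
    rw [e]
    exact h1

lemma getG_pair (gs : List Con) (al : List (Con × Con)) (i : ℕ) : getG gs al (31 + i) = getP al i := by
  have h : Nat.ble (nat_lit 31) (31 + i) = true := Nat.ble_eq_true_of_le (Nat.le_add_right 31 i)
  unfold getG
  rw [h]
  change getP al (31 + i - 31) = getP al i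
  rw [Nat.add_sub_cancel_left]

lemma getG_goal {gs : List Con} (al : List (Con × Con)) {g : Con} (hg : g ∈ gs)
    (hm : Nat.ble (mk0 gs) (nat_lit 4294967295) = true) :
    ∃ j, (mk0 gs).testBit (j + 1) = true ∧ getG gs al j = g := by
  obtain ⟨j, h1, h2⟩ := getL_mem hg
  have h3 := mk0_bit gs j h1
  have h4 := Nat.ge_two_pow_of_testBit h3
  have h5 : mk0 gs ≤ 4294967295 := Nat.le_of_ble_eq_true hm
  have h6 : j < 31 := by
    by_contra hj
    have : 2 ^ 32 ≤ 2 ^ (j + 1) := Nat.pow_le_pow_right (by norm_num) (by omega)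
    have h7 : (2 : ℕ) ^ 32 = 4294967296 := by norm_num
    omega
  have h8 : Nat.ble (nat_lit 31) j = false := by
    rcases h : Nat.ble (nat_lit 31) j with _ | _
    · rfl
    · have : 31 ≤ j := Nat.le_of_ble_eq_true h
      omega
  refine ⟨j, h3, ?_⟩
  unfold getG
  rw [h8]
  exact h2

/-! ### steps -/

/-- the open goals are now `m`; `st'`: the other cells -/
def doneM (code : ℕ) (C : Cell) (m : ℕ) (st' : Stk) (k : ℕ → Stk → Bool) : Bool :=
  @Nat.rec (fun _ => Bool) (k code st') (fun m' _ => k code (.cons C (Nat.succ m') st')) m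

/-- the tokens `28` to `31` -/
def stepB (cs : CT) (gs : List Con) (al : List (Con × Con)) (t code : ℕ) (st' : Stk) (C : Cell) (m : ℕ)
    (k : ℕ → Stk → Bool) : Bool :=
  cB (Nat.beq t (nat_lit 30))
    (comb cs (envOf C) (Nat.mod code (nat_lit 8)) (Nat.div code (nat_lit 8))
      (nat_lit 0) (nat_lit 0) (nat_lit 0) (nat_lit 0) (nat_lit 0) fun c => k c st')
    (stc (Nat.mod code (nat_lit 128)) fun j =>
      cB (Nat.beq t (nat_lit 28))
        (cB ((getG gs al j).fails (envOf C)) (doneM (Nat.div code (nat_lit 128)) C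
          (Nat.xor m (Nat.shiftLeft (nat_lit 2) j)) st' k) false)
        (cB (Nat.beq t (nat_lit 29))
          (addC (getG gs al j) (envOf C) (fac (Nat.div code (nat_lit 128))) (nat_lit 0) (nat_lit 0) (nat_lit 0)
            (nat_lit 0) (nat_lit 0) fun F V W e b =>
            comb cs (envOf C) (Nat.mod (Nat.div code (nat_lit 8388608)) (nat_lit 8))
              (Nat.div code (nat_lit 67108864)) F V W e b fun c =>
              doneM c C (Nat.xor m (Nat.shiftLeft (nat_lit 2) j)) st' k)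
          (k (Nat.div code (nat_lit 128)) (.cons C (Nat.lor (Nat.xor m (nat_lit 1))
            (Nat.shiftLeft (nat_lit 12884901888) (Nat.mul (nat_lit 2) j))) st'))))

/-- one step -/
def stepC (cs : CT) (gs : List Con) (al : List (Con × Con)) (t code : ℕ) (st' : Stk) (C : Cell) (m : ℕ)
    (k : ℕ → Stk → Bool) : Bool :=
  cB (Nat.ble t (nat_lit 27)) (cutc t C fun A B => k code (.cons A m (.cons B m st')))
    (cB (Nat.ble (nat_lit 32) t) (cB ((cs.getC (Nat.sub t (nat_lit 32))).fails (envOf C)) (k code st') false)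
      (stepB cs gs al t code st' C m k))

/-- at most `n` steps, then `k` -/
def innerC (cs : CT) (gs : List Con) (al : List (Con × Con)) (n : ℕ) : ℕ → Stk → (Stk → Bool) → Bool :=
  @Nat.rec (fun _ => ℕ → Stk → (Stk → Bool) → Bool) (fun _ st k => k st)
    (fun _ ih code st k => @Stk.rec (fun _ => Bool) (k .nil)
      (fun C m st' _ => stc (Nat.mod code (nat_lit 128)) fun t =>
        stepC cs gs al t (Nat.div code (nat_lit 128)) st' C m fun c s => ih c s k) st) n

/-- equality of cells -/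
def eqC (A B : Cell) : Bool :=
  cB (Nat.beq A.xl B.xl) (cB (Nat.beq A.xh B.xh) (cB (Nat.beq A.yl B.yl) (cB (Nat.beq A.yh B.yh)
    (cB (Nat.beq A.ul B.ul) (cB (Nat.beq A.uh B.uh) (cB (Nat.beq A.vl B.vl) (Nat.beq A.vh B.vh)
      false) false) false) false) false) false) false

lemma eqC_eq {A B : Cell} (h : eqC A B = true) : A = B := by
  have h1 := cB_and h
  have h2 := cB_and h1.2
  have h3 := cB_and h2.2
  have h4 := cB_and h3.2
  have h5 := cB_and h4.2
  have h6 := cB_and h5.2
  have h7 := cB_and h6.2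
  obtain ⟨a1, a2, a3, a4, a5, a6, a7, a8⟩ := A
  obtain ⟨b1, b2, b3, b4, b5, b6, b7, b8⟩ := B
  have e1 : a1 = b1 := Nat.eq_of_beq_eq_true h1.1
  have e2 : a2 = b2 := Nat.eq_of_beq_eq_true h2.1
  have e3 : a3 = b3 := Nat.eq_of_beq_eq_true h3.1
  have e4 : a4 = b4 := Nat.eq_of_beq_eq_true h4.1
  have e5 : a5 = b5 := Nat.eq_of_beq_eq_true h5.1
  have e6 : a6 = b6 := Nat.eq_of_beq_eq_true h6.1
  have e7 : a7 = b7 := Nat.eq_of_beq_eq_true h7.1
  have e8 : a8 = b8 := Nat.eq_of_beq_eq_true h7.2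
  rw [e1, e2, e3, e4, e5, e6, e7, e8]

/-- equality of stacks -/
def eqS : Stk → Stk → Bool :=
  fun s => @Stk.rec (fun _ => Stk → Bool) (fun s' => @Stk.rec (fun _ => Bool) true (fun _ _ _ _ => false) s')
    (fun C m _ ih s' => @Stk.rec (fun _ => Bool) false
      (fun C' m' s'' _ => cB (eqC C C') (cB (Nat.beq m m') (ih s'') false) false) s') s

lemma eqS_eq : ∀ {s s' : Stk}, eqS s s' = true → s = s'
  | .nil, .nil, _ => rfl
  | .nil, .cons _ _ _, h => by
    have : (false : Bool) = true := h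
    simp at this
  | .cons _ _ _, .nil, h => by
    have : (false : Bool) = true := h
    simp at this
  | .cons C m s, .cons C' m' s', h => by
    have h1 : cB (eqC C C') (cB (Nat.beq m m') (eqS s s') false) false = true := h
    obtain ⟨h2, h3⟩ := cB_and h1
    obtain ⟨h4, h5⟩ := cB_and h3
    rw [eqC_eq h2, Nat.eq_of_beq_eq_true h4, eqS_eq h5]

/-- `n` chunks of `code` lead from the stack `st` to the stack `st'` -/
def partC (cs : CT) (gs : List Con) (al : List (Con × Con)) (n : ℕ) : ℕ → Stk → Stk → Bool :=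
  @Nat.rec (fun _ => ℕ → Stk → Stk → Bool)
    (fun code st st' => cB (Nat.beq code (nat_lit 0)) (eqS st st') false)
    (fun _ ih code st st' => innerC cs gs al (Nat.mod code (nat_lit 128))
      (Nat.div (Nat.mod code (nat_lit 13407807929942597099574024998205846127479365820592393377723561443721764030073546976801874298166903427690031858186486050853753882811946569946433649006084096)) (nat_lit 128)) st
      (fun s => ih (Nat.div code (nat_lit 13407807929942597099574024998205846127479365820592393377723561443721764030073546976801874298166903427690031858186486050853753882811946569946433649006084096)) s st')) n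

/-! ### soundness -/

/-- the claim for a cell with the open goals `m` -/
def CellOk (gs : List Con) (al : List (Con × Con)) (u w : ℂ) (C : Cell) (m : ℕ) : Prop :=
  C.In → C.Mem u w → (∀ j, m.testBit (j + 1) = true → ¬ (getG gs al j).Holds u w) ∧
    (m.testBit 0 = true → ∃ p ∈ al, ¬ p.1.Holds u w ∧ ¬ p.2.Holds u w)

/-- the claim for a stack -/
def SOk (gs : List Con) (al : List (Con × Con)) (u w : ℂ) : Stk → Prop
  | .nil => True
  | .cons C m st => CellOk gs al u w C m ∧ SOk gs al u w st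

section
variable {cs : CT} {gs : List Con} {al : List (Con × Con)}

lemma doneM_det (code : ℕ) (C : Cell) (m : ℕ) (st' : Stk) : ∃ s, ∀ K : ℕ → Stk → Bool,
    doneM code C m st' K = K code s := by
  cases m with
  | zero => exact ⟨_, fun _ => rfl⟩
  | succ m => exact ⟨_, fun _ => rfl⟩

lemma cutc_det (t : ℕ) (C : Cell) : ∃ A B, ∀ K, cutc t C K = K A B := by
  obtain ⟨xl, xh, yl, yh, ul, uh, vl, vh⟩ := C
  unfold cutc
  cases Nat.ble t (nat_lit 13)
  · cases Nat.ble t (nat_lit 20)
    · exact ⟨_, _, fun _ => rfl⟩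
    · exact ⟨_, _, fun _ => rfl⟩
  · cases Nat.ble t (nat_lit 6)
    · exact ⟨_, _, fun _ => rfl⟩
    · exact ⟨_, _, fun _ => rfl⟩

lemma cB_t (a b : Bool) : cB true a b = a := rfl
lemma cB_f (a b : Bool) : cB false a b = b := rfl

section
variable (t code : ℕ) (st' : Stk) (C : Cell) (m : ℕ) (K : ℕ → Stk → Bool)

lemma stepB_30 (e1 : Nat.beq t (nat_lit 30) = true) : stepB cs gs al t code st' C m K =
    comb cs (envOf C) (Nat.mod code (nat_lit 8)) (Nat.div code (nat_lit 8))
      (nat_lit 0) (nat_lit 0) (nat_lit 0) (nat_lit 0) (nat_lit 0) fun c => K c st' := by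
  unfold stepB
  rw [e1]
  exact cB_t _ _

lemma stepB_28 (e1 : Nat.beq t (nat_lit 30) = false) (e2 : Nat.beq t (nat_lit 28) = true) :
    stepB cs gs al t code st' C m K =
    cB ((getG gs al (Nat.mod code (nat_lit 128))).fails (envOf C)) (doneM (Nat.div code (nat_lit 128)) C
          (Nat.xor m (Nat.shiftLeft (nat_lit 2) (Nat.mod code (nat_lit 128)))) st' K) false := by
  unfold stepB
  rw [stc_eq, e1, e2]
  exact (cB_f _ _).trans (cB_t _ _)

lemma stepB_29 (e1 : Nat.beq t (nat_lit 30) = false) (e2 : Nat.beq t (nat_lit 28) = false)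
    (e3 : Nat.beq t (nat_lit 29) = true) :
    stepB cs gs al t code st' C m K =
    (addC (getG gs al (Nat.mod code (nat_lit 128))) (envOf C) (fac (Nat.div code (nat_lit 128)))
      (nat_lit 0) (nat_lit 0) (nat_lit 0) (nat_lit 0) (nat_lit 0) fun F V W e b =>
            comb cs (envOf C) (Nat.mod (Nat.div code (nat_lit 8388608)) (nat_lit 8))
              (Nat.div code (nat_lit 67108864)) F V W e b fun c =>
              doneM c C (Nat.xor m (Nat.shiftLeft (nat_lit 2) (Nat.mod code (nat_lit 128)))) st' K) := by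
  unfold stepB
  rw [stc_eq, e1, e2, e3]
  exact (cB_f _ _).trans ((cB_f _ _).trans (cB_t _ _))

lemma stepB_31 (e1 : Nat.beq t (nat_lit 30) = false) (e2 : Nat.beq t (nat_lit 28) = false)
    (e3 : Nat.beq t (nat_lit 29) = false) :
    stepB cs gs al t code st' C m K =
    K (Nat.div code (nat_lit 128)) (.cons C (Nat.lor (Nat.xor m (nat_lit 1))
      (Nat.shiftLeft (nat_lit 12884901888) (Nat.mul (nat_lit 2) (Nat.mod code (nat_lit 128))))) st') := by
  unfold stepB
  rw [stc_eq, e1, e2, e3]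
  exact (cB_f _ _).trans ((cB_f _ _).trans (cB_f _ _))

end

lemma stepB_det {t code : ℕ} {st' : Stk} {C : Cell} {m : ℕ} {k : ℕ → Stk → Bool}
    (h : stepB cs gs al t code st' C m k = true) :
    ∃ c s, k c s = true ∧ ∀ K, stepB cs gs al t code st' C m K = K c s := by
  by_cases e1 : Nat.beq t (nat_lit 30) = true
  · rw [stepB_30 _ _ _ _ _ _ e1] at h
    obtain ⟨c, h2, h3⟩ := comb_det _ _ _ _ _ _ _ _ h
    exact ⟨c, st', h2, fun K => (stepB_30 _ _ _ _ _ _ e1).trans (h3 _)⟩
  · rw [Bool.not_eq_true] at e1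
    by_cases e2 : Nat.beq t (nat_lit 28) = true
    · rw [stepB_28 _ _ _ _ _ _ e1 e2] at h
      obtain ⟨h1, h2⟩ := cB_and h
      obtain ⟨s, h4⟩ := doneM_det (Nat.div code (nat_lit 128)) C
        (Nat.xor m (Nat.shiftLeft (nat_lit 2) (Nat.mod code (nat_lit 128)))) st'
      rw [h4] at h2
      refine ⟨_, s, h2, fun K => ?_⟩
      rw [stepB_28 _ _ _ _ _ _ e1 e2, h1, h4]
      exact cB_t _ _
    · rw [Bool.not_eq_true] at e2
      by_cases e3 : Nat.beq t (nat_lit 29) = true
      · rw [stepB_29 _ _ _ _ _ _ e1 e2 e3] at h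
        obtain ⟨F', V', W', e', b', h1⟩ := addC_det (getG gs al (Nat.mod code (nat_lit 128))) (envOf C)
          (fac (Nat.div code (nat_lit 128))) (nat_lit 0) (nat_lit 0) (nat_lit 0) (nat_lit 0) (nat_lit 0)
        rw [h1] at h
        obtain ⟨c, h2, h3⟩ := comb_det _ _ _ _ _ _ _ _ h
        obtain ⟨s, h4⟩ := doneM_det c C (Nat.xor m (Nat.shiftLeft (nat_lit 2) (Nat.mod code (nat_lit 128)))) st'
        rw [h4] at h2
        exact ⟨c, s, h2, fun K => (stepB_29 _ _ _ _ _ _ e1 e2 e3).trans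
          ((h1 _).trans ((h3 _).trans (h4 K)))⟩
      · rw [Bool.not_eq_true] at e3
        rw [stepB_31 _ _ _ _ _ _ e1 e2 e3] at h
        exact ⟨_, _, h, fun K => stepB_31 _ _ _ _ _ _ e1 e2 e3⟩

section
variable (t code : ℕ) (st' : Stk) (C : Cell) (m : ℕ) (K : ℕ → Stk → Bool)

lemma stepC_cut (e1 : Nat.ble t (nat_lit 27) = true) : stepC cs gs al t code st' C m K =
    cutc t C fun A B => K code (.cons A m (.cons B m st')) := by
  unfold stepC
  rw [e1]
  exact cB_t _ _

lemma stepC_one (e1 : Nat.ble t (nat_lit 27) = false) (e2 : Nat.ble (nat_lit 32) t = true) :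
    stepC cs gs al t code st' C m K =
      cB ((cs.getC (Nat.sub t (nat_lit 32))).fails (envOf C)) (K code st') false := by
  unfold stepC
  rw [e1, e2]
  exact (cB_f _ _).trans (cB_t _ _)

lemma stepC_B (e1 : Nat.ble t (nat_lit 27) = false) (e2 : Nat.ble (nat_lit 32) t = false) :
    stepC cs gs al t code st' C m K = stepB cs gs al t code st' C m K := by
  unfold stepC
  rw [e1, e2]
  exact (cB_f _ _).trans (cB_f _ _)

end

lemma stepC_det {t code : ℕ} {st' : Stk} {C : Cell} {m : ℕ} {k : ℕ → Stk → Bool}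
    (h : stepC cs gs al t code st' C m k = true) :
    ∃ c s, k c s = true ∧ ∀ K, stepC cs gs al t code st' C m K = K c s := by
  by_cases e1 : Nat.ble t (nat_lit 27) = true
  · rw [stepC_cut _ _ _ _ _ _ e1] at h
    obtain ⟨A, B, h1⟩ := cutc_det t C
    rw [h1] at h
    exact ⟨_, _, h, fun K => (stepC_cut _ _ _ _ _ _ e1).trans (h1 _)⟩
  · rw [Bool.not_eq_true] at e1
    by_cases e2 : Nat.ble (nat_lit 32) t = true
    · rw [stepC_one _ _ _ _ _ _ e1 e2] at h
      obtain ⟨h1, h2⟩ := cB_and h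
      refine ⟨_, _, h2, fun K => ?_⟩
      rw [stepC_one _ _ _ _ _ _ e1 e2, h1]
      exact cB_t _ _
    · rw [Bool.not_eq_true] at e2
      rw [stepC_B _ _ _ _ _ _ e1 e2] at h
      obtain ⟨c, s, h1, h2⟩ := stepB_det h
      exact ⟨c, s, h1, fun K => (stepC_B _ _ _ _ _ _ e1 e2).trans (h2 K)⟩

lemma innerC_succ (n code : ℕ) (C : Cell) (m : ℕ) (st' : Stk) (k : Stk → Bool) :
    innerC cs gs al (n + 1) code (.cons C m st') k =
      stepC cs gs al (Nat.mod code (nat_lit 128)) (Nat.div code (nat_lit 128)) st' C m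
        (fun c s => innerC cs gs al n c s k) := by
  have h := stc_eq (Nat.mod code (nat_lit 128)) (fun t => stepC cs gs al t (Nat.div code (nat_lit 128)) st' C m
        (fun c s => innerC cs gs al n c s k))
  exact h

lemma innerC_det : ∀ (n code : ℕ) (st : Stk) (k : Stk → Bool), innerC cs gs al n code st k = true →
    ∃ s, k s = true ∧ ∀ K, innerC cs gs al n code st K = K s
  | 0, _, st, _, h => ⟨st, h, fun _ => rfl⟩
  | _ + 1, _, .nil, _, h => ⟨.nil, h, fun _ => rfl⟩
  | n + 1, code, .cons C m st', k, h => by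
    have key := fun K => innerC_succ (cs := cs) (gs := gs) (al := al) n code C m st' K
    rw [key] at h
    obtain ⟨c, s, h1, h2⟩ := stepC_det h
    obtain ⟨s', h3, h4⟩ := innerC_det n c s k h1
    exact ⟨s', h3, fun K => (key K).trans ((h2 _).trans (h4 K))⟩

/-- the first `k` chunks and the rest of a code -/
def cat (k c r : ℕ) : ℕ := Nat.add c (Nat.mul (Nat.pow (nat_lit 13407807929942597099574024998205846127479365820592393377723561443721764030073546976801874298166903427690031858186486050853753882811946569946433649006084096) k) r)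

/-- **Parts of a run.** -/
theorem partC_cat {m r : ℕ} {s s' : Stk} (h2 : partC cs gs al m r s s' = true) :
    ∀ {k c : ℕ} {st : Stk}, partC cs gs al k c st s = true →
    partC cs gs al (Nat.add m k) (cat k c r) st s' = true
  | 0, c, st, h => by
    have h1 : cB (Nat.beq c (nat_lit 0)) (eqS st s) false = true := h
    obtain ⟨h3, h4⟩ := cB_and h1
    have e : c = 0 := Nat.eq_of_beq_eq_true h3
    have e2 : cat 0 c r = r := by
      rw [e]
      change 0 + 13407807929942597099574024998205846127479365820592393377723561443721764030073546976801874298166903427690031858186486050853753882811946569946433649006084096 ^ 0 * r = r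
      rw [pow_zero, zero_add, one_mul]
    rw [eqS_eq h4, e2]
    exact h2
  | k + 1, c, st, h => by
    have h1 : innerC cs gs al (Nat.mod c (nat_lit 128)) (Nat.div (Nat.mod c (nat_lit 13407807929942597099574024998205846127479365820592393377723561443721764030073546976801874298166903427690031858186486050853753882811946569946433649006084096)) (nat_lit 128)) st
      (fun s1 => partC cs gs al k (Nat.div c (nat_lit 13407807929942597099574024998205846127479365820592393377723561443721764030073546976801874298166903427690031858186486050853753882811946569946433649006084096)) s1 s) = true := h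
    obtain ⟨s1, h3, h4⟩ := innerC_det _ _ _ _ h1
    have h5 := partC_cat h2 h3
    have hc : cat (k + 1) c r = c + 13407807929942597099574024998205846127479365820592393377723561443721764030073546976801874298166903427690031858186486050853753882811946569946433649006084096 * (13407807929942597099574024998205846127479365820592393377723561443721764030073546976801874298166903427690031858186486050853753882811946569946433649006084096 ^ k * r) := by
      change c + 13407807929942597099574024998205846127479365820592393377723561443721764030073546976801874298166903427690031858186486050853753882811946569946433649006084096 ^ (k + 1) * r = _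
      rw [pow_succ]
      ring
    have hd : Nat.div (cat (k + 1) c r) (nat_lit 13407807929942597099574024998205846127479365820592393377723561443721764030073546976801874298166903427690031858186486050853753882811946569946433649006084096) = cat k (Nat.div c (nat_lit 13407807929942597099574024998205846127479365820592393377723561443721764030073546976801874298166903427690031858186486050853753882811946569946433649006084096)) r := by
      rw [hc]
      change (c + 13407807929942597099574024998205846127479365820592393377723561443721764030073546976801874298166903427690031858186486050853753882811946569946433649006084096 * (13407807929942597099574024998205846127479365820592393377723561443721764030073546976801874298166903427690031858186486050853753882811946569946433649006084096 ^ k * r)) / 13407807929942597099574024998205846127479365820592393377723561443721764030073546976801874298166903427690031858186486050853753882811946569946433649006084096 = c / 13407807929942597099574024998205846127479365820592393377723561443721764030073546976801874298166903427690031858186486050853753882811946569946433649006084096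 + 13407807929942597099574024998205846127479365820592393377723561443721764030073546976801874298166903427690031858186486050853753882811946569946433649006084096 ^ k * r
      rw [Nat.add_mul_div_left _ _ (by norm_num)]
    have hm : Nat.mod (cat (k + 1) c r) (nat_lit 13407807929942597099574024998205846127479365820592393377723561443721764030073546976801874298166903427690031858186486050853753882811946569946433649006084096) = Nat.mod c (nat_lit 13407807929942597099574024998205846127479365820592393377723561443721764030073546976801874298166903427690031858186486050853753882811946569946433649006084096) := by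
      rw [hc]
      change (c + 13407807929942597099574024998205846127479365820592393377723561443721764030073546976801874298166903427690031858186486050853753882811946569946433649006084096 * (13407807929942597099574024998205846127479365820592393377723561443721764030073546976801874298166903427690031858186486050853753882811946569946433649006084096 ^ k * r)) % 13407807929942597099574024998205846127479365820592393377723561443721764030073546976801874298166903427690031858186486050853753882811946569946433649006084096 = c % 13407807929942597099574024998205846127479365820592393377723561443721764030073546976801874298166903427690031858186486050853753882811946569946433649006084096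
      rw [Nat.add_mul_mod_self_left]
    have hn : Nat.mod (cat (k + 1) c r) (nat_lit 128) = Nat.mod c (nat_lit 128) := by
      rw [hc]
      change (c + 13407807929942597099574024998205846127479365820592393377723561443721764030073546976801874298166903427690031858186486050853753882811946569946433649006084096 * (13407807929942597099574024998205846127479365820592393377723561443721764030073546976801874298166903427690031858186486050853753882811946569946433649006084096 ^ k * r)) % 128 = c % 128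
      have : c + 13407807929942597099574024998205846127479365820592393377723561443721764030073546976801874298166903427690031858186486050853753882811946569946433649006084096 * (13407807929942597099574024998205846127479365820592393377723561443721764030073546976801874298166903427690031858186486050853753882811946569946433649006084096 ^ k * r) = c + 128 * (104748499452676539840422070298483172870932545473378073263465323779076281484949585756264642954428933028828373892081922272294952209468332577706512882860032 * (13407807929942597099574024998205846127479365820592393377723561443721764030073546976801874298166903427690031858186486050853753882811946569946433649006084096 ^ k * r)) := by ring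
      rw [this, Nat.add_mul_mod_self_left]
    change innerC cs gs al (Nat.mod (cat (k + 1) c r) (nat_lit 128))
      (Nat.div (Nat.mod (cat (k + 1) c r) (nat_lit 13407807929942597099574024998205846127479365820592393377723561443721764030073546976801874298166903427690031858186486050853753882811946569946433649006084096)) (nat_lit 128)) st
      (fun s1 => partC cs gs al (Nat.add m k) (Nat.div (cat (k + 1) c r) (nat_lit 13407807929942597099574024998205846127479365820592393377723561443721764030073546976801874298166903427690031858186486050853753882811946569946433649006084096)) s1 s') = true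
    rw [hd, hm, hn, h4]
    exact h5

/-! ### stacks as numbers -/

/-- `k` cells, `296` bits each -/
def dS (k : ℕ) : ℕ → Stk :=
  @Nat.rec (fun _ => ℕ → Stk) (fun _ => .nil) (fun _ ih N =>
    .cons ⟨Nat.mod N (nat_lit 2097152), Nat.mod (Nat.div N (nat_lit 2097152)) (nat_lit 2097152),
      Nat.mod (Nat.div N (nat_lit 4398046511104)) (nat_lit 2097152), Nat.mod (Nat.div N (nat_lit 9223372036854775808)) (nat_lit 2097152),
      Nat.mod (Nat.div N (nat_lit 19342813113834066795298816)) (nat_lit 2097152), Nat.mod (Nat.div N (nat_lit 40564819207303340847894502572032)) (nat_lit 2097152),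
      Nat.mod (Nat.div N (nat_lit 85070591730234615865843651857942052864)) (nat_lit 2097152), Nat.mod (Nat.div N (nat_lit 178405961588244985132285746181186892047843328)) (nat_lit 2097152)⟩
      (Nat.mod (Nat.div N (nat_lit 374144419156711147060143317175368453031918731001856)) (nat_lit 340282366920938463463374607431768211456)) (ih (Nat.div N (nat_lit 127314748520905380391777855525586135065716774604121015664758778084648831235208544136462336)))) k

section
variable {u w : ℂ}

lemma testBit_xor_ne {m j i : ℕ} (h : i ≠ j + 1) :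
    (Nat.xor m (Nat.shiftLeft 2 j)).testBit i = m.testBit i := by
  have e : Nat.shiftLeft 2 j = 2 ^ (j + 1) := by
    change 2 <<< j = 2 ^ (j + 1)
    rw [Nat.shiftLeft_eq, pow_succ, mul_comm]
  change (m ^^^ Nat.shiftLeft 2 j).testBit i = m.testBit i
  rw [e, Nat.testBit_xor, Nat.testBit_two_pow_of_ne (Ne.symm h), Bool.xor_false]

lemma doneM_spec {code : ℕ} {C : Cell} {m : ℕ} {st' : Stk} {k : ℕ → Stk → Bool}
    (h : doneM code C m st' k = true) (hk : ∀ c s, k c s = true → SOk gs al u w s) :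
    CellOk gs al u w C m ∧ SOk gs al u w st' := by
  cases m with
  | zero =>
    refine ⟨fun _ _ => ⟨fun j hj => ?_, fun hj => ?_⟩, hk _ _ h⟩
    · simp at hj
    · simp at hj
  | succ m => exact hk _ _ h

/-- a goal is removed -/
lemma CellOk.remove {C : Cell} {m j : ℕ} (h : CellOk gs al u w C (Nat.xor m (Nat.shiftLeft 2 j)))
    (hj : C.In → C.Mem u w → ¬ (getG gs al j).Holds u w) : CellOk gs al u w C m := by
  intro hI hm
  obtain ⟨h1, h2⟩ := h hI hm
  have h3 := hj hI hm
  refine ⟨fun i hi => ?_, fun h0 => h2 ?_⟩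
  · by_cases e : i = j
    · rw [e]
      exact h3
    · exact h1 i (by rw [testBit_xor_ne (by omega)]; exact hi)
  · rw [testBit_xor_ne (by omega)]
    exact h0

/-- a pair becomes open -/
lemma CellOk.pair {C : Cell} {m j : ℕ} (h : CellOk gs al u w C (Nat.lor (Nat.xor m (nat_lit 1))
    (Nat.shiftLeft (nat_lit 12884901888) (Nat.mul (nat_lit 2) j)))) : CellOk gs al u w C m := by
  intro hI hm
  obtain ⟨h1, h2⟩ := h hI hm
  have t1 : Nat.testBit 12884901888 32 = true := by decide +kernel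
  have t2 : Nat.testBit 12884901888 33 = true := by decide +kernel
  have k1 : ((nat_lit 12884901888) <<< (2 * j)).testBit (31 + 2 * j + 1) = true := by
    rw [Nat.testBit_shiftLeft, show 31 + 2 * j + 1 - 2 * j = 32 by omega, Bool.and_eq_true]
    exact ⟨decide_eq_true (by omega), t1⟩
  have k2 : ((nat_lit 12884901888) <<< (2 * j)).testBit (31 + (2 * j + 1) + 1) = true := by
    rw [Nat.testBit_shiftLeft, show 31 + (2 * j + 1) + 1 - 2 * j = 33 by omega, Bool.and_eq_true]
    exact ⟨decide_eq_true (by omega), t2⟩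
  have b1 : ∀ i, ((m ^^^ 1) ||| ((nat_lit 12884901888) <<< (2 * j))).testBit i = true →
      ((Nat.lor (Nat.xor m (nat_lit 1)) (Nat.shiftLeft (nat_lit 12884901888) (Nat.mul (nat_lit 2) j)))).testBit i = true :=
    fun i hi => hi
  have q1 := h1 (31 + 2 * j) (b1 _ (by rw [Nat.testBit_or, k1, Bool.or_true]))
  have q2 := h1 (31 + (2 * j + 1)) (b1 _ (by rw [Nat.testBit_or, k2, Bool.or_true]))
  rw [getG_pair] at q1 q2
  refine ⟨fun i hi => h1 i (b1 _ ?_), fun _ => ?_⟩
  · rw [Nat.testBit_or, Nat.testBit_xor, hi]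
    have : Nat.testBit 1 (i + 1) = false := by
      rw [Nat.testBit_succ]
      simp
    rw [this]
    simp
  · obtain ⟨p, hp, e1, e2⟩ := getP_mem q1
    rw [e1] at q1
    rw [e2] at q2
    exact ⟨p, hp, q1, q2⟩

variable (hc : cs.All u w) (hG : ∀ g ∈ gs, g.g = true) (ha : ∀ p ∈ al, p.1.g = true ∧ p.2.g = true)
include hc hG ha

lemma stepB_spec {t code : ℕ} {st' : Stk} {C : Cell} {m : ℕ} {k : ℕ → Stk → Bool}
    (h : stepB cs gs al t code st' C m k = true)
    (hk : ∀ c s, k c s = true → SOk gs al u w s) : SOk gs al u w (.cons C m st') := by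
  by_cases e1 : Nat.beq t (nat_lit 30) = true
  · rw [stepB_30 _ _ _ _ _ _ e1] at h
    obtain ⟨c, h1, -⟩ := comb_det _ _ _ _ _ _ _ _ h
    refine ⟨fun hI hm => ?_, hk _ _ h1⟩
    obtain ⟨X, Y, δ, ε, k1, k2, k3, k4⟩ := cell_pt hI hm
    exact absurd trivial (comb_spec hc k1 k2 k3 k4 _ _ _ _ _ _ _ _ _ Acc.zero h).1
  · rw [Bool.not_eq_true] at e1
    have hg := getG_g hG ha (Nat.mod code (nat_lit 128))
    by_cases e2 : Nat.beq t (nat_lit 28) = true
    · rw [stepB_28 _ _ _ _ _ _ e1 e2] at h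
      obtain ⟨h5, h6⟩ := cB_and h
      obtain ⟨h7, h8⟩ := doneM_spec h6 hk
      exact ⟨h7.remove fun hI hm => Con.fails_cell hI hm hg h5, h8⟩
    · rw [Bool.not_eq_true] at e2
      by_cases e3 : Nat.beq t (nat_lit 29) = true
      · rw [stepB_29 _ _ _ _ _ _ e1 e2 e3] at h
        obtain ⟨F', V', W', e', b', h1⟩ := addC_det (getG gs al (Nat.mod code (nat_lit 128))) (envOf C)
          (fac (Nat.div code (nat_lit 128))) (nat_lit 0) (nat_lit 0) (nat_lit 0) (nat_lit 0) (nat_lit 0)
        have h' := h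
        rw [h1] at h'
        obtain ⟨c, h6, -⟩ := comb_det _ _ _ _ _ _ _ _ h'
        obtain ⟨h7, h8⟩ := doneM_spec h6 hk
        refine ⟨h7.remove fun hI hm => ?_, h8⟩
        obtain ⟨X, Y, δ, ε, k1, k2, k3, k4⟩ := cell_pt hI hm
        obtain ⟨F, V, W, e, b, k6, k7⟩ := addC_spec hg k1 k2 k3 k4 Acc.zero h
        obtain ⟨k8, -⟩ := comb_spec hc k1 k2 k3 k4 _ _ _ _ _ _ _ _ _ k7 k6
        exact fun hh => k8 ⟨trivial, hh⟩
      · rw [Bool.not_eq_true] at e3
        rw [stepB_31 _ _ _ _ _ _ e1 e2 e3] at h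
        obtain ⟨h1, h2⟩ := hk _ _ h
        exact ⟨h1.pair, h2⟩

lemma stepC_spec {t code : ℕ} {st' : Stk} {C : Cell} {m : ℕ} {k : ℕ → Stk → Bool}
    (h : stepC cs gs al t code st' C m k = true)
    (hk : ∀ c s, k c s = true → SOk gs al u w s) : SOk gs al u w (.cons C m st') := by
  by_cases e1 : Nat.ble t (nat_lit 27) = true
  · rw [stepC_cut _ _ _ _ _ _ e1] at h
    have c1' : t ≤ 27 := Nat.le_of_ble_eq_true e1
    obtain ⟨A, B, h3, h4⟩ := cutc_spec c1' h
    obtain ⟨hA, hB, h5⟩ := hk _ _ h3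
    refine ⟨fun hI hm => ?_, h5⟩
    obtain ⟨iA, iB, h6⟩ := h4 hI hm
    rcases h6 with h6 | h6
    · exact hA iA h6
    · exact hB iB h6
  · rw [Bool.not_eq_true] at e1
    by_cases e2 : Nat.ble (nat_lit 32) t = true
    · rw [stepC_one _ _ _ _ _ _ e1 e2] at h
      obtain ⟨h3, h4⟩ := cB_and h
      refine ⟨fun hI hm => ?_, hk _ _ h4⟩
      have hq := CT.getC_all cs hc (Nat.sub t (nat_lit 32))
      exact absurd hq.2 (Con.fails_cell hI hm hq.1 h3)
    · rw [Bool.not_eq_true] at e2
      rw [stepC_B _ _ _ _ _ _ e1 e2] at h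
      exact stepB_spec hc hG ha h hk

lemma innerC_spec : ∀ (n code : ℕ) (st : Stk) (k : Stk → Bool), innerC cs gs al n code st k = true →
    (∀ s, k s = true → SOk gs al u w s) → SOk gs al u w st
  | 0, _, st, _, h, hk => hk st h
  | _ + 1, _, .nil, _, _, _ => trivial
  | n + 1, code, .cons C m st', k, h, hk => by
    have h1 : stepC cs gs al (Nat.mod code (nat_lit 128)) (Nat.div code (nat_lit 128)) st' C m
        (fun c s => innerC cs gs al n c s k) = true := (innerC_succ n code C m st' k).symm.trans h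
    exact stepC_spec hc hG ha h1 fun c s hs => innerC_spec n c s k hs hk

theorem partC_spec : ∀ (n code : ℕ) (st : Stk), partC cs gs al n code st .nil = true → SOk gs al u w st
  | 0, _, st, h => by
    have h1 : cB (Nat.beq _ (nat_lit 0)) (eqS st .nil) false = true := h
    rw [eqS_eq (cB_and h1).2]
    trivial
  | n + 1, code, st, h => by
    have h1 : innerC cs gs al (Nat.mod code (nat_lit 128))
      (Nat.div (Nat.mod code (nat_lit 13407807929942597099574024998205846127479365820592393377723561443721764030073546976801874298166903427690031858186486050853753882811946569946433649006084096)) (nat_lit 128)) st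
      (fun s => partC cs gs al n (Nat.div code (nat_lit 13407807929942597099574024998205846127479365820592393377723561443721764030073546976801874298166903427690031858186486050853753882811946569946433649006084096)) s .nil) = true := h
    exact innerC_spec hc hG ha _ _ st _ h1 fun s hs => partC_spec n _ s hs

end

end

end

end Pool.Agent.Work.MP_b30479_gtS.G2.CN

end
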