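import Pool.Agent.Work.MP_b30479_gt.TBS.G2.CN.Hin

section

/-!
# The polygons of the ring values

`pg B l r`: polygon of the rings with `B` crossings and the sides `l`, `r`; `KOK K`: the sets of the
family `K` are in the polygons; `chkU`: check of conditions for many rings at once.
-/

namespace Pool.Agent.Work.MP_b30479_gtS.G2.CN

open Complex SR

/-- 2 crossings -/
def pg2 (l r : SK) : List (ℤ × ℤ) :=
  match l, r with
  | .e, .a | .a, .e =>
    [(482, 220), (542, 221), (636, 283), (661, 310), (500, 501), (474, 475), (430, 375), (426, 249)]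
  | .a, .a =>
    [(646, 218), (707, 194), (837, 204), (867, 503), (809, 498), (704, 448), (632, 356), (600, 269)]
  | .a, .s | .s, .a =>
    [(569, 354), (653, 300), (841, 349), (867, 499), (817, 668), (714, 644), (568, 497), (537, 420)]
  | _, _ => [(0, 0), (1000, 0), (1000, 1000), (0, 1000)]

/-- 3 crossings -/
def pg3 (l r : SK) : List (ℤ × ℤ) :=
  match l, r with
  | .e, .a | .a, .e =>
    [(623, 118), (650, 105), (678, 104), (743, 146), (661, 252), (646, 237), (625, 192), (621, 159)]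
  | .e, .s | .s, .e =>
    [(535, 226), (593, 222), (648, 235), (662, 250), (565, 350), (545, 340), (517, 286), (525, 256)]
  | .a, .a =>
    [(748, 124), (778, 114), (859, 129), (847, 296), (807, 283), (756, 241), (733, 199), (718, 151)]
  | .a, .s | .s, .a =>
    [(684, 213), (728, 188), (849, 185), (848, 289), (822, 393), (789, 389), (731, 354), (669, 274)]
  | .s, .s =>
    [(651, 346), (743, 303), (814, 284), (851, 290), (784, 527), (740, 521), (700, 488), (658, 448)]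
  | _, _ => [(0, 0), (1000, 0), (1000, 1000), (0, 1000)]

/-- 4 crossings -/
def pg4 (l r : SK) : List (ℤ × ℤ) :=
  match l, r with
  | .e, .a | .a, .e =>
    [(754, 55), (768, 51), (780, 50), (815, 76), (764, 130), (757, 121), (748, 90)]
  | .e, .z | .z, .e => [(731, 114), (733, 112), (757, 119), (766, 129), (732, 132), (731, 128)]
  | .e, .s | .s, .e =>
    [(693, 105), (702, 100), (742, 129), (699, 182), (685, 171), (675, 136), (681, 122)]
  | .a, .a =>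
    [(820, 70), (839, 67), (885, 82), (861, 177), (841, 170), (814, 139), (806, 118), (800, 83)]
  | .a, .z | .z, .a =>
    [(795, 129), (805, 117), (818, 111), (872, 116), (861, 177), (838, 193), (812, 170), (798, 142)]
  | .a, .s | .s, .a =>
    [(767, 129), (781, 114), (797, 107), (860, 123), (837, 236), (813, 228), (783, 203), (758, 150)]
  | .z, .z =>
    [(803, 178), (845, 169), (862, 176), (841, 191), (826, 201), (815, 205), (802, 182)]
  | .s, .s =>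
    [(734, 216), (740, 187), (805, 171), (842, 169), (862, 174), (804, 313), (776, 305), (731, 256)]
  | _, _ => [(0, 0), (1000, 0), (1000, 1000), (0, 1000)]

/-- 5 crossings -/
def pg5 (l r : SK) : List (ℤ × ℤ) :=
  match l, r with
  | .e, .a | .a, .e =>
    [(831, 30), (838, 27), (849, 29), (865, 44), (833, 72), (829, 66), (826, 52)]
  | .e, .z | .z, .e => [(813, 70), (815, 60), (817, 59), (831, 66), (834, 72), (821, 71)]
  | .e, .s | .s, .e =>
    [(780, 65), (793, 52), (801, 49), (820, 70), (790, 95), (787, 95), (781, 87)]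
  | .a, .a =>
    [(856, 48), (869, 41), (880, 41), (900, 50), (907, 55), (883, 112), (871, 103), (855, 76)]
  | .a, .z | .z, .a =>
    [(847, 76), (855, 69), (861, 66), (891, 73), (896, 75), (883, 112), (867, 118), (854, 101)]
  | .a, .s | .s, .a =>
    [(824, 82), (835, 67), (853, 61), (887, 79), (861, 147), (844, 135), (833, 120), (824, 91)]
  | .z, .z => [(847, 107), (849, 104), (873, 104), (885, 110), (852, 125)]
  | .z, .s | .s, .z =>
    [(828, 107), (833, 103), (846, 104), (874, 113), (863, 142), (842, 154), (834, 150), (821, 124)]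
  | .s, .s =>
    [(796, 130), (805, 108), (814, 100), (862, 119), (835, 191), (813, 181), (794, 147)]
  | _, _ => [(0, 0), (1000, 0), (1000, 1000), (0, 1000)]

/-- 6 crossings -/
def pg6 (l r : SK) : List (ℤ × ℤ) :=
  match l, r with
  | .e, .a | .a, .e => [(874, 34), (876, 24), (878, 17), (887, 16), (899, 27), (877, 44)]
  | .e, .z | .z, .e => [(867, 35), (868, 34), (875, 38), (876, 39), (879, 44), (865, 41)]
  | .e, .s | .s, .e => [(847, 34), (858, 27), (860, 27), (870, 41), (848, 55), (844, 49)]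
  | .a, .a =>
    [(892, 30), (901, 26), (908, 26), (926, 36), (904, 74), (896, 62), (891, 49)]
  | .a, .z | .z, .a =>
    [(885, 47), (890, 43), (896, 42), (917, 49), (905, 73), (894, 75), (887, 63)]
  | .a, .s | .s, .a =>
    [(870, 48), (879, 40), (888, 38), (911, 50), (887, 93), (873, 80), (869, 57)]
  | .z, .z => [(882, 64), (902, 67), (906, 72), (886, 77), (883, 76)]
  | .z, .s | .s, .z =>
    [(872, 61), (884, 64), (899, 73), (888, 90), (874, 95), (869, 93), (864, 73)]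
  | .s, .s =>
    [(844, 80), (856, 61), (863, 58), (891, 75), (864, 119), (852, 110), (846, 93)]
  | _, _ => [(0, 0), (1000, 0), (1000, 1000), (0, 1000)]

/-- 7 crossings -/
def pg7 (l r : SK) : List (ℤ × ℤ) :=
  match l, r with
  | .e, .a | .a, .e => [(907, 12), (910, 10), (915, 11), (922, 18), (907, 28), (905, 24)]
  | .e, .z | .z, .e => [(899, 25), (901, 21), (908, 26), (908, 28), (900, 26)]
  | .e, .s | .s, .e => [(885, 30), (888, 20), (896, 16), (903, 26), (893, 31), (887, 33)]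
  | .a, .a =>
    [(917, 19), (925, 17), (928, 18), (940, 25), (923, 49), (920, 46), (915, 34)]
  | .a, .z | .z, .a =>
    [(911, 30), (917, 27), (927, 31), (932, 35), (923, 49), (916, 50), (912, 44)]
  | .a, .s | .s, .a =>
    [(901, 31), (907, 25), (916, 25), (928, 35), (909, 62), (903, 54), (899, 42)]
  | .z, .z => [(908, 41), (919, 44), (926, 48), (908, 51)]
  | .z, .s | .s, .z =>
    [(896, 47), (898, 42), (903, 39), (911, 42), (919, 49), (910, 59), (897, 62)]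
  | .s, .s => [(882, 49), (889, 40), (896, 35), (913, 49), (891, 77), (883, 68)]
  | _, _ => [(0, 0), (1000, 0), (1000, 1000), (0, 1000)]

/-- 8 crossings or more -/
def pg8 (l r : SK) : List (ℤ × ℤ) :=
  match l, r with
  | .e, .a | .a, .e => [(923, 0), (1000, 0), (956, 22), (923, 22)]
  | .e, .z | .z, .e => [(916, 0), (1000, 0), (952, 24), (916, 24)]
  | .e, .s | .s, .e => [(907, 0), (1000, 0), (948, 26), (907, 26)]
  | .a, .a => [(923, 0), (1000, 0), (957, 43), (923, 43)]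
  | .a, .z | .z, .a => [(916, 0), (1000, 0), (953, 47), (916, 47)]
  | .z, .z => [(908, 0), (1000, 0), (948, 52), (908, 52)]
  | .a, .s | .s, .a => [(907, 0), (1000, 0), (948, 52), (907, 52)]
  | .z, .s | .s, .z => [(897, 0), (1000, 0), (942, 58), (897, 58)]
  | .s, .s => [(883, 0), (1000, 0), (934, 66), (883, 66)]
  | _, _ => [(0, 0), (1000, 0), (1000, 1000), (0, 1000)]

/-- the polygon -/
def pg (B : ℕ) (l r : SK) : List (ℤ × ℤ) :=
  if B = 2 then pg2 l r else if B = 3 then pg3 l r else if B = 4 then pg4 l r else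
  if B = 5 then pg5 l r else if B = 6 then pg6 l r else if B = 7 then pg7 l r else pg8 l r

lemma pg_min {B : ℕ} (l r : SK) : pg B l r = pg (min B 8) l r := by
  rcases le_total B 8 with h | h
  · rw [min_eq_left h]
  · rw [min_eq_right h]
    unfold pg
    split_ifs <;> first | rfl | omega

/-- the sets of the family are in the polygons -/
structure KOK (K : KFam) : Prop where
  sub : ∀ {d : ℕ} {l r : SK}, ROK d l r → K.K d l r ⊆ PolyU (pg (crs d l r) l r)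

/-- minimal number of crossings of a ring with the sides `l`, `r` -/
def lo (r l : SK) : ℕ :=
  match r, l with
  | .a, .e => 2
  | .a, .a => 2
  | .a, .z => 4
  | .a, .s => 2
  | .z, .e => 4
  | .z, .a => 4
  | .z, .z => 4
  | .z, .s => 5
  | .s, .e => 3
  | .s, .a => 2
  | .s, .z => 5
  | .s, .s => 3
  | _, _ => 0

lemma lo_le {d : ℕ} {l r : SK} (h : ROK d l r) (hr : r ≠ .e) : lo r l ≤ min (crs d l r) 8 := by
  have h1 := h.pos
  have h2 := h.one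
  have h3 := h.zl
  have h4 := h.zr
  unfold crs
  cases r <;> cases l <;> simp_all [lo, SK.u] <;> omega

/-- check of conditions for the rings with the side `r` -/
noncomputable def chkU (H : List QC) (r : SK) (a b : SK → ℕ) : Bool :=
  [SK.e, SK.a, SK.z, SK.s].all fun l => (List.range 9).all fun B =>
    Nat.blt B (a l) || Nat.blt (b l) B || okH H (pg B l r)

lemma chkU_use {H : List QC} {r : SK} {a b : SK → ℕ} (h : chkU H r a b = true) {B : ℕ} {l : SK}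
    (h1 : a l ≤ min B 8) (h2 : min B 8 ≤ b l) : okH H (pg B l r) = true := by
  have h3 := List.all_eq_true.1 h l (by cases l <;> simp)
  have h4 := List.all_eq_true.1 h3 (min B 8) (List.mem_range.2 (by omega))
  rw [Bool.or_eq_true, Bool.or_eq_true, Nat.blt_eq, Nat.blt_eq] at h4
  rcases h4 with (h4 | h4) | h4
  · omega
  · omega
  · rwa [← pg_min] at h4

section
variable {K : KFam} (hK : KOK K)
include hK

/-- one ring -/
lemma KOK.inH {d : ℕ} {l r : SK} (h : ROK d l r) {H : List QC}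
    (hH : okH H (pg (crs d l r) l r) = true) : InH (K.K d l r) H :=
  fun _ hk => okH_sound hH (polyU_sub _ (hK.sub h hk))

/-- many rings -/
lemma KOK.inU {d : ℕ} {l r : SK} (h : ROK d l r) {H : List QC} {a b : SK → ℕ}
    (hH : chkU H r a b = true) (h1 : a l ≤ min (crs d l r) 8) (h2 : min (crs d l r) 8 ≤ b l) :
    InH (K.K d l r) H := hK.inH h (chkU_use hH h1 h2)

end

/-- the lower bound of the modulus -/
def hmin : List QC := [⟨0, 0, -1000000, 52250⟩]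

theorem hmin_a : chkU hmin .a (lo .a) (fun _ => 8) = true := by decide +kernel
theorem hmin_z : chkU hmin .z (lo .z) (fun _ => 8) = true := by decide +kernel
theorem hmin_s : chkU hmin .s (lo .s) (fun _ => 8) = true := by decide +kernel

lemma norm_of_hmin {k : ℂ} (h : Sat hmin (k ^ 2)) : ‖1 / k ^ 2‖ ≤ 4375 / 1000 := by
  have h1 := h ⟨0, 0, -1000000, 52250⟩ (by simp [hmin])
  unfold QC.Sat at h1
  push_cast at h1
  have h2 : (22858 : ℝ) / 100000 < ‖k ^ 2‖ := by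
    by_contra hc
    push Not at hc
    have h3 := norm_nonneg (k ^ 2)
    nlinarith
  rw [norm_div, norm_one, div_le_iff₀ (by linarith)]
  linarith

/-- the inverse of the value of a ring is bounded -/
lemma KOK.bound {K : KFam} (hK : KOK K) {d : ℕ} {l r : SK} (h : ROK d l r) (hr : r ≠ .e) {k : ℂ}
    (hk : k ∈ K.K d l r) : ‖1 / k ^ 2‖ ≤ 4375 / 1000 := by
  have h1 := lo_le h hr
  apply norm_of_hmin
  cases r
  · exact absurd rfl hr
  · exact hK.inU h hmin_a h1 (min_le_right _ _) k hk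
  · exact hK.inU h hmin_z h1 (min_le_right _ _) k hk
  · exact hK.inU h hmin_s h1 (min_le_right _ _) k hk

lemma norm_frS {s : ℝ} {S : Set ℂ} {k : ℂ} (hs : s = 1 ∨ s = -1) (hk : k ∈ frS s S) {c : ℝ}
    (h : ∀ k ∈ S, ‖1 / k ^ 2‖ ≤ c) : ‖1 / k ^ 2‖ ≤ c := by
  rcases hs with rfl | rfl
  · rw [frS_one] at hk
    exact h k hk
  · rw [frS_neg] at hk
    have := h _ hk
    rwa [← map_pow, show (1 : ℂ) = (starRingEnd ℂ) 1 by simp, ← map_div₀, Complex.norm_conj] at this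

/-- the root cell contains every hinge -/
lemma KOK.root {K : KFam} (hK : KOK K) {x : SK} {d : ℕ} {l : SK} {d' : ℕ} {l' : SK} {R k k' : ℂ}
    (h : HDt K x d l d' l' R k k') : root.Mem R (1 / k ^ 2) := by
  have hr : r0 < R.re := h.Rre
  have h0 := r0_pos
  refine root_mem (by linarith) h.hinge (hK.bound h.ok.left h.ok.ne h.mem) ?_
  have hR : ROK d' l' x := h.ok.right.symm
  refine norm_frS (SK.sgn_or x) h.mem' (fun k hk => ?_)
  rw [K.symm] at hk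
  exact hK.bound hR h.ok.ne hk

end Pool.Agent.Work.MP_b30479_gtS.G2.CN

end

section

/-!
# Conditions for the ring values of the hinges between opposite signs

`h…`: conditions for the squares of the values of one ring, of many rings (`hn5`, `hn6`) or of the
ports (`hA2`, `hS2`, `hST`, `hS3`, `hPZ`).
-/

set_option deprecated.oldSectionVars true

namespace Pool.Agent.Work.MP_b30479_gtS.G2.CN

open Complex SR

/-- conditions -/
def h2aa : List QC :=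
  [⟨-341496, 658953, 0, 0⟩, ⟨630784, -294912, 0, 0⟩, ⟨0, 0, -1000000, 186936⟩,
  ⟨0, 0, 1000000, -1009419⟩, ⟨-966000, -259000, 0, -743260⟩, ⟨1000000, 17000, 0, 280337⟩,
  ⟨87000, 996000, 0, 312701⟩, ⟨946000, -326000, 149602, 0⟩, ⟨-326000, 946000, 0, 108236⟩,
  ⟨454000, 891000, 0, 418202⟩]

/-- conditions -/
def h2as : List QC :=
  [⟨-587018, 585480, 0, 0⟩, ⟨919632, -95060, 0, 0⟩, ⟨0, 0, -1000000, 201670⟩,
  ⟨0, 0, 1000000, -1240357⟩, ⟨35000, 999000, 880778, 0⟩, ⟨52000, 999000, 0, 408901⟩,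
  ⟨951000, 309000, 0, 245866⟩, ⟨-616000, 788000, 0, 101510⟩, ⟨809000, -588000, 0, -465060⟩,
  ⟨999000, -52000, 0, 46180⟩]

/-- conditions -/
def h2ea : List QC :=
  [⟨-239564, 244923, 0, 0⟩, ⟨450300, 949, 0, 0⟩, ⟨0, 0, -1000000, 59281⟩,
  ⟨0, 0, 1000000, -284112⟩, ⟨829000, 559000, 0, 216981⟩, ⟨-52000, 999000, 0, 202303⟩,
  ⟨-208000, -978000, 0, -501515⟩, ⟨-574000, 819000, 462522, 0⟩, ⟨940000, 342000, 0, 151913⟩,
  ⟨-407000, 914000, 0, 118984⟩]

/-- conditions -/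
def h3aa : List QC :=
  [⟨-177384, 592288, 0, 0⟩, ⟨456762, -571160, 0, 0⟩, ⟨0, 0, -1000000, 289793⟩,
  ⟨0, 0, 1000000, -648066⟩, ⟨978000, -208000, 0, 426058⟩, ⟨-961000, -276000, 0, -758558⟩,
  ⟨500000, 866000, 0, 432710⟩, ⟨848000, -530000, 0, 242259⟩, ⟨998000, -70000, 0, 476271⟩,
  ⟨-921000, -391000, 0, -776582⟩]

/-- conditions -/
def h3as : List QC :=
  [⟨-314130, 686576, 0, 0⟩, ⟨613842, -471200, 0, 0⟩, ⟨0, 0, -1000000, 263399⟩,
  ⟨0, 0, 1000000, -689121⟩, ⟨970000, -242000, 0, 271527⟩, ⟨-191000, 982000, 0, 174324⟩,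
  ⟨-946000, -326000, 0, -761338⟩, ⟨276000, 961000, 0, 396626⟩, ⟨-809000, -588000, 0, -805781⟩,
  ⟨829000, 559000, 0, 513125⟩]

/-- conditions -/
def h3ea : List QC :=
  [⟨-141024, 448868, 0, 0⟩, ⟨333144, -373417, 0, 0⟩, ⟨0, 0, -1000000, 161646⟩,
  ⟨0, 0, 1000000, -328748⟩, ⟨-588000, -809000, 0, -493908⟩, ⟨995000, -105000, 0, 326792⟩,
  ⟨-682000, 731000, 0, -203974⟩, ⟨242000, 970000, 0, 231981⟩, ⟨978000, 208000, 0, 393507⟩,
  ⟨-643000, -766000, 0, -508466⟩]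

/-- conditions -/
def h4aa : List QC :=
  [⟨-112426, 699432, 0, 0⟩, ⟨304794, -709992, 0, 0⟩, ⟨0, 0, -1000000, 418465⟩,
  ⟨0, 0, 1000000, -624020⟩, ⟨914000, -407000, 0, 495852⟩, ⟨-921000, -391000, 0, -775681⟩,
  ⟨438000, 899000, 0, 395570⟩, ⟨-391000, 921000, 0, -170113⟩, ⟨999000, -52000, 0, 625185⟩,
  ⟨857000, -515000, 0, 434113⟩]

/-- conditions -/
def h4as : List QC :=
  [⟨-170558, 623760, 0, 0⟩, ⟨395064, -644873, 0, 0⟩, ⟨0, 0, -1000000, 356485⟩,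
  ⟨0, 0, 1000000, -571937⟩, ⟨974000, -225000, 0, 485484⟩, ⟨616000, 788000, 0, 508048⟩,
  ⟨819000, -574000, 0, 285896⟩, ⟨-375000, 927000, 0, -75862⟩, ⟨-927000, -375000, 0, -753001⟩,
  ⟨829000, 559000, 0, 584514⟩]

/-- conditions -/
def h4az : List QC :=
  [⟨-202304, 746928, 0, 0⟩, ⟨323468, -664995, 0, 0⟩, ⟨0, 0, -1000000, 420767⟩,
  ⟨0, 0, 1000000, -598829⟩, ⟨951000, -309000, 0, 514243⟩, ⟨-391000, -921000, 0, -558367⟩,
  ⟨500000, 866000, 0, 480296⟩, ⟨809000, -588000, 0, 347694⟩, ⟨966000, -259000, 0, 536976⟩,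
  ⟨292000, 956000, 0, 365307⟩]

/-- conditions -/
def h4ea : List QC :=
  [⟨-78000, 605900, 0, 0⟩, ⟨198640, -566796, 0, 0⟩, ⟨0, 0, -1000000, 322174⟩,
  ⟨0, 0, 1000000, -448902⟩, ⟨-629000, -777000, 0, -512132⟩, ⟨-656000, 755000, 0, -338835⟩,
  ⟨988000, -156000, 0, 523128⟩, ⟨208000, 978000, 0, 198737⟩, ⟨966000, 259000, 0, 567528⟩,
  ⟨875000, -485000, 0, 399606⟩]

/-- conditions -/
def h5aa : List QC :=
  [⟨-72160, 772719, 0, 0⟩, ⟨197792, -767145, 0, 0⟩, ⟨0, 0, -1000000, 540283⟩,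
  ⟨0, 0, 1000000, -681738⟩, ⟨-883000, -469000, 0, -771552⟩, ⟨891000, -454000, 0, 585037⟩,
  ⟨276000, 961000, 468616, 0⟩, ⟨423000, 906000, 0, 383281⟩, ⟨-276000, -961000, -640426, 0⟩,
  ⟨-988000, -156000, -1359985, 0⟩]

/-- conditions -/
def h5as : List QC :=
  [⟨-104066, 723888, 0, 0⟩, ⟨253134, -719712, 0, 0⟩, ⟨0, 0, -1000000, 470184⟩,
  ⟨0, 0, 1000000, -628865⟩, ⟨891000, -454000, 0, 514661⟩, ⟨-875000, -485000, 0, -753449⟩,
  ⟨-530000, 848000, 0, -295418⟩, ⟨669000, 743000, 0, 546574⟩, ⟨985000, -174000, 0, 634510⟩,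
  ⟨-122000, -993000, -583009, 0⟩]

/-- conditions -/
def h5az : List QC :=
  [⟨-113652, 736965, 0, 0⟩, ⟨204612, -737765, 0, 0⟩, ⟨0, 0, -1000000, 522996⟩,
  ⟨0, 0, 1000000, -653577⟩, ⟨921000, -391000, 0, 594854⟩, ⟨999000, -35000, 1210030, 0⟩,
  ⟨0, 1000000, 203661, 0⟩, ⟨602000, 799000, 0, 531269⟩, ⟨-225000, -974000, 0, -365319⟩,
  ⟨985000, -174000, 0, 678311⟩]

/-- conditions -/
def h5ea : List QC :=
  [⟨-45252, 701515, 0, 0⟩, ⟨119952, -688705, 0, 0⟩, ⟨0, 0, -1000000, 469197⟩,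
  ⟨0, 0, 1000000, -562742⟩, ⟨-602000, -799000, 0, -510694⟩, ⟨588000, 809000, 889216, 0⟩,
  ⟨978000, -208000, 0, 645100⟩, ⟨961000, 276000, 0, 676525⟩, ⟨358000, 934000, 0, 293407⟩,
  ⟨-682000, -731000, -1140942, 0⟩]

/-- conditions -/
def hA2 : List QC :=
  [⟨0, 851929, 0, 0⟩, ⟨450300, 949, 0, 0⟩, ⟨0, 0, -1000000, 59281⟩, ⟨0, 0, 1000000, -1240357⟩,
  ⟨292000, 956000, 0, 237700⟩, ⟨-866000, -500000, 0, -867961⟩, ⟨829000, 559000, 0, 216981⟩,
  ⟨-1000000, 0, -2333885, 0⟩, ⟨974000, -225000, 0, -114329⟩, ⟨-719000, 695000, -1069378, 0⟩]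

/-- conditions -/
def hPZ : List QC :=
  [⟨0, 839056, 0, 0⟩, ⟨334150, -622200, 0, 0⟩, ⟨0, 0, -1000000, 299599⟩,
  ⟨0, 0, 1000000, -1000000⟩, ⟨-719000, -695000, 0, -722857⟩, ⟨-777000, 629000, -1013003, 0⟩,
  ⟨-87000, -996000, -776181, 0⟩, ⟨-682000, 731000, -849917, 0⟩, ⟨-358000, -934000, 0, -540206⟩,
  ⟨-788000, 616000, -1033212, 0⟩]

/-- conditions -/
def hS2 : List QC :=
  [⟨0, 822649, 0, 0⟩, ⟨919632, -95060, 0, 0⟩, ⟨0, 0, -1000000, 113771⟩,
  ⟨0, 0, 1000000, -1240357⟩, ⟨407000, 914000, 0, 316729⟩, ⟨-866000, -500000, 0, -867961⟩,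
  ⟨326000, -946000, -1806488, 0⟩, ⟨-998000, 70000, -1913928, 0⟩, ⟨961000, 276000, 0, 228493⟩,
  ⟨-707000, 707000, -963691, 0⟩]

/-- conditions -/
def hS3 : List QC :=
  [⟨-284596, 680403, 0, 0⟩, ⟨919632, -95060, 0, 0⟩, ⟨0, 0, -1000000, 113771⟩,
  ⟨0, 0, 1000000, -1240357⟩, ⟨-940000, -342000, 0, -772594⟩, ⟨-921000, 391000, -1095196, 0⟩,
  ⟨326000, -946000, -1806488, 0⟩, ⟨956000, 292000, 0, 237148⟩, ⟨-643000, -766000, 0, -992098⟩,
  ⟨809000, -588000, 0, -465060⟩]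

/-- conditions -/
def hST : List QC :=
  [⟨0, 822649, 0, 0⟩, ⟨771080, -276159, 0, 0⟩, ⟨0, 0, -1000000, 113771⟩,
  ⟨0, 0, 1000000, -1000000⟩, ⟨407000, 914000, 0, 316729⟩, ⟨-809000, -588000, 0, -810786⟩,
  ⟨819000, -574000, -376704, 0⟩, ⟨-998000, 70000, -1913928, 0⟩, ⟨-719000, 695000, -987130, 0⟩,
  ⟨-682000, -731000, 0, -839332⟩]

/-- conditions -/
def hn5 : List QC :=
  [⟨0, 851929, 0, 0⟩, ⟨204612, -737765, 0, 0⟩, ⟨0, 0, -1000000, 469197⟩,
  ⟨0, 0, 1000000, -1000000⟩, ⟨-616000, -788000, 0, -629627⟩, ⟨-407000, 914000, -494744, 0⟩,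
  ⟨-588000, -809000, -1028367, 0⟩, ⟨-682000, -731000, 0, -683890⟩,
  ⟨-602000, -799000, 0, -619858⟩, ⟨-242000, -970000, 0, -377508⟩]

/-- conditions -/
def hn6 : List QC :=
  [⟨0, 851929, 0, 0⟩, ⟨164982, -778120, 0, 0⟩, ⟨0, 0, -1000000, 575185⟩,
  ⟨0, 0, 1000000, -1000000⟩, ⟨743000, -669000, 738145, 0⟩, ⟨-530000, 848000, -644261, 0⟩,
  ⟨755000, -656000, 0, 478945⟩, ⟨-485000, -875000, 0, -521748⟩, ⟨-993000, 122000, -1282412, 0⟩,
  ⟨-695000, -719000, 0, -695624⟩]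

theorem h2as_ok : okH h2as (pg 2 .s .a) = true := by decide +kernel
theorem h2aa_ok : okH h2aa (pg 2 .a .a) = true := by decide +kernel
theorem h2ea_ok : okH h2ea (pg 2 .e .a) = true := by decide +kernel
theorem h3aa_ok : okH h3aa (pg 3 .a .a) = true := by decide +kernel
theorem h3as_ok : okH h3as (pg 3 .s .a) = true := by decide +kernel
theorem h3ea_ok : okH h3ea (pg 3 .e .a) = true := by decide +kernel
theorem h4as_ok : okH h4as (pg 4 .s .a) = true := by decide +kernel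
theorem h4aa_ok : okH h4aa (pg 4 .a .a) = true := by decide +kernel
theorem h4az_ok : okH h4az (pg 4 .z .a) = true := by decide +kernel
theorem h4ea_ok : okH h4ea (pg 4 .e .a) = true := by decide +kernel
theorem h5as_ok : okH h5as (pg 5 .s .a) = true := by decide +kernel
theorem h5aa_ok : okH h5aa (pg 5 .a .a) = true := by decide +kernel
theorem h5az_ok : okH h5az (pg 5 .z .a) = true := by decide +kernel
theorem h5ea_ok : okH h5ea (pg 5 .e .a) = true := by decide +kernel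

/-- digits at least `5`, side `a` -/
def lo5 (l : SK) : ℕ := match l with | .s => 6 | _ => 5
/-- digits at least `5`, at least `6` crossings, side `a` -/
def lo6 (_ : SK) : ℕ := 6
/-- at least three crossings -/
def lo3 (l : SK) : ℕ := match l with | .a => 3 | l => lo .s l
/-- digits `1`, `2` with a side `s`: crossings -/
def hi3 (l : SK) : ℕ := match l with | .e => 3 | .a => 3 | .z => 0 | .s => 4

theorem hn5_ok : chkU hn5 .a lo5 (fun _ => 8) = true := by decide +kernel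
theorem hn6_ok : chkU hn6 .a lo6 (fun _ => 8) = true := by decide +kernel
theorem hA2_ok : chkU hA2 .a (lo .a) (fun _ => 8) = true := by decide +kernel
theorem hPZ_ok : chkU hPZ .z (lo .z) (fun _ => 8) = true := by decide +kernel
theorem hS2_ok : chkU hS2 .s (lo .s) (fun _ => 8) = true := by decide +kernel
theorem hST_ok : chkU hST .s lo3 (fun _ => 8) = true := by decide +kernel
theorem hS3_ok : chkU hS3 .s (lo .s) hi3 = true := by decide +kernel

/-! ### the ports -/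

section
set_option deprecated.oldSectionVars false
variable {K : KFam} (hK : KOK K) {d₀ B : ℕ}
set_option deprecated.oldSectionVars false
include hK

lemma portA : InH {k | ∃ d l, ROK d l .a ∧ (2 ≤ d₀ ∨ 2 ≤ d) ∧ k ∈ K.K d l .a} hA2 := by
  rintro k ⟨d, l, h1, -, h3⟩
  exact hK.inU h1 hA2_ok (lo_le h1 (by decide)) (min_le_right _ _) k h3

lemma portZ : InH {k | ∃ d l, ROK d l .z ∧ k ∈ K.K d l .z} hPZ := by
  rintro k ⟨d, l, h1, h3⟩
  exact hK.inU h1 hPZ_ok (lo_le h1 (by decide)) (min_le_right _ _) k h3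

lemma portS : InH {k | ∃ d l, ROK d l .s ∧ (3 ≤ B ∨ 3 ≤ crs d l .s) ∧ (d₀ ≤ 2 ∨ d ≤ 2) ∧
    k ∈ K.K d l .s} hS2 := by
  rintro k ⟨d, l, h1, -, -, h3⟩
  exact hK.inU h1 hS2_ok (lo_le h1 (by decide)) (min_le_right _ _) k h3

lemma portST (hB : B ≤ 2) : InH {k | ∃ d l, ROK d l .s ∧ (3 ≤ B ∨ 3 ≤ crs d l .s) ∧
    (d₀ ≤ 2 ∨ d ≤ 2) ∧ k ∈ K.K d l .s} hST := by
  rintro k ⟨d, l, h1, h2, -, h3⟩
  have h4 := lo_le h1 (by decide)
  have h5 : 3 ≤ crs d l .s := by omega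
  refine hK.inU h1 hST_ok ?_ (min_le_right _ _) k h3
  cases l
  · exact h4
  · show 3 ≤ _
    omega
  · exact h4
  · exact h4

lemma portS3 (hd : 3 ≤ d₀) : InH {k | ∃ d l, ROK d l .s ∧ (3 ≤ B ∨ 3 ≤ crs d l .s) ∧
    (d₀ ≤ 2 ∨ d ≤ 2) ∧ k ∈ K.K d l .s} hS3 := by
  rintro k ⟨d, l, h1, -, h2, h3⟩
  have h5 : d ≤ 2 := by omega
  have h6 := h1.zl
  refine hK.inU h1 hS3_ok (lo_le h1 (by decide)) ?_ k h3
  unfold crs
  cases l
  · simp only [SK.u, hi3]; omega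
  · simp only [SK.u, hi3]; omega
  · have := h6 rfl; omega
  · simp only [SK.u, hi3]; omega

end

end Pool.Agent.Work.MP_b30479_gtS.G2.CN

end

section

/-!
# Conditions for the ring values, twelve lines each

`k…`: one ring (crossings and sides), `n…`, `m…`, `oN…`: many rings, `P…`: ports.
-/

set_option deprecated.oldSectionVars true

namespace Pool.Agent.Work.MP_b30479_gtS.G2.CN.TD

open Complex SR

/-- conditions -/
def k4aa : List QC :=
  [⟨-112426, 699432, 0, 0⟩, ⟨304794, -709992, 0, 0⟩, ⟨0, 0, 1000000, -624020⟩,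
  ⟨0, 0, -1000000, 418465⟩, ⟨934000, -358000, 0, 519806⟩, ⟨-921000, -391000, 0, -775681⟩,
  ⟨309000, 951000, 0, 315432⟩, ⟨-391000, 921000, 0, -170113⟩, ⟨999000, -52000, 0, 625185⟩,
  ⟨-309000, -951000, -891468, 0⟩, ⟨-956000, -292000, 0, -784716⟩, ⟨500000, 866000, 0, 431560⟩]

/-- conditions -/
def k4az : List QC :=
  [⟨-202304, 746928, 0, 0⟩, ⟨323468, -664995, 0, 0⟩, ⟨0, 0, 1000000, -598829⟩,
  ⟨0, 0, -1000000, 420767⟩, ⟨961000, -276000, 0, 529658⟩, ⟨-438000, -899000, 0, -584987⟩,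
  ⟨559000, 829000, 0, 510752⟩, ⟨-122000, -993000, -741137, 0⟩, ⟨1000000, 0, 0, 615384⟩]

/-- conditions -/
def k4zz : List QC :=
  [⟨-285610, 685464, 0, 0⟩, ⟨334150, -622200, 0, 0⟩, ⟨0, 0, 1000000, -599107⟩,
  ⟨0, 0, -1000000, 457419⟩, ⟨-358000, -934000, 0, -540206⟩, ⟨70000, 998000, 0, 328215⟩,
  ⟨-375000, -927000, -1091829, 0⟩]

/-- conditions -/
def k5as : List QC :=
  [⟨-104066, 723888, 0, 0⟩, ⟨253134, -719712, 0, 0⟩, ⟨0, 0, 1000000, -628865⟩,
  ⟨0, 0, -1000000, 470184⟩, ⟨-500000, -866000, -1022330, 0⟩, ⟨-875000, -485000, 0, -753449⟩,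
  ⟨242000, 970000, 516272, 0⟩, ⟨326000, 946000, 0, 331679⟩, ⟨-819000, -574000, -1345228, 0⟩,
  ⟨-139000, -990000, -603469, 0⟩, ⟨875000, 485000, 0, 653761⟩]

/-- conditions -/
def k5zs : List QC :=
  [⟨-175968, 704900, 0, 0⟩, ⟨259336, -685248, 0, 0⟩, ⟨0, 0, 1000000, -603178⟩,
  ⟨0, 0, -1000000, 475295⟩, ⟨-485000, -875000, 0, -565889⟩, ⟨-602000, -799000, -1176821, 0⟩,
  ⟨866000, 500000, 0, 672207⟩, ⟨-17000, 1000000, 306303, 0⟩, ⟨-883000, -469000, 0, -755867⟩,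
  ⟨-156000, -988000, -683071, 0⟩]

/-- conditions -/
def k6ss : List QC :=
  [⟨-100108, 741405, 0, 0⟩, ⟨205632, -732335, 0, 0⟩, ⟨0, 0, 1000000, -639210⟩,
  ⟨0, 0, -1000000, 516581⟩, ⟨-788000, -616000, 0, -704417⟩, ⟨-656000, -755000, -1119569, 0⟩,
  ⟨-588000, 809000, 0, -355389⟩, ⟨819000, 574000, 0, 655674⟩, ⟨-866000, -500000, -1316928, 0⟩,
  ⟨-309000, -951000, -732252, 0⟩]

/-- conditions -/
def k4ea : List QC :=
  [⟨-78000, 605900, 0, 0⟩, ⟨198640, -566796, 0, 0⟩, ⟨0, 0, 1000000, -448902⟩,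
  ⟨0, 0, -1000000, 322174⟩, ⟨-629000, -777000, 0, -512132⟩, ⟨391000, 921000, 827293, 0⟩,
  ⟨-755000, -656000, -1570343, 0⟩, ⟨208000, 978000, 0, 198737⟩, ⟨966000, 259000, 0, 567528⟩]

/-- conditions -/
def k4ez : List QC :=
  [⟨-164192, 524745, 0, 0⟩, ⟨193248, -518400, 0, 0⟩, ⟨0, 0, 1000000, -364088⟩,
  ⟨0, 0, -1000000, 299599⟩, ⟨52000, -999000, 0, -167785⟩, ⟨438000, 899000, 1173831, 0⟩]

/-- conditions -/
def k5es : List QC :=
  [⟨-78498, 639200, 0, 0⟩, ⟨149530, -610344, 0, 0⟩, ⟨0, 0, 1000000, -458736⟩,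
  ⟨0, 0, -1000000, 375309⟩, ⟨-602000, -799000, 0, -493561⟩, ⟨-777000, 629000, 0, -447284⟩,
  ⟨656000, 755000, 0, 472895⟩, ⟨1000000, 0, 0, 602392⟩]

/-- conditions -/
def k5aa : List QC :=
  [⟨-72160, 772719, 0, 0⟩, ⟨197792, -767145, 0, 0⟩, ⟨0, 0, 1000000, -681738⟩,
  ⟨0, 0, -1000000, 540283⟩, ⟨-891000, -454000, 0, -775923⟩, ⟨-695000, -719000, -1100636, 0⟩,
  ⟨375000, 927000, 585077, 0⟩, ⟨777000, 629000, 0, 619234⟩, ⟨-454000, -891000, -844071, 0⟩]

/-- conditions -/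
def k5az : List QC :=
  [⟨-113652, 736965, 0, 0⟩, ⟨204612, -737765, 0, 0⟩, ⟨0, 0, 1000000, -653577⟩,
  ⟨0, 0, -1000000, 522996⟩, ⟨-731000, -682000, -1176341, 0⟩, ⟨-906000, -423000, 0, -779401⟩,
  ⟨695000, 719000, 0, 587151⟩, ⟨17000, 1000000, 224648, 0⟩, ⟨-342000, -940000, 0, -448289⟩,
  ⟨-530000, -848000, -964506, 0⟩, ⟨-839000, -545000, -1276628, 0⟩]

/-- conditions -/
def k5ez : List QC :=
  [⟨-96406, 664008, 0, 0⟩, ⟨116582, -669000, 0, 0⟩, ⟨0, 0, 1000000, -491037⟩,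
  ⟨0, 0, -1000000, 443381⟩, ⟨259000, 966000, 587458, 0⟩]

/-- conditions -/
def k5ea : List QC :=
  [⟨-45252, 701515, 0, 0⟩, ⟨119952, -688705, 0, 0⟩, ⟨0, 0, 1000000, -562742⟩,
  ⟨0, 0, -1000000, 469197⟩, ⟨-643000, -766000, 0, -538172⟩, ⟨602000, 799000, 906430, 0⟩,
  ⟨-766000, -643000, -1240737, 0⟩, ⟨966000, 259000, 0, 678715⟩, ⟨602000, 799000, 0, 455014⟩,
  ⟨-927000, -375000, -1411298, 0⟩, ⟨122000, 993000, 262559, 0⟩]

/-- conditions -/
def k6as : List QC :=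
  [⟨-67488, 787100, 0, 0⟩, ⟨164982, -778120, 0, 0⟩, ⟨0, 0, 1000000, -692925⟩,
  ⟨0, 0, -1000000, 575185⟩, ⟨-829000, -559000, 0, -737809⟩, ⟨-602000, -799000, -959225, 0⟩,
  ⟨375000, 927000, 569661, 0⟩, ⟨629000, 777000, 0, 539535⟩, ⟨-946000, -326000, -1292808, 0⟩]

/-- conditions -/
def k6es : List QC :=
  [⟨-46440, 738871, 0, 0⟩, ⟨93280, -716079, 0, 0⟩, ⟨0, 0, 1000000, -575446⟩,
  ⟨0, 0, -1000000, 510848⟩, ⟨-515000, -857000, 0, -450077⟩, ⟨788000, 616000, 1110545, 0⟩,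
  ⟨788000, 616000, 0, 599886⟩, ⟨-921000, -391000, -1343236, 0⟩, ⟨982000, 191000, 0, 712954⟩]

/-- conditions -/
def k6zs : List QC :=
  [⟨-106384, 756663, 0, 0⟩, ⟨166060, -754851, 0, 0⟩, ⟨0, 0, 1000000, -661832⟩,
  ⟨0, 0, -1000000, 565240⟩, ⟨-788000, -616000, 0, -713605⟩, ⟨326000, 946000, 583083, 0⟩,
  ⟨-883000, -469000, -1262492, 0⟩]

/-- conditions -/
def k7ss : List QC :=
  [⟨-62720, 801591, 0, 0⟩, ⟨137214, -787952, 0, 0⟩, ⟨0, 0, 1000000, -698846⟩,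
  ⟨0, 0, -1000000, 608907⟩, ⟨-766000, -643000, 0, -694207⟩, ⟨530000, 848000, 738922, 0⟩,
  ⟨766000, 643000, 0, 649628⟩, ⟨1000000, 0, 0, 775065⟩]

/-- conditions -/
def k2aa : List QC :=
  [⟨-341496, 658953, 0, 0⟩, ⟨630784, -294912, 0, 0⟩, ⟨0, 0, 1000000, -1009419⟩,
  ⟨0, 0, -1000000, 186936⟩, ⟨-970000, -242000, 0, -735478⟩, ⟨1000000, 17000, 0, 280337⟩,
  ⟨70000, 998000, 0, 306122⟩, ⟨956000, -292000, 188229, 0⟩, ⟨-326000, 946000, 0, 108236⟩,
  ⟨469000, 883000, 0, 419935⟩, ⟨993000, -122000, 0, 215881⟩, ⟨-940000, -342000, 0, -778605⟩]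

/-- conditions -/
def k3as : List QC :=
  [⟨-314130, 686576, 0, 0⟩, ⟨613842, -471200, 0, 0⟩, ⟨0, 0, 1000000, -689121⟩,
  ⟨0, 0, -1000000, 263399⟩, ⟨974000, -225000, 0, 280312⟩, ⟨-208000, 978000, 0, 164411⟩,
  ⟨-946000, -326000, 0, -761338⟩, ⟨326000, 946000, 0, 413380⟩, ⟨-819000, -574000, 0, -803704⟩,
  ⟨839000, 545000, 0, 512318⟩, ⟨438000, -899000, 0, -352536⟩, ⟨-966000, -259000, 0, -746300⟩]

/-- conditions -/
def k2as : List QC :=
  [⟨-587018, 585480, 0, 0⟩, ⟨919632, -95060, 0, 0⟩, ⟨0, 0, 1000000, -1240357⟩,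
  ⟨0, 0, -1000000, 201670⟩, ⟨35000, 999000, 880778, 0⟩, ⟨87000, 996000, 0, 418505⟩,
  ⟨961000, 276000, 0, 228493⟩, ⟨-616000, 788000, 0, 101510⟩, ⟨946000, 326000, 455634, 0⟩,
  ⟨-629000, -777000, 0, -997733⟩, ⟨985000, -174000, -80683, 0⟩, ⟨-961000, -276000, 0, -729554⟩]

/-- conditions -/
def k3ea : List QC :=
  [⟨-141024, 448868, 0, 0⟩, ⟨333144, -373417, 0, 0⟩, ⟨0, 0, 1000000, -328748⟩,
  ⟨0, 0, -1000000, 161646⟩, ⟨-588000, -809000, 0, -493908⟩, ⟨995000, -105000, 0, 326792⟩,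
  ⟨-682000, 731000, 0, -203974⟩, ⟨309000, 951000, 0, 255452⟩, ⟨966000, 259000, 0, 399254⟩,
  ⟨-656000, -755000, 0, -512115⟩, ⟨-559000, -829000, 0, -487055⟩, ⟨52000, -999000, -1280703, 0⟩]

/-- conditions -/
def k2ea : List QC :=
  [⟨-239564, 244923, 0, 0⟩, ⟨450300, 949, 0, 0⟩, ⟨0, 0, 1000000, -284112⟩,
  ⟨0, 0, -1000000, 59281⟩, ⟨829000, 559000, 0, 216981⟩, ⟨0, 1000000, 0, 212080⟩,
  ⟨-208000, -978000, 0, -501515⟩, ⟨-839000, 545000, 0, -76266⟩, ⟨946000, 326000, 0, 145900⟩,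
  ⟨-391000, 921000, 0, 123411⟩, ⟨-358000, -934000, 0, -510790⟩, ⟨-105000, -995000, 0, -500258⟩]

/-- conditions -/
def k3ss : List QC :=
  [⟨-493580, 640101, 0, 0⟩, ⟨771080, -276159, 0, 0⟩, ⟨0, 0, 1000000, -796351⟩,
  ⟨0, 0, -1000000, 295410⟩, ⟨-17000, 1000000, 0, 442433⟩, ⟨-766000, -643000, 0, -818558⟩,
  ⟨891000, 454000, 0, 474607⟩, ⟨-707000, -707000, 0, -831946⟩, ⟨669000, -743000, 0, -388683⟩,
  ⟨848000, -530000, -287683, 0⟩, ⟨-87000, 996000, 0, 408416⟩, ⟨-956000, -292000, -1433520, 0⟩]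

/-- conditions -/
def k4ss : List QC :=
  [⟨-284596, 680403, 0, 0⟩, ⟨473360, -509151, 0, 0⟩, ⟨0, 0, 1000000, -598024⟩,
  ⟨0, 0, -1000000, 339386⟩, ⟨0, 1000000, 0, 275310⟩, ⟨225000, -974000, -723175, 0⟩,
  ⟨-799000, -602000, 0, -753480⟩, ⟨940000, 342000, 0, 568696⟩, ⟨602000, -799000, 0, -71975⟩,
  ⟨-122000, 993000, 0, 197891⟩, ⟨-731000, -682000, 0, -745196⟩, ⟨-839000, -545000, 0, -761500⟩]

/-- conditions -/
def k3es : List QC :=
  [⟨-304560, 364679, 0, 0⟩, ⟨370600, -181425, 0, 0⟩, ⟨0, 0, 1000000, -250745⟩,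
  ⟨0, 0, -1000000, 113771⟩, ⟨-326000, -946000, 0, -443129⟩, ⟨999000, 52000, 0, 200514⟩,
  ⟨-326000, 946000, 0, 150503⟩, ⟨-469000, -883000, -2885813, 0⟩, ⟨-545000, 839000, 0, 56113⟩,
  ⟨-156000, 988000, 1070459, 0⟩, ⟨-391000, -921000, 0, -453644⟩, ⟨-292000, -956000, 0, -437875⟩]

/-- conditions -/
def n3Z : List QC :=
  [⟨0, 1000000, 0, 0⟩, ⟨456762, -571160, 0, 0⟩, ⟨0, 0, 1000000, -1000000⟩,
  ⟨0, 0, -1000000, 289793⟩, ⟨-777000, -629000, 0, -826493⟩, ⟨309000, 951000, 0, 253612⟩,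
  ⟨978000, -208000, 0, 426058⟩, ⟨875000, 485000, 0, 535030⟩, ⟨-866000, -500000, 0, -873751⟩,
  ⟨292000, -956000, -506104, 0⟩, ⟨-682000, -731000, 0, -796060⟩, ⟨-530000, -848000, -1542788, 0⟩]

/-- conditions -/
def nZz : List QC :=
  [⟨0, 1000000, 0, 0⟩, ⟨334150, -622200, 0, 0⟩, ⟨0, 0, 1000000, -1000000⟩,
  ⟨0, 0, -1000000, 299599⟩, ⟨-695000, -719000, 0, -719342⟩, ⟨515000, 857000, 0, 410956⟩,
  ⟨809000, -588000, 0, 305755⟩, ⟨940000, -342000, 937844, 0⟩, ⟨-766000, -643000, 0, -769730⟩,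
  ⟨-669000, 743000, -853926, 0⟩, ⟨-559000, 829000, -694748, 0⟩, ⟨-766000, 643000, -1020990, 0⟩]

/-- conditions -/
def n2 : List QC :=
  [⟨-314130, 686576, 0, 0⟩, ⟨630784, -294912, 0, 0⟩, ⟨0, 0, 1000000, -1009419⟩,
  ⟨0, 0, -1000000, 186936⟩, ⟨-961000, -276000, 0, -764466⟩, ⟨105000, 995000, 0, 319075⟩,
  ⟨998000, 70000, 0, 303641⟩, ⟨990000, -139000, 356560, 0⟩, ⟨-208000, 978000, 0, 164411⟩,
  ⟨-906000, -423000, 0, -825909⟩, ⟨643000, -766000, -621775, 0⟩, ⟨454000, 891000, 0, 418202⟩]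

/-- conditions -/
def m5a : List QC :=
  [⟨-67488, 787100, 0, 0⟩, ⟨204612, -737765, 0, 0⟩, ⟨0, 0, 1000000, -692925⟩,
  ⟨0, 0, -1000000, 522996⟩, ⟨-848000, -530000, 0, -755369⟩, ⟨-656000, -755000, -1100748, 0⟩,
  ⟨934000, 358000, 0, 710755⟩, ⟨375000, 927000, 569661, 0⟩, ⟨500000, 866000, 0, 436380⟩,
  ⟨-857000, -515000, -1292882, 0⟩, ⟨-899000, -438000, 0, -783754⟩, ⟨-276000, -961000, 0, -401811⟩]

/-- conditions -/
def oN6a : List QC :=
  [⟨0, 1000000, 0, 0⟩, ⟨134100, -793611, 0, 0⟩, ⟨0, 0, 1000000, -1000000⟩,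
  ⟨0, 0, -1000000, 616906⟩, ⟨695000, -719000, 679147, 0⟩, ⟨914000, 407000, 0, 747706⟩,
  ⟨-809000, -588000, -1117926, 0⟩, ⟨-695000, -719000, 0, -695624⟩, ⟨-391000, -921000, 0, -441312⟩,
  ⟨891000, 454000, 0, 732432⟩]

/-- conditions -/
def oN8 : List QC :=
  [⟨0, 1000000, 0, 0⟩, ⟨94328, -819945, 0, 0⟩, ⟨0, 0, 1000000, -1000000⟩,
  ⟨0, 0, -1000000, 676751⟩, ⟨-695000, -719000, 0, -695624⟩, ⟨-995000, -105000, -1214832, 0⟩,
  ⟨52000, -999000, 0, -51902⟩]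

/-- conditions -/
def PA1 : List QC :=
  [⟨0, 1000000, 0, 0⟩, ⟨450300, 949, 0, 0⟩, ⟨0, 0, 1000000, -1009419⟩, ⟨0, 0, -1000000, 59281⟩,
  ⟨292000, 956000, 0, 237700⟩, ⟨616000, -788000, 0, -415027⟩, ⟨829000, 559000, 0, 216981⟩,
  ⟨-899000, -438000, 0, -954721⟩, ⟨-819000, -574000, 0, -953929⟩, ⟨-993000, 122000, -2424594, 0⟩,
  ⟨946000, 326000, 0, 145900⟩, ⟨-921000, -391000, -3426359, 0⟩]

/-- conditions -/
def PA2 : List QC :=
  [⟨0, 1000000, 0, 0⟩, ⟨450300, 949, 0, 0⟩, ⟨0, 0, 1000000, -1240357⟩, ⟨0, 0, -1000000, 59281⟩,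
  ⟨292000, 956000, 0, 237700⟩, ⟨-857000, -515000, 0, -956969⟩, ⟨839000, 545000, 0, 212909⟩,
  ⟨990000, 139000, 259649, 0⟩, ⟨-719000, -695000, 0, -968845⟩, ⟨-970000, -242000, 0, -970000⟩,
  ⟨946000, 326000, 0, 145900⟩, ⟨-988000, 156000, -2358113, 0⟩]

/-- conditions -/
def PZ : List QC :=
  [⟨0, 1000000, 0, 0⟩, ⟨334150, -622200, 0, 0⟩, ⟨0, 0, 1000000, -1000000⟩,
  ⟨0, 0, -1000000, 299599⟩, ⟨-695000, -719000, 0, -719342⟩, ⟨515000, 857000, 0, 410956⟩,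
  ⟨809000, -588000, 0, 305755⟩, ⟨940000, -342000, 937844, 0⟩, ⟨-766000, -643000, 0, -769730⟩,
  ⟨-669000, 743000, -853926, 0⟩, ⟨-559000, 829000, -694748, 0⟩, ⟨-766000, 643000, -1020990, 0⟩]

/-- conditions -/
def PS2 : List QC :=
  [⟨0, 1000000, 0, 0⟩, ⟨919632, -95060, 0, 0⟩, ⟨0, 0, 1000000, -1240357⟩,
  ⟨0, 0, -1000000, 113771⟩, ⟨407000, 914000, 0, 316729⟩, ⟨906000, 423000, 0, 292250⟩,
  ⟨-848000, -530000, 0, -955270⟩, ⟨-669000, -743000, 0, -981646⟩, ⟨-940000, -342000, 0, -962819⟩,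
  ⟨946000, 326000, 455634, 0⟩, ⟨-961000, 276000, -1768621, 0⟩, ⟨-695000, 719000, -967585, 0⟩]

/-- conditions -/
def PS3 : List QC :=
  [⟨-284596, 680403, 0, 0⟩, ⟨919632, -95060, 0, 0⟩, ⟨0, 0, 1000000, -1240357⟩,
  ⟨0, 0, -1000000, 113771⟩, ⟨-927000, -375000, 0, -814071⟩, ⟨-87000, 996000, 0, 220374⟩,
  ⟨906000, 423000, 0, 292250⟩, ⟨-643000, -766000, 0, -992098⟩, ⟨799000, -602000, 0, -480902⟩,
  ⟨-982000, -191000, 0, -758422⟩, ⟨999000, -35000, 0, 55778⟩, ⟨743000, 669000, 0, 335660⟩]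

/-- conditions -/
def PST : List QC :=
  [⟨0, 1000000, 0, 0⟩, ⟨771080, -276159, 0, 0⟩, ⟨0, 0, 1000000, -1000000⟩,
  ⟨0, 0, -1000000, 113771⟩, ⟨407000, 914000, 0, 316729⟩, ⟨-719000, -695000, 0, -875900⟩,
  ⟨978000, -208000, 0, 100348⟩, ⟨-857000, -515000, 0, -900147⟩, ⟨-559000, -829000, 0, -874257⟩,
  ⟨982000, 191000, 0, 238637⟩, ⟨-927000, -375000, 0, -927000⟩, ⟨-1000000, -17000, -2216676, 0⟩]

theorem k4aa_ok : okH k4aa (pg 4 .a .a) = true := by decide +kernel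
theorem k4az_ok : okH k4az (pg 4 .a .z) = true := by decide +kernel
theorem k4zz_ok : okH k4zz (pg 4 .z .z) = true := by decide +kernel
theorem k5as_ok : okH k5as (pg 5 .a .s) = true := by decide +kernel
theorem k5zs_ok : okH k5zs (pg 5 .z .s) = true := by decide +kernel
theorem k6ss_ok : okH k6ss (pg 6 .s .s) = true := by decide +kernel
theorem k4ea_ok : okH k4ea (pg 4 .e .a) = true := by decide +kernel
theorem k4ez_ok : okH k4ez (pg 4 .e .z) = true := by decide +kernel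
theorem k5es_ok : okH k5es (pg 5 .e .s) = true := by decide +kernel
theorem k5aa_ok : okH k5aa (pg 5 .a .a) = true := by decide +kernel
theorem k5az_ok : okH k5az (pg 5 .a .z) = true := by decide +kernel
theorem k5ez_ok : okH k5ez (pg 5 .e .z) = true := by decide +kernel
theorem k5ea_ok : okH k5ea (pg 5 .e .a) = true := by decide +kernel
theorem k6as_ok : okH k6as (pg 6 .a .s) = true := by decide +kernel
theorem k6es_ok : okH k6es (pg 6 .e .s) = true := by decide +kernel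
theorem k6zs_ok : okH k6zs (pg 6 .z .s) = true := by decide +kernel
theorem k7ss_ok : okH k7ss (pg 7 .s .s) = true := by decide +kernel
theorem k2aa_ok : okH k2aa (pg 2 .a .a) = true := by decide +kernel
theorem k3as_ok : okH k3as (pg 3 .a .s) = true := by decide +kernel
theorem k2as_ok : okH k2as (pg 2 .a .s) = true := by decide +kernel
theorem k3ea_ok : okH k3ea (pg 3 .e .a) = true := by decide +kernel
theorem k2ea_ok : okH k2ea (pg 2 .e .a) = true := by decide +kernel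
theorem k3ss_ok : okH k3ss (pg 3 .s .s) = true := by decide +kernel
theorem k4ss_ok : okH k4ss (pg 4 .s .s) = true := by decide +kernel
theorem k3es_ok : okH k3es (pg 3 .e .s) = true := by decide +kernel

/-- numbers of crossings: digits at least `3` and rings, not the end `3` -/
def lo3Z (l : SK) : ℕ := match l with | .e => 4 | .a => 3 | .z => 4 | .s => 4
/-- digit `2` -/
def lo2 (l : SK) : ℕ := match l with | .e => 9 | .a => 2 | .z => 9 | .s => 3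
def hi2 (l : SK) : ℕ := match l with | .e => 0 | .a => 2 | .z => 0 | .s => 3
/-- digit `5` -/
def lo5a (l : SK) : ℕ := match l with | .e => 9 | .a => 5 | .z => 5 | .s => 6
def hi5a (l : SK) : ℕ := match l with | .e => 0 | .a => 5 | .z => 5 | .s => 6
/-- digits at least `6` -/
def lo6a (l : SK) : ℕ := match l with | .e => 9 | .a => 6 | .z => 6 | .s => 7
/-- digits at least `8` -/
def lo8a (_ : SK) : ℕ := 8
/-- ports of a digit `1` -/
def loP1 (l : SK) : ℕ := match l with | .e => 2 | .a => 2 | .z => 4 | .s => 3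

theorem n3Z_ok : chkU n3Z .a lo3Z (fun _ => 8) = true := by decide +kernel
theorem nZz_ok : chkU nZz .z (lo .z) (fun _ => 8) = true := by decide +kernel
theorem n2_ok : chkU n2 .a lo2 hi2 = true := by decide +kernel
theorem m5a_ok : chkU m5a .a lo5a hi5a = true := by decide +kernel
theorem oN6a_ok : chkU oN6a .a lo6a (fun _ => 8) = true := by decide +kernel
theorem oN8_ok : chkU oN8 .a lo8a (fun _ => 8) = true := by decide +kernel
theorem PA1_ok : chkU PA1 .a loP1 (fun _ => 8) = true := by decide +kernel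
theorem PA2_ok : chkU PA2 .a (lo .a) (fun _ => 8) = true := by decide +kernel
theorem PZ_ok : chkU PZ .z (lo .z) (fun _ => 8) = true := by decide +kernel
theorem PS2_ok : chkU PS2 .s (lo .s) (fun _ => 8) = true := by decide +kernel
theorem PST_ok : chkU PST .s lo3 (fun _ => 8) = true := by decide +kernel
theorem PS3_ok : chkU PS3 .s (lo .s) hi3 = true := by decide +kernel

/-! ### the ports -/

section
set_option deprecated.oldSectionVars false
variable {K : KFam} (hK : KOK K) {d₀ B : ℕ}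
set_option deprecated.oldSectionVars false
include hK

lemma portA : InH {k | ∃ d l, ROK d l .a ∧ (2 ≤ d₀ ∨ 2 ≤ d) ∧ k ∈ K.K d l .a} PA2 := by
  rintro k ⟨d, l, h1, -, h3⟩
  exact hK.inU h1 PA2_ok (lo_le h1 (by decide)) (min_le_right _ _) k h3

lemma portA1 (h : d₀ ≤ 1) :
    InH {k | ∃ d l, ROK d l .a ∧ (2 ≤ d₀ ∨ 2 ≤ d) ∧ k ∈ K.K d l .a} PA1 := by
  rintro k ⟨d, l, h1, h2, h3⟩
  have h4 := lo_le h1 (by decide)
  have h5 : 2 ≤ d := by omega
  refine hK.inU h1 PA1_ok ?_ (min_le_right _ _) k h3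
  cases l
  · exact h4
  · exact h4
  · exact h4
  · show 3 ≤ _
    unfold crs
    simp only [SK.u]
    omega

lemma portZ : InH {k | ∃ d l, ROK d l .z ∧ k ∈ K.K d l .z} PZ := by
  rintro k ⟨d, l, h1, h3⟩
  exact hK.inU h1 PZ_ok (lo_le h1 (by decide)) (min_le_right _ _) k h3

lemma portS : InH {k | ∃ d l, ROK d l .s ∧ (3 ≤ B ∨ 3 ≤ crs d l .s) ∧ (d₀ ≤ 2 ∨ d ≤ 2) ∧
    k ∈ K.K d l .s} PS2 := by
  rintro k ⟨d, l, h1, -, -, h3⟩
  exact hK.inU h1 PS2_ok (lo_le h1 (by decide)) (min_le_right _ _) k h3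

lemma portST (hB : B ≤ 2) : InH {k | ∃ d l, ROK d l .s ∧ (3 ≤ B ∨ 3 ≤ crs d l .s) ∧
    (d₀ ≤ 2 ∨ d ≤ 2) ∧ k ∈ K.K d l .s} PST := by
  rintro k ⟨d, l, h1, h2, -, h3⟩
  have h4 := lo_le h1 (by decide)
  have h5 : 3 ≤ crs d l .s := by omega
  refine hK.inU h1 PST_ok ?_ (min_le_right _ _) k h3
  cases l
  · exact h4
  · show 3 ≤ _
    omega
  · exact h4
  · exact h4

lemma portS3 (hd : 3 ≤ d₀) : InH {k | ∃ d l, ROK d l .s ∧ (3 ≤ B ∨ 3 ≤ crs d l .s) ∧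
    (d₀ ≤ 2 ∨ d ≤ 2) ∧ k ∈ K.K d l .s} PS3 := by
  rintro k ⟨d, l, h1, -, h2, h3⟩
  have h5 : d ≤ 2 := by omega
  have h6 := h1.zl
  refine hK.inU h1 PS3_ok (lo_le h1 (by decide)) ?_ k h3
  unfold crs
  cases l
  · simp only [SK.u, hi3]; omega
  · simp only [SK.u, hi3]; omega
  · have := h6 rfl; omega
  · simp only [SK.u, hi3]; omega

end

end Pool.Agent.Work.MP_b30479_gtS.G2.CN.TD

end
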