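import Pool.Agent.Work.MP_b30479_gt.TBS.G2.SZa
import Pool.Agent.Work.MP_b30479_gt.TBS.G2.SWordL
import Pool.Agent.Work.MP_b30479_gt.TBS.G2.CN.HPoly

/-!
# Ring variables: boxes and bounds of the real part
-/

set_option deprecated.oldSectionVars true

namespace Pool.Agent.Work.MP_b30479_gtS.G2.CN.M4

open Complex SR NumIs

/-! ### the table -/

def z4 : ZD := ⟨2260, 1440, 1045, 5751129, 8089297, 11117065⟩
def z4e : ZD := ⟨2480, 1860, 650, 5062832, 6956867, 10422818⟩
def z5 : ZD := ⟨1940, 1270, 725, 6723216, 8490826, 10527803⟩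
def z5e : ZD := ⟨2060, 1580, 430, 6364761, 7731970, 10183600⟩
def z6 : ZD := ⟨1680, 1090, 520, 7463638, 8872514, 10269255⟩
def z6e : ZD := ⟨1740, 1360, 300, 7297901, 8282927, 10089088⟩
def z7 : ZD := ⟨1500, 970, 400, 7938928, 9099759, 10158745⟩
def z7e : ZD := ⟨1550, 1180, 220, 7810418, 8687564, 10047843⟩
def u4ea : UD := ⟨2345, 5486179⟩
def u4es : UD := ⟨2185, 5983155⟩
def u5e : UD := ⟨1950, 6693691⟩
def u4sz : UD := ⟨2030, 6455182⟩
def u4s : UD := ⟨2000, 6545086⟩
def u4 : UD := ⟨2200, 5936908⟩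

theorem z4_ok : z4.ok = true := by decide +kernel
theorem z4e_ok : z4e.ok = true := by decide +kernel
theorem z5_ok : z5.ok = true := by decide +kernel
theorem z5e_ok : z5e.ok = true := by decide +kernel
theorem z6_ok : z6.ok = true := by decide +kernel
theorem z6e_ok : z6e.ok = true := by decide +kernel
theorem z7_ok : z7.ok = true := by decide +kernel
theorem z7e_ok : z7e.ok = true := by decide +kernel
theorem u4ea_ok : u4ea.ok = true := by decide +kernel
theorem u4es_ok : u4es.ok = true := by decide +kernel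
theorem u5e_ok : u5e.ok = true := by decide +kernel
theorem u4sz_ok : u4sz.ok = true := by decide +kernel
theorem u4s_ok : u4s.ok = true := by decide +kernel
theorem u4_ok : u4.ok = true := by decide +kernel

/-- the data for a digit; `l`: the other side -/
def zd (d : ℕ) (l : SK) : ZD :=
  match l with
  | .e => if d = 4 then z4e else if d = 5 then z5e else if d = 6 then z6e else z7e
  | _ => if d = 4 then z4 else if d = 5 then z5 else if d = 6 then z6 else z7

theorem zd_ok (d : ℕ) (l : SK) : (zd d l).ok = true := by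
  cases l <;> simp only [zd] <;> split_ifs <;> decide +kernel

/-- all rings with at most seven crossings and digit at least `4` -/
noncomputable def chkZ : Bool :=
  [SK.a, SK.z, SK.s].all fun r => [SK.e, SK.a, SK.z, SK.s].all fun l => (List.range 8).all fun B =>
    Nat.blt (B - l.u - r.u) 4 || (zd (B - l.u - r.u) l).pol (pg B l r)

theorem chkZ_ok : chkZ = true := by decide +kernel

lemma pol_of {d : ℕ} {l r : SK} (hr : r ≠ .e) (h4 : 4 ≤ d) (h7 : crs d l r ≤ 7) :
    (zd d l).pol (pg (crs d l r) l r) = true := by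
  have h1 := List.all_eq_true.1 chkZ_ok r (by cases r <;> simp_all)
  have h2 := List.all_eq_true.1 h1 l (by cases l <;> simp)
  have h3 := List.all_eq_true.1 h2 (crs d l r) (List.mem_range.2 (by omega))
  have e : crs d l r - l.u - r.u = d := by
    unfold crs
    omega
  rw [e, Bool.or_eq_true, Nat.blt_eq] at h3
  rcases h3 with h3 | h3
  · omega
  · exact h3

/-- upper bounds -/
def chkU4 : Bool :=
  [SK.a, SK.z, SK.s].all fun r => [SK.a, SK.z, SK.s].all fun l => polyF 1 u4.c (pg (crs 4 l r) l r)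

theorem chkU4_ok : chkU4 = true := by decide +kernel

theorem p4ea : polyF 1 u4ea.c (pg 4 .e .a) = true := by decide +kernel
theorem p4es : polyF 1 u4es.c (pg 5 .e .s) = true := by decide +kernel
theorem p5ea : polyF 1 u5e.c (pg 5 .e .a) = true := by decide +kernel
theorem p5es : polyF 1 u5e.c (pg 6 .e .s) = true := by decide +kernel
theorem p4sz : polyF 1 u4sz.c (pg 5 .s .z) = true := by decide +kernel
theorem p4sa : polyF 1 u4s.c (pg 5 .s .a) = true := by decide +kernel
theorem p4ss : polyF 1 u4s.c (pg 6 .s .s) = true := by decide +kernel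

/-! ### rings -/

lemma zeta_bd {w : ℂ} {a b c : ℝ} (h1 : a ≤ w.re / Real.pi) (h2 : w.re / Real.pi ≤ b)
    (h3 : w.im < 0) (h4 : -w.im / Real.pi ≤ c) : -b ≤ (zeta w).re ∧ (zeta w).re ≤ -a ∧
      0 < (zeta w).im ∧ (zeta w).im ≤ c := by
  have e1 : (zeta w).re = -(w.re / Real.pi) := by
    unfold zeta
    rw [Complex.div_ofReal_re, Complex.neg_re, neg_div]
  have e2 : (zeta w).im = -w.im / Real.pi := by
    unfold zeta
    rw [Complex.div_ofReal_im, Complex.neg_im]
  rw [e1, e2]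
  exact ⟨by linarith only [h2], by linarith only [h1], div_pos (by linarith only [h3]) Real.pi_pos, h4⟩

lemma zb_num {d : ℕ} {l : SK} (h4 : 4 ≤ d) (h7 : d ≤ 7) :
    (zbox d (decide (l = .e))).x0 ≤ -(((zd d l).n1 : ℝ) / 10000) ∧
    -(((zd d l).n0 : ℝ) / 10000) ≤ (zbox d (decide (l = .e))).x1 ∧
    (zbox d (decide (l = .e))).t0 ≤ 0 ∧
    ((zd d l).m : ℝ) / 10000 ≤ (zbox d (decide (l = .e))).t1 := by
  have hd : d = 4 ∨ d = 5 ∨ d = 6 ∨ d = 7 := by omega
  rcases hd with rfl | rfl | rfl | rfl <;> cases l <;>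
    simp only [show decide (SK.a = SK.e) = false from rfl,
      show decide (SK.z = SK.e) = false from rfl, show decide (SK.s = SK.e) = false from rfl] <;>
    norm_num [zd, z4, z5, z6, z7, z4e, z5e, z6e, z7e, zbox]

lemma zbox_of {d : ℕ} {l : SK} (h4 : 4 ≤ d) (h7 : d ≤ 7) {w : ℂ}
    (h : ((zd d l).n0 : ℝ) / 10000 ≤ w.re / Real.pi ∧ w.re / Real.pi ≤ (zd d l).n1 / 10000 ∧
      w.im < 0 ∧ -w.im / Real.pi ≤ (zd d l).m / 10000) :
    (zbox d (decide (l = .e))).In (zeta w) ∧ 0 < (zeta w).im := by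
  obtain ⟨h1, h2, h3, h5⟩ := h
  obtain ⟨k1, k2, k3, k4⟩ := zeta_bd h1 h2 h3 h5
  obtain ⟨c1, c2, c3, c4⟩ := zb_num (l := l) h4 h7
  exact ⟨⟨by linarith only [k1, c1], by linarith only [k2, c2], by linarith only [k3, c3], by linarith only [k4, c4]⟩, k3⟩

section
set_option deprecated.oldSectionVars false
variable {K : KFam} (hK : KOK K)
set_option deprecated.oldSectionVars false
include hK

lemma mem_pg {d : ℕ} {l r : SK} {dr : ℕ} {rr : SK} {R k k' : ℂ} (h : HDt K r d l dr rr R k k') :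
    k ∈ Poly (pg (crs d l r) l r) := polyU_sub _ (hK.sub h.ok.left h.mem)

theorem ring7 {d : ℕ} {l r : SK} {dl : ℕ} {ll : SK} {dr : ℕ} {rr : SK} {w kl kr : ℂ} (h4 : 4 ≤ d)
    (h : RDt K d l r dl ll dr rr w kl kr) (h7 : crs d l r ≤ 7) :
    (zbox d false).In (zeta w) ∧ 0 < (zeta w).im := by
  have hd : d ≤ 7 := by
    unfold crs at h7
    omega
  have h1 := zbox_of (l := l) h4 hd (ZD.sound (zd_ok d l) (pol_of h.right.ok.ne h4 h7)
    (mem_pg hK h.right) h.w0 h.w1)
  rwa [decide_eq_false h.left.ok.ne] at h1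

theorem end7 {d : ℕ} {r : SK} {dr : ℕ} {rr : SK} {w kr : ℂ} (h4 : 4 ≤ d)
    (h : RDe K d r dr rr w kr) (h7 : crs d .e r ≤ 7) :
    (zbox d true).In (zeta w) ∧ 0 < (zeta w).im := by
  have hd : d ≤ 7 := by
    unfold crs at h7
    omega
  exact zbox_of (l := .e) h4 hd (ZD.sound (zd_ok d .e) (pol_of h.right.ok.ne h4 h7)
    (mem_pg hK h.right) h.w0 h.w1)

/-- **The box of a ring variable.** -/
theorem ring_box (h0 : K.Le K0) {d : ℕ} {l r : SK} {dl : ℕ} {ll : SK} {dr : ℕ} {rr : SK}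
    {w kl kr : ℂ} (h4 : 4 ≤ d) (h : RDt K d l r dl ll dr rr w kl kr) :
    (zbox d false).In (zeta w) ∧ 0 < (zeta w).im := by
  rcases Nat.lt_or_ge 7 (crs d l r) with h8 | h7
  · exact ring8 h0 h h8
  · exact ring7 hK h4 h h7

/-- **The box of a ring variable, end.** -/
theorem end_box (h0 : K.Le K0) {d : ℕ} {r : SK} {dr : ℕ} {rr : SK} {w kr : ℂ} (h4 : 4 ≤ d)
    (h : RDe K d r dr rr w kr) : (zbox d true).In (zeta w) ∧ 0 < (zeta w).im := by
  rcases Nat.lt_or_ge 7 (crs d .e r) with h8 | h7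
  · exact end8 h0 h h8
  · exact end7 hK h4 h h7

/-! ### bounds of the real part -/

omit hK in
lemma zeta_abs {w : ℂ} (h0 : 0 < w.re) {c : ℝ} (h : w.re / Real.pi ≤ c) : |(zeta w).re| ≤ c := by
  have e1 : (zeta w).re = -(w.re / Real.pi) := by
    unfold zeta
    rw [Complex.div_ofReal_re, Complex.neg_re, neg_div]
  rw [e1, abs_neg, abs_of_pos (div_pos h0 Real.pi_pos)]
  exact h

theorem sE4a {dr : ℕ} {rr : SK} {w kr : ℂ} (h : RDe K 4 .a dr rr w kr) :
    |(zeta w).re| ≤ 2345 / 10000 := by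
  have := UD.sound u4ea_ok p4ea (mem_pg hK h.right) h.w0 h.w1
  norm_num [u4ea] at this
  exact zeta_abs h.w0 (by linarith only [this])

theorem sE4s {dr : ℕ} {rr : SK} {w kr : ℂ} (h : RDe K 4 .s dr rr w kr) :
    |(zeta w).re| ≤ 2185 / 10000 := by
  have := UD.sound u4es_ok p4es (mem_pg hK h.right) h.w0 h.w1
  norm_num [u4es] at this
  exact zeta_abs h.w0 (by linarith only [this])

theorem sE5 {r : SK} {dr : ℕ} {rr : SK} {w kr : ℂ} (h : RDe K 5 r dr rr w kr) (hr : r ≠ .z) :
    |(zeta w).re| ≤ 195 / 1000 := by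
  cases r
  · exact absurd rfl h.right.ok.ne
  · have := UD.sound u5e_ok p5ea (mem_pg hK h.right) h.w0 h.w1
    norm_num [u5e] at this
    exact zeta_abs h.w0 (by linarith only [this])
  · exact absurd rfl hr
  · have := UD.sound u5e_ok p5es (mem_pg hK h.right) h.w0 h.w1
    norm_num [u5e] at this
    exact zeta_abs h.w0 (by linarith only [this])

theorem s4s {r : SK} {dl : ℕ} {ll : SK} {dr : ℕ} {rr : SK} {w kl kr : ℂ}
    (h : RDt K 4 .s r dl ll dr rr w kl kr) :
    |(zeta w).re| ≤ (if r = .z then 203 / 1000 else 200 / 1000) := by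
  cases r
  · exact absurd rfl h.right.ok.ne
  · have := UD.sound u4s_ok p4sa (mem_pg hK h.right) h.w0 h.w1
    norm_num [u4s] at this
    exact zeta_abs h.w0 (by rw [if_neg (by decide)]; linarith only [this])
  · have := UD.sound u4sz_ok p4sz (mem_pg hK h.right) h.w0 h.w1
    norm_num [u4sz] at this
    exact zeta_abs h.w0 (by rw [if_pos rfl]; linarith only [this])
  · have := UD.sound u4s_ok p4ss (mem_pg hK h.right) h.w0 h.w1
    norm_num [u4s] at this
    exact zeta_abs h.w0 (by rw [if_neg (by decide)]; linarith only [this])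

theorem s4 {l r : SK} {dl : ℕ} {ll : SK} {dr : ℕ} {rr : SK} {w kl kr : ℂ}
    (h : RDt K 4 l r dl ll dr rr w kl kr) : |(zeta w).re| ≤ 22 / 100 := by
  have hl := h.left.ok.ne
  have hr := h.right.ok.ne
  have h1 := List.all_eq_true.1 chkU4_ok r (by cases r <;> simp_all)
  have h2 := List.all_eq_true.1 h1 l (by cases l <;> simp_all)
  have := UD.sound u4_ok h2 (mem_pg hK h.right) h.w0 h.w1
  norm_num [u4] at this
  exact zeta_abs h.w0 (by linarith only [this])

end

end Pool.Agent.Work.MP_b30479_gtS.G2.CN.M4
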