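import Pool.Agent.Work.MP_b30479_gt.TBS.G2.CN.Hin

section

/-!
# Expressions of a hinge in the variables `R`, `T`

`q = 1 + T ²`, `q' = R ² - T ²`. All expressions are evaluated by explicit formulas for their first
order forms.
-/

namespace Pool.Agent.Work.MP_b30479_gtS.G2.CN

open Complex

noncomputable section

/-! ### tools -/

lemma lin_one {R : ℂ} {b σ : ℕ} (hR : NB R b) : ‖R‖ * σ ≤ ((Nat.mul b σ : ℕ) : ℝ) := by
  change _ ≤ ((b * σ : ℕ) : ℝ)
  push_cast
  exact mul_le_mul_of_nonneg_right hR (Nat.cast_nonneg _)

/-- `D² (1 + T²)` -/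
def aEq (y : ℕ) : ℕ := Nat.mod (Nat.add (Nat.mul y y) (nat_lit 268435456)) (nat_lit 179769313486231590772930519078902473361797697894230657273430081157732675805500963132708477322407536021120113879871393357658789768814416622492847430639474124377767893424865485276302219601246094119453082952085005768838150682342462881473913110540827237163350510684586298239947245938479716304835356329624224137217)

/-- `D² (1 + T²)` at the centre -/
def aGq (Y : GaussianInt) : GaussianInt := Y * Y + ⟨268435456, 0⟩

/-- its bound -/
def bAq : ℕ := Nat.add (Nat.mul (nat_lit 262144) (nat_lit 262144)) (nat_lit 268435456)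

lemma RB_aq {m : ℕ} {Y : GaussianInt} (hY : RB m Y (nat_lit 262144)) : RB (aEq m) (aGq Y) bAq :=
  ((hY.mul hY).add (RBc (a := 268435456) (b := 0) (B := nat_lit 268435456) (n := nat_lit 268435456) rfl (by norm_num))).mod

lemma tc_aq (Y : GaussianInt) : tc (aGq Y) = tc Y ^ 2 + 16384 ^ 2 := by
  unfold aGq
  rw [map_add, map_mul, tcm 268435456 0]
  push_cast
  ring

/-- the linear part of the deviation of `Y²` -/
def hLq (my σ : ℕ) : ℕ := Nat.mul (Nat.mul (nat_lit 2) my) σ
/-- the linear and the quadratic part -/
def hTq (my σ : ℕ) : ℕ := Nat.add (hLq my σ) (Nat.mul σ σ)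

/-- the deviation of `Y²` -/
def etq (Y ε : ℂ) : ℂ := 2 * Y * ε + ε ^ 2

lemma NB_hLq {Y ε : ℂ} {my σ : ℕ} (hY : NB Y my) (hε : NB ε σ) : NB (2 * Y * ε) (hLq my σ) :=
  ((NB_ofNat 2).mul hY).mul hε

lemma NB_hTq {Y ε : ℂ} {my σ : ℕ} (hY : NB Y my) (hε : NB ε σ) : NB (etq Y ε) (hTq my σ) :=
  (NB_hLq hY hε).add ((hε.mul hε).eq (by ring))

/-- `D² (R² - T²)` -/
def sTq (x y : ℕ) : ℕ :=
  Nat.mod (Nat.add (Nat.mul x x) (Nat.mul (nat_lit 179769313486231590772930519078902473361797697894230657273430081157732675805500963132708477322407536021120113879871393357658789768814416622492847430639474124377767893424865485276302219601246094119453082952085005768838150682342462881473913110540827237163350510684586298239947245938479716304835356329624224137216) (Nat.mul y y))) (nat_lit 179769313486231590772930519078902473361797697894230657273430081157732675805500963132708477322407536021120113879871393357658789768814416622492847430639474124377767893424865485276302219601246094119453082952085005768838150682342462881473913110540827237163350510684586298239947245938479716304835356329624224137217)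

/-- `D² (R² - T²)` at the centre -/
def sTg (X Y : GaussianInt) : GaussianInt := X * X + ⟨-1, 0⟩ * (Y * Y)

/-- its bound -/
def bST : ℕ := Nat.add (Nat.mul (nat_lit 262144) (nat_lit 262144))
  (Nat.mul (nat_lit 1) (Nat.mul (nat_lit 262144) (nat_lit 262144)))

lemma RB_st {n m : ℕ} {X Y : GaussianInt} (hX : RB n X (nat_lit 262144)) (hY : RB m Y (nat_lit 262144)) :
    RB (sTq n m) (sTg X Y) bST := ((hX.mul hX).add ((RBc (a := -1) (b := 0) (B := nat_lit 1) (n := nat_lit 179769313486231590772930519078902473361797697894230657273430081157732675805500963132708477322407536021120113879871393357658789768814416622492847430639474124377767893424865485276302219601246094119453082952085005768838150682342462881473913110540827237163350510684586298239947245938479716304835356329624224137216) rfl (by norm_num)).mul (hY.mul hY))).mod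

lemma tc_st (X Y : GaussianInt) : tc (sTg X Y) = tc X ^ 2 - tc Y ^ 2 := by
  unfold sTg
  rw [map_add, map_mul, map_mul, map_mul, tcm (-1) 0]
  push_cast
  ring

/-- the linear part of the deviation of `D² (R² - T²)` -/
def lST (mx my ρ σ : ℕ) : ℕ := Nat.add (Nat.mul (Nat.mul (nat_lit 2) mx) ρ) (Nat.mul (Nat.mul (nat_lit 2) my) σ)
/-- the sum of the squares -/
def qST (ρ σ : ℕ) : ℕ := Nat.add (Nat.mul ρ ρ) (Nat.mul σ σ)
/-- the linear and the quadratic part -/
def tST (mx my ρ σ : ℕ) : ℕ := Nat.add (lST mx my ρ σ) (qST ρ σ)

/-- the deviation of `D² (R² - T²)` -/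
def dST (X Y δ ε : ℂ) : ℂ := 2 * X * δ - 2 * Y * ε + (δ ^ 2 - ε ^ 2)

lemma NB_lST {X Y δ ε : ℂ} {mx my ρ σ : ℕ} (hX : NB X mx) (hY : NB Y my) (hδ : NB δ ρ) (hε : NB ε σ) :
    NB (2 * X * δ - 2 * Y * ε) (lST mx my ρ σ) :=
  (((NB_ofNat 2).mul hX).mul hδ).sub (((NB_ofNat 2).mul hY).mul hε)

lemma NB_qST {δ ε : ℂ} {ρ σ : ℕ} (hδ : NB δ ρ) (hε : NB ε σ) : NB (δ ^ 2 - ε ^ 2) (qST ρ σ) :=
  ((hδ.mul hδ).eq (by ring)).sub ((hε.mul hε).eq (by ring))

lemma NB_tST {X Y δ ε : ℂ} {mx my ρ σ : ℕ} (hX : NB X mx) (hY : NB Y my) (hδ : NB δ ρ) (hε : NB ε σ) :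
    NB (dST X Y δ ε) (tST mx my ρ σ) :=
  (NB_lST hX hY hδ hε).add (NB_qST hδ hε)

namespace Ev

def tqf (my σ y a : ℕ) : G := ⟨a, nat_lit 0, Nat.mul (nat_lit 2) y, nrmE a, hLq my σ, Nat.mul σ σ⟩

/-- `q = 1 + T ²` -/
def tq : Ev where
  s := 0
  d := 2
  b := mx3 bAq (nat_lit 1) (Nat.mul (nat_lit 2) (nat_lit 262144))
  g := true
  ty := 0
  f := fun E => @Env.rec (fun _ => G) (fun _ y _ my _ _ _ _ _ σ => tqf my σ y (aEq y)) E
  val := fun _ w => w ^ 2 + 1
  kd := Kd0 _
  ok := fun _ E X Y δ ε u w hE ho hu hw => by
    obtain ⟨x, y, mx, my, a, b, c, d, ρ, σ⟩ := E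
    obtain ⟨hx, hy, hmx, hmy⟩ := hE
    obtain ⟨_, _, _, _, hρ, hσ⟩ := ho
    have ha := RB_aq hy
    refine Enc.mkm (t := ε ^ 2) ha (RB.zero 1) (RB_two.mul hy) (mx3_1 _ _ _) (mx3_2 _ _ _) (mx3_3 _ _ _)
      (ha.nrm (by decide)) ?_ ?_ ?_
    · rw [map_zero, norm_zero, zero_mul, zero_add]
      refine lin_one ?_
      rw [map_mul, map_ofNat]
      exact (NB_ofNat 2).mul hmy
    · have e : (D : ℂ) ^ 2 * (w ^ 2 + 1) = (D * w) ^ 2 + (D : ℂ) ^ 2 := by ring
      have e2 : tc (2 * Y) = 2 * tc Y := by rw [map_mul, map_ofNat]
      rw [e, hw, D_c, tc_aq, e2, map_zero]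
      ring
    · exact (NB.mul hσ hσ).eq (by ring)

def tq2f (mx my ρ σ x y s : ℕ) : G :=
  ⟨s, Nat.mul (nat_lit 2) x, Nat.mul (nat_lit 179769313486231590772930519078902473361797697894230657273430081157732675805500963132708477322407536021120113879871393357658789768814416622492847430639474124377767893424865485276302219601246094119453082952085005768838150682342462881473913110540827237163350510684586298239947245938479716304835356329624224137215) y, nrmE s, lST mx my ρ σ, qST ρ σ⟩

/-- `q' = R ² - T ²` -/
def tq2 : Ev where
  s := 0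
  d := 2
  b := mx3 bST (Nat.mul (nat_lit 2) (nat_lit 262144)) (Nat.mul (nat_lit 2) (nat_lit 262144))
  g := true
  ty := 0
  f := fun E => @Env.rec (fun _ => G) (fun x y mx my _ _ _ _ ρ σ => tq2f mx my ρ σ x y (sTq x y)) E
  val := fun u w => u ^ 2 + 1 - (w ^ 2 + 1)
  kd := Kd0 _
  ok := fun _ E X Y δ ε u w hE ho hu hw => by
    obtain ⟨x, y, mx, my, a, b, c, d, ρ, σ⟩ := E
    obtain ⟨hx, hy, hmx, hmy⟩ := hE
    obtain ⟨_, _, _, _, hρ, hσ⟩ := ho
    have hs := RB_st hx hy
    refine Enc.mkm (t := δ ^ 2 - ε ^ 2) hs (RB_two.mul hx) ((RBc (a := -2) (b := 0) (B := nat_lit 2) (n := nat_lit 179769313486231590772930519078902473361797697894230657273430081157732675805500963132708477322407536021120113879871393357658789768814416622492847430639474124377767893424865485276302219601246094119453082952085005768838150682342462881473913110540827237163350510684586298239947245938479716304835356329624224137215) rfl (by norm_num)).mul hy) (mx3_1 _ _ _) (mx3_2 _ _ _)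
      (mx3_3 _ _ _) (hs.nrm (by decide)) ?_ ?_ (NB_qST hρ hσ)
    · refine lin_NB ?_ ?_
      · rw [map_mul, map_ofNat]
        exact (NB_ofNat 2).mul hmx
      · rw [map_mul]
        exact NB.mul (RBc (a := -2) (b := 0) (B := nat_lit 2) (n := nat_lit 179769313486231590772930519078902473361797697894230657273430081157732675805500963132708477322407536021120113879871393357658789768814416622492847430639474124377767893424865485276302219601246094119453082952085005768838150682342462881473913110540827237163350510684586298239947245938479716304835356329624224137215) rfl (by norm_num)).le hmy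
    · have e : (D : ℂ) ^ 2 * (u ^ 2 + 1 - (w ^ 2 + 1)) = (D * u) ^ 2 - (D * w) ^ 2 := by ring
      rw [e, hu, hw, tc_st, map_mul, map_mul, map_ofNat, tcm (-2) 0]
      push_cast
      ring

/-! #### first ring -/

def tl2f (my ρ σ y c : ℕ) : G :=
  ⟨c, nat_lit 439347050248359021758841651141209165905243859209171546201245661387874763737449987335843817002333091518546963929054774914375807231981865204004737810631363657728, Nat.mul (nat_lit 2) y, nrmE c, Nat.add (Nat.mul (nat_lit 32768) ρ) (hLq my σ), Nat.mul σ σ⟩

/-- `DB I 2 R q / 2` -/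
def tl2 : Ev where
  s := 0
  d := 2
  b := mx3 (mx3 (Nat.mul (nat_lit 262144) (nat_lit 262144)) (nat_lit 268435456)
    (Nat.mul (nat_lit 32768) (nat_lit 262144))) (nat_lit 32768) (Nat.mul (nat_lit 2) (nat_lit 262144))
  g := true
  ty := 0
  f := fun E => @Env.rec (fun _ => G) (fun x y _ my _ _ _ _ ρ σ => tl2f my ρ σ y
    (Nat.mod (Nat.add (Nat.add (Nat.mul y y) (nat_lit 179769313486231590772930519078902473361797697894230657273430081157732675805500963132708477322407536021120113879871393357658789768814416622492847430639474124377767893424865485276302219601246094119453082952085005768838150682342462881473913110540827237163350510684586298239947245938479716304835356329623955701761)) (Nat.mul (nat_lit 439347050248359021758841651141209165905243859209171546201245661387874763737449987335843817002333091518546963929054774914375807231981865204004737810631363657728) x)) (nat_lit 179769313486231590772930519078902473361797697894230657273430081157732675805500963132708477322407536021120113879871393357658789768814416622492847430639474124377767893424865485276302219601246094119453082952085005768838150682342462881473913110540827237163350510684586298239947245938479716304835356329624224137217)))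 E
  val := fun u w => w ^ 2 - 1 + 2 * I * u
  kd := Kd0 _
  ok := fun _ E X Y δ ε u w hE ho hu hw => by
    obtain ⟨x, y, mx, my, a, b, c, d, ρ, σ⟩ := E
    obtain ⟨hx, hy, hmx, hmy⟩ := hE
    obtain ⟨_, _, _, _, hρ, hσ⟩ := ho
    have hc := (((hy.mul hy).add (RBc (a := -268435456) (b := 0) (B := nat_lit 268435456) (n := nat_lit 179769313486231590772930519078902473361797697894230657273430081157732675805500963132708477322407536021120113879871393357658789768814416622492847430639474124377767893424865485276302219601246094119453082952085005768838150682342462881473913110540827237163350510684586298239947245938479716304835356329623955701761) rfl (by norm_num))).add ((RBc (a := 0) (b := 32768) (B := nat_lit 32768) (n := nat_lit 439347050248359021758841651141209165905243859209171546201245661387874763737449987335843817002333091518546963929054774914375807231981865204004737810631363657728) rfl (by norm_num)).mul hx)).mod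
    refine Enc.mkm (t := ε ^ 2) hc (RBc (a := 0) (b := 32768) (B := nat_lit 32768) (n := nat_lit 439347050248359021758841651141209165905243859209171546201245661387874763737449987335843817002333091518546963929054774914375807231981865204004737810631363657728) rfl (by norm_num)) (RB_two.mul hy) (mx3_1 _ _ _) (mx3_2 _ _ _) (mx3_3 _ _ _)
      (hc.nrm (by decide)) ?_ ?_ ?_
    · refine lin_NB (RBc (a := 0) (b := 32768) (B := nat_lit 32768) (n := nat_lit 439347050248359021758841651141209165905243859209171546201245661387874763737449987335843817002333091518546963929054774914375807231981865204004737810631363657728) rfl (by norm_num)).le ?_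
      rw [map_mul, map_ofNat]
      exact (NB_ofNat 2).mul hmy
    · have e : (D : ℂ) ^ 2 * (w ^ 2 - 1 + 2 * I * u) = (D * w) ^ 2 - (D : ℂ) ^ 2 + 2 * I * D * (D * u) := by ring
      rw [e, hu, hw, D_c]
      simp only [map_add, map_mul, map_ofNat, tcm]
      push_cast
      ring
    · exact (NB.mul hσ hσ).eq (by ring)

def tl3f (my ρ σ y c p g ng : ℕ) : G :=
  ⟨c, p, Nat.mul (Nat.mul (nat_lit 2) y) g, nrmE c,
    Nat.add (Nat.mul (nrmE p) ρ) (Nat.mul (Nat.mul (Nat.mul (nat_lit 2) my) ng) σ),
    Nat.add (Nat.mul ng (Nat.mul σ σ)) (Nat.mul ρ (hTq my σ))⟩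

def tl3h (x y my ρ σ y2 g : ℕ) : G :=
  tl3f my ρ σ y (Nat.mod (Nat.add (Nat.add (Nat.mul y2 g) (Nat.mul (nat_lit 10797393106903671318745292418446356461287273083924599919441813374268410193611570888765697646649338057159810185520450148295699838533186319253620436434076393252323328) x)) (nat_lit 179769313486231590772930519078902473361797697894230657273430081157732675805500963132708477322407536021120113879871393357658789768814416622492847430639474124377767893424865485276302219601246094119453082952085005768838150682342462881473913110540827237163350510684586298239947245938479716304835356325226177626113)) (nat_lit 179769313486231590772930519078902473361797697894230657273430081157732675805500963132708477322407536021120113879871393357658789768814416622492847430639474124377767893424865485276302219601246094119453082952085005768838150682342462881473913110540827237163350510684586298239947245938479716304835356329624224137217))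
    (Nat.add (nat_lit 10797393106903671318745292418446356461287273083924599919441813374268410193611570888765697646649338057159810185520450148295699838533186319253620436434076393252323328) (Nat.mul (nat_lit 179769313486231590772930519078902473361797697894230657273430081157732675805500963132708477322407536021120113879871393357658789768814416622492847430639474110969959963482268385702277221395399966640087262359691628045276706960578432807926936308666529070259922820652728111753896392184596904358265409895975218053121) y2)) g (nrmE g)

/-- `DB I 3 R q / 2` -/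
def tl3 : Ev where
  s := 0
  d := 3
  b := mx3 (mx3 (Nat.mul (Nat.mul (nat_lit 262144) (nat_lit 262144)) (Nat.add (nat_lit 49152) (Nat.mul (nat_lit 1) (nat_lit 262144))))
      (Nat.mul (nat_lit 805306368) (nat_lit 262144)) (nat_lit 4398046511104))
    (Nat.add (nat_lit 805306368) (Nat.mul (nat_lit 1) (Nat.mul (nat_lit 262144) (nat_lit 262144))))
    (Nat.mul (Nat.mul (nat_lit 2) (nat_lit 262144)) (Nat.add (nat_lit 49152) (Nat.mul (nat_lit 1) (nat_lit 262144))))
  g := true
  ty := 0
  f := fun E => @Env.rec (fun _ => G) (fun x y _ my _ _ _ _ ρ σ => tl3h x y my ρ σ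
    (Nat.mod (Nat.mul y y) (nat_lit 179769313486231590772930519078902473361797697894230657273430081157732675805500963132708477322407536021120113879871393357658789768814416622492847430639474124377767893424865485276302219601246094119453082952085005768838150682342462881473913110540827237163350510684586298239947245938479716304835356329624224137217)) (Nat.add (nat_lit 49152) (Nat.mul (nat_lit 179769313486231590772930519078902473361797697894230657273430081157732675805500963132708477322407536021120113879871393357658789768814416622492847430639474110969959963482268385702277221395399966640087262359691628045276706960578432807926936308666529070259922820652728111753896392184596904358265409895975218053121) x))) E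
  val := fun u w => I * u * (3 - w ^ 2) - (1 - 3 * w ^ 2)
  kd := Kd0 _
  ok := fun _ E X Y δ ε u w hE ho hu hw => by
    obtain ⟨x, y, mx, my, a, b, c, d, ρ, σ⟩ := E
    obtain ⟨hx, hy, hmx, hmy⟩ := hE
    obtain ⟨_, _, _, _, hρ, hσ⟩ := ho
    have hy2 := (hy.mul hy).mod
    have hg := (RBc (a := 49152) (b := 0) (B := nat_lit 49152) (n := nat_lit 49152) rfl (by norm_num)).add ((RBc (a := 0) (b := -1) (B := nat_lit 1) (n := nat_lit 179769313486231590772930519078902473361797697894230657273430081157732675805500963132708477322407536021120113879871393357658789768814416622492847430639474110969959963482268385702277221395399966640087262359691628045276706960578432807926936308666529070259922820652728111753896392184596904358265409895975218053121) rfl (by norm_num)).mul hx)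
    have ng : NB (tc _) (nrmE _) := hg.nrm (by decide)
    have hp := (RBc (a := 0) (b := 805306368) (B := nat_lit 805306368) (n := nat_lit 10797393106903671318745292418446356461287273083924599919441813374268410193611570888765697646649338057159810185520450148295699838533186319253620436434076393252323328) rfl (by norm_num)).add ((RBc (a := 0) (b := -1) (B := nat_lit 1) (n := nat_lit 179769313486231590772930519078902473361797697894230657273430081157732675805500963132708477322407536021120113879871393357658789768814416622492847430639474110969959963482268385702277221395399966640087262359691628045276706960578432807926936308666529070259922820652728111753896392184596904358265409895975218053121) rfl (by norm_num)).mul hy2)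
    have hc := (((hy2.mul hg).add ((RBc (a := 0) (b := 805306368) (B := nat_lit 805306368) (n := nat_lit 10797393106903671318745292418446356461287273083924599919441813374268410193611570888765697646649338057159810185520450148295699838533186319253620436434076393252323328) rfl (by norm_num)).mul hx)).add (RBc (a := -4398046511104) (b := 0) (B := nat_lit 4398046511104) (n := nat_lit 179769313486231590772930519078902473361797697894230657273430081157732675805500963132708477322407536021120113879871393357658789768814416622492847430639474124377767893424865485276302219601246094119453082952085005768838150682342462881473913110540827237163350510684586298239947245938479716304835356325226177626113) rfl (by norm_num))).mod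
    have hr := (RB_two.mul hy).mul hg
    refine Enc.mkm (t := tc (⟨49152, 0⟩ + ⟨0, -1⟩ * X) * (ε * ε) - I * (δ * etq (tc Y) ε)) hc hp hr
      (mx3_1 _ _ _) (mx3_2 _ _ _) (mx3_3 _ _ _) (hc.nrm (by decide)) ?_ ?_ ?_
    · refine lin_NB (hp.nrm (by decide)) ?_
      rw [map_mul, map_mul, map_ofNat]
      exact ((NB_ofNat 2).mul hmy).mul ng
    · have e : (D : ℂ) ^ 3 * (I * u * (3 - w ^ 2) - (1 - 3 * w ^ 2)) =
          I * (D * u) * (3 * D ^ 2 - (D * w) ^ 2) - D * (D ^ 2 - 3 * (D * w) ^ 2) := by ring
      rw [e, hu, hw, D_c]
      simp only [map_add, map_mul, map_ofNat, tcm, etq]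
      push_cast
      ring
    · have h1 : NB (I * (δ * etq (tc Y) ε)) (Nat.mul 1 (Nat.mul ρ (hTq my σ))) :=
        NB.I1.mul (NB.mul hρ (NB_hTq hmy hσ))
      have h2 : ∀ n : ℕ, Nat.mul 1 n = n := Nat.one_mul
      rw [h2] at h1
      exact (ng.mul (NB.mul hσ hσ)).sub h1

def tl4f (my ρ σ y c p g ng h : ℕ) : G :=
  ⟨c, p, Nat.mul (Nat.mul (nat_lit 2) y) g, nrmE c,
    Nat.add (Nat.mul (nrmE p) ρ) (Nat.mul (Nat.mul (Nat.mul (nat_lit 2) my) ng) σ),
    Nat.add (Nat.mul ng (Nat.mul σ σ)) (Nat.mul h (Nat.add h (Nat.mul (nat_lit 65536) ρ)))⟩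

def tl4h (x y my ρ σ y2 g : ℕ) : G :=
  tl4f my ρ σ y (Nat.mod (Nat.add (Nat.add (Nat.mul y2 (Nat.add g y2)) (Nat.mul (nat_lit 235872651551346334515097161311766805682307576276027526773512893765351510149509303255382920323603672971341773439422740306235661539370299539535089640714543502728087207936) x)) (nat_lit 179769313486231590772930519078902473361797697894230657273430081157732675805500963132708477322407536021120113879871393357658789768814416622492847430639474124377767893424865485276302219601246094119453082952085005768838150682342462881473913110540827237163350510684586298239947245938479716304835284272030186209281)) (nat_lit 179769313486231590772930519078902473361797697894230657273430081157732675805500963132708477322407536021120113879871393357658789768814416622492847430639474124377767893424865485276302219601246094119453082952085005768838150682342462881473913110540827237163350510684586298239947245938479716304835356329624224137217))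
    (Nat.add (nat_lit 235872651551346334515097161311766805682307576276027526773512893765351510149509303255382920323603672971341773439422740306235661539370299539535089640714543502728087207936) (Nat.mul (nat_lit 179769313486231590772930519078902473361797697894230657273430081157732675805500963132708477322407536021120113879871393357658789768814416622492847430638595430277271175381347801974019801269435606401034739859682514446062401154867562906802225476536161054126256582826476748411195631474515985896825880708361496821761) y2)) g (nrmE g) (hTq my σ)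

def tl4i (x y my ρ σ y2 : ℕ) : G :=
  tl4h x y my ρ σ y2 (Nat.add (Nat.add (nat_lit 1610612736) (Nat.mul (nat_lit 179769313486231590772930519078902473361797697894230657273430081157732675805500963132708477322407536021120113879871393357658789768814416622492847430638595430277271175381347801974019801269435606401034739859682514446062401154867562906802225476536161054126256582826476748411195631474515985896825880708361496821761) x)) (Nat.mul (nat_lit 179769313486231590772930519078902473361797697894230657273430081157732675805500963132708477322407536021120113879871393357658789768814416622492847430639474124377767893424865485276302219601246094119453082952085005768838150682342462881473913110540827237163350510684586298239947245938479716304835356329624224137215) y2))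

def tl4gb : ℕ := Nat.add (Nat.add (nat_lit 1610612736) (Nat.mul (nat_lit 65536) (nat_lit 262144)))
  (Nat.mul (nat_lit 2) (Nat.mul (nat_lit 262144) (nat_lit 262144)))

/-- `DB I 4 R q / 2` -/
def tl4 : Ev where
  s := 0
  d := 4
  b := mx3 (mx3 (Nat.mul (Nat.mul (nat_lit 262144) (nat_lit 262144)) (Nat.add tl4gb (Nat.mul (nat_lit 262144) (nat_lit 262144))))
      (Nat.mul (nat_lit 17592186044416) (nat_lit 262144)) (nat_lit 72057594037927936))
    (Nat.add (nat_lit 17592186044416) (Nat.mul (nat_lit 65536) (Nat.mul (nat_lit 262144) (nat_lit 262144))))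
    (Nat.mul (Nat.mul (nat_lit 2) (nat_lit 262144)) tl4gb)
  g := true
  ty := 0
  f := fun E => @Env.rec (fun _ => G) (fun x y _ my _ _ _ _ ρ σ => tl4i x y my ρ σ
    (Nat.mod (Nat.mul y y) (nat_lit 179769313486231590772930519078902473361797697894230657273430081157732675805500963132708477322407536021120113879871393357658789768814416622492847430639474124377767893424865485276302219601246094119453082952085005768838150682342462881473913110540827237163350510684586298239947245938479716304835356329624224137217))) E
  val := fun u w => 4 * I * u * (1 - w ^ 2) - (w ^ 4 - 6 * w ^ 2 + 1)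
  kd := Kd0 _
  ok := fun _ E X Y δ ε u w hE ho hu hw => by
    obtain ⟨x, y, mx, my, a, b, c, d, ρ, σ⟩ := E
    obtain ⟨hx, hy, hmx, hmy⟩ := hE
    obtain ⟨_, _, _, _, hρ, hσ⟩ := ho
    have hy2 := (hy.mul hy).mod
    have hg := ((RBc (a := 1610612736) (b := 0) (B := nat_lit 1610612736) (n := nat_lit 1610612736) rfl (by norm_num)).add ((RBc (a := 0) (b := -65536) (B := nat_lit 65536) (n := nat_lit 179769313486231590772930519078902473361797697894230657273430081157732675805500963132708477322407536021120113879871393357658789768814416622492847430638595430277271175381347801974019801269435606401034739859682514446062401154867562906802225476536161054126256582826476748411195631474515985896825880708361496821761) rfl (by norm_num)).mul hx)).add ((RBc (a := -2) (b := 0) (B := nat_lit 2) (n := nat_lit 179769313486231590772930519078902473361797697894230657273430081157732675805500963132708477322407536021120113879871393357658789768814416622492847430639474124377767893424865485276302219601246094119453082952085005768838150682342462881473913110540827237163350510684586298239947245938479716304835356329624224137215)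 rfl (by norm_num)).mul hy2)
    have ng : NB (tc _) (nrmE _) := hg.nrm (by decide)
    have hp := (RBc (a := 0) (b := 17592186044416) (B := nat_lit 17592186044416) (n := nat_lit 235872651551346334515097161311766805682307576276027526773512893765351510149509303255382920323603672971341773439422740306235661539370299539535089640714543502728087207936) rfl (by norm_num)).add ((RBc (a := 0) (b := -65536) (B := nat_lit 65536) (n := nat_lit 179769313486231590772930519078902473361797697894230657273430081157732675805500963132708477322407536021120113879871393357658789768814416622492847430638595430277271175381347801974019801269435606401034739859682514446062401154867562906802225476536161054126256582826476748411195631474515985896825880708361496821761) rfl (by norm_num)).mul hy2)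
    have hc := (((hy2.mul (hg.add hy2)).add ((RBc (a := 0) (b := 17592186044416) (B := nat_lit 17592186044416) (n := nat_lit 235872651551346334515097161311766805682307576276027526773512893765351510149509303255382920323603672971341773439422740306235661539370299539535089640714543502728087207936) rfl (by norm_num)).mul hx)).add (RBc (a := -72057594037927936) (b := 0) (B := nat_lit 72057594037927936) (n := nat_lit 179769313486231590772930519078902473361797697894230657273430081157732675805500963132708477322407536021120113879871393357658789768814416622492847430639474124377767893424865485276302219601246094119453082952085005768838150682342462881473913110540827237163350510684586298239947245938479716304835284272030186209281) rfl (by norm_num))).mod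
    have hr := (RB_two.mul hy).mul hg
    refine Enc.mkm (t := tc (⟨1610612736, 0⟩ + ⟨0, -65536⟩ * X + ⟨-2, 0⟩ * (Y * Y)) * (ε * ε) -
        etq (tc Y) ε * (etq (tc Y) ε + 65536 * δ * I)) hc hp hr
      (mx3_1 _ _ _) (mx3_2 _ _ _) (mx3_3 _ _ _) (hc.nrm (by decide)) ?_ ?_ ?_
    · refine lin_NB (hp.nrm (by decide)) ?_
      rw [map_mul, map_mul, map_ofNat]
      exact ((NB_ofNat 2).mul hmy).mul ng
    · have e : (D : ℂ) ^ 4 * (4 * I * u * (1 - w ^ 2) - (w ^ 4 - 6 * w ^ 2 + 1)) =
          4 * I * D * (D * u) * (D ^ 2 - (D * w) ^ 2) - ((D * w) ^ 4 - 6 * D ^ 2 * (D * w) ^ 2 + D ^ 4) := by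
        ring
      rw [e, hu, hw, D_c]
      simp only [map_add, map_mul, map_ofNat, tcm, etq]
      push_cast
      ring
    · have h0 : NB (65536 * δ * I) (Nat.mul (Nat.mul 65536 ρ) 1) := ((NB_ofNat 65536).mul hρ).mul NB.I1
      have h2 : ∀ n : ℕ, Nat.mul n 1 = n := Nat.mul_one
      rw [h2] at h0
      have nh := NB_hTq hmy hσ
      exact (ng.mul (NB.mul hσ hσ)).sub (nh.mul (nh.add h0))

def tl5f (mx my ρ σ y c t g ng h : ℕ) : G :=
  ⟨c, Nat.mul (nat_lit 13407807929942597099574024998205846127479365820592393377723561443721764030073546976801874298166903427690031858186486050853753882811946569946433649006084096) t, Nat.mul (Nat.mul (nat_lit 2) y) g, nrmE c,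
    Nat.add (Nat.mul (nrmE t) ρ) (Nat.mul (Nat.mul (Nat.mul (nat_lit 2) my) ng) σ),
    Nat.add (Nat.add (Nat.mul ng (Nat.mul σ σ)) (Nat.mul (Nat.add mx (nat_lit 81920)) (Nat.mul h h)))
      (Nat.mul (Nat.mul ρ (Nat.add (Nat.add (Nat.mul (nat_lit 2) (Nat.mul my my)) (nat_lit 2684354560)) h)) h)⟩

def tl5h (x y mx my ρ σ y2 w1 q1 g : ℕ) : G :=
  tl5f mx my ρ σ y
    (Nat.mod (Nat.add (Nat.add (Nat.mul y2 (Nat.add w1 q1)) (Nat.mul (nat_lit 4830671903771572930869189863664984180373659162133043748321544064314398927861950530670242208227403222453079520039377721471706348326303734569678635841833850935871226018529280) x)) (nat_lit 179769313486231590772930519078902473361797697894230657273430081157732675805500963132708477322407536021120113879871393357658789768814416622492847430639474124377767893424865485276302219601246094119453082952085005768838150682342462881473913110540827237163350510684586298239947245938479716303654764708906812833793)) (nat_lit 179769313486231590772930519078902473361797697894230657273430081157732675805500963132708477322407536021120113879871393357658789768814416622492847430639474124377767893424865485276302219601246094119453082952085005768838150682342462881473913110540827237163350510684586298239947245938479716304835356329624224137217))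
    (Nat.mod (Nat.add (Nat.mul y2 (Nat.add y2 (nat_lit 179769313486231590772930519078902473361797697894230657273430081157732675805500963132708477322407536021120113879871393357658789768814416622492847430639474124377767893424865485276302219601246094119453082952085005768838150682342462881473913110540827237163350510684586298239947245938479716304835356329621539782657))) (nat_lit 360287970189639680)) (nat_lit 179769313486231590772930519078902473361797697894230657273430081157732675805500963132708477322407536021120113879871393357658789768814416622492847430639474124377767893424865485276302219601246094119453082952085005768838150682342462881473913110540827237163350510684586298239947245938479716304835356329624224137217))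
    g (nrmE g) (hTq my σ)

def tl5i (x y mx my ρ σ y2 w1 q1 : ℕ) : G :=
  tl5h x y mx my ρ σ y2 w1 q1 (Nat.mod (Nat.add (Nat.mul (nat_lit 2) w1) q1) (nat_lit 179769313486231590772930519078902473361797697894230657273430081157732675805500963132708477322407536021120113879871393357658789768814416622492847430639474124377767893424865485276302219601246094119453082952085005768838150682342462881473913110540827237163350510684586298239947245938479716304835356329624224137217))

def tl5j (x y mx my ρ σ y2 : ℕ) : G :=
  tl5i x y mx my ρ σ y2 (Nat.mod (Nat.mul (Nat.add (Nat.mul (nat_lit 13407807929942597099574024998205846127479365820592393377723561443721764030073546976801874298166903427690031858186486050853753882811946569946433649006084096) x) (nat_lit 179769313486231590772930519078902473361797697894230657273430081157732675805500963132708477322407536021120113879871393357658789768814416622492847430639474124377767893424865485276302219601246094119453082952085005768838150682342462881473913110540827237163350510684586298239947245938479716304835356329624224055297)) y2) (nat_lit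 179769313486231590772930519078902473361797697894230657273430081157732675805500963132708477322407536021120113879871393357658789768814416622492847430639474124377767893424865485276302219601246094119453082952085005768838150682342462881473913110540827237163350510684586298239947245938479716304835356329624224137217))
    (Nat.add (nat_lit 43980465111040) (Nat.mul (nat_lit 179769313486231590772930519078902473361797697894230657273430081157732675805500963132708477322407536021120113879871393357658789768814416622492847394648163768032196830940557423788447348643669147704120018146040424874137505310439500329148424279413970037796065442517425312573818801984082204236713909408313383059457) x))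

def tl5wb : ℕ := Nat.mul (Nat.add (Nat.mul (nat_lit 1) (nat_lit 262144)) (nat_lit 81920))
  (Nat.mul (nat_lit 262144) (nat_lit 262144))
def tl5qb : ℕ := Nat.add (nat_lit 43980465111040) (Nat.mul (nat_lit 2684354560) (nat_lit 262144))
def tl5tb : ℕ := Nat.add (Nat.mul (Nat.mul (nat_lit 262144) (nat_lit 262144))
  (Nat.add (Nat.mul (nat_lit 262144) (nat_lit 262144)) (nat_lit 2684354560))) (nat_lit 360287970189639680)

/-- `DB I 5 R q / 2` -/
def tl5 : Ev where
  s := 0
  d := 5
  b := mx3 (mx3 (Nat.mul (Nat.mul (nat_lit 262144) (nat_lit 262144)) (Nat.add tl5wb tl5qb))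
      (Nat.mul (nat_lit 360287970189639680) (nat_lit 262144)) (nat_lit 1180591620717411303424))
    (Nat.mul (nat_lit 1) tl5tb)
    (Nat.mul (Nat.mul (nat_lit 2) (nat_lit 262144)) (Nat.add (Nat.mul (nat_lit 2) tl5wb) tl5qb))
  g := true
  ty := 0
  f := fun E => @Env.rec (fun _ => G) (fun x y mx my _ _ _ _ ρ σ => tl5j x y mx my ρ σ
    (Nat.mod (Nat.mul y y) (nat_lit 179769313486231590772930519078902473361797697894230657273430081157732675805500963132708477322407536021120113879871393357658789768814416622492847430639474124377767893424865485276302219601246094119453082952085005768838150682342462881473913110540827237163350510684586298239947245938479716304835356329624224137217))) E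
  val := fun u w => I * u * (w ^ 4 - 10 * w ^ 2 + 5) - (5 * w ^ 4 - 10 * w ^ 2 + 1)
  kd := Kd0 _
  ok := fun _ E X Y δ ε u w hE ho hu hw => by
    obtain ⟨x, y, mx, my, a, b, c, d, ρ, σ⟩ := E
    obtain ⟨hx, hy, hmx, hmy⟩ := hE
    obtain ⟨_, _, _, _, hρ, hσ⟩ := ho
    have hy2 := (hy.mul hy).mod
    have hw1 := ((((RBc (a := 0) (b := 1) (B := nat_lit 1) (n := nat_lit 13407807929942597099574024998205846127479365820592393377723561443721764030073546976801874298166903427690031858186486050853753882811946569946433649006084096) rfl (by norm_num)).mul hx).add (RBc (a := -81920) (b := 0) (B := nat_lit 81920) (n := nat_lit 179769313486231590772930519078902473361797697894230657273430081157732675805500963132708477322407536021120113879871393357658789768814416622492847430639474124377767893424865485276302219601246094119453082952085005768838150682342462881473913110540827237163350510684586298239947245938479716304835356329624224055297) rfl (by norm_num))).mul hy2).mod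
    have hq1 := (RBc (a := 43980465111040) (b := 0) (B := nat_lit 43980465111040) (n := nat_lit 43980465111040) rfl (by norm_num)).add ((RBc (a := 0) (b := -2684354560) (B := nat_lit 2684354560) (n := nat_lit 179769313486231590772930519078902473361797697894230657273430081157732675805500963132708477322407536021120113879871393357658789768814416622492847394648163768032196830940557423788447348643669147704120018146040424874137505310439500329148424279413970037796065442517425312573818801984082204236713909408313383059457) rfl (by norm_num)).mul hx)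
    have hg := ((RB_two.mul hw1).add hq1).mod
    have ng : NB (tc _) (nrmE _) := hg.nrm (by decide)
    have ht := ((hy2.mul (hy2.add (RBc (a := -2684354560) (b := 0) (B := nat_lit 2684354560) (n := nat_lit 179769313486231590772930519078902473361797697894230657273430081157732675805500963132708477322407536021120113879871393357658789768814416622492847430639474124377767893424865485276302219601246094119453082952085005768838150682342462881473913110540827237163350510684586298239947245938479716304835356329621539782657) rfl (by norm_num)))).add (RBc (a := 360287970189639680) (b := 0) (B := nat_lit 360287970189639680) (n := nat_lit 360287970189639680) rfl (by norm_num))).mod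
    have nt : NB (tc _) (nrmE _) := ht.nrm (by decide)
    have hc := (((hy2.mul (hw1.add hq1)).add ((RBc (a := 0) (b := 360287970189639680) (B := nat_lit 360287970189639680) (n := nat_lit 4830671903771572930869189863664984180373659162133043748321544064314398927861950530670242208227403222453079520039377721471706348326303734569678635841833850935871226018529280) rfl (by norm_num)).mul hx)).add (RBc (a := -1180591620717411303424) (b := 0) (B := nat_lit 1180591620717411303424) (n := nat_lit 179769313486231590772930519078902473361797697894230657273430081157732675805500963132708477322407536021120113879871393357658789768814416622492847430639474124377767893424865485276302219601246094119453082952085005768838150682342462881473913110540827237163350510684586298239947245938479716303654764708906812833793) rfl (by norm_num))).mod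
    have hr := (RB_two.mul hy).mul hg
    refine Enc.mkm (t := tc (2 * ((⟨0, 1⟩ * X + ⟨-81920, 0⟩) * (Y * Y)) + (⟨43980465111040, 0⟩ + ⟨0, -2684354560⟩ * X)) *
        (ε * ε) + (tc X * I - 81920) * (etq (tc Y) ε * etq (tc Y) ε) +
        δ * (2 * (tc Y * tc Y) - 2684354560 + etq (tc Y) ε) * etq (tc Y) ε * I) hc ((RBc (a := 0) (b := 1) (B := nat_lit 1) (n := nat_lit 13407807929942597099574024998205846127479365820592393377723561443721764030073546976801874298166903427690031858186486050853753882811946569946433649006084096) rfl (by norm_num)).mul ht) hr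
      (mx3_1 _ _ _) (mx3_2 _ _ _) (mx3_3 _ _ _) (hc.nrm (by decide)) ?_ ?_ ?_
    · refine lin_NB ?_ ?_
      · rw [map_mul]
        have h1 : NB (tc ⟨0, 1⟩) 1 := (RBc (a := 0) (b := 1) (B := nat_lit 1) (n := nat_lit 13407807929942597099574024998205846127479365820592393377723561443721764030073546976801874298166903427690031858186486050853753882811946569946433649006084096) rfl (by norm_num)).le
        have h2 : ∀ n : ℕ, Nat.mul 1 n = n := Nat.one_mul
        have h3 := h1.mul nt
        rw [h2] at h3
        exact h3
      · rw [map_mul, map_mul, map_ofNat]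
        exact ((NB_ofNat 2).mul hmy).mul ng
    · have e : (D : ℂ) ^ 5 * (I * u * (w ^ 4 - 10 * w ^ 2 + 5) - (5 * w ^ 4 - 10 * w ^ 2 + 1)) =
          I * (D * u) * ((D * w) ^ 4 - 10 * D ^ 2 * (D * w) ^ 2 + 5 * D ^ 4) -
            D * (5 * (D * w) ^ 4 - 10 * D ^ 2 * (D * w) ^ 2 + D ^ 4) := by
        ring
      rw [e, hu, hw, D_c]
      simp only [map_add, map_mul, map_ofNat, tcm, etq]
      push_cast
      ring
    · have h2 : ∀ n : ℕ, Nat.mul n 1 = n := Nat.mul_one
      have nh := NB_hTq hmy hσ
      have h3 := (NB.mul hmx NB.I1).sub (NB_ofNat 81920)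
      have h4 := ((NB.mul hρ ((((NB_ofNat 2).mul (NB.mul hmy hmy)).sub (NB_ofNat 2684354560)).add nh)).mul nh).mul
        NB.I1
      rw [h2] at h3 h4
      exact ((ng.mul (NB.mul hσ hσ)).add (h3.mul (nh.mul nh))).add h4

/-! #### second ring; `k = (a - b) i` -/

def tr2f (my ρ σ y c p : ℕ) : G :=
  ⟨c, p, Nat.mul (nat_lit 179769313486231590772930519078902473361797697894230657273430081157732675805500963132708477322407536021120113879871393357658789768814416622492847430639474124377767893424865485276302219601246094119453082952085005768838150682342462881473913110540827237163350510684586298239947245938479716304835356329624224137215) y, nrmE c, Nat.add (Nat.mul (nrmE p) ρ) (hLq my σ), qST ρ σ⟩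

def tr2b (a b : ℕ) : ℕ :=
  mx3 (mx3 bST (nat_lit 536870912) (Nat.mul (Nat.mul (nat_lit 32768) (gn 0 0 a b)) (nat_lit 262144)))
    (Nat.add (Nat.mul (nat_lit 2) (nat_lit 262144)) (Nat.mul (nat_lit 32768) (gn 0 0 a b)))
    (Nat.mul (nat_lit 2) (nat_lit 262144))

/-- `DB (± I) 2 R q' / 2` -/
def tr2 (a b : ℕ) : Ev where
  s := 0
  d := 2
  b := tr2b a b
  g := rgB (tr2b a b)
  ty := 0
  f := fun E => @Env.rec (fun _ => G) (fun x y _ my _ _ _ _ ρ σ =>
    tr2f my ρ σ y (Nat.add (Nat.add (sTq x y) (nat_lit 179769313486231590772930519078902473361797697894230657273430081157732675805500963132708477322407536021120113879871393357658789768814416622492847430639474124377767893424865485276302219601246094119453082952085005768838150682342462881473913110540827237163350510684586298239947245938479716304835356329623687266305)) (Nat.mul (Nat.mul (nat_lit 32768) (ge 0 0 a b)) x))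
      (Nat.add (Nat.mul (nat_lit 2) x) (Nat.mul (nat_lit 32768) (ge 0 0 a b)))) E
  val := fun u w => u ^ 2 - w ^ 2 - 2 + 2 * gz 0 0 a b * u
  kd := Kd0 _
  ok := fun hg E X Y δ ε u w hE ho hu hw => by
    have hlt := rgB_lt hg
    obtain ⟨x, y, mx, my, a', b', c, d, ρ, σ⟩ := E
    obtain ⟨hx, hy, hmx, hmy⟩ := hE
    obtain ⟨_, _, _, _, hρ, hσ⟩ := ho
    have hk := (RB.nat (nat_lit 32768)).mul (RB_ge 0 0 a b)
    have hs := RB_st hx hy
    have hp := (RB_two.mul hx).add hk
    have hc := (hs.add (RBc (a := -536870912) (b := 0) (B := nat_lit 536870912) (n := nat_lit 179769313486231590772930519078902473361797697894230657273430081157732675805500963132708477322407536021120113879871393357658789768814416622492847430639474124377767893424865485276302219601246094119453082952085005768838150682342462881473913110540827237163350510684586298239947245938479716304835356329623687266305) rfl (by norm_num))).add (hk.mul hx)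
    refine Enc.mkm (t := δ ^ 2 - ε ^ 2) hc hp ((RBc (a := -2) (b := 0) (B := nat_lit 2) (n := nat_lit 179769313486231590772930519078902473361797697894230657273430081157732675805500963132708477322407536021120113879871393357658789768814416622492847430639474124377767893424865485276302219601246094119453082952085005768838150682342462881473913110540827237163350510684586298239947245938479716304835356329624224137215) rfl (by norm_num)).mul hy) (mx3_1 _ _ _) (mx3_2 _ _ _) (mx3_3 _ _ _)
      (hc.nrm ((mx3_1 _ _ _).trans_lt hlt)) ?_ ?_ (NB_qST hρ hσ)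
    · refine lin_NB (hp.nrm ((mx3_2 _ _ _).trans_lt hlt)) ?_
      rw [map_mul]
      exact NB.mul (RBc (a := -2) (b := 0) (B := nat_lit 2) (n := nat_lit 179769313486231590772930519078902473361797697894230657273430081157732675805500963132708477322407536021120113879871393357658789768814416622492847430639474124377767893424865485276302219601246094119453082952085005768838150682342462881473913110540827237163350510684586298239947245938479716304835356329624224137215) rfl (by norm_num)).le hmy
    · have e : (D : ℂ) ^ 2 * (u ^ 2 - w ^ 2 - 2 + 2 * gz 0 0 a b * u) =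
          (D * u) ^ 2 - (D * w) ^ 2 - 2 * D ^ 2 + 2 * D * gz 0 0 a b * (D * u) := by ring
      rw [e, hu, hw, D_c]
      simp only [map_add, map_mul, map_ofNat, tcm, tc_st, tc_gi, map_natCast]
      have e1 : (((nat_lit 32768 : ℕ)) : ℂ) = 32768 := by norm_num
      rw [e1]
      push_cast
      ring

def tr3f (my ρ σ y T f nf nk c p : ℕ) : G :=
  ⟨c, p, Nat.mul (Nat.mul (nat_lit 179769313486231590772930519078902473361797697894230657273430081157732675805500963132708477322407536021120113879871393357658789768814416622492847430639474124377767893424865485276302219601246094119453082952085005768838150682342462881473913110540827237163350510684586298239947245938479716304835356329624224137215) y) f, nrmE c,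
    Nat.add (Nat.mul (nrmE p) ρ) (Nat.mul (Nat.mul (Nat.mul (nat_lit 2) my) nf) σ),
    Nat.add (Nat.mul nf (qST ρ σ)) (Nat.mul (Nat.mul nk ρ) T)⟩

def tr3g (k kn nk x y mx my ρ σ s f : ℕ) : G :=
  tr3f my ρ σ y (tST mx my ρ σ) f (nrmE f) nk (dr3c k x s f) (dr3p k kn x s f)

def tr3b (a b : ℕ) : ℕ :=
  mx3 (mx3 (Nat.mul bST (dr3fb a b)) (Nat.mul (Nat.mul (nat_lit 1073741824) (gn 0 0 a b)) (nat_lit 262144))
      (nat_lit 17592186044416))
    (mx3 (Nat.mul (nat_lit 1073741824) (gn 0 0 a b)) (Nat.mul (gn 0 0 b a) bST)
      (Nat.mul (Nat.mul (nat_lit 2) (nat_lit 262144)) (dr3fb a b)))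
    (Nat.mul (Nat.mul (nat_lit 2) (nat_lit 262144)) (dr3fb a b))

/-- `DB (± I) 3 R q' / 2` -/
def tr3 (a b : ℕ) : Ev where
  s := 0
  d := 3
  b := tr3b a b
  g := rgB (tr3b a b)
  ty := 0
  f := fun E => @Env.rec (fun _ => G) (fun x y mx my _ _ _ _ ρ σ =>
    tr3g (ge 0 0 a b) (ge 0 0 b a) (Nat.add a b) x y mx my ρ σ (sTq x y)
      (Nat.add (nat_lit 49152) (Nat.mul (ge 0 0 b a) x))) E
  val := fun u w => gz 0 0 a b * u * (4 - (u ^ 2 - w ^ 2)) - (4 - 3 * (u ^ 2 - w ^ 2))
  kd := Kd0 _
  ok := fun hg E X Y δ ε u w hE ho hu hw => by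
    have hlt := rgB_lt hg
    obtain ⟨x, y, mx, my, a', b', c, d, ρ, σ⟩ := E
    obtain ⟨hx, hy, hmx, hmy⟩ := hE
    obtain ⟨_, _, _, _, hρ, hσ⟩ := ho
    have hk := (RB.nat (nat_lit 1073741824)).mul (RB_ge 0 0 a b)
    have hkn := RB_ge 0 0 b a
    have hs := RB_st hx hy
    have hf := (RBc (a := 49152) (b := 0) (B := nat_lit 49152) (n := nat_lit 49152) rfl (by norm_num)).add (hkn.mul hx)
    have hp := ((hk.add (hkn.mul hs)).add ((RB_two.mul hx).mul hf)).mod
    have hc := (((hs.mul hf).add (hk.mul hx)).add (RBc (a := -17592186044416) (b := 0) (B := nat_lit 17592186044416) (n := nat_lit 179769313486231590772930519078902473361797697894230657273430081157732675805500963132708477322407536021120113879871393357658789768814416622492847430639474124377767893424865485276302219601246094119453082952085005768838150682342462881473913110540827237163350510684586298239947245938479716304835356312032038092801) rfl (by norm_num))).mod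
    have hr := ((RBc (a := -2) (b := 0) (B := nat_lit 2) (n := nat_lit 179769313486231590772930519078902473361797697894230657273430081157732675805500963132708477322407536021120113879871393357658789768814416622492847430639474124377767893424865485276302219601246094119453082952085005768838150682342462881473913110540827237163350510684586298239947245938479716304835356329624224137215) rfl (by norm_num)).mul hy).mul hf
    have h3 := (mx3_3 _ _ _).trans_lt hlt
    have hfl : dr3fb a b < HH := by
      have : dr3fb a b ≤ Nat.mul (Nat.mul 2 262144) (dr3fb a b) := by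
        change dr3fb a b ≤ 2 * 262144 * dr3fb a b
        omega
      exact this.trans_lt h3
    have nf : NB (tc _) (nrmE _) := hf.nrm hfl
    refine Enc.mkm (t := (tc (⟨49152, 0⟩ + gi 0 0 b a * X)) * (δ ^ 2 - ε ^ 2) -
        gz 0 0 a b * δ * dST (tc X) (tc Y) δ ε)
      hc hp hr (mx3_1 _ _ _) (mx3_2 _ _ _) (mx3_3 _ _ _) (hc.nrm ((mx3_1 _ _ _).trans_lt hlt)) ?_ ?_ ?_
    · refine lin_NB (hp.nrm ((mx3_2 _ _ _).trans_lt hlt)) ?_
      rw [map_mul, map_mul]
      exact (NB.mul (RBc (a := -2) (b := 0) (B := nat_lit 2) (n := nat_lit 179769313486231590772930519078902473361797697894230657273430081157732675805500963132708477322407536021120113879871393357658789768814416622492847430639474124377767893424865485276302219601246094119453082952085005768838150682342462881473913110540827237163350510684586298239947245938479716304835356329624224137215) rfl (by norm_num)).le hmy).mul nf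
    · have e : (D : ℂ) ^ 3 * (gz 0 0 a b * u * (4 - (u ^ 2 - w ^ 2)) - (4 - 3 * (u ^ 2 - w ^ 2))) =
          gz 0 0 a b * (D * u) * (4 * D ^ 2 - ((D * u) ^ 2 - (D * w) ^ 2)) -
            D * (4 * D ^ 2 - 3 * ((D * u) ^ 2 - (D * w) ^ 2)) := by ring
      rw [e, hu, hw, D_c]
      simp only [map_add, map_mul, map_ofNat, tcm, tc_st, tc_gi, gz_ngq a b, map_natCast, dST]
      have e1 : (((nat_lit 1073741824 : ℕ)) : ℂ) = 1073741824 := by norm_num
      rw [e1]
      push_cast
      ring
    · exact (nf.mul (NB_qST hρ hσ)).sub (((NB_k a b).mul hρ).mul (NB_tST hmx hmy hρ hσ))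

def tr4f (my ρ σ y T f nf nk c p : ℕ) : G :=
  ⟨c, p, Nat.mul (Nat.mul (nat_lit 179769313486231590772930519078902473361797697894230657273430081157732675805500963132708477322407536021120113879871393357658789768814416622492847430639474124377767893424865485276302219601246094119453082952085005768838150682342462881473913110540827237163350510684586298239947245938479716304835356329624224137215) y) f, nrmE c,
    Nat.add (Nat.mul (nrmE p) ρ) (Nat.mul (Nat.mul (Nat.mul (nat_lit 2) my) nf) σ),
    Nat.add (Nat.mul nf (qST ρ σ)) (Nat.mul (Nat.add (Nat.mul (Nat.mul (nat_lit 65536) nk) ρ) T) T)⟩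

def tr4g (k kn nk x y mx my ρ σ s f : ℕ) : G :=
  tr4f my ρ σ y (tST mx my ρ σ) f (nrmE f) nk (dr4c k x s f) (dr4p k kn x s f)

def tr4h (k kn nk x y mx my ρ σ s : ℕ) : G :=
  tr4g k kn nk x y mx my ρ σ s
    (Nat.add (Nat.add (Nat.mul (Nat.mul (nat_lit 65536) kn) x) (Nat.mul (nat_lit 179769313486231590772930519078902473361797697894230657273430081157732675805500963132708477322407536021120113879871393357658789768814416622492847430639474124377767893424865485276302219601246094119453082952085005768838150682342462881473913110540827237163350510684586298239947245938479716304835356329624224137215) s)) (nat_lit 2147483648))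

def tr4fb (a b : ℕ) : ℕ := Nat.add (Nat.add (Nat.mul (Nat.mul (nat_lit 65536) (gn 0 0 b a)) (nat_lit 262144))
  (Nat.mul (nat_lit 2) bST)) (nat_lit 2147483648)

def tr4b (a b : ℕ) : ℕ :=
  mx3 (mx3 (Nat.mul bST (Nat.add (tr4fb a b) bST)) (Nat.mul (Nat.mul (nat_lit 35184372088832) (gn 0 0 a b)) (nat_lit 262144))
      (nat_lit 576460752303423488))
    (mx3 (Nat.mul (nat_lit 35184372088832) (gn 0 0 a b)) (Nat.mul (Nat.mul (nat_lit 65536) (gn 0 0 b a)) bST)
      (Nat.mul (Nat.mul (nat_lit 2) (nat_lit 262144)) (tr4fb a b)))
    (Nat.mul (Nat.mul (nat_lit 2) (nat_lit 262144)) (tr4fb a b))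

/-- `DB (± I) 4 R q' / 2` -/
def tr4 (a b : ℕ) : Ev where
  s := 0
  d := 4
  b := tr4b a b
  g := rgB (tr4b a b)
  ty := 0
  f := fun E => @Env.rec (fun _ => G) (fun x y mx my _ _ _ _ ρ σ =>
    tr4h (ge 0 0 a b) (ge 0 0 b a) (Nat.add a b) x y mx my ρ σ (sTq x y)) E
  val := fun u w => 4 * gz 0 0 a b * u * (2 - (u ^ 2 - w ^ 2)) -
    ((u ^ 2 - w ^ 2) ^ 2 - 8 * (u ^ 2 - w ^ 2) + 8)
  kd := Kd0 _
  ok := fun hg E X Y δ ε u w hE ho hu hw => by
    have hlt := rgB_lt hg
    obtain ⟨x, y, mx, my, a', b', c, d, ρ, σ⟩ := E
    obtain ⟨hx, hy, hmx, hmy⟩ := hE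
    obtain ⟨_, _, _, _, hρ, hσ⟩ := ho
    have hk := (RB.nat (nat_lit 35184372088832)).mul (RB_ge 0 0 a b)
    have hkn := (RB.nat (nat_lit 65536)).mul (RB_ge 0 0 b a)
    have hs := RB_st hx hy
    have hf := ((hkn.mul hx).add ((RBc (a := -2) (b := 0) (B := nat_lit 2) (n := nat_lit 179769313486231590772930519078902473361797697894230657273430081157732675805500963132708477322407536021120113879871393357658789768814416622492847430639474124377767893424865485276302219601246094119453082952085005768838150682342462881473913110540827237163350510684586298239947245938479716304835356329624224137215) rfl (by norm_num)).mul hs)).add (RBc (a := 2147483648) (b := 0) (B := nat_lit 2147483648) (n := nat_lit 2147483648) rfl (by norm_num))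
    have hp := ((hk.add (hkn.mul hs)).add ((RB_two.mul hx).mul hf)).mod
    have hc := (((hs.mul (hf.add hs)).add (hk.mul hx)).add (RBc (a := -576460752303423488) (b := 0) (B := nat_lit 576460752303423488) (n := nat_lit 179769313486231590772930519078902473361797697894230657273430081157732675805500963132708477322407536021120113879871393357658789768814416622492847430639474124377767893424865485276302219601246094119453082952085005768838150682342462881473913110540827237163350510684586298239947245938479716304834779868871920713729) rfl (by norm_num))).mod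
    have hr := ((RBc (a := -2) (b := 0) (B := nat_lit 2) (n := nat_lit 179769313486231590772930519078902473361797697894230657273430081157732675805500963132708477322407536021120113879871393357658789768814416622492847430639474124377767893424865485276302219601246094119453082952085005768838150682342462881473913110540827237163350510684586298239947245938479716304835356329624224137215) rfl (by norm_num)).mul hy).mul hf
    have h3 := (mx3_3 _ _ _).trans_lt hlt
    have hfl : tr4fb a b < HH := by
      have : tr4fb a b ≤ Nat.mul (Nat.mul 2 262144) (tr4fb a b) := by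
        change tr4fb a b ≤ 2 * 262144 * tr4fb a b
        omega
      exact this.trans_lt h3
    have nf : NB (tc _) (nrmE _) := hf.nrm hfl
    refine Enc.mkm (t := (tc ((((nat_lit 65536 : ℕ) : GaussianInt) * gi 0 0 b a) * X + ⟨-2, 0⟩ * sTg X Y +
        ⟨2147483648, 0⟩)) * (δ ^ 2 - ε ^ 2) - (65536 * gz 0 0 a b * δ + dST (tc X) (tc Y) δ ε) *
          dST (tc X) (tc Y) δ ε)
      hc hp hr (mx3_1 _ _ _) (mx3_2 _ _ _) (mx3_3 _ _ _) (hc.nrm ((mx3_1 _ _ _).trans_lt hlt)) ?_ ?_ ?_
    · refine lin_NB (hp.nrm ((mx3_2 _ _ _).trans_lt hlt)) ?_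
      rw [map_mul, map_mul]
      exact (NB.mul (RBc (a := -2) (b := 0) (B := nat_lit 2) (n := nat_lit 179769313486231590772930519078902473361797697894230657273430081157732675805500963132708477322407536021120113879871393357658789768814416622492847430639474124377767893424865485276302219601246094119453082952085005768838150682342462881473913110540827237163350510684586298239947245938479716304835356329624224137215) rfl (by norm_num)).le hmy).mul nf
    · have e : (D : ℂ) ^ 4 * (4 * gz 0 0 a b * u * (2 - (u ^ 2 - w ^ 2)) -
          ((u ^ 2 - w ^ 2) ^ 2 - 8 * (u ^ 2 - w ^ 2) + 8)) =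
          4 * gz 0 0 a b * D * (D * u) * (2 * D ^ 2 - ((D * u) ^ 2 - (D * w) ^ 2)) -
            (((D * u) ^ 2 - (D * w) ^ 2) ^ 2 - 8 * D ^ 2 * ((D * u) ^ 2 - (D * w) ^ 2) +
              8 * D ^ 4) := by ring
      rw [e, hu, hw, D_c]
      simp only [map_add, map_mul, map_ofNat, tcm, tc_st, tc_gi, gz_ngq a b, map_natCast, dST]
      have e1 : (((nat_lit 35184372088832 : ℕ)) : ℂ) = 35184372088832 := by norm_num
      have e2 : (((nat_lit 65536 : ℕ)) : ℂ) = 65536 := by norm_num
      rw [e1, e2]
      push_cast
      ring
    · exact (nf.mul (NB_qST hρ hσ)).sub (((((NB_ofNat 65536).mul (NB_k a b)).mul hρ).add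
        (NB_tST hmx hmy hρ hσ)).mul (NB_tST hmx hmy hρ hσ))

def tr5f (mx my ρ σ y T ms f nf nk c p : ℕ) : G :=
  ⟨c, p, Nat.mul (Nat.mul (nat_lit 179769313486231590772930519078902473361797697894230657273430081157732675805500963132708477322407536021120113879871393357658789768814416622492847430639474124377767893424865485276302219601246094119453082952085005768838150682342462881473913110540827237163350510684586298239947245938479716304835356329624224137215) y) f, nrmE c,
    Nat.add (Nat.mul (nrmE p) ρ) (Nat.mul (Nat.mul (Nat.mul (nat_lit 2) my) nf) σ),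
    Nat.add (Nat.add (Nat.mul nf (qST ρ σ))
      (Nat.mul (Nat.mul (Nat.mul nk ρ) (Nat.add (Nat.add (Nat.mul (nat_lit 2) ms) (nat_lit 3221225472)) T)) T))
      (Nat.mul (Nat.add (Nat.mul nk mx) (nat_lit 81920)) (Nat.mul T T))⟩

def tr5h (k nk x y mx my ρ σ s kx t f : ℕ) : G :=
  tr5f mx my ρ σ y (tST mx my ρ σ) (nrmE s) f (nrmE f) nk (dr5c kx s t) (dr5p k x t f)

def tr5g (k nk x y mx my ρ σ s kx : ℕ) : G :=
  tr5h k nk x y mx my ρ σ s kx (dr5t s) (dr5ff kx s)

def tr5tb : ℕ := Nat.add (Nat.mul bST (Nat.add bST (nat_lit 3221225472))) (nat_lit 1152921504606846976)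

def tr5fb (a b : ℕ) : ℕ := Nat.add (Nat.add (Nat.mul (dr5kb a b) (Nat.add (Nat.mul (nat_lit 2) bST) (nat_lit 3221225472)))
  (Nat.mul (nat_lit 163840) bST)) (nat_lit 87960930222080)

def tr5b (a b : ℕ) : ℕ :=
  mx3 (mx3 (Nat.mul (dr5kb a b) tr5tb)
      (Nat.mul bST (Nat.add (Nat.mul (nat_lit 81920) bST) (nat_lit 87960930222080)))
      (nat_lit 18889465931478580854784))
    (Nat.add (Nat.mul (gn 0 0 a b) tr5tb) (Nat.mul (Nat.mul (nat_lit 2) (nat_lit 262144)) (tr5fb a b)))
    (Nat.mul (Nat.mul (nat_lit 2) (nat_lit 262144)) (tr5fb a b))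

/-- `DB (± I) 5 R q' / 2` -/
def tr5 (a b : ℕ) : Ev where
  s := 0
  d := 5
  b := tr5b a b
  g := rgB (tr5b a b)
  ty := 0
  f := fun E => @Env.rec (fun _ => G) (fun x y mx my _ _ _ _ ρ σ =>
    tr5g (ge 0 0 a b) (Nat.add a b) x y mx my ρ σ (sTq x y) (Nat.mul (ge 0 0 a b) x)) E
  val := fun u w => gz 0 0 a b * u * ((u ^ 2 - w ^ 2) ^ 2 - 12 * (u ^ 2 - w ^ 2) + 16) -
    (5 * (u ^ 2 - w ^ 2) ^ 2 - 20 * (u ^ 2 - w ^ 2) + 16)
  kd := Kd0 _
  ok := fun hg E X Y δ ε u w hE ho hu hw => by
    have hlt := rgB_lt hg
    obtain ⟨x, y, mx, my, a', b', c, d, ρ, σ⟩ := E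
    obtain ⟨hx, hy, hmx, hmy⟩ := hE
    obtain ⟨_, _, _, _, hρ, hσ⟩ := ho
    have hk := RB_ge 0 0 a b
    have hkx := hk.mul hx
    have hs := RB_st hx hy
    have ht := ((hs.mul (hs.add (RBc (a := -3221225472) (b := 0) (B := nat_lit 3221225472) (n := nat_lit 179769313486231590772930519078902473361797697894230657273430081157732675805500963132708477322407536021120113879871393357658789768814416622492847430639474124377767893424865485276302219601246094119453082952085005768838150682342462881473913110540827237163350510684586298239947245938479716304835356329621002911745) rfl (by norm_num)))).add (RBc (a := 1152921504606846976) (b := 0) (B := nat_lit 1152921504606846976) (n := nat_lit 1152921504606846976) rfl (by norm_num))).mod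
    have hf := (((hkx.mul ((RB_two.mul hs).add (RBc (a := -3221225472) (b := 0) (B := nat_lit 3221225472) (n := nat_lit 179769313486231590772930519078902473361797697894230657273430081157732675805500963132708477322407536021120113879871393357658789768814416622492847430639474124377767893424865485276302219601246094119453082952085005768838150682342462881473913110540827237163350510684586298239947245938479716304835356329621002911745) rfl (by norm_num)))).add ((RBc (a := -163840) (b := 0) (B := nat_lit 163840) (n := nat_lit 179769313486231590772930519078902473361797697894230657273430081157732675805500963132708477322407536021120113879871393357658789768814416622492847430639474124377767893424865485276302219601246094119453082952085005768838150682342462881473913110540827237163350510684586298239947245938479716304835356329624223973377) rfl (by norm_num)).mul hs)).add (RBc (a := 87960930222080) (b := 0) (B := nat_lit 87960930222080) (n := nat_lit 87960930222080) rfl (by norm_num))).mod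
    have hp := ((hk.mul ht).add ((RB_two.mul hx).mul hf)).mod
    have hc := (((hkx.mul ht).add (hs.mul (((RBc (a := -81920) (b := 0) (B := nat_lit 81920) (n := nat_lit 179769313486231590772930519078902473361797697894230657273430081157732675805500963132708477322407536021120113879871393357658789768814416622492847430639474124377767893424865485276302219601246094119453082952085005768838150682342462881473913110540827237163350510684586298239947245938479716304835356329624224055297) rfl (by norm_num)).mul hs).add (RBc (a := 87960930222080) (b := 0) (B := nat_lit 87960930222080) (n := nat_lit 87960930222080) rfl (by norm_num))))).add (RBc (a := -18889465931478580854784) (b := 0) (B := nat_lit 18889465931478580854784) (n := nat_lit 179769313486231590772930519078902473361797697894230657273430081157732675805500963132708477322407536021120113879871393357658789768814416622492847430639474124377767893424865485276302219601246094119453082952085005768838150682342462881473913110540827237163350510684586298239947245938479716285945890398145643282433) rfl (by norm_num))).mod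
    have hr := ((RBc (a := -2) (b := 0) (B := nat_lit 2) (n := nat_lit 179769313486231590772930519078902473361797697894230657273430081157732675805500963132708477322407536021120113879871393357658789768814416622492847430639474124377767893424865485276302219601246094119453082952085005768838150682342462881473913110540827237163350510684586298239947245938479716304835356329624224137215) rfl (by norm_num)).mul hy).mul hf
    have h3 := (mx3_3 _ _ _).trans_lt hlt
    have hfl : tr5fb a b < HH := by
      have : tr5fb a b ≤ Nat.mul (Nat.mul 2 262144) (tr5fb a b) := by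
        change tr5fb a b ≤ 2 * 262144 * tr5fb a b
        omega
      exact this.trans_lt h3
    have nf : NB (tc _) (nrmE _) := hf.nrm hfl
    have ns : NB (tc (sTg X Y)) (nrmE (sTq x y)) := hs.nrm (by decide)
    refine Enc.mkm (t := (tc (gi 0 0 a b * X * (2 * sTg X Y + ⟨-3221225472, 0⟩) + ⟨-163840, 0⟩ * sTg X Y +
        ⟨87960930222080, 0⟩)) * (δ ^ 2 - ε ^ 2) + gz 0 0 a b * δ * (2 * tc (sTg X Y) - 3221225472 +
          dST (tc X) (tc Y) δ ε) * dST (tc X) (tc Y) δ ε + (gz 0 0 a b * tc X - 81920) *
            (dST (tc X) (tc Y) δ ε * dST (tc X) (tc Y) δ ε))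
      hc hp hr (mx3_1 _ _ _) (mx3_2 _ _ _) (mx3_3 _ _ _) (hc.nrm ((mx3_1 _ _ _).trans_lt hlt)) ?_ ?_ ?_
    · refine lin_NB (hp.nrm ((mx3_2 _ _ _).trans_lt hlt)) ?_
      rw [map_mul, map_mul]
      exact (NB.mul (RBc (a := -2) (b := 0) (B := nat_lit 2) (n := nat_lit 179769313486231590772930519078902473361797697894230657273430081157732675805500963132708477322407536021120113879871393357658789768814416622492847430639474124377767893424865485276302219601246094119453082952085005768838150682342462881473913110540827237163350510684586298239947245938479716304835356329624224137215) rfl (by norm_num)).le hmy).mul nf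
    · have e : (D : ℂ) ^ 5 * (gz 0 0 a b * u * ((u ^ 2 - w ^ 2) ^ 2 - 12 * (u ^ 2 - w ^ 2) + 16) -
          (5 * (u ^ 2 - w ^ 2) ^ 2 - 20 * (u ^ 2 - w ^ 2) + 16)) =
          gz 0 0 a b * (D * u) * (((D * u) ^ 2 - (D * w) ^ 2) ^ 2 -
            12 * D ^ 2 * ((D * u) ^ 2 - (D * w) ^ 2) + 16 * D ^ 4) -
          D * (5 * ((D * u) ^ 2 - (D * w) ^ 2) ^ 2 -
            20 * D ^ 2 * ((D * u) ^ 2 - (D * w) ^ 2) + 16 * D ^ 4) := by ring
      rw [e, hu, hw, D_c]
      simp only [map_add, map_mul, map_ofNat, tcm, tc_st, tc_gi, dST]
      push_cast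
      ring
    · exact ((nf.mul (NB_qST hρ hσ)).add ((((NB_k a b).mul hρ).mul
        ((((NB_ofNat 2).mul ns).sub (NB_ofNat 3221225472)).add (NB_tST hmx hmy hρ hσ))).mul
          (NB_tST hmx hmy hρ hσ))).add ((((NB_k a b).mul hmx).sub (NB_ofNat 81920)).mul
            ((NB_tST hmx hmy hρ hσ).mul (NB_tST hmx hmy hρ hσ)))

/-! #### products of powers -/

/-- the bound of `q ^ B q'` minus its linear part; `u ^ n = un` -/
def tmAe (B na α α' ms un uB T l : ℕ) : ℕ :=
  Nat.sub (Nat.mul (Nat.pow (Nat.add na α) B) (Nat.add ms T))
    (Nat.add (Nat.mul uB (Nat.add ms l)) (Nat.mul (Nat.mul B (Nat.mul un α')) ms))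

def tmAg (B x y mx my ρ σ s ms na an aB h un uB : ℕ) : G :=
  ⟨Nat.mod (Nat.mul aB s) (nat_lit 179769313486231590772930519078902473361797697894230657273430081157732675805500963132708477322407536021120113879871393357658789768814416622492847430639474124377767893424865485276302219601246094119453082952085005768838150682342462881473913110540827237163350510684586298239947245938479716304835356329624224137217), Nat.mod (Nat.mul (Nat.mul (nat_lit 2) x) aB) (nat_lit 179769313486231590772930519078902473361797697894230657273430081157732675805500963132708477322407536021120113879871393357658789768814416622492847430639474124377767893424865485276302219601246094119453082952085005768838150682342462881473913110540827237163350510684586298239947245938479716304835356329624224137217),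
    Nat.mod (Nat.mul (Nat.mul (nat_lit 2) y) (Nat.mul an h)) (nat_lit 179769313486231590772930519078902473361797697894230657273430081157732675805500963132708477322407536021120113879871393357658789768814416622492847430639474124377767893424865485276302219601246094119453082952085005768838150682342462881473913110540827237163350510684586298239947245938479716304835356329624224137217), Nat.mul uB ms,
    Nat.add (Nat.mul (Nat.mul uB (Nat.mul (nat_lit 2) mx)) ρ)
      (Nat.mul (Nat.mul (Nat.mul (nat_lit 2) my) (Nat.mul un (nrmE h))) σ),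
    tmAe B na (hTq my σ) (hLq my σ) ms un uB (tST mx my ρ σ) (lST mx my ρ σ)⟩

def tmAh (B x y mx my ρ σ s a na an un : ℕ) : G :=
  tmAg B x y mx my ρ σ s (nrmE s) na an (Nat.mod (Nat.mul an a) (nat_lit 179769313486231590772930519078902473361797697894230657273430081157732675805500963132708477322407536021120113879871393357658789768814416622492847430639474124377767893424865485276302219601246094119453082952085005768838150682342462881473913110540827237163350510684586298239947245938479716304835356329624224137217))
    (Nat.add (Nat.mul B s) (Nat.mul (nat_lit 179769313486231590772930519078902473361797697894230657273430081157732675805500963132708477322407536021120113879871393357658789768814416622492847430639474124377767893424865485276302219601246094119453082952085005768838150682342462881473913110540827237163350510684586298239947245938479716304835356329624224137216) a)) un (Nat.mul un na)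

def tmAi (n x y mx my ρ σ s a na : ℕ) : G :=
  tmAh (Nat.succ n) x y mx my ρ σ s a na (Nat.mod (Nat.pow a n) (nat_lit 179769313486231590772930519078902473361797697894230657273430081157732675805500963132708477322407536021120113879871393357658789768814416622492847430639474124377767893424865485276302219601246094119453082952085005768838150682342462881473913110540827237163350510684586298239947245938479716304835356329624224137217)) (Nat.pow na n)

def tmAj (n x y mx my ρ σ a : ℕ) : G := tmAi n x y mx my ρ σ (sTq x y) a (nrmE a)

def tmAhb (n : ℕ) : ℕ := Nat.add (Nat.mul (Nat.succ n) bST) (Nat.mul (nat_lit 1) bAq)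

def tmAb (n : ℕ) : ℕ :=
  mx3 (Nat.mul (Nat.mul (Nat.pow bAq n) bAq) bST)
    (Nat.mul (Nat.mul (nat_lit 2) (nat_lit 262144)) (Nat.mul (Nat.pow bAq n) bAq))
    (Nat.add (Nat.mul (Nat.mul (nat_lit 2) (nat_lit 262144)) (Nat.mul (Nat.pow bAq n) (tmAhb n))) (tmAhb n))

/-- `q ^ (n + 1) q'` -/
def tmA (n : ℕ) : Ev where
  s := 0
  d := 2 * n + 4
  b := tmAb n
  g := rgB (tmAb n)
  ty := 0
  f := fun E => @Env.rec (fun _ => G) (fun x y mx my _ _ _ _ ρ σ => tmAj n x y mx my ρ σ (aEq y)) E
  val := fun u w => (w ^ 2 + 1) ^ (n + 1) * (u ^ 2 - w ^ 2)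
  kd := Kd0 _
  ok := fun hg E X Y δ ε u w hE ho hu hw => by
    have hlt := rgB_lt hg
    obtain ⟨x, y, mx, my, a', b', c, d, ρ, σ⟩ := E
    obtain ⟨hx, hy, hmx, hmy⟩ := hE
    obtain ⟨_, _, _, _, hρ, hσ⟩ := ho
    have hs := RB_st hx hy
    have ha := RB_aq hy
    have ns : NB (tc (sTg X Y)) (nrmE (sTq x y)) := hs.nrm (by decide)
    have na : NB (tc (aGq Y)) (nrmE (aEq y)) := ha.nrm (by decide)
    have han := (ha.pow n).mod
    have haB := (han.mul ha).mod
    have hh := ((RB.nat (Nat.succ n)).mul hs).add ((RBc (a := -1) (b := 0) (B := nat_lit 1) (n := nat_lit 179769313486231590772930519078902473361797697894230657273430081157732675805500963132708477322407536021120113879871393357658789768814416622492847430639474124377767893424865485276302219601246094119453082952085005768838150682342462881473913110540827237163350510684586298239947245938479716304835356329624224137216) rfl (by norm_num)).mul ha)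
    have hc := (haB.mul hs).mod
    have hp := ((RB_two.mul hx).mul haB).mod
    have hr := ((RB_two.mul hy).mul (han.mul hh)).mod
    have h3 := (mx3_3 _ _ _).trans_lt hlt
    have nh : NB (tc _) (nrmE _) := hh.nrm ((Nat.le_add_left _ _).trans_lt h3)
    have nT := NB_tST hmx hmy hρ hσ
    have nα := NB_hTq hmy hσ
    refine Enc.mkm (t := tc (aGq Y) ^ (n + 1) * (δ ^ 2 - ε ^ 2) + (n + 1) * tc (aGq Y) ^ n *
        (ε ^ 2 * tc (sTg X Y) + etq (tc Y) ε * dST (tc X) (tc Y) δ ε) +
        ((tc (aGq Y) + etq (tc Y) ε) ^ (n + 1) - tc (aGq Y) ^ (n + 1) - (n + 1) * tc (aGq Y) ^ n * etq (tc Y) ε) *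
          (tc (sTg X Y) + dST (tc X) (tc Y) δ ε))
      hc hp hr (mx3_1 _ _ _) (mx3_2 _ _ _) ((Nat.le_add_right _ _).trans (mx3_3 _ _ _)) ?_ ?_ ?_ ?_
    · rw [map_mul, map_mul, map_pow]
      exact ((NB.pow na n).mul na).mul ns
    · refine lin_NB ?_ ?_
      · rw [map_mul, map_mul, map_mul, map_pow, map_ofNat, mul_comm]
        exact ((NB.pow na n).mul na).mul ((NB_ofNat 2).mul hmx)
      · rw [map_mul, map_mul, map_mul, map_pow, map_ofNat]
        exact ((NB_ofNat 2).mul hmy).mul ((NB.pow na n).mul nh)
    · have e : (D : ℂ) ^ (2 * n + 4) * ((w ^ 2 + 1) ^ (n + 1) * (u ^ 2 - w ^ 2)) =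
          ((D * w) ^ 2 + (D : ℂ) ^ 2) ^ (n + 1) * ((D * u) ^ 2 - (D * w) ^ 2) := by
        have e1 : (D * w) ^ 2 + (D : ℂ) ^ 2 = (D : ℂ) ^ 2 * (w ^ 2 + 1) := by ring
        rw [e1, mul_pow, ← pow_mul]
        ring
      have e2 : (tc Y + ε) ^ 2 + 16384 ^ 2 = tc (aGq Y) + etq (tc Y) ε := by
        rw [tc_aq, etq]
        ring
      have e3 : (tc X + δ) ^ 2 - (tc Y + ε) ^ 2 = tc (sTg X Y) + dST (tc X) (tc Y) δ ε := by
        rw [tc_st, dST]
        ring
      rw [e, hu, hw, D_c, e2, e3]
      simp only [map_add, map_mul, map_pow, map_ofNat, tcm (-1) 0, map_natCast]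
      unfold dST etq
      push_cast
      ring
    · have r := pow_rem na nα n
      have n0 : (0 : ℝ) ≤ (n : ℝ) + 1 := by positivity
      have p0 : ‖tc (aGq Y)‖ ≤ (nrmE (aEq y) : ℝ) := na
      have p1 := pow_le_pow_left₀ (norm_nonneg (tc (aGq Y))) p0 n
      have p1' := pow_le_pow_left₀ (norm_nonneg (tc (aGq Y))) p0 (n + 1)
      have p2 : ‖ε‖ ≤ (σ : ℝ) := hσ
      have p3 : ‖dST (tc X) (tc Y) δ ε‖ ≤ ((tST mx my ρ σ : ℕ) : ℝ) := nT
      have p4 : ‖etq (tc Y) ε‖ ≤ ((hTq my σ : ℕ) : ℝ) := nα
      have p5 : ‖δ ^ 2 - ε ^ 2‖ ≤ ((qST ρ σ : ℕ) : ℝ) := NB_qST hρ hσ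
      have p6 : ‖tc (sTg X Y)‖ ≤ (nrmE (sTq x y) : ℝ) := ns
      have n1 : ‖tc (aGq Y) ^ (n + 1) * (δ ^ 2 - ε ^ 2)‖ ≤ (nrmE (aEq y) : ℝ) ^ (n + 1) * (qST ρ σ : ℕ) := by
        rw [norm_mul, norm_pow]
        exact mul_le_mul p1' p5 (norm_nonneg _) (pow_nonneg (Nat.cast_nonneg _) _)
      have n2 : ‖(n + 1) * tc (aGq Y) ^ n * (ε ^ 2 * tc (sTg X Y) + etq (tc Y) ε * dST (tc X) (tc Y) δ ε)‖ ≤
          ((n : ℝ) + 1) * (nrmE (aEq y) : ℝ) ^ n * ((σ : ℝ) ^ 2 * (nrmE (sTq x y) : ℕ) +
            (hTq my σ : ℕ) * (tST mx my ρ σ : ℕ)) := by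
        rw [norm_mul, norm_mul, norm_pow, norm_succ]
        have q0 : ‖ε ^ 2 * tc (sTg X Y) + etq (tc Y) ε * dST (tc X) (tc Y) δ ε‖ ≤
            (σ : ℝ) ^ 2 * (nrmE (sTq x y) : ℕ) + (hTq my σ : ℕ) * (tST mx my ρ σ : ℕ) := by
          refine (norm_add_le _ _).trans (add_le_add ?_ ?_)
          · rw [norm_mul, norm_pow]
            exact mul_le_mul (pow_le_pow_left₀ (norm_nonneg _) p2 2) p6 (norm_nonneg _) (sq_nonneg _)
          · rw [norm_mul]
            exact mul_le_mul p4 p3 (norm_nonneg _) (Nat.cast_nonneg _)
        exact mul_le_mul (mul_le_mul_of_nonneg_left p1 n0) q0 (norm_nonneg _)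
          (mul_nonneg n0 (pow_nonneg (Nat.cast_nonneg _) _))
      have n3 : ‖tc (sTg X Y) + dST (tc X) (tc Y) δ ε‖ ≤ (nrmE (sTq x y) : ℝ) + (tST mx my ρ σ : ℕ) :=
        (norm_add_le _ _).trans (add_le_add p6 p3)
      have n4 := mul_le_mul r n3 (norm_nonneg _) ((norm_nonneg _).trans r)
      rw [← norm_mul] at n4
      have h0 := (norm_add₃_le).trans (add_le_add (add_le_add n1 n2) n4)
      refine h0.trans ?_
      have q1 : ((Nat.mul (Nat.pow (Nat.add (nrmE (aEq y)) (hTq my σ)) (Nat.succ n))
          (Nat.add (nrmE (sTq x y)) (tST mx my ρ σ)) : ℕ) : ℝ) =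
          ((nrmE (aEq y) : ℝ) + (hTq my σ : ℕ)) ^ (n + 1) * ((nrmE (sTq x y) : ℝ) + (tST mx my ρ σ : ℕ)) := by
        change (((nrmE (aEq y) + hTq my σ) ^ (n + 1) * (nrmE (sTq x y) + tST mx my ρ σ) : ℕ) : ℝ) = _
        push_cast
        rfl
      have q2 : ((Nat.add (Nat.mul (Nat.mul (Nat.pow (nrmE (aEq y)) n) (nrmE (aEq y)))
          (Nat.add (nrmE (sTq x y)) (lST mx my ρ σ)))
          (Nat.mul (Nat.mul (Nat.succ n) (Nat.mul (Nat.pow (nrmE (aEq y)) n) (hLq my σ))) (nrmE (sTq x y))) : ℕ) : ℝ) =
          (nrmE (aEq y) : ℝ) ^ n * (nrmE (aEq y) : ℝ) * ((nrmE (sTq x y) : ℝ) + (lST mx my ρ σ : ℕ)) +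
            ((n : ℝ) + 1) * ((nrmE (aEq y) : ℝ) ^ n * (hLq my σ : ℕ)) * (nrmE (sTq x y) : ℝ) := by
        change (((nrmE (aEq y) ^ n * nrmE (aEq y) * (nrmE (sTq x y) + lST mx my ρ σ) +
          (n + 1) * (nrmE (aEq y) ^ n * hLq my σ) * nrmE (sTq x y)) : ℕ) : ℝ) = _
        push_cast
        rfl
      have q3 : ((tST mx my ρ σ : ℕ) : ℝ) = (lST mx my ρ σ : ℕ) + (qST ρ σ : ℕ) := by
        change ((lST mx my ρ σ + qST ρ σ : ℕ) : ℝ) = _
        push_cast
        ring
      have q4 : ((hTq my σ : ℕ) : ℝ) = (hLq my σ : ℕ) + (σ : ℝ) ^ 2 := by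
        change ((hLq my σ + σ * σ : ℕ) : ℝ) = _
        push_cast
        ring
      have key : (nrmE (aEq y) : ℝ) ^ (n + 1) * (qST ρ σ : ℕ) +
          ((n : ℝ) + 1) * (nrmE (aEq y) : ℝ) ^ n * ((σ : ℝ) ^ 2 * (nrmE (sTq x y) : ℕ) +
            (hTq my σ : ℕ) * (tST mx my ρ σ : ℕ)) +
          (((nrmE (aEq y) : ℝ) + (hTq my σ : ℕ)) ^ (n + 1) - (nrmE (aEq y) : ℝ) ^ (n + 1) -
            ((n : ℝ) + 1) * (nrmE (aEq y) : ℝ) ^ n * (hTq my σ : ℕ)) *
            ((nrmE (sTq x y) : ℝ) + (tST mx my ρ σ : ℕ)) =
          ((nrmE (aEq y) : ℝ) + (hTq my σ : ℕ)) ^ (n + 1) * ((nrmE (sTq x y) : ℝ) + (tST mx my ρ σ : ℕ)) -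
            ((nrmE (aEq y) : ℝ) ^ n * (nrmE (aEq y) : ℝ) * ((nrmE (sTq x y) : ℝ) + (lST mx my ρ σ : ℕ)) +
              ((n : ℝ) + 1) * ((nrmE (aEq y) : ℝ) ^ n * (hLq my σ : ℕ)) * (nrmE (sTq x y) : ℝ)) := by
        rw [q3, q4]
        ring
      exact (le_of_eq (key.trans (by rw [q1, q2]))).trans (sub_le_cast _ _)

/-- the bound of `q' ^ B q` minus its linear part; `ms ^ n = mn` -/
def tmDe (B na α α' ms mn mB T l : ℕ) : ℕ :=
  Nat.sub (Nat.mul (Nat.pow (Nat.add ms T) B) (Nat.add na α))
    (Nat.add (Nat.mul mB (Nat.add na α')) (Nat.mul (Nat.mul B (Nat.mul mn l)) na))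

def tmDg (B x y mx my ρ σ s ms a na sn h mn mB : ℕ) : G :=
  ⟨Nat.mod (Nat.mul (Nat.mul sn s) a) (nat_lit 179769313486231590772930519078902473361797697894230657273430081157732675805500963132708477322407536021120113879871393357658789768814416622492847430639474124377767893424865485276302219601246094119453082952085005768838150682342462881473913110540827237163350510684586298239947245938479716304835356329624224137217),
    Nat.mod (Nat.mul (Nat.mul (Nat.mul (nat_lit 2) B) x) (Nat.mul sn a)) (nat_lit 179769313486231590772930519078902473361797697894230657273430081157732675805500963132708477322407536021120113879871393357658789768814416622492847430639474124377767893424865485276302219601246094119453082952085005768838150682342462881473913110540827237163350510684586298239947245938479716304835356329624224137217),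
    Nat.mod (Nat.mul (Nat.mul (nat_lit 2) y) (Nat.mul sn h)) (nat_lit 179769313486231590772930519078902473361797697894230657273430081157732675805500963132708477322407536021120113879871393357658789768814416622492847430639474124377767893424865485276302219601246094119453082952085005768838150682342462881473913110540827237163350510684586298239947245938479716304835356329624224137217), Nat.mul mB na,
    Nat.add (Nat.mul (Nat.mul (Nat.mul (Nat.mul (nat_lit 2) B) mx) (Nat.mul mn na)) ρ)
      (Nat.mul (Nat.mul (Nat.mul (nat_lit 2) my) (Nat.mul mn (nrmE h))) σ),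
    tmDe B na (hTq my σ) (hLq my σ) ms mn mB (tST mx my ρ σ) (lST mx my ρ σ)⟩

def tmDh (B x y mx my ρ σ s ms a na sn mn : ℕ) : G :=
  tmDg B x y mx my ρ σ s ms a na sn (Nat.add s (Nat.mul B (Nat.mul (nat_lit 179769313486231590772930519078902473361797697894230657273430081157732675805500963132708477322407536021120113879871393357658789768814416622492847430639474124377767893424865485276302219601246094119453082952085005768838150682342462881473913110540827237163350510684586298239947245938479716304835356329624224137216) a))) mn (Nat.mul mn ms)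

def tmDi (n x y mx my ρ σ s ms a na : ℕ) : G :=
  tmDh (Nat.succ n) x y mx my ρ σ s ms a na (Nat.mod (Nat.pow s n) (nat_lit 179769313486231590772930519078902473361797697894230657273430081157732675805500963132708477322407536021120113879871393357658789768814416622492847430639474124377767893424865485276302219601246094119453082952085005768838150682342462881473913110540827237163350510684586298239947245938479716304835356329624224137217)) (Nat.pow ms n)

def tmDj (n x y mx my ρ σ s a : ℕ) : G := tmDi n x y mx my ρ σ s (nrmE s) a (nrmE a)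

def tmDhb (n : ℕ) : ℕ := Nat.add bST (Nat.mul (Nat.succ n) (Nat.mul (nat_lit 1) bAq))

def tmDb (n : ℕ) : ℕ :=
  mx3 (Nat.mul (Nat.mul (Nat.pow bST n) bST) bAq)
    (Nat.mul (Nat.mul (Nat.mul (nat_lit 2) (Nat.succ n)) (nat_lit 262144)) (Nat.mul (Nat.pow bST n) bAq))
    (Nat.add (Nat.mul (Nat.mul (nat_lit 2) (nat_lit 262144)) (Nat.mul (Nat.pow bST n) (tmDhb n))) (tmDhb n))

/-- `q' ^ (n + 1) q` -/
def tmD (n : ℕ) : Ev where
  s := 0
  d := 2 * n + 4
  b := tmDb n
  g := rgB (tmDb n)
  ty := 0
  f := fun E => @Env.rec (fun _ => G) (fun x y mx my _ _ _ _ ρ σ => tmDj n x y mx my ρ σ (sTq x y) (aEq y)) E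
  val := fun u w => (u ^ 2 - w ^ 2) ^ (n + 1) * (w ^ 2 + 1)
  kd := Kd0 _
  ok := fun hg E X Y δ ε u w hE ho hu hw => by
    have hlt := rgB_lt hg
    obtain ⟨x, y, mx, my, a', b', c, d, ρ, σ⟩ := E
    obtain ⟨hx, hy, hmx, hmy⟩ := hE
    obtain ⟨_, _, _, _, hρ, hσ⟩ := ho
    have hs := RB_st hx hy
    have ha := RB_aq hy
    have ns : NB (tc (sTg X Y)) (nrmE (sTq x y)) := hs.nrm (by decide)
    have na : NB (tc (aGq Y)) (nrmE (aEq y)) := ha.nrm (by decide)
    have hsn := (hs.pow n).mod
    have hB2 : RB (Nat.mul (nat_lit 2) (Nat.succ n)) (2 * ((Nat.succ n : ℕ) : GaussianInt))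
      (Nat.mul 2 (Nat.succ n)) := RB_two.mul (RB.nat (Nat.succ n))
    have hh := hs.add ((RB.nat (Nat.succ n)).mul ((RBc (a := -1) (b := 0) (B := nat_lit 1) (n := nat_lit 179769313486231590772930519078902473361797697894230657273430081157732675805500963132708477322407536021120113879871393357658789768814416622492847430639474124377767893424865485276302219601246094119453082952085005768838150682342462881473913110540827237163350510684586298239947245938479716304835356329624224137216) rfl (by norm_num)).mul ha))
    have hc := ((hsn.mul hs).mul ha).mod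
    have hp := ((hB2.mul hx).mul (hsn.mul ha)).mod
    have hr := ((RB_two.mul hy).mul (hsn.mul hh)).mod
    have h3 := (mx3_3 _ _ _).trans_lt hlt
    have nh : NB (tc _) (nrmE _) := hh.nrm ((Nat.le_add_left _ _).trans_lt h3)
    have nT := NB_tST hmx hmy hρ hσ
    have nα := NB_hTq hmy hσ
    refine Enc.mkm (t := tc (sTg X Y) ^ (n + 1) * ε ^ 2 + (n + 1) * tc (sTg X Y) ^ n *
        ((δ ^ 2 - ε ^ 2) * tc (aGq Y) + dST (tc X) (tc Y) δ ε * etq (tc Y) ε) +
        ((tc (sTg X Y) + dST (tc X) (tc Y) δ ε) ^ (n + 1) - tc (sTg X Y) ^ (n + 1) -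
          (n + 1) * tc (sTg X Y) ^ n * dST (tc X) (tc Y) δ ε) * (tc (aGq Y) + etq (tc Y) ε))
      hc hp hr (mx3_1 _ _ _) (mx3_2 _ _ _) ((Nat.le_add_right _ _).trans (mx3_3 _ _ _)) ?_ ?_ ?_ ?_
    · rw [map_mul, map_mul, map_pow]
      exact ((ns.pow n).mul ns).mul na
    · refine lin_NB ?_ ?_
      · rw [map_mul, map_mul, map_mul, map_mul, map_pow, map_ofNat, map_natCast]
        exact (((NB_ofNat 2).mul (NB.nat _)).mul hmx).mul ((ns.pow n).mul na)
      · rw [map_mul, map_mul, map_mul, map_pow, map_ofNat]
        exact ((NB_ofNat 2).mul hmy).mul ((ns.pow n).mul nh)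
    · have e : (D : ℂ) ^ (2 * n + 4) * ((u ^ 2 - w ^ 2) ^ (n + 1) * (w ^ 2 + 1)) =
          ((D * u) ^ 2 - (D * w) ^ 2) ^ (n + 1) * ((D * w) ^ 2 + (D : ℂ) ^ 2) := by
        have e1 : (D * u) ^ 2 - (D * w) ^ 2 = (D : ℂ) ^ 2 * (u ^ 2 - w ^ 2) := by ring
        rw [e1, mul_pow, ← pow_mul]
        ring
      have e2 : (tc Y + ε) ^ 2 + 16384 ^ 2 = tc (aGq Y) + etq (tc Y) ε := by
        rw [tc_aq, etq]
        ring
      have e3 : (tc X + δ) ^ 2 - (tc Y + ε) ^ 2 = tc (sTg X Y) + dST (tc X) (tc Y) δ ε := by
        rw [tc_st, dST]
        ring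
      rw [e, hu, hw, D_c, e2, e3]
      simp only [map_add, map_mul, map_pow, map_ofNat, tcm (-1) 0, map_natCast]
      unfold dST etq
      push_cast
      ring
    · have r := pow_rem ns nT n
      have n0 : (0 : ℝ) ≤ (n : ℝ) + 1 := by positivity
      have p0 : ‖tc (sTg X Y)‖ ≤ (nrmE (sTq x y) : ℝ) := ns
      have p1 := pow_le_pow_left₀ (norm_nonneg (tc (sTg X Y))) p0 n
      have p1' := pow_le_pow_left₀ (norm_nonneg (tc (sTg X Y))) p0 (n + 1)
      have p2 : ‖ε‖ ≤ (σ : ℝ) := hσ
      have p3 : ‖dST (tc X) (tc Y) δ ε‖ ≤ ((tST mx my ρ σ : ℕ) : ℝ) := nT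
      have p4 : ‖etq (tc Y) ε‖ ≤ ((hTq my σ : ℕ) : ℝ) := nα
      have p5 : ‖δ ^ 2 - ε ^ 2‖ ≤ ((qST ρ σ : ℕ) : ℝ) := NB_qST hρ hσ
      have p6 : ‖tc (aGq Y)‖ ≤ (nrmE (aEq y) : ℝ) := na
      have n1 : ‖tc (sTg X Y) ^ (n + 1) * ε ^ 2‖ ≤ (nrmE (sTq x y) : ℝ) ^ (n + 1) * (σ : ℝ) ^ 2 := by
        rw [norm_mul, norm_pow, norm_pow]
        exact mul_le_mul p1' (pow_le_pow_left₀ (norm_nonneg _) p2 2) (pow_nonneg (norm_nonneg _) _)
          (pow_nonneg (Nat.cast_nonneg _) _)
      have n2 : ‖(n + 1) * tc (sTg X Y) ^ n * ((δ ^ 2 - ε ^ 2) * tc (aGq Y) + dST (tc X) (tc Y) δ ε * etq (tc Y) ε)‖ ≤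
          ((n : ℝ) + 1) * (nrmE (sTq x y) : ℝ) ^ n * ((qST ρ σ : ℕ) * (nrmE (aEq y) : ℕ) +
            (tST mx my ρ σ : ℕ) * (hTq my σ : ℕ)) := by
        rw [norm_mul, norm_mul, norm_pow, norm_succ]
        have q0 : ‖(δ ^ 2 - ε ^ 2) * tc (aGq Y) + dST (tc X) (tc Y) δ ε * etq (tc Y) ε‖ ≤
            ((qST ρ σ : ℕ) : ℝ) * (nrmE (aEq y) : ℕ) + (tST mx my ρ σ : ℕ) * (hTq my σ : ℕ) := by
          refine (norm_add_le _ _).trans (add_le_add ?_ ?_)
          · rw [norm_mul]
            exact mul_le_mul p5 p6 (norm_nonneg _) (Nat.cast_nonneg _)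
          · rw [norm_mul]
            exact mul_le_mul p3 p4 (norm_nonneg _) (Nat.cast_nonneg _)
        exact mul_le_mul (mul_le_mul_of_nonneg_left p1 n0) q0 (norm_nonneg _)
          (mul_nonneg n0 (pow_nonneg (Nat.cast_nonneg _) _))
      have n3 : ‖tc (aGq Y) + etq (tc Y) ε‖ ≤ (nrmE (aEq y) : ℝ) + (hTq my σ : ℕ) :=
        (norm_add_le _ _).trans (add_le_add p6 p4)
      have n4 := mul_le_mul r n3 (norm_nonneg _) ((norm_nonneg _).trans r)
      rw [← norm_mul] at n4
      have h0 := (norm_add₃_le).trans (add_le_add (add_le_add n1 n2) n4)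
      refine h0.trans ?_
      have q1 : ((Nat.mul (Nat.pow (Nat.add (nrmE (sTq x y)) (tST mx my ρ σ)) (Nat.succ n))
          (Nat.add (nrmE (aEq y)) (hTq my σ)) : ℕ) : ℝ) =
          ((nrmE (sTq x y) : ℝ) + (tST mx my ρ σ : ℕ)) ^ (n + 1) * ((nrmE (aEq y) : ℝ) + (hTq my σ : ℕ)) := by
        change (((nrmE (sTq x y) + tST mx my ρ σ) ^ (n + 1) * (nrmE (aEq y) + hTq my σ) : ℕ) : ℝ) = _
        push_cast
        rfl
      have q2 : ((Nat.add (Nat.mul (Nat.mul (Nat.pow (nrmE (sTq x y)) n) (nrmE (sTq x y)))
          (Nat.add (nrmE (aEq y)) (hLq my σ)))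
          (Nat.mul (Nat.mul (Nat.succ n) (Nat.mul (Nat.pow (nrmE (sTq x y)) n) (lST mx my ρ σ))) (nrmE (aEq y))) : ℕ) : ℝ) =
          (nrmE (sTq x y) : ℝ) ^ n * (nrmE (sTq x y) : ℝ) * ((nrmE (aEq y) : ℝ) + (hLq my σ : ℕ)) +
            ((n : ℝ) + 1) * ((nrmE (sTq x y) : ℝ) ^ n * (lST mx my ρ σ : ℕ)) * (nrmE (aEq y) : ℝ) := by
        change (((nrmE (sTq x y) ^ n * nrmE (sTq x y) * (nrmE (aEq y) + hLq my σ) +
          (n + 1) * (nrmE (sTq x y) ^ n * lST mx my ρ σ) * nrmE (aEq y)) : ℕ) : ℝ) = _
        push_cast
        rfl
      have q3 : ((tST mx my ρ σ : ℕ) : ℝ) = (lST mx my ρ σ : ℕ) + (qST ρ σ : ℕ) := by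
        change ((lST mx my ρ σ + qST ρ σ : ℕ) : ℝ) = _
        push_cast
        ring
      have q4 : ((hTq my σ : ℕ) : ℝ) = (hLq my σ : ℕ) + (σ : ℝ) ^ 2 := by
        change ((hLq my σ + σ * σ : ℕ) : ℝ) = _
        push_cast
        ring
      have key : (nrmE (sTq x y) : ℝ) ^ (n + 1) * (σ : ℝ) ^ 2 +
          ((n : ℝ) + 1) * (nrmE (sTq x y) : ℝ) ^ n * ((qST ρ σ : ℕ) * (nrmE (aEq y) : ℕ) +
            (tST mx my ρ σ : ℕ) * (hTq my σ : ℕ)) +
          (((nrmE (sTq x y) : ℝ) + (tST mx my ρ σ : ℕ)) ^ (n + 1) - (nrmE (sTq x y) : ℝ) ^ (n + 1) -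
            ((n : ℝ) + 1) * (nrmE (sTq x y) : ℝ) ^ n * (tST mx my ρ σ : ℕ)) *
            ((nrmE (aEq y) : ℝ) + (hTq my σ : ℕ)) =
          ((nrmE (sTq x y) : ℝ) + (tST mx my ρ σ : ℕ)) ^ (n + 1) * ((nrmE (aEq y) : ℝ) + (hTq my σ : ℕ)) -
            ((nrmE (sTq x y) : ℝ) ^ n * (nrmE (sTq x y) : ℝ) * ((nrmE (aEq y) : ℝ) + (hLq my σ : ℕ)) +
              ((n : ℝ) + 1) * ((nrmE (sTq x y) : ℝ) ^ n * (lST mx my ρ σ : ℕ)) * (nrmE (aEq y) : ℝ)) := by
        rw [q3, q4]
        ring
      exact (le_of_eq (key.trans (by rw [q1, q2]))).trans (sub_le_cast _ _)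

/-! #### exponentials -/

def zf (σ k c : ℕ) : G := ⟨c, nat_lit 0, k, nrmE c, σ, nat_lit 0⟩

/-- `1 + i T` -/
def zp : Ev where
  s := 0
  d := 1
  b := mx3 (Nat.add (nat_lit 16384) (Nat.mul (nat_lit 1) (nat_lit 262144))) (nat_lit 1) (nat_lit 1)
  g := true
  ty := 4
  f := fun E => @Env.rec (fun _ => G) (fun _ y _ _ _ _ _ _ _ σ =>
    zf σ (nat_lit 13407807929942597099574024998205846127479365820592393377723561443721764030073546976801874298166903427690031858186486050853753882811946569946433649006084096) (Nat.add (nat_lit 16384) (Nat.mul (nat_lit 13407807929942597099574024998205846127479365820592393377723561443721764030073546976801874298166903427690031858186486050853753882811946569946433649006084096) y))) E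
  val := fun _ w => 1 + I * w
  kd := Kd4 fun _ _ => rfl
  ok := fun _ E X Y δ ε u w hE ho hu hw => by
    obtain ⟨x, y, mx, my, a, b, c, d, ρ, σ⟩ := E
    obtain ⟨hx, hy, hmx, hmy⟩ := hE
    have hc := (RBc (a := 16384) (b := 0) (B := nat_lit 16384) (n := nat_lit 16384) rfl (by norm_num)).add ((RBc (a := 0) (b := 1) (B := nat_lit 1) (n := nat_lit 13407807929942597099574024998205846127479365820592393377723561443721764030073546976801874298166903427690031858186486050853753882811946569946433649006084096) rfl (by norm_num)).mul hy)
    refine Enc.mkm (t := 0) hc (RB.zero 1) (RBc (a := 0) (b := 1) (B := nat_lit 1) (n := nat_lit 13407807929942597099574024998205846127479365820592393377723561443721764030073546976801874298166903427690031858186486050853753882811946569946433649006084096) rfl (by norm_num)) (mx3_1 _ _ _) (mx3_2 _ _ _) (mx3_3 _ _ _)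
      (hc.nrm (by decide)) ?_ ?_ ?_
    · have h1 : ‖tc ⟨0, 1⟩‖ = 1 := by
        rw [tcm]
        simp
      rw [map_zero, norm_zero, h1, zero_mul, zero_add, one_mul]
    · have e : (D : ℂ) ^ 1 * (1 + I * w) = D + I * (D * w) := by ring
      rw [e, hw, D_c]
      simp only [map_add, map_mul, map_zero, tcm]
      push_cast
      ring
    · unfold NB
      rw [norm_zero]
      exact Nat.cast_nonneg _

/-- `1 - i T` -/
def zm : Ev where
  s := 0
  d := 1
  b := mx3 (Nat.add (nat_lit 16384) (Nat.mul (nat_lit 1) (nat_lit 262144))) (nat_lit 1) (nat_lit 1)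
  g := true
  ty := 5
  f := fun E => @Env.rec (fun _ => G) (fun _ y _ _ _ _ _ _ _ σ =>
    zf σ (nat_lit 179769313486231590772930519078902473361797697894230657273430081157732675805500963132708477322407536021120113879871393357658789768814416622492847430639474110969959963482268385702277221395399966640087262359691628045276706960578432807926936308666529070259922820652728111753896392184596904358265409895975218053121) (Nat.add (nat_lit 16384) (Nat.mul (nat_lit 179769313486231590772930519078902473361797697894230657273430081157732675805500963132708477322407536021120113879871393357658789768814416622492847430639474110969959963482268385702277221395399966640087262359691628045276706960578432807926936308666529070259922820652728111753896392184596904358265409895975218053121) y))) E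
  val := fun _ w => 1 - I * w
  kd := Kd5 fun _ _ => rfl
  ok := fun _ E X Y δ ε u w hE ho hu hw => by
    obtain ⟨x, y, mx, my, a, b, c, d, ρ, σ⟩ := E
    obtain ⟨hx, hy, hmx, hmy⟩ := hE
    have hc := (RBc (a := 16384) (b := 0) (B := nat_lit 16384) (n := nat_lit 16384) rfl (by norm_num)).add ((RBc (a := 0) (b := -1) (B := nat_lit 1) (n := nat_lit 179769313486231590772930519078902473361797697894230657273430081157732675805500963132708477322407536021120113879871393357658789768814416622492847430639474110969959963482268385702277221395399966640087262359691628045276706960578432807926936308666529070259922820652728111753896392184596904358265409895975218053121) rfl (by norm_num)).mul hy)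
    refine Enc.mkm (t := 0) hc (RB.zero 1) (RBc (a := 0) (b := -1) (B := nat_lit 1) (n := nat_lit 179769313486231590772930519078902473361797697894230657273430081157732675805500963132708477322407536021120113879871393357658789768814416622492847430639474110969959963482268385702277221395399966640087262359691628045276706960578432807926936308666529070259922820652728111753896392184596904358265409895975218053121) rfl (by norm_num)) (mx3_1 _ _ _) (mx3_2 _ _ _) (mx3_3 _ _ _)
      (hc.nrm (by decide)) ?_ ?_ ?_
    · have h1 : ‖tc ⟨0, -1⟩‖ = 1 := by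
        rw [tcm]
        simp
      rw [map_zero, norm_zero, h1, zero_mul, zero_add, one_mul]
    · have e : (D : ℂ) ^ 1 * (1 - I * w) = D - I * (D * w) := by ring
      rw [e, hw, D_c]
      simp only [map_add, map_mul, map_zero, tcm]
      push_cast
      ring
    · unfold NB
      rw [norm_zero]
      exact Nat.cast_nonneg _

/-- `(1 - i T) ²` -/
def zm2g (σ v nv : ℕ) : G :=
  ⟨Nat.mod (Nat.mul v v) (nat_lit 179769313486231590772930519078902473361797697894230657273430081157732675805500963132708477322407536021120113879871393357658789768814416622492847430639474124377767893424865485276302219601246094119453082952085005768838150682342462881473913110540827237163350510684586298239947245938479716304835356329624224137217), nat_lit 0, Nat.mul (nat_lit 179769313486231590772930519078902473361797697894230657273430081157732675805500963132708477322407536021120113879871393357658789768814416622492847430639474097562152033539671286128252223189553839160721441767298250321715263238814402734379959506792230903356495130620869925267845538430714092411695463462326211969025) v, Nat.mul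 nv nv,
    Nat.mul (Nat.mul (nat_lit 2) nv) σ, Nat.mul σ σ⟩

def zm2f (σ v : ℕ) : G := zm2g σ v (nrmE v)

/-- `(1 - i T) ²` -/
def zm2 : Ev where
  s := 0
  d := 2
  b := mx3 (Nat.mul (Nat.add (nat_lit 16384) (Nat.mul (nat_lit 1) (nat_lit 262144)))
      (Nat.add (nat_lit 16384) (Nat.mul (nat_lit 1) (nat_lit 262144)))) (nat_lit 1)
    (Nat.mul (nat_lit 2) (Nat.add (nat_lit 16384) (Nat.mul (nat_lit 1) (nat_lit 262144))))
  g := true
  ty := 0
  f := fun E => @Env.rec (fun _ => G) (fun _ y _ _ _ _ _ _ _ σ =>
    zm2f σ (Nat.add (nat_lit 16384) (Nat.mul (nat_lit 179769313486231590772930519078902473361797697894230657273430081157732675805500963132708477322407536021120113879871393357658789768814416622492847430639474110969959963482268385702277221395399966640087262359691628045276706960578432807926936308666529070259922820652728111753896392184596904358265409895975218053121) y))) E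
  val := fun u w => zm.val u w ^ 2
  kd := Kd0 _
  ok := fun _ E X Y δ ε u w hE ho hu hw => by
    obtain ⟨x, y, mx, my, a, b, c, d, ρ, σ⟩ := E
    obtain ⟨hx, hy, hmx, hmy⟩ := hE
    obtain ⟨_, _, _, _, hρ, hσ⟩ := ho
    have hv := (RBc (a := 16384) (b := 0) (B := nat_lit 16384) (n := nat_lit 16384) rfl (by norm_num)).add ((RBc (a := 0) (b := -1) (B := nat_lit 1) (n := nat_lit 179769313486231590772930519078902473361797697894230657273430081157732675805500963132708477322407536021120113879871393357658789768814416622492847430639474110969959963482268385702277221395399966640087262359691628045276706960578432807926936308666529070259922820652728111753896392184596904358265409895975218053121) rfl (by norm_num)).mul hy)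
    have nv : NB (tc _) (nrmE _) := hv.nrm (by decide)
    have hc := (hv.mul hv).mod
    refine Enc.mkm (t := -(ε * ε)) hc (RB.zero 1) ((RBc (a := 0) (b := -2) (B := nat_lit 2) (n := nat_lit 179769313486231590772930519078902473361797697894230657273430081157732675805500963132708477322407536021120113879871393357658789768814416622492847430639474097562152033539671286128252223189553839160721441767298250321715263238814402734379959506792230903356495130620869925267845538430714092411695463462326211969025) rfl (by norm_num)).mul hv) (mx3_1 _ _ _) (mx3_2 _ _ _) (mx3_3 _ _ _)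
      ?_ ?_ ?_ (NB.mul hσ hσ).neg
    · rw [map_mul]
      exact nv.mul nv
    · rw [map_zero, norm_zero, zero_mul, zero_add]
      refine lin_one ?_
      rw [map_mul]
      exact NB.mul (RBc (a := 0) (b := -2) (B := nat_lit 2) (n := nat_lit 179769313486231590772930519078902473361797697894230657273430081157732675805500963132708477322407536021120113879871393357658789768814416622492847430639474097562152033539671286128252223189553839160721441767298250321715263238814402734379959506792230903356495130620869925267845538430714092411695463462326211969025) rfl (by norm_num)).le nv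
    · have e : (D : ℂ) ^ 2 * (zm.val u w ^ 2) = (D - I * (D * w)) ^ 2 := by
        change (D : ℂ) ^ 2 * ((1 - I * w) ^ 2) = _
        ring
      rw [e, hw, D_c]
      simp only [map_add, map_mul, map_zero, tcm]
      push_cast
      linear_combination ε ^ 2 * Complex.I_mul_I

def zug (k ρ σ g1 g2 n1 n2 : ℕ) : G :=
  ⟨Nat.mod (Nat.mul g1 g2) (nat_lit 179769313486231590772930519078902473361797697894230657273430081157732675805500963132708477322407536021120113879871393357658789768814416622492847430639474124377767893424865485276302219601246094119453082952085005768838150682342462881473913110540827237163350510684586298239947245938479716304835356329624224137217), g2, Nat.mul k g1, Nat.mul n1 n2,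
    Nat.add (Nat.mul n2 ρ) (Nat.mul n1 σ), Nat.mul ρ σ⟩

def zuf (k ρ σ g1 g2 : ℕ) : G := zug k ρ σ g1 g2 (nrmE g1) (nrmE g2)

/-- `(R + i) (1 + i T)` -/
def zu : Ev where
  s := 0
  d := 2
  b := mx3 (Nat.mul (Nat.add (nat_lit 262144) (nat_lit 16384))
      (Nat.add (nat_lit 16384) (Nat.mul (nat_lit 1) (nat_lit 262144))))
    (Nat.add (nat_lit 16384) (Nat.mul (nat_lit 1) (nat_lit 262144)))
    (Nat.mul (nat_lit 1) (Nat.add (nat_lit 262144) (nat_lit 16384)))
  g := true
  ty := 0
  f := fun E => @Env.rec (fun _ => G) (fun x y _ _ _ _ _ _ ρ σ =>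
    zuf (nat_lit 13407807929942597099574024998205846127479365820592393377723561443721764030073546976801874298166903427690031858186486050853753882811946569946433649006084096) ρ σ (Nat.add x (nat_lit 219673525124179510879420825570604582952621929604585773100622830693937381868724993667921908501166545759273481964527387457187903615990932602002368905315681828864)) (Nat.add (nat_lit 16384) (Nat.mul (nat_lit 13407807929942597099574024998205846127479365820592393377723561443721764030073546976801874298166903427690031858186486050853753882811946569946433649006084096) y))) E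
  val := fun u w => vp.val u w * zp.val u w
  kd := Kd0 _
  ok := fun _ E X Y δ ε u w hE ho hu hw => by
    obtain ⟨x, y, mx, my, a, b, c, d, ρ, σ⟩ := E
    obtain ⟨hx, hy, hmx, hmy⟩ := hE
    obtain ⟨_, _, _, _, hρ, hσ⟩ := ho
    have h1 := hx.add (RBc (a := 0) (b := 16384) (B := nat_lit 16384) (n := nat_lit 219673525124179510879420825570604582952621929604585773100622830693937381868724993667921908501166545759273481964527387457187903615990932602002368905315681828864) rfl (by norm_num))
    have h2 := (RBc (a := 16384) (b := 0) (B := nat_lit 16384) (n := nat_lit 16384) rfl (by norm_num)).add ((RBc (a := 0) (b := 1) (B := nat_lit 1) (n := nat_lit 13407807929942597099574024998205846127479365820592393377723561443721764030073546976801874298166903427690031858186486050853753882811946569946433649006084096) rfl (by norm_num)).mul hy)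
    have n1 : NB (tc _) (nrmE _) := h1.nrm (by decide)
    have n2 : NB (tc _) (nrmE _) := h2.nrm (by decide)
    have hc := (h1.mul h2).mod
    have m1 : ∀ n : ℕ, Nat.mul 1 n = n := Nat.one_mul
    refine Enc.mkm (t := I * (δ * ε)) hc h2 ((RBc (a := 0) (b := 1) (B := nat_lit 1) (n := nat_lit 13407807929942597099574024998205846127479365820592393377723561443721764030073546976801874298166903427690031858186486050853753882811946569946433649006084096) rfl (by norm_num)).mul h1) (mx3_1 _ _ _) (mx3_2 _ _ _) (mx3_3 _ _ _) ?_ ?_ ?_ ?_
    · rw [map_mul]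
      exact n1.mul n2
    · refine lin_NB n2 ?_
      rw [map_mul]
      have h3 : NB (tc ⟨0, 1⟩) 1 := (RBc (a := 0) (b := 1) (B := nat_lit 1) (n := nat_lit 13407807929942597099574024998205846127479365820592393377723561443721764030073546976801874298166903427690031858186486050853753882811946569946433649006084096) rfl (by norm_num)).le
      have h4 := h3.mul n1
      rw [m1] at h4
      exact h4
    · have e : (D : ℂ) ^ 2 * (vp.val u w * zp.val u w) = (D * u + D * I) * (D + I * (D * w)) := by
        change (D : ℂ) ^ 2 * ((u + gz 0 0 1 0) * (1 + I * w)) = _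
        rw [gz_cI]
        ring
      rw [e, hu, hw, D_c]
      simp only [map_add, map_mul, tcm]
      push_cast
      ring
    · have h3 := NB.I1.mul (NB.mul hρ hσ)
      rw [m1] at h3
      exact h3

/-- `(R - i) (1 - i T)` -/
def zv : Ev where
  s := 0
  d := 2
  b := mx3 (Nat.mul (Nat.add (nat_lit 262144) (nat_lit 16384))
      (Nat.add (nat_lit 16384) (Nat.mul (nat_lit 1) (nat_lit 262144))))
    (Nat.add (nat_lit 16384) (Nat.mul (nat_lit 1) (nat_lit 262144)))
    (Nat.mul (nat_lit 1) (Nat.add (nat_lit 262144) (nat_lit 16384)))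
  g := true
  ty := 0
  f := fun E => @Env.rec (fun _ => G) (fun x y _ _ _ _ _ _ ρ σ =>
    zuf (nat_lit 179769313486231590772930519078902473361797697894230657273430081157732675805500963132708477322407536021120113879871393357658789768814416622492847430639474110969959963482268385702277221395399966640087262359691628045276706960578432807926936308666529070259922820652728111753896392184596904358265409895975218053121) ρ σ (Nat.add x (nat_lit 179769313486231590772930519078902473361797697894230657273430081157732675805500963132708477322407536021120113879871393357658789768814416622492847430639254450852643713913986064450731615018293472189848497178984382938144213300473737887805991202039660691404077028720058910782759342322488783702832987424308542308353)) (Nat.add (nat_lit 16384) (Nat.mul (nat_lit 179769313486231590772930519078902473361797697894230657273430081157732675805500963132708477322407536021120113879871393357658789768814416622492847430639474110969959963482268385702277221395399966640087262359691628045276706960578432807926936308666529070259922820652728111753896392184596904358265409895975218053121)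 y))) E
  val := fun u w => vm.val u w * zm.val u w
  kd := Kd0 _
  ok := fun _ E X Y δ ε u w hE ho hu hw => by
    obtain ⟨x, y, mx, my, a, b, c, d, ρ, σ⟩ := E
    obtain ⟨hx, hy, hmx, hmy⟩ := hE
    obtain ⟨_, _, _, _, hρ, hσ⟩ := ho
    have h1 := hx.add (RBc (a := 0) (b := -16384) (B := nat_lit 16384) (n := nat_lit 179769313486231590772930519078902473361797697894230657273430081157732675805500963132708477322407536021120113879871393357658789768814416622492847430639254450852643713913986064450731615018293472189848497178984382938144213300473737887805991202039660691404077028720058910782759342322488783702832987424308542308353) rfl (by norm_num))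
    have h2 := (RBc (a := 16384) (b := 0) (B := nat_lit 16384) (n := nat_lit 16384) rfl (by norm_num)).add ((RBc (a := 0) (b := -1) (B := nat_lit 1) (n := nat_lit 179769313486231590772930519078902473361797697894230657273430081157732675805500963132708477322407536021120113879871393357658789768814416622492847430639474110969959963482268385702277221395399966640087262359691628045276706960578432807926936308666529070259922820652728111753896392184596904358265409895975218053121) rfl (by norm_num)).mul hy)
    have n1 : NB (tc _) (nrmE _) := h1.nrm (by decide)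
    have n2 : NB (tc _) (nrmE _) := h2.nrm (by decide)
    have hc := (h1.mul h2).mod
    have m1 : ∀ n : ℕ, Nat.mul 1 n = n := Nat.one_mul
    refine Enc.mkm (t := -(I * (δ * ε))) hc h2 ((RBc (a := 0) (b := -1) (B := nat_lit 1) (n := nat_lit 179769313486231590772930519078902473361797697894230657273430081157732675805500963132708477322407536021120113879871393357658789768814416622492847430639474110969959963482268385702277221395399966640087262359691628045276706960578432807926936308666529070259922820652728111753896392184596904358265409895975218053121) rfl (by norm_num)).mul h1) (mx3_1 _ _ _) (mx3_2 _ _ _) (mx3_3 _ _ _) ?_ ?_ ?_ ?_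
    · rw [map_mul]
      exact n1.mul n2
    · refine lin_NB n2 ?_
      rw [map_mul]
      have h3 : NB (tc ⟨0, -1⟩) 1 := (RBc (a := 0) (b := -1) (B := nat_lit 1) (n := nat_lit 179769313486231590772930519078902473361797697894230657273430081157732675805500963132708477322407536021120113879871393357658789768814416622492847430639474110969959963482268385702277221395399966640087262359691628045276706960578432807926936308666529070259922820652728111753896392184596904358265409895975218053121) rfl (by norm_num)).le
      have h4 := h3.mul n1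
      rw [m1] at h4
      exact h4
    · have e : (D : ℂ) ^ 2 * (vm.val u w * zm.val u w) = (D * u - D * I) * (D - I * (D * w)) := by
        change (D : ℂ) ^ 2 * ((u - gz 0 0 1 0) * (1 - I * w)) = _
        rw [gz_cI]
        ring
      rw [e, hu, hw, D_c]
      simp only [map_add, map_mul, tcm]
      push_cast
      ring
    · have h3 := NB.I1.mul (NB.mul hρ hσ)
      rw [m1] at h3
      exact h3.neg

end Ev

end

end Pool.Agent.Work.MP_b30479_gtS.G2.CN

end

section

/-!
# Expressions of a hinge in the variables `R` and `T = tan w`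

`w`: the variable of the first ring, `q = 1 + T ²`, `q' = R ² - T ²`. Groups with the letter `t`:
`tl`, `tr`: own values of the two rings; `tA B`, `tD s B`: outer values of the first and the second
ring with `B` crossings; `tY`, `tZ`, `tU`: the exponentials of the hinge, of the ring variable and of
their sum; `tYs`, `tUs`: the same at a split hinge.
-/

namespace Pool.Agent.Work.MP_b30479_gtS.G2.CN

open Complex SR

noncomputable section

namespace Ev

/-- `R + i` -/
def rp : Ev := vp
/-- `R - i` -/
def rm : Ev := vm

end Ev

open Ev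

/-- own value of the first ring -/
def tl (H : List QC) : Grp := ⟨.sc 2 one, tq, (rfl : 2 = 2), H⟩
/-- own value of the second ring -/
def tr (H : List QC) : Grp := ⟨.sc 2 one, tq2, (rfl : 2 = 2), H⟩

/-- outer value of the first ring -/
def tA2 (H : List QC) : Grp := ⟨.sc 2 (.sq tl2), tmA 1, (rfl : 6 = 6), H⟩
def tA3 (H : List QC) : Grp := ⟨.sc 2 (.sq tl3), tmA 2, (rfl : 8 = 8), H⟩
def tA4 (H : List QC) : Grp := ⟨.sc 2 (.sq tl4), tmA 3, (rfl : 10 = 10), H⟩
def tA5 (H : List QC) : Grp := ⟨.sc 2 (.sq tl5), tmA 4, (rfl : 12 = 12), H⟩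

/-- outer value of the second ring -/
def tD2 (a b : ℕ) (H : List QC) : Grp := ⟨.sc 2 (.sq (tr2 a b)), tmD 1, (rfl : 6 = 6), H⟩
def tD3 (a b : ℕ) (H : List QC) : Grp := ⟨.sc 2 (.sq (tr3 a b)), tmD 2, (rfl : 8 = 8), H⟩
def tD4 (a b : ℕ) (H : List QC) : Grp := ⟨.sc 2 (.sq (tr4 a b)), tmD 3, (rfl : 10 = 10), H⟩
def tD5 (a b : ℕ) (H : List QC) : Grp := ⟨.sc 2 (.sq (tr5 a b)), tmD 4, (rfl : 12 = 12), H⟩

/-- the first ring is an end -/
def tF2 : Grp := ⟨tl2, .sc 2 one, (rfl : 2 = 2), zeroQ⟩
def tF3 : Grp := ⟨tl3, .sc 3 one, (rfl : 3 = 3), zeroQ⟩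
def tF4 : Grp := ⟨tl4, .sc 4 one, (rfl : 4 = 4), zeroQ⟩
def tF5 : Grp := ⟨tl5, .sc 5 one, (rfl : 5 = 5), zeroQ⟩

/-- the second ring is an end -/
def tE2 (a b : ℕ) : Grp := ⟨tr2 a b, .sc 2 one, (rfl : 2 = 2), zeroQ⟩
def tE3 (a b : ℕ) : Grp := ⟨tr3 a b, .sc 3 one, (rfl : 3 = 3), zeroQ⟩
def tE4 (a b : ℕ) : Grp := ⟨tr4 a b, .sc 4 one, (rfl : 4 = 4), zeroQ⟩
def tE5 (a b : ℕ) : Grp := ⟨tr5 a b, .sc 5 one, (rfl : 5 = 5), zeroQ⟩

/-- the hinge: `exp (2 π i y) = (R + i) / (R - i)` -/
def tY (H : List QC) : Grp := ⟨rp, rm, (rfl : 1 = 1), H⟩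
/-- the ring variable: `exp (2 i w) = (1 + i T) / (1 - i T)` -/
def tZ (H : List QC) : Grp := ⟨zp, zm, (rfl : 1 = 1), H⟩
/-- the sum -/
def tU (H : List QC) : Grp := ⟨zu, zv, (rfl : 2 = 2), H⟩
/-- the split hinge: `exp (2 π i y) = (T ² - 1 + 2 i R) / (T ² + 1)` -/
def tYs (H : List QC) : Grp := ⟨tl2, tq, (rfl : 2 = 2), H⟩
/-- the sum at a split hinge -/
def tUs (H : List QC) : Grp := ⟨tl2, zm2, (rfl : 2 = 2), H⟩

/-! ### values -/

namespace Ev

variable (u w : ℂ)

lemma val_tq : tq.val u w = w ^ 2 + 1 := rfl

lemma val_tq2 : tq2.val u w = u ^ 2 + 1 - (w ^ 2 + 1) := rfl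

lemma val_tl2 : 2 * tl2.val u w = DB I 2 u (w ^ 2 + 1) := by
  change 2 * (w ^ 2 - 1 + 2 * I * u) = _
  simp only [DB, cab]
  ring

lemma val_tl3 : 2 * tl3.val u w = DB I 3 u (w ^ 2 + 1) := by
  change 2 * (I * u * (3 - w ^ 2) - (1 - 3 * w ^ 2)) = _
  simp only [DB, cab]
  ring

lemma val_tl4 : 2 * tl4.val u w = DB I 4 u (w ^ 2 + 1) := by
  change 2 * (4 * I * u * (1 - w ^ 2) - (w ^ 4 - 6 * w ^ 2 + 1)) = _
  simp only [DB, cab]
  ring

lemma val_tl5 : 2 * tl5.val u w = DB I 5 u (w ^ 2 + 1) := by
  change 2 * (I * u * (w ^ 4 - 10 * w ^ 2 + 5) - (5 * w ^ 4 - 10 * w ^ 2 + 1)) = _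
  simp only [DB, cab]
  ring

lemma val_tr2 (a b : ℕ) :
    2 * (tr2 a b).val u w = DB (((a : ℂ) - b) * I) 2 u (u ^ 2 + 1 - (w ^ 2 + 1)) := by
  change 2 * (u ^ 2 - w ^ 2 - 2 + 2 * gz 0 0 a b * u) = _
  rw [gz_ab]
  simp only [DB, cab]
  ring

lemma val_tr3 (a b : ℕ) :
    2 * (tr3 a b).val u w = DB (((a : ℂ) - b) * I) 3 u (u ^ 2 + 1 - (w ^ 2 + 1)) := by
  change 2 * (gz 0 0 a b * u * (4 - (u ^ 2 - w ^ 2)) - (4 - 3 * (u ^ 2 - w ^ 2))) = _
  rw [gz_ab]
  simp only [DB, cab]
  ring

lemma val_tr4 (a b : ℕ) :
    2 * (tr4 a b).val u w = DB (((a : ℂ) - b) * I) 4 u (u ^ 2 + 1 - (w ^ 2 + 1)) := by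
  change 2 * (4 * gz 0 0 a b * u * (2 - (u ^ 2 - w ^ 2)) -
    ((u ^ 2 - w ^ 2) ^ 2 - 8 * (u ^ 2 - w ^ 2) + 8)) = _
  rw [gz_ab]
  simp only [DB, cab]
  ring

lemma val_tr5 (a b : ℕ) :
    2 * (tr5 a b).val u w = DB (((a : ℂ) - b) * I) 5 u (u ^ 2 + 1 - (w ^ 2 + 1)) := by
  change 2 * (gz 0 0 a b * u * ((u ^ 2 - w ^ 2) ^ 2 - 12 * (u ^ 2 - w ^ 2) + 16) -
    (5 * (u ^ 2 - w ^ 2) ^ 2 - 20 * (u ^ 2 - w ^ 2) + 16)) = _
  rw [gz_ab]
  simp only [DB, cab]
  ring

lemma val_zp : zp.val u w = 1 + I * w := rfl

lemma val_zm : zm.val u w = 1 - I * w := rfl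

lemma val_rp : rp.val u w = u + I := by
  change u + gz 0 0 1 0 = _
  rw [gz_I]
  push_cast
  ring

lemma val_rm : rm.val u w = u - I := by
  change u - gz 0 0 1 0 = _
  rw [gz_I]
  push_cast
  ring

end Ev

/-! ### own values -/

section
variable {R T q q' : ℂ} {H : List QC}

lemma tl_ok {k : ℂ} (h0 : k ≠ 0) (hT : T ^ 2 + 1 = 1 / k ^ 2) (h : Sat H (k ^ 2)) :
    (tl H).Ok R T := by
  refine ⟨k ^ 2, ?_, h⟩
  change k ^ 2 * tq.val R T = one.val R T
  rw [val_one, val_tq, hT, mul_one_div_cancel (pow_ne_zero 2 h0)]

lemma tr_ok {k' : ℂ} (h0 : k' ≠ 0) (hT : T ^ 2 + 1 = q) (hq : R ^ 2 + 1 - q = 1 / k' ^ 2)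
    (h : Sat H (k' ^ 2)) : (tr H).Ok R T := by
  refine ⟨k' ^ 2, ?_, h⟩
  change k' ^ 2 * tq2.val R T = one.val R T
  rw [val_one, val_tq2, hT, hq, mul_one_div_cancel (pow_ne_zero 2 h0)]

/-! ### outer values -/

section
variable (hT : T ^ 2 + 1 = q) (hq : R ^ 2 + 1 - q = q')
include hT hq

lemma r2t : R ^ 2 - T ^ 2 = q' := by rw [← hq, ← hT]; ring

lemma tA2_ok {S : Set ℂ} (hS : InH S H) (h : Out I 2 R q q' (some S)) : (tA2 H).Ok R T := by
  obtain ⟨k, hk, h2⟩ := h
  rw [← hT, ← val_tl2] at h2
  refine ⟨k ^ 2, ?_, hS k hk⟩
  change k ^ 2 * ((T ^ 2 + 1) ^ (1 + 1) * (R ^ 2 - T ^ 2)) = tl2.val R T ^ 2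
  rw [r2t hT hq]
  have := out_aux h2
  linear_combination this

lemma tA3_ok {S : Set ℂ} (hS : InH S H) (h : Out I 3 R q q' (some S)) : (tA3 H).Ok R T := by
  obtain ⟨k, hk, h2⟩ := h
  rw [← hT, ← val_tl3] at h2
  refine ⟨k ^ 2, ?_, hS k hk⟩
  change k ^ 2 * ((T ^ 2 + 1) ^ (2 + 1) * (R ^ 2 - T ^ 2)) = tl3.val R T ^ 2
  rw [r2t hT hq]
  have := out_aux h2
  linear_combination this

lemma tA4_ok {S : Set ℂ} (hS : InH S H) (h : Out I 4 R q q' (some S)) : (tA4 H).Ok R T := by
  obtain ⟨k, hk, h2⟩ := h
  rw [← hT, ← val_tl4] at h2
  refine ⟨k ^ 2, ?_, hS k hk⟩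
  change k ^ 2 * ((T ^ 2 + 1) ^ (3 + 1) * (R ^ 2 - T ^ 2)) = tl4.val R T ^ 2
  rw [r2t hT hq]
  have := out_aux h2
  linear_combination this

lemma tA5_ok {S : Set ℂ} (hS : InH S H) (h : Out I 5 R q q' (some S)) : (tA5 H).Ok R T := by
  obtain ⟨k, hk, h2⟩ := h
  rw [← hT, ← val_tl5] at h2
  refine ⟨k ^ 2, ?_, hS k hk⟩
  change k ^ 2 * ((T ^ 2 + 1) ^ (4 + 1) * (R ^ 2 - T ^ 2)) = tl5.val R T ^ 2
  rw [r2t hT hq]
  have := out_aux h2
  linear_combination this

lemma tD2_ok {a b : ℕ} {j : ℂ} (hj : j = ((a : ℂ) - b) * I) {S : Set ℂ} (hS : InH S H)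
    (h : Out j 2 R q' q (some S)) : (tD2 a b H).Ok R T := by
  obtain ⟨k, hk, h2⟩ := h
  rw [hj, ← hq, ← hT, ← val_tr2] at h2
  refine ⟨k ^ 2, ?_, hS k hk⟩
  change k ^ 2 * ((R ^ 2 - T ^ 2) ^ (1 + 1) * (T ^ 2 + 1)) = (tr2 a b).val R T ^ 2
  have := out_aux h2
  linear_combination this

lemma tD3_ok {a b : ℕ} {j : ℂ} (hj : j = ((a : ℂ) - b) * I) {S : Set ℂ} (hS : InH S H)
    (h : Out j 3 R q' q (some S)) : (tD3 a b H).Ok R T := by
  obtain ⟨k, hk, h2⟩ := h
  rw [hj, ← hq, ← hT, ← val_tr3] at h2
  refine ⟨k ^ 2, ?_, hS k hk⟩
  change k ^ 2 * ((R ^ 2 - T ^ 2) ^ (2 + 1) * (T ^ 2 + 1)) = (tr3 a b).val R T ^ 2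
  have := out_aux h2
  linear_combination this

lemma tD4_ok {a b : ℕ} {j : ℂ} (hj : j = ((a : ℂ) - b) * I) {S : Set ℂ} (hS : InH S H)
    (h : Out j 4 R q' q (some S)) : (tD4 a b H).Ok R T := by
  obtain ⟨k, hk, h2⟩ := h
  rw [hj, ← hq, ← hT, ← val_tr4] at h2
  refine ⟨k ^ 2, ?_, hS k hk⟩
  change k ^ 2 * ((R ^ 2 - T ^ 2) ^ (3 + 1) * (T ^ 2 + 1)) = (tr4 a b).val R T ^ 2
  have := out_aux h2
  linear_combination this

lemma tD5_ok {a b : ℕ} {j : ℂ} (hj : j = ((a : ℂ) - b) * I) {S : Set ℂ} (hS : InH S H)
    (h : Out j 5 R q' q (some S)) : (tD5 a b H).Ok R T := by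
  obtain ⟨k, hk, h2⟩ := h
  rw [hj, ← hq, ← hT, ← val_tr5] at h2
  refine ⟨k ^ 2, ?_, hS k hk⟩
  change k ^ 2 * ((R ^ 2 - T ^ 2) ^ (4 + 1) * (T ^ 2 + 1)) = (tr5 a b).val R T ^ 2
  have := out_aux h2
  linear_combination this

end

/-! ### ends -/

section
variable (hT : T ^ 2 + 1 = q)
include hT

lemma tF2_ok (h : Out I 2 R q q' none) : tF2.Ok R T :=
  zero_ok rfl ((val_tl2 R T).trans (by rw [hT]; exact h))
lemma tF3_ok (h : Out I 3 R q q' none) : tF3.Ok R T :=
  zero_ok rfl ((val_tl3 R T).trans (by rw [hT]; exact h))
lemma tF4_ok (h : Out I 4 R q q' none) : tF4.Ok R T :=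
  zero_ok rfl ((val_tl4 R T).trans (by rw [hT]; exact h))
lemma tF5_ok (h : Out I 5 R q q' none) : tF5.Ok R T :=
  zero_ok rfl ((val_tl5 R T).trans (by rw [hT]; exact h))

variable (hq : R ^ 2 + 1 - q = q')
include hq

lemma tE2_ok {a b : ℕ} {j : ℂ} (hj : j = ((a : ℂ) - b) * I) (h : Out j 2 R q' q none) :
    (tE2 a b).Ok R T := by
  apply zero_ok rfl
  change 2 * (tr2 a b).val R T = 0
  rw [val_tr2, ← hj, hT, hq]
  exact h
lemma tE3_ok {a b : ℕ} {j : ℂ} (hj : j = ((a : ℂ) - b) * I) (h : Out j 3 R q' q none) :
    (tE3 a b).Ok R T := by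
  apply zero_ok rfl
  change 2 * (tr3 a b).val R T = 0
  rw [val_tr3, ← hj, hT, hq]
  exact h
lemma tE4_ok {a b : ℕ} {j : ℂ} (hj : j = ((a : ℂ) - b) * I) (h : Out j 4 R q' q none) :
    (tE4 a b).Ok R T := by
  apply zero_ok rfl
  change 2 * (tr4 a b).val R T = 0
  rw [val_tr4, ← hj, hT, hq]
  exact h
lemma tE5_ok {a b : ℕ} {j : ℂ} (hj : j = ((a : ℂ) - b) * I) (h : Out j 5 R q' q none) :
    (tE5 a b).Ok R T := by
  apply zero_ok rfl
  change 2 * (tr5 a b).val R T = 0
  rw [val_tr5, ← hj, hT, hq]
  exact h

end

end

end

end Pool.Agent.Work.MP_b30479_gtS.G2.CN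

end
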