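import Pool.Agent.Work.MP_b30479_gt.TBS.G2.CN.HPoly
import Pool.Agent.Work.MP_b30479_gt.TBS.G2.CN.HBox
import Pool.Agent.Work.MP_b30479_gt.TBS.G2.SZa
import Pool.Agent.Work.MP_b30479_gt.TBS.G2.CN.TNod

section

/-!
# Classes of rings

`Cls`: conditions for the value of a ring and the groups of its outer value as a first and as a
second ring; `Cls.Ok c x d l`: the class is right for the ring `(d, l)` at a hinge of kind `x`.
-/

namespace Pool.Agent.Work.MP_b30479_gtS.G2.CN

open Complex SR

noncomputable section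

/-- a class of rings -/
structure Cls where
  own : List QC
  L : List Grp
  R : List Grp

/-- the conditions for a second ring, in the frame of the first ring -/
def ownR (x : SK) (H : List QC) : List QC := match x with | .a => mirH H | _ => H

/-- the class is right for the ring `(d, l)` at a hinge of kind `x` -/
structure Cls.Ok (c : Cls) (x : SK) (d : ℕ) (l : SK) : Prop where
  own : ∀ {K : KFam}, KOK K → ROK d l x → InH (K.K d l x) c.own
  L : ∀ {K : KFam}, KOK K → ∀ {R q q' : ℂ}, R ^ 2 + 1 - q = q' →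
    Out I (crs d l x) R q q' (port K d (crs d l x) l) → AllOk R q c.L
  R : ∀ {K : KFam}, KOK K → ∀ {R q q' : ℂ}, R ^ 2 + 1 - q = q' →
    Out (x.sgn * I) (crs d l x) R q' q ((port K d (crs d l x) l).map (frS x.sgn)) → AllOk R q c.R

lemma ne_of_re {k : ℂ} (h : 0 < k.re) : k ≠ 0 := by
  rintro rfl
  simp at h

lemma inH_ownR {x : SK} {S : Set ℂ} {H : List QC} (h : InH S H) : InH (frS x.sgn S) (ownR x H) := by
  cases x
  · exact h.fr
  · exact h.mir
  · exact h.fr
  · exact h.fr

/-- the groups of a hinge -/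
def gsOf (x : SK) (c c' : Cls) : List Grp :=
  gl c.own :: gr (ownR x c'.own) :: (c.L ++ c'.R)

/-- all groups of a hinge hold -/
theorem gs_ok {x : SK} {d : ℕ} {l : SK} {d' : ℕ} {l' : SK} {c c' : Cls} (hL : c.Ok x d l)
    (hR : c'.Ok x d' l') {K : KFam} (hK : KOK K) {R k k' : ℂ} (h : HDt K x d l d' l' R k k') :
    AllOk R (1 / k ^ 2) (gsOf x c c') := by
  have hq : R ^ 2 + 1 - 1 / k ^ 2 = 1 / k' ^ 2 := by
    rw [h.hinge]
    ring
  refine AllOk.cons (gl_ok (ne_of_re h.kre) (hL.own hK h.ok.left k h.mem)) (AllOk.cons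
    (gr_ok (ne_of_re h.kre') hq ?_) ((hL.L hK hq h.out).append (hR.R hK hq ?_)))
  · have h1 := inH_ownR (x := x) (hR.own hK h.ok.right.symm)
    rw [← K.symm] at h1
    exact h1 k' h.mem'
  · have h2 := h.out'
    rwa [crs_symm] at h2

/-- the hinge is in the box -/
theorem cls_H {x : SK} {d : ℕ} {l : SK} {d' : ℕ} {l' : SK} {c c' : Cls} (hL : c.Ok x d l)
    (hR : c'.Ok x d' l') {go : List Grp} {n code : ℕ}
    (hr : row (gsOf x c c') go n code root = true) {s : BB} (hs : s.ok = true)
    (hg : gH s.H ∈ go) {K : KFam} (hK : KOK K) {R k k' : ℂ} (h : HDt K x d l d' l' R k k') :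
    s.box.In (acot2 R) :=
  box_H hr (hK.root h) (gs_ok hL hR hK h) hg hs (r0_pos.trans h.Rre)

/-- the inner variable behind an unsplit hinge is in the box -/
theorem cls_S {x : SK} {d : ℕ} {l : SK} {d' : ℕ} {l' : SK} {c c' : Cls} (hL : c.Ok x d l)
    (hR : c'.Ok x d' l') {go : List Grp} {n code : ℕ}
    (hr : row (gsOf x c c') go n code root = true) {s : BB} (hs : s.ok = true)
    (hg : gS s.H ∈ go) {K : KFam} (hK : KOK K) {R k k' : ℂ} (h : HDt K x d l d' l' R k k') :
    s.box.In (acot2 (Sp R k)) :=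
  box_S hr (hK.root h) (gs_ok hL hR hK h) hg hs (r0_pos.trans h.Rre) (ne_of_re h.kre)

/-! ### side `a` -/

lemma one_I : (((1 : ℝ) : ℝ) : ℂ) * I = (((1 : ℕ) : ℂ) - (0 : ℕ)) * I := by norm_num

lemma neg_I : (((-1 : ℝ) : ℝ) : ℂ) * I = (((0 : ℕ) : ℂ) - (1 : ℕ)) * I := by norm_num

lemma InH.mm {S : Set ℂ} {H : List QC} (h : InH S H) : InH (frS (-1) (frS (-1) S)) H := by
  rw [frS_frS (Or.inr rfl)]
  exact h

lemma ok1 {R q : ℂ} {g : Grp} (h : g.Ok R q) : AllOk R q [g] := AllOk.cons h AllOk.nil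

/-- digit `1` -/
def a1s : Cls := ⟨h2as, [gA2 hST], [gD2 0 1 (mirH hST)]⟩

theorem a1s_ok : a1s.Ok .a 1 .s where
  own := fun hK h => hK.inH h h2as_ok
  L := fun hK _ _ _ hq h => ok1 (gA2_ok (portST hK (by decide)) hq h)
  R := fun hK _ _ _ hq h => ok1 (gD2_ok neg_I (portST hK (by decide)).mir hq h)

/-- digit `2` -/
def a2a : Cls := ⟨h2aa, [gA2 (mirH hA2)], [gD2 0 1 hA2]⟩

theorem a2a_ok : a2a.Ok .a 2 .a where
  own := fun hK h => hK.inH h h2aa_ok
  L := fun hK _ _ _ hq h => ok1 (gA2_ok (portA hK).mir hq h)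
  R := fun hK _ _ _ hq h => ok1 (gD2_ok neg_I (portA hK).mm hq h)

/-- digit `2`, split side -/
def a2s : Cls := ⟨h3as, [gA3 hS2], [gD3 0 1 (mirH hS2)]⟩

theorem a2s_ok : a2s.Ok .a 2 .s where
  own := fun hK h => hK.inH h h3as_ok
  L := fun hK _ _ _ hq h => ok1 (gA3_ok (portS hK) hq h)
  R := fun hK _ _ _ hq h => ok1 (gD3_ok neg_I (portS hK).mir hq h)

/-- digit `2`, end -/
def a2e : Cls := ⟨h2ea, [gF2], [gE2 0 1]⟩

theorem a2e_ok : a2e.Ok .a 2 .e where
  own := fun hK h => hK.inH h h2ea_ok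
  L := fun _ _ _ _ _ h => ok1 (gF2_ok h)
  R := fun _ _ _ _ hq h => ok1 (gE2_ok neg_I hq h)

/-- digit `3` -/
def a3a : Cls := ⟨h3aa, [gA3 (mirH hA2)], [gD3 0 1 hA2]⟩

theorem a3a_ok : a3a.Ok .a 3 .a where
  own := fun hK h => hK.inH h h3aa_ok
  L := fun hK _ _ _ hq h => ok1 (gA3_ok (portA hK).mir hq h)
  R := fun hK _ _ _ hq h => ok1 (gD3_ok neg_I (portA hK).mm hq h)

/-- digit `3`, split side -/
def a3s : Cls := ⟨h4as, [gA4 hS3], [gD4 0 1 (mirH hS3)]⟩

theorem a3s_ok : a3s.Ok .a 3 .s where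
  own := fun hK h => hK.inH h h4as_ok
  L := fun hK _ _ _ hq h => ok1 (gA4_ok (portS3 hK (by decide)) hq h)
  R := fun hK _ _ _ hq h => ok1 (gD4_ok neg_I (portS3 hK (by decide)).mir hq h)

/-- digit `3`, end -/
def a3e : Cls := ⟨h3ea, [gF3], [gE3 0 1]⟩

theorem a3e_ok : a3e.Ok .a 3 .e where
  own := fun hK h => hK.inH h h3ea_ok
  L := fun _ _ _ _ _ h => ok1 (gF3_ok h)
  R := fun _ _ _ _ hq h => ok1 (gE3_ok neg_I hq h)

/-- digit `4` -/
def a4a : Cls := ⟨h4aa, [gA4 (mirH hA2)], [gD4 0 1 hA2]⟩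

theorem a4a_ok : a4a.Ok .a 4 .a where
  own := fun hK h => hK.inH h h4aa_ok
  L := fun hK _ _ _ hq h => ok1 (gA4_ok (portA hK).mir hq h)
  R := fun hK _ _ _ hq h => ok1 (gD4_ok neg_I (portA hK).mm hq h)

/-- digit `4`, side `z` -/
def a4z : Cls := ⟨h4az, [gA4 hPZ], [gD4 0 1 (mirH hPZ)]⟩

theorem a4z_ok : a4z.Ok .a 4 .z where
  own := fun hK h => hK.inH h h4az_ok
  L := fun hK _ _ _ hq h => ok1 (gA4_ok (portZ hK) hq h)
  R := fun hK _ _ _ hq h => ok1 (gD4_ok neg_I (portZ hK).mir hq h)

/-- digit `4`, end -/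
def a4e : Cls := ⟨h4ea, [gF4], [gE4 0 1]⟩

theorem a4e_ok : a4e.Ok .a 4 .e where
  own := fun hK h => hK.inH h h4ea_ok
  L := fun _ _ _ _ _ h => ok1 (gF4_ok h)
  R := fun _ _ _ _ hq h => ok1 (gE4_ok neg_I hq h)

/-- digit `4`, split side -/
def a4s : Cls := ⟨h5as, [gA5 hS3], [gD5 0 1 (mirH hS3)]⟩

theorem a4s_ok : a4s.Ok .a 4 .s where
  own := fun hK h => hK.inH h h5as_ok
  L := fun hK _ _ _ hq h => ok1 (gA5_ok (portS3 hK (by decide)) hq h)
  R := fun hK _ _ _ hq h => ok1 (gD5_ok neg_I (portS3 hK (by decide)).mir hq h)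

/-- digit `5` -/
def a5a : Cls := ⟨h5aa, [gA5 (mirH hA2)], [gD5 0 1 hA2]⟩

theorem a5a_ok : a5a.Ok .a 5 .a where
  own := fun hK h => hK.inH h h5aa_ok
  L := fun hK _ _ _ hq h => ok1 (gA5_ok (portA hK).mir hq h)
  R := fun hK _ _ _ hq h => ok1 (gD5_ok neg_I (portA hK).mm hq h)

/-- digit `5`, side `z` -/
def a5z : Cls := ⟨h5az, [gA5 hPZ], [gD5 0 1 (mirH hPZ)]⟩

theorem a5z_ok : a5z.Ok .a 5 .z where
  own := fun hK h => hK.inH h h5az_ok
  L := fun hK _ _ _ hq h => ok1 (gA5_ok (portZ hK) hq h)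
  R := fun hK _ _ _ hq h => ok1 (gD5_ok neg_I (portZ hK).mir hq h)

/-- digit `5`, end -/
def a5e : Cls := ⟨h5ea, [gF5], [gE5 0 1]⟩

theorem a5e_ok : a5e.Ok .a 5 .e where
  own := fun hK h => hK.inH h h5ea_ok
  L := fun _ _ _ _ _ h => ok1 (gF5_ok h)
  R := fun _ _ _ _ hq h => ok1 (gE5_ok neg_I hq h)

/-- digits at least `5` -/
def n5 : Cls := ⟨hn5, [], []⟩

theorem n5_ok {d : ℕ} {l : SK} (hd : 5 ≤ d) : n5.Ok .a d l where
  own := fun hK h => by
    refine hK.inU h hn5_ok ?_ (min_le_right _ _)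
    unfold crs
    cases l <;> simp only [SK.u, lo5] <;> omega
  L := fun _ _ _ _ _ _ => AllOk.nil
  R := fun _ _ _ _ _ _ => AllOk.nil

/-- at least `6` crossings -/
def n6 : Cls := ⟨hn6, [], []⟩

theorem n6_ok {d : ℕ} {l : SK} (hd : 6 ≤ crs d l .a) : n6.Ok .a d l where
  own := fun hK h => by
    refine hK.inU h hn6_ok ?_ (min_le_right _ _)
    unfold lo6
    omega
  L := fun _ _ _ _ _ _ => AllOk.nil
  R := fun _ _ _ _ _ _ => AllOk.nil

end

end Pool.Agent.Work.MP_b30479_gtS.G2.CN

end

section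

/-!
# Bounds from the goals of a run in the variables `R`, `T`

`GC`: a condition on `exp (2 π i y)` whose failure gives a bound for `y` (`GC.spec`), or which follows
from a bound for `y` (`GC.imp`).
-/

namespace Pool.Agent.Work.MP_b30479_gtS.G2.CN

open Complex SR NumIs

noncomputable section

/-- the conditions: `arc`: nonnegative for `n / 10000 ≤ Re y ≤ m / 10000`; `lo`, `hi`: imaginary part
at least, at most `m / 10000`. -/
inductive GC where
  | arc (n m : ℕ) (a b : ℤ)
  | lo (m c : ℤ)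
  | hi (m c : ℤ)

namespace GC

/-- the condition which fails -/
def q : GC → QC
  | arc _ _ a b => ⟨a, b, 0, 0⟩
  | lo _ c => ⟨0, 0, -1000000, c⟩
  | hi _ c => ⟨0, 0, 1000000, -c⟩

/-- the check for the failing condition -/
def ok : GC → Bool
  | arc n m a b => Nat.blt n m && Nat.blt m (Nat.add 5000 n) && chk [BB.eF a b n] 1 [] &&
      chk [BB.eF a b m] 1 []
  | lo m c => chk [BB.eT m c] 1 []
  | hi m c => chk [.neg (BB.eT m c)] 1 []

/-- the bound -/
def P (y : ℂ) : GC → Prop
  | arc n m _ _ => ¬ ((n : ℝ) / 10000 ≤ y.re ∧ y.re ≤ (m : ℝ) / 10000)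
  | lo m _ => (m : ℝ) / 10000 ≤ y.im
  | hi m _ => y.im ≤ (m : ℝ) / 10000

lemma arc_sat {n m : ℕ} {a b : ℤ} (h : (arc n m a b).ok = true) {y : ℂ}
    (h1 : (n : ℝ) / 10000 ≤ y.re) (h2 : y.re ≤ (m : ℝ) / 10000) :
    (⟨a, b, 0, 0⟩ : QC).Sat (cexp (2 * Real.pi * I * y)) := by
  have hpi := Real.pi_pos
  unfold ok at h
  simp only [Bool.and_eq_true, Nat.blt_eq] at h
  obtain ⟨⟨⟨k1, k2⟩, g1⟩, g2⟩ := h
  have G1 := pos_of_chk (chk_sound g1 List.Forall₂.nil)
  have G2 := pos_of_chk (chk_sound g2 List.Forall₂.nil)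
  simp only [BB.eF, E.val, Int.cast_natCast] at G1 G2
  push_cast at G1 G2
  have e1 : Real.pi * ((n : ℝ) / 5000) = 2 * Real.pi * ((n : ℝ) / 10000) := by ring
  have e2 : Real.pi * ((m : ℝ) / 5000) = 2 * Real.pi * ((m : ℝ) / 10000) := by ring
  rw [e1] at G1
  rw [e2] at G2
  have i1 : (n : ℝ) < m := by exact_mod_cast k1
  have i2 : (m : ℝ) < 5000 + n := by exact_mod_cast k2
  have h3 := comb_nonneg (a := a) (b := b) (α := 2 * Real.pi * ((n : ℝ) / 10000))
    (β := 2 * Real.pi * ((m : ℝ) / 10000)) (θ := 2 * Real.pi * y.re) (by nlinarith only [h1, hpi])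
    (by nlinarith only [h2, hpi]) (by nlinarith only [hpi, i1]) (by nlinarith only [hpi, i2]) (by simpa using G1.le) (by simpa using G2.le)
  unfold QC.Sat
  rw [exp_re, exp_im]
  have hp := Real.exp_pos (-(2 * Real.pi * y.im))
  have := mul_nonneg hp.le h3
  push_cast
  nlinarith only [this]

/-- a failing condition gives the bound -/
theorem spec {g : GC} (h : g.ok = true) {y : ℂ} (hS : ¬ g.q.Sat (cexp (2 * Real.pi * I * y))) :
    g.P y := by
  cases g with
  | arc n m a b => exact fun hc => hS (arc_sat h hc.1 hc.2)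
  | lo m c =>
    have hpi := Real.pi_pos
    have G := pos_of_chk (chk_sound (show chk [BB.eT m c] 1 [] = true from h) List.Forall₂.nil)
    simp only [BB.eT, E.val] at G
    push_cast at G
    unfold q QC.Sat at hS
    rw [exp_nsq] at hS
    push_cast at hS
    show (m : ℝ) / 10000 ≤ y.im
    by_contra hc
    push Not at hc
    apply hS
    have h4 : Real.exp (Real.pi * (-(m : ℝ) / 2500)) ≤ Real.exp (-(4 * Real.pi * y.im)) := by
      apply Real.exp_le_exp.2
      nlinarith only [hpi, hc]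
    linarith only [G, hS, h4]
  | hi m c =>
    have hpi := Real.pi_pos
    have G := pos_of_chk (chk_sound (show chk [.neg (BB.eT m c)] 1 [] = true from h)
      List.Forall₂.nil)
    simp only [BB.eT, E.val] at G
    push_cast at G
    unfold q QC.Sat at hS
    rw [exp_nsq] at hS
    push_cast at hS
    show y.im ≤ (m : ℝ) / 10000
    by_contra hc
    push Not at hc
    apply hS
    have h4 : Real.exp (-(4 * Real.pi * y.im)) ≤ Real.exp (Real.pi * (-(m : ℝ) / 2500)) := by
      apply Real.exp_le_exp.2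
      nlinarith only [hpi, hc]
    linarith only [G, hS, h4]

/-- the condition which follows from the bound -/
def qi : GC → QC
  | arc _ _ a b => ⟨a, b, 0, 0⟩
  | lo _ c => ⟨0, 0, 1000000, -c⟩
  | hi _ c => ⟨0, 0, -1000000, c⟩

/-- the check for the condition which follows -/
def oki : GC → Bool
  | arc n m a b => (arc n m a b).ok
  | lo m c => (hi m c).ok
  | hi m c => (lo m c).ok

/-- the given bound -/
def G (y : ℂ) : GC → Prop
  | arc n m _ _ => (n : ℝ) / 10000 ≤ y.re ∧ y.re ≤ (m : ℝ) / 10000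
  | lo m _ => (m : ℝ) / 10000 ≤ y.im
  | hi m _ => y.im ≤ (m : ℝ) / 10000

/-- the bound gives the condition -/
theorem imp {g : GC} (h : g.oki = true) {y : ℂ} (hg : g.G y) :
    g.qi.Sat (cexp (2 * Real.pi * I * y)) := by
  cases g with
  | arc n m a b => exact arc_sat h hg.1 hg.2
  | lo m c =>
    have hpi := Real.pi_pos
    have G := pos_of_chk (chk_sound (show chk [.neg (BB.eT m c)] 1 [] = true from h)
      List.Forall₂.nil)
    simp only [BB.eT, E.val] at G
    push_cast at G
    change (m : ℝ) / 10000 ≤ y.im at hg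
    unfold qi QC.Sat
    rw [exp_nsq]
    push_cast
    have h4 : Real.exp (-(4 * Real.pi * y.im)) ≤ Real.exp (Real.pi * (-(m : ℝ) / 2500)) := by
      apply Real.exp_le_exp.2
      nlinarith only [hpi, hg]
    linarith only [G, h4]
  | hi m c =>
    have hpi := Real.pi_pos
    have G := pos_of_chk (chk_sound (show chk [BB.eT m c] 1 [] = true from h) List.Forall₂.nil)
    simp only [BB.eT, E.val] at G
    push_cast at G
    change y.im ≤ (m : ℝ) / 10000 at hg
    unfold qi QC.Sat
    rw [exp_nsq]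
    push_cast
    have h4 : Real.exp (Real.pi * (-(m : ℝ) / 2500)) ≤ Real.exp (-(4 * Real.pi * y.im)) := by
      apply Real.exp_le_exp.2
      nlinarith only [hpi, hg]
    linarith only [G, h4]

end GC

/-! ### exponentials -/

lemma exp_zeta {w : ℂ} (hc : Complex.cos w ≠ 0) :
    cexp (2 * Real.pi * I * (-zeta w)) * (1 - I * Complex.tan w) = 1 + I * Complex.tan w := by
  have hpi : (Real.pi : ℂ) ≠ 0 := by exact_mod_cast Real.pi_pos.ne'
  have e : 2 * Real.pi * I * (-zeta w) = w * I + w * I := by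
    unfold zeta
    field_simp
    ring
  have hI : I * I = -1 := Complex.I_mul_I
  have e1 : cexp (w * I) = Complex.cos w + Complex.sin w * I := Complex.exp_mul_I w
  have hs := Complex.sin_sq_add_cos_sq w
  rw [e, Complex.exp_add, e1, Complex.tan_eq_sin_div_cos]
  field_simp
  linear_combination (Complex.cos w + Complex.sin w * I) * hs +
    (Complex.sin w ^ 2 * (-Complex.cos w - I * Complex.sin w)) * hI

lemma ne_nI_of_half {z : ℂ} (h : (acot2 z).re < 1 / 2) : z ≠ -I := by
  rintro rfl
  have e : acot2 (-I) = 1 / 2 := by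
    unfold acot2 Complex.arctan
    have : (1 : ℂ) - -I * I = 0 := by
      linear_combination Complex.I_mul_I
    rw [this]
    simp
  rw [e] at h
  norm_num at h

lemma exp_split {R k : ℂ} (hR : 0 < R.re) (hk : k ≠ 0) (h2 : (acot2 (Sp R k)).re < 1 / 2) :
    cexp (2 * Real.pi * I * acot2 (Sp R k)) * (1 / k ^ 2) = 1 / k ^ 2 - 2 + 2 * I * R := by
  have hRI : R + I ≠ 0 := by
    intro h
    exact (ne_I_of_re hR).2 (by linear_combination h)
  have h1 : Sp R k ≠ I := Sp_ne_I hRI hk
  have h3 := exp_acot2 h1 (ne_nI_of_half h2)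
  have e := Sp_sub (k := k) hRI
  have hS : Sp R k - I ≠ 0 := sub_ne_zero.2 h1
  apply mul_left_cancel₀ hS
  linear_combination (1 / k ^ 2) * h3 - 2 * I * e + (2 * (Sp R k - I)) * Complex.I_mul_I

/-! ### the root cell -/

/-- the root cell in the variables `R`, `T` -/
def rootT : Cell := ⟨1048576, 1101824, 995328, 1101824, 1048576, 1087079, 1010073, 1087079⟩

lemma rootT_mem {K : KFam} (hK : KOK K) {x : SK} {d : ℕ} {l : SK} {d' : ℕ} {l' : SK}
    {R k k' T : ℂ} (h : HDt K x d l d' l' R k k') (hT : T ^ 2 + 1 = 1 / k ^ 2) (h0 : 0 ≤ T.re) :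
    rootT.Mem R T := by
  obtain ⟨m1, m2, -, -⟩ := hK.root h
  refine ⟨m1, m2, ?_, ?_⟩
  all_goals
    have hq := hK.bound h.ok.left h.ok.ne h.mem
    have h1 : ‖T‖ ^ 2 ≤ 5375 / 1000 := by
      rw [← norm_pow, show T ^ 2 = 1 / k ^ 2 - 1 by rw [← hT]; ring]
      calc ‖1 / k ^ 2 - 1‖ ≤ ‖1 / k ^ 2‖ + ‖(1 : ℂ)‖ := norm_sub_le _ _
        _ ≤ 5375 / 1000 := by rw [norm_one]; linarith only [hq]
    have h2 : ‖T‖ ≤ 235 / 100 := by nlinarith only [h1, norm_nonneg T]
    have a1 := abs_le.1 ((Complex.abs_re_le_norm T).trans h2)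
    have a2 := abs_le.1 ((Complex.abs_im_le_norm T).trans h2)
    have hD : D = 16384 := rfl
  · exact inI_of h0 a1.2 (by rw [hD]; norm_num [rootT]) (by rw [hD]; norm_num [rootT])
  · exact inI_of a2.1 a2.2 (by rw [hD]; norm_num [rootT]) (by rw [hD]; norm_num [rootT])

lemma tan_sq {w : ℂ} (hc : Complex.cos w ≠ 0) :
    Complex.tan w ^ 2 + 1 = 1 / Complex.cos w ^ 2 := by
  rw [Complex.tan_eq_sin_div_cos]
  field_simp
  linear_combination Complex.sin_sq_add_cos_sq w

end

end Pool.Agent.Work.MP_b30479_gtS.G2.CN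

end

section

/-!
# Rows in the variables `R`, `T`

`trow`: a run of the checker gives bounds for the hinge, the ring variable and their difference.
-/

namespace Pool.Agent.Work.MP_b30479_gtS.G2.CN

open Complex SR

noncomputable section

/-! ### groups by number of crossings -/

/-- outer value of the first ring -/
def tA (B : ℕ) (H : List QC) : List Grp :=
  match B with
  | 2 => [tA2 H]
  | 3 => [tA3 H]
  | 4 => [tA4 H]
  | 5 => [tA5 H]
  | _ => []

/-- the first ring is an end -/
def tF (B : ℕ) : List Grp :=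
  match B with
  | 2 => [tF2]
  | 3 => [tF3]
  | 4 => [tF4]
  | 5 => [tF5]
  | _ => []

/-- outer value of the second ring, opposite sign -/
def tDm (B : ℕ) (H : List QC) : List Grp :=
  match B with
  | 2 => [tD2 0 1 H]
  | 3 => [tD3 0 1 H]
  | 4 => [tD4 0 1 H]
  | 5 => [tD5 0 1 H]
  | _ => []

/-- outer value of the second ring, equal sign -/
def tDp (B : ℕ) (H : List QC) : List Grp :=
  match B with
  | 2 => [tD2 1 0 H]
  | 3 => [tD3 1 0 H]
  | 4 => [tD4 1 0 H]
  | 5 => [tD5 1 0 H]
  | _ => []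

/-- outer value of the second ring, hinge of kind `x` -/
def tD (x : SK) (B : ℕ) (H : List QC) : List Grp :=
  match x with
  | .a => tDm B (mirH H)
  | _ => tDp B H

/-- the second ring is an end, opposite sign -/
def tEm (B : ℕ) : List Grp :=
  match B with
  | 2 => [tE2 0 1]
  | 3 => [tE3 0 1]
  | 4 => [tE4 0 1]
  | 5 => [tE5 0 1]
  | _ => []

/-- the second ring is an end, equal sign -/
def tEp (B : ℕ) : List Grp :=
  match B with
  | 2 => [tE2 1 0]
  | 3 => [tE3 1 0]
  | 4 => [tE4 1 0]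
  | 5 => [tE5 1 0]
  | _ => []

/-- the second ring is an end, hinge of kind `x` -/
def tE (x : SK) (B : ℕ) : List Grp :=
  match x with
  | .a => tEm B
  | _ => tEp B

lemma allOk_one {R T : ℂ} {g : Grp} (h : g.Ok R T) : AllOk R T [g] := AllOk.cons h AllOk.nil

lemma pos_I : (((1 : ℝ) : ℝ) : ℂ) * I = (((1 : ℕ) : ℂ) - (0 : ℕ)) * I := by norm_num

section
variable {R T q q' : ℂ} {H : List QC} (hT : T ^ 2 + 1 = q)
include hT

lemma tF_all {B : ℕ} (h : Out I B R q q' none) : AllOk R T (tF B) := by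
  unfold tF
  split
  · exact allOk_one (tF2_ok hT h)
  · exact allOk_one (tF3_ok hT h)
  · exact allOk_one (tF4_ok hT h)
  · exact allOk_one (tF5_ok hT h)
  · exact AllOk.nil

variable (hq : R ^ 2 + 1 - q = q')
include hq

lemma tA_all {S : Set ℂ} (hS : InH S H) {B : ℕ} (h : Out I B R q q' (some S)) :
    AllOk R T (tA B H) := by
  unfold tA
  split
  · exact allOk_one (tA2_ok hT hq hS h)
  · exact allOk_one (tA3_ok hT hq hS h)
  · exact allOk_one (tA4_ok hT hq hS h)
  · exact allOk_one (tA5_ok hT hq hS h)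
  · exact AllOk.nil

lemma tDm_all {S : Set ℂ} (hS : InH S H) {B : ℕ}
    (h : Out (((-1 : ℝ) : ℂ) * I) B R q' q (some S)) : AllOk R T (tDm B H) := by
  unfold tDm
  split
  · exact allOk_one (tD2_ok hT hq neg_I hS h)
  · exact allOk_one (tD3_ok hT hq neg_I hS h)
  · exact allOk_one (tD4_ok hT hq neg_I hS h)
  · exact allOk_one (tD5_ok hT hq neg_I hS h)
  · exact AllOk.nil

lemma tDp_all {S : Set ℂ} (hS : InH S H) {B : ℕ}
    (h : Out (((1 : ℝ) : ℂ) * I) B R q' q (some S)) : AllOk R T (tDp B H) := by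
  unfold tDp
  split
  · exact allOk_one (tD2_ok hT hq pos_I hS h)
  · exact allOk_one (tD3_ok hT hq pos_I hS h)
  · exact allOk_one (tD4_ok hT hq pos_I hS h)
  · exact allOk_one (tD5_ok hT hq pos_I hS h)
  · exact AllOk.nil

lemma tD_all {x : SK} {S : Set ℂ} (hS : InH S H) {B : ℕ}
    (h : Out (x.sgn * I) B R q' q ((some S).map (frS x.sgn))) : AllOk R T (tD x B H) := by
  cases x
  · exact tDp_all hT hq hS.fr h
  · exact tDm_all hT hq hS.mir h
  · exact tDp_all hT hq hS.fr h
  · exact tDp_all hT hq hS.fr h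

lemma tEm_all {B : ℕ} (h : Out (((-1 : ℝ) : ℂ) * I) B R q' q none) : AllOk R T (tEm B) := by
  unfold tEm
  split
  · exact allOk_one (tE2_ok hT hq neg_I h)
  · exact allOk_one (tE3_ok hT hq neg_I h)
  · exact allOk_one (tE4_ok hT hq neg_I h)
  · exact allOk_one (tE5_ok hT hq neg_I h)
  · exact AllOk.nil

lemma tEp_all {B : ℕ} (h : Out (((1 : ℝ) : ℂ) * I) B R q' q none) : AllOk R T (tEp B) := by
  unfold tEp
  split
  · exact allOk_one (tE2_ok hT hq pos_I h)
  · exact allOk_one (tE3_ok hT hq pos_I h)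
  · exact allOk_one (tE4_ok hT hq pos_I h)
  · exact allOk_one (tE5_ok hT hq pos_I h)
  · exact AllOk.nil

lemma tE_all {x : SK} {B : ℕ} (h : Out (x.sgn * I) B R q' q none) : AllOk R T (tE x B) := by
  cases x
  · exact tEp_all hT hq h
  · exact tEm_all hT hq h
  · exact tEp_all hT hq h
  · exact tEp_all hT hq h

end

/-! ### the hinge of kind `x` -/

/-- the exponential of the hinge -/
def tYx (x : SK) (H : List QC) : Grp := match x with | .s => tYs H | _ => tY H
/-- the exponential of the hinge minus the ring variable -/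
def tUx (x : SK) (H : List QC) : Grp := match x with | .s => tUs H | _ => tU H

/-- the groups of a row: conditions `gi` for the hinge, `o`, `o'`: own values, `L`, `L'`: outer
values -/
def tsOf (x : SK) (gi : List GC) (o : List QC) (L : List Grp) (o' : List QC) (L' : List Grp) :
    List Grp :=
  tYx x (gi.map GC.qi) :: tl o :: tr (ownR x o') :: (L ++ L')

/-- the goals of a row -/
def goT (x : SK) (gy gz gu : List GC) : List Grp :=
  [tYx x (gy.map GC.q), tZ (gz.map GC.q), tUx x (gu.map GC.q)]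

/-- the check of a row -/
def trowOk (x : SK) (gi : List GC) (o : List QC) (L : List Grp) (o' : List QC) (L' : List Grp)
    (gy gz gu : List GC) (n code : ℕ) : Bool :=
  row (tsOf x gi o L o' L') (goT x gy gz gu) n code rootT &&
    (gi.all GC.oki && gy.all GC.ok && gz.all GC.ok && gu.all GC.ok)

section
variable {w R : ℂ}

lemma expY {x : SK} (hc : 0 < (Complex.cos w).re) (hR : 0 < R.re)
    (h2 : x = .s → (acot2 (Sp R (Complex.cos w))).re < 1 / 2) (H : List QC) :
    cexp (2 * Real.pi * I * yH x R (Complex.cos w)) * (tYx x H).M.val R (Complex.tan w) =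
      (tYx x H).N.val R (Complex.tan w) := by
  have hc0 := ne_of_re hc
  have ht := tan_sq hc0
  by_cases hx : x = .s
  · subst hx
    have e := exp_split hR hc0 (h2 rfl)
    unfold yH
    rw [Hq_s]
    change _ * Ev.tq.val R (Complex.tan w) = Ev.tl2.val R (Complex.tan w)
    have h4 := Ev.val_tl2 R (Complex.tan w)
    have h5 : Ev.tl2.val R (Complex.tan w) = 1 / Complex.cos w ^ 2 - 2 + 2 * I * R := by
      apply mul_left_cancel₀ (two_ne_zero : (2 : ℂ) ≠ 0)
      rw [h4, ht]
      simp only [DB, cab]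
      ring
    rw [Ev.val_tq, ht, h5]
    exact e
  · have e : yH x R (Complex.cos w) = acot2 R := by
      unfold yH Hq
      rw [if_neg hx]
    have e2 : tYx x H = tY H := by
      cases x
      · rfl
      · rfl
      · rfl
      · exact absurd rfl hx
    rw [e, e2]
    change _ * Ev.rm.val R _ = Ev.rp.val R _
    rw [Ev.val_rm, Ev.val_rp]
    exact exp_acot2 (ne_I_of_re hR).1 (ne_I_of_re hR).2

lemma expZ (hc : 0 < (Complex.cos w).re) (H : List QC) :
    cexp (2 * Real.pi * I * (-zeta w)) * (tZ H).M.val R (Complex.tan w) =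
      (tZ H).N.val R (Complex.tan w) := by
  change _ * Ev.zm.val R _ = Ev.zp.val R _
  rw [Ev.val_zm, Ev.val_zp]
  exact exp_zeta (ne_of_re hc)

lemma expU {x : SK} (hc : 0 < (Complex.cos w).re) (hR : 0 < R.re)
    (h2 : x = .s → (acot2 (Sp R (Complex.cos w))).re < 1 / 2) (H : List QC) :
    cexp (2 * Real.pi * I * (yH x R (Complex.cos w) - zeta w)) *
      (tUx x H).M.val R (Complex.tan w) = (tUx x H).N.val R (Complex.tan w) := by
  have e1 := expY hc hR h2 H
  have e2 := expZ (R := R) hc H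
  have e3 : 2 * Real.pi * I * (yH x R (Complex.cos w) - zeta w) =
      2 * Real.pi * I * yH x R (Complex.cos w) + 2 * Real.pi * I * (-zeta w) := by ring
  rw [e3, Complex.exp_add]
  change _ * Ev.zm.val R _ = Ev.zp.val R _ at e2
  by_cases hx : x = .s
  · subst hx
    change _ * Ev.tq.val R _ = Ev.tl2.val R _ at e1
    change _ * (Ev.zm.val R (Complex.tan w)) ^ 2 = Ev.tl2.val R _
    rw [← e1, Ev.val_tq]
    rw [Ev.val_zm, Ev.val_zp] at e2
    rw [Ev.val_zm]
    linear_combination (cexp (2 * Real.pi * I * yH .s R (Complex.cos w)) *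
      (1 - I * Complex.tan w)) * e2 + (-cexp (2 * Real.pi * I * yH .s R (Complex.cos w)) *
      Complex.tan w ^ 2) * Complex.I_mul_I
  · have h4 : tUx x H = tU H := by
      cases x
      · rfl
      · rfl
      · rfl
      · exact absurd rfl hx
    have h5 : tYx x H = tY H := by
      cases x
      · rfl
      · rfl
      · rfl
      · exact absurd rfl hx
    rw [h5] at e1
    change _ * Ev.rm.val R _ = Ev.rp.val R _ at e1
    rw [h4]
    change _ * (Ev.rm.val R _ * Ev.zm.val R _) = Ev.rp.val R _ * Ev.zp.val R _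
    rw [← e1, ← e2]
    ring

/-- a run gives the bounds -/
theorem trow_sound {x : SK} {gi : List GC} {o : List QC} {L : List Grp} {o' : List QC}
    {L' : List Grp} {gy gz gu : List GC} {n code : ℕ}
    (hr : trowOk x gi o L o' L' gy gz gu n code = true) (hm : rootT.Mem R (Complex.tan w))
    (hc : 0 < (Complex.cos w).re) (hR : 0 < R.re)
    (h2 : x = .s → (acot2 (Sp R (Complex.cos w))).re < 1 / 2)
    (hi : ∀ g ∈ gi, g.G (yH x R (Complex.cos w))) (ho : (tl o).Ok R (Complex.tan w))
    (ho' : (tr (ownR x o')).Ok R (Complex.tan w)) (hL : AllOk R (Complex.tan w) L)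
    (hL' : AllOk R (Complex.tan w) L') :
    (∀ g ∈ gy, g.P (yH x R (Complex.cos w))) ∧ (∀ g ∈ gz, g.P (-zeta w)) ∧
      ∀ g ∈ gu, g.P (yH x R (Complex.cos w) - zeta w) := by
  unfold trowOk at hr
  rw [Bool.and_eq_true, Bool.and_eq_true, Bool.and_eq_true, Bool.and_eq_true] at hr
  obtain ⟨hrow, ⟨⟨k1, k2⟩, k3⟩, k4⟩ := hr
  have hgi : (tYx x (gi.map GC.qi)).Ok R (Complex.tan w) := by
    refine ⟨_, expY hc hR h2 _, ?_⟩
    have eH : (tYx x (gi.map GC.qi)).H = gi.map GC.qi := by cases x <;> rfl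
    rw [eH]
    intro Q hQ
    obtain ⟨g, hg, rfl⟩ := List.mem_map.1 hQ
    exact GC.imp (List.all_eq_true.1 k1 g hg) (hi g hg)
  have hl : AllOk R (Complex.tan w) (tsOf x gi o L o' L') :=
    AllOk.cons hgi (AllOk.cons ho (AllOk.cons ho' (hL.append hL')))
  refine ⟨fun g hg => ?_, fun g hg => ?_, fun g hg => ?_⟩
  · have eH : (tYx x (gy.map GC.q)).H = gy.map GC.q := by cases x <;> rfl
    exact GC.spec (List.all_eq_true.1 k2 g hg) (row_sound hrow hm hl
      (g := tYx x (gy.map GC.q)) (by simp [goT]) (expY hc hR h2 _) g.q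
      (by rw [eH]; exact List.mem_map_of_mem hg))
  · exact GC.spec (List.all_eq_true.1 k3 g hg) (row_sound hrow hm hl
      (g := tZ (gz.map GC.q)) (by simp [goT]) (expZ hc _) g.q
      (List.mem_map_of_mem hg))
  · have eH : (tUx x (gu.map GC.q)).H = gu.map GC.q := by cases x <;> rfl
    exact GC.spec (List.all_eq_true.1 k4 g hg) (row_sound hrow hm hl
      (g := tUx x (gu.map GC.q)) (by simp [goT]) (expU hc hR h2 _) g.q
      (by rw [eH]; exact List.mem_map_of_mem hg))

end

/-! ### the data of a hinge -/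

/-- the tangent of a variable in the strip has nonnegative real part -/
lemma tan_re {w : ℂ} (h0 : 0 < w.re) (h1 : w.re < 3 / 2) : 0 ≤ (Complex.tan w).re := by
  have hpi := Real.pi_gt_three
  have hc : 0 < Real.cos w.re := Real.cos_pos_of_mem_Ioo ⟨by linarith, by linarith⟩
  have hs : 0 < Real.sin w.re := Real.sin_pos_of_pos_of_lt_pi h0 (by linarith)
  have e : w = (w.re : ℂ) + w.im * I := (Complex.re_add_im w).symm
  rw [Complex.tan_eq_sin_div_cos, Complex.div_re]
  have s1 : (Complex.sin w).re = Real.sin w.re * Real.cosh w.im := by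
    conv_lhs => rw [e]
    rw [Complex.sin_add_mul_I]
    simp [Complex.sin_ofReal_re, Complex.cosh_ofReal_re, Complex.sin_ofReal_im,
      Complex.cosh_ofReal_im, Complex.cos_ofReal_re, Complex.sinh_ofReal_re, Complex.cos_ofReal_im,
      Complex.sinh_ofReal_im]
  have s2 : (Complex.sin w).im = Real.cos w.re * Real.sinh w.im := by
    conv_lhs => rw [e]
    rw [Complex.sin_add_mul_I]
    simp [Complex.sin_ofReal_re, Complex.cosh_ofReal_re, Complex.sin_ofReal_im,
      Complex.cosh_ofReal_im, Complex.cos_ofReal_re, Complex.sinh_ofReal_re, Complex.cos_ofReal_im,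
      Complex.sinh_ofReal_im]
  have c1 : (Complex.cos w).re = Real.cos w.re * Real.cosh w.im := by
    conv_lhs => rw [e]
    rw [Complex.cos_add_mul_I]
    simp [Complex.sin_ofReal_re, Complex.cosh_ofReal_re, Complex.sin_ofReal_im,
      Complex.cosh_ofReal_im, Complex.cos_ofReal_re, Complex.sinh_ofReal_re, Complex.cos_ofReal_im,
      Complex.sinh_ofReal_im]
  have c2 : (Complex.cos w).im = -(Real.sin w.re * Real.sinh w.im) := by
    conv_lhs => rw [e]
    rw [Complex.cos_add_mul_I]
    simp [Complex.sin_ofReal_re, Complex.cosh_ofReal_re, Complex.sin_ofReal_im,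
      Complex.cosh_ofReal_im, Complex.cos_ofReal_re, Complex.sinh_ofReal_re, Complex.cos_ofReal_im,
      Complex.sinh_ofReal_im]
  rw [s1, s2, c1, c2, ← add_div]
  apply div_nonneg _ (Complex.normSq_nonneg _)
  have h2 := Real.cosh_sq w.im
  nlinarith [mul_pos hs hc]

/-- the data of a hinge for the rows -/
structure TDt (K : KFam) (x : SK) (d : ℕ) (l : SK) (d' : ℕ) (l' : SK) (w R k' : ℂ) : Prop where
  h : HDt K x d l d' l' R (Complex.cos w) k'
  w0 : 0 < w.re
  w1 : w.re < 3 / 2
  sp : x = .s → (acot2 (Sp R (Complex.cos w))).re < 1 / 2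

/-- **Bounds for a hinge from a run.** -/
theorem trow {K : KFam} (hK : KOK K) {x : SK} {d : ℕ} {l : SK} {d' : ℕ} {l' : SK} {w R k' : ℂ}
    (t : TDt K x d l d' l' w R k') {gi : List GC} {o : List QC} {L : List Grp} {o' : List QC}
    {L' : List Grp} {gy gz gu : List GC} {n code : ℕ}
    (hr : trowOk x gi o L o' L' gy gz gu n code = true)
    (hi : ∀ g ∈ gi, g.G (yH x R (Complex.cos w)))
    (ho : Sat o (Complex.cos w ^ 2)) (ho' : InH (K.K d' l' x) o')
    (hL : ∀ {q q' : ℂ}, Complex.tan w ^ 2 + 1 = q → R ^ 2 + 1 - q = q' →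
      q = 1 / Complex.cos w ^ 2 → q' = 1 / k' ^ 2 → AllOk R (Complex.tan w) L)
    (hL' : ∀ {q q' : ℂ}, Complex.tan w ^ 2 + 1 = q → R ^ 2 + 1 - q = q' →
      Out (x.sgn * I) (crs d' x l') R q' q ((port K d' (crs d' x l') l').map (frS x.sgn)) →
      AllOk R (Complex.tan w) L') :
    (∀ g ∈ gy, g.P (yH x R (Complex.cos w))) ∧ (∀ g ∈ gz, g.P (-zeta w)) ∧
      ∀ g ∈ gu, g.P (yH x R (Complex.cos w) - zeta w) := by
  have hc := t.h.kre
  have hc0 := ne_of_re hc
  have hT := tan_sq hc0
  have hR : 0 < R.re := r0_pos.trans t.h.Rre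
  have hq : R ^ 2 + 1 - 1 / Complex.cos w ^ 2 = 1 / k' ^ 2 := by
    rw [t.h.hinge]
    ring
  have hm' := t.h.mem'
  have h1 := inH_ownR (x := x) ho'
  rw [← K.symm] at h1
  exact trow_sound hr (rootT_mem hK t.h hT (tan_re t.w0 t.w1)) hc hR t.sp hi
    (tl_ok hc0 hT ho) (tr_ok (ne_of_re t.h.kre') hT hq (h1 k' hm'))
    (hL hT hq rfl rfl) (hL' hT hq t.h.out')

end

end Pool.Agent.Work.MP_b30479_gtS.G2.CN

end

section

/-!
# Definitions of the tests of rows and of the lists of conditions

The rows need these definitions only.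
-/

namespace Pool.Agent.Work.MP_b30479_gtS.G2.CN

/-! ### TSpl -/

namespace TD

noncomputable section

open Complex SR Ev

/-- the hinge on the side of the second ring minus the ring variable -/
def tV (H : List QC) : Grp := ⟨.mul (tr2 1 0) zp, .mul tq2 zm, (rfl : 3 = 3), H⟩

/-- the check of a row at a split hinge -/
def trowOkV (gi : List GC) (o : List QC) (L : List Grp) (o' : List QC) (L' : List Grp)
    (gy gz gu gv : List GC) (n code : ℕ) : Bool :=
  row (tsOf .s gi o L o' L') (goT .s gy gz gu ++ [tV (gv.map GC.q)]) n code rootT &&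
    (gi.all GC.oki && gy.all GC.ok && gz.all GC.ok && gu.all GC.ok && gv.all GC.ok)

end

end TD

/-! ### TLef -/

namespace TD

noncomputable section

open Complex SR Ev

/-- `DB I 6 R q / 2` -/
def tl6 : Ev := .nl (.add
  (.sc 1 (.mul (.gm 0 0 2 0 .R) (.add (.sub (.nm 3 (.sq (.sq .q))) (.sc 2 (.nm 10 (.sq .q)))
    (rfl : 4 = 4)) (.sc 4 (.k 3 0 0 0)) (rfl : 4 = 4))))
  (.mul (.sub (.sq .q) (.sc 2 one) (rfl : 2 = 2)) (.add (.sub (.sq (.sq .q))
    (.sc 2 (.nm 14 (.sq .q))) (rfl : 4 = 4)) (.sc 4 one) (rfl : 4 = 4))) (rfl : 6 = 6))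

/-- the exponential of the hinge on the other side -/
def tLx (x : SK) (H : List QC) : Grp :=
  match x with
  | .s => ⟨.mul tq tl4, .gm 0 1 0 0 tl6, (rfl : 6 = 6), H⟩
  | _ => ⟨.mul tq tl3, .gm 0 1 0 0 tl5, (rfl : 5 = 5), H⟩

/-- the exponential of the hinge on the other side minus the ring variable -/
def tMx (x : SK) (H : List QC) : Grp :=
  match x with
  | .s => ⟨.mul (.mul tq tl4) zp, .mul (.gm 0 1 0 0 tl6) zm, (rfl : 7 = 7), H⟩
  | _ => ⟨.mul (.mul tq tl3) zp, .mul (.gm 0 1 0 0 tl5) zm, (rfl : 6 = 6), H⟩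

/-- the groups of a row with conditions for the hinge (`gi`), for the hinge minus the ring variable
(`ui`), for the other hinge (`li`), for the other hinge minus the ring variable (`ul`) -/
def tsL (x : SK) (gi ui li ul : List GC) (o : List QC) (L : List Grp) (o' : List QC)
    (L' : List Grp) : List Grp :=
  tYx x (gi.map GC.qi) :: tUx x (ui.map GC.qi) :: tLx x (li.map GC.qi) ::
    tMx x (ul.map GC.qi) :: tl o :: tr (ownR x o') :: (L ++ L')

/-- the check of a row; `gl`: goals for the other hinge -/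
def trowOkL (x : SK) (gi ui li ul : List GC) (o : List QC) (L : List Grp) (o' : List QC)
    (L' : List Grp) (gy gz gu gl : List GC) (n code : ℕ) : Bool :=
  row (tsL x gi ui li ul o L o' L') (goT x gy gz gu ++ [tLx x (gl.map GC.q)]) n code rootT &&
    (gi.all GC.oki && ui.all GC.oki && li.all GC.oki && ul.all GC.oki && gy.all GC.ok &&
      gz.all GC.ok && gu.all GC.ok && gl.all GC.ok)

end

end TD

/-! ### TAlt -/

noncomputable section

open Complex SR

/-- both constraints of the pair `k` fail -/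
def anyAt (E : Env) (al : List (Con × Con)) : ℕ → Bool :=
  @List.rec (Con × Con) (fun _ => ℕ → Bool) (fun _ => false)
    (fun p _ ih k => @Nat.rec (fun _ => Bool) (cond (p.1.fails E) (p.2.fails E) false)
      (fun k' _ => ih k') k) al

/-- all constraints of the pairs are valid -/
def allG2 (al : List (Con × Con)) : Bool :=
  @List.rec (Con × Con) (fun _ => Bool) true (fun p _ ih => cB p.1.g (cB p.2.g ih false) false) al

/-- one step: digit `t`, first cell `C`; `pd`: the digit is the number of a pair for `C` -/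
def stepA (cs : CT) (gs : List Con) (al : List (Con × Con)) (t : ℕ) (pd : Bool) (st' : List Cell) (C : Cell)
    (k : Bool → List Cell → Bool) : Bool :=
  cB pd (cB (anyAt (envOf C) al t) (k false st') false)
    (cB (Nat.ble t (nat_lit 11)) (cut t C fun A B => k false (A :: B :: st'))
      (cB (Nat.beq t (nat_lit 12)) (cB (allF gs (envOf C)) (k true (C :: st')) false)
        (cB (cs.get t (envOf C)) (k false st') false)))

/-- at most `n` steps with the digits of `code`, then `k` -/
def innerA (cs : CT) (gs : List Con) (al : List (Con × Con)) (n : ℕ) :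
    ℕ → Bool → List Cell → (Bool → List Cell → Bool) → Bool :=
  @Nat.rec (fun _ => ℕ → Bool → List Cell → (Bool → List Cell → Bool) → Bool) (fun _ pd st k => k pd st)
    (fun _ ih code pd st k => @List.rec Cell (fun _ => Bool) true
      (fun C st' _ => stepA cs gs al (Nat.mod code (nat_lit 64)) pd st' C
        fun pd' s => ih (Nat.div code (nat_lit 64)) pd' s k) st) n

/-- the checker with alternatives; `64` digits at a time -/
def runA (cs : CT) (gs : List Con) (al : List (Con × Con)) (n : ℕ) : ℕ → Bool → List Cell → Bool :=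
  @Nat.rec (fun _ => ℕ → Bool → List Cell → Bool)
    (fun _ _ st => @List.rec Cell (fun _ => Bool) true (fun _ _ _ => false) st)
    (fun _ ih code pd st => innerA cs gs al (nat_lit 64) (Nat.mod code (nat_lit 39402006196394479212279040100143613805079739270465446667948293404245721771497210611414266254884915640806627990306816)) pd st
      (ih (Nat.div code (nat_lit 39402006196394479212279040100143613805079739270465446667948293404245721771497210611414266254884915640806627990306816)))) n

/-- a run of the checker: groups `l`, goals `go`, pairs of conditions for two quotients -/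
def rowA (l go : List Grp) (gZ gU : Grp) (al : List (QC × QC)) (n code : ℕ) (C : Cell) : Bool :=
  cB (inC C) (cB (allG (csOf l)) (cB (allG (csOf go))
    (cB (allG2 (al.map fun p => (mkCon p.1 gZ.N gZ.M gZ.hd, mkCon p.2 gU.N gU.M gU.hd)))
      (cB (Nat.ble (nat_lit 1048576) n)
        (cB (Nat.ble (mk0 (csOf go)) (nat_lit 4294967295))
          (partC (ofL 7 (nat_lit 0) (csOf l)) (csOf go)
            (al.map fun p => (mkCon p.1 gZ.N gZ.M gZ.hd, mkCon p.2 gU.N gU.M gU.hd))
            (Nat.sub n (nat_lit 1048576)) code (.cons C (Nat.succ (mk0 (csOf go))) .nil) .nil) false)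
        (runA (ofL 6 (nat_lit 13) (csOf l)) (csOf go)
          (al.map fun p => (mkCon p.1 gZ.N gZ.M gZ.hd, mkCon p.2 gU.N gU.M gU.hd)) n code false [C]))
      false) false) false) false

end

/-! ### TAlt -/

namespace TD

noncomputable section

open Complex SR

/-- the check of a row with alternatives -/
def trowOkA (x : SK) (gi : List GC) (o : List QC) (L : List Grp) (o' : List QC) (L' : List Grp)
    (gy gz gu : List GC) (al : List (GC × GC)) (n code : ℕ) : Bool :=
  rowA (tsOf x gi o L o' L') (goT x gy gz gu) (tZ []) (tUx x []) (al.map fun p => (p.1.q, p.2.q))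
      n code rootT &&
    (gi.all GC.oki && gy.all GC.ok && gz.all GC.ok && gu.all GC.ok &&
      al.all fun p => p.1.ok && p.2.ok)

/-- the same with conditions for the hinge on the other side -/
def trowOkLA (x : SK) (gi ui li ul : List GC) (o : List QC) (L : List Grp) (o' : List QC)
    (L' : List Grp) (gy gz gu gl : List GC) (al : List (GC × GC)) (n code : ℕ) : Bool :=
  rowA (tsL x gi ui li ul o L o' L') (goT x gy gz gu ++ [tLx x (gl.map GC.q)]) (tZ []) (tUx x [])
      (al.map fun p => (p.1.q, p.2.q)) n code rootT &&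
    (gi.all GC.oki && ui.all GC.oki && li.all GC.oki && ul.all GC.oki && gy.all GC.ok &&
      gz.all GC.ok && gu.all GC.ok && gl.all GC.ok && al.all fun p => p.1.ok && p.2.ok)

end

end TD

/-! ### TDatb -/

namespace TD

section

open Complex SR

/-- conditions -/
def oN6e : List QC :=
  [⟨0, 1000000, 0, 0⟩, ⟨77176, -767193, 0, 0⟩, ⟨0, 0, 1000000, -1000000⟩,
  ⟨0, 0, -1000000, 585273⟩, ⟨423000, -906000, 416521, 0⟩, ⟨391000, 921000, 0, 328796⟩,
  ⟨-242000, -970000, 0, -262019⟩, ⟨990000, 139000, 0, 763353⟩, ⟨1000000, 0, 0, 762720⟩,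
  ⟨-530000, -848000, 0, -530000⟩]

/-- conditions -/
def oN7s : List QC :=
  [⟨0, 1000000, 0, 0⟩, ⟨116556, -775333, 0, 0⟩, ⟨0, 0, 1000000, -1000000⟩,
  ⟨0, 0, -1000000, 607914⟩, ⟨-669000, -743000, 0, -673090⟩, ⟨70000, -998000, 0, -62282⟩]

/-- conditions -/
def oN7f : List QC :=
  [⟨0, 1000000, 0, 0⟩, ⟨58542, -785680, 0, 0⟩, ⟨0, 0, 1000000, -1000000⟩,
  ⟨0, 0, -1000000, 614852⟩, ⟨469000, -883000, 466873, 0⟩, ⟨777000, 629000, 0, 634729⟩,
  ⟨-87000, -996000, 0, -127228⟩, ⟨-438000, -899000, 0, -438341⟩]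

/-- conditions -/
def h6s : List QC :=
  [⟨-62720, 801591, 0, 0⟩, ⟨166060, -754851, 0, 0⟩, ⟨0, 0, 1000000, -698846⟩,
  ⟨0, 0, -1000000, 565240⟩, ⟨-839000, -545000, 0, -746114⟩, ⟨682000, 731000, 0, 575687⟩,
  ⟨515000, 857000, 721706, 0⟩, ⟨-899000, -438000, -1276554, 0⟩, ⟨978000, 208000, 0, 751099⟩,
  ⟨242000, 970000, 0, 254802⟩, ⟨-292000, -956000, 0, -384934⟩]

end

end TD

/-! ### TDatd -/

namespace TD

section

open Complex SR

/-- conditions -/
def nZa : List QC :=
  [⟨0, 1000000, 0, 0⟩, ⟨323468, -664995, 0, 0⟩, ⟨0, 0, 1000000, -1000000⟩,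
  ⟨0, 0, -1000000, 322174⟩, ⟨-707000, -707000, 0, -726653⟩, ⟨309000, 951000, 0, 253612⟩,
  ⟨788000, -616000, 0, 324273⟩, ⟨-469000, -883000, 0, -602120⟩, ⟨-743000, -669000, 0, -751163⟩,
  ⟨-695000, -719000, -1505041, 0⟩, ⟨-643000, -766000, 0, -689998⟩, ⟨-407000, 914000, -505188, 0⟩]

/-- pairs of conditions -/
def al4e1 : List (GC × GC) :=
  [(.hi (-220) 1318456, .arc 4600 9599 (-248702) (-968580)),
  (.hi (-230) 1335129, .arc 4610 9609 (-242611) (-970124)),
  (.hi (-240) 1352012, .arc 4620 9619 (-236511) (-971629)),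
  (.hi (-250) 1369109, .arc 4630 9629 (-230402) (-973096)),
  (.hi (-260) 1386423, .arc 4640 9639 (-224283) (-974524)),
  (.hi (-270) 1403955, .arc 4650 9649 (-218156) (-975914)),
  (.hi (-280) 1421709, .arc 4660 9659 (-212019) (-977265)),
  (.hi (-290) 1439687, .arc 4670 9669 (-205875) (-978578)),
  (.hi (-300) 1457893, .arc 4680 9679 (-199722) (-979853)),
  (.hi (-310) 1476329, .arc 4690 9689 (-193562) (-981088)),
  (.hi (-320) 1494998, .arc 4700 9699 (-187394) (-982285)),
  (.hi (-330) 1513903, .arc 4710 9709 (-181218) (-983443)),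
  (.hi (-340) 1533047, .arc 4720 9719 (-175035) (-984562)),
  (.hi (-350) 1552434, .arc 4730 9729 (-168846) (-985642)),
  (.hi (-360) 1572065, .arc 4740 9739 (-162650) (-986684)),
  (.hi (-370) 1591945, .arc 4750 9749 (-156447) (-987686)),
  (.hi (-380) 1612076, .arc 4760 9759 (-150238) (-988650)),
  (.hi (-390) 1632462, .arc 4770 9769 (-144023) (-989574)),
  (.hi (-400) 1653106, .arc 4780 9779 (-137803) (-990460)),
  (.hi (-410) 1674010, .arc 4790 9789 (-131577) (-991306)),
  (.hi (-420) 1695179, .arc 4800 9799 (-125346) (-992113))]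

/-- pairs of conditions -/
def al4e2 : List (GC × GC) :=
  [(.hi (-320) 1494998, .arc 4340 9339 (-402918) (-915236)),
  (.hi (-330) 1513903, .arc 4350 9349 (-397159) (-917750)),
  (.hi (-340) 1533047, .arc 4360 9359 (-391385) (-920227)),
  (.hi (-350) 1552434, .arc 4370 9369 (-385596) (-922668)),
  (.hi (-360) 1572065, .arc 4380 9379 (-379791) (-925072)),
  (.hi (-370) 1591945, .arc 4390 9389 (-373971) (-927440)),
  (.hi (-380) 1612076, .arc 4400 9399 (-368136) (-929772)),
  (.hi (-390) 1632462, .arc 4410 9409 (-362287) (-932067)),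
  (.hi (-400) 1653106, .arc 4420 9419 (-356424) (-934324)),
  (.hi (-410) 1674010, .arc 4430 9429 (-350546) (-936545)),
  (.hi (-420) 1695179, .arc 4440 9439 (-344655) (-938730)),
  (.hi (-430) 1716616, .arc 4450 9449 (-338750) (-940877)),
  (.hi (-440) 1738324, .arc 4460 9459 (-332831) (-942986)),
  (.hi (-450) 1760306, .arc 4470 9469 (-326900) (-945059)),
  (.hi (-460) 1782566, .arc 4480 9479 (-320956) (-947094)),
  (.hi (-470) 1805108, .arc 4490 9489 (-314998) (-949092))]

/-- pairs of conditions -/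
def al4e2e : List (GC × GC) :=
  [(.hi (-180) 1253821, .arc 3880 8879 (-647066) (-762434)),
  (.hi (-190) 1269677, .arc 3890 8889 (-642262) (-766485)),
  (.hi (-200) 1285732, .arc 3900 8899 (-637434) (-770505)),
  (.hi (-210) 1301991, .arc 3910 8909 (-632580) (-774495)),
  (.hi (-220) 1318456, .arc 3920 8919 (-627701) (-778454)),
  (.hi (-230) 1335129, .arc 3930 8929 (-622798) (-782383))]

/-- pairs of conditions -/
def al4e3 : List (GC × GC) :=
  [(.hi (-380) 1612076, .arc 4230 9229 (-465162) (-885225)),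
  (.hi (-390) 1632462, .arc 4240 9239 (-459591) (-888131)),
  (.hi (-400) 1653106, .arc 4250 9249 (-454002) (-891001)),
  (.hi (-410) 1674010, .arc 4260 9259 (-448394) (-893836)),
  (.hi (-420) 1695179, .arc 4270 9269 (-442769) (-896635)),
  (.hi (-430) 1716616, .arc 4280 9279 (-437127) (-899400)),
  (.hi (-440) 1738324, .arc 4290 9289 (-431467) (-902129)),
  (.hi (-450) 1760306, .arc 4300 9299 (-425791) (-904822)),
  (.hi (-460) 1782566, .arc 4310 9309 (-420097) (-907479)),
  (.hi (-470) 1805108, .arc 4320 9319 (-414387) (-910101)),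
  (.hi (-480) 1827934, .arc 4330 9329 (-408661) (-912686)),
  (.hi (-490) 1851050, .arc 4340 9339 (-402918) (-915236)),
  (.hi (-500) 1874458, .arc 4350 9349 (-397159) (-917750)),
  (.hi (-510) 1898161, .arc 4360 9359 (-391385) (-920227))]

/-- pairs of conditions -/
def al4e3e : List (GC × GC) :=
  [(.hi (-310) 1476329, .arc 3980 8979 (-597915) (-801559)),
  (.hi (-320) 1494998, .arc 3990 8989 (-592867) (-805300)),
  (.hi (-330) 1513903, .arc 4000 8999 (-587795) (-809010)),
  (.hi (-340) 1533047, .arc 4010 9009 (-582701) (-812687)),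
  (.hi (-350) 1552434, .arc 4020 9019 (-577583) (-816332)),
  (.hi (-360) 1572065, .arc 4030 9029 (-572442) (-819945)),
  (.hi (-370) 1591945, .arc 4040 9039 (-567279) (-823525)),
  (.hi (-380) 1612076, .arc 4050 9049 (-562094) (-827074)),
  (.hi (-390) 1632462, .arc 4060 9059 (-556886) (-830589)),
  (.hi (-400) 1653106, .arc 4070 9069 (-551656) (-834072)),
  (.hi (-410) 1674010, .arc 4080 9079 (-546405) (-837521)),
  (.hi (-420) 1695179, .arc 4090 9089 (-541132) (-840938)),
  (.hi (-430) 1716616, .arc 4100 9099 (-535837) (-844321))]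

/-- pairs of conditions -/
def al4eZ : List (GC × GC) :=
  [(.hi (-400) 1653106, .arc 4220 9219 (-470715) (-882285)),
  (.hi (-410) 1674010, .arc 4230 9229 (-465162) (-885225)),
  (.hi (-420) 1695179, .arc 4240 9239 (-459591) (-888131)),
  (.hi (-430) 1716616, .arc 4250 9249 (-454002) (-891001)),
  (.hi (-440) 1738324, .arc 4260 9259 (-448394) (-893836)),
  (.hi (-450) 1760306, .arc 4270 9269 (-442769) (-896635)),
  (.hi (-460) 1782566, .arc 4280 9279 (-437127) (-899400)),
  (.hi (-470) 1805108, .arc 4290 9289 (-431467) (-902129)),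
  (.hi (-480) 1827934, .arc 4300 9299 (-425791) (-904822)),
  (.hi (-490) 1851050, .arc 4310 9309 (-420097) (-907479)),
  (.hi (-500) 1874458, .arc 4320 9319 (-414387) (-910101)),
  (.hi (-510) 1898161, .arc 4330 9329 (-408661) (-912686)),
  (.hi (-520) 1922165, .arc 4340 9339 (-402918) (-915236)),
  (.hi (-530) 1946472, .arc 4350 9349 (-397159) (-917750)),
  (.hi (-540) 1971086, .arc 4360 9359 (-391385) (-920227)),
  (.hi (-550) 1996012, .arc 4370 9369 (-385596) (-922668)),
  (.hi (-560) 2021253, .arc 4380 9379 (-379791) (-925072)),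
  (.hi (-570) 2046813, .arc 4390 9389 (-373971) (-927440)),
  (.hi (-580) 2072696, .arc 4400 9399 (-368136) (-929772)),
  (.hi (-590) 2098907, .arc 4410 9409 (-362287) (-932067)),
  (.hi (-600) 2125449, .arc 4420 9419 (-356424) (-934324)),
  (.hi (-610) 2152326, .arc 4430 9429 (-350546) (-936545)),
  (.hi (-620) 2179544, .arc 4440 9439 (-344655) (-938730)),
  (.hi (-630) 2207106, .arc 4450 9449 (-338750) (-940877)),
  (.hi (-640) 2235016, .arc 4460 9459 (-332831) (-942986)),
  (.hi (-650) 2263279, .arc 4470 9469 (-326900) (-945059))]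

/-- pairs of conditions -/
def al4eZs : List (GC × GC) :=
  [(.hi (-440) 1738324, .arc 4260 9259 (-448394) (-893836)),
  (.hi (-450) 1760306, .arc 4270 9269 (-442769) (-896635)),
  (.hi (-460) 1782566, .arc 4280 9279 (-437127) (-899400)),
  (.hi (-470) 1805108, .arc 4290 9289 (-431467) (-902129)),
  (.hi (-480) 1827934, .arc 4300 9299 (-425791) (-904822)),
  (.hi (-490) 1851050, .arc 4310 9309 (-420097) (-907479)),
  (.hi (-500) 1874458, .arc 4320 9319 (-414387) (-910101)),
  (.hi (-510) 1898161, .arc 4330 9329 (-408661) (-912686)),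
  (.hi (-520) 1922165, .arc 4340 9339 (-402918) (-915236)),
  (.hi (-530) 1946472, .arc 4350 9349 (-397159) (-917750)),
  (.hi (-540) 1971086, .arc 4360 9359 (-391385) (-920227)),
  (.hi (-550) 1996012, .arc 4370 9369 (-385596) (-922668)),
  (.hi (-560) 2021253, .arc 4380 9379 (-379791) (-925072)),
  (.hi (-570) 2046813, .arc 4390 9389 (-373971) (-927440)),
  (.hi (-580) 2072696, .arc 4400 9399 (-368136) (-929772)),
  (.hi (-590) 2098907, .arc 4410 9409 (-362287) (-932067)),
  (.hi (-600) 2125449, .arc 4420 9419 (-356424) (-934324)),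
  (.hi (-610) 2152326, .arc 4430 9429 (-350546) (-936545)),
  (.hi (-620) 2179544, .arc 4440 9439 (-344655) (-938730)),
  (.hi (-630) 2207106, .arc 4450 9449 (-338750) (-940877)),
  (.hi (-640) 2235016, .arc 4460 9459 (-332831) (-942986)),
  (.hi (-650) 2263279, .arc 4470 9469 (-326900) (-945059))]

/-- pairs of conditions -/
def al4i1 : List (GC × GC) :=
  [(.hi (-330) 1513903, .arc 4480 9479 (-320956) (-947094)),
  (.hi (-340) 1533047, .arc 4490 9489 (-314998) (-949092)),
  (.hi (-350) 1552434, .arc 4500 9499 (-309029) (-951053)),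
  (.hi (-360) 1572065, .arc 4510 9509 (-303047) (-952976)),
  (.hi (-370) 1591945, .arc 4520 9519 (-297054) (-954861)),
  (.hi (-380) 1612076, .arc 4530 9529 (-291048) (-956708)),
  (.hi (-390) 1632462, .arc 4540 9539 (-285031) (-958518)),
  (.hi (-400) 1653106, .arc 4550 9549 (-279003) (-960290)),
  (.hi (-410) 1674010, .arc 4560 9559 (-272964) (-962024)),
  (.hi (-420) 1695179, .arc 4570 9569 (-266914) (-963720)),
  (.hi (-430) 1716616, .arc 4580 9579 (-260854) (-965378)),
  (.hi (-440) 1738324, .arc 4590 9589 (-254783) (-966998)),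
  (.hi (-450) 1760306, .arc 4600 9599 (-248702) (-968580)),
  (.hi (-460) 1782566, .arc 4610 9609 (-242611) (-970124)),
  (.hi (-470) 1805108, .arc 4620 9619 (-236511) (-971629)),
  (.hi (-480) 1827934, .arc 4630 9629 (-230402) (-973096)),
  (.hi (-490) 1851050, .arc 4640 9639 (-224283) (-974524)),
  (.hi (-500) 1874458, .arc 4650 9649 (-218156) (-975914)),
  (.hi (-510) 1898161, .arc 4660 9659 (-212019) (-977265)),
  (.hi (-520) 1922165, .arc 4670 9669 (-205875) (-978578)),
  (.hi (-530) 1946472, .arc 4680 9679 (-199722) (-979853)),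
  (.hi (-540) 1971086, .arc 4690 9689 (-193562) (-981088)),
  (.hi (-550) 1996012, .arc 4700 9699 (-187394) (-982285)),
  (.hi (-560) 2021253, .arc 4710 9709 (-181218) (-983443)),
  (.hi (-570) 2046813, .arc 4720 9719 (-175035) (-984562)),
  (.hi (-580) 2072696, .arc 4730 9729 (-168846) (-985642)),
  (.hi (-590) 2098907, .arc 4740 9739 (-162650) (-986684)),
  (.hi (-600) 2125449, .arc 4750 9749 (-156447) (-987686)),
  (.hi (-610) 2152326, .arc 4760 9759 (-150238) (-988650)),
  (.hi (-620) 2179544, .arc 4770 9769 (-144023) (-989574)),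
  (.hi (-630) 2207106, .arc 4780 9779 (-137803) (-990460)),
  (.hi (-640) 2235016, .arc 4790 9789 (-131577) (-991306)),
  (.hi (-650) 2263279, .arc 4800 9799 (-125346) (-992113)),
  (.hi (-660) 2291900, .arc 4810 9809 (-119110) (-992881)),
  (.hi (-670) 2320882, .arc 4820 9819 (-112869) (-993610)),
  (.hi (-680) 2350232, .arc 4830 9829 (-106624) (-994299)),
  (.hi (-690) 2379952, .arc 4840 9839 (-100374) (-994950)),
  (.hi (-700) 2410048, .arc 4850 9849 (-94121) (-995561)),
  (.hi (-710) 2440524, .arc 4860 9859 (-87864) (-996133)),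
  (.hi (-720) 2471386, .arc 4870 9869 (-81603) (-996665))]

/-- pairs of conditions -/
def al4i2 : List (GC × GC) :=
  [(.hi (-420) 1695179, .arc 4170 9169 (-498196) (-867064)),
  (.hi (-430) 1716616, .arc 4180 9179 (-492738) (-870178)),
  (.hi (-440) 1738324, .arc 4190 9189 (-487261) (-873256)),
  (.hi (-450) 1760306, .arc 4200 9199 (-481765) (-876301)),
  (.hi (-460) 1782566, .arc 4210 9209 (-476249) (-879310)),
  (.hi (-470) 1805108, .arc 4220 9219 (-470715) (-882285)),
  (.hi (-480) 1827934, .arc 4230 9229 (-465162) (-885225)),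
  (.hi (-490) 1851050, .arc 4240 9239 (-459591) (-888131)),
  (.hi (-500) 1874458, .arc 4250 9249 (-454002) (-891001)),
  (.hi (-510) 1898161, .arc 4260 9259 (-448394) (-893836)),
  (.hi (-520) 1922165, .arc 4270 9269 (-442769) (-896635)),
  (.hi (-530) 1946472, .arc 4280 9279 (-437127) (-899400)),
  (.hi (-540) 1971086, .arc 4290 9289 (-431467) (-902129)),
  (.hi (-550) 1996012, .arc 4300 9299 (-425791) (-904822)),
  (.hi (-560) 2021253, .arc 4310 9309 (-420097) (-907479)),
  (.hi (-570) 2046813, .arc 4320 9319 (-414387) (-910101)),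
  (.hi (-580) 2072696, .arc 4330 9329 (-408661) (-912686)),
  (.hi (-590) 2098907, .arc 4340 9339 (-402918) (-915236)),
  (.hi (-600) 2125449, .arc 4350 9349 (-397159) (-917750)),
  (.hi (-610) 2152326, .arc 4360 9359 (-391385) (-920227)),
  (.hi (-620) 2179544, .arc 4370 9369 (-385596) (-922668)),
  (.hi (-630) 2207106, .arc 4380 9379 (-379791) (-925072)),
  (.hi (-640) 2235016, .arc 4390 9389 (-373971) (-927440)),
  (.hi (-650) 2263279, .arc 4400 9399 (-368136) (-929772)),
  (.hi (-660) 2291900, .arc 4410 9409 (-362287) (-932067)),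
  (.hi (-670) 2320882, .arc 4420 9419 (-356424) (-934324)),
  (.hi (-680) 2350232, .arc 4430 9429 (-350546) (-936545)),
  (.hi (-690) 2379952, .arc 4440 9439 (-344655) (-938730)),
  (.hi (-700) 2410048, .arc 4450 9449 (-338750) (-940877)),
  (.hi (-710) 2440524, .arc 4460 9459 (-332831) (-942986)),
  (.hi (-720) 2471386, .arc 4470 9469 (-326900) (-945059)),
  (.hi (-730) 2502639, .arc 4480 9479 (-320956) (-947094)),
  (.hi (-740) 2534286, .arc 4490 9489 (-314998) (-949092)),
  (.hi (-750) 2566334, .arc 4500 9499 (-309029) (-951053))]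

/-- pairs of conditions -/
def al4i2e : List (GC × GC) :=
  [(.hi (-320) 1494998, .arc 3610 8609 (-766501) (-642243)),
  (.hi (-330) 1513903, .arc 3620 8619 (-762451) (-647046)),
  (.hi (-340) 1533047, .arc 3630 8629 (-758370) (-651824)),
  (.hi (-350) 1552434, .arc 3640 8639 (-754260) (-656576)),
  (.hi (-360) 1572065, .arc 3650 8649 (-750119) (-661302)),
  (.hi (-370) 1591945, .arc 3660 8659 (-745950) (-666002)),
  (.hi (-380) 1612076, .arc 3670 8669 (-741750) (-670676)),
  (.hi (-390) 1632462, .arc 3680 8679 (-737522) (-675324)),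
  (.hi (-400) 1653106, .arc 3690 8689 (-733264) (-679944)),
  (.hi (-410) 1674010, .arc 3700 8699 (-728977) (-684538)),
  (.hi (-420) 1695179, .arc 3710 8709 (-724662) (-689105)),
  (.hi (-430) 1716616, .arc 3720 8719 (-720318) (-693644)),
  (.hi (-440) 1738324, .arc 3730 8729 (-715945) (-698156)),
  (.hi (-450) 1760306, .arc 3740 8739 (-711545) (-702641)),
  (.hi (-460) 1782566, .arc 3750 8749 (-707116) (-707098)),
  (.hi (-470) 1805108, .arc 3760 8759 (-702659) (-711527)),
  (.hi (-480) 1827934, .arc 3770 8769 (-698174) (-715928)),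
  (.hi (-490) 1851050, .arc 3780 8779 (-693662) (-720300)),
  (.hi (-500) 1874458, .arc 3790 8789 (-689123) (-724644)),
  (.hi (-510) 1898161, .arc 3800 8799 (-684556) (-728960)),
  (.hi (-520) 1922165, .arc 3810 8809 (-679963) (-733247)),
  (.hi (-530) 1946472, .arc 3820 8819 (-675342) (-737505)),
  (.hi (-540) 1971086, .arc 3830 8829 (-670695) (-741733)),
  (.hi (-550) 1996012, .arc 3840 8839 (-666021) (-745933)),
  (.hi (-560) 2021253, .arc 3850 8849 (-661321) (-750103)),
  (.hi (-570) 2046813, .arc 3860 8859 (-656595) (-754243)),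
  (.hi (-580) 2072696, .arc 3870 8869 (-651843) (-758354)),
  (.hi (-590) 2098907, .arc 3880 8879 (-647066) (-762434)),
  (.hi (-600) 2125449, .arc 3890 8889 (-642262) (-766485)),
  (.hi (-610) 2152326, .arc 3900 8899 (-637434) (-770505)),
  (.hi (-620) 2179544, .arc 3910 8909 (-632580) (-774495)),
  (.hi (-630) 2207106, .arc 3920 8919 (-627701) (-778454)),
  (.hi (-640) 2235016, .arc 3930 8929 (-622798) (-782383)),
  (.hi (-650) 2263279, .arc 3940 8939 (-617869) (-786281)),
  (.hi (-660) 2291900, .arc 3950 8949 (-612917) (-790147)),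
  (.hi (-670) 2320882, .arc 3960 8959 (-607940) (-793983))]

/-- pairs of conditions -/
def al4i3 : List (GC × GC) :=
  [(.hi (-470) 1805108, .arc 4030 9029 (-572442) (-819945)),
  (.hi (-480) 1827934, .arc 4040 9039 (-567279) (-823525)),
  (.hi (-490) 1851050, .arc 4050 9049 (-562094) (-827074)),
  (.hi (-500) 1874458, .arc 4060 9059 (-556886) (-830589)),
  (.hi (-510) 1898161, .arc 4070 9069 (-551656) (-834072)),
  (.hi (-520) 1922165, .arc 4080 9079 (-546405) (-837521)),
  (.hi (-530) 1946472, .arc 4090 9089 (-541132) (-840938)),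
  (.hi (-540) 1971086, .arc 4100 9099 (-535837) (-844321)),
  (.hi (-550) 1996012, .arc 4110 9109 (-530522) (-847671)),
  (.hi (-560) 2021253, .arc 4120 9119 (-525185) (-850988)),
  (.hi (-570) 2046813, .arc 4130 9129 (-519828) (-854271)),
  (.hi (-580) 2072696, .arc 4140 9139 (-514450) (-857520)),
  (.hi (-590) 2098907, .arc 4150 9149 (-509052) (-860736)),
  (.hi (-600) 2125449, .arc 4160 9159 (-503634) (-863917)),
  (.hi (-610) 2152326, .arc 4170 9169 (-498196) (-867064)),
  (.hi (-620) 2179544, .arc 4180 9179 (-492738) (-870178)),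
  (.hi (-630) 2207106, .arc 4190 9189 (-487261) (-873256)),
  (.hi (-640) 2235016, .arc 4200 9199 (-481765) (-876301)),
  (.hi (-650) 2263279, .arc 4210 9209 (-476249) (-879310)),
  (.hi (-660) 2291900, .arc 4220 9219 (-470715) (-882285)),
  (.hi (-670) 2320882, .arc 4230 9229 (-465162) (-885225)),
  (.hi (-680) 2350232, .arc 4240 9239 (-459591) (-888131)),
  (.hi (-690) 2379952, .arc 4250 9249 (-454002) (-891001)),
  (.hi (-700) 2410048, .arc 4260 9259 (-448394) (-893836)),
  (.hi (-710) 2440524, .arc 4270 9269 (-442769) (-896635)),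
  (.hi (-720) 2471386, .arc 4280 9279 (-437127) (-899400)),
  (.hi (-730) 2502639, .arc 4290 9289 (-431467) (-902129)),
  (.hi (-740) 2534286, .arc 4300 9299 (-425791) (-904822)),
  (.hi (-750) 2566334, .arc 4310 9309 (-420097) (-907479)),
  (.hi (-760) 2598787, .arc 4320 9319 (-414387) (-910101)),
  (.hi (-770) 2631650, .arc 4330 9329 (-408661) (-912686))]

/-- pairs of conditions -/
def al4i3e : List (GC × GC) :=
  [(.hi (-430) 1716616, .arc 3750 8749 (-707116) (-707098)),
  (.hi (-440) 1738324, .arc 3760 8759 (-702659) (-711527)),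
  (.hi (-450) 1760306, .arc 3770 8769 (-698174) (-715928)),
  (.hi (-460) 1782566, .arc 3780 8779 (-693662) (-720300)),
  (.hi (-470) 1805108, .arc 3790 8789 (-689123) (-724644)),
  (.hi (-480) 1827934, .arc 3800 8799 (-684556) (-728960)),
  (.hi (-490) 1851050, .arc 3810 8809 (-679963) (-733247)),
  (.hi (-500) 1874458, .arc 3820 8819 (-675342) (-737505)),
  (.hi (-510) 1898161, .arc 3830 8829 (-670695) (-741733)),
  (.hi (-520) 1922165, .arc 3840 8839 (-666021) (-745933)),
  (.hi (-530) 1946472, .arc 3850 8849 (-661321) (-750103)),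
  (.hi (-540) 1971086, .arc 3860 8859 (-656595) (-754243)),
  (.hi (-550) 1996012, .arc 3870 8869 (-651843) (-758354)),
  (.hi (-560) 2021253, .arc 3880 8879 (-647066) (-762434)),
  (.hi (-570) 2046813, .arc 3890 8889 (-642262) (-766485)),
  (.hi (-580) 2072696, .arc 3900 8899 (-637434) (-770505)),
  (.hi (-590) 2098907, .arc 3910 8909 (-632580) (-774495)),
  (.hi (-600) 2125449, .arc 3920 8919 (-627701) (-778454)),
  (.hi (-610) 2152326, .arc 3930 8929 (-622798) (-782383)),
  (.hi (-620) 2179544, .arc 3940 8939 (-617869) (-786281)),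
  (.hi (-630) 2207106, .arc 3950 8949 (-612917) (-790147)),
  (.hi (-640) 2235016, .arc 3960 8959 (-607940) (-793983)),
  (.hi (-650) 2263279, .arc 3970 8969 (-602940) (-797787)),
  (.hi (-660) 2291900, .arc 3980 8979 (-597915) (-801559)),
  (.hi (-670) 2320882, .arc 3990 8989 (-592867) (-805300)),
  (.hi (-680) 2350232, .arc 4000 8999 (-587795) (-809010)),
  (.hi (-690) 2379952, .arc 4010 9009 (-582701) (-812687)),
  (.hi (-700) 2410048, .arc 4020 9019 (-577583) (-816332)),
  (.hi (-710) 2440524, .arc 4030 9029 (-572442) (-819945)),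
  (.hi (-720) 2471386, .arc 4040 9039 (-567279) (-823525)),
  (.hi (-730) 2502639, .arc 4050 9049 (-562094) (-827074)),
  (.hi (-740) 2534286, .arc 4060 9059 (-556886) (-830589))]

/-- pairs of conditions -/
def al4iZ : List (GC × GC) :=
  [(.hi (-490) 1851050, .arc 4050 9049 (-562094) (-827074)),
  (.hi (-500) 1874458, .arc 4060 9059 (-556886) (-830589)),
  (.hi (-510) 1898161, .arc 4070 9069 (-551656) (-834072)),
  (.hi (-520) 1922165, .arc 4080 9079 (-546405) (-837521)),
  (.hi (-530) 1946472, .arc 4090 9089 (-541132) (-840938)),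
  (.hi (-540) 1971086, .arc 4100 9099 (-535837) (-844321)),
  (.hi (-550) 1996012, .arc 4110 9109 (-530522) (-847671)),
  (.hi (-560) 2021253, .arc 4120 9119 (-525185) (-850988)),
  (.hi (-570) 2046813, .arc 4130 9129 (-519828) (-854271)),
  (.hi (-580) 2072696, .arc 4140 9139 (-514450) (-857520)),
  (.hi (-590) 2098907, .arc 4150 9149 (-509052) (-860736)),
  (.hi (-600) 2125449, .arc 4160 9159 (-503634) (-863917)),
  (.hi (-610) 2152326, .arc 4170 9169 (-498196) (-867064)),
  (.hi (-620) 2179544, .arc 4180 9179 (-492738) (-870178)),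
  (.hi (-630) 2207106, .arc 4190 9189 (-487261) (-873256)),
  (.hi (-640) 2235016, .arc 4200 9199 (-481765) (-876301)),
  (.hi (-650) 2263279, .arc 4210 9209 (-476249) (-879310)),
  (.hi (-660) 2291900, .arc 4220 9219 (-470715) (-882285)),
  (.hi (-670) 2320882, .arc 4230 9229 (-465162) (-885225)),
  (.hi (-680) 2350232, .arc 4240 9239 (-459591) (-888131)),
  (.hi (-690) 2379952, .arc 4250 9249 (-454002) (-891001)),
  (.hi (-700) 2410048, .arc 4260 9259 (-448394) (-893836)),
  (.hi (-710) 2440524, .arc 4270 9269 (-442769) (-896635)),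
  (.hi (-720) 2471386, .arc 4280 9279 (-437127) (-899400)),
  (.hi (-730) 2502639, .arc 4290 9289 (-431467) (-902129)),
  (.hi (-740) 2534286, .arc 4300 9299 (-425791) (-904822)),
  (.hi (-750) 2566334, .arc 4310 9309 (-420097) (-907479)),
  (.hi (-760) 2598787, .arc 4320 9319 (-414387) (-910101)),
  (.hi (-770) 2631650, .arc 4330 9329 (-408661) (-912686)),
  (.hi (-780) 2664929, .arc 4340 9339 (-402918) (-915236)),
  (.hi (-790) 2698629, .arc 4350 9349 (-397159) (-917750)),
  (.hi (-800) 2732755, .arc 4360 9359 (-391385) (-920227)),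
  (.hi (-810) 2767312, .arc 4370 9369 (-385596) (-922668)),
  (.hi (-820) 2802307, .arc 4380 9379 (-379791) (-925072))]

/-- pairs of conditions -/
def al4iZs : List (GC × GC) :=
  [(.hi (-530) 1946472, .arc 4090 9089 (-541132) (-840938)),
  (.hi (-540) 1971086, .arc 4100 9099 (-535837) (-844321)),
  (.hi (-550) 1996012, .arc 4110 9109 (-530522) (-847671)),
  (.hi (-560) 2021253, .arc 4120 9119 (-525185) (-850988)),
  (.hi (-570) 2046813, .arc 4130 9129 (-519828) (-854271)),
  (.hi (-580) 2072696, .arc 4140 9139 (-514450) (-857520)),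
  (.hi (-590) 2098907, .arc 4150 9149 (-509052) (-860736)),
  (.hi (-600) 2125449, .arc 4160 9159 (-503634) (-863917)),
  (.hi (-610) 2152326, .arc 4170 9169 (-498196) (-867064)),
  (.hi (-620) 2179544, .arc 4180 9179 (-492738) (-870178)),
  (.hi (-630) 2207106, .arc 4190 9189 (-487261) (-873256)),
  (.hi (-640) 2235016, .arc 4200 9199 (-481765) (-876301)),
  (.hi (-650) 2263279, .arc 4210 9209 (-476249) (-879310)),
  (.hi (-660) 2291900, .arc 4220 9219 (-470715) (-882285)),
  (.hi (-670) 2320882, .arc 4230 9229 (-465162) (-885225)),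
  (.hi (-680) 2350232, .arc 4240 9239 (-459591) (-888131)),
  (.hi (-690) 2379952, .arc 4250 9249 (-454002) (-891001)),
  (.hi (-700) 2410048, .arc 4260 9259 (-448394) (-893836)),
  (.hi (-710) 2440524, .arc 4270 9269 (-442769) (-896635)),
  (.hi (-720) 2471386, .arc 4280 9279 (-437127) (-899400)),
  (.hi (-730) 2502639, .arc 4290 9289 (-431467) (-902129)),
  (.hi (-740) 2534286, .arc 4300 9299 (-425791) (-904822)),
  (.hi (-750) 2566334, .arc 4310 9309 (-420097) (-907479)),
  (.hi (-760) 2598787, .arc 4320 9319 (-414387) (-910101)),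
  (.hi (-770) 2631650, .arc 4330 9329 (-408661) (-912686)),
  (.hi (-780) 2664929, .arc 4340 9339 (-402918) (-915236)),
  (.hi (-790) 2698629, .arc 4350 9349 (-397159) (-917750)),
  (.hi (-800) 2732755, .arc 4360 9359 (-391385) (-920227)),
  (.hi (-810) 2767312, .arc 4370 9369 (-385596) (-922668)),
  (.hi (-820) 2802307, .arc 4380 9379 (-379791) (-925072))]

end

end TD

/-! ### TDatg -/

namespace TD

/-- conditions -/
def k6aa : List QC :=
  [⟨-47216, 823788, 0, 0⟩, ⟨133792, -811740, 0, 0⟩, ⟨0, 0, 1000000, -737490⟩,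
  ⟨0, 0, -1000000, 634033⟩, ⟨-857000, -515000, 0, -768083⟩, ⟨-669000, -743000, -949233, 0⟩,
  ⟨469000, 883000, 624307, 0⟩, ⟨656000, 755000, 0, 561772⟩]

/-- conditions -/
def k6az : List QC :=
  [⟨-75264, 801052, 0, 0⟩, ⟨134100, -793611, 0, 0⟩, ⟨0, 0, 1000000, -711139⟩,
  ⟨0, 0, -1000000, 616906⟩, ⟨-866000, -500000, 0, -771145⟩, ⟨-946000, -326000, -1242672, 0⟩,
  ⟨391000, 921000, 577406, 0⟩]

/-- conditions -/
def k7as : List QC :=
  [⟨-45800, 838431, 0, 0⟩, ⟨112716, -822437, 0, 0⟩, ⟨0, 0, 1000000, -743750⟩,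
  ⟨0, 0, -1000000, 656043⟩, ⟨-788000, -616000, 0, -717896⟩, ⟨-891000, -454000, -1147597, 0⟩,
  ⟨755000, 656000, 930263, 0⟩, ⟨707000, 707000, 0, 612758⟩]

/-- conditions -/
def k7zs : List QC :=
  [⟨-70434, 813888, 0, 0⟩, ⟨111228, -800765, 0, 0⟩, ⟨0, 0, 1000000, -717345⟩,
  ⟨0, 0, -1000000, 648065⟩, ⟨-866000, -500000, 0, -774342⟩, ⟨682000, 731000, 892441, 0⟩]

/-- conditions -/
def k8ss : List QC :=
  [⟨0, 1000000, 0, 0⟩, ⟨116556, -775333, 0, 0⟩, ⟨0, 0, 1000000, -1000000⟩,
  ⟨0, 0, -1000000, 607914⟩, ⟨-669000, -743000, 0, -673090⟩, ⟨70000, -998000, 0, -62282⟩]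

end TD

/-! ### TMid -/

namespace TD

noncomputable section

open Complex SR Ev
open scoped ComplexConjugate

/-- the exponential of the inner variable minus the hinge -/
def tSs (H : List QC) : Grp := ⟨.mul tl2 rm, .mul tq rp, (rfl : 3 = 3), H⟩

/-- the groups of a row: conditions for the hinge (`gi`), for the inner variable (`mi`), for their
difference (`si`) -/
def tsM (gi mi si : List GC) (o : List QC) (L : List Grp) (o' : List QC) (L' : List Grp) :
    List Grp :=
  tYx .a (gi.map GC.qi) :: tl o :: tr (ownR .a o') ::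
    (L ++ (L' ++ [tYs (mi.map GC.qi), tSs (si.map GC.qi)]))

/-- the check of a row; `gm`, `gs`: goals for the inner variable and for the difference -/
def trowOkM (gi mi si : List GC) (o : List QC) (L : List Grp) (o' : List QC) (L' : List Grp)
    (gy gz gu gm gs : List GC) (n code : ℕ) : Bool :=
  row (tsM gi mi si o L o' L') (goT .a gy gz gu ++ [tYs (gm.map GC.q), tSs (gs.map GC.q)]) n code
      rootT &&
    (gi.all GC.oki && mi.all GC.oki && si.all GC.oki && gy.all GC.ok && gz.all GC.ok &&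
      gu.all GC.ok && gm.all GC.ok && gs.all GC.ok)

end

end TD

/-! ### TMis -/

namespace TD

noncomputable section

open Complex SR Ev
open scoped ComplexConjugate

/-- the exponential of the inner variable -/
def tIx (x : SK) (H : List QC) : Grp :=
  match x with
  | .s => ⟨.gm 0 0 1 0 tl3, .mul tq rp, (rfl : 3 = 3), H⟩
  | _ => tYs H

/-- the exponential of the inner variable minus the hinge -/
def tJx (x : SK) (H : List QC) : Grp :=
  match x with
  | .s => ⟨.gm 0 0 1 0 tl3, .mul rp tl2, (rfl : 3 = 3), H⟩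
  | _ => tSs H

/-- the exponential of the far hinge -/
def tFx (x : SK) (H : List QC) : Grp :=
  match x with
  | .a => ⟨tq2, tr2 0 1, (rfl : 2 = 2), H⟩
  | _ => ⟨tq2, tr2 1 0, (rfl : 2 = 2), H⟩

/-- the groups of a row -/
def tsN (x : SK) (gi mi si fi : List GC) (o : List QC) (L : List Grp) (o' : List QC)
    (L' : List Grp) : List Grp :=
  tYx x (gi.map GC.qi) :: tl o :: tr (ownR x o') ::
    (L ++ (L' ++ [tIx x (mi.map GC.qi), tJx x (si.map GC.qi), tFx x (fi.map GC.qi)]))

/-- the goals of a row -/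
def goN (x : SK) (gy gm gs gf : List GC) : List Grp :=
  [tYx x (gy.map GC.q), tIx x (gm.map GC.q), tJx x (gs.map GC.q), tFx x (gf.map GC.q)]

/-- the check of a row -/
def trowOkN (x : SK) (gi mi si fi : List GC) (o : List QC) (L : List Grp) (o' : List QC)
    (L' : List Grp) (gy gm gs gf : List GC) (n code : ℕ) : Bool :=
  row (tsN x gi mi si fi o L o' L') (goN x gy gm gs gf) n code rootT &&
    (gi.all GC.oki && mi.all GC.oki && si.all GC.oki && fi.all GC.oki && gy.all GC.ok &&
      gm.all GC.ok && gs.all GC.ok && gf.all GC.ok)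

end

end TD

/-! ### TLg -/

namespace TD

noncomputable section

open Complex SR Ev
open scoped ComplexConjugate

/-- `DB I 7 R q / 2` -/
def tl7 : Ev := .nl (.sub
  (.mul (.gm 0 0 1 0 .R) (.sub
    (.add (.sc 6 (.k 7 0 0 0)) (.sc 2 (.nm 21 (.sq (.sq .q)))) (rfl : 6 = 6))
    (.add (.sc 4 (.nm 35 (.sq .q))) (.mul (.sq (.sq .q)) (.sq .q)) (rfl : 6 = 6)) (rfl : 6 = 6)))
  (.sc 1 (.sub
    (.add (.sc 6 one) (.sc 2 (.nm 35 (.sq (.sq .q)))) (rfl : 6 = 6))
    (.add (.sc 4 (.nm 21 (.sq .q))) (.nm 7 (.mul (.sq (.sq .q)) (.sq .q))) (rfl : 6 = 6))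
    (rfl : 6 = 6))) (rfl : 7 = 7))

/-- `DB I 8 R q / 2` -/
def tl8 : Ev := .nl (.sub
  (.sc 1 (.mul (.gm 0 0 8 0 .R) (.mul (.sub (.sc 2 one) (.sq .q) (rfl : 2 = 2))
    (.add (.sub (.sq (.sq .q)) (.sc 2 (.nm 6 (.sq .q))) (rfl : 4 = 4)) (.sc 4 one)
      (rfl : 4 = 4)))))
  (.sub
    (.add (.add (.sc 8 one) (.sc 4 (.nm 70 (.sq (.sq .q)))) (rfl : 8 = 8)) (.sq (.sq (.sq .q)))
      (rfl : 8 = 8))
    (.add (.sc 6 (.nm 28 (.sq .q))) (.sc 2 (.nm 28 (.mul (.sq (.sq .q)) (.sq .q))))
      (rfl : 8 = 8)) (rfl : 8 = 8)) (rfl : 8 = 8))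

/-- the exponential of the other hinge, by the digit and the kind of this hinge -/
def tLg (d : ℕ) (x : SK) (H : List QC) : Grp :=
  match d, x with
  | 3, .s => ⟨.mul tq tl3, .gm 0 1 0 0 tl5, (rfl : 5 = 5), H⟩
  | 3, _ => ⟨.mul tq tl2, .gm 0 1 0 0 tl4, (rfl : 4 = 4), H⟩
  | 5, .s => ⟨.mul tq tl5, .gm 0 1 0 0 tl7, (rfl : 7 = 7), H⟩
  | 5, _ => ⟨.mul tq tl4, .gm 0 1 0 0 tl6, (rfl : 6 = 6), H⟩
  | 6, .s => ⟨.mul tq tl6, .gm 0 1 0 0 tl8, (rfl : 8 = 8), H⟩
  | 6, _ => ⟨.mul tq tl5, .gm 0 1 0 0 tl7, (rfl : 7 = 7), H⟩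
  | _, .s => ⟨.mul tq tl4, .gm 0 1 0 0 tl6, (rfl : 6 = 6), H⟩
  | _, _ => ⟨.mul tq tl3, .gm 0 1 0 0 tl5, (rfl : 5 = 5), H⟩

/-- the groups of a row: conditions for the hinge (`gi`), for the ring variable (`zi`), for their
difference (`ui`), for the other hinge (`li`) -/
def tsB (d : ℕ) (x : SK) (gi zi ui li : List GC) (o : List QC) (L : List Grp) (o' : List QC)
    (L' : List Grp) : List Grp :=
  tYx x (gi.map GC.qi) :: tUx x (ui.map GC.qi) :: tLg d x (li.map GC.qi) ::
    tl o :: tr (ownR x o') :: tZ (zi.map GC.qi) :: (L ++ L')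

/-- the check of a row without alternatives -/
def trowOkC (d : ℕ) (x : SK) (gi zi ui li : List GC) (o : List QC) (L : List Grp) (o' : List QC)
    (L' : List Grp) (gy gz gu gl : List GC) (n code : ℕ) : Bool :=
  row (tsB d x gi zi ui li o L o' L') (goT x gy gz gu ++ [tLg d x (gl.map GC.q)]) n code rootT &&
    (gi.all GC.oki && zi.all GC.oki && ui.all GC.oki && li.all GC.oki && gy.all GC.ok &&
      gz.all GC.ok && gu.all GC.ok && gl.all GC.ok)

end

end TD

/-! ### TLgK -/

namespace TD

noncomputable section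

open Complex SR Ev
open scoped ComplexConjugate

/-- the check of a row; `al`: alternatives for the hinge and the difference -/
def trowOkK (d : ℕ) (x : SK) (gi zi ui li : List GC) (o : List QC) (L : List Grp) (o' : List QC)
    (L' : List Grp) (gy gz gu gl : List GC) (al : List (GC × GC)) (n code : ℕ) : Bool :=
  rowA (tsB d x gi zi ui li o L o' L') (goT x gy gz gu ++ [tLg d x (gl.map GC.q)]) (tYx x [])
      (tUx x []) (al.map fun p => (p.1.q, p.2.q)) n code rootT &&
    (gi.all GC.oki && zi.all GC.oki && ui.all GC.oki && li.all GC.oki && gy.all GC.ok &&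
      gz.all GC.ok && gu.all GC.ok && gl.all GC.ok && al.all fun p => p.1.ok && p.2.ok)

end

end TD

/-! ### TLj -/

namespace TD

/-- conditions -/
def l4_one : List GC :=
  [.arc 2250 7249 (-987686) 156447, .arc 0 3030 945059 326900, .lo (-1300) 5122428,
  .hi (-350) 1552431]

/-- conditions -/
def l4_one3 : List GC :=
  [.arc 2250 7249 (-987686) 156447, .lo (-1300) 5122428, .hi (-350) 1552431]

/-- conditions -/
def l4_ringA : List GC :=
  [.arc 1870 6869 (-922668) 385596, .arc 0 2370 996667 (-81578), .lo (-200) 1285732,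
  .hi 430 582541]

/-- conditions -/
def l4_ringA4 : List GC :=
  [.arc 0 2370 996667 (-81578), .lo (-200) 1285732, .hi 430 582541]

/-- conditions -/
def l4_ringZ : List GC :=
  [.arc 1730 6729 (-885225) 465162, .arc 0 2370 996667 (-81578), .lo 120 860024, .hi 630 453081]

/-- conditions -/
def l4_three : List GC :=
  [.arc 1950 6949 (-940877) 338750, .arc 0 2340 994952 (-100349), .lo (-360) 1572065,
  .hi 60 927373]

/-- conditions -/
def l4_three3 : List GC :=
  [.arc 1950 6949 (-940877) 338750, .lo (-360) 1572065, .hi 60 927373]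

/-- conditions -/
def l4_threeE : List GC :=
  [.arc 1750 6749 (-891001) 454002, .arc 0 1980 947102 (-320932), .lo (-420) 1695179,
  .hi (-150) 1207430]

/-- conditions -/
def l4_threeE4 : List GC :=
  [.arc 0 1980 947102 (-320932), .lo (-420) 1695179, .hi (-150) 1207430]

/-- conditions -/
def l4_two : List GC :=
  [.arc 1985 6984 (-948098) 317979, .arc 0 2580 998736 50257, .lo (-680) 2350232,
  .hi (-70) 1091948]

/-- conditions -/
def l4_two3 : List GC :=
  [.arc 1985 6984 (-948098) 317979, .lo (-680) 2350232, .hi (-70) 1091948]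

/-- conditions -/
def l4_twoE : List GC :=
  [.arc 1660 6659 (-863917) 503634, .arc 0 1910 932076 (-362264), .lo (-1120) 4085458,
  .hi (-850) 2909965]

/-- conditions -/
def l4_twoE3 : List GC :=
  [.arc 1660 6659 (-863917) 503634, .lo (-1120) 4085458, .hi (-850) 2909965]

/-- conditions -/
def lh_one : List GC :=
  [.arc 2140 7139 (-974524) 224283, .arc 0 2980 954861 297054, .lo (-1580) 7282591,
  .hi (-380) 1612073]

/-- conditions -/
def lh_ringA : List GC :=
  [.arc 1820 6819 (-910101) 414387, .arc 0 2520 999921 12579, .lo (-385) 1622237, .hi 385 616432]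

/-- conditions -/
def lh_ringZ : List GC :=
  [.arc 1700 6699 (-876301) 481765, .arc 0 2520 999921 12579, .lo (-10) 1012647, .hi 590 476437]

/-- conditions -/
def lh_three : List GC :=
  [.arc 1880 6879 (-925072) 379791, .arc 0 2340 994952 (-100349), .lo (-570) 2046813,
  .hi 40 950975]

/-- conditions -/
def lh_threeE : List GC :=
  [.arc 1710 6709 (-879310) 476249, .arc 0 1950 940885 (-338726), .lo (-580) 2072696,
  .hi (-180) 1253818]

/-- conditions -/
def lh_two : List GC :=
  [.arc 1860 6859 (-920227) 391385, .arc 0 2520 999921 12579, .lo (-960) 3341340,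
  .hi (-100) 1133899]

/-- conditions -/
def lh_twoE : List GC :=
  [.arc 1640 6639 (-857520) 514450, .arc 0 1860 920237 (-391362), .lo (-1310) 5187204,
  .hi (-880) 3021762]

/-- conditions -/
def lo4_one_ringA : List GC :=
  [.arc 2306 7305 (-992579) 121605, .arc 0 2811 980966 194178, .lo (-940) 3258410,
  .hi (-408) 1669805]

/-- conditions -/
def lo4_one_ringZ : List GC :=
  [.arc 2326 7325 (-994028) 109122, .arc 0 2816 980351 197259, .lo (-930) 3217720,
  .hi (-367) 1585952]

/-- conditions -/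
def lo4_one_three : List GC :=
  [.arc 2304 7303 (-992425) 122852, .arc 0 2772 985430 170084, .lo (-959) 3337144,
  .hi (-427) 1710154]

/-- conditions -/
def lo4_one_three3 : List GC :=
  [.arc 2304 7303 (-992425) 122852, .lo (-959) 3337144, .hi (-427) 1710154]

/-- conditions -/
def lo4_one_threeE : List GC :=
  [.arc 2284 7283 (-990803) 135313, .arc 0 2745 988173 153343, .lo (-944) 3274830,
  .hi (-429) 1714457]

/-- conditions -/
def lo4_one_two : List GC :=
  [.arc 2267 7266 (-989301) 145888, .arc 0 2772 985430 170084, .lo (-991) 3474073,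
  .hi (-443) 1744886]

/-- conditions -/
def lo4_one_two3 : List GC :=
  [.arc 2267 7266 (-989301) 145888, .lo (-991) 3474073, .hi (-443) 1744886]

/-- conditions -/
def lo4_one_twoE : List GC :=
  [.arc 2251 7250 (-987784) 155826, .arc 0 2708 991471 130331, .lo (-977) 3413489,
  .hi (-465) 1793798]

/-- conditions -/
def lo4_twoE_ringA : List GC :=
  [.arc 2502 7501 (-999999) (-1244), .arc 0 2666 994564 104124, .lo (-1203) 4534590,
  .hi (-1065) 3812626]

/-- conditions -/
def lo4_twoE_ringZ : List GC :=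
  [.arc 2519 7518 (-999929) (-11925), .arc 0 2666 994564 104124, .lo (-1190) 4461114,
  .hi (-1025) 3625719]

/-- conditions -/
def lo4_twoE_three : List GC :=
  [.arc 2498 7497 (-999999) 1269, .arc 0 2629 996716 80977, .lo (-1218) 4620876,
  .hi (-1081) 3890059]

/-- conditions -/
def lo4_twoE_threeE : List GC :=
  [.arc 2477 7476 (-999895) 14463, .arc 0 2597 998143 60922, .lo (-1198) 4506188,
  .hi (-1078) 3875421]

/-- conditions -/
def lo4_twoE_two : List GC :=
  [.arc 2479 7478 (-999913) 13207, .arc 0 2621 997110 75966, .lo (-1246) 4786359,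
  .hi (-1097) 3969065]

/-- conditions -/
def lo4_twoE_twoE : List GC :=
  [.arc 2439 7438 (-999265) 38331, .arc 0 2559 999312 37075, .lo (-1227) 4673433,
  .hi (-1107) 4019256]

/-- conditions -/
def lo4_two_ringA : List GC :=
  [.arc 2645 7644 (-995854) (-90968), .arc 0 3007 949684 313209, .lo (-999) 3509175,
  .hi (-685) 2365042]

/-- conditions -/
def lo4_two_ringZ : List GC :=
  [.arc 2658 7657 (-995078) (-99099), .arc 0 3012 948696 316191, .lo (-983) 3439323,
  .hi (-642) 2240637]

/-- conditions -/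
def lo4_two_three : List GC :=
  [.arc 2643 7642 (-995967) (-89716), .arc 0 2965 957618 288041, .lo (-1015) 3580445,
  .hi (-706) 2428285]

/-- conditions -/
def lo4_two_threeE : List GC :=
  [.arc 2620 7619 (-997160) (-75314), .arc 0 2936 962707 270545, .lo (-996) 3495970,
  .hi (-704) 2422189]

/-- conditions -/
def lo4_two_two : List GC :=
  [.arc 2625 7624 (-996918) (-78447), .arc 0 2963 957979 286838, .lo (-1047) 3727357,
  .hi (-721) 2474491]

/-- conditions -/
def lo4_two_twoE : List GC :=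
  [.arc 2582 7581 (-998674) (-51487), .arc 0 2896 969202 246267, .lo (-1030) 3648575,
  .hi (-739) 2531101]

/-- conditions -/
def lo5_one_ringA : List GC :=
  [.arc 2247 7246 (-987390) 158308, .arc 0 2797 982636 185542, .lo (-1066) 3817423,
  .hi (-493) 1858038]

/-- conditions -/
def lo5_one_ringZ : List GC :=
  [.arc 2249 7248 (-987588) 157067, .arc 0 2800 982285 187394, .lo (-1055) 3765017,
  .hi (-471) 1807374]

/-- conditions -/
def lo5_one_three : List GC :=
  [.arc 2247 7246 (-987390) 158308, .arc 0 2778 984781 173798, .lo (-1072) 3846314,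
  .hi (-510) 1898158]

/-- conditions -/
def lo5_one_threeE : List GC :=
  [.arc 2235 7234 (-986168) 165749, .arc 0 2760 986684 162650, .lo (-1070) 3836659,
  .hi (-512) 1902935]

/-- conditions -/
def lo5_one_two : List GC :=
  [.arc 2245 7244 (-987190) 159549, .arc 0 2775 985107 171941, .lo (-1094) 3954133,
  .hi (-518) 1917337]

/-- conditions -/
def lo5_one_twoE : List GC :=
  [.arc 2220 7219 (-984562) 175035, .arc 0 2729 989665 143401, .lo (-1093) 3949167,
  .hi (-536) 1961200]

/-- conditions -/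
def lo5_twoE_ringA : List GC :=
  [.arc 2413 7412 (-998506) 54649, .arc 0 2639 996188 87238, .lo (-1359) 5516646,
  .hi (-1147) 4226450]

/-- conditions -/
def lo5_twoE_ringZ : List GC :=
  [.arc 2420 7419 (-998736) 50257, .arc 0 2639 996188 87238, .lo (-1347) 5434081,
  .hi (-1122) 4095736]

/-- conditions -/
def lo5_twoE_three : List GC :=
  [.arc 2413 7412 (-998506) 54649, .arc 0 2619 997205 74713, .lo (-1368) 5579392,
  .hi (-1158) 4285278]

/-- conditions -/
def lo5_twoE_threeE : List GC :=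
  [.arc 2400 7399 (-998026) 62803, .arc 0 2600 998026 62803, .lo (-1359) 5516646,
  .hi (-1159) 4290666]

/-- conditions -/
def lo5_twoE_two : List GC :=
  [.arc 2403 7402 (-998143) 60922, .arc 0 2616 997344 72833, .lo (-1386) 5707033,
  .hi (-1168) 4339468]

/-- conditions -/
def lo5_twoE_twoE : List GC :=
  [.arc 2380 7379 (-997158) 75339, .arc 0 2580 998736 50257, .lo (-1380) 5664165,
  .hi (-1180) 4405401]

/-- conditions -/
def lo5_two_ringA : List GC :=
  [.arc 2566 7565 (-999141) (-41445), .arc 0 2988 953356 301849, .lo (-1168) 4339471,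
  .hi (-779) 2661579]

/-- conditions -/
def lo5_two_ringZ : List GC :=
  [.arc 2573 7572 (-998949) (-45839), .arc 0 2988 953356 301849, .lo (-1154) 4263795,
  .hi (-754) 2579263]

/-- conditions -/
def lo5_two_three : List GC :=
  [.arc 2567 7566 (-999115) (-42072), .arc 0 2963 957979 286838, .lo (-1178) 4394346,
  .hi (-794) 2712225]

/-- conditions -/
def lo5_two_threeE : List GC :=
  [.arc 2552 7551 (-999467) (-32654), .arc 0 2945 961162 275985, .lo (-1170) 4350391,
  .hi (-797) 2722469]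

/-- conditions -/
def lo5_two_two : List GC :=
  [.arc 2558 7557 (-999337) (-36422), .arc 0 2961 958339 285634, .lo (-1198) 4506188,
  .hi (-804) 2746523]

/-- conditions -/
def lo5_two_twoE : List GC :=
  [.arc 2534 7533 (-999772) (-21349), .arc 0 2924 964720 263279, .lo (-1193) 4477963,
  .hi (-821) 2805827]

/-- conditions -/
def lo6_one_ringA : List GC :=
  [.arc 2245 7244 (-987190) 159549, .arc 0 2795 982869 184307, .lo (-1139) 4184177,
  .hi (-552) 2001032]

/-- conditions -/
def lo6_one_ringZ : List GC :=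
  [.arc 2246 7245 (-987290) 158929, .arc 0 2793 983100 183072, .lo (-1135) 4163198,
  .hi (-540) 1971083]

/-- conditions -/
def lo6_one_three : List GC :=
  [.arc 2245 7244 (-987190) 159549, .arc 0 2786 983895 178746, .lo (-1144) 4210549,
  .hi (-565) 2033990]

/-- conditions -/
def lo6_one_threeE : List GC :=
  [.arc 2234 7233 (-986064) 166368, .arc 0 2753 987390 158308, .lo (-1142) 4199980,
  .hi (-567) 2039108]

/-- conditions -/
def lo6_one_two : List GC :=
  [.arc 2241 7240 (-986786) 162030, .arc 0 2787 983783 179364, .lo (-1164) 4317713,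
  .hi (-569) 2044239]

/-- conditions -/
def lo6_one_twoE : List GC :=
  [.arc 2226 7225 (-985215) 171322, .arc 0 2765 986168 165749, .lo (-1164) 4317713,
  .hi (-583) 2080522]

/-- conditions -/
def lo6_twoE_ringA : List GC :=
  [.arc 2374 7373 (-996867) 79098, .arc 0 2630 996665 81603, .lo (-1454) 6216149,
  .hi (-1205) 4545998]

/-- conditions -/
def lo6_twoE_ringZ : List GC :=
  [.arc 2377 7376 (-997014) 77219, .arc 0 2630 996665 81603, .lo (-1445) 6146242,
  .hi (-1190) 4461111]

/-- conditions -/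
def lo6_twoE_three : List GC :=
  [.arc 2374 7373 (-996867) 79098, .arc 0 2618 997252 74086, .lo (-1460) 6263194,
  .hi (-1214) 4597704]

/-- conditions -/
def lo6_twoE_threeE : List GC :=
  [.arc 2366 7365 (-996457) 84108, .arc 0 2606 997782 66565, .lo (-1456) 6231791,
  .hi (-1216) 4609274]

/-- conditions -/
def lo6_twoE_two : List GC :=
  [.arc 2369 7368 (-996613) 82229, .arc 0 2617 997298 73460, .lo (-1472) 6358357,
  .hi (-1220) 4632501]

/-- conditions -/
def lo6_twoE_twoE : List GC :=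
  [.arc 2355 7354 (-995852) 90993, .arc 0 2595 998218 59667, .lo (-1469) 6334432,
  .hi (-1229) 4685191]

/-- conditions -/
def lo6_two_ringA : List GC :=
  [.arc 2535 7534 (-999758) (-21977), .arc 0 2983 954299 298853, .lo (-1271) 4939114,
  .hi (-845) 2891738]

/-- conditions -/
def lo6_two_ringZ : List GC :=
  [.arc 2542 7541 (-999652) (-26374), .arc 0 2983 954299 298853, .lo (-1260) 4871311,
  .hi (-831) 2841309]

/-- conditions -/
def lo6_two_three : List GC :=
  [.arc 2536 7535 (-999744) (-22605), .arc 0 2969 956891 290447, .lo (-1278) 4982753,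
  .hi (-857) 2935675]

/-- conditions -/
def lo6_two_threeE : List GC :=
  [.arc 2527 7526 (-999856) (-16951), .arc 0 2957 959054 283224, .lo (-1274) 4957769,
  .hi (-860) 2946763]

/-- conditions -/
def lo6_two_two : List GC :=
  [.arc 2536 7535 (-999744) (-22605), .arc 0 2969 956891 290447, .lo (-1291) 5064821,
  .hi (-864) 2961613]

/-- conditions -/
def lo6_two_twoE : List GC :=
  [.arc 2516 7515 (-999950) (-10040), .arc 0 2944 961335 275381, .lo (-1290) 5058460,
  .hi (-877) 3010392]

end TD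

/-! ### TLl -/

namespace TD

section

open Complex SR

/-- pairs of conditions -/
def ak4_one : List (GC × GC) := [
  (.arc 2765 7764 (-986172) (-165724), .hi (-1235) 4720653),
  (.arc 2775 7774 (-985111) (-171917), .hi (-1245) 4780349),
  (.arc 2785 7784 (-984012) (-178103), .hi (-1255) 4840799),
  (.arc 2795 7794 (-982873) (-184282), .hi (-1265) 4902014),
  (.arc 2805 7804 (-981696) (-190454), .hi (-1275) 4964003),
  (.arc 2815 7814 (-980480) (-196618), .hi (-1285) 5026776),
  (.arc 2825 7824 (-979225) (-202775), .hi (-1295) 5090343),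
  (.arc 2835 7834 (-977932) (-208924), .hi (-1305) 5154714),
  (.arc 2845 7844 (-976600) (-215064), .hi (-1315) 5219899),
  (.arc 2855 7854 (-975229) (-221196), .hi (-1325) 5285908),
  (.arc 2865 7864 (-973820) (-227319), .hi (-1335) 5352752),
  (.arc 2875 7874 (-972373) (-233433), .hi (-1345) 5420441),
  (.arc 2885 7884 (-970887) (-239538), .hi (-1355) 5488986),
  (.arc 2895 7894 (-969363) (-245634), .hi (-1365) 5558398),
  (.arc 2905 7904 (-967800) (-251719), .hi (-1375) 5628687),
  (.arc 2915 7914 (-966200) (-257795), .hi (-1385) 5699866),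
  (.arc 2925 7924 (-964561) (-263861), .hi (-1395) 5771944),
  (.arc 2935 7934 (-962884) (-269916), .hi (-1405) 5844934),
  (.arc 2945 7944 (-961169) (-275961), .hi (-1415) 5918847),
  (.arc 2955 7954 (-959416) (-281995), .hi (-1425) 5993695),
  (.arc 2965 7964 (-957625) (-288017), .hi (-1435) 6069489)]

/-- pairs of conditions -/
def ak4_two : List (GC × GC) := [
  (.arc 2793 7792 (-983104) (-183047), .hi (-1273) 4951543),
  (.arc 2803 7802 (-981935) (-189220), .hi (-1283) 5014159),
  (.arc 2813 7812 (-980726) (-195386), .hi (-1293) 5077566),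
  (.arc 2823 7822 (-979479) (-201544), .hi (-1303) 5141775),
  (.arc 2833 7832 (-978194) (-207695), .hi (-1313) 5206796),
  (.arc 2843 7842 (-976869) (-213837), .hi (-1323) 5272640),
  (.arc 2853 7852 (-975507) (-219970), .hi (-1333) 5339316),
  (.arc 2863 7862 (-974105) (-226095), .hi (-1343) 5406835),
  (.arc 2873 7872 (-972665) (-232211), .hi (-1353) 5475208),
  (.arc 2883 7882 (-971187) (-238318), .hi (-1363) 5544445),
  (.arc 2893 7892 (-969671) (-244415), .hi (-1373) 5614558),
  (.arc 2903 7902 (-968116) (-250503), .hi (-1383) 5685558),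
  (.arc 2913 7912 (-966523) (-256581), .hi (-1393) 5757456),
  (.arc 2923 7922 (-964892) (-262649), .hi (-1403) 5830263),
  (.arc 2933 7932 (-963222) (-268706), .hi (-1413) 5903990),
  (.arc 2943 7942 (-961515) (-274753), .hi (-1423) 5978650),
  (.arc 2953 7952 (-959770) (-280789), .hi (-1433) 6054254),
  (.arc 2963 7962 (-957986) (-286813), .hi (-1443) 6130814),
  (.arc 2973 7972 (-956165) (-292827), .hi (-1453) 6208342),
  (.arc 2983 7982 (-954307) (-298829), .hi (-1463) 6286851)]

/-- pairs of conditions -/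
def ak4_twoE : List (GC × GC) := [
  (.arc 2726 7725 (-989937) (-141511), .hi (-1186) 4438746),
  (.arc 2736 7735 (-989028) (-147728), .hi (-1196) 4494877),
  (.arc 2746 7745 (-988080) (-153939), .hi (-1206) 4551717),
  (.arc 2756 7755 (-987094) (-160144), .hi (-1216) 4609277),
  (.arc 2766 7765 (-986068) (-166343), .hi (-1226) 4667564),
  (.arc 2776 7775 (-985003) (-172536), .hi (-1236) 4726589),
  (.arc 2786 7785 (-983900) (-178721), .hi (-1246) 4786359),
  (.arc 2796 7795 (-982757) (-184900), .hi (-1256) 4846886),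
  (.arc 2806 7805 (-981576) (-191071), .hi (-1266) 4908178),
  (.arc 2816 7815 (-980356) (-197234), .hi (-1276) 4970245),
  (.arc 2826 7825 (-979098) (-203390), .hi (-1286) 5033097),
  (.arc 2836 7835 (-977801) (-209538), .hi (-1296) 5096744),
  (.arc 2846 7845 (-976465) (-215678), .hi (-1306) 5161196),
  (.arc 2856 7855 (-975090) (-221809), .hi (-1316) 5226462),
  (.arc 2866 7865 (-973677) (-227931), .hi (-1326) 5292555),
  (.arc 2876 7875 (-972226) (-234044), .hi (-1336) 5359482),
  (.arc 2886 7885 (-970736) (-240148), .hi (-1346) 5427257),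
  (.arc 2896 7895 (-969208) (-246243), .hi (-1356) 5495888),
  (.arc 2906 7905 (-967642) (-252327), .hi (-1366) 5565387),
  (.arc 2916 7915 (-966037) (-258402), .hi (-1376) 5635765)]

/-- pairs of conditions -/
def ak4_three : List (GC × GC) := [
  (.arc 2815 7814 (-980480) (-196618), .hi (-1295) 5090343),
  (.arc 2825 7824 (-979225) (-202775), .hi (-1305) 5154714),
  (.arc 2835 7834 (-977932) (-208924), .hi (-1315) 5219899),
  (.arc 2845 7844 (-976600) (-215064), .hi (-1325) 5285908),
  (.arc 2855 7854 (-975229) (-221196), .hi (-1335) 5352752),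
  (.arc 2865 7864 (-973820) (-227319), .hi (-1345) 5420441),
  (.arc 2875 7874 (-972373) (-233433), .hi (-1355) 5488986),
  (.arc 2885 7884 (-970887) (-239538), .hi (-1365) 5558398),
  (.arc 2895 7894 (-969363) (-245634), .hi (-1375) 5628687),
  (.arc 2905 7904 (-967800) (-251719), .hi (-1385) 5699866),
  (.arc 2915 7914 (-966200) (-257795), .hi (-1395) 5771944),
  (.arc 2925 7924 (-964561) (-263861), .hi (-1405) 5844934),
  (.arc 2935 7934 (-962884) (-269916), .hi (-1415) 5918847),
  (.arc 2945 7944 (-961169) (-275961), .hi (-1425) 5993695),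
  (.arc 2955 7954 (-959416) (-281995), .hi (-1435) 6069489),
  (.arc 2965 7964 (-957625) (-288017), .hi (-1445) 6146242),
  (.arc 2975 7974 (-955797) (-294028), .hi (-1455) 6223965),
  (.arc 2985 7984 (-953930) (-300028), .hi (-1465) 6302671)]

/-- pairs of conditions -/
def ak4_threeE : List (GC × GC) := [
  (.arc 2786 7785 (-983900) (-178721), .hi (-1256) 4846886),
  (.arc 2796 7795 (-982757) (-184900), .hi (-1266) 4908178),
  (.arc 2806 7805 (-981576) (-191071), .hi (-1276) 4970245),
  (.arc 2816 7815 (-980356) (-197234), .hi (-1286) 5033097),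
  (.arc 2826 7825 (-979098) (-203390), .hi (-1296) 5096744),
  (.arc 2836 7835 (-977801) (-209538), .hi (-1306) 5161196),
  (.arc 2846 7845 (-976465) (-215678), .hi (-1316) 5226462),
  (.arc 2856 7855 (-975090) (-221809), .hi (-1326) 5292555),
  (.arc 2866 7865 (-973677) (-227931), .hi (-1336) 5359482),
  (.arc 2876 7875 (-972226) (-234044), .hi (-1346) 5427257),
  (.arc 2886 7885 (-970736) (-240148), .hi (-1356) 5495888),
  (.arc 2896 7895 (-969208) (-246243), .hi (-1366) 5565387),
  (.arc 2906 7905 (-967642) (-252327), .hi (-1376) 5635765),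
  (.arc 2916 7915 (-966037) (-258402), .hi (-1386) 5707033),
  (.arc 2926 7925 (-964395) (-264467), .hi (-1396) 5779202),
  (.arc 2936 7935 (-962714) (-270521), .hi (-1406) 5852284),
  (.arc 2946 7945 (-960995) (-276565), .hi (-1416) 5926290),
  (.arc 2956 7955 (-959239) (-282597), .hi (-1426) 6001232)]

/-- pairs of conditions -/
def ak4_ringA : List (GC × GC) := [
  (.arc 2807 7806 (-981456) (-191687), .hi (-1292) 5071189),
  (.arc 2817 7816 (-980232) (-197850), .hi (-1302) 5135318),
  (.arc 2827 7826 (-978970) (-204005), .hi (-1312) 5200257),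
  (.arc 2837 7836 (-977669) (-210152), .hi (-1322) 5266018),
  (.arc 2847 7846 (-976329) (-216291), .hi (-1332) 5332610),
  (.arc 2857 7856 (-974951) (-222421), .hi (-1342) 5400045),
  (.arc 2867 7866 (-973534) (-228543), .hi (-1352) 5468332),
  (.arc 2877 7876 (-972079) (-234655), .hi (-1362) 5537482),
  (.arc 2887 7886 (-970585) (-240758), .hi (-1372) 5607507),
  (.arc 2897 7896 (-969053) (-246852), .hi (-1382) 5678418),
  (.arc 2907 7906 (-967483) (-252935), .hi (-1392) 5750225),
  (.arc 2917 7916 (-965875) (-259009), .hi (-1402) 5822941),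
  (.arc 2927 7926 (-964228) (-265073), .hi (-1412) 5896576),
  (.arc 2937 7936 (-962544) (-271126), .hi (-1422) 5971142),
  (.arc 2947 7946 (-960821) (-277168), .hi (-1432) 6046651),
  (.arc 2957 7956 (-959061) (-283200), .hi (-1442) 6123115),
  (.arc 2967 7966 (-957263) (-289220), .hi (-1452) 6200545),
  (.arc 2977 7976 (-955426) (-295229), .hi (-1462) 6278955),
  (.arc 2987 7986 (-953553) (-301226), .hi (-1472) 6358357),
  (.arc 2997 7996 (-951641) (-307212), .hi (-1482) 6438762),
  (.arc 3007 8006 (-949692) (-313185), .hi (-1492) 6520185),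
  (.arc 3017 8016 (-947706) (-319146), .hi (-1502) 6602637),
  (.arc 3027 8026 (-945682) (-325094), .hi (-1512) 6686132)]

/-- pairs of conditions -/
def ak4_ringZ : List (GC × GC) := [
  (.arc 2822 7821 (-979606) (-200929), .hi (-1302) 5135318),
  (.arc 2832 7831 (-978324) (-207080), .hi (-1312) 5200257),
  (.arc 2842 7841 (-977004) (-213223), .hi (-1322) 5266018),
  (.arc 2852 7851 (-975645) (-219357), .hi (-1332) 5332610),
  (.arc 2862 7861 (-974247) (-225483), .hi (-1342) 5400045),
  (.arc 2872 7871 (-972811) (-231600), .hi (-1352) 5468332),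
  (.arc 2882 7881 (-971337) (-237708), .hi (-1362) 5537482),
  (.arc 2892 7891 (-969824) (-243806), .hi (-1372) 5607507),
  (.arc 2902 7901 (-968273) (-249895), .hi (-1382) 5678418),
  (.arc 2912 7911 (-966684) (-255974), .hi (-1392) 5750225),
  (.arc 2922 7921 (-965056) (-262042), .hi (-1402) 5822941),
  (.arc 2932 7931 (-963391) (-268101), .hi (-1412) 5896576),
  (.arc 2942 7941 (-961687) (-274149), .hi (-1422) 5971142),
  (.arc 2952 7951 (-959946) (-280186), .hi (-1432) 6046651),
  (.arc 2962 7961 (-958166) (-286212), .hi (-1442) 6123115),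
  (.arc 2972 7971 (-956349) (-292226), .hi (-1452) 6200545),
  (.arc 2982 7981 (-954494) (-298229), .hi (-1462) 6278955),
  (.arc 2992 7991 (-952602) (-304221), .hi (-1472) 6358357),
  (.arc 3002 8001 (-950671) (-310200), .hi (-1482) 6438762),
  (.arc 3012 8011 (-948704) (-316167), .hi (-1492) 6520185),
  (.arc 3022 8021 (-946698) (-322122), .hi (-1502) 6602637),
  (.arc 3032 8031 (-944656) (-328064), .hi (-1512) 6686132)]

/-- pairs of conditions -/
def ak5_one : List (GC × GC) := [
  (.arc 2724 7723 (-990114) (-140267), .hi (-1194) 4483594),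
  (.arc 2734 7733 (-989213) (-146485), .hi (-1204) 4540292),
  (.arc 2744 7743 (-988273) (-152697), .hi (-1214) 4597707),
  (.arc 2754 7753 (-987294) (-158904), .hi (-1224) 4655848),
  (.arc 2764 7763 (-986276) (-165104), .hi (-1234) 4714724),
  (.arc 2774 7773 (-985219) (-171298), .hi (-1244) 4774345),
  (.arc 2784 7783 (-984124) (-177485), .hi (-1254) 4834720),
  (.arc 2794 7793 (-982989) (-183665), .hi (-1264) 4895858),
  (.arc 2804 7803 (-981816) (-189837), .hi (-1274) 4957769),
  (.arc 2814 7813 (-980603) (-196002), .hi (-1284) 5020464),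
  (.arc 2824 7823 (-979353) (-202160), .hi (-1294) 5083951),
  (.arc 2834 7833 (-978063) (-208309), .hi (-1304) 5148241),
  (.arc 2844 7843 (-976735) (-214450), .hi (-1314) 5213343),
  (.arc 2854 7853 (-975368) (-220583), .hi (-1324) 5279270),
  (.arc 2864 7863 (-973963) (-226707), .hi (-1334) 5346029),
  (.arc 2874 7873 (-972519) (-232822), .hi (-1344) 5413633),
  (.arc 2884 7883 (-971037) (-238928), .hi (-1354) 5482092),
  (.arc 2894 7893 (-969517) (-245024), .hi (-1364) 5551417),
  (.arc 2904 7903 (-967958) (-251111), .hi (-1374) 5621618),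
  (.arc 2914 7913 (-966361) (-257188), .hi (-1384) 5692707),
  (.arc 2924 7923 (-964726) (-263255), .hi (-1394) 5764695),
  (.arc 2934 7933 (-963053) (-269311), .hi (-1404) 5837594),
  (.arc 2944 7943 (-961342) (-275357), .hi (-1414) 5911414),
  (.arc 2954 7953 (-959593) (-281392), .hi (-1424) 5986168)]

/-- pairs of conditions -/
def ak5_two : List (GC × GC) := [
  (.arc 2731 7730 (-989487) (-144620), .hi (-1211) 4580407),
  (.arc 2741 7740 (-988559) (-150834), .hi (-1221) 4638329),
  (.arc 2751 7750 (-987592) (-157043), .hi (-1231) 4696984),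
  (.arc 2761 7760 (-986586) (-163245), .hi (-1241) 4756380),
  (.arc 2771 7770 (-985540) (-169440), .hi (-1251) 4816528),
  (.arc 2781 7780 (-984456) (-175629), .hi (-1261) 4877436),
  (.arc 2791 7790 (-983333) (-181811), .hi (-1271) 4939114),
  (.arc 2801 7800 (-982172) (-187986), .hi (-1281) 5001573),
  (.arc 2811 7810 (-980971) (-194154), .hi (-1291) 5064821),
  (.arc 2821 7820 (-979732) (-200313), .hi (-1301) 5128869),
  (.arc 2831 7830 (-978454) (-206465), .hi (-1311) 5193727),
  (.arc 2841 7840 (-977137) (-212609), .hi (-1321) 5259405),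
  (.arc 2851 7850 (-975782) (-218744), .hi (-1331) 5325913),
  (.arc 2861 7860 (-974389) (-224871), .hi (-1341) 5393263),
  (.arc 2871 7870 (-972956) (-230989), .hi (-1351) 5461464),
  (.arc 2881 7880 (-971486) (-237097), .hi (-1361) 5530528),
  (.arc 2891 7890 (-969977) (-243197), .hi (-1371) 5600465),
  (.arc 2901 7900 (-968430) (-249286), .hi (-1381) 5671287),
  (.arc 2911 7910 (-966844) (-255366), .hi (-1391) 5743004),
  (.arc 2921 7920 (-965221) (-261436), .hi (-1401) 5815628),
  (.arc 2931 7930 (-963559) (-267495), .hi (-1411) 5889170),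
  (.arc 2941 7940 (-961859) (-273544), .hi (-1421) 5963643),
  (.arc 2951 7950 (-960122) (-279582), .hi (-1431) 6039057),
  (.arc 2961 7960 (-958346) (-285609), .hi (-1441) 6115425)]

/-- pairs of conditions -/
def ak5_twoE : List (GC × GC) := [
  (.arc 2684 7683 (-993326) (-115341), .hi (-1154) 4263795),
  (.arc 2694 7693 (-992582) (-121580), .hi (-1164) 4317713),
  (.arc 2704 7703 (-991798) (-127814), .hi (-1174) 4372313),
  (.arc 2714 7713 (-990976) (-134043), .hi (-1184) 4427604),
  (.arc 2724 7723 (-990114) (-140267), .hi (-1194) 4483594),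
  (.arc 2734 7733 (-989213) (-146485), .hi (-1204) 4540292),
  (.arc 2744 7743 (-988273) (-152697), .hi (-1214) 4597707),
  (.arc 2754 7753 (-987294) (-158904), .hi (-1224) 4655848),
  (.arc 2764 7763 (-986276) (-165104), .hi (-1234) 4714724),
  (.arc 2774 7773 (-985219) (-171298), .hi (-1244) 4774345),
  (.arc 2784 7783 (-984124) (-177485), .hi (-1254) 4834720),
  (.arc 2794 7793 (-982989) (-183665), .hi (-1264) 4895858),
  (.arc 2804 7803 (-981816) (-189837), .hi (-1274) 4957769),
  (.arc 2814 7813 (-980603) (-196002), .hi (-1284) 5020464),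
  (.arc 2824 7823 (-979353) (-202160), .hi (-1294) 5083951),
  (.arc 2834 7833 (-978063) (-208309), .hi (-1304) 5148241),
  (.arc 2844 7843 (-976735) (-214450), .hi (-1314) 5213343),
  (.arc 2854 7853 (-975368) (-220583), .hi (-1324) 5279270),
  (.arc 2864 7863 (-973963) (-226707), .hi (-1334) 5346029),
  (.arc 2874 7873 (-972519) (-232822), .hi (-1344) 5413633),
  (.arc 2884 7883 (-971037) (-238928), .hi (-1354) 5482092),
  (.arc 2894 7893 (-969517) (-245024), .hi (-1364) 5551417),
  (.arc 2904 7903 (-967958) (-251111), .hi (-1374) 5621618),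
  (.arc 2914 7913 (-966361) (-257188), .hi (-1384) 5692707),
  (.arc 2924 7923 (-964726) (-263255), .hi (-1394) 5764695)]

/-- pairs of conditions -/
def ak5_three : List (GC × GC) := [
  (.arc 2743 7742 (-988369) (-152076), .hi (-1233) 4708803),
  (.arc 2753 7752 (-987394) (-158284), .hi (-1243) 4768349),
  (.arc 2763 7762 (-986380) (-164484), .hi (-1253) 4828648),
  (.arc 2773 7772 (-985327) (-170679), .hi (-1263) 4889710),
  (.arc 2783 7782 (-984235) (-176866), .hi (-1273) 4951543),
  (.arc 2793 7792 (-983104) (-183047), .hi (-1283) 5014159),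
  (.arc 2803 7802 (-981935) (-189220), .hi (-1293) 5077566),
  (.arc 2813 7812 (-980726) (-195386), .hi (-1303) 5141775),
  (.arc 2823 7822 (-979479) (-201544), .hi (-1313) 5206796),
  (.arc 2833 7832 (-978194) (-207695), .hi (-1323) 5272640),
  (.arc 2843 7842 (-976869) (-213837), .hi (-1333) 5339316),
  (.arc 2853 7852 (-975507) (-219970), .hi (-1343) 5406835),
  (.arc 2863 7862 (-974105) (-226095), .hi (-1353) 5475208),
  (.arc 2873 7872 (-972665) (-232211), .hi (-1363) 5544445),
  (.arc 2883 7882 (-971187) (-238318), .hi (-1373) 5614558),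
  (.arc 2893 7892 (-969671) (-244415), .hi (-1383) 5685558),
  (.arc 2903 7902 (-968116) (-250503), .hi (-1393) 5757456),
  (.arc 2913 7912 (-966523) (-256581), .hi (-1403) 5830263),
  (.arc 2923 7922 (-964892) (-262649), .hi (-1413) 5903990),
  (.arc 2933 7932 (-963222) (-268706), .hi (-1423) 5978650),
  (.arc 2943 7942 (-961515) (-274753), .hi (-1433) 6054254),
  (.arc 2953 7952 (-959770) (-280789), .hi (-1443) 6130814),
  (.arc 2963 7962 (-957986) (-286813), .hi (-1453) 6208342)]

/-- pairs of conditions -/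
def ak5_threeE : List (GC × GC) := [
  (.arc 2725 7724 (-990025) (-140889), .hi (-1205) 4546001),
  (.arc 2735 7734 (-989121) (-147106), .hi (-1215) 4603488),
  (.arc 2745 7744 (-988177) (-153318), .hi (-1225) 4661702),
  (.arc 2755 7754 (-987194) (-159524), .hi (-1235) 4720653),
  (.arc 2765 7764 (-986172) (-165724), .hi (-1245) 4780349),
  (.arc 2775 7774 (-985111) (-171917), .hi (-1255) 4840799),
  (.arc 2785 7784 (-984012) (-178103), .hi (-1265) 4902014),
  (.arc 2795 7794 (-982873) (-184282), .hi (-1275) 4964003),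
  (.arc 2805 7804 (-981696) (-190454), .hi (-1285) 5026776),
  (.arc 2815 7814 (-980480) (-196618), .hi (-1295) 5090343),
  (.arc 2825 7824 (-979225) (-202775), .hi (-1305) 5154714),
  (.arc 2835 7834 (-977932) (-208924), .hi (-1315) 5219899),
  (.arc 2845 7844 (-976600) (-215064), .hi (-1325) 5285908),
  (.arc 2855 7854 (-975229) (-221196), .hi (-1335) 5352752),
  (.arc 2865 7864 (-973820) (-227319), .hi (-1345) 5420441),
  (.arc 2875 7874 (-972373) (-233433), .hi (-1355) 5488986),
  (.arc 2885 7884 (-970887) (-239538), .hi (-1365) 5558398),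
  (.arc 2895 7894 (-969363) (-245634), .hi (-1375) 5628687),
  (.arc 2905 7904 (-967800) (-251719), .hi (-1385) 5699866),
  (.arc 2915 7914 (-966200) (-257795), .hi (-1395) 5771944),
  (.arc 2925 7924 (-964561) (-263861), .hi (-1405) 5844934),
  (.arc 2935 7934 (-962884) (-269916), .hi (-1415) 5918847),
  (.arc 2945 7944 (-961169) (-275961), .hi (-1425) 5993695)]

/-- pairs of conditions -/
def ak5_ringA : List (GC × GC) := [
  (.arc 2758 7757 (-986892) (-161385), .hi (-1248) 4798404),
  (.arc 2768 7767 (-985858) (-167582), .hi (-1258) 4859083),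
  (.arc 2778 7777 (-984786) (-173773), .hi (-1268) 4920529),
  (.arc 2788 7787 (-983674) (-179957), .hi (-1278) 4982753),
  (.arc 2798 7797 (-982524) (-186134), .hi (-1288) 5045763),
  (.arc 2808 7807 (-981335) (-192304), .hi (-1298) 5109570),
  (.arc 2818 7817 (-980108) (-198466), .hi (-1308) 5174184),
  (.arc 2828 7827 (-978841) (-204620), .hi (-1318) 5239615),
  (.arc 2838 7837 (-977536) (-210767), .hi (-1328) 5305873),
  (.arc 2848 7847 (-976193) (-216904), .hi (-1338) 5372969),
  (.arc 2858 7857 (-974811) (-223034), .hi (-1348) 5440914),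
  (.arc 2868 7867 (-973390) (-229154), .hi (-1358) 5509718),
  (.arc 2878 7877 (-971931) (-235266), .hi (-1368) 5579392),
  (.arc 2888 7887 (-970434) (-241368), .hi (-1378) 5649947),
  (.arc 2898 7897 (-968898) (-247460), .hi (-1388) 5721394),
  (.arc 2908 7907 (-967324) (-253543), .hi (-1398) 5793745),
  (.arc 2918 7917 (-965712) (-259616), .hi (-1408) 5867011),
  (.arc 2928 7927 (-964062) (-265679), .hi (-1418) 5941203),
  (.arc 2938 7937 (-962373) (-271731), .hi (-1428) 6016333),
  (.arc 2948 7947 (-960647) (-277772), .hi (-1438) 6092414),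
  (.arc 2958 7957 (-958883) (-283802), .hi (-1448) 6169456),
  (.arc 2968 7967 (-957081) (-289822), .hi (-1458) 6247473)]

/-- pairs of conditions -/
def ak5_ringZ : List (GC × GC) := [
  (.arc 2778 7777 (-984786) (-173773), .hi (-1263) 4889710),
  (.arc 2788 7787 (-983674) (-179957), .hi (-1273) 4951543),
  (.arc 2798 7797 (-982524) (-186134), .hi (-1283) 5014159),
  (.arc 2808 7807 (-981335) (-192304), .hi (-1293) 5077566),
  (.arc 2818 7817 (-980108) (-198466), .hi (-1303) 5141775),
  (.arc 2828 7827 (-978841) (-204620), .hi (-1313) 5206796),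
  (.arc 2838 7837 (-977536) (-210767), .hi (-1323) 5272640),
  (.arc 2848 7847 (-976193) (-216904), .hi (-1333) 5339316),
  (.arc 2858 7857 (-974811) (-223034), .hi (-1343) 5406835),
  (.arc 2868 7867 (-973390) (-229154), .hi (-1353) 5475208),
  (.arc 2878 7877 (-971931) (-235266), .hi (-1363) 5544445),
  (.arc 2888 7887 (-970434) (-241368), .hi (-1373) 5614558),
  (.arc 2898 7897 (-968898) (-247460), .hi (-1383) 5685558),
  (.arc 2908 7907 (-967324) (-253543), .hi (-1393) 5757456),
  (.arc 2918 7917 (-965712) (-259616), .hi (-1403) 5830263),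
  (.arc 2928 7927 (-964062) (-265679), .hi (-1413) 5903990),
  (.arc 2938 7937 (-962373) (-271731), .hi (-1423) 5978650),
  (.arc 2948 7947 (-960647) (-277772), .hi (-1433) 6054254),
  (.arc 2958 7957 (-958883) (-283802), .hi (-1443) 6130814),
  (.arc 2968 7967 (-957081) (-289822), .hi (-1453) 6208342)]

/-- conditions -/
def lhA : List GC :=
  [.arc 1640 6639 (-857520) 514450, .arc 0 2980 954861 297054, .lo (-1580) 7282591,
  .hi 385 616432]

end

end TD

/-! ### TFd -/

namespace TD

section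

open Complex SR

/-- conditions -/
def lf_ringA : List GC :=
  [.arc 1731 6730 (-885518) 464606, .arc 0 1886 926507 (-376277), .lo (-1037) 3680811,
  .hi (-903) 3110373]

/-- conditions -/
def lf_ringZ : List GC :=
  [.arc 1742 6741 (-888708) 458475, .arc 0 1886 926507 (-376277), .lo (-1026) 3630281,
  .hi (-870) 2984027]

/-- conditions -/
def lf_three3 : List GC :=
  [.arc 1729 6728 (-884933) 465718, .lo (-1049) 3736737, .hi (-916) 3161603]

/-- conditions -/
def lf_threeE : List GC :=
  [.arc 1712 6711 (-879908) 475144, .arc 0 1832 913210 (-407490), .lo (-1035) 3671571,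
  .hi (-915) 3157632]

/-- conditions -/
def lf_two3 : List GC :=
  [.arc 1715 6714 (-880802) 473484, .lo (-1072) 3846314, .hi (-928) 3209640]

/-- conditions -/
def lf_twoE : List GC :=
  [.arc 1683 6682 (-871105) 491097, .arc 0 1803 905633 (-424062), .lo (-1060) 3788748,
  .hi (-940) 3258407]

end

end TD

/-! ### TYa -/

namespace TD

noncomputable section

open Complex SR Ev

/-- the exponential of the variable of a term -/
def tQ (H : List QC) : Grp := ⟨.add .R .q rfl, .sub .R .q rfl, rfl, H⟩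

/-- the check of a row for the term of the second ring: `zi`: conditions for the ring variable -/
def trowOkQ (x : SK) (zi : List GC) (o o' : List QC) (L' : List Grp) (gq : List GC) (n code : ℕ) :
    Bool :=
  row (tZ (zi.map GC.qi) :: tl o :: tr (ownR x o') :: L') [tQ (gq.map GC.q)] n code rootT &&
    (zi.all GC.oki && gq.all GC.ok)

end

end TD

end Pool.Agent.Work.MP_b30479_gtS.G2.CN

end

section

/-!
# Definitions of the tests of rows with the inner variable seen from the other side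

The rows need these definitions only.
-/

namespace Pool.Agent.Work.MP_b30479_gtS.G2.CN

/-! ### TKin -/

namespace TD

noncomputable section

open Complex SR Ev
open scoped ComplexConjugate

/-- the common denominator -/
def dKi : Ev :=
  .nl (.sub (.nm 2 (.mul (.sub tq (.sc 2 (.k 2 0 0 0)) rfl) tl2)) (.sq tq) rfl)

/-- the exponential of the inner variable seen from the other side -/
def tKi (H : List QC) : Grp := ⟨.mul tq tl2, dKi, (rfl : 4 = 4), H⟩

/-- the exponential of this inner variable minus the hinge -/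
def tKs (H : List QC) : Grp := ⟨.sq tq, dKi, (rfl : 4 = 4), H⟩

/-- the exponential of this inner variable minus twice the hinge -/
def tKh (H : List QC) : Grp := ⟨.mul (.sq tq) tq, .mul dKi tl2, (rfl : 6 = 6), H⟩

/-- the check of a row -/
def trowOkI (o : List QC) (L : List Grp) (o' : List QC) (L' : List Grp)
    (gy gt gk gh : List GC) (n code : ℕ) : Bool :=
  row (tl o :: tr (ownR .s o') :: (L ++ L'))
    [tYx .s (gy.map GC.q), tKi (gt.map GC.q), tKs (gk.map GC.q), tKh (gh.map GC.q)] n code rootT &&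
    (gy.all GC.ok && gt.all GC.ok && gk.all GC.ok && gh.all GC.ok)

end

end TD

/-! ### LEnd2 -/

namespace TD

noncomputable section

open Complex SR
open scoped ComplexConjugate

/-- the conditions for `-(i / 2) k`, `k` in the polygon with 3 crossings -/
def x3as : List QC :=
  [⟨88000, -50000, 0, 26472⟩, ⟨242000, -6000, 0, 24932⟩, ⟨-2000, 208000, 0, -88481⟩,
    ⟨-52000, 208000, 0, -95706⟩, ⟨-66000, -8000, 0, -9681⟩, ⟨-116000, -70000, 0, 5053⟩,
    ⟨-124000, -160000, 0, 36532⟩, ⟨30000, -122000, 0, 44919⟩]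

/-- the conditions for `-(i / 2) k`, `k` in the polygon with 2 crossings -/
def x2as : List QC :=
  [⟨168000, -108000, 0, 60462⟩, ⟨376000, 98000, 0, 24403⟩, ⟨52000, 300000, 0, -117076⟩,
    ⟨-100000, 338000, 0, -171473⟩, ⟨-206000, -48000, 0, -49196⟩, ⟨-292000, -294000, 0, 10934⟩,
    ⟨-62000, -154000, 0, 28329⟩, ⟨64000, -132000, 0, 48882⟩]

end

end TD

end Pool.Agent.Work.MP_b30479_gtS.G2.CN

end

section

/-!
# Groups for the split hinges

`sgU`: product of the exponentials on the two sides of an absorbed digit; `sgV`: the same for a digit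
`1` between two absorbed digits; `sgW`, `sgX`: the split hinge and the product for a digit `1` next to
one absorbed digit.
-/

namespace Pool.Agent.Work.MP_b30479_gtS.G2.CN.S6

open Complex SR NumIs

noncomputable section

namespace Ev

/-- `R + i` -/
def sRp : Ev := .add .R (.sc 1 (.k 0 0 1 0)) rfl
/-- `R - i` -/
def sRm : Ev := .sub .R (.sc 1 (.k 0 0 1 0)) rfl

variable (u w : ℂ)

lemma val_sRp : sRp.val u w = u + I := by
  change u + gz 0 0 1 0 = _
  rw [gz_I]
  push_cast
  ring

lemma val_sRm : sRm.val u w = u - I := by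
  change u - gz 0 0 1 0 = _
  rw [gz_I]
  push_cast
  ring

end Ev

open CN.Ev S6.Ev

/-- the product for the two sides of an absorbed digit -/
def sgU (H : List QC) : Grp := ⟨.mul dl2 (dr2 1 0), .mul .q q2, (rfl : 3 = 3), H⟩
/-- the product for a digit `1` between two absorbed digits -/
def sgV (H : List QC) : Grp := ⟨.mul dl2 sRp, .gm 0 0 1 0 dl3, (rfl : 2 = 2), H⟩
/-- the split hinge on the other side of a digit `1` -/
def sgW (H : List QC) : Grp := ⟨.q, dl2, (rfl : 1 = 1), H⟩
/-- the product for a digit `1` next to one absorbed digit -/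
def sgX (H : List QC) : Grp := ⟨.mul .q sRp, .mul sRm dl2, (rfl : 2 = 2), H⟩

lemma val_dl2' (R q : ℂ) : dl2.val R q = q - 2 + 2 * I * R := by
  have hv := CN.Ev.val_dl2 R q
  have : DB I 2 R q = 2 * (q - 2 + 2 * I * R) := by
    simp only [DB, cab]
    ring
  rw [this] at hv
  exact mul_left_cancel₀ two_ne_zero hv

lemma val_dl3' (R q : ℂ) : dl3.val R q = I * R * (4 - q) - (4 - 3 * q) := by
  have hv := CN.Ev.val_dl3 R q
  have : DB I 3 R q = 2 * (I * R * (4 - q) - (4 - 3 * q)) := by
    simp only [DB, cab]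
    ring
  rw [this] at hv
  exact mul_left_cancel₀ two_ne_zero hv

lemma val_dr2' (R q : ℂ) : (dr2 1 0).val R q = R ^ 2 + 1 - q - 2 + 2 * I * R := by
  have hv := CN.Ev.val_dr2 R q 1 0
  have : DB ((((1 : ℕ) : ℂ) - (0 : ℕ)) * I) 2 R (R ^ 2 + 1 - q) =
      2 * (R ^ 2 + 1 - q - 2 + 2 * I * R) := by
    simp only [DB, cab]
    push_cast
    ring
  rw [this] at hv
  exact mul_left_cancel₀ two_ne_zero hv

/-! ### exponentials -/

section
variable {K : KFam} {d : ℕ} {l : SK} {d' : ℕ} {l' : SK} {R k k' : ℂ}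

/-- the value of the second ring -/
lemma q2_eq (h : HDt K .s d l d' l' R k k') : R ^ 2 + 1 - 1 / k ^ 2 = 1 / k' ^ 2 := by
  rw [h.hinge]
  ring

lemma exp1 (h : HDt K .s d l d' l' R k k') (h1 : (acot2 (Sp R k)).re < 1 / 2) :
    cexp (2 * Real.pi * I * acot2 (Sp R k)) * (1 / k ^ 2) = 1 / k ^ 2 - 2 + 2 * I * R :=
  exp_split (r0_pos.trans h.Rre) (ne_of_re h.kre) h1

lemma exp2 (h : HDt K .s d l d' l' R k k') (h1 : (acot2 (Sp R k')).re < 1 / 2) :
    cexp (2 * Real.pi * I * acot2 (Sp R k')) * (1 / k' ^ 2) = 1 / k' ^ 2 - 2 + 2 * I * R :=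
  exp_split (r0_pos.trans h.Rre) (ne_of_re h.kre') h1

/-- the first group -/
lemma eS (h : HDt K .s d l d' l' R k k') (h1 : (acot2 (Sp R k)).re < 1 / 2) (H : List QC) :
    cexp (2 * Real.pi * I * acot2 (Sp R k)) * (gS H).M.val R (1 / k ^ 2) =
      (gS H).N.val R (1 / k ^ 2) := by
  change _ * (1 / k ^ 2) = dl2.val R (1 / k ^ 2)
  rw [val_dl2', exp1 h h1]

/-- the product -/
lemma eU (h : HDt K .s d l d' l' R k k') (h1 : (acot2 (Sp R k)).re < 1 / 2)
    (h2 : (acot2 (Sp R k')).re < 1 / 2) (H : List QC) :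
    cexp (2 * Real.pi * I * (acot2 (Sp R k) + acot2 (Sp R k'))) * (sgU H).M.val R (1 / k ^ 2) =
      (sgU H).N.val R (1 / k ^ 2) := by
  change _ * (1 / k ^ 2 * q2.val R (1 / k ^ 2)) = dl2.val R (1 / k ^ 2) *
    (dr2 1 0).val R (1 / k ^ 2)
  rw [val_dl2', val_dr2', CN.Ev.val_q2, q2_eq h, mul_add, Complex.exp_add, ← exp1 h h1,
    ← exp2 h h2]
  ring

end

/-! ### digit `1` -/

/-- the ring relation for one crossing -/
lemma RE_one {R R' τ : ℂ} (hτ : τ ≠ 0) (hr : RE I 1 R R' τ) :
    (R + I) * (R' + I) = -(1 + τ ^ 2) := by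
  unfold RE at hr
  have e : 2 * τ * (R + R' - I * (R * R' + τ ^ 2)) = 0 := by linear_combination hr
  have h2 := (mul_eq_zero.mp e).resolve_left (mul_ne_zero two_ne_zero hτ)
  linear_combination I * h2 + (1 + τ ^ 2 + R * R') * Complex.I_mul_I

section
variable {K : KFam} {l r : SK} {dl : ℕ} {ll : SK} {dr : ℕ} {rr : SK} {w kl kr : ℂ}

lemma one_rel (h : RDt K 1 l r dl ll dr rr w kl kr) :
    (Hq l (RR w kl) (Complex.cos w) + I) * (Hq r (RR w kr) (Complex.cos w) + I) =
      -(1 / Complex.cos w ^ 2) := by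
  have hτ : Complex.tan w ≠ 0 := by
    intro h0
    have := h.tan_re
    rw [h0] at this
    simp at this
  rw [RE_one hτ h.reH, one_add_tan_sq h.cos_ne]

/-- the split hinge of a digit `1` with one side `s` -/
lemma exp_sa (h : RDt K 1 .s .a dl ll dr rr w kl kr)
    (h1 : (acot2 (Sp (RR w kl) (Complex.cos w))).re < 1 / 2) :
    cexp (2 * Real.pi * I * acot2 (Sp (RR w kl) (Complex.cos w))) *
      (1 / Complex.cos w ^ 2 - 2 + 2 * I * RR w kr) = 1 / Complex.cos w ^ 2 := by
  have e := one_rel h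
  rw [Hq_s, Hq_of_ne (by decide)] at e
  have q0 : (1 : ℂ) / Complex.cos w ^ 2 ≠ 0 := one_div_ne_zero (pow_ne_zero 2 h.cos_ne)
  have hR : RR w kr + I ≠ 0 := add_I_ne h.right.Rre
  obtain ⟨n1, n2⟩ : Sp (RR w kl) (Complex.cos w) ≠ I ∧ Sp (RR w kl) (Complex.cos w) ≠ -I :=
    ⟨Sp_ne_I (add_I_ne h.left.Rre) h.cos_ne, ne_nI_of_half h1⟩
  have ee := exp_acot2 n1 n2
  have hS : Sp (RR w kl) (Complex.cos w) + I ≠ 0 := fun h0 => n2 (by linear_combination h0)
  generalize Sp (RR w kl) (Complex.cos w) = U at *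
  generalize 1 / Complex.cos w ^ 2 = q at *
  generalize RR w kr = R at *
  apply mul_right_cancel₀ hS
  have e3 : (q - 2 + 2 * I * R) * (U + I) = q * (U - I) := by
    linear_combination (2 * I) * e - (2 * (U + I)) * Complex.I_mul_I
  linear_combination (cexp (2 * Real.pi * I * acot2 U)) * e3 + q * ee

end

end

end Pool.Agent.Work.MP_b30479_gtS.G2.CN.S6

end

section

/-!
# Split hinges: use of the runs
-/

namespace Pool.Agent.Work.MP_b30479_gtS.G2.CN.S6

open Complex SR NumIs CN.Ev S6.Ev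

noncomputable section

/-! ### exponentials at a digit `1` -/

section
variable {K : KFam} {dl : ℕ} {ll : SK} {dr : ℕ} {rr : SK} {w kl kr : ℂ}

/-- digit `1`, one side `s`: the product -/
lemma eX (h : RDt K 1 .s .a dl ll dr rr w kl kr)
    (h1 : (acot2 (Sp (RR w kl) (Complex.cos w))).re < 1 / 2) (H : List QC) :
    cexp (2 * Real.pi * I * (acot2 (Sp (RR w kl) (Complex.cos w)) + acot2 (RR w kr))) *
      (sgX H).M.val (RR w kr) (1 / Complex.cos w ^ 2) =
      (sgX H).N.val (RR w kr) (1 / Complex.cos w ^ 2) := by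
  change _ * (sRm.val _ _ * dl2.val _ _) = 1 / Complex.cos w ^ 2 * sRp.val _ _
  have e1 := exp_sa h h1
  have n := ne_I_of_re (r0_pos.trans h.right.Rre)
  have e2 := exp_acot2 n.1 n.2
  rw [val_sRm, val_sRp, val_dl2', mul_add, Complex.exp_add]
  linear_combination (cexp (2 * Real.pi * I * acot2 (RR w kr)) * (RR w kr - I)) * e1 +
    (1 / Complex.cos w ^ 2) * e2

/-- digit `1`, one side `s`: the split hinge -/
lemma eW (h : RDt K 1 .s .a dl ll dr rr w kl kr)
    (h1 : (acot2 (Sp (RR w kl) (Complex.cos w))).re < 1 / 2) (H : List QC) :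
    cexp (2 * Real.pi * I * acot2 (Sp (RR w kl) (Complex.cos w))) *
      (sgW H).M.val (RR w kr) (1 / Complex.cos w ^ 2) =
      (sgW H).N.val (RR w kr) (1 / Complex.cos w ^ 2) := by
  change _ * dl2.val _ _ = 1 / Complex.cos w ^ 2
  rw [val_dl2', exp_sa h h1]

/-- digit `1`, one side `s`: the other hinge -/
lemma eH (h : RDt K 1 .s .a dl ll dr rr w kl kr) (H : List QC) :
    cexp (2 * Real.pi * I * acot2 (RR w kr)) *
      (gH H).M.val (RR w kr) (1 / Complex.cos w ^ 2) =
      (gH H).N.val (RR w kr) (1 / Complex.cos w ^ 2) := by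
  change _ * (RR w kr - gz 0 0 1 0) = RR w kr + gz 0 0 1 0
  have n := ne_I_of_re (r0_pos.trans h.right.Rre)
  rw [gzI (RR w kr)]
  exact exp_acot2 n.1 n.2

/-- digit `1`, two sides `s`: the product -/
lemma eV (h : RDt K 1 .s .s dl ll dr rr w kl kr)
    (h1 : (acot2 (Sp (RR w kl) (Complex.cos w))).re < 1 / 2)
    (h2 : (acot2 (Sp (RR w kr) (Complex.cos w))).re < 1 / 2) (H : List QC) :
    cexp (2 * Real.pi * I * (acot2 (Sp (RR w kl) (Complex.cos w)) +
      acot2 (Sp (RR w kr) (Complex.cos w)))) *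
      (sgV H).M.val (RR w kr) (1 / Complex.cos w ^ 2) =
      (sgV H).N.val (RR w kr) (1 / Complex.cos w ^ 2) := by
  change _ * (gz 0 0 1 0 * dl3.val _ _) = dl2.val _ _ * sRp.val _ _
  have e := one_rel h
  rw [Hq_s, Hq_s] at e
  have hR : RR w kr + I ≠ 0 := add_I_ne h.right.Rre
  have s := Sp_sub (k := Complex.cos w) hR
  have e2 := exp_split (r0_pos.trans h.right.Rre) h.cos_ne h2
  obtain ⟨n1, n2⟩ : Sp (RR w kl) (Complex.cos w) ≠ I ∧ Sp (RR w kl) (Complex.cos w) ≠ -I :=
    ⟨Sp_ne_I (add_I_ne h.left.Rre) h.cos_ne, ne_nI_of_half h1⟩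
  have ee := exp_acot2 n1 n2
  have hS : Sp (RR w kl) (Complex.cos w) + I ≠ 0 := fun h0 => n2 (by linear_combination h0)
  have q0 : (1 : ℂ) / Complex.cos w ^ 2 ≠ 0 := one_div_ne_zero (pow_ne_zero 2 h.cos_ne)
  rw [gz_I, val_sRp, val_dl2', val_dl3', mul_add, Complex.exp_add]
  push_cast
  generalize acot2 (Sp (RR w kl) (Complex.cos w)) = a at *
  generalize acot2 (Sp (RR w kr) (Complex.cos w)) = b at *
  generalize Sp (RR w kl) (Complex.cos w) = U at *
  generalize Sp (RR w kr) (Complex.cos w) = V at *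
  generalize 1 / Complex.cos w ^ 2 = q at *
  generalize RR w kr = R at *
  generalize cexp (2 * Real.pi * I * a) = Ea at *
  generalize cexp (2 * Real.pi * I * b) = Eb at *
  -- `Ea (q + 2 i (V + i)) = q`
  have e4 : Ea * (q + 2 * I * (V + I)) = q := by
    apply mul_right_cancel₀ hS
    linear_combination (2 * I * Ea) * e + q * ee
  -- `(q + 2 i (V + i)) (R + i) = i dl3`
  have e5 : (q + 2 * I * (V + I)) * (R + I) = I * (I * R * (4 - q) - (4 - 3 * q)) := by
    linear_combination (2 * I) * s + (-(R * (4 - q)) + 4 * (R + I)) * Complex.I_mul_I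
  apply mul_right_cancel₀ q0
  linear_combination (-(Ea * Eb * q)) * e5 + (Eb * q * (R + I)) * e4 + (q * (R + I)) * e2

end

/-! ### use of a run -/

/-- the goals of a run for a split hinge -/
def goS (b : BB) (gu : List GC) : List Grp := [gS b.H, sgU (gu.map GC.q)]

/-- the goals of a run for a split hinge next to a digit `1` with two split sides -/
def goV (b : BB) (gu gv : List GC) : List Grp := [gS b.H, sgU (gu.map GC.q), sgV (gv.map GC.q)]

/-- the goals of a run for the hinge with opposite signs next to a digit `1` -/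
def goX (ga gb gc : List GC) : List Grp :=
  [gH (ga.map GC.q), sgW (gb.map GC.q), sgX (gc.map GC.q)]

section
variable {x : SK} {d : ℕ} {l : SK} {d' : ℕ} {l' : SK} {c c' : Cls} (hL : c.Ok x d l)
  (hR : c'.Ok x d' l') {go : List Grp} {n code : ℕ}
  (hr : row (gsOf x c c') go n code root = true) {K : KFam} (hK : KOK K) {R k k' : ℂ}
  (h : HDt K x d l d' l' R k k')
include hL hR hr hK h

/-- the bounds from a group of goals -/
theorem use_gc {g : Grp} (hg : g ∈ go) {gs : List GC} (hH : g.H = gs.map GC.q)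
    (ho : gs.all GC.ok = true) {v : ℂ}
    (he : cexp (2 * Real.pi * I * v) * g.M.val R (1 / k ^ 2) = g.N.val R (1 / k ^ 2)) :
    ∀ e ∈ gs, e.P v := by
  intro e hE
  refine GC.spec (List.all_eq_true.1 ho e hE) ?_
  refine row_sound hr (hK.root h) (gs_ok hL hR hK h) hg he _ ?_
  rw [hH]
  exact List.mem_map_of_mem hE

end

section
variable {d : ℕ} {l : SK} {d' : ℕ} {l' : SK} {c c' : Cls} (hL : c.Ok .s d l)
  (hR : c'.Ok .s d' l') {b : BB} {gu gv : List GC} {n code : ℕ}

section
variable (hr : row (gsOf .s c c') (goS b gu) n code root = true) {K : KFam} (hK : KOK K)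
  {R k k' : ℂ} (h : HDt K .s d l d' l' R k k')
include hL hR hr hK h

theorem useS (hs : b.ok = true) : b.box.In (acot2 (Sp R k)) :=
  cls_S hL hR hr hs List.mem_cons_self hK h

theorem useU (ho : gu.all GC.ok = true) (h1 : (acot2 (Sp R k)).re < 1 / 2)
    (h2 : (acot2 (Sp R k')).re < 1 / 2) : ∀ e ∈ gu, e.P (acot2 (Sp R k) + acot2 (Sp R k')) :=
  use_gc hL hR hr hK h (g := sgU (gu.map GC.q)) (by simp [goS]) rfl ho (eU h h1 h2 _)

end

section
variable (hr : row (gsOf .s c c') (goV b gu gv) n code root = true) {K : KFam} (hK : KOK K)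
  {R k k' : ℂ} (h : HDt K .s d l d' l' R k k')
include hL hR hr hK h

theorem useS' (hs : b.ok = true) : b.box.In (acot2 (Sp R k)) :=
  cls_S hL hR hr hs List.mem_cons_self hK h

theorem useU' (ho : gu.all GC.ok = true) (h1 : (acot2 (Sp R k)).re < 1 / 2)
    (h2 : (acot2 (Sp R k')).re < 1 / 2) : ∀ e ∈ gu, e.P (acot2 (Sp R k) + acot2 (Sp R k')) :=
  use_gc hL hR hr hK h (g := sgU (gu.map GC.q)) (by simp [goV]) rfl ho (eU h h1 h2 _)

end

end

/-- digit `1` with two split sides -/
theorem useV {ll : SK} {dl : ℕ} {dr : ℕ} {rr : SK} {c c' : Cls} (hL : c.Ok .s 1 .s)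
    (hR : c'.Ok .s dr rr) {b : BB} {gu gv : List GC} {n code : ℕ}
    (hr : row (gsOf .s c c') (goV b gu gv) n code root = true) {K : KFam} (hK : KOK K)
    {w kl kr : ℂ} (h : RDt K 1 .s .s dl ll dr rr w kl kr) (ho : gv.all GC.ok = true)
    (h1 : (acot2 (Sp (RR w kl) (Complex.cos w))).re < 1 / 2)
    (h2 : (acot2 (Sp (RR w kr) (Complex.cos w))).re < 1 / 2) :
    ∀ e ∈ gv, e.P (acot2 (Sp (RR w kl) (Complex.cos w)) +
      acot2 (Sp (RR w kr) (Complex.cos w))) :=
  use_gc hL hR hr hK h.right (g := sgV (gv.map GC.q)) (by simp [goV]) rfl ho (eV h h1 h2 _)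

/-- digit `1` with one split side -/
theorem useX {ll : SK} {dl : ℕ} {dr : ℕ} {rr : SK} {c c' : Cls} (hL : c.Ok .a 1 .s)
    (hR : c'.Ok .a dr rr) {ga gb gc : List GC} {n code : ℕ}
    (hr : row (gsOf .a c c') (goX ga gb gc) n code root = true) {K : KFam} (hK : KOK K)
    {w kl kr : ℂ} (h : RDt K 1 .s .a dl ll dr rr w kl kr)
    (ho : (ga.all GC.ok && gb.all GC.ok && gc.all GC.ok) = true)
    (h1 : (acot2 (Sp (RR w kl) (Complex.cos w))).re < 1 / 2) :
    (∀ e ∈ ga, e.P (acot2 (RR w kr))) ∧ (∀ e ∈ gb, e.P (acot2 (Sp (RR w kl) (Complex.cos w)))) ∧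
      ∀ e ∈ gc, e.P (acot2 (Sp (RR w kl) (Complex.cos w)) + acot2 (RR w kr)) := by
  rw [Bool.and_eq_true, Bool.and_eq_true] at ho
  exact ⟨use_gc hL hR hr hK h.right (g := gH (ga.map GC.q)) (by simp [goX]) rfl ho.1.1 (eH h _),
    use_gc hL hR hr hK h.right (g := sgW (gb.map GC.q)) (by simp [goX]) rfl ho.1.2 (eW h h1 _),
    use_gc hL hR hr hK h.right (g := sgX (gc.map GC.q)) (by simp [goX]) rfl ho.2 (eX h h1 _)⟩

end

end Pool.Agent.Work.MP_b30479_gtS.G2.CN.S6

end
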