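import Pool.Agent.Work.MP_b30479_gt.TBS.G2.CN.TGoal
import Pool.Agent.Work.MP_b30479_gt.TBS.G2.CN.HPoly
import Pool.Agent.Work.MP_b30479_gt.TBS.G2.WLocX
import Pool.Agent.Work.MP_b30479_gt.TBS.G2.CN.TRwA
import Pool.Agent.Work.MP_b30479_gt.TBS.G2.SZa
import Pool.Agent.Work.MP_b30479_gt.TBS.G2.RLev

section

/-!
# Use of the rows of the ring windows

`OL`, `OR`: the groups of the outer values; `tuse`: the bounds of a row; `Bd`: bounds of the ring
variable, of the difference of the heights and of the sum of the real parts.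
-/

namespace Pool.Agent.Work.MP_b30479_gtS.G2.CN.TD

open Complex SR

noncomputable section

/-- the groups `L` hold for the outer side of kind `l` of the first ring -/
def OL (d B : ℕ) (l : SK) (L : List Grp) : Prop :=
  ∀ {K : KFam}, KOK K → ∀ {R T q q' : ℂ}, T ^ 2 + 1 = q → R ^ 2 + 1 - q = q' →
    Out I B R q q' (port K d B l) → AllOk R T L

/-- the groups `L` hold for the outer side of kind `l` of the second ring -/
def OR (x : SK) (d B : ℕ) (l : SK) (L : List Grp) : Prop :=
  ∀ {K : KFam}, KOK K → ∀ {R T q q' : ℂ}, T ^ 2 + 1 = q → R ^ 2 + 1 - q = q' →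
    Out (x.sgn * I) B R q' q ((port K d B l).map (frS x.sgn)) → AllOk R T L

section
variable {x : SK} {d B : ℕ} {l : SK}

lemma OL.nil : OL d B l [] := fun _ _ _ _ _ _ _ _ => AllOk.nil
lemma OL.a : OL d B .a (tA B (mirH PA2)) := fun hK _ _ _ _ hT hq h =>
  tA_all hT hq (portA hK).mir h
lemma OL.z : OL d B .z (tA B PZ) := fun hK _ _ _ _ hT hq h => tA_all hT hq (portZ hK) h
lemma OL.s (hd : 3 ≤ d) : OL d B .s (tA B PS3) := fun hK _ _ _ _ hT hq h =>
  tA_all hT hq (portS3 hK hd) h
lemma OL.e : OL d B .e (tF B) := fun _ _ _ _ _ hT _ h => tF_all hT h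

lemma OR.nil : OR x d B l [] := fun _ _ _ _ _ _ _ _ => AllOk.nil
lemma OR.a : OR x d B .a (tD x B (mirH PA2)) := fun hK _ _ _ _ hT hq h =>
  tD_all hT hq (portA hK).mir h
lemma OR.a1 (hd : d ≤ 1) : OR x d B .a (tD x B (mirH PA1)) := fun hK _ _ _ _ hT hq h =>
  tD_all hT hq (portA1 hK hd).mir h
lemma OR.s : OR x d B .s (tD x B PS2) := fun hK _ _ _ _ hT hq h => tD_all hT hq (portS hK) h
lemma OR.st (hB : B ≤ 2) : OR x d B .s (tD x B PST) := fun hK _ _ _ _ hT hq h =>
  tD_all hT hq (portST hK hB) h
lemma OR.e : OR x d B .e (tE x B) := fun _ _ _ _ _ hT hq h => tE_all hT hq h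

end

/-! ### bounds from the conditions -/

lemma arc_ub {n m : ℕ} {a b : ℤ} {v : ℂ} (h : (GC.arc n m a b).P v)
    (h1 : v.re ≤ (m : ℝ) / 10000) : v.re < (n : ℝ) / 10000 := by
  by_contra hc
  push Not at hc
  exact h ⟨hc, h1⟩

lemma arc_lb {n m : ℕ} {a b : ℤ} {v : ℂ} (h : (GC.arc n m a b).P v)
    (h0 : (n : ℝ) / 10000 ≤ v.re) : (m : ℝ) / 10000 < v.re := by
  by_contra hc
  push Not at hc
  exact h ⟨h0, hc⟩

/-- rough ranges of a hinge and of a ring variable -/
structure Rg (y z : ℂ) : Prop where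
  y0 : 0 ≤ y.re
  y1 : y.re ≤ 2 / 5
  z0 : z.re ≤ 0
  z1 : -(1 / 4) ≤ z.re

/-- bounds of the ring variable, of the difference of the heights and of the sum of the real parts -/
structure Bd (S Q C : ℝ) (y z : ℂ) : Prop where
  s : -z.re ≤ S
  q : z.im - y.im ≤ Q
  c : y.re - z.re ≤ C

section
variable {K : KFam} (hK : KOK K) {x : SK} {d : ℕ} {l : SK} {d' : ℕ} {l' : SK} {w R k' : ℂ}
  (t : TDt K x d l d' l' w R k')
include hK t

/-- the bounds of a row -/
theorem tuse {B B' : ℕ} (hB : crs d l x = B) (hB' : crs d' x l' = B') {gi : List GC} {o : List QC}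
    {L : List Grp} {o' : List QC} {L' : List Grp} {gy gz gu : List GC} {n code : ℕ}
    (hr : trowOk x gi o L o' L' gy gz gu n code = true)
    (hi : ∀ g ∈ gi, g.G (yH x R (Complex.cos w)))
    (ho : InH (K.K d l x) o) (ho' : InH (K.K d' l' x) o') (hL : OL d B l L)
    (hL' : OR x d' B' l' L') :
    (∀ g ∈ gy, g.P (yH x R (Complex.cos w))) ∧ (∀ g ∈ gz, g.P (-zeta w)) ∧
      ∀ g ∈ gu, g.P (yH x R (Complex.cos w) - zeta w) := by
  subst hB hB'
  refine trow hK t hr hi (ho _ t.h.mem) ho' ?_ ?_
  · intro q q' hT hq e1 e2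
    refine hL hK hT hq ?_
    rw [e1, e2]
    exact t.h.out
  · intro q q' hT hq h
    exact hL' hK hT hq h

/-- a row with bounds of the three quantities -/
theorem bd_of {B B' : ℕ} (hB : crs d l x = B) (hB' : crs d' x l' = B') {o : List QC}
    {L : List Grp} {o' : List QC} {L' : List Grp} {s1 m1 c1 m2 : ℕ} {a1 b1 a2 b2 mq cq : ℤ}
    {n code : ℕ}
    (hr : trowOk x [] o L o' L' [] [.arc s1 m1 a1 b1] [.lo mq cq, .arc c1 m2 a2 b2] n code = true)
    (ho : InH (K.K d l x) o) (ho' : InH (K.K d' l' x) o') (hL : OL d B l L)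
    (hL' : OR x d' B' l' L') (rg : Rg (yH x R (Complex.cos w)) (zeta w)) (h1 : 2500 ≤ m1)
    (h2 : 6500 ≤ m2) :
    Bd ((s1 : ℝ) / 10000) (-(mq : ℝ) / 10000) ((c1 : ℝ) / 10000) (yH x R (Complex.cos w))
      (zeta w) := by
  obtain ⟨-, rz, ru⟩ := tuse hK t hB hB' hr (fun g hg => absurd hg (List.not_mem_nil)) ho ho' hL hL'
  have m1' : (2500 : ℝ) ≤ m1 := by exact_mod_cast h1
  have m2' : (6500 : ℝ) ≤ m2 := by exact_mod_cast h2
  have g1 := arc_ub (rz _ (List.mem_cons_self)) (by rw [Complex.neg_re]; linarith only [m1', rg, rg.z1])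
  have g2 : (mq : ℝ) / 10000 ≤ (yH x R (Complex.cos w) - zeta w).im :=
    ru _ (List.mem_cons_self)
  have g3 := arc_ub (ru _ (List.mem_cons_of_mem _ List.mem_cons_self))
    (by rw [Complex.sub_re]; linarith only [m2', rg, rg.z1, rg.y1])
  rw [Complex.neg_re] at g1
  rw [Complex.sub_im] at g2
  rw [Complex.sub_re] at g3
  exact ⟨g1.le, by rw [neg_div]; linarith only [g2], g3.le⟩

/-- a row with a bound of the difference of the heights -/
theorem q_of {B B' : ℕ} (hB : crs d l x = B) (hB' : crs d' x l' = B') {o : List QC}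
    {L : List Grp} {o' : List QC} {L' : List Grp} {mq cq : ℤ} {n code : ℕ}
    (hr : trowOk x [] o L o' L' [] [] [.lo mq cq] n code = true)
    (ho : InH (K.K d l x) o) (ho' : InH (K.K d' l' x) o') (hL : OL d B l L)
    (hL' : OR x d' B' l' L') :
    (zeta w).im - (yH x R (Complex.cos w)).im ≤ -(mq : ℝ) / 10000 := by
  obtain ⟨-, -, ru⟩ := tuse hK t hB hB' hr (fun g hg => absurd hg (List.not_mem_nil)) ho ho' hL hL'
  have g2 : (mq : ℝ) / 10000 ≤ (yH x R (Complex.cos w) - zeta w).im :=
    ru _ (List.mem_cons_self)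
  rw [Complex.sub_im] at g2
  rw [neg_div]
  linarith only [g2]

/-- a row with a bound of the sum of the real parts -/
theorem c_of {B B' : ℕ} (hB : crs d l x = B) (hB' : crs d' x l' = B') {o : List QC}
    {L : List Grp} {o' : List QC} {L' : List Grp} {c1 m2 : ℕ} {a2 b2 : ℤ} {n code : ℕ}
    (hr : trowOk x [] o L o' L' [] [] [.arc c1 m2 a2 b2] n code = true)
    (ho : InH (K.K d l x) o) (ho' : InH (K.K d' l' x) o') (hL : OL d B l L)
    (hL' : OR x d' B' l' L') (rg : Rg (yH x R (Complex.cos w)) (zeta w)) (h2 : 6500 ≤ m2) :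
    (yH x R (Complex.cos w)).re - (zeta w).re ≤ (c1 : ℝ) / 10000 := by
  obtain ⟨-, -, ru⟩ := tuse hK t hB hB' hr (fun g hg => absurd hg (List.not_mem_nil)) ho ho' hL hL'
  have m2' : (6500 : ℝ) ≤ m2 := by exact_mod_cast h2
  have g3 := arc_ub (ru _ (List.mem_cons_self))
    (by rw [Complex.sub_re]; linarith only [m2', rg, rg.z1, rg.y1])
  rw [Complex.sub_re] at g3
  exact g3.le

/-- a row for the ring variables with real part below a bound -/
theorem slab {B B' : ℕ} (hB : crs d l x = B) (hB' : crs d' x l' = B') {o : List QC}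
    {L : List Grp} {o' : List QC} {L' : List Grp} {s1 m1 : ℕ} {a1 b1 mq cq : ℤ} {n code : ℕ}
    (hr : trowOk x [] o (tZ ([GC.arc s1 m1 a1 b1].map GC.qi) :: L) o' L' [] [] [.lo mq cq] n code =
      true) (hok : (GC.arc s1 m1 a1 b1).ok = true)
    (ho : InH (K.K d l x) o) (ho' : InH (K.K d' l' x) o') (hL : OL d B l L)
    (hL' : OR x d' B' l' L') (h0 : (s1 : ℝ) / 10000 ≤ -(zeta w).re)
    (h1 : -(zeta w).re ≤ (m1 : ℝ) / 10000) :
    (zeta w).im - (yH x R (Complex.cos w)).im ≤ -(mq : ℝ) / 10000 := by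
  have key := trow hK t hr (fun g hg => absurd hg (List.not_mem_nil)) (ho _ t.h.mem) ho' (by
    intro q q' hT hq e1 e2
    refine AllOk.cons ?_ (hL hK hT hq (by rw [e1, e2, ← hB]; exact t.h.out))
    refine ⟨_, expZ t.h.kre _, ?_⟩
    intro Q hQ
    obtain ⟨g, hg, rfl⟩ := List.mem_map.1 hQ
    rw [List.mem_singleton] at hg
    subst hg
    exact GC.imp (g := .arc s1 m1 a1 b1) hok ⟨by rw [Complex.neg_re]; exact h0, by rw [Complex.neg_re]; exact h1⟩) (by
    intro q q' hT hq h
    exact hL' hK hT hq (by rw [← hB']; exact h))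
  have g2 : (mq : ℝ) / 10000 ≤ (yH x R (Complex.cos w) - zeta w).im :=
    key.2.2 _ (List.mem_cons_self)
  rw [Complex.sub_im] at g2
  rw [neg_div]
  linarith only [g2]

end

end

end Pool.Agent.Work.MP_b30479_gtS.G2.CN.TD

end

section

/-!
# Windows of the rings next to the digits `2`, `3` and next to rings
-/

namespace Pool.Agent.Work.MP_b30479_gtS.G2.CN.TD

open Complex SR

noncomputable section

/-- the box of the ring variable -/
def ZB (d : ℕ) (l : SK) (z : ℂ) : Prop := (zbox d (decide (l = .e))).In z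

/-- the box of the hinge -/
def YB (x : SK) (d' : ℕ) (l' : SK) (y : ℂ) : Prop :=
  (hbox .ring (cK d' l') (decide (x = .z))).In y

lemma ZB.e {d : ℕ} {z : ℂ} (h : ZB d .e z) : (zbox d true).In z := h
lemma ZB.i {d : ℕ} {l : SK} {z : ℂ} (h : ZB d l z) (hl : l ≠ .e) : (zbox d false).In z := by
  unfold ZB at h
  rwa [decide_eq_false hl] at h

/-- the interior box of a digit at least `6` -/
lemma zb6 {d : ℕ} (h6 : 6 ≤ d) {z : ℂ} (h : (zbox d false).In z) :
    -(168 / 1000) ≤ z.re ∧ z.re ≤ 0 ∧ 0 ≤ z.im ∧ z.im ≤ 52 / 1000 := by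
  obtain ⟨a1, a2, a3, a4⟩ := h
  unfold zbox at a1 a2 a3 a4
  rw [if_neg (by omega), if_neg (by omega)] at a1 a2 a3 a4
  by_cases e6 : d = 6
  · simp only [e6, if_true, if_false, Bool.false_eq_true] at a1 a2 a3 a4
    exact ⟨by linarith only [a1], by linarith only [a2], a3, by linarith only [a4]⟩
  · rw [if_neg e6] at a1 a2 a3 a4
    by_cases e7 : d = 7
    · simp only [e7, if_true, if_false, Bool.false_eq_true] at a1 a2 a3 a4
      exact ⟨by linarith only [a1], by linarith only [a2], a3, by linarith only [a4]⟩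
    · rw [if_neg e7] at a1 a2 a3 a4
      simp only [if_false, Bool.false_eq_true] at a1 a2 a3 a4
      refine ⟨by linarith only [a1], by linarith only [a2], a3, a4.trans ?_⟩
      have h8 : (8 : ℝ) ≤ d := by exact_mod_cast (show 8 ≤ d by omega)
      have : (64 : ℝ) ≤ (d : ℝ) ^ 2 := by nlinarith only [h8]
      rw [div_le_iff₀ (by linarith only [this])]
      linarith only [this]

/-- the box of a digit at least `6` at the end -/
lemma zb6e {d : ℕ} (h6 : 6 ≤ d) {z : ℂ} (h : (zbox d true).In z) :
    -(174 / 1000) ≤ z.re ∧ z.re ≤ 0 ∧ 0 ≤ z.im ∧ z.im ≤ 30 / 1000 := by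
  obtain ⟨a1, a2, a3, a4⟩ := h
  unfold zbox at a1 a2 a3 a4
  rw [if_neg (by omega), if_neg (by omega)] at a1 a2 a3 a4
  by_cases e6 : d = 6
  · simp only [e6, if_true] at a1 a2 a3 a4
    exact ⟨by linarith only [a1], by linarith only [a2], a3, by linarith only [a4]⟩
  · rw [if_neg e6] at a1 a2 a3 a4
    by_cases e7 : d = 7
    · simp only [e7, if_true] at a1 a2 a3 a4
      exact ⟨by linarith only [a1], by linarith only [a2], a3, by linarith only [a4]⟩
    · rw [if_neg e7] at a1 a2 a3 a4
      simp only [if_true] at a1 a2 a3 a4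
      refine ⟨by linarith only [a1], by linarith only [a2], a3, a4.trans ?_⟩
      have h8 : (8 : ℝ) ≤ d := by exact_mod_cast (show 8 ≤ d by omega)
      have : (64 : ℝ) ≤ (d : ℝ) ^ 2 := by nlinarith only [h8]
      rw [div_le_iff₀ (by linarith only [this])]
      linarith only [this]

lemma zb5 {z : ℂ} (h : (zbox 5 false).In z) :
    -(194 / 1000) ≤ z.re ∧ z.re ≤ -(127 / 1000) ∧ 0 ≤ z.im ∧ z.im ≤ 725 / 10000 := by
  obtain ⟨a1, a2, a3, a4⟩ := h
  norm_num [zbox] at a1 a2 a3 a4
  norm_num
  exact ⟨a1, a2, a3, a4⟩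

lemma zb5e {z : ℂ} (h : (zbox 5 true).In z) :
    -(206 / 1000) ≤ z.re ∧ z.re ≤ -(158 / 1000) ∧ 0 ≤ z.im ∧ z.im ≤ 43 / 1000 := by
  obtain ⟨a1, a2, a3, a4⟩ := h
  norm_num [zbox] at a1 a2 a3 a4
  norm_num
  exact ⟨a1, a2, a3, a4⟩

lemma zb4 {z : ℂ} (h : (zbox 4 false).In z) :
    -(226 / 1000) ≤ z.re ∧ z.re ≤ -(144 / 1000) ∧ 0 ≤ z.im ∧ z.im ≤ 1045 / 10000 := by
  obtain ⟨a1, a2, a3, a4⟩ := h
  norm_num [zbox] at a1 a2 a3 a4
  norm_num
  exact ⟨a1, a2, a3, a4⟩

lemma zb4e {z : ℂ} (h : (zbox 4 true).In z) :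
    -(248 / 1000) ≤ z.re ∧ z.re ≤ -(186 / 1000) ∧ 0 ≤ z.im ∧ z.im ≤ 65 / 1000 := by
  obtain ⟨a1, a2, a3, a4⟩ := h
  norm_num [zbox] at a1 a2 a3 a4
  norm_num
  exact ⟨a1, a2, a3, a4⟩

lemma zb_rg {d : ℕ} (h4 : 4 ≤ d) {l : SK} {z : ℂ} (h : ZB d l z) :
    z.re ≤ 0 ∧ -(1 / 4) ≤ z.re := by
  rcases Nat.lt_or_ge d 6 with h6 | h6
  · have : d = 4 ∨ d = 5 := by omega
    by_cases hl : l = .e
    · subst hl
      rcases this with rfl | rfl
      · have := zb4e h; constructor <;> linarith only [this]
      · have := zb5e h; constructor <;> linarith only [this]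
    · rcases this with rfl | rfl
      · have := zb4 (h.i hl); constructor <;> linarith only [this]
      · have := zb5 (h.i hl); constructor <;> linarith only [this]
  · by_cases hl : l = .e
    · subst hl
      have := zb6e h6 h; constructor <;> linarith only [this]
    · have := zb6 h6 (h.i hl); constructor <;> linarith only [this]

/-- ranges of a hinge next to a digit `3` -/
lemma yb3 {l' : SK} {y : ℂ} (h : YB .a 3 l' y) :
    171 / 1000 ≤ y.re ∧ y.re ≤ 234 / 1000 ∧ -(58 / 1000) ≤ y.im ∧ y.im ≤ 4 / 1000 := by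
  have e : cK 3 l' = .three ∨ cK 3 l' = .threeE := by
    cases l' <;> simp [cK]
  unfold YB at h
  rcases e with e | e <;>
  · rw [e] at h
    obtain ⟨a1, a2, a3, a4⟩ := h
    norm_num [hbox] at a1 a2 a3 a4
    norm_num
    exact ⟨by linarith only [a1], by linarith only [a2], by linarith only [a3], by linarith only [a4]⟩

lemma ybR {d' : ℕ} (h4 : 4 ≤ d') {l' : SK} {y : ℂ} (h : YB .a d' l' y) :
    182 / 1000 ≤ y.re ∧ y.re ≤ 252 / 1000 ∧ -(385 / 10000) ≤ y.im ∧ y.im ≤ 385 / 10000 := by
  unfold YB at h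
  rw [cK_ring h4] at h
  obtain ⟨a1, a2, a3, a4⟩ := h
  norm_num [hbox] at a1 a2 a3 a4
  norm_num
  exact ⟨a1, a2, a3, a4⟩

lemma ybZ {d' : ℕ} (h4 : 4 ≤ d') {l' : SK} {y : ℂ} (h : YB .z d' l' y) :
    170 / 1000 ≤ y.re ∧ y.re ≤ 252 / 1000 ∧ -(1 / 1000) ≤ y.im ∧ y.im ≤ 59 / 1000 := by
  unfold YB at h
  rw [cK_ring h4] at h
  obtain ⟨a1, a2, a3, a4⟩ := h
  norm_num [hbox] at a1 a2 a3 a4
  norm_num
  exact ⟨a1, a2, a3, a4⟩

lemma yb2 {l' : SK} (hl : l' ≠ .e) {y : ℂ} (h : YB .a 2 l' y) :
    186 / 1000 ≤ y.re ∧ y.re ≤ 252 / 1000 ∧ -(96 / 1000) ≤ y.im ∧ y.im ≤ -(10 / 1000) := by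
  have e : cK 2 l' = .two := by
    cases l' <;> simp_all [cK]
  unfold YB at h
  rw [e] at h
  obtain ⟨a1, a2, a3, a4⟩ := h
  norm_num [hbox] at a1 a2 a3 a4
  norm_num
  exact ⟨a1, a2, a3, a4⟩

/-! ### the lists of the neighbours -/

section
variable {K : KFam} (hK : KOK K)
include hK

lemma in_n3Z {d' : ℕ} {l' : SK} (h : ROK d' l' .a) (hc : (d' = 3 ∧ l' ≠ .e) ∨ 4 ≤ d') :
    InH (K.K d' l' .a) n3Z := by
  refine hK.inU h n3Z_ok ?_ (min_le_right _ _)
  have h2 := h.zl
  unfold crs
  cases l' <;> simp only [SK.u, lo3Z] at hc ⊢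
  · rcases hc with ⟨-, h5⟩ | h5
    · exact absurd rfl h5
    · omega
  · omega
  · have := h2 rfl
    omega
  · omega

lemma in_nZz {d' : ℕ} {l' : SK} (h : ROK d' l' .z) : InH (K.K d' l' .z) nZz :=
  hK.inU h nZz_ok (lo_le h (by decide)) (min_le_right _ _)

lemma in_n2 {l' : SK} (h : ROK 2 l' .a) (hl : l' ≠ .e) : InH (K.K 2 l' .a) n2 := by
  have h2 := h.zl
  refine hK.inU h n2_ok ?_ ?_
  · unfold crs
    cases l' <;> simp only [SK.u, lo2]
    · exact absurd rfl hl
    · omega
    · have := h2 rfl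
      omega
    · omega
  · unfold crs
    cases l' <;> simp only [SK.u, hi2]
    · exact absurd rfl hl
    · omega
    · have := h2 rfl
      omega
    · omega

lemma in_m5a {l : SK} (h : ROK 5 l .a) (hl : l ≠ .e) : InH (K.K 5 l .a) m5a := by
  refine hK.inU h m5a_ok ?_ ?_
  · unfold crs
    cases l <;> simp only [SK.u, lo5a]
    · exact absurd rfl hl
    all_goals omega
  · unfold crs
    cases l <;> simp only [SK.u, hi5a]
    · exact absurd rfl hl
    all_goals omega

lemma in_oN6a {d : ℕ} {l : SK} (h : ROK d l .a) (hd : 6 ≤ d) (hl : l ≠ .e) :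
    InH (K.K d l .a) oN6a := by
  refine hK.inU h oN6a_ok ?_ (min_le_right _ _)
  unfold crs
  cases l <;> simp only [SK.u, lo6a]
  · exact absurd rfl hl
  all_goals omega

lemma in_oN8 {d : ℕ} {l : SK} (h : ROK d l .a) (hd : 8 ≤ d) : InH (K.K d l .a) oN8 := by
  refine hK.inU h oN8_ok ?_ (min_le_right _ _)
  unfold crs lo8a
  omega

end

/-! ### next to a digit `3` or a ring -/

lemma RB3.of {S Q C : ℝ} {y z : ℂ} (h : Bd S Q C y z) (h1 : S ≤ 2445 / 10000)
    (h2 : Q ≤ 1200 / 10000) (h3 : Q + 22 / 10 * S ≤ 5900 / 10000) (h4 : C ≤ 4465 / 10000) :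
    RB3 y z :=
  ⟨h.s.trans h1, h.q.trans h2, by linarith only [h3, h, h.s, h.q], h.c.trans h4⟩

section
variable {K : KFam} (hK : KOK K) {d : ℕ} {l : SK} {d' : ℕ} {l' : SK} {w R k' : ℂ}
include hK

/-- four crossings, opposite signs -/
theorem b3_4a (t : TDt K .a 4 l d' l' w R k') (h3 : 3 ≤ d')
    (rg : Rg (yH .a R (Complex.cos w)) (zeta w)) : RB3 (yH .a R (Complex.cos w)) (zeta w) := by
  have hl := t.h.ok.left
  have hr := t.h.ok.right.symm
  by_cases he : d' = 3 ∧ l' = .e
  · obtain ⟨rfl, rfl⟩ := he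
    have hn := hK.inH hr k3ea_ok
    cases l
    · have h := bd_of hK t rfl rfl t3_4ex (hK.inH hl k4ea_ok) hn OL.e OR.e rg (by norm_num)
        (by norm_num)
      norm_num at h
      exact RB3.of h (by norm_num) (by norm_num) (by norm_num) (by norm_num)
    · have h := bd_of hK t rfl rfl t3_4ax (hK.inH hl k4aa_ok) hn OL.a OR.e rg (by norm_num)
        (by norm_num)
      norm_num at h
      exact RB3.of h (by norm_num) (by norm_num) (by norm_num) (by norm_num)
    · have h := bd_of hK t rfl rfl t3_4zx (hK.inH hl k4az_ok) hn OL.z OR.e rg (by norm_num)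
        (by norm_num)
      norm_num at h
      exact RB3.of h (by norm_num) (by norm_num) (by norm_num) (by norm_num)
    · have h := bd_of hK t rfl rfl t3_4sx (hK.inH hl k5as_ok) hn (OL.s (by norm_num)) OR.e rg
        (by norm_num) (by norm_num)
      norm_num at h
      exact RB3.of h (by norm_num) (by norm_num) (by norm_num) (by norm_num)
  · have hn := in_n3Z hK hr (by
      rcases h3.eq_or_lt with h5 | h5
      · left
        exact ⟨h5.symm, fun h6 => he ⟨h5.symm, h6⟩⟩
      · right
        exact h5)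
    cases l
    · have h := bd_of hK t rfl rfl t3_4e (hK.inH hl k4ea_ok) hn OL.e OR.nil rg (by norm_num)
        (by norm_num)
      norm_num at h
      exact RB3.of h (by norm_num) (by norm_num) (by norm_num) (by norm_num)
    · have h := bd_of hK t rfl rfl t3_4a (hK.inH hl k4aa_ok) hn OL.a OR.nil rg (by norm_num)
        (by norm_num)
      norm_num at h
      exact RB3.of h (by norm_num) (by norm_num) (by norm_num) (by norm_num)
    · have h := bd_of hK t rfl rfl t3_4z (hK.inH hl k4az_ok) hn OL.z OR.nil rg (by norm_num)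
        (by norm_num)
      norm_num at h
      exact RB3.of h (by norm_num) (by norm_num) (by norm_num) (by norm_num)
    · have h := bd_of hK t rfl rfl t3_4s (hK.inH hl k5as_ok) hn (OL.s (by norm_num)) OR.nil rg
        (by norm_num) (by norm_num)
      norm_num at h
      exact RB3.of h (by norm_num) (by norm_num) (by norm_num) (by norm_num)

/-- four crossings, equal signs -/
theorem b3_4z (t : TDt K .z 4 l d' l' w R k')
    (rg : Rg (yH .z R (Complex.cos w)) (zeta w)) : RB3 (yH .z R (Complex.cos w)) (zeta w) := by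
  have hl := t.h.ok.left
  have hr := t.h.ok.right.symm
  have hn := in_nZz hK hr
  cases l
  · have h := bd_of hK t rfl rfl tz_4e (hK.inH hl k4ez_ok) hn OL.e OR.nil rg (by norm_num)
      (by norm_num)
    norm_num at h
    exact RB3.of h (by norm_num) (by norm_num) (by norm_num) (by norm_num)
  · have h := bd_of hK t rfl rfl tz_4a (hK.inH hl k4az_ok) hn OL.a OR.nil rg (by norm_num)
      (by norm_num)
    norm_num at h
    exact RB3.of h (by norm_num) (by norm_num) (by norm_num) (by norm_num)
  · have h := bd_of hK t rfl rfl tz_4z (hK.inH hl k4zz_ok) hn OL.z OR.nil rg (by norm_num)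
      (by norm_num)
    norm_num at h
    exact RB3.of h (by norm_num) (by norm_num) (by norm_num) (by norm_num)
  · have h := bd_of hK t rfl rfl tz_4s (hK.inH hl k5zs_ok) hn (OL.s (by norm_num)) OR.nil rg
      (by norm_num) (by norm_num)
    norm_num at h
    exact RB3.of h (by norm_num) (by norm_num) (by norm_num) (by norm_num)

/-- five crossings, opposite signs -/
theorem b3_5a (t : TDt K .a 5 l d' l' w R k') (h3 : 3 ≤ d') (hz : ZB 5 l (zeta w))
    (hy : YB .a d' l' (yH .a R (Complex.cos w))) : RB3 (yH .a R (Complex.cos w)) (zeta w) := by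
  have hl := t.h.ok.left
  have hr := t.h.ok.right.symm
  have hY : 171 / 1000 ≤ (yH .a R (Complex.cos w)).re ∧ (yH .a R (Complex.cos w)).re ≤ 252 / 1000 ∧
      -(58 / 1000) ≤ (yH .a R (Complex.cos w)).im ∧
      (d' = 3 → (yH .a R (Complex.cos w)).re ≤ 234 / 1000) := by
    rcases h3.eq_or_lt with h5 | h5
    · subst h5
      have := yb3 hy
      exact ⟨by linarith only [this], by linarith only [this], by linarith only [this], fun _ => by linarith only [this]⟩
    · have := ybR h5 hy
      exact ⟨by linarith only [this], by linarith only [this], by linarith only [this], fun h => by omega⟩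
  obtain ⟨y0, y1, y2, y3⟩ := hY
  by_cases hle : l = .e
  · subst hle
    obtain ⟨a1, a2, a3, a4⟩ := zb5e hz
    have rg : Rg (yH .a R (Complex.cos w)) (zeta w) :=
      ⟨by linarith only [y0], by linarith only [y1], by linarith only [a2], by linarith only [a1]⟩
    refine ⟨by linarith only [a1], by linarith only [y2, a4], by linarith only [y2, a1, a4], ?_⟩
    by_cases h5 : d' = 3
    · have := y3 h5
      linarith only [a1, this]
    · have h := c_of hK t rfl rfl t3_5e (hK.inH hl k5ea_ok) (in_n3Z hK hr (by omega)) OL.nil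
        OR.nil rg (by norm_num)
      norm_num at h
      linarith only [h]
  · obtain ⟨a1, a2, a3, a4⟩ := zb5 (hz.i hle)
    have ho := in_m5a hK hl hle
    have key : (zeta w).im - (yH .a R (Complex.cos w)).im ≤ 1200 / 10000 := by
      by_cases he : d' = 3 ∧ l' = .e
      · obtain ⟨rfl, rfl⟩ := he
        have h := q_of hK t rfl rfl t3_5x ho (hK.inH hr k3ea_ok) OL.nil OR.nil
        norm_num at h
        linarith only [h]
      · have h := q_of hK t rfl rfl t3_5 ho (in_n3Z hK hr (by
          rcases h3.eq_or_lt with h5 | h5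
          · left
            exact ⟨h5.symm, fun h6 => he ⟨h5.symm, h6⟩⟩
          · right
            exact h5)) OL.nil OR.nil
        norm_num at h
        linarith only [h]
    exact ⟨by linarith only [a1], key, by linarith only [y2, a1, a4], by linarith only [y1, a1]⟩

/-- five crossings, equal signs -/
theorem b3_5z (t : TDt K .z 5 l d' l' w R k') (hz : ZB 5 l (zeta w))
    (hy : YB .z d' l' (yH .z R (Complex.cos w))) : RB3 (yH .z R (Complex.cos w)) (zeta w) := by
  have hl := t.h.ok.left
  have hr := t.h.ok.right.symm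
  obtain ⟨y0, y1, y2, y3⟩ := ybZ (hr.zr rfl) hy
  by_cases hle : l = .e
  · subst hle
    obtain ⟨a1, a2, a3, a4⟩ := zb5e hz
    have rg : Rg (yH .z R (Complex.cos w)) (zeta w) :=
      ⟨by linarith only [y0], by linarith only [y1], by linarith only [a2], by linarith only [a1]⟩
    have h := c_of hK t rfl rfl tz_5e (hK.inH hl k5ez_ok) (in_nZz hK hr) OL.nil OR.nil rg
      (by norm_num)
    norm_num at h
    exact ⟨by linarith only [a1], by linarith only [y2, a4], by linarith only [y2, a1, a4], by linarith only [h]⟩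
  · obtain ⟨a1, a2, a3, a4⟩ := zb5 (hz.i hle)
    exact ⟨by linarith only [a1], by linarith only [y2, a4], by linarith only [y2, a1, a4], by linarith only [y1, a1]⟩

end

/-- at least six crossings -/
lemma b3_6 {d : ℕ} (h6 : 6 ≤ d) {l : SK} {y z : ℂ} (hz : ZB d l z) (y1 : y.re ≤ 252 / 1000)
    (y2 : -(58 / 1000) ≤ y.im) : RB3 y z := by
  by_cases hle : l = .e
  · subst hle
    obtain ⟨a1, a2, a3, a4⟩ := zb6e h6 hz
    exact ⟨by linarith only [a1], by linarith only [y2, a4], by linarith only [y2, a1, a4], by linarith only [y1, a1]⟩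
  · obtain ⟨a1, a2, a3, a4⟩ := zb6 h6 (hz.i hle)
    exact ⟨by linarith only [a1], by linarith only [y2, a4], by linarith only [y2, a1, a4], by linarith only [y1, a1]⟩

/-- **Next to a digit `3` or a ring.** -/
theorem b3 {K : KFam} (hK : KOK K) {x : SK} {d : ℕ} {l : SK} {d' : ℕ} {l' : SK} {w R k' : ℂ}
    (t : TDt K x d l d' l' w R k') (h4 : 4 ≤ d) (hx : x = .a ∨ x = .z) (h3 : 3 ≤ d')
    (hz : ZB d l (zeta w)) (hy : YB x d' l' (yH x R (Complex.cos w))) :
    RB3 (yH x R (Complex.cos w)) (zeta w) := by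
  have z0 := zb_rg h4 hz
  rcases hx with rfl | rfl
  · have hY : 171 / 1000 ≤ (yH .a R (Complex.cos w)).re ∧
        (yH .a R (Complex.cos w)).re ≤ 252 / 1000 ∧
        -(58 / 1000) ≤ (yH .a R (Complex.cos w)).im := by
      rcases h3.eq_or_lt with h5 | h5
      · subst h5
        have := yb3 hy
        exact ⟨by linarith only [this], by linarith only [this], by linarith only [this]⟩
      · have := ybR h5 hy
        exact ⟨by linarith only [this], by linarith only [this], by linarith only [this]⟩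
    obtain ⟨y0, y1, y2⟩ := hY
    rcases Nat.lt_or_ge d 6 with h6 | h6
    · have : d = 4 ∨ d = 5 := by omega
      rcases this with rfl | rfl
      · exact b3_4a hK t h3 ⟨by linarith only [y0], by linarith only [y1], z0.1, z0.2⟩
      · exact b3_5a hK t h3 hz hy
    · exact b3_6 h6 hz y1 y2
  · obtain ⟨y0, y1, y2, y3⟩ := ybZ (t.h.ok.right.zl rfl) hy
    rcases Nat.lt_or_ge d 6 with h6 | h6
    · have : d = 4 ∨ d = 5 := by omega
      rcases this with rfl | rfl
      · exact b3_4z hK t ⟨by linarith only [y0], by linarith only [y1], z0.1, z0.2⟩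
      · exact b3_5z hK t hz hy
    · exact b3_6 h6 hz y1 (by linarith only [y2])

end

end Pool.Agent.Work.MP_b30479_gtS.G2.CN.TD

end

section

/-!
# A digit `2` between a ring and an absorbed digit `1` with a ring behind it
-/

set_option deprecated.oldSectionVars true

namespace Pool.Agent.Work.MP_b30479_gtS.G2.CN.TD

open Complex SR

/-- conditions -/
def P4s : List QC :=
  [⟨0, 1000000, 0, 0⟩, ⟨259336, -685248, 0, 0⟩, ⟨0, 0, 1000000, -1000000⟩,
  ⟨0, 0, -1000000, 375309⟩, ⟨-669000, -743000, 0, -679915⟩, ⟨469000, 883000, 0, 365674⟩,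
  ⟨-423000, -906000, -1001895, 0⟩, ⟨-469000, -883000, 0, -561063⟩, ⟨-731000, -682000, 0, -731000⟩,
  ⟨-643000, -766000, 0, -661451⟩]

/-- rings with a split hinge -/
def lo4s (l : SK) : ℕ := match l with | .e => 5 | .a => 5 | .z => 5 | .s => 6

theorem P4s_ok : chkU P4s .s lo4s (fun _ => 8) = true := by decide +kernel

theorem w_Z : trowOk .a [] k3as (tA 3 P4s)
    n3Z [] [.hi 600 470491]
    [] []
    1048617
    0x71000378c202c000e8300000000000001c409100021040055040080159e285c8204081120344491230310244000841001541002005678a17208162c40811203444900378c00d31a8f250000000000024200308c00c61a8f090848c0a0a4c01c007001281872a8047918030830d6f008f0030830d52008f0e2020960401281a3c5c900378c201c800e96000000001c0054184031001d0f611800c20d07b7003a1dda3001bc1a0f40007401c0ee5180080390776803a1bf0300100720e6400743d70600378e41ed600e88000000000022604873e8c0040068f090458018461006e007492c14080100080300c401a800e8020840e711800800d876c003a0184103b7c600308361df800e8f0000003801e0103d38600378361ec200e80388c034c2077b0c006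f06c3d1c01d00f5081e963001501b0f560075180201b565c1c8f00379b64db188f13485c98d0000000000000000000000000000000000000000000000802403002076f0c678484004a081cc0310736803aca80300150da3c1c8c655d48880379b6c9f800e860000000000000000003940cb2710c004036d932801d5742221c866401bcdb3c30118004a221ba2051e221cfc300184223c281914258034c20037830ef618cf0e101498c0a01e01001bc187a70c678480618c0061028034001d1e302a12e1d943001542002a0367848444403fc8080308f0d7d18cf170a6058400710204600e1d00000e073d8c00541c839d401d565d1c00a86d1e0edb1800de390777803aabaa380184da3c00c26d53e4723c3cb912e00a83886af003a0c580200e0dd01a8f0e0000000000031600a8383b68623c1df6300184723c00de383b60623c18a87720c00611c8f0d00c61c00a8451e0600c24c37f8623c2037b46806a8e006f26cf0e000000004500308c00651a8f0800db1a0080011e64029e340184623c029e340184623c186ad0a28192328001c00703bdc600378e41dbe00e802c8c200a800e9500000000000000360c200c200e87388c00401c839a001d0c1cf6300100720ec4007401c006b184018401d0ee91800c239077c003a183b44600308e41dbc00e890018a2e1e92300128723c240184710ddb0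07412620642985c04607a30c00611c8f085c04600308e0dca1a8351401d021d88340184723c09607700c006f1c8f1a000000612619fe340310733c119890ab408a5644c91341cf8000100123c3d1803800c2348037803a00e062c0d007508008039872a803a00e2b7e100061368f16002af7900054368f3b2c40480379621a9600e82221037886867d8100612cc31e401d042c0184dab638e4c6c800ea42aace2380128da3c2c0100700a810478213055da1c00806d1e006136c1f6315730733c00806d55c8723c00de6d8d6c623cecb91324d57fc700309b479556c700201b479215200c050c2002a0e0efa18cf10000000000000400378e0152208f012200803835346a3c0850025040f47028f160f5c1a0080391e0200e0038c9b0300100da64d500758bf0600251b4c59200e8f00000000000000000000000000002a1b60fc189857001d1c0c0184daa740e478100320c200c200e802a1956d118959fc01d761dca659528600379b6c9ec00e890000000184f31a58c4780100f31be8c54f31cd8dc401d34c9d0303bbcc80201b55c81d0f0b06440100ca3618e54f518cf170ac9ec303bccc80201b55dd1d0f0b000000000000000000000908443d24600200e478487f3990040368f07f7190061368f1964f8181d806401bcdb3c280128daa708e0d7d32cf003099476f1c8f0c0003000946c3900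cb22b0c678483004032adb4312b64803aacfe443d28c80201b6780184caaf68c478cb954eb180080651b90733c340184ca3b48e555818cf0c00000000060180388c0061028f080a44c002a1121c9200e802d0c200a800e80379956e91895b4401d006f32adb2312b61803a008065577c623a78e6aba800e8c0000000000000000000000000de655968623e30e6aca000e9304ac8a300100ca36e8e678580379955c4188f180800c2655b786256c900748ab340c0040328f0b00000504004a32adcc312b68003a00de65574c623c00a8655748623c6557086002a194788053011609221e94300100723c2060038d00184ca479144aec000e9400000000002479940054328f23f30e0054328f0d1291a0500100ca3c111f20700201947849168112190a0020194791dfca0020194791d0c700201954cc18cf0e00000000289246b140061328f0230300184806b8814188400e8100700184ca3fe0e4ade400e8030995641188ef039ab20803a00c26557fc623ba0e6abe000e8c00000000000000000182921d0a00379947d31ccf03476b28aaf8300184cb3c611b98700201955e418cf0947f4280080651d7c733c080184faaf78e4c9a600e8b0000000000000000000000000000000000000000000000000000000000000000000000000000000000000000000000000000000c2655920623ba0e6abfc0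0e810000000000000000000281cacd83001bcca3a70e67860a55c11c00807d1e06008065538c623370e678c2af38c0040328dca399e1245216ca00379947d01ccf0d0000000000540f1803e2500558100200e678080251948772895b6001d72e4680379947511c8f04168ba8200100caa6a0c46e41d0f0847581c0080651e0284b13005e410037884787982200a8383b1c623c8f8c380150ca3c8e9e380100caab88c6791d287002a1954e818cf192400803839900a3c0557f86003099476c1ccf0d00000000787a5810ed61800de399e1000c23801e4523c04c87378c00401c8f09140c600308a01532083d1001d600282400184123c3c03e8800200a41a9a00e900000a2805ccb00650a004a20c37cc01d0403f8500100523c200100b05f40d4179200e835c241a12c887911802ce100184707b68c6780520200308e0f5d18cf1300000000000000000000d5c100150207e68d0fcf181ed0061e121dc03401849807a8e6780ac0f44021dfe300184733c143bc86002a0e478600250e0ddf188f0d00000000011100721800de351e102807886900540074417c680308e47801bcb07360d47801bc700e196478580ae02006f1c1fde359e08403b54680200247820f03b94680201200f41ccf0037930e6e1a018a399e12b418a260c987bc810040088f17443d098443cc0c0684b11181401006101d200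743b1c600200341fb600e9b00000000000007e20c004a068f0733010040061dc0319e0e660200800c3b80633c1ccc040100187700c678681301daa303b380802003678500368c0040028f0a008050ec71800800d1e121001281872a8047918030830d6f008f0030830d52008f0e2020960401281a3c5c03d4680690c006f02cf0924b1607b58c0040248f130000017c680200c4783003092006e0419b8319e221590908b03b2860030840e691acf00a0040ed11800de499e00da261f88040150133c4828030930f63028f0f0000048020130f53028f090a84c221e61600698d00711800a8059e0061241c80351e1e0192340184623c2c20a4258030c600378100e01acf08220c5212c6059c = true := by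
  decide +kernel

noncomputable section

set_option deprecated.oldSectionVars false
variable {K : KFam} {d : ℕ} {l x : SK} {dl : ℕ} {ll : SK} {dr : ℕ} {rr : SK} {w kl kr : ℂ}

/-- the ring on the left seen over the hinge on the right -/
lemma out_left (t : RDt K d l x dl ll dr rr w kl kr) :
    Out I (crs d l x) (RR w kr) (1 / Complex.cos w ^ 2) (1 / kr ^ 2) (some {kl}) := by
  have hT := tan_sq (ne_of_re t.right.kre)
  have hT0 : Complex.tan w ≠ 0 := by
    intro h
    have := t.tan_re
    rw [h] at this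
    exact lt_irrefl _ this
  have hkl0 : kl ≠ 0 := ne_of_re t.left.kre'
  refine ⟨kl, rfl, ?_⟩
  have h3 := DB_sq (q := 1 / Complex.cos w ^ 2) (q' := 1 / kr ^ 2) (q'' := 1 / kl ^ 2)
    Complex.I_mul_I hT0 (by rw [← hT]; ring) (by rw [t.right.hinge]) (by rw [t.left.hinge])
    t.re.symm
  field_simp at h3 ⊢
  linear_combination -h3

/-- a digit `2` between a ring and an absorbed digit `1` with a ring behind it -/
theorem two_z (hK : KOK K) (t : RDt K 2 .s .a dl ll dr rr w kl kr) (hl : 4 ≤ dl) (hr : 4 ≤ dr) :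
    (yH .a (RR w kr) (Complex.cos w)).im ≤ 60 / 1000 := by
  have T : TDt K .a 2 .s dr rr w (RR w kr) kr :=
    ⟨t.right, t.w0, t.w1, fun h => absurd h (by decide)⟩
  have hP : InH {kl} P4s := by
    intro k hk
    rw [Set.mem_singleton_iff] at hk
    subst hk
    have h1 := t.left.ok.right.symm
    have h2 : k ∈ K.K dl ll .s := by
      have h3 := t.left.mem'
      rw [K.symm] at h3
      have e : frS SK.s.sgn (K.K dl ll .s) = K.K dl ll .s := frS_one _
      rwa [e] at h3
    refine hK.inU h1 P4s_ok ?_ (min_le_right _ _) _ h2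
    unfold crs
    cases ll
    · show 5 ≤ _
      simp only [SK.u]
      omega
    · show 5 ≤ _
      simp only [SK.u]
      omega
    · show 5 ≤ _
      simp only [SK.u]
      omega
    · show 6 ≤ _
      simp only [SK.u]
      omega
  obtain ⟨ry, -, -⟩ := trow hK T w_Z (fun g hg => absurd hg (List.not_mem_nil))
    (hK.inH T.h.ok.left k3as_ok _ T.h.mem) (in_n3Z hK T.h.ok.right.symm (Or.inr hr))
    (fun {q q'} hT hq e1 e2 => tA_all hT hq hP (by
      rw [e1, e2]
      exact out_left t))
    (fun _ _ _ => AllOk.nil)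
  have g : _ ≤ ((600 : ℤ) : ℝ) / 10000 := ry _ List.mem_cons_self
  norm_num at g
  linarith

end

end Pool.Agent.Work.MP_b30479_gtS.G2.CN.TD

end
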