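import Pool.Agent.Work.MP_b30479_gt.TBS.G2.SWordK
import Pool.Agent.Work.MP_b30479_gt.TBS.G2.SWordL
import Pool.Agent.Work.MP_b30479_gt.TBS.G2.CN.M4B
import Pool.Agent.Work.MP_b30479_gt.TBS.G2.CN.HUn
import Pool.Agent.Work.MP_b30479_gt.TBS.G2.CN.TGoal
import Pool.Agent.Work.MP_b30479_gt.TBS.G2.CN.TUse

section

/-!
# Inner variables of regions with three crossings: the result
-/

namespace Pool.Agent.Work.MP_b30479_gtS.G2.CN.M3

open Complex SR

/-! ### the classes of the sides -/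

section
variable {K : KFam} {x o : SK} {d : ℕ} {l : SK} {R k k' : ℂ}

lemma kinds (h : HDt K x 3 o d l R k k') : x = .a ∨ x = .s := by
  cases x
  · exact absurd rfl h.ok.ne
  · exact Or.inl rfl
  · exact absurd (h.ok.left.zr rfl) (by norm_num)
  · exact Or.inr rfl

lemma fits (h : HDt K x 3 o d l R k k') : ∃ c : C5, C5.Fits x d l c := by
  rcases kinds h with rfl | rfl
  · have h1 := h.ok.right.pos
    rcases Nat.lt_or_ge d 4 with h4 | h4
    · have h5 : d = 1 ∨ d = 2 ∨ d = 3 := by omega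
      rcases h5 with rfl | rfl | rfl
      · exact ⟨.u, rfl, rfl⟩
      · by_cases hl : l = .e
        · exact ⟨.e, rfl, rfl, hl⟩
        · exact ⟨.o, rfl, Or.inl ⟨rfl, hl⟩⟩
      · exact ⟨.o, rfl, Or.inr rfl⟩
    · exact ⟨.r, rfl, h4⟩
  · exact ⟨.s, rfl⟩

/-- the conditions for the value of the neighbour -/
noncomputable def nb : C5 → List QC
  | .u => mirH hU
  | .s => hS
  | .o => mirH hO
  | .e => mirH hE
  | .r => mirH hR

lemma nb_sat (hK : KOK K) (h : HDt K x 3 o d l R k k') {c : C5} (hc : c.Fits x d l) :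
    Sat (nb c) (k' ^ 2) := by
  have hR : ROK d l x := h.ok.right.symm
  have hm := h.mem'
  rw [K.symm] at hm
  have hp := hR.pos
  have h1 := hR.one
  have hz := hR.zl
  cases c
  · obtain ⟨rfl, rfl⟩ := hc
    have hl : l = .s := (h1 rfl).1.resolve_right (by decide)
    subst hl
    exact (hK.inH hR hU_ok).mir k' hm
  · have hc' : x = .s := hc
    subst hc'
    have h2 := (h.ok.one rfl).resolve_left (by norm_num)
    refine (hK.inU hR hS_ok ?_ ?_).fr k' hm
    · unfold crs
      cases l <;> simp_all [sS, SK.u] <;> omega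
    · unfold crs
      cases l <;> simp_all [tS, SK.u] <;> omega
  · obtain ⟨rfl, hc⟩ := hc
    refine (hK.inU hR hO_ok ?_ ?_).mir k' hm
    · unfold crs
      rcases hc with ⟨rfl, hc⟩ | rfl <;> cases l <;> simp_all [sS, SK.u]
    · unfold crs
      rcases hc with ⟨rfl, hc⟩ | rfl <;> cases l <;> simp_all [tS, SK.u]
  · obtain ⟨rfl, rfl, rfl⟩ := hc
    exact (hK.inH hR hE_ok).mir k' hm
  · obtain ⟨rfl, hc⟩ := hc
    refine (hK.inU hR hR_ok ?_ (min_le_right _ _)).mir k' hm
    unfold crs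
    cases l <;> simp_all [sR, SK.u]

end

/-- the boxes of the hinges -/
structure Bxs (K : KFam) : Prop where
  un : ∀ {x d l d' l' R k k'}, x ≠ .s → HDt K x d l d' l' R k k' →
    (hbox (cK d l) (cK d' l') (decide (x = .z))).In (acot2 R)
  sp : ∀ {d l d' l' R k k'}, HDt K .s d l d' l' R k k' →
    (hbox (cK d l) .one false).In (acot2 (Sp R k)) ∧ (acot2 (Sp R k)).re < 1 / 2

lemma in_mono {B B' : Box} {y : ℂ} (h : B.In y) (h0 : B'.x0 ≤ B.x0) (h1 : B.x1 ≤ B'.x1)
    (h2 : B'.t0 ≤ B.t0) (h3 : B.t1 ≤ B'.t1) : B'.In y :=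
  ⟨h0.trans h.1, h.2.1.trans h1, h2.trans h.2.2.1, h.2.2.2.trans h3⟩

section
variable {K : KFam} {x o : SK} {d : ℕ} {l : SK} {R k k' : ℂ}

/-- the class of the neighbour -/
def Cf (A : Cl) : C5 → Prop
  | .u => A = .one
  | .s => A = .one
  | .o => A = .two ∨ A = .three ∨ A = .threeE
  | .e => A = .twoE
  | .r => A = .ring

lemma nC_fits {c : C5} (hc : c.Fits x d l) : Cf (nC x d l) c := by
  cases c
  · obtain ⟨rfl, rfl⟩ := hc
    rfl
  · have hc' : x = .s := hc
    subst hc'
    rfl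
  · obtain ⟨rfl, hc⟩ := hc
    rcases hc with ⟨rfl, hc⟩ | rfl
    · left
      unfold nC cK
      rw [if_neg (by decide), if_neg (by norm_num), if_pos rfl, if_neg hc]
    · right
      by_cases hl : l = .e
      · right
        unfold nC cK
        rw [if_neg (by decide), if_neg (by norm_num), if_neg (by norm_num), if_pos rfl, if_pos hl]
      · left
        unfold nC cK
        rw [if_neg (by decide), if_neg (by norm_num), if_neg (by norm_num), if_pos rfl, if_neg hl]
  · obtain ⟨rfl, rfl, rfl⟩ := hc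
    rfl
  · obtain ⟨rfl, hc⟩ := hc
    show nC .a d l = .ring
    unfold nC cK
    rw [if_neg (by decide), if_neg (by omega), if_neg (by omega), if_neg (by omega)]

lemma cK_three (ho : o ≠ .e) : cK 3 o = .three := by
  unfold cK
  rw [if_neg (by norm_num), if_neg (by norm_num), if_pos rfl, if_neg ho]

lemma box_fits (B : Bxs K) (h : HDt K x 3 o d l R k k') (ho : o ≠ .e) {c : C5}
    (hc : c.Fits x d l) : c.box.box.In (yH x R k) ∧ (yH x R k).re < 1 / 2 ∧
      (yH x R k).im ≤ 57 / 1000 := by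
  have h3 := cK_three ho
  have hn := nC_fits hc
  have key : ∃ A, Cf A c ∧ (hbox .three A false).In (yH x R k) := by
    rcases kinds h with rfl | rfl
    · have h1 := B.un (by decide) h
      rw [h3] at h1
      refine ⟨_, hn, ?_⟩
      unfold yH
      rw [Hq_of_ne (by decide)]
      exact h1
    · have h1 := (B.sp h).1
      rw [h3] at h1
      refine ⟨_, hn, ?_⟩
      unfold yH
      rw [Hq_s]
      exact h1
  obtain ⟨A, hA, h1⟩ := key
  refine ⟨?_, ?_, ?_⟩
  · cases c
    · have hA' : A = .one := hA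
      subst hA'
      refine in_mono h1 ?_ ?_ ?_ ?_ <;> norm_num [hbox, C5.box, IB.box, bOne]
    · have hA' : A = .one := hA
      subst hA'
      refine in_mono h1 ?_ ?_ ?_ ?_ <;> norm_num [hbox, C5.box, IB.box, bOne]
    · rcases hA with rfl | rfl | rfl
      · refine in_mono h1 ?_ ?_ ?_ ?_ <;> norm_num [hbox, C5.box, IB.box, bOth]
      · refine in_mono h1 ?_ ?_ ?_ ?_ <;> norm_num [hbox, C5.box, IB.box, bOth]
      · refine in_mono h1 ?_ ?_ ?_ ?_ <;> norm_num [hbox, C5.box, IB.box, bOth]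
    · have hA' : A = .twoE := hA
      subst hA'
      refine in_mono h1 ?_ ?_ ?_ ?_ <;> norm_num [hbox, C5.box, IB.box, bTwoE]
    · have hA' : A = .ring := hA
      subst hA'
      refine in_mono h1 ?_ ?_ ?_ ?_ <;> norm_num [hbox, C5.box, IB.box, bRing]
  · have h2 := h1.2.1
    cases A <;> norm_num [hbox] at h2 <;> linarith only [h2]
  · have h2 := h1.2.2.2
    cases A <;> norm_num [hbox] at h2 <;> linarith only [h2]

end

/-! ### the root cell -/

lemma le_of_sat {H : List QC} {z : ℂ} {c : ℤ} (hm : (⟨0, 0, 1000000, -c⟩ : QC) ∈ H)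
    (hc : c ≤ 1000000) (h : Sat H z) : ‖z‖ ≤ 1 := by
  have h1 := h _ hm
  unfold QC.Sat at h1
  push_cast at h1
  have h2 : (c : ℝ) ≤ 1000000 := by exact_mod_cast hc
  have h3 := norm_nonneg z
  by_contra hc
  push Not at hc
  nlinarith only [h1, h2, hc, h3]

lemma ow_le (c c' : C5) {z : ℂ} (h : Sat (C5.ow c c') z) : ‖z‖ ≤ 1 := by
  have a3 : Sat h3 z → ‖z‖ ≤ 1 := fun h => le_of_sat (c := 648066) (by simp [h3]) (by norm_num) h
  have a4 : Sat h4 z → ‖z‖ ≤ 1 := fun h => le_of_sat (c := 571937) (by simp [h4]) (by norm_num) h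
  have a5 : Sat h5 z → ‖z‖ ≤ 1 := fun h => le_of_sat (c := 573360) (by simp [h5]) (by norm_num) h
  cases c <;> cases c' <;> first | exact a3 h | exact a4 h | exact a5 h

lemma root_mem3 {y κ : ℂ} (hy : ‖y‖ ≤ 8) (hκ : ‖κ‖ ≤ 1) : root3.Mem y κ := by
  have a1 := abs_le.1 ((Complex.abs_re_le_norm y).trans hy)
  have a2 := abs_le.1 ((Complex.abs_im_le_norm y).trans hy)
  have a3 := abs_le.1 ((Complex.abs_re_le_norm κ).trans hκ)
  have a4 := abs_le.1 ((Complex.abs_im_le_norm κ).trans hκ)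
  have hD : D = 16384 := rfl
  refine ⟨inI_of a1.1 a1.2 ?_ ?_, inI_of a2.1 a2.2 ?_ ?_, inI_of a3.1 a3.2 ?_ ?_,
    inI_of a4.1 a4.2 ?_ ?_⟩ <;> rw [hD] <;> norm_num [root3]

lemma norm_exps (y : ℂ) : ‖cexp (2 * Real.pi * I * y)‖ = Real.exp (-(2 * Real.pi * y.im)) := by
  rw [Complex.norm_exp]
  congr 1
  simp

lemma yv_le {U V M κ : ℂ} (h : Exps U V M κ) (hκ : ‖κ‖ ≤ 1) (hv : (acot2 V).im ≤ 57 / 1000) :
    ‖yv M‖ ≤ 8 := by
  have h1 : (1 : ℝ) / 2 ≤ ‖cexp (2 * Real.pi * I * acot2 V)‖ := by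
    rw [norm_exps]
    have h2 := Real.add_one_le_exp (-(2 * Real.pi * (acot2 V).im))
    have h3 := Real.pi_lt_d2
    have h4 := Real.pi_pos
    have h5 : Real.pi * (acot2 V).im ≤ 315 / 100 * (57 / 1000) := by
      rcases le_or_gt 0 (acot2 V).im with h | h
      · nlinarith only [h3, hv, h4]
      · nlinarith only [h3, hv, h4]
    linarith only [h2, h5]
  have e := h.ev
  set E := cexp (2 * Real.pi * I * acot2 V)
  have h0 : E ≠ 0 := by
    intro h0
    rw [h0, norm_zero] at h1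
    norm_num at h1
  have e2 : yv M = 2 - 4 * κ - E⁻¹ := by
    rw [inv_eq_of_mul_eq_one_right e]
    ring
  rw [e2]
  have h6 : ‖E⁻¹‖ ≤ 2 := by
    rw [norm_inv]
    rw [inv_le_comm₀ (by linarith only [h1]) (by norm_num)]
    linarith only [h1]
  calc ‖2 - 4 * κ - E⁻¹‖ ≤ ‖(2 : ℂ) - 4 * κ‖ + ‖E⁻¹‖ := norm_sub_le _ _
    _ ≤ (‖(2 : ℂ)‖ + ‖4 * κ‖) + ‖E⁻¹‖ := by
      have := norm_sub_le (2 : ℂ) (4 * κ)
      linarith only [this]
    _ ≤ 8 := by
      rw [norm_mul]
      have : ‖(2 : ℂ)‖ = 2 := by norm_num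
      have : ‖(4 : ℂ)‖ = 4 := by norm_num
      nlinarith

/-! ### the result -/

section
variable {K : KFam} {l r : SK} {dl : ℕ} {ll : SK} {dr : ℕ} {rr : SK} {w kl kr : ℂ}

lemma own_sat (hK : KOK K) (h : RDt K 3 l r dl ll dr rr w kl kr) {c c' : C5} (hc : c.Fits l dl ll)
    (hc' : c'.Fits r dr rr) : Sat (C5.ow c c') (Complex.cos w ^ 2) := by
  have hm := h.right.mem
  have hR := h.right.ok.left
  have t3 : l = .a → r = .a → Sat h3 (Complex.cos w ^ 2) := by
    rintro rfl rfl
    exact hK.inH hR h3_ok _ hm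
  have t4 : l = .a → r = .s → Sat h4 (Complex.cos w ^ 2) := by
    rintro rfl rfl
    exact hK.inH hR h4_ok _ hm
  have t4' : l = .s → r = .a → Sat h4 (Complex.cos w ^ 2) := by
    rintro rfl rfl
    exact hK.inH hR h4_ok _ hm
  have t5 : l = .s → r = .s → Sat h5 (Complex.cos w ^ 2) := by
    rintro rfl rfl
    exact hK.inH hR h5_ok _ hm
  have k1 : c ≠ .s → l = .a := by
    intro h0
    cases c
    · exact hc.1
    · exact absurd rfl h0
    · exact hc.1
    · exact hc.1
    · exact hc.1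
  have k2 : c' ≠ .s → r = .a := by
    intro h0
    cases c'
    · exact hc'.1
    · exact absurd rfl h0
    · exact hc'.1
    · exact hc'.1
    · exact hc'.1
  have s1 : c = .s → l = .s := by
    rintro rfl
    exact hc
  have s2 : c' = .s → r = .s := by
    rintro rfl
    exact hc'
  by_cases e1 : c = .s <;> by_cases e2 : c' = .s
  · subst e1; subst e2
    exact t5 (s1 rfl) (s2 rfl)
  · subst e1
    have := t4' (s1 rfl) (k2 e2)
    cases c' <;> first | exact absurd rfl e2 | exact this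
  · subst e2
    have := t4 (k1 e1) (s2 rfl)
    cases c <;> first | exact absurd rfl e1 | exact this
  · have := t3 (k1 e1) (k2 e2)
    cases c <;> cases c' <;> first | exact absurd rfl e1 | exact absurd rfl e2 | exact this

lemma ne_re {k : ℂ} (h : 0 < k.re) : k ≠ 0 := by
  rintro rfl
  simp at h

/-- the group of the left neighbour -/
lemma gL_ok (hK : KOK K) (h : RDt K 3 l r dl ll dr rr w kl kr)
    (T : Tri (Hq l (RR w kl) (Complex.cos w)) (Hq r (RR w kr) (Complex.cos w))
      (Sp (Hq l (RR w kl) (Complex.cos w)) (Complex.cos w)) (1 / Complex.cos w ^ 2)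
      (Complex.cos w ^ 2)) {c : C5} (hc : c.Fits l dl ll) :
    c.gL.Ok (yv (Sp (Hq l (RR w kl) (Complex.cos w)) (Complex.cos w))) (Complex.cos w ^ 2) := by
  have hs := nb_sat hK h.left hc
  have hk : 1 / kl ^ 2 * kl ^ 2 = 1 := one_div_mul_cancel (pow_ne_zero 2 (ne_re h.left.kre'))
  have ha : l = .a → (kl ^ 2) * (4 * (Complex.cos w ^ 2) *
      yv (Sp (Hq l (RR w kl) (Complex.cos w)) (Complex.cos w)) +
      (1 - yv (Sp (Hq l (RR w kl) (Complex.cos w)) (Complex.cos w))) ^ 2) =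
      -4 * ((Complex.cos w ^ 2) * yv (Sp (Hq l (RR w kl) (Complex.cos w)) (Complex.cos w))) ^ 2 := by
    intro hl
    refine T.left_a hk ?_
    rw [hl, Hq_of_ne (by decide)]
    exact h.left.hinge
  cases c
  · exact gLa_ok hs (ha hc.1)
  · have hc' : l = .s := hc
    refine gLs_ok hs (T.left_s hk h.left.hinge ?_)
    rw [hc', Hq_s]
    exact Sp_sub (add_I_ne h.left.Rre)
  · exact gLa_ok hs (ha hc.1)
  · exact gLa_ok hs (ha hc.1)
  · exact gLa_ok hs (ha hc.1)

/-- the group of the right neighbour -/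
lemma gR_ok (hK : KOK K) (h : RDt K 3 l r dl ll dr rr w kl kr)
    (T : Tri (Hq l (RR w kl) (Complex.cos w)) (Hq r (RR w kr) (Complex.cos w))
      (Sp (Hq l (RR w kl) (Complex.cos w)) (Complex.cos w)) (1 / Complex.cos w ^ 2)
      (Complex.cos w ^ 2)) {c : C5} (hc : c.Fits r dr rr) :
    c.gR.Ok (yv (Sp (Hq l (RR w kl) (Complex.cos w)) (Complex.cos w))) (Complex.cos w ^ 2) := by
  have hs := nb_sat hK h.right hc
  have hk : 1 / kr ^ 2 * kr ^ 2 = 1 := one_div_mul_cancel (pow_ne_zero 2 (ne_re h.right.kre'))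
  have ha : r = .a → (kr ^ 2) * (4 * (Complex.cos w ^ 2) *
      yv (Sp (Hq l (RR w kl) (Complex.cos w)) (Complex.cos w)) +
      (1 - yv (Sp (Hq l (RR w kl) (Complex.cos w)) (Complex.cos w))) ^ 2) =
      -((Complex.cos w ^ 2) * (1 - yv (Sp (Hq l (RR w kl) (Complex.cos w)) (Complex.cos w)) -
        4 * (Complex.cos w ^ 2)) ^ 2) := by
    intro hl
    refine T.right_a hk ?_
    rw [hl, Hq_of_ne (by decide)]
    exact h.right.hinge
  cases c
  · exact gRa_ok hs (ha hc.1)
  · have hc' : r = .s := hc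
    refine gRs_ok hs (T.right_s hk h.right.hinge ?_)
    rw [hc', Hq_s]
    exact Sp_sub (add_I_ne h.right.Rre)
  · exact gRa_ok hs (ha hc.1)
  · exact gRa_ok hs (ha hc.1)
  · exact gRa_ok hs (ha hc.1)

lemma gM_eq {H : List QC} {u w c : ℂ} (h : c * u = 1) :
    c * (gM H).M.val u w = (gM H).N.val u w := by
  change c * u = Ev.one.val u w
  rw [Ev.val_one]
  exact h

lemma gDf_eq {H : List QC} {u w c : ℂ} (h : c * (u * (1 - u)) = 1 - u + 4 * w * u) :
    c * (gDf H).M.val u w = (gDf H).N.val u w := by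
  change c * yy.val u w = yk.val u w
  rw [v_yy, v_yk]
  exact h

lemma gSm_eq {H : List QC} {u w c : ℂ} (h : c * (u * (2 - 4 * w - u)) = 1) :
    c * (gSm H).M.val u w = (gSm H).N.val u w := by
  change c * ym.val u w = Ev.one.val u w
  rw [v_ym, Ev.val_one]
  exact h

/-- **The inner variable of a region with three crossings.** -/
theorem mid_main (hK : KOK K) (B : Bxs K) (h : RDt K 3 l r dl ll dr rr w kl kr) :
    ∃ c c' : C5, c.Fits l dl ll ∧ c'.Fits r dr rr ∧
      (C5.mB c c').box.In (mH l (RR w kl) (Complex.cos w)) ∧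
      ((C5.dB c c').m0 : ℝ) / 10000 ≤ (mH l (RR w kl) (Complex.cos w)).im -
        (yH l (RR w kl) (Complex.cos w)).im ∧
      (mH l (RR w kl) (Complex.cos w)).im - (yH l (RR w kl) (Complex.cos w)).im ≤
        ((C5.dB c c').m1 : ℝ) / 10000 ∧
      (c' = .e → 1 / 2 < (mH l (RR w kl) (Complex.cos w)).re +
        (yH r (RR w kr) (Complex.cos w)).re) := by
  obtain ⟨c, hc⟩ := fits h.left
  obtain ⟨c', hc'⟩ := fits h.right
  have hle : l ≠ .e := h.left.ok.ne
  have hre : r ≠ .e := h.right.ok.ne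
  obtain ⟨bu, u2, -⟩ := box_fits B h.left hre hc
  obtain ⟨bv, v2, v3⟩ := box_fits B h.right hle hc'
  have T := tri_of h u2 v2
  have E := exps_of T u2 v2
  have hκ := ow_le c c' (own_sat hK h hc hc')
  have hm := root_mem3 (yv_le E hκ v3) hκ
  have hall : AllOk (yv (Sp (Hq l (RR w kl) (Complex.cos w)) (Complex.cos w)))
      (Complex.cos w ^ 2) [gO (C5.ow c c'), gU c.box.H, gW c'.box.H, c.gL, c'.gR] :=
    AllOk.cons (gO_ok (own_sat hK h hc hc')) (AllOk.cons (gU_ok E (IB.sat (C5.box_ok c) bu))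
      (AllOk.cons (gW_ok E (IB.sat (C5.box_ok c') bv)) (AllOk.cons (gL_ok hK h T hc)
        (AllOk.cons (gR_ok hK h T hc') AllOk.nil))))
  obtain ⟨n, code, hr⟩ := C5.tab c c'
  refine ⟨c, c', hc, hc', ?_, ?_⟩
  · obtain ⟨r1, r2⟩ := acot2_range (Sp (Hq l (RR w kl) (Complex.cos w)) (Complex.cos w))
    refine BB.spec (C5.mB_ok c c') r1 r2 ?_
    exact row_sound hr hm hall (g := gM (C5.mB c c').H) (List.mem_cons_self) (gM_eq E.em)
  · have ht : ∀ y : ℂ, cexp (2 * Real.pi * I * y) ≠ 0 := fun y => Complex.exp_ne_zero _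
    have d1 := row_sound hr hm hall (g := gDf (C5.dB c c').H)
      (c := cexp (2 * Real.pi * I * (mH l (RR w kl) (Complex.cos w) -
        yH l (RR w kl) (Complex.cos w))))
      (List.mem_cons_of_mem _ List.mem_cons_self) (gDf_eq (by
        rw [mul_sub, Complex.exp_sub]
        have e1 := E.em
        have e2 := E.eu
        unfold mH yH
        rw [div_mul_eq_mul_div, div_eq_iff (ht _)]
        linear_combination (1 - yv (Sp (Hq l (RR w kl) (Complex.cos w)) (Complex.cos w))) * e1 -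
          e2))
    have d2 := TB.spec (C5.dB_ok c c') (t := (mH l (RR w kl) (Complex.cos w)).im -
        (yH l (RR w kl) (Complex.cos w)).im) (by
          rw [exp_nsq, Complex.sub_im]) d1
    refine ⟨d2.1, d2.2, ?_⟩
    rintro rfl
    have d3 := row_sound hr hm hall (g := gSm hSm)
      (c := cexp (2 * Real.pi * I * (mH l (RR w kl) (Complex.cos w) +
        yH r (RR w kr) (Complex.cos w))))
      (List.mem_append_right _ List.mem_cons_self) (gSm_eq (by
        rw [mul_add, Complex.exp_add]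
        have e1 := E.em
        have e2 := E.ev
        unfold mH yH
        linear_combination (cexp (2 * Real.pi * I * acot2 (Hq r (RR w kr) (Complex.cos w))) *
          (2 - 4 * (Complex.cos w ^ 2) -
            yv (Sp (Hq l (RR w kl) (Complex.cos w)) (Complex.cos w)))) * e1 + e2))
      ⟨0, 1, 0, 0⟩ (List.mem_cons_self)
    obtain ⟨r1, r2⟩ := acot2_range (Sp (Hq l (RR w kl) (Complex.cos w)) (Complex.cos w))
    obtain ⟨r3, r4⟩ := acot2_range (Hq r (RR w kr) (Complex.cos w))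
    have d4 := not_sat_ang d3
    push_cast at d4
    rw [zero_mul, zero_add, one_mul, Complex.add_re] at d4
    by_contra hc
    push Not at hc
    have hpi := Real.pi_pos
    have := Real.sin_nonneg_of_nonneg_of_le_pi (x := 2 * Real.pi *
      ((mH l (RR w kl) (Complex.cos w)).re + (yH r (RR w kr) (Complex.cos w)).re))
      (mul_nonneg (by positivity) (add_nonneg r1 r3)) (by nlinarith only [hc, hpi])
    linarith only [d4, this]

end

end Pool.Agent.Work.MP_b30479_gtS.G2.CN.M3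

end

section

/-!
# Inner variables of regions with three crossings: the rows
-/

namespace Pool.Agent.Work.MP_b30479_gtS.G2.CN.M3

open Complex SR

section
variable {K : KFam} {l r : SK} {dl : ℕ} {ll : SK} {dr : ℕ} {rr : SK} {w kl kr : ℂ}

/-- the box of the inner variable -/
theorem mid_box (hK : KOK K) (B : Bxs K) (h : RDt K 3 l r dl ll dr rr w kl kr) (A : Cl) :
    (mbox A).In (mH l (RR w kl) (Complex.cos w)) := by
  obtain ⟨c, c', -, -, h1, -⟩ := mid_main hK B h
  refine in_mono h1 ?_ ?_ ?_ ?_ <;> cases c <;> cases c' <;>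
    norm_num [mbox, C5.mB, BB.box, m_11, m_1o, m_1e, m_1r, m_o1, m_oo, m_oe, m_or, m_e1, m_eo,
      m_ee, m_er]

/-- the sum of the inner variable and the right hinge -/
theorem mid_l3 (hK : KOK K) (B : Bxs K) (h : RDt K 3 l r dl ll dr rr w kl kr) :
    1 / 2 ≤ (mH l (RR w kl) (Complex.cos w)).re + (yH r (RR w kr) (Complex.cos w)).re := by
  obtain ⟨c, c', -, hc', h1, -, -, h2⟩ := mid_main hK B h
  have h0 : 325 / 1000 ≤ (mH l (RR w kl) (Complex.cos w)).re := (mid_box hK B h .one).1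
  have h3 := (box_fits B h.right h.left.ok.ne hc').1.1
  cases c'
  · norm_num [C5.box, IB.box, bOne] at h3
    linarith
  · norm_num [C5.box, IB.box, bOne] at h3
    linarith
  · norm_num [C5.box, IB.box, bOth] at h3
    linarith
  · exact (h2 rfl).le
  · norm_num [C5.box, IB.box, bRing] at h3
    linarith

/-- **The window of the inner variable.** -/
theorem mid_win (hK : KOK K) (B : Bxs K) (h : RDt K 3 l r dl ll dr rr w kl kr) :
    (mw (nC l dl ll) (nC r dr rr)).InM (mH l (RR w kl) (Complex.cos w)).im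
      (yH l (RR w kl) (Complex.cos w)).im := by
  obtain ⟨c, c', hc, hc', ⟨-, -, h3, h4⟩, h5, h6, -⟩ := mid_main hK B h
  have n1 := nC_fits hc
  have n2 := nC_fits hc'
  have key : ∀ A A' : Cl, Cf A c → Cf A' c' →
      (mw A A').t0 ≤ (C5.mB c c').box.t0 ∧ (C5.mB c c').box.t1 ≤ (mw A A').t1 ∧
      (mw A A').s0 ≤ ((C5.dB c c').m0 : ℝ) / 10000 ∧
      ((C5.dB c c').m1 : ℝ) / 10000 ≤ (mw A A').s1 := by
    intro A A' a1 a2
    cases c <;> cases c' <;> cases A <;> cases A' <;> simp only [Cf, reduceCtorEq, or_self,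
      or_false, or_true] at a1 a2 <;>
      norm_num [mw, C5.mB, C5.dB, BB.box, m_11, m_1o, m_1e, m_1r, m_o1, m_oo, m_oe, m_or, m_e1,
        m_eo, m_ee, m_er, s_11, s_1o, s_1e, s_1r, s_o1, s_oo, s_oe, s_or, s_e1, s_eo, s_ee, s_er]
  obtain ⟨k1, k2, k3, k4⟩ := key _ _ n1 n2
  exact ⟨k1.trans h3, h4.trans k2, k3.trans h5, h6.trans k4⟩

end

/-! ### ends -/

theorem h3ea_ok : okH h3ea (pg 3 .e .a) = true := by decide +kernel
theorem h3es_ok : okH h3es (pg 4 .e .s) = true := by decide +kernel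
theorem mE_ok : m_E.ok = true := by decide +kernel

lemma root_memE {κ : ℂ} (hκ : ‖κ‖ ≤ 1) : rootE.Mem 0 κ := by
  have a3 := abs_le.1 ((Complex.abs_re_le_norm κ).trans hκ)
  have a4 := abs_le.1 ((Complex.abs_im_le_norm κ).trans hκ)
  have hD : D = 16384 := rfl
  refine ⟨inI_of (a := 0) (b := 0) le_rfl le_rfl ?_ ?_, inI_of (a := 0) (b := 0) le_rfl le_rfl ?_ ?_,
    inI_of a3.1 a3.2 ?_ ?_, inI_of a4.1 a4.2 ?_ ?_⟩ <;> rw [hD] <;> norm_num [rootE]

lemma gE_eq {H : List QC} {u w c : ℂ} (h : c * (1 - 4 * w) = 1) :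
    c * (gE H).M.val u w = (gE H).N.val u w := by
  change c * em.val u w = Ev.one.val u w
  rw [v_em, Ev.val_one]
  exact h

section
variable {K : KFam} {r : SK} {dr : ℕ} {rr : SK} {w kr : ℂ}

/-- the inner variable of an end region with three crossings -/
theorem mid_end (hK : KOK K) (B : Bxs K) (h : RDe K 3 r dr rr w kr) :
    mboxE.In (mH r (RR w kr) (Complex.cos w)) := by
  have hc := h.cos_ne
  have hτ : Complex.tan w ≠ 0 := by
    intro h0
    have := h.tan_re
    rw [h0] at this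
    simp at this
  have hk := kinds h.right
  have v1 : Hq r (RR w kr) (Complex.cos w) + I ≠ 0 := by
    rcases hk with rfl | rfl
    · rw [Hq_of_ne (by decide)]
      exact add_I_ne h.right.Rre
    · rw [Hq_s]
      intro h0
      exact (ne_of_half (B.sp h.right).2).2 (by linear_combination h0)
  have h3 := RE1_three Complex.I_mul_I v1 hτ h.reH
  rw [Rs_Sp hc, one_add_tan_sq hc] at h3
  obtain ⟨e1, e2⟩ := h3
  have q0 : (1 : ℂ) / Complex.cos w ^ 2 ≠ 0 := one_div_ne_zero (pow_ne_zero 2 hc)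
  have qk : (1 : ℂ) / Complex.cos w ^ 2 * Complex.cos w ^ 2 = 1 :=
    one_div_mul_cancel (pow_ne_zero 2 hc)
  have m1 : Sp (Hq r (RR w kr) (Complex.cos w)) (Complex.cos w) + I ≠ 0 := by
    intro h0
    rw [h0, mul_zero] at e2
    exact q0 e2
  have m2 : Sp (Hq r (RR w kr) (Complex.cos w)) (Complex.cos w) ≠ I := Sp_ne_I v1 hc
  have m3 : Sp (Hq r (RR w kr) (Complex.cos w)) (Complex.cos w) ≠ -I := fun h0 =>
    m1 (by rw [h0]; ring)
  have em := exp_acot2 m2 m3
  have hE : cexp (2 * Real.pi * I * acot2 (Sp (Hq r (RR w kr) (Complex.cos w)) (Complex.cos w))) *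
      (1 - 4 * (Complex.cos w ^ 2)) = 1 := by
    apply mul_right_cancel₀ m1
    have e3 : (1 - 4 * (Complex.cos w ^ 2)) *
        (Sp (Hq r (RR w kr) (Complex.cos w)) (Complex.cos w) + I) =
        Sp (Hq r (RR w kr) (Complex.cos w)) (Complex.cos w) - I := by
      linear_combination (2 * I * Complex.cos w ^ 2) * e2 - (2 * I) * qk -
        (4 * Complex.cos w ^ 2 *
          (Sp (Hq r (RR w kr) (Complex.cos w)) (Complex.cos w) + I)) * Complex.I_mul_I
    linear_combination (cexp (2 * Real.pi * I *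
      acot2 (Sp (Hq r (RR w kr) (Complex.cos w)) (Complex.cos w)))) * e3 + em
  obtain ⟨r1, r2⟩ := acot2_range (Sp (Hq r (RR w kr) (Complex.cos w)) (Complex.cos w))
  have hm := h.right.mem
  have hR := h.right.ok.left
  have key : m_E.box.In (acot2 (Sp (Hq r (RR w kr) (Complex.cos w)) (Complex.cos w))) := by
    rcases hk with rfl | rfl
    · have hs : Sat h3ea (Complex.cos w ^ 2) := hK.inH hR h3ea_ok _ hm
      refine BB.spec mE_ok r1 r2 (row_sound t_Eea (u := 0) (root_memE
        (le_of_sat (c := 328748) (by simp [h3ea]) (by norm_num) hs))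
        (AllOk.cons (gO_ok hs) AllOk.nil) (g := gE m_E.H) List.mem_cons_self (gE_eq hE))
    · have hs : Sat h3es (Complex.cos w ^ 2) := hK.inH hR h3es_ok _ hm
      refine BB.spec mE_ok r1 r2 (row_sound t_Ees (u := 0) (root_memE
        (le_of_sat (c := 321722) (by simp [h3es]) (by norm_num) hs))
        (AllOk.cons (gO_ok hs) AllOk.nil) (g := gE m_E.H) List.mem_cons_self (gE_eq hE))
  refine in_mono key ?_ ?_ ?_ ?_ <;> norm_num [mboxE, BB.box, m_E]

end

end Pool.Agent.Work.MP_b30479_gtS.G2.CN.M3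

end

section

/-!
# Location of the saddle point of a word: assembly

`LocZ`, `LocS`: the facts about the hinges with equal signs and about the split hinges.  The rest
follows from `KOK K` and `K ≤ K0`.  For the alternating words without a digit `1` these facts are
empty (`altK`).
-/

namespace Pool.Agent.Work.MP_b30479_gtS.G2.CN.LA

open Complex SR

/-- the facts about the hinges with equal signs -/
structure LocZ (K : KFam) : Prop where
  un : ∀ {d l d' l' R k k'}, HDt K .z d l d' l' R k k' →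
    (hbox (cK d l) (cK d' l') true).In (acot2 R)
  rr4 : ∀ {l d' l' R k k'}, HDt K .z 4 l d' l' R k k' → 4 ≤ d' → -(25 / 1000) ≤ (acot2 R).im
  y4z : ∀ {d' l' R k k'}, HDt K .z 4 .e d' l' R k k' → (acot2 R).re ≤ 24 / 100

/-- the facts about the split hinges -/
structure LocS (K : KFam) : Prop where
  sp : ∀ {d l d' l' R k k'}, HDt K .s d l d' l' R k k' →
    (hbox (cK d l) .one false).In (acot2 (Sp R k)) ∧ (acot2 (Sp R k)).re < 1 / 2
  one : ∀ {l r dl ll dr rr w kl kr}, RDt K 1 l r dl ll dr rr w kl kr →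
    (cw (nC r dr rr) (nC l dl ll)).In (yH l (RR w kl) (Complex.cos w)).im
      (yH r (RR w kr) (Complex.cos w)).im
  absd : ∀ {d l d' l' R k k'}, HDt K .s d l d' l' R k k' →
    (cw (cK d' l') (cK d l)).In (-(acot2 (Sp R k)).im) (-(acot2 (Sp R k')).im)
  one4 : ∀ {l d' l' R k k'}, HDt K .s 4 l d' l' R k k' → -(acot2 (Sp R k)).im ≤ 128 / 1000
  one5 : ∀ {l d' l' R k k'}, HDt K .s 5 l d' l' R k k' → -(acot2 (Sp R k)).im ≤ 138 / 1000
  y4s : ∀ {d' l' R k k'}, HDt K .s 4 .z d' l' R k k' → (acot2 (Sp R k)).re ≤ 2969 / 10000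
  y4se : ∀ {d' l' R k k'}, HDt K .s 4 .e d' l' R k k' →
    216 / 1000 ≤ (acot2 (Sp R k)).re ∧ (acot2 (Sp R k)).re ≤ 278 / 1000

section
variable {K : KFam} (hK : KOK K) (Z : LocZ K) (S : LocS K)
include hK Z S

theorem bxs : M3.Bxs K where
  un := by
    intro x d l d' l' R k k' hx h
    cases x
    · exact absurd rfl h.ok.ne
    · exact un_a hK h
    · exact Z.un h
    · exact absurd rfl hx
  sp := S.sp

theorem boxRows (h0 : K.Le K0) : BoxRows K where
  un := (bxs hK Z S).un
  sp := S.sp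
  mid h := M3.mid_box hK (bxs hK Z S) h _
  midE h := M3.mid_end hK (bxs hK Z S) h
  ring h4 h := M4.ring_box hK h0 h4 h
  ringE h4 h := M4.end_box hK h0 h4 h

theorem xRows : XRows K where
  one := S.one
  absd := S.absd
  one4a h := (y41 hK h).2.1
  one4s := S.one4
  one5a h := one5a hK le_rfl h
  one5s := S.one5
  lo4 h hd := lo4 hK h hd
  three h hl hd := three hK h hl hd
  rr4 := by
    intro x l d' l' R k k' h hx hd
    cases x
    · exact absurd rfl h.ok.ne
    · exact rr4 hK h hd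
    · exact Z.rr4 h hd
    · exact absurd rfl hx
  mid h := M3.mid_win hK (bxs hK Z S) h

theorem zRows : ZRows K where
  sE4a h := M4.sE4a hK h
  sE4s h := M4.sE4s hK h
  sE5 h hr := M4.sE5 hK h hr
  s4s h := M4.s4s hK h
  s4 h := M4.s4 hK h
  y41 h := (y41 hK h).1
  y41e h := (y41 hK h).2.2 rfl
  y42e h hl := y42e hK h hl
  y4z := Z.y4z
  y4s := S.y4s
  y4se := S.y4se

/-- **The location of the saddle point of a word.** -/
theorem loc_all (h0 : K.Le K0) {M : ℕ} {b : Fin (M + 1) → ℤ} {w : ℕ → ℂ} (hb : ClassW b)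
    (F : RingFacts) (hw : Sol b w) (hM : 1 ≤ M) (hS : Snd K b w) :
    LocOK b w ∧ Loc b (zsW b w) ∧ LocX b (zsW b w) := by
  have B := boxRows hK Z S h0
  have h1 := locOK_of_boxes hb F hw hM hS B (fun h => M3.mid_l3 hK (bxs hK Z S) h)
    (fun h4 h => hZ_of B (zRows hK Z S) h4 h) (fun h4 h => hZe_of B (zRows hK Z S) h4 h)
  exact ⟨h1.1, h1.2, locX_of_rows hb F hw hS (xRows hK Z S)⟩

end

/-! ### alternating words without a digit `1` -/

/-- the sides of a ring in an alternating word -/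
def Alt (l : SK) : Prop := l = .e ∨ l = .a

/-- the restriction to the rings in an alternating word without a digit `1` -/
def altK (K : KFam) : KFam where
  K d l r := {k | k ∈ K.K d l r ∧ 2 ≤ d ∧ Alt l ∧ Alt r}
  symm d l r := by
    ext k
    simp only [Set.mem_ofPred_eq, K.symm d l r]
    tauto

lemma altK_le (K : KFam) : (altK K).Le K := fun _ _ _ _ h => h.1

lemma altK_ok {K : KFam} (hK : KOK K) : KOK (altK K) :=
  ⟨fun h _ hk => hK.sub h hk.1⟩

lemma not_alt_z : ¬ Alt .z := by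
  rintro (h | h) <;> exact absurd h (by decide)

lemma not_alt_s : ¬ Alt .s := by
  rintro (h | h) <;> exact absurd h (by decide)

theorem altK_z (K : KFam) : LocZ (altK K) where
  un h := absurd h.mem.2.2.2 not_alt_z
  rr4 h := absurd h.mem.2.2.2 not_alt_z
  y4z h := absurd h.mem.2.2.2 not_alt_z

theorem altK_s (K : KFam) : LocS (altK K) where
  sp h := absurd h.mem.2.2.2 not_alt_s
  one h := absurd h.left.mem.2.1 (by decide)
  absd h := absurd h.mem.2.2.2 not_alt_s
  one4 h := absurd h.mem.2.2.2 not_alt_s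
  one5 h := absurd h.mem.2.2.2 not_alt_s
  y4s h := absurd h.mem.2.2.2 not_alt_s
  y4se h := absurd h.mem.2.2.2 not_alt_s

lemma le_trans' {K K' K'' : KFam} (h : K.Le K') (h' : K'.Le K'') : K.Le K'' :=
  fun _ _ _ _ hk => h' _ _ _ (h _ _ _ hk)

section
variable {M : ℕ} {b : Fin (M + 1) → ℤ} {w : ℕ → ℂ}

lemma us_alt (h2 : ∀ i, 2 ≤ (b i).natAbs) (n : ℕ) : us b n = false := by
  by_contra hc
  rw [Bool.not_eq_false] at hc
  have h1 := (us_true hc).2.1
  have hn : n < M + 1 := by
    by_contra hn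
    unfold bb at h1
    rw [dif_neg hn] at h1
    exact absurd h1 (by decide)
  rw [bb_lt hn] at h1
  have := h2 ⟨n, hn⟩
  omega

lemma snd_alt {K : KFam} (hS : Snd K b w) (h2 : ∀ i, 2 ≤ (b i).natAbs)
    (ha : ∀ h : Fin M, b h.castSucc * b h.succ < 0) : Snd (altK K) b w := by
  have hop : ∀ n, n < M → bb b n * bb b (n + 1) < 0 := by
    intro n hn
    rw [bb_lt (by omega), bb_lt (by omega)]
    exact ha ⟨n, hn⟩
  intro n hn _
  refine ⟨hS n hn (us_alt h2 n), ?_, ?_, ?_⟩
  · unfold dg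
    rw [bb_lt (by omega)]
    exact h2 _
  · by_cases h0 : n = 0
    · subst h0
      exact Or.inl lk_e
    · right
      have h3 := hop (n - 1) (by omega)
      rw [show n - 1 + 1 = n by omega, mul_comm] at h3
      rw [lk_f (by omega) (us_alt h2 _), if_neg (not_lt.2 h3.le)]
  · by_cases h0 : M ≤ n
    · exact Or.inl (rk_e h0)
    · right
      rw [rk_f (by omega) (us_alt h2 _), if_neg (not_lt.2 (hop n (by omega)).le)]

/-- **The location of the saddle point of an alternating word without a digit `1`.** -/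
theorem loc_alt {K : KFam} (hK : KOK K) (h0 : K.Le K0) (hb : ClassW b) (F : RingFacts)
    (hw : Sol b w) (hM : 1 ≤ M) (hS : Snd K b w) (h2 : ∀ i, 2 ≤ (b i).natAbs)
    (ha : ∀ h : Fin M, b h.castSucc * b h.succ < 0) :
    LocOK b w ∧ Loc b (zsW b w) ∧ LocX b (zsW b w) :=
  loc_all (altK_ok hK) (altK_z K) (altK_s K) (le_trans' (altK_le K) h0) hb F hw hM
    (snd_alt hS h2 ha)

end

end Pool.Agent.Work.MP_b30479_gtS.G2.CN.LA

end

section

/-!
# Rows for the inner variable of a region with three crossings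

The hinge of the region with the neighbour at the first slot is of kind `a`, with the variable `R`.
`tYs`: the exponential of the inner variable; `tSs`: the exponential of the inner variable minus
the hinge.
-/

namespace Pool.Agent.Work.MP_b30479_gtS.G2.CN.TD

open Complex SR Ev
open scoped ComplexConjugate

noncomputable section

section
variable {K : KFam} {r : SK} {dl : ℕ} {ll : SK} {dr : ℕ} {rr : SK} {w kl kr : ℂ}

/-- the exponential of the inner variable -/
lemma expMid (t : RDt K 3 .a r dl ll dr rr w kl kr)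
    (hu : (yH .a (RR w kl) (Complex.cos w)).re < 1 / 2)
    (hv : (yH r (RR w kr) (Complex.cos w)).re < 1 / 2) (H : List QC) :
    cexp (2 * Real.pi * I * mH .a (RR w kl) (Complex.cos w)) *
      (tYs H).M.val (RR w kl) (Complex.tan w) = (tYs H).N.val (RR w kl) (Complex.tan w) := by
  have T := M3.tri_of t hu hv
  have E := M3.exps_of T hu hv
  have hc0 := ne_of_re t.left.kre
  have ht := tan_sq hc0
  have em := E.em
  have e1 := T.hy
  have e2 := T.um
  rw [Hq_of_ne (by decide : SK.a ≠ .s)] at em e1 e2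
  unfold mH
  rw [Hq_of_ne (by decide : SK.a ≠ .s)]
  change _ * Ev.tq.val _ _ = Ev.tl2.val _ _
  have h4 := Ev.val_tl2 (RR w kl) (Complex.tan w)
  have h5 : Ev.tl2.val (RR w kl) (Complex.tan w) =
      1 / Complex.cos w ^ 2 - 2 + 2 * I * RR w kl := by
    apply mul_left_cancel₀ (two_ne_zero : (2 : ℂ) ≠ 0)
    rw [h4, ht]
    simp only [DB, cab]
    ring
  rw [Ev.val_tq, ht, h5]
  set M := Sp (RR w kl) (Complex.cos w)
  set E0 := cexp (2 * Real.pi * I * acot2 M)
  linear_combination (-E0) * e2 - (E0 * (RR w kl + I)) * e1 + ((RR w kl + I) * (M + I)) * em +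
    e2 + 2 * Complex.I_mul_I

/-- the exponential of the inner variable minus the hinge -/
lemma expMs (t : RDt K 3 .a r dl ll dr rr w kl kr)
    (hu : (yH .a (RR w kl) (Complex.cos w)).re < 1 / 2)
    (hv : (yH r (RR w kr) (Complex.cos w)).re < 1 / 2) (H : List QC) :
    cexp (2 * Real.pi * I * (mH .a (RR w kl) (Complex.cos w) - yH .a (RR w kl) (Complex.cos w))) *
      (tSs H).M.val (RR w kl) (Complex.tan w) = (tSs H).N.val (RR w kl) (Complex.tan w) := by
  have e1 := expMid t hu hv H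
  have hR : 0 < (RR w kl).re := r0_pos.trans t.left.Rre
  have e2 : cexp (2 * Real.pi * I * yH .a (RR w kl) (Complex.cos w)) * (RR w kl - I) =
      RR w kl + I := by
    unfold yH
    rw [Hq_of_ne (by decide : SK.a ≠ .s)]
    exact exp_acot2 (ne_I_of_re hR).1 (ne_I_of_re hR).2
  change _ * Ev.tq.val _ _ = Ev.tl2.val _ _ at e1
  change _ * (Ev.tq.val _ _ * Ev.rp.val _ _) = Ev.tl2.val _ _ * Ev.rm.val _ _
  rw [Ev.val_rp, Ev.val_rm, ← e1, ← e2, mul_sub, Complex.exp_sub]
  have h0 := Complex.exp_ne_zero (2 * Real.pi * I * yH .a (RR w kl) (Complex.cos w))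
  field_simp

lemma bxs_of (Bx : BoxRows K) : M3.Bxs K := ⟨Bx.un, Bx.sp⟩

/-- the hinges of a region with three crossings -/
lemma re_half (Bx : BoxRows K) (t : RDt K 3 .a r dl ll dr rr w kl kr) (hr : r ≠ .e) :
    (yH .a (RR w kl) (Complex.cos w)).re < 1 / 2 ∧ (yH r (RR w kr) (Complex.cos w)).re < 1 / 2 := by
  obtain ⟨c, hc⟩ := M3.fits t.left
  obtain ⟨c', hc'⟩ := M3.fits t.right
  exact ⟨(M3.box_fits (bxs_of Bx) t.left hr hc).2.1,
    (M3.box_fits (bxs_of Bx) t.right (by decide) hc').2.1⟩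

/-- **The bounds of a row.** -/
theorem tuseM (hK : KOK K) (Bx : BoxRows K) (t : RDt K 3 .a r dl ll dr rr w kl kr) (hre : r ≠ .e)
    {gi mi si : List GC} {o : List QC} {L : List Grp} {o' : List QC} {L' : List Grp}
    {gy gz gu gm gs : List GC} {n code : ℕ}
    (hr : trowOkM gi mi si o L o' L' gy gz gu gm gs n code = true)
    (hi : ∀ g ∈ gi, g.G (yH .a (RR w kl) (Complex.cos w)))
    (hmi : ∀ g ∈ mi, g.G (mH .a (RR w kl) (Complex.cos w)))
    (hsi : ∀ g ∈ si, g.G (mH .a (RR w kl) (Complex.cos w) - yH .a (RR w kl) (Complex.cos w)))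
    (ho : InH (K.K 3 r .a) o) (ho' : InH (K.K dl ll .a) o')
    (hL : AllOk (RR w kl) (Complex.tan w) L) (hL' : AllOk (RR w kl) (Complex.tan w) L') :
    (∀ g ∈ gy, g.P (yH .a (RR w kl) (Complex.cos w))) ∧ (∀ g ∈ gz, g.P (-zeta w)) ∧
      (∀ g ∈ gu, g.P (yH .a (RR w kl) (Complex.cos w) - zeta w)) ∧
      (∀ g ∈ gm, g.P (mH .a (RR w kl) (Complex.cos w))) ∧
      ∀ g ∈ gs, g.P (mH .a (RR w kl) (Complex.cos w) - yH .a (RR w kl) (Complex.cos w)) := by
  obtain ⟨hu, hv⟩ := re_half Bx t hre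
  have hc := t.left.kre
  have hc0 := ne_of_re hc
  have hT := tan_sq hc0
  have hR : 0 < (RR w kl).re := r0_pos.trans t.left.Rre
  have hq : RR w kl ^ 2 + 1 - 1 / Complex.cos w ^ 2 = 1 / kl ^ 2 := by
    rw [t.left.hinge]
    ring
  have hm' := t.left.mem'
  have h1 := inH_ownR (x := .a) ho'
  rw [← K.symm] at h1
  have hsp : SK.a = .s → (acot2 (Sp (RR w kl) (Complex.cos w))).re < 1 / 2 :=
    fun h => absurd h (by decide)
  unfold trowOkM at hr
  rw [Bool.and_eq_true, Bool.and_eq_true, Bool.and_eq_true, Bool.and_eq_true, Bool.and_eq_true,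
    Bool.and_eq_true, Bool.and_eq_true, Bool.and_eq_true] at hr
  obtain ⟨hrow, ⟨⟨⟨⟨⟨⟨k1, k2⟩, k3⟩, k4⟩, k5⟩, k6⟩, k7⟩, k8⟩ := hr
  have hl : AllOk (RR w kl) (Complex.tan w) (tsM gi mi si o L o' L') := by
    refine AllOk.cons ?_ (AllOk.cons (tl_ok hc0 hT (ho _ t.left.mem))
      (AllOk.cons (tr_ok (ne_of_re t.left.kre') hT hq (h1 kl hm'))
      (hL.append (hL'.append (AllOk.cons ?_ (AllOk.cons ?_ AllOk.nil))))))
    · refine ⟨_, expY hc hR hsp _, ?_⟩
      intro Q hQ
      obtain ⟨g, hg, rfl⟩ := List.mem_map.1 hQ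
      exact GC.imp (List.all_eq_true.1 k1 g hg) (hi g hg)
    · refine ⟨_, expMid t hu hv _, ?_⟩
      intro Q hQ
      obtain ⟨g, hg, rfl⟩ := List.mem_map.1 hQ
      exact GC.imp (List.all_eq_true.1 k2 g hg) (hmi g hg)
    · refine ⟨_, expMs t hu hv _, ?_⟩
      intro Q hQ
      obtain ⟨g, hg, rfl⟩ := List.mem_map.1 hQ
      exact GC.imp (List.all_eq_true.1 k3 g hg) (hsi g hg)
  have hm := rootT_mem hK t.left hT (tan_re t.w0 t.w1)
  refine ⟨fun g hg => ?_, fun g hg => ?_, fun g hg => ?_, fun g hg => ?_, fun g hg => ?_⟩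
  · exact GC.spec (List.all_eq_true.1 k4 g hg) (row_sound hrow hm hl
      (g := tYx .a (gy.map GC.q)) (by simp [goT]) (expY hc hR hsp _) g.q
      (List.mem_map_of_mem hg))
  · exact GC.spec (List.all_eq_true.1 k5 g hg) (row_sound hrow hm hl
      (g := tZ (gz.map GC.q)) (by simp [goT]) (expZ hc _) g.q
      (List.mem_map_of_mem hg))
  · exact GC.spec (List.all_eq_true.1 k6 g hg) (row_sound hrow hm hl
      (g := tUx .a (gu.map GC.q)) (by simp [goT]) (expU hc hR hsp _) g.q
      (List.mem_map_of_mem hg))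
  · exact GC.spec (List.all_eq_true.1 k7 g hg) (row_sound hrow hm hl
      (g := tYs (gm.map GC.q)) (by simp [goT]) (expMid t hu hv _) g.q
      (List.mem_map_of_mem hg))
  · exact GC.spec (List.all_eq_true.1 k8 g hg) (row_sound hrow hm hl
      (g := tSs (gs.map GC.q)) (by simp [goT]) (expMs t hu hv _) g.q
      (List.mem_map_of_mem hg))

/-- the neighbour on the other side -/
lemma allL (t : RDt K 3 .a r dl ll dr rr w kl kr) {B : ℕ} (hB : crs 3 r .a = B) {H : List QC}
    (hH : InH {kr} H) : AllOk (RR w kl) (Complex.tan w) (tA B H) := by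
  subst hB
  have hT := tan_sq (ne_of_re t.left.kre)
  exact tA_all hT (by rw [t.left.hinge]; ring) hH (out_left t.symm)

end

end

end Pool.Agent.Work.MP_b30479_gtS.G2.CN.TD

end
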