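import Pool.Agent.Work.MP_b30479_gt.TBS.G2.CN.TUse
import Pool.Agent.Work.MP_b30479_gt.TBS.G2.WLocF
import Pool.Agent.Work.MP_b30479_gt.TBS.G2.WLocX
import Pool.Agent.Work.MP_b30479_gt.TBS.G2.CN.TGoal
import Pool.Agent.Work.MP_b30479_gt.TBS.G2.CN.TDatg
import Pool.Agent.Work.MP_b30479_gt.TBS.G2.CN.TRwE_4
import Pool.Agent.Work.MP_b30479_gt.TBS.G2.CN.TC6A

section

/-!
# Small lemmas about windows and conditions
-/

namespace Pool.Agent.Work.MP_b30479_gtS.G2.CN.TD

open Complex SR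

noncomputable section

lemma m0 {α : Type*} {a : α} {l : List α} : a ∈ a :: l := List.mem_cons_self

lemma m1 {α : Type*} {a b : α} {l : List α} : b ∈ a :: b :: l :=
  List.mem_cons_of_mem _ List.mem_cons_self

lemma m2 {α : Type*} {a b c : α} {l : List α} : c ∈ a :: b :: c :: l :=
  List.mem_cons_of_mem _ (List.mem_cons_of_mem _ List.mem_cons_self)

/-- a window from the conditions of a row -/
lemma win_mk {x0 x1 mx s0 s1 ms c1 mc : ℕ} {a0 b0 a1 b1 a2 b2 a3 b3 q1 cq q0 cq' : ℤ} {y z : ℂ}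
    (rg : Rg y z) (h1 : (GC.arc 0 x0 a0 b0).P y) (h2 : (GC.arc x1 mx a1 b1).P y)
    (h3 : (GC.arc s1 ms a2 b2).P (-z)) (h4 : (GC.lo q1 cq).P (y - z))
    (h5 : (GC.arc c1 mc a3 b3).P (y - z)) (h6 : (GC.hi q0 cq').P (y - z))
    (h7 : (s0 : ℝ) / 10000 ≤ -z.re) (n1 : 4000 ≤ mx) (n2 : 2500 ≤ ms) (n3 : 6500 ≤ mc) :
    (⟨x0, x1, s0, s1, -q0, -q1, c1⟩ : RWin).In y z := by
  have n1' : (4000 : ℝ) ≤ mx := by exact_mod_cast n1
  have n2' : (2500 : ℝ) ≤ ms := by exact_mod_cast n2
  have n3' : (6500 : ℝ) ≤ mc := by exact_mod_cast n3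
  have g1 := arc_lb h1 (by simpa using rg.y0)
  have g2 := arc_ub h2 (by linarith only [n1', rg, rg.y1])
  have g3 := arc_ub h3 (by rw [Complex.neg_re]; linarith only [n2', rg, rg.z1])
  have g5 := arc_ub h5 (by rw [Complex.sub_re]; linarith only [n3', rg, rg.z1, rg.y1])
  have g4 : (q1 : ℝ) / 10000 ≤ (y - z).im := h4
  have g6 : (y - z).im ≤ (q0 : ℝ) / 10000 := h6
  rw [Complex.neg_re] at g3
  rw [Complex.sub_re] at g5
  rw [Complex.sub_im] at g4 g6
  exact ⟨g1.le, g2.le, h7, g3.le, by dsimp only; rw [neg_div]; linarith only [g6],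
    by dsimp only; rw [neg_div]; linarith only [g4], g5.le⟩

/-- the height of the ring variable -/
lemma rho_mk {r c : ℤ} {z : ℂ} (h : (GC.lo r c).P (-z)) : z.im ≤ -(r : ℝ) / 10000 := by
  have g : (r : ℝ) / 10000 ≤ (-z).im := h
  rw [Complex.neg_im] at g
  rw [neg_div]
  linarith only [g]

/-- the far side of a digit `1` which is not absorbed -/
lemma far_s {l' : SK} (h : ROK 1 .a l') : l' = .s := by
  rcases (h.one rfl).1 with h1 | h1
  · exact absurd h1 (by decide)
  · exact h1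

lemma mn {α : Type*} {p : α → Prop} : ∀ g ∈ ([] : List α), p g :=
  fun _ hg => absurd hg (List.not_mem_nil)

/-- the conditions of a box -/
lemma li_box {x0 m0 x1 : ℕ} {a0 b0 a1 b1 t0 c0 t1 c1 : ℤ} {y : ℂ}
    (h0 : (x0 : ℝ) / 10000 ≤ y.re) (hm : y.re ≤ (m0 : ℝ) / 10000)
    (h1 : y.re ≤ (x1 : ℝ) / 10000) (h2 : (t0 : ℝ) / 10000 ≤ y.im)
    (h3 : y.im ≤ (t1 : ℝ) / 10000) :
    ∀ g ∈ [GC.arc x0 m0 a0 b0, GC.arc 0 x1 a1 b1, GC.lo t0 c0, GC.hi t1 c1], g.G y := by
  have hx : (0 : ℝ) ≤ y.re := le_trans (by positivity) h0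
  intro g hg
  simp only [List.mem_cons, List.not_mem_nil, or_false] at hg
  rcases hg with rfl | rfl | rfl | rfl
  · exact ⟨h0, hm⟩
  · exact ⟨by simpa using hx, h1⟩
  · exact h2
  · exact h3

lemma ui_arc {x0 m0 : ℕ} {a0 b0 : ℤ} {y : ℂ} (h0 : (x0 : ℝ) / 10000 ≤ y.re)
    (hm : y.re ≤ (m0 : ℝ) / 10000) : ∀ g ∈ [GC.arc x0 m0 a0 b0], g.G y := by
  intro g hg
  rw [List.mem_singleton] at hg
  subst hg
  exact ⟨h0, hm⟩

lemma ui_hi {m c : ℤ} {y : ℂ} (h0 : y.im ≤ (m : ℝ) / 10000) : ∀ g ∈ [GC.hi m c], g.G y := by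
  intro g hg
  rw [List.mem_singleton] at hg
  subst hg
  exact h0

lemma ui_lo {m c : ℤ} {y : ℂ} (h0 : (m : ℝ) / 10000 ≤ y.im) : ∀ g ∈ [GC.lo m c], g.G y := by
  intro g hg
  rw [List.mem_singleton] at hg
  subst hg
  exact h0

lemma tb_of {X : ℝ} {s m c m' : ℕ} {a1 b1 a2 b2 : ℤ} {y z : ℂ} (rg : Rg y z)
    (rz : (GC.arc s m a1 b1).P (-z)) (ru : (GC.arc c m' a2 b2).P (y - z)) (h1 : 2500 ≤ m)
    (h2 : 6500 ≤ m') (hX : y.re ≤ X / 10000) : TB X s c y z := by
  have m1' : (2500 : ℝ) ≤ m := by exact_mod_cast h1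
  have m2' : (6500 : ℝ) ≤ m' := by exact_mod_cast h2
  have g1 := arc_ub rz (by rw [Complex.neg_re]; linarith only [m1', rg, rg.z1])
  have g3 := arc_ub ru (by rw [Complex.sub_re]; linarith only [m2', rg, rg.z1, rg.y1])
  rw [Complex.neg_re] at g1
  rw [Complex.sub_re] at g3
  exact ⟨hX, g1.le, g3.le⟩

/-- the conditions of three lines -/
lemma li_box3 {x0 m0 : ℕ} {a0 b0 : ℤ} {t0 c0 t1 c1 : ℤ} {y : ℂ}
    (h0 : (x0 : ℝ) / 10000 ≤ y.re) (hm : y.re ≤ (m0 : ℝ) / 10000)
    (h2 : (t0 : ℝ) / 10000 ≤ y.im) (h3 : y.im ≤ (t1 : ℝ) / 10000) :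
    ∀ g ∈ [GC.arc x0 m0 a0 b0, GC.lo t0 c0, GC.hi t1 c1], g.G y := by
  intro g hg
  simp only [List.mem_cons, List.not_mem_nil, or_false] at hg
  rcases hg with rfl | rfl | rfl
  · exact ⟨h0, hm⟩
  · exact h2
  · exact h3

/-- the box of a hinge next to a digit `1` in numbers -/
lemma one_num {y : ℂ} (h : (hbox .ring .one false).In y) :
    214 / 1000 ≤ y.re ∧ y.re ≤ 298 / 1000 ∧ -(158 / 1000) ≤ y.im ∧ y.im ≤ -(38 / 1000) := by
  obtain ⟨a1, a2, a3, a4⟩ := h
  norm_num [hbox] at a1 a2 a3 a4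
  norm_num
  exact ⟨a1, a2, a3, a4⟩

/-- lower bound of the height of the ring variable -/
lemma rho_mk' {r c : ℤ} {z : ℂ} (h : (GC.hi r c).P (-z)) : -(r : ℝ) / 10000 ≤ z.im := by
  have h1 : (-z).im ≤ (r : ℝ) / 10000 := h
  rw [Complex.neg_im] at h1
  rw [neg_div]
  linarith only [h1]

lemma OL.s2 {d B : ℕ} : OL d B .s (tA B PS2) := fun hK _ _ _ _ hT hq h =>
  tA_all hT hq (portS hK) h

/-- the bounds of a row -/
lemma b4c_of {x0 x1 m1 s0 s1 m2 c1 m3 : ℕ} {cr : ℤ} {t0 t1 r1 r0 q1 q0 : ℤ}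
    {a1 b1 a2 b2 e1 e2 a3 b3 a4 b4 e3 e4 a5 b5 e5 e6 : ℤ} {y z : ℂ} {A : Prop}
    (h : (∀ g ∈ [GC.arc 0 x0 a1 b1, .arc x1 m1 a2 b2, .lo t0 e1, .hi t1 e2], g.P y) ∧
      (∀ g ∈ [GC.arc 0 s0 a3 b3, .arc s1 m2 a4 b4, .lo (-r1) e3, .hi (-r0) e4], g.P (-z)) ∧
      (∀ g ∈ [GC.arc c1 m3 a5 b5, .lo (-q1) e5, .hi (-q0) e6], g.P (y - z)) ∧ A) (rg : Rg y z)
    (h1 : 4000 ≤ m1) (h2 : 2500 ≤ m2) (h3 : 6500 ≤ m3) (h4 : (c1 : ℤ) - r0 ≤ cr) :
    (mk4 x0 x1 s0 s1 q0 q1 r0 r1 t0 t1 c1 cr).In y z := by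
  obtain ⟨hy, hz, hu, -⟩ := h
  have m1' : (4000 : ℝ) ≤ m1 := by exact_mod_cast h1
  have m2' : (2500 : ℝ) ≤ m2 := by exact_mod_cast h2
  have m3' : (6500 : ℝ) ≤ m3 := by exact_mod_cast h3
  have m4' : (c1 : ℝ) - r0 ≤ cr := by exact_mod_cast h4
  have ya := arc_lb (hy (.arc 0 x0 a1 b1) (by simp)) (by simpa using rg.y0)
  have yb := arc_ub (hy (.arc x1 m1 a2 b2) (by simp)) (by linarith only [m1', rg, rg.y1])
  have yc : (t0 : ℝ) / 10000 ≤ y.im := hy (.lo t0 e1) (by simp)
  have yd : y.im ≤ (t1 : ℝ) / 10000 := hy (.hi t1 e2) (by simp)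
  have za := arc_lb (hz (.arc 0 s0 a3 b3) (by simp)) (by simpa using rg.z0)
  have zb := arc_ub (hz (.arc s1 m2 a4 b4) (by simp)) (by
    rw [Complex.neg_re]; linarith only [m2', rg, rg.z1])
  have zc : ((-r1 : ℤ) : ℝ) / 10000 ≤ (-z).im := hz (.lo (-r1) e3) (by simp)
  have zd : (-z).im ≤ ((-r0 : ℤ) : ℝ) / 10000 := hz (.hi (-r0) e4) (by simp)
  have ua := arc_ub (hu (.arc c1 m3 a5 b5) (by simp)) (by
    rw [Complex.sub_re]; linarith only [m3', rg, rg.z1, rg.y1])
  have ub : ((-q1 : ℤ) : ℝ) / 10000 ≤ (y - z).im := hu (.lo (-q1) e5) (by simp)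
  have uc : (y - z).im ≤ ((-q0 : ℤ) : ℝ) / 10000 := hu (.hi (-q0) e6) (by simp)
  rw [Complex.neg_re] at za zb
  rw [Complex.neg_im] at zc zd
  rw [Complex.sub_re] at ua
  rw [Complex.sub_im] at ub uc
  push_cast at zc zd ub uc
  refine ⟨?_, ?_, ?_, ?_, ?_, ?_, ?_, ?_, ?_, ?_, ?_, ?_⟩
  · simp only [mk4]
    push_cast
    linarith only [ya]
  · simp only [mk4]
    push_cast
    linarith only [yb]
  · simp only [mk4]
    push_cast
    linarith only [za]
  · simp only [mk4]
    push_cast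
    linarith only [zb]
  · simp only [mk4]
    push_cast
    linarith only [uc]
  · simp only [mk4]
    push_cast
    linarith only [ub]
  · simp only [mk4]
    push_cast
    linarith only [zd]
  · simp only [mk4]
    push_cast
    linarith only [zc]
  · simp only [mk4]
    push_cast
    linarith only [yc]
  · simp only [mk4]
    push_cast
    linarith only [yd]
  · simp only [mk4]
    push_cast
    linarith only [ua]
  · simp only [mk4]
    push_cast
    linarith only [m4', ua, zd]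

/-- the conditions without a bound on the left -/
lemma li_box4 {x1 : ℕ} {a1 b1 t0 c0 t1 c1 : ℤ} {y : ℂ} (h0 : 0 ≤ y.re)
    (h1 : y.re ≤ (x1 : ℝ) / 10000) (h2 : (t0 : ℝ) / 10000 ≤ y.im)
    (h3 : y.im ≤ (t1 : ℝ) / 10000) :
    ∀ g ∈ [GC.arc 0 x1 a1 b1, GC.lo t0 c0, GC.hi t1 c1], g.G y := by
  intro g hg
  simp only [List.mem_cons, List.not_mem_nil, or_false] at hg
  rcases hg with rfl | rfl | rfl
  · exact ⟨by simpa using h0, h1⟩
  · exact h2
  · exact h3

end

end Pool.Agent.Work.MP_b30479_gtS.G2.CN.TD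

end

section

/-!
# Conditions from the boxes, part 2
-/

namespace Pool.Agent.Work.MP_b30479_gtS.G2.CN.TD

open Complex SR

noncomputable section

lemma lh_twoE_of {s : Bool} {y : ℂ} (h : (hbox .ring .twoE s).In y) : ∀ g ∈ lh_twoE, g.G y := by
  obtain ⟨a0, a1, a2, a3⟩ := h
  norm_num [hbox] at a0 a1 a2 a3
  exact li_box (by norm_num; linarith) (by norm_num; linarith) (by norm_num; linarith) (by norm_num; linarith) (by norm_num; linarith)

lemma lo4_one_ringA_of {y z : ℂ} (h : (rq4 .one .ring false).In y z) : ∀ g ∈ lo4_one_ringA, g.G y := by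
  have a0 := h.x0
  have a1 := h.x1
  have a2 := h.t0
  have a3 := h.t1
  norm_num [rq4, mk4] at a0 a1 a2 a3
  exact li_box (by norm_num; linarith) (by norm_num; linarith) (by norm_num; linarith) (by norm_num; linarith) (by norm_num; linarith)

lemma lo4_one_ringZ_of {y z : ℂ} (h : (rq4 .one .ring true).In y z) : ∀ g ∈ lo4_one_ringZ, g.G y := by
  have a0 := h.x0
  have a1 := h.x1
  have a2 := h.t0
  have a3 := h.t1
  norm_num [rq4, mk4] at a0 a1 a2 a3
  exact li_box (by norm_num; linarith) (by norm_num; linarith) (by norm_num; linarith) (by norm_num; linarith) (by norm_num; linarith)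

lemma lo4_one_three_of {s : Bool} {y z : ℂ} (h : (rq4 .one .three s).In y z) : ∀ g ∈ lo4_one_three, g.G y := by
  have a0 := h.x0
  have a1 := h.x1
  have a2 := h.t0
  have a3 := h.t1
  norm_num [rq4, mk4] at a0 a1 a2 a3
  exact li_box (by norm_num; linarith) (by norm_num; linarith) (by norm_num; linarith) (by norm_num; linarith) (by norm_num; linarith)

lemma lo4_one_three3_of {s : Bool} {y z : ℂ} (h : (rq4 .one .three s).In y z) : ∀ g ∈ lo4_one_three3, g.G y := by
  have a0 := h.x0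
  have a1 := h.x1
  have a2 := h.t0
  have a3 := h.t1
  norm_num [rq4, mk4] at a0 a1 a2 a3
  exact li_box3 (by norm_num; linarith) (by norm_num; linarith) (by norm_num; linarith) (by norm_num; linarith)

lemma lo4_one_threeE_of {s : Bool} {y z : ℂ} (h : (rq4 .one .threeE s).In y z) : ∀ g ∈ lo4_one_threeE, g.G y := by
  have a0 := h.x0
  have a1 := h.x1
  have a2 := h.t0
  have a3 := h.t1
  norm_num [rq4, mk4] at a0 a1 a2 a3
  exact li_box (by norm_num; linarith) (by norm_num; linarith) (by norm_num; linarith) (by norm_num; linarith) (by norm_num; linarith)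

lemma lo4_one_two_of {s : Bool} {y z : ℂ} (h : (rq4 .one .two s).In y z) : ∀ g ∈ lo4_one_two, g.G y := by
  have a0 := h.x0
  have a1 := h.x1
  have a2 := h.t0
  have a3 := h.t1
  norm_num [rq4, mk4] at a0 a1 a2 a3
  exact li_box (by norm_num; linarith) (by norm_num; linarith) (by norm_num; linarith) (by norm_num; linarith) (by norm_num; linarith)

lemma lo4_one_two3_of {s : Bool} {y z : ℂ} (h : (rq4 .one .two s).In y z) : ∀ g ∈ lo4_one_two3, g.G y := by
  have a0 := h.x0
  have a1 := h.x1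
  have a2 := h.t0
  have a3 := h.t1
  norm_num [rq4, mk4] at a0 a1 a2 a3
  exact li_box3 (by norm_num; linarith) (by norm_num; linarith) (by norm_num; linarith) (by norm_num; linarith)

lemma lo4_one_twoE_of {s : Bool} {y z : ℂ} (h : (rq4 .one .twoE s).In y z) : ∀ g ∈ lo4_one_twoE, g.G y := by
  have a0 := h.x0
  have a1 := h.x1
  have a2 := h.t0
  have a3 := h.t1
  norm_num [rq4, mk4] at a0 a1 a2 a3
  exact li_box (by norm_num; linarith) (by norm_num; linarith) (by norm_num; linarith) (by norm_num; linarith) (by norm_num; linarith)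

lemma lo4_twoE_ringA_of {y z : ℂ} (h : (rq4 .twoE .ring false).In y z) : ∀ g ∈ lo4_twoE_ringA, g.G y := by
  have a0 := h.x0
  have a1 := h.x1
  have a2 := h.t0
  have a3 := h.t1
  norm_num [rq4, mk4] at a0 a1 a2 a3
  exact li_box (by norm_num; linarith) (by norm_num; linarith) (by norm_num; linarith) (by norm_num; linarith) (by norm_num; linarith)

lemma lo4_twoE_ringZ_of {y z : ℂ} (h : (rq4 .twoE .ring true).In y z) : ∀ g ∈ lo4_twoE_ringZ, g.G y := by
  have a0 := h.x0
  have a1 := h.x1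
  have a2 := h.t0
  have a3 := h.t1
  norm_num [rq4, mk4] at a0 a1 a2 a3
  exact li_box (by norm_num; linarith) (by norm_num; linarith) (by norm_num; linarith) (by norm_num; linarith) (by norm_num; linarith)

lemma lo4_twoE_three_of {s : Bool} {y z : ℂ} (h : (rq4 .twoE .three s).In y z) : ∀ g ∈ lo4_twoE_three, g.G y := by
  have a0 := h.x0
  have a1 := h.x1
  have a2 := h.t0
  have a3 := h.t1
  norm_num [rq4, mk4] at a0 a1 a2 a3
  exact li_box (by norm_num; linarith) (by norm_num; linarith) (by norm_num; linarith) (by norm_num; linarith) (by norm_num; linarith)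

lemma lo4_twoE_threeE_of {s : Bool} {y z : ℂ} (h : (rq4 .twoE .threeE s).In y z) : ∀ g ∈ lo4_twoE_threeE, g.G y := by
  have a0 := h.x0
  have a1 := h.x1
  have a2 := h.t0
  have a3 := h.t1
  norm_num [rq4, mk4] at a0 a1 a2 a3
  exact li_box (by norm_num; linarith) (by norm_num; linarith) (by norm_num; linarith) (by norm_num; linarith) (by norm_num; linarith)

lemma lo4_twoE_two_of {s : Bool} {y z : ℂ} (h : (rq4 .twoE .two s).In y z) : ∀ g ∈ lo4_twoE_two, g.G y := by
  have a0 := h.x0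
  have a1 := h.x1
  have a2 := h.t0
  have a3 := h.t1
  norm_num [rq4, mk4] at a0 a1 a2 a3
  exact li_box (by norm_num; linarith) (by norm_num; linarith) (by norm_num; linarith) (by norm_num; linarith) (by norm_num; linarith)

lemma lo4_twoE_twoE_of {s : Bool} {y z : ℂ} (h : (rq4 .twoE .twoE s).In y z) : ∀ g ∈ lo4_twoE_twoE, g.G y := by
  have a0 := h.x0
  have a1 := h.x1
  have a2 := h.t0
  have a3 := h.t1
  norm_num [rq4, mk4] at a0 a1 a2 a3
  exact li_box (by norm_num; linarith) (by norm_num; linarith) (by norm_num; linarith) (by norm_num; linarith) (by norm_num; linarith)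

lemma lo4_two_ringA_of {y z : ℂ} (h : (rq4 .two .ring false).In y z) : ∀ g ∈ lo4_two_ringA, g.G y := by
  have a0 := h.x0
  have a1 := h.x1
  have a2 := h.t0
  have a3 := h.t1
  norm_num [rq4, mk4] at a0 a1 a2 a3
  exact li_box (by norm_num; linarith) (by norm_num; linarith) (by norm_num; linarith) (by norm_num; linarith) (by norm_num; linarith)

lemma lo4_two_ringZ_of {y z : ℂ} (h : (rq4 .two .ring true).In y z) : ∀ g ∈ lo4_two_ringZ, g.G y := by
  have a0 := h.x0
  have a1 := h.x1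
  have a2 := h.t0
  have a3 := h.t1
  norm_num [rq4, mk4] at a0 a1 a2 a3
  exact li_box (by norm_num; linarith) (by norm_num; linarith) (by norm_num; linarith) (by norm_num; linarith) (by norm_num; linarith)

lemma lo4_two_three_of {s : Bool} {y z : ℂ} (h : (rq4 .two .three s).In y z) : ∀ g ∈ lo4_two_three, g.G y := by
  have a0 := h.x0
  have a1 := h.x1
  have a2 := h.t0
  have a3 := h.t1
  norm_num [rq4, mk4] at a0 a1 a2 a3
  exact li_box (by norm_num; linarith) (by norm_num; linarith) (by norm_num; linarith) (by norm_num; linarith) (by norm_num; linarith)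

lemma lo4_two_threeE_of {s : Bool} {y z : ℂ} (h : (rq4 .two .threeE s).In y z) : ∀ g ∈ lo4_two_threeE, g.G y := by
  have a0 := h.x0
  have a1 := h.x1
  have a2 := h.t0
  have a3 := h.t1
  norm_num [rq4, mk4] at a0 a1 a2 a3
  exact li_box (by norm_num; linarith) (by norm_num; linarith) (by norm_num; linarith) (by norm_num; linarith) (by norm_num; linarith)

end

end Pool.Agent.Work.MP_b30479_gtS.G2.CN.TD

end

section

/-!
# Rows at split hinges with a condition for the other side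

`tV`: the exponential of the hinge on the side of the second ring minus the ring variable of the
first ring.
-/

namespace Pool.Agent.Work.MP_b30479_gtS.G2.CN.TD

open Complex SR Ev

noncomputable section

section
variable {w R k' : ℂ}

lemma expV (hc : 0 < (Complex.cos w).re) (hk : k' ≠ 0)
    (hR : 0 < R.re) (hq : R ^ 2 + 1 = 1 / Complex.cos w ^ 2 + 1 / k' ^ 2)
    (h2 : (acot2 (Sp R k')).re < 1 / 2) (H : List QC) :
    cexp (2 * Real.pi * I * (acot2 (Sp R k') - zeta w)) * (tV H).M.val R (Complex.tan w) =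
      (tV H).N.val R (Complex.tan w) := by
  have ht := tan_sq (ne_of_re hc)
  have e1 := exp_split hR hk h2
  have e2 := expZ (R := R) hc H
  have e3 : 2 * Real.pi * I * (acot2 (Sp R k') - zeta w) =
      2 * Real.pi * I * acot2 (Sp R k') + 2 * Real.pi * I * (-zeta w) := by ring
  rw [e3, Complex.exp_add]
  change _ * Ev.zm.val R _ = Ev.zp.val R _ at e2
  change _ * (Ev.tq2.val R (Complex.tan w) * Ev.zm.val R (Complex.tan w)) =
    (Ev.tr2 1 0).val R (Complex.tan w) * Ev.zp.val R (Complex.tan w)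
  have h4 := Ev.val_tr2 R (Complex.tan w) 1 0
  have hq' : R ^ 2 + 1 - (Complex.tan w ^ 2 + 1) = 1 / k' ^ 2 := by
    rw [ht]
    linear_combination hq
  have h5 : (Ev.tr2 1 0).val R (Complex.tan w) = 1 / k' ^ 2 - 2 + 2 * I * R := by
    apply mul_left_cancel₀ (two_ne_zero : (2 : ℂ) ≠ 0)
    rw [h4, hq']
    simp only [DB, cab]
    push_cast
    ring
  rw [Ev.val_tq2, hq', h5, ← e1, ← e2]
  ring

/-- a run gives the bounds -/
theorem trowV_sound {gi : List GC} {o : List QC} {L : List Grp} {o' : List QC}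
    {L' : List Grp} {gy gz gu gv : List GC} {n code : ℕ}
    (hr : trowOkV gi o L o' L' gy gz gu gv n code = true) (hm : rootT.Mem R (Complex.tan w))
    (hc : 0 < (Complex.cos w).re) (hR : 0 < R.re) (hk : k' ≠ 0)
    (hq : R ^ 2 + 1 = 1 / Complex.cos w ^ 2 + 1 / k' ^ 2)
    (h2 : (acot2 (Sp R (Complex.cos w))).re < 1 / 2) (h3 : (acot2 (Sp R k')).re < 1 / 2)
    (hi : ∀ g ∈ gi, g.G (yH .s R (Complex.cos w))) (ho : (tl o).Ok R (Complex.tan w))
    (ho' : (tr (ownR .s o')).Ok R (Complex.tan w)) (hL : AllOk R (Complex.tan w) L)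
    (hL' : AllOk R (Complex.tan w) L') :
    (∀ g ∈ gy, g.P (yH .s R (Complex.cos w))) ∧ (∀ g ∈ gz, g.P (-zeta w)) ∧
      (∀ g ∈ gu, g.P (yH .s R (Complex.cos w) - zeta w)) ∧
      ∀ g ∈ gv, g.P (acot2 (Sp R k') - zeta w) := by
  unfold trowOkV at hr
  rw [Bool.and_eq_true, Bool.and_eq_true, Bool.and_eq_true, Bool.and_eq_true,
    Bool.and_eq_true] at hr
  obtain ⟨hrow, ⟨⟨⟨k1, k2⟩, k3⟩, k4⟩, k5⟩ := hr
  have hgi : (tYx .s (gi.map GC.qi)).Ok R (Complex.tan w) := by
    refine ⟨_, expY (x := .s) hc hR (fun _ => h2) _, ?_⟩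
    intro Q hQ
    obtain ⟨g, hg, rfl⟩ := List.mem_map.1 hQ
    exact GC.imp (List.all_eq_true.1 k1 g hg) (hi g hg)
  have hl : AllOk R (Complex.tan w) (tsOf .s gi o L o' L') :=
    AllOk.cons hgi (AllOk.cons ho (AllOk.cons ho' (hL.append hL')))
  refine ⟨fun g hg => ?_, fun g hg => ?_, fun g hg => ?_, fun g hg => ?_⟩
  · exact GC.spec (List.all_eq_true.1 k2 g hg) (row_sound hrow hm hl
      (g := tYx .s (gy.map GC.q)) (by simp [goT]) (expY (x := .s) hc hR (fun _ => h2) _) g.q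
      (List.mem_map_of_mem hg))
  · exact GC.spec (List.all_eq_true.1 k3 g hg) (row_sound hrow hm hl
      (g := tZ (gz.map GC.q)) (by simp [goT]) (expZ hc _) g.q
      (List.mem_map_of_mem hg))
  · exact GC.spec (List.all_eq_true.1 k4 g hg) (row_sound hrow hm hl
      (g := tUx .s (gu.map GC.q)) (by simp [goT]) (expU (x := .s) hc hR (fun _ => h2) _) g.q
      (List.mem_map_of_mem hg))
  · exact GC.spec (List.all_eq_true.1 k5 g hg) (row_sound hrow hm hl
      (g := tV (gv.map GC.q)) (by simp [goT]) (expV hc hk hR hq h3 _) g.q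
      (List.mem_map_of_mem hg))

end

/-- the bounds of a row at a split hinge -/
theorem tuseV {K : KFam} (hK : KOK K) {d : ℕ} {l : SK} {d' : ℕ} {l' : SK} {w R k' : ℂ}
    (t : TDt K .s d l d' l' w R k') (h3 : (acot2 (Sp R k')).re < 1 / 2) {B B' : ℕ}
    (hB : crs d l .s = B) (hB' : crs d' .s l' = B') {gi : List GC} {o : List QC}
    {L : List Grp} {o' : List QC} {L' : List Grp} {gy gz gu gv : List GC} {n code : ℕ}
    (hr : trowOkV gi o L o' L' gy gz gu gv n code = true)
    (hi : ∀ g ∈ gi, g.G (yH .s R (Complex.cos w)))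
    (ho : InH (K.K d l .s) o) (ho' : InH (K.K d' l' .s) o') (hL : OL d B l L)
    (hL' : OR .s d' B' l' L') :
    (∀ g ∈ gy, g.P (yH .s R (Complex.cos w))) ∧ (∀ g ∈ gz, g.P (-zeta w)) ∧
      (∀ g ∈ gu, g.P (yH .s R (Complex.cos w) - zeta w)) ∧
      ∀ g ∈ gv, g.P (acot2 (Sp R k') - zeta w) := by
  subst hB hB'
  have hc := t.h.kre
  have hc0 := ne_of_re hc
  have hT := tan_sq hc0
  have hR : 0 < R.re := r0_pos.trans t.h.Rre
  have hq : R ^ 2 + 1 - 1 / Complex.cos w ^ 2 = 1 / k' ^ 2 := by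
    rw [t.h.hinge]
    ring
  have hm' := t.h.mem'
  have h1 := inH_ownR (x := .s) ho'
  rw [← K.symm] at h1
  exact trowV_sound hr (rootT_mem hK t.h hT (tan_re t.w0 t.w1)) hc hR (ne_of_re t.h.kre')
    t.h.hinge (t.sp rfl) h3 hi (tl_ok hc0 hT (ho _ t.h.mem))
    (tr_ok (ne_of_re t.h.kre') hT hq (h1 k' hm')) (hL hK hT hq t.h.out) (hL' hK hT hq t.h.out')

end

end Pool.Agent.Work.MP_b30479_gtS.G2.CN.TD

end

section

/-!
# Windows of the rings next to a digit `1`
-/

namespace Pool.Agent.Work.MP_b30479_gtS.G2.CN.TD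

open Complex SR

noncomputable section

/-- the conclusion for a ring next to a digit `1` -/
def One (n : ℕ) (e : Bool) (P : Cl) (y z : ℂ) : Prop := ∃ W ∈ rw1 n e P, W.In y z

section
variable {K : KFam} (hK : KOK K) {l : SK} {d' : ℕ} {l' : SK} {w R k' : ℂ}
include hK

/-- four crossings, digit `1` not absorbed -/
theorem one4_a (t : TDt K .a 4 l 1 l' w R k')
    (rg : Rg (yH .a R (Complex.cos w)) (zeta w)) :
    One 4 (decide (l = .e)) .one (yH .a R (Complex.cos w)) (zeta w) ∧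
      (l ≠ .e → (zeta w).im ≤ 85 / 1000) := by
  have hs := far_s t.h.ok.right
  subst hs
  have hl := t.h.ok.left
  have hr := t.h.ok.right.symm
  cases l
  · obtain ⟨ry, rz, ru⟩ := tuse hK t rfl rfl o_4eu
      (fun g hg => absurd hg (List.not_mem_nil)) (hK.inH hl k4ea_ok)
      (hK.inH hr k2as_ok) OL.e (OR.st (by decide))
    have hw := win_mk (s0 := 2027) rg (ry _ m0) (ry _ m1) (rz _ m0) (ru _ m0) (ru _ m1) (ru _ m2)
      (by have := arc_lb (rz _ m1) (by rw [Complex.neg_re]; norm_num; linarith only [rg, rg.z0]); rw [Complex.neg_re] at this; exact this.le) (by norm_num) (by norm_num) (by norm_num)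
    norm_num at hw
    refine ⟨⟨⟨2186, 2483, 2027, 2153, 848, 1153, 4540⟩, by simp [rw1], hw⟩, fun h => absurd rfl h⟩
  · obtain ⟨ry, rz, ru⟩ := tuse hK t rfl rfl o_4au
      (fun g hg => absurd hg (List.not_mem_nil)) (hK.inH hl k4aa_ok)
      (hK.inH hr k2as_ok) OL.a (OR.st (by decide))
    have hw := win_mk (s0 := 0) rg (ry _ m0) (ry _ m1) (rz _ m0) (ru _ m0) (ru _ m1) (ru _ m2)
      (by norm_num; linarith only [rg, rg.z0]) (by norm_num) (by norm_num) (by norm_num)
    norm_num at hw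
    refine ⟨⟨⟨2269, 2692, 0, 1998, 997, 1557, 4592⟩, by simp [rw1], hw⟩, fun _ => ?_⟩
    have := rho_mk (rz _ m1)
    norm_num at this
    linarith only [this]
  · obtain ⟨ry, rz, ru⟩ := tuse hK t rfl rfl o_4zu
      (fun g hg => absurd hg (List.not_mem_nil)) (hK.inH hl k4az_ok)
      (hK.inH hr k2as_ok) OL.z (OR.st (by decide))
    have hw := win_mk (s0 := 0) rg (ry _ m0) (ry _ m1) (rz _ m0) (ru _ m0) (ru _ m1) (ru _ m2)
      (by norm_num; linarith only [rg, rg.z0]) (by norm_num) (by norm_num) (by norm_num)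
    norm_num at hw
    refine ⟨⟨⟨2269, 2692, 0, 1998, 997, 1557, 4592⟩, by simp [rw1], hw⟩, fun _ => ?_⟩
    have := rho_mk (rz _ m1)
    norm_num at this
    linarith only [this]
  · obtain ⟨ry, rz, ru⟩ := tuse hK t rfl rfl o_4su
      (fun g hg => absurd hg (List.not_mem_nil)) (hK.inH hl k5as_ok)
      (hK.inH hr k2as_ok) (OL.s (by norm_num)) (OR.st (by decide))
    have hw := win_mk (s0 := 0) rg (ry _ m0) (ry _ m1) (rz _ m0) (ru _ m0) (ru _ m1) (ru _ m2)
      (by norm_num; linarith only [rg, rg.z0]) (by norm_num) (by norm_num) (by norm_num)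
    norm_num at hw
    refine ⟨⟨⟨2269, 2692, 0, 1998, 997, 1557, 4592⟩, by simp [rw1], hw⟩, fun _ => ?_⟩
    have := rho_mk (rz _ m1)
    norm_num at this
    linarith only [this]

/-- four crossings, absorbed digit `1`, behind it a ring `(1, a)` -/
theorem one4_1a (t : TDt K .s 4 l 1 .a w R k')
    (rg : Rg (yH .s R (Complex.cos w)) (zeta w)) :
    One 4 (decide (l = .e)) .one (yH .s R (Complex.cos w)) (zeta w) ∧
      (l ≠ .e → (zeta w).im ≤ 85 / 1000) := by
  have hl := t.h.ok.left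
  have hr := t.h.ok.right.symm
  cases l
  · obtain ⟨ry, rz, ru⟩ := tuse hK t rfl rfl o_4e1a
      (fun g hg => absurd hg (List.not_mem_nil)) (hK.inH hl k5es_ok)
      (hK.inH hr k2as_ok) OL.e (OR.a1 (by norm_num))
    have hw := win_mk (s0 := 2029) rg (ry _ m0) (ry _ m1) (rz _ m0) (ru _ m0) (ru _ m1) (ru _ m2)
      (by have := arc_lb (rz _ m1) (by rw [Complex.neg_re]; norm_num; linarith only [rg, rg.z0]); rw [Complex.neg_re] at this; exact this.le) (by norm_num) (by norm_num) (by norm_num)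
    norm_num at hw
    exact ⟨⟨⟨2147, 2488, 2029, 2153, 848, 1226, 4547⟩, by simp [rw1], hw⟩, fun h => absurd rfl h⟩
  · obtain ⟨ry, rz, ru⟩ := tuse hK t rfl rfl o_4a1a
      (fun g hg => absurd hg (List.not_mem_nil)) (hK.inH hl k5as_ok)
      (hK.inH hr k2as_ok) OL.a (OR.a1 (by norm_num))
    have hw := win_mk (s0 := 0) rg (ry _ m0) (ry _ m1) (rz _ m0) (ru _ m0) (ru _ m1) (ru _ m2)
      (by norm_num; linarith only [rg, rg.z0]) (by norm_num) (by norm_num) (by norm_num)
    norm_num at hw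
    refine ⟨⟨⟨2226, 2698, 0, 2004, 997, 1634, 4595⟩, by simp [rw1], hw⟩, fun _ => ?_⟩
    have hρ := rho_mk (rz _ m1)
    norm_num at hρ
    linarith only [hρ]
  · obtain ⟨ry, rz, ru⟩ := tuse hK t rfl rfl o_4z1a
      (fun g hg => absurd hg (List.not_mem_nil)) (hK.inH hl k5zs_ok)
      (hK.inH hr k2as_ok) OL.z (OR.a1 (by norm_num))
    have hw := win_mk (s0 := 0) rg (ry _ m0) (ry _ m1) (rz _ m0) (ru _ m0) (ru _ m1) (ru _ m2)
      (by norm_num; linarith only [rg, rg.z0]) (by norm_num) (by norm_num) (by norm_num)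
    norm_num at hw
    refine ⟨⟨⟨2226, 2698, 0, 2004, 997, 1634, 4595⟩, by simp [rw1], hw⟩, fun _ => ?_⟩
    have hρ := rho_mk (rz _ m1)
    norm_num at hρ
    linarith only [hρ]
  · obtain ⟨ry, rz, ru⟩ := tuse hK t rfl rfl o_4s1a
      (fun g hg => absurd hg (List.not_mem_nil)) (hK.inH hl k6ss_ok)
      (hK.inH hr k2as_ok) OL.nil (OR.a1 (by norm_num))
    have hw := win_mk (s0 := 0) rg (ry _ m0) (ry _ m1) (rz _ m0) (ru _ m0) (ru _ m1) (ru _ m2)
      (by norm_num; linarith only [rg, rg.z0]) (by norm_num) (by norm_num) (by norm_num)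
    norm_num at hw
    refine ⟨⟨⟨2225, 2673, 0, 1879, 927, 1646, 4486⟩, by simp [rw1], hw⟩, fun _ => ?_⟩
    have hρ := rho_mk (rz _ m1)
    norm_num at hρ
    linarith only [hρ]

/-- four crossings, absorbed digit `1`, behind it a ring `(1, s)` -/
theorem one4_1s (t : TDt K .s 4 l 1 .s w R k')
    (rg : Rg (yH .s R (Complex.cos w)) (zeta w)) :
    One 4 (decide (l = .e)) .one (yH .s R (Complex.cos w)) (zeta w) ∧
      (l ≠ .e → (zeta w).im ≤ 85 / 1000) := by
  have hl := t.h.ok.left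
  have hr := t.h.ok.right.symm
  cases l
  · obtain ⟨ry, rz, ru⟩ := tuse hK t rfl rfl o_4e1s
      (fun g hg => absurd hg (List.not_mem_nil)) (hK.inH hl k5es_ok)
      (hK.inH hr k3ss_ok) OL.e OR.s
    have hw := win_mk (s0 := 2004) rg (ry _ m0) (ry _ m1) (rz _ m0) (ru _ m0) (ru _ m1) (ru _ m2)
      (by have := arc_lb (rz _ m1) (by rw [Complex.neg_re]; norm_num; linarith only [rg, rg.z0]); rw [Complex.neg_re] at this; exact this.le) (by norm_num) (by norm_num) (by norm_num)
    norm_num at hw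
    exact ⟨⟨⟨2323, 2575, 2004, 2111, 993, 1179, 4609⟩, by simp [rw1], hw⟩, fun h => absurd rfl h⟩
  · obtain ⟨ry, rz, ru⟩ := tuse hK t rfl rfl o_4a1s
      (fun g hg => absurd hg (List.not_mem_nil)) (hK.inH hl k5as_ok)
      (hK.inH hr k3ss_ok) OL.a OR.s
    have hw := win_mk (s0 := 0) rg (ry _ m0) (ry _ m1) (rz _ m0) (ru _ m0) (ru _ m1) (ru _ m2)
      (by norm_num; linarith only [rg, rg.z0]) (by norm_num) (by norm_num) (by norm_num)
    norm_num at hw
    refine ⟨⟨⟨2412, 2788, 0, 1967, 1154, 1573, 4668⟩, by simp [rw1], hw⟩, fun _ => ?_⟩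
    have hρ := rho_mk (rz _ m1)
    norm_num at hρ
    linarith only [hρ]
  · obtain ⟨ry, rz, ru⟩ := tuse hK t rfl rfl o_4z1s
      (fun g hg => absurd hg (List.not_mem_nil)) (hK.inH hl k5zs_ok)
      (hK.inH hr k3ss_ok) OL.z OR.s
    have hw := win_mk (s0 := 0) rg (ry _ m0) (ry _ m1) (rz _ m0) (ru _ m0) (ru _ m1) (ru _ m2)
      (by norm_num; linarith only [rg, rg.z0]) (by norm_num) (by norm_num) (by norm_num)
    norm_num at hw
    refine ⟨⟨⟨2412, 2788, 0, 1967, 1154, 1573, 4668⟩, by simp [rw1], hw⟩, fun _ => ?_⟩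
    have hρ := rho_mk (rz _ m1)
    norm_num at hρ
    linarith only [hρ]
  · obtain ⟨ry, rz, ru⟩ := tuse hK t rfl rfl o_4s1s
      (fun g hg => absurd hg (List.not_mem_nil)) (hK.inH hl k6ss_ok)
      (hK.inH hr k3ss_ok) OL.nil OR.s
    have hw := win_mk (s0 := 0) rg (ry _ m0) (ry _ m1) (rz _ m0) (ru _ m0) (ru _ m1) (ru _ m2)
      (by norm_num; linarith only [rg, rg.z0]) (by norm_num) (by norm_num) (by norm_num)
    norm_num at hw
    refine ⟨⟨⟨2400, 2767, 0, 1879, 1103, 1567, 4578⟩, by simp [rw1], hw⟩, fun _ => ?_⟩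
    have hρ := rho_mk (rz _ m1)
    norm_num at hρ
    linarith only [hρ]

/-- four crossings, absorbed digit `1`, behind it a ring `(2, a)` -/
theorem one4_2a (t : TDt K .s 4 l 2 .a w R k') (h3 : (acot2 (Sp R k')).re < 1 / 2)
    (rg : Rg (yH .s R (Complex.cos w)) (zeta w)) :
    One 4 (decide (l = .e)) .two (yH .s R (Complex.cos w)) (zeta w) ∧
      (l ≠ .e → (zeta w).im ≤ 75 / 1000 ∧
        -(acot2 (Sp R k')).im + (zeta w).im ≤ 150 / 1000) := by
  have hl := t.h.ok.left
  have hr := t.h.ok.right.symm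
  cases l
  · obtain ⟨ry, rz, ru⟩ := tuse hK t rfl rfl o_4e2a
      (fun g hg => absurd hg (List.not_mem_nil)) (hK.inH hl k5es_ok)
      (hK.inH hr k3as_ok) OL.e OR.a
    have hw := win_mk (s0 := 1965) rg (ry _ m0) (ry _ m1) (rz _ m0) (ru _ m0) (ru _ m1) (ru _ m2)
      (by have := arc_lb (rz _ m1) (by rw [Complex.neg_re]; norm_num; linarith only [rg, rg.z0]); rw [Complex.neg_re] at this; exact this.le) (by norm_num) (by norm_num) (by norm_num)
    norm_num at hw
    exact ⟨⟨⟨2500, 2726, 1965, 2065, 1059, 1269, 4721⟩, by simp [rw1], hw⟩, fun h => absurd rfl h⟩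
  · obtain ⟨ry, rz, ru, rv⟩ := tuseV hK t h3 rfl rfl o_4a2a
      (fun g hg => absurd hg (List.not_mem_nil)) (hK.inH hl k5as_ok)
      (hK.inH hr k3as_ok) OL.a OR.a
    have hw := win_mk (s0 := 0) rg (ry _ m0) (ry _ m1) (rz _ m0) (ru _ m0) (ru _ m1) (ru _ m2)
      (by norm_num; linarith only [rg, rg.z0]) (by norm_num) (by norm_num) (by norm_num)
    norm_num at hw
    refine ⟨⟨⟨2591, 2947, 0, 1931, 1224, 1660, 4798⟩, by simp [rw1], hw⟩, fun _ => ?_⟩
    have hρ := rho_mk (rz _ m1)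
    norm_num at hρ
    have hv : ((-1500 : ℤ) : ℝ) / 10000 ≤ _ := rv _ m0
    rw [Complex.sub_im] at hv
    norm_num at hv
    constructor <;> linarith only [hρ, hv]
  · obtain ⟨ry, rz, ru, rv⟩ := tuseV hK t h3 rfl rfl o_4z2a
      (fun g hg => absurd hg (List.not_mem_nil)) (hK.inH hl k5zs_ok)
      (hK.inH hr k3as_ok) OL.z OR.a
    have hw := win_mk (s0 := 0) rg (ry _ m0) (ry _ m1) (rz _ m0) (ru _ m0) (ru _ m1) (ru _ m2)
      (by norm_num; linarith only [rg, rg.z0]) (by norm_num) (by norm_num) (by norm_num)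
    norm_num at hw
    refine ⟨⟨⟨2591, 2947, 0, 1931, 1224, 1660, 4798⟩, by simp [rw1], hw⟩, fun _ => ?_⟩
    have hρ := rho_mk (rz _ m1)
    norm_num at hρ
    have hv : ((-1500 : ℤ) : ℝ) / 10000 ≤ _ := rv _ m0
    rw [Complex.sub_im] at hv
    norm_num at hv
    constructor <;> linarith only [hρ, hv]
  · obtain ⟨ry, rz, ru, rv⟩ := tuseV hK t h3 rfl rfl o_4s2a
      (fun g hg => absurd hg (List.not_mem_nil)) (hK.inH hl k6ss_ok)
      (hK.inH hr k3as_ok) OL.nil OR.a
    have hw := win_mk (s0 := 0) rg (ry _ m0) (ry _ m1) (rz _ m0) (ru _ m0) (ru _ m1) (ru _ m2)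
      (by norm_num; linarith only [rg, rg.z0]) (by norm_num) (by norm_num) (by norm_num)
    norm_num at hw
    refine ⟨⟨⟨2573, 2935, 0, 1879, 1172, 1661, 4742⟩, by simp [rw1], hw⟩, fun _ => ?_⟩
    have hρ := rho_mk (rz _ m1)
    norm_num at hρ
    have hv : ((-1500 : ℤ) : ℝ) / 10000 ≤ _ := rv _ m0
    rw [Complex.sub_im] at hv
    norm_num at hv
    constructor <;> linarith only [hρ, hv]

/-- four crossings, absorbed digit `1`, behind it a ring `(2, s)` -/
theorem one4_2s (t : TDt K .s 4 l 2 .s w R k') (h3 : (acot2 (Sp R k')).re < 1 / 2)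
    (rg : Rg (yH .s R (Complex.cos w)) (zeta w)) :
    One 4 (decide (l = .e)) .two (yH .s R (Complex.cos w)) (zeta w) ∧
      (l ≠ .e → (zeta w).im ≤ 75 / 1000 ∧
        -(acot2 (Sp R k')).im + (zeta w).im ≤ 150 / 1000) := by
  have hl := t.h.ok.left
  have hr := t.h.ok.right.symm
  cases l
  · obtain ⟨ry, rz, ru⟩ := tuse hK t rfl rfl o_4e2s
      (fun g hg => absurd hg (List.not_mem_nil)) (hK.inH hl k5es_ok)
      (hK.inH hr k4ss_ok) OL.e OR.s
    have hw := win_mk (s0 := 1967) rg (ry _ m0) (ry _ m1) (rz _ m0) (ru _ m0) (ru _ m1) (ru _ m2)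
      (by have := arc_lb (rz _ m1) (by rw [Complex.neg_re]; norm_num; linarith only [rg, rg.z0]); rw [Complex.neg_re] at this; exact this.le) (by norm_num) (by norm_num) (by norm_num)
    norm_num at hw
    exact ⟨⟨⟨2595, 2751, 1967, 2034, 1125, 1232, 4738⟩, by simp [rw1], hw⟩, fun h => absurd rfl h⟩
  · obtain ⟨ry, rz, ru, rv⟩ := tuseV hK t h3 rfl rfl o_4a2s
      (fun g hg => absurd hg (List.not_mem_nil)) (hK.inH hl k5as_ok)
      (hK.inH hr k4ss_ok) OL.a OR.s
    have hw := win_mk (s0 := 0) rg (ry _ m0) (ry _ m1) (rz _ m0) (ru _ m0) (ru _ m1) (ru _ m2)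
      (by norm_num; linarith only [rg, rg.z0]) (by norm_num) (by norm_num) (by norm_num)
    norm_num at hw
    refine ⟨⟨⟨2678, 2983, 0, 1912, 1285, 1625, 4826⟩, by simp [rw1], hw⟩, fun _ => ?_⟩
    have hρ := rho_mk (rz _ m1)
    norm_num at hρ
    have hv : ((-1500 : ℤ) : ℝ) / 10000 ≤ _ := rv _ m0
    rw [Complex.sub_im] at hv
    norm_num at hv
    constructor <;> linarith only [hρ, hv]
  · obtain ⟨ry, rz, ru, rv⟩ := tuseV hK t h3 rfl rfl o_4z2s
      (fun g hg => absurd hg (List.not_mem_nil)) (hK.inH hl k5zs_ok)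
      (hK.inH hr k4ss_ok) OL.z OR.s
    have hw := win_mk (s0 := 0) rg (ry _ m0) (ry _ m1) (rz _ m0) (ru _ m0) (ru _ m1) (ru _ m2)
      (by norm_num; linarith only [rg, rg.z0]) (by norm_num) (by norm_num) (by norm_num)
    norm_num at hw
    refine ⟨⟨⟨2678, 2983, 0, 1912, 1285, 1625, 4826⟩, by simp [rw1], hw⟩, fun _ => ?_⟩
    have hρ := rho_mk (rz _ m1)
    norm_num at hρ
    have hv : ((-1500 : ℤ) : ℝ) / 10000 ≤ _ := rv _ m0
    rw [Complex.sub_im] at hv
    norm_num at hv
    constructor <;> linarith only [hρ, hv]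
  · obtain ⟨ry, rz, ru, rv⟩ := tuseV hK t h3 rfl rfl o_4s2s
      (fun g hg => absurd hg (List.not_mem_nil)) (hK.inH hl k6ss_ok)
      (hK.inH hr k4ss_ok) OL.nil OR.s
    have hw := win_mk (s0 := 0) rg (ry _ m0) (ry _ m1) (rz _ m0) (ru _ m0) (ru _ m1) (ru _ m2)
      (by norm_num; linarith only [rg, rg.z0]) (by norm_num) (by norm_num) (by norm_num)
    norm_num at hw
    refine ⟨⟨⟨2655, 2970, 0, 1879, 1237, 1614, 4777⟩, by simp [rw1], hw⟩, fun _ => ?_⟩
    have hρ := rho_mk (rz _ m1)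
    norm_num at hρ
    have hv : ((-1500 : ℤ) : ℝ) / 10000 ≤ _ := rv _ m0
    rw [Complex.sub_im] at hv
    norm_num at hv
    constructor <;> linarith only [hρ, hv]

/-- four crossings, absorbed digit `1`, behind it a ring `(2, e)` -/
theorem one4_2e (t : TDt K .s 4 l 2 .e w R k')
    (rg : Rg (yH .s R (Complex.cos w)) (zeta w)) :
    One 4 (decide (l = .e)) .twoE (yH .s R (Complex.cos w)) (zeta w) ∧
      (l ≠ .e → (zeta w).im ≤ 75 / 1000) := by
  have hl := t.h.ok.left
  have hr := t.h.ok.right.symm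
  cases l
  · obtain ⟨ry, rz, ru⟩ := tuse hK t rfl rfl o_4e2e
      (fun g hg => absurd hg (List.not_mem_nil)) (hK.inH hl k5es_ok)
      (hK.inH hr k3es_ok) OL.e OR.e
    have hw := win_mk (s0 := 2015) rg (ry _ m0) (ry _ m1) (rz _ m0) (ru _ m0) (ru _ m1) (ru _ m2)
      (by have := arc_lb (rz _ m1) (by rw [Complex.neg_re]; norm_num; linarith only [rg, rg.z0]); rw [Complex.neg_re] at this; exact this.le) (by norm_num) (by norm_num) (by norm_num)
    norm_num at hw
    exact ⟨⟨⟨2382, 2442, 2015, 2075, 1343, 1403, 4487⟩, by simp [rw1], hw⟩, fun h => absurd rfl h⟩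
  · obtain ⟨ry, rz, ru⟩ := tuse hK t rfl rfl o_4a2e
      (fun g hg => absurd hg (List.not_mem_nil)) (hK.inH hl k5as_ok)
      (hK.inH hr k3es_ok) OL.a OR.e
    have hw := win_mk (s0 := 0) rg (ry _ m0) (ry _ m1) (rz _ m0) (ru _ m0) (ru _ m1) (ru _ m2)
      (by norm_num; linarith only [rg, rg.z0]) (by norm_num) (by norm_num) (by norm_num)
    norm_num at hw
    refine ⟨⟨⟨2462, 2637, 0, 1962, 1530, 1818, 4561⟩, by simp [rw1], hw⟩, fun _ => ?_⟩
    have hρ := rho_mk (rz _ m1)
    norm_num at hρ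
    linarith only [hρ]
  · obtain ⟨ry, rz, ru⟩ := tuse hK t rfl rfl o_4z2e
      (fun g hg => absurd hg (List.not_mem_nil)) (hK.inH hl k5zs_ok)
      (hK.inH hr k3es_ok) OL.z OR.e
    have hw := win_mk (s0 := 0) rg (ry _ m0) (ry _ m1) (rz _ m0) (ru _ m0) (ru _ m1) (ru _ m2)
      (by norm_num; linarith only [rg, rg.z0]) (by norm_num) (by norm_num) (by norm_num)
    norm_num at hw
    refine ⟨⟨⟨2462, 2637, 0, 1962, 1530, 1818, 4561⟩, by simp [rw1], hw⟩, fun _ => ?_⟩
    have hρ := rho_mk (rz _ m1)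
    norm_num at hρ
    linarith only [hρ]
  · obtain ⟨ry, rz, ru⟩ := tuse hK t rfl rfl o_4s2e
      (fun g hg => absurd hg (List.not_mem_nil)) (hK.inH hl k6ss_ok)
      (hK.inH hr k3es_ok) OL.nil OR.e
    have hw := win_mk (s0 := 0) rg (ry _ m0) (ry _ m1) (rz _ m0) (ru _ m0) (ru _ m1) (ru _ m2)
      (by norm_num; linarith only [rg, rg.z0]) (by norm_num) (by norm_num) (by norm_num)
    norm_num at hw
    refine ⟨⟨⟨2463, 2648, 0, 1879, 1533, 1861, 4466⟩, by simp [rw1], hw⟩, fun _ => ?_⟩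
    have hρ := rho_mk (rz _ m1)
    norm_num at hρ
    linarith only [hρ]

/-- five crossings, digit `1` not absorbed -/
theorem one5_a (t : TDt K .a 5 l 1 l' w R k')
    (rg : Rg (yH .a R (Complex.cos w)) (zeta w)) :
    One 5 (decide (l = .e)) .one (yH .a R (Complex.cos w)) (zeta w) := by
  have hs := far_s t.h.ok.right
  subst hs
  have hl := t.h.ok.left
  have hr := t.h.ok.right.symm
  cases l
  · obtain ⟨ry, rz, ru⟩ := tuse hK t rfl rfl o_5eu
      (fun g hg => absurd hg (List.not_mem_nil)) (hK.inH hl k5ea_ok)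
      (hK.inH hr k2as_ok) OL.e (OR.st (by decide))
    have hw := win_mk (s0 := 1691) rg (ry _ m0) (ry _ m1) (rz _ m0) (ru _ m0) (ru _ m1) (ru _ m2)
      (by have := arc_lb (rz _ m1) (by rw [Complex.neg_re]; norm_num; linarith only [rg, rg.z0]); rw [Complex.neg_re] at this; exact this.le) (by norm_num) (by norm_num) (by norm_num)
    norm_num at hw
    exact ⟨⟨2214, 2514, 1691, 1798, 858, 1190, 4235⟩, by simp [rw1], hw⟩
  · obtain ⟨ry, rz, ru⟩ := tuse hK t rfl rfl o_5au
      (fun g hg => absurd hg (List.not_mem_nil)) (hK.inH hl k5aa_ok)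
      (hK.inH hr k2as_ok) OL.a (OR.st (by decide))
    have hw := win_mk (s0 := 0) rg (ry _ m0) (ry _ m1) (rz _ m0) (ru _ m0) (ru _ m1) (ru _ m2)
      (by norm_num; linarith only [rg, rg.z0]) (by norm_num) (by norm_num) (by norm_num)
    norm_num at hw
    exact ⟨⟨2264, 2635, 0, 1674, 962, 1469, 4216⟩, by simp [rw1], hw⟩
  · obtain ⟨ry, rz, ru⟩ := tuse hK t rfl rfl o_5zu
      (fun g hg => absurd hg (List.not_mem_nil)) (hK.inH hl k5az_ok)
      (hK.inH hr k2as_ok) OL.z (OR.st (by decide))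
    have hw := win_mk (s0 := 0) rg (ry _ m0) (ry _ m1) (rz _ m0) (ru _ m0) (ru _ m1) (ru _ m2)
      (by norm_num; linarith only [rg, rg.z0]) (by norm_num) (by norm_num) (by norm_num)
    norm_num at hw
    exact ⟨⟨2299, 2635, 0, 1721, 1062, 1469, 4273⟩, by simp [rw1], hw⟩
  · obtain ⟨ry, rz, ru⟩ := tuse hK t rfl rfl o_5su
      (fun g hg => absurd hg (List.not_mem_nil)) (hK.inH hl k6as_ok)
      (hK.inH hr k2as_ok) OL.nil (OR.st (by decide))
    have hw := win_mk (s0 := 0) rg (ry _ m0) (ry _ m1) (rz _ m0) (ru _ m0) (ru _ m1) (ru _ m2)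
      (by norm_num; linarith only [rg, rg.z0]) (by norm_num) (by norm_num) (by norm_num)
    norm_num at hw
    exact ⟨⟨2256, 2649, 0, 1710, 891, 1532, 4291⟩, by simp [rw1], hw⟩

/-- five crossings, absorbed digit `1`, behind it a ring `(1, a)` -/
theorem one5_1a (t : TDt K .s 5 l 1 .a w R k')
    (rg : Rg (yH .s R (Complex.cos w)) (zeta w)) :
    One 5 (decide (l = .e)) .one (yH .s R (Complex.cos w)) (zeta w) := by
  have hl := t.h.ok.left
  have hr := t.h.ok.right.symm
  by_cases hle : l = .e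
  · subst hle
    obtain ⟨ry, rz, ru⟩ := tuse hK t rfl rfl o_5e1a
      (fun g hg => absurd hg (List.not_mem_nil)) (hK.inH hl k6es_ok)
      (hK.inH hr k2as_ok) OL.nil (OR.a1 (by norm_num))
    have hw := win_mk (s0 := 0) rg (ry _ m0) (ry _ m1) (rz _ m0) (ru _ m0) (ru _ m1) (ru _ m2)
      (by norm_num; linarith only [rg, rg.z0]) (by norm_num) (by norm_num) (by norm_num)
    norm_num at hw
    exact ⟨⟨2166, 2524, 0, 1842, 785, 1313, 4318⟩, by simp [rw1], hw⟩
  · rw [decide_eq_false hle]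
    obtain ⟨ry, rz, ru⟩ := tuse hK t rfl rfl o_5h1a
      (fun g hg => absurd hg (List.not_mem_nil)) (in_h6s hK hl hle)
      (hK.inH hr k2as_ok) OL.nil (OR.a1 (by norm_num))
    have hw := win_mk (s0 := 0) rg (ry _ m0) (ry _ m1) (rz _ m0) (ru _ m0) (ru _ m1) (ru _ m2)
      (by norm_num; linarith only [rg, rg.z0]) (by norm_num) (by norm_num) (by norm_num)
    norm_num at hw
    exact ⟨⟨2213, 2654, 0, 1754, 891, 1623, 4359⟩, by simp [rw1], hw⟩

/-- five crossings, absorbed digit `1`, behind it a ring `(1, s)` -/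
theorem one5_1s (t : TDt K .s 5 l 1 .s w R k')
    (rg : Rg (yH .s R (Complex.cos w)) (zeta w)) :
    One 5 (decide (l = .e)) .one (yH .s R (Complex.cos w)) (zeta w) := by
  have hl := t.h.ok.left
  have hr := t.h.ok.right.symm
  by_cases hle : l = .e
  · subst hle
    obtain ⟨ry, rz, ru⟩ := tuse hK t rfl rfl o_5e1s
      (fun g hg => absurd hg (List.not_mem_nil)) (hK.inH hl k6es_ok)
      (hK.inH hr k3ss_ok) OL.nil OR.s
    have hw := win_mk (s0 := 0) rg (ry _ m0) (ry _ m1) (rz _ m0) (ru _ m0) (ru _ m1) (ru _ m2)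
      (by norm_num; linarith only [rg, rg.z0]) (by norm_num) (by norm_num) (by norm_num)
    norm_num at hw
    exact ⟨⟨2335, 2607, 0, 1842, 959, 1252, 4403⟩, by simp [rw1], hw⟩
  · rw [decide_eq_false hle]
    obtain ⟨ry, rz, ru⟩ := tuse hK t rfl rfl o_5h1s
      (fun g hg => absurd hg (List.not_mem_nil)) (in_h6s hK hl hle)
      (hK.inH hr k3ss_ok) OL.nil OR.s
    have hw := win_mk (s0 := 0) rg (ry _ m0) (ry _ m1) (rz _ m0) (ru _ m0) (ru _ m1) (ru _ m2)
      (by norm_num; linarith only [rg, rg.z0]) (by norm_num) (by norm_num) (by norm_num)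
    norm_num at hw
    exact ⟨⟨2393, 2746, 0, 1754, 1073, 1552, 4450⟩, by simp [rw1], hw⟩

/-- five crossings, absorbed digit `1`, behind it a ring `(2, a)` -/
theorem one5_2a (t : TDt K .s 5 l 2 .a w R k')
    (rg : Rg (yH .s R (Complex.cos w)) (zeta w)) :
    One 5 (decide (l = .e)) .two (yH .s R (Complex.cos w)) (zeta w) := by
  have hl := t.h.ok.left
  have hr := t.h.ok.right.symm
  by_cases hle : l = .e
  · subst hle
    obtain ⟨ry, rz, ru⟩ := tuse hK t rfl rfl o_5e2a
      (fun g hg => absurd hg (List.not_mem_nil)) (hK.inH hl k6es_ok)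
      (hK.inH hr k3as_ok) OL.nil OR.a
    have hw := win_mk (s0 := 0) rg (ry _ m0) (ry _ m1) (rz _ m0) (ru _ m0) (ru _ m1) (ru _ m2)
      (by norm_num; linarith only [rg, rg.z0]) (by norm_num) (by norm_num) (by norm_num)
    norm_num at hw
    exact ⟨⟨2499, 2750, 0, 1842, 1034, 1352, 4548⟩, by simp [rw1], hw⟩
  · rw [decide_eq_false hle]
    obtain ⟨ry, rz, ru⟩ := tuse hK t rfl rfl o_5h2a
      (fun g hg => absurd hg (List.not_mem_nil)) (in_h6s hK hl hle)
      (hK.inH hr k3as_ok) OL.nil OR.a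
    have hw := win_mk (s0 := 0) rg (ry _ m0) (ry _ m1) (rz _ m0) (ru _ m0) (ru _ m1) (ru _ m2)
      (by norm_num; linarith only [rg, rg.z0]) (by norm_num) (by norm_num) (by norm_num)
    norm_num at hw
    exact ⟨⟨2563, 2906, 0, 1754, 1151, 1657, 4609⟩, by simp [rw1], hw⟩

/-- five crossings, absorbed digit `1`, behind it a ring `(2, s)` -/
theorem one5_2s (t : TDt K .s 5 l 2 .s w R k')
    (rg : Rg (yH .s R (Complex.cos w)) (zeta w)) :
    One 5 (decide (l = .e)) .two (yH .s R (Complex.cos w)) (zeta w) := by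
  have hl := t.h.ok.left
  have hr := t.h.ok.right.symm
  by_cases hle : l = .e
  · subst hle
    obtain ⟨ry, rz, ru⟩ := tuse hK t rfl rfl o_5e2s
      (fun g hg => absurd hg (List.not_mem_nil)) (hK.inH hl k6es_ok)
      (hK.inH hr k4ss_ok) OL.nil OR.s
    have hw := win_mk (s0 := 0) rg (ry _ m0) (ry _ m1) (rz _ m0) (ru _ m0) (ru _ m1) (ru _ m2)
      (by norm_num; linarith only [rg, rg.z0]) (by norm_num) (by norm_num) (by norm_num)
    norm_num at hw
    exact ⟨⟨2578, 2783, 0, 1842, 1098, 1317, 4580⟩, by simp [rw1], hw⟩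
  · rw [decide_eq_false hle]
    obtain ⟨ry, rz, ru⟩ := tuse hK t rfl rfl o_5h2s
      (fun g hg => absurd hg (List.not_mem_nil)) (in_h6s hK hl hle)
      (hK.inH hr k4ss_ok) OL.nil OR.s
    have hw := win_mk (s0 := 0) rg (ry _ m0) (ry _ m1) (rz _ m0) (ru _ m0) (ru _ m1) (ru _ m2)
      (by norm_num; linarith only [rg, rg.z0]) (by norm_num) (by norm_num) (by norm_num)
    norm_num at hw
    exact ⟨⟨2645, 2942, 0, 1754, 1220, 1615, 4644⟩, by simp [rw1], hw⟩

/-- five crossings, absorbed digit `1`, behind it a ring `(2, e)` -/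
theorem one5_2e (t : TDt K .s 5 l 2 .e w R k')
    (rg : Rg (yH .s R (Complex.cos w)) (zeta w)) :
    One 5 (decide (l = .e)) .twoE (yH .s R (Complex.cos w)) (zeta w) := by
  have hl := t.h.ok.left
  have hr := t.h.ok.right.symm
  by_cases hle : l = .e
  · subst hle
    obtain ⟨ry, rz, ru⟩ := tuse hK t rfl rfl o_5e2e
      (fun g hg => absurd hg (List.not_mem_nil)) (hK.inH hl k6es_ok)
      (hK.inH hr k3es_ok) OL.nil OR.e
    have hw := win_mk (s0 := 0) rg (ry _ m0) (ry _ m1) (rz _ m0) (ru _ m0) (ru _ m1) (ru _ m2)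
      (by norm_num; linarith only [rg, rg.z0]) (by norm_num) (by norm_num) (by norm_num)
    norm_num at hw
    exact ⟨⟨2389, 2480, 0, 1842, 1375, 1521, 4284⟩, by simp [rw1], hw⟩
  · rw [decide_eq_false hle]
    obtain ⟨ry, rz, ru⟩ := tuse hK t rfl rfl o_5h2e
      (fun g hg => absurd hg (List.not_mem_nil)) (in_h6s hK hl hle)
      (hK.inH hr k3es_ok) OL.nil OR.e
    have hw := win_mk (s0 := 0) rg (ry _ m0) (ry _ m1) (rz _ m0) (ru _ m0) (ru _ m1) (ru _ m2)
      (by norm_num; linarith only [rg, rg.z0]) (by norm_num) (by norm_num) (by norm_num)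
    norm_num at hw
    exact ⟨⟨2442, 2609, 0, 1754, 1503, 1842, 4325⟩, by simp [rw1], hw⟩

end

/-- a row for the hinges with real part at least `26 / 100` -/
theorem q_ge {K : KFam} (hK : KOK K) {x : SK} {d : ℕ} {l : SK} {d' : ℕ} {l' : SK} {w R k' : ℂ}
    (t : TDt K x d l d' l' w R k') {B' : ℕ} (hB' : crs d' x l' = B') {o : List QC}
    {o' : List QC} {L' : List Grp} {m : ℕ} {a b cq : ℤ} {n code : ℕ}
    (hr : trowOk x [.arc 2600 m a b] o [] o' L' [] [] [.hi (-1000) cq] n code = true)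
    (ho : InH (K.K d l x) o) (ho' : InH (K.K d' l' x) o') (hL' : OR x d' B' l' L')
    (h1 : 26 / 100 ≤ (yH x R (Complex.cos w)).re) (h2 : (yH x R (Complex.cos w)).re ≤ 2 / 5)
    (hm : 4000 ≤ m) : 1 / 10 ≤ (zeta w).im - (yH x R (Complex.cos w)).im := by
  have hm' : (4000 : ℝ) ≤ m := by exact_mod_cast hm
  obtain ⟨-, -, ru⟩ := tuse hK t rfl hB' hr (fun g hg => by
    rw [List.mem_singleton] at hg
    subst hg
    exact ⟨by norm_num; linarith only [h1], by linarith only [h2, hm']⟩) ho ho' OL.nil hL'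
  have g : _ ≤ ((-1000 : ℤ) : ℝ) / 10000 := ru _ (List.mem_cons_self)
  rw [Complex.sub_im] at g
  norm_num at g
  linarith only [g]

/-- **At least six crossings next to a digit `1`.** -/
theorem one6 {K : KFam} (hK : KOK K) {x : SK} {d : ℕ} {l : SK} {d' : ℕ} {l' : SK} {w R k' : ℂ}
    (t : TDt K x d l d' l' w R k') (h6 : 6 ≤ d) (hx : (x = .a ∧ d' = 1) ∨ x = .s)
    (h1 : 26 / 100 ≤ (yH x R (Complex.cos w)).re) (h2 : (yH x R (Complex.cos w)).re ≤ 2 / 5) :
    1 / 10 ≤ (zeta w).im - (yH x R (Complex.cos w)).im := by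
  have hl := t.h.ok.left
  have hr := t.h.ok.right.symm
  rcases hx with ⟨rfl, rfl⟩ | rfl
  · have hs := far_s t.h.ok.right
    subst hs
    by_cases hle : l = .e
    · subst hle
      exact q_ge hK t rfl o_6w (in_oN6e hK hl h6) (hK.inH hr k2as_ok) (OR.st (by decide)) h1 h2
        (by norm_num)
    · exact q_ge hK t rfl o_6u (in_oN6a hK hl h6 hle) (hK.inH hr k2as_ok) (OR.st (by decide)) h1
        h2 (by norm_num)
  · have hd : d' = 1 ∨ d' = 2 := by
      have h3 := t.h.ok.one rfl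
      have h4 := hr.pos
      omega
    have hz : l' ≠ .z := fun h5 => by
      have := hr.zl h5
      omega
    by_cases hle : l = .e
    · subst hle
      have ho := in_oN7f hK hl h6
      rcases hd with rfl | rfl
      · cases l'
        · exact absurd rfl (hr.one rfl).2.1
        · exact q_ge hK t rfl o_6f1a ho (hK.inH hr k2as_ok) (OR.a1 (by norm_num)) h1 h2
            (by norm_num)
        · exact absurd rfl hz
        · exact q_ge hK t rfl o_6f1s ho (hK.inH hr k3ss_ok) OR.s h1 h2 (by norm_num)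
      · cases l'
        · exact q_ge hK t rfl o_6f2e ho (hK.inH hr k3es_ok) OR.e h1 h2 (by norm_num)
        · exact q_ge hK t rfl o_6f2a ho (hK.inH hr k3as_ok) OR.a h1 h2 (by norm_num)
        · exact absurd rfl hz
        · exact q_ge hK t rfl o_6f2s ho (hK.inH hr k4ss_ok) OR.s h1 h2 (by norm_num)
    · have ho := in_oN7s hK hl h6 hle
      rcases hd with rfl | rfl
      · cases l'
        · exact absurd rfl (hr.one rfl).2.1
        · exact q_ge hK t rfl o_6s1a ho (hK.inH hr k2as_ok) (OR.a1 (by norm_num)) h1 h2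
            (by norm_num)
        · exact absurd rfl hz
        · exact q_ge hK t rfl o_6s1s ho (hK.inH hr k3ss_ok) OR.s h1 h2 (by norm_num)
      · cases l'
        · exact q_ge hK t rfl o_6s2e ho (hK.inH hr k3es_ok) OR.e h1 h2 (by norm_num)
        · exact q_ge hK t rfl o_6s2a ho (hK.inH hr k3as_ok) OR.a h1 h2 (by norm_num)
        · exact absurd rfl hz
        · exact q_ge hK t rfl o_6s2s ho (hK.inH hr k4ss_ok) OR.s h1 h2 (by norm_num)

end

end Pool.Agent.Work.MP_b30479_gtS.G2.CN.TD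

end

section

/-!
# Further windows of the rings: the height over a hinge next to a digit `1`
-/

namespace Pool.Agent.Work.MP_b30479_gtS.G2.CN.TD

open Complex SR

noncomputable section

/-- a row for the hinges with real part at least a bound -/
theorem q_ge' {K : KFam} (hK : KOK K) {x : SK} {d : ℕ} {l : SK} {d' : ℕ} {l' : SK} {w R k' : ℂ}
    (t : TDt K x d l d' l' w R k') {B B' : ℕ} (hB : crs d l x = B) (hB' : crs d' x l' = B')
    {o : List QC} {L : List Grp} {o' : List QC} {L' : List Grp} {n0 m : ℕ} {a b mq cq : ℤ}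
    {n code : ℕ}
    (hr : trowOk x [.arc n0 m a b] o L o' L' [] [] [.hi mq cq] n code = true)
    (ho : InH (K.K d l x) o) (ho' : InH (K.K d' l' x) o') (hL : OL d B l L)
    (hL' : OR x d' B' l' L') (h1 : (n0 : ℝ) / 10000 ≤ (yH x R (Complex.cos w)).re)
    (h2 : (yH x R (Complex.cos w)).re ≤ (m : ℝ) / 10000) :
    -(mq : ℝ) / 10000 ≤ (zeta w).im - (yH x R (Complex.cos w)).im := by
  obtain ⟨-, -, ru⟩ := tuse hK t hB hB' hr (ui_arc h1 h2) ho ho' hL hL'
  have g : _ ≤ (mq : ℝ) / 10000 := ru _ (List.mem_cons_self)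
  rw [Complex.sub_im] at g
  rw [neg_div]
  linarith only [g]

/-- upper bound of the real part and lower bound of the height from a row -/
lemma xq_of {x : SK} {w R : ℂ} {x1 m1 : ℕ} {a1 b1 mq cq : ℤ}
    (rg : Rg (yH x R (Complex.cos w)) (zeta w))
    (ry : (GC.arc x1 m1 a1 b1).P (yH x R (Complex.cos w)))
    (ru : (GC.hi mq cq).P (yH x R (Complex.cos w) - zeta w)) (h1 : 4000 ≤ m1) :
    (yH x R (Complex.cos w)).re ≤ (x1 : ℝ) / 10000 ∧
      -(mq : ℝ) / 10000 ≤ (zeta w).im - (yH x R (Complex.cos w)).im := by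
  have m1' : (4000 : ℝ) ≤ m1 := by exact_mod_cast h1
  have g1 := arc_ub ry (by linarith only [m1', rg, rg.y1])
  have g : _ ≤ (mq : ℝ) / 10000 := ru
  rw [Complex.sub_im] at g
  refine ⟨g1.le, ?_⟩
  rw [neg_div]
  linarith only [g]

section
variable {K : KFam} (hK : KOK K) {l : SK} {d' : ℕ} {l' : SK} {w R k' : ℂ}
include hK

/-- digit `1` not absorbed -/
theorem qs_u (t : TDt K .a 4 l 1 l' w R k') (hl' : l ≠ .e)
    (rg : Rg (yH .a R (Complex.cos w)) (zeta w)) :
    QS (yH .a R (Complex.cos w)) (zeta w) := by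
  have hs := far_s t.h.ok.right
  subst hs
  have hl := t.h.ok.left
  have hr := t.h.ok.right.symm
  have y1 := rg.y1
  cases l
  · exact absurd rfl hl'
  · obtain ⟨ry, rz, ru⟩ := tuse hK t rfl rfl o_4au mn
      (hK.inH hl k4aa_ok) (hK.inH hr k2as_ok) OL.a (OR.st (by decide))
    obtain ⟨hx, hq⟩ := xq_of rg (ry _ m1) (ru _ m2) (by norm_num)
    norm_num at hx hq
    refine ⟨fun h => ?_, fun h => ?_, fun h => ?_, fun h => ?_, fun h => ?_⟩
    · have g := q_ge' hK t rfl rfl q_au (hK.inH hl k4aa_ok) (hK.inH hr k2as_ok) OL.a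
        (OR.st (by decide)) (by norm_num; linarith only [h]) (by norm_num; linarith only [hx])
      norm_num at g
      linarith only [g]
    · linarith only [hx, h]
    · linarith only [hx, h]
    · linarith only [hx, h]
    · linarith only [hx, h]
  · obtain ⟨ry, rz, ru⟩ := tuse hK t rfl rfl o_4zu mn
      (hK.inH hl k4az_ok) (hK.inH hr k2as_ok) OL.z (OR.st (by decide))
    obtain ⟨hx, hq⟩ := xq_of rg (ry _ m1) (ru _ m2) (by norm_num)
    norm_num at hx hq
    refine ⟨fun h => ?_, fun h => ?_, fun h => ?_, fun h => ?_, fun h => ?_⟩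
    · have g := q_ge' hK t rfl rfl q_zu (hK.inH hl k4az_ok) (hK.inH hr k2as_ok) OL.z
        (OR.st (by decide)) (by norm_num; linarith only [h]) (by norm_num; linarith only [hx])
      norm_num at g
      linarith only [g]
    · linarith only [hx, h]
    · linarith only [hx, h]
    · linarith only [hx, h]
    · linarith only [hx, h]
  · obtain ⟨ry, rz, ru⟩ := tuse hK t rfl rfl o_4su mn
      (hK.inH hl k5as_ok) (hK.inH hr k2as_ok) (OL.s (by norm_num)) (OR.st (by decide))
    obtain ⟨hx, hq⟩ := xq_of rg (ry _ m1) (ru _ m2) (by norm_num)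
    norm_num at hx hq
    refine ⟨fun h => ?_, fun h => ?_, fun h => ?_, fun h => ?_, fun h => ?_⟩
    · have g := q_ge' hK t rfl rfl q_su (hK.inH hl k5as_ok) (hK.inH hr k2as_ok) (OL.s (by norm_num))
        (OR.st (by decide)) (by norm_num; linarith only [h]) (by norm_num; linarith only [hx])
      norm_num at g
      linarith only [g]
    · linarith only [hx, h]
    · linarith only [hx, h]
    · linarith only [hx, h]
    · linarith only [hx, h]

/-- absorbed digit `1`, behind it a ring `(1, a)` -/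
theorem qs_1a (t : TDt K .s 4 l 1 .a w R k') (hl' : l ≠ .e)
    (rg : Rg (yH .s R (Complex.cos w)) (zeta w)) :
    QS (yH .s R (Complex.cos w)) (zeta w) := by
  have hl := t.h.ok.left
  have hr := t.h.ok.right.symm
  have y1 := rg.y1
  cases l
  · exact absurd rfl hl'
  · obtain ⟨ry, rz, ru⟩ := tuse hK t rfl rfl o_4a1a mn
      (hK.inH hl k5as_ok) (hK.inH hr k2as_ok) OL.a (OR.a1 (by norm_num))
    obtain ⟨hx, hq⟩ := xq_of rg (ry _ m1) (ru _ m2) (by norm_num)
    norm_num at hx hq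
    refine ⟨fun h => ?_, fun h => ?_, fun h => ?_, fun h => ?_, fun h => ?_⟩
    · have g := q_ge' hK t rfl rfl q_a1a (hK.inH hl k5as_ok) (hK.inH hr k2as_ok) OL.a
        (OR.a1 (by norm_num)) (by norm_num; linarith only [h]) (by norm_num; linarith only [hx])
      norm_num at g
      linarith only [g]
    · linarith only [hx, h]
    · linarith only [hx, h]
    · linarith only [hx, h]
    · linarith only [hx, h]
  · obtain ⟨ry, rz, ru⟩ := tuse hK t rfl rfl o_4z1a mn
      (hK.inH hl k5zs_ok) (hK.inH hr k2as_ok) OL.z (OR.a1 (by norm_num))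
    obtain ⟨hx, hq⟩ := xq_of rg (ry _ m1) (ru _ m2) (by norm_num)
    norm_num at hx hq
    refine ⟨fun h => ?_, fun h => ?_, fun h => ?_, fun h => ?_, fun h => ?_⟩
    · have g := q_ge' hK t rfl rfl q_z1a (hK.inH hl k5zs_ok) (hK.inH hr k2as_ok) OL.z
        (OR.a1 (by norm_num)) (by norm_num; linarith only [h]) (by norm_num; linarith only [hx])
      norm_num at g
      linarith only [g]
    · linarith only [hx, h]
    · linarith only [hx, h]
    · linarith only [hx, h]
    · linarith only [hx, h]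
  · obtain ⟨ry, rz, ru⟩ := tuse hK t rfl rfl o_4s1a mn
      (hK.inH hl k6ss_ok) (hK.inH hr k2as_ok) OL.nil (OR.a1 (by norm_num))
    obtain ⟨hx, hq⟩ := xq_of rg (ry _ m1) (ru _ m2) (by norm_num)
    norm_num at hx hq
    refine ⟨fun h => ?_, fun h => ?_, fun h => ?_, fun h => ?_, fun h => ?_⟩
    · have g := q_ge' hK t rfl rfl q_s1a (hK.inH hl k6ss_ok) (hK.inH hr k2as_ok) OL.nil
        (OR.a1 (by norm_num)) (by norm_num; linarith only [h]) (by norm_num; linarith only [hx])
      norm_num at g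
      linarith only [g]
    · linarith only [hx, h]
    · linarith only [hx, h]
    · linarith only [hx, h]
    · linarith only [hx, h]

/-- absorbed digit `1`, behind it a ring `(1, s)` -/
theorem qs_1s (t : TDt K .s 4 l 1 .s w R k') (hl' : l ≠ .e)
    (rg : Rg (yH .s R (Complex.cos w)) (zeta w)) :
    QS (yH .s R (Complex.cos w)) (zeta w) := by
  have hl := t.h.ok.left
  have hr := t.h.ok.right.symm
  have y1 := rg.y1
  cases l
  · exact absurd rfl hl'
  · obtain ⟨ry, rz, ru⟩ := tuse hK t rfl rfl o_4a1s mn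
      (hK.inH hl k5as_ok) (hK.inH hr k3ss_ok) OL.a OR.s
    obtain ⟨hx, hq⟩ := xq_of rg (ry _ m1) (ru _ m2) (by norm_num)
    norm_num at hx hq
    refine ⟨fun h => ?_, fun h => ?_, fun h => ?_, fun h => ?_, fun h => ?_⟩
    · linarith only [hq]
    · have g := q_ge' hK t rfl rfl q7_a1s (hK.inH hl k5as_ok) (hK.inH hr k3ss_ok) OL.a
        OR.s (by norm_num; linarith only [h]) (by norm_num; linarith only [hx])
      norm_num at g
      linarith only [g]
    · linarith only [hx, h]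
    · linarith only [hx, h]
    · linarith only [hx, h]
  · obtain ⟨ry, rz, ru⟩ := tuse hK t rfl rfl o_4z1s mn
      (hK.inH hl k5zs_ok) (hK.inH hr k3ss_ok) OL.z OR.s
    obtain ⟨hx, hq⟩ := xq_of rg (ry _ m1) (ru _ m2) (by norm_num)
    norm_num at hx hq
    refine ⟨fun h => ?_, fun h => ?_, fun h => ?_, fun h => ?_, fun h => ?_⟩
    · linarith only [hq]
    · have g := q_ge' hK t rfl rfl q7_z1s (hK.inH hl k5zs_ok) (hK.inH hr k3ss_ok) OL.z
        OR.s (by norm_num; linarith only [h]) (by norm_num; linarith only [hx])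
      norm_num at g
      linarith only [g]
    · linarith only [hx, h]
    · linarith only [hx, h]
    · linarith only [hx, h]
  · obtain ⟨ry, rz, ru⟩ := tuse hK t rfl rfl o_4s1s mn
      (hK.inH hl k6ss_ok) (hK.inH hr k3ss_ok) OL.nil OR.s
    obtain ⟨hx, hq⟩ := xq_of rg (ry _ m1) (ru _ m2) (by norm_num)
    norm_num at hx hq
    refine ⟨fun h => ?_, fun h => ?_, fun h => ?_, fun h => ?_, fun h => ?_⟩
    · have g := q_ge' hK t rfl rfl q_s1s (hK.inH hl k6ss_ok) (hK.inH hr k3ss_ok) OL.nil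
        OR.s (by norm_num; linarith only [h]) (by norm_num; linarith only [hx])
      norm_num at g
      linarith only [g]
    · have g := q_ge' hK t rfl rfl q7_s1s (hK.inH hl k6ss_ok) (hK.inH hr k3ss_ok) OL.nil
        OR.s (by norm_num; linarith only [h]) (by norm_num; linarith only [hx])
      norm_num at g
      linarith only [g]
    · linarith only [hx, h]
    · linarith only [hx, h]
    · linarith only [hx, h]

/-- absorbed digit `1`, behind it a ring `(2, a)` -/
theorem qs_2a (t : TDt K .s 4 l 2 .a w R k') (hl' : l ≠ .e) (h3 : (acot2 (Sp R k')).re < 1 / 2)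
    (rg : Rg (yH .s R (Complex.cos w)) (zeta w)) :
    QS (yH .s R (Complex.cos w)) (zeta w) := by
  have hl := t.h.ok.left
  have hr := t.h.ok.right.symm
  have y1 := rg.y1
  cases l
  · exact absurd rfl hl'
  · obtain ⟨ry, rz, ru, -⟩ := tuseV hK t h3 rfl rfl o_4a2a mn
      (hK.inH hl k5as_ok) (hK.inH hr k3as_ok) OL.a OR.a
    obtain ⟨hx, hq⟩ := xq_of rg (ry _ m1) (ru _ m2) (by norm_num)
    norm_num at hx hq
    refine ⟨fun h => ?_, fun h => ?_, fun h => ?_, fun h => ?_, fun h => ?_⟩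
    · linarith only [hq]
    · linarith only [hq]
    · have g := q_ge' hK t rfl rfl q8_a2a (hK.inH hl k5as_ok) (hK.inH hr k3as_ok) OL.a
        OR.a (by norm_num; linarith only [h]) (by norm_num; linarith only [hx])
      norm_num at g
      linarith only [g]
    · have g := q_ge' hK t rfl rfl q85_a2a (hK.inH hl k5as_ok) (hK.inH hr k3as_ok) OL.a
        OR.a (by norm_num; linarith only [h]) (by norm_num; linarith only [hx])
      norm_num at g
      linarith only [g]
    · have g := q_ge' hK t rfl rfl q9_a2a (hK.inH hl k5as_ok) (hK.inH hr k3as_ok) OL.a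
        OR.a (by norm_num; linarith only [h]) (by norm_num; linarith only [hx])
      norm_num at g
      linarith only [g]
  · obtain ⟨ry, rz, ru, -⟩ := tuseV hK t h3 rfl rfl o_4z2a mn
      (hK.inH hl k5zs_ok) (hK.inH hr k3as_ok) OL.z OR.a
    obtain ⟨hx, hq⟩ := xq_of rg (ry _ m1) (ru _ m2) (by norm_num)
    norm_num at hx hq
    refine ⟨fun h => ?_, fun h => ?_, fun h => ?_, fun h => ?_, fun h => ?_⟩
    · linarith only [hq]
    · linarith only [hq]
    · have g := q_ge' hK t rfl rfl q8_z2a (hK.inH hl k5zs_ok) (hK.inH hr k3as_ok) OL.z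
        OR.a (by norm_num; linarith only [h]) (by norm_num; linarith only [hx])
      norm_num at g
      linarith only [g]
    · have g := q_ge' hK t rfl rfl q85_z2a (hK.inH hl k5zs_ok) (hK.inH hr k3as_ok) OL.z
        OR.a (by norm_num; linarith only [h]) (by norm_num; linarith only [hx])
      norm_num at g
      linarith only [g]
    · have g := q_ge' hK t rfl rfl q9_z2a (hK.inH hl k5zs_ok) (hK.inH hr k3as_ok) OL.z
        OR.a (by norm_num; linarith only [h]) (by norm_num; linarith only [hx])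
      norm_num at g
      linarith only [g]
  · obtain ⟨ry, rz, ru, -⟩ := tuseV hK t h3 rfl rfl o_4s2a mn
      (hK.inH hl k6ss_ok) (hK.inH hr k3as_ok) OL.nil OR.a
    obtain ⟨hx, hq⟩ := xq_of rg (ry _ m1) (ru _ m2) (by norm_num)
    norm_num at hx hq
    refine ⟨fun h => ?_, fun h => ?_, fun h => ?_, fun h => ?_, fun h => ?_⟩
    · linarith only [hq]
    · have g := q_ge' hK t rfl rfl q7_s2a (hK.inH hl k6ss_ok) (hK.inH hr k3as_ok) OL.nil
        OR.a (by norm_num; linarith only [h]) (by norm_num; linarith only [hx])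
      norm_num at g
      linarith only [g]
    · have g := q_ge' hK t rfl rfl q8_s2a (hK.inH hl k6ss_ok) (hK.inH hr k3as_ok) OL.nil
        OR.a (by norm_num; linarith only [h]) (by norm_num; linarith only [hx])
      norm_num at g
      linarith only [g]
    · have g := q_ge' hK t rfl rfl q85_s2a (hK.inH hl k6ss_ok) (hK.inH hr k3as_ok) OL.nil
        OR.a (by norm_num; linarith only [h]) (by norm_num; linarith only [hx])
      norm_num at g
      linarith only [g]
    · have g := q_ge' hK t rfl rfl q9_s2a (hK.inH hl k6ss_ok) (hK.inH hr k3as_ok) OL.nil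
        OR.a (by norm_num; linarith only [h]) (by norm_num; linarith only [hx])
      norm_num at g
      linarith only [g]

/-- absorbed digit `1`, behind it a ring `(2, s)` -/
theorem qs_2s (t : TDt K .s 4 l 2 .s w R k') (hl' : l ≠ .e) (h3 : (acot2 (Sp R k')).re < 1 / 2)
    (rg : Rg (yH .s R (Complex.cos w)) (zeta w)) :
    QS (yH .s R (Complex.cos w)) (zeta w) := by
  have hl := t.h.ok.left
  have hr := t.h.ok.right.symm
  have y1 := rg.y1
  cases l
  · exact absurd rfl hl'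
  · obtain ⟨ry, rz, ru, -⟩ := tuseV hK t h3 rfl rfl o_4a2s mn
      (hK.inH hl k5as_ok) (hK.inH hr k4ss_ok) OL.a OR.s
    obtain ⟨hx, hq⟩ := xq_of rg (ry _ m1) (ru _ m2) (by norm_num)
    norm_num at hx hq
    refine ⟨fun h => ?_, fun h => ?_, fun h => ?_, fun h => ?_, fun h => ?_⟩
    · linarith only [hq]
    · linarith only [hq]
    · linarith only [hq]
    · have g := q_ge' hK t rfl rfl q85_a2s (hK.inH hl k5as_ok) (hK.inH hr k4ss_ok) OL.a
        OR.s (by norm_num; linarith only [h]) (by norm_num; linarith only [hx])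
      norm_num at g
      linarith only [g]
    · have g := q_ge' hK t rfl rfl q9_a2s (hK.inH hl k5as_ok) (hK.inH hr k4ss_ok) OL.a
        OR.s (by norm_num; linarith only [h]) (by norm_num; linarith only [hx])
      norm_num at g
      linarith only [g]
  · obtain ⟨ry, rz, ru, -⟩ := tuseV hK t h3 rfl rfl o_4z2s mn
      (hK.inH hl k5zs_ok) (hK.inH hr k4ss_ok) OL.z OR.s
    obtain ⟨hx, hq⟩ := xq_of rg (ry _ m1) (ru _ m2) (by norm_num)
    norm_num at hx hq
    refine ⟨fun h => ?_, fun h => ?_, fun h => ?_, fun h => ?_, fun h => ?_⟩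
    · linarith only [hq]
    · linarith only [hq]
    · linarith only [hq]
    · have g := q_ge' hK t rfl rfl q85_z2s (hK.inH hl k5zs_ok) (hK.inH hr k4ss_ok) OL.z
        OR.s (by norm_num; linarith only [h]) (by norm_num; linarith only [hx])
      norm_num at g
      linarith only [g]
    · have g := q_ge' hK t rfl rfl q9_z2s (hK.inH hl k5zs_ok) (hK.inH hr k4ss_ok) OL.z
        OR.s (by norm_num; linarith only [h]) (by norm_num; linarith only [hx])
      norm_num at g
      linarith only [g]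
  · obtain ⟨ry, rz, ru, -⟩ := tuseV hK t h3 rfl rfl o_4s2s mn
      (hK.inH hl k6ss_ok) (hK.inH hr k4ss_ok) OL.nil OR.s
    obtain ⟨hx, hq⟩ := xq_of rg (ry _ m1) (ru _ m2) (by norm_num)
    norm_num at hx hq
    refine ⟨fun h => ?_, fun h => ?_, fun h => ?_, fun h => ?_, fun h => ?_⟩
    · linarith only [hq]
    · linarith only [hq]
    · have g := q_ge' hK t rfl rfl q8_s2s (hK.inH hl k6ss_ok) (hK.inH hr k4ss_ok) OL.nil
        OR.s (by norm_num; linarith only [h]) (by norm_num; linarith only [hx])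
      norm_num at g
      linarith only [g]
    · have g := q_ge' hK t rfl rfl q85_s2s (hK.inH hl k6ss_ok) (hK.inH hr k4ss_ok) OL.nil
        OR.s (by norm_num; linarith only [h]) (by norm_num; linarith only [hx])
      norm_num at g
      linarith only [g]
    · have g := q_ge' hK t rfl rfl q9_s2s (hK.inH hl k6ss_ok) (hK.inH hr k4ss_ok) OL.nil
        OR.s (by norm_num; linarith only [h]) (by norm_num; linarith only [hx])
      norm_num at g
      linarith only [g]

/-- absorbed digit `1`, behind it a ring `(2, e)` -/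
theorem qs_2e (t : TDt K .s 4 l 2 .e w R k') (hl' : l ≠ .e)
    (rg : Rg (yH .s R (Complex.cos w)) (zeta w)) :
    QS (yH .s R (Complex.cos w)) (zeta w) := by
  have hl := t.h.ok.left
  have hr := t.h.ok.right.symm
  have y1 := rg.y1
  cases l
  · exact absurd rfl hl'
  · obtain ⟨ry, rz, ru⟩ := tuse hK t rfl rfl o_4a2e mn
      (hK.inH hl k5as_ok) (hK.inH hr k3es_ok) OL.a OR.e
    obtain ⟨hx, hq⟩ := xq_of rg (ry _ m1) (ru _ m2) (by norm_num)
    norm_num at hx hq
    refine ⟨fun h => ?_, fun h => ?_, fun h => ?_, fun h => ?_, fun h => ?_⟩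
    · linarith only [hq]
    · linarith only [hx, h]
    · linarith only [hx, h]
    · linarith only [hx, h]
    · linarith only [hx, h]
  · obtain ⟨ry, rz, ru⟩ := tuse hK t rfl rfl o_4z2e mn
      (hK.inH hl k5zs_ok) (hK.inH hr k3es_ok) OL.z OR.e
    obtain ⟨hx, hq⟩ := xq_of rg (ry _ m1) (ru _ m2) (by norm_num)
    norm_num at hx hq
    refine ⟨fun h => ?_, fun h => ?_, fun h => ?_, fun h => ?_, fun h => ?_⟩
    · linarith only [hq]
    · linarith only [hx, h]
    · linarith only [hx, h]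
    · linarith only [hx, h]
    · linarith only [hx, h]
  · obtain ⟨ry, rz, ru⟩ := tuse hK t rfl rfl o_4s2e mn
      (hK.inH hl k6ss_ok) (hK.inH hr k3es_ok) OL.nil OR.e
    obtain ⟨hx, hq⟩ := xq_of rg (ry _ m1) (ru _ m2) (by norm_num)
    norm_num at hx hq
    refine ⟨fun h => ?_, fun h => ?_, fun h => ?_, fun h => ?_, fun h => ?_⟩
    · linarith only [hq]
    · linarith only [hx, h]
    · linarith only [hx, h]
    · linarith only [hx, h]
    · linarith only [hx, h]

end

end

end Pool.Agent.Work.MP_b30479_gtS.G2.CN.TD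

end
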