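import Pool.Agent.Work.MP_b30479_gt.TBS.G2.CN.TUse
import Pool.Agent.Work.MP_b30479_gt.TBS.G2.CN.TGoal
import Pool.Agent.Work.MP_b30479_gt.TBS.G2.CN.TUt
import Pool.Agent.Work.MP_b30479_gt.TBS.G2.CN.TDatg
import Pool.Agent.Work.MP_b30479_gt.TBS.G2.CN.TDatc

section

/-!
# Rows with the hinge on the other side

A ring with the digit `4`, the hinge of kind `x` at one side with the variable `R`, the hinge of
kind `l` at the other side.  `tLx`: the exponential of the other hinge, `tMx`: the exponential of the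
other hinge minus the ring variable.
-/

namespace Pool.Agent.Work.MP_b30479_gtS.G2.CN.TD

open Complex SR Ev

noncomputable section

lemma val_tl6 (u w : ℂ) : 2 * tl6.val u w = DB I 6 u (w ^ 2 + 1) := by
  change 2 * (gz 0 0 2 0 * u * ((3 : ℕ) * (w ^ 2) ^ 2 - (10 : ℕ) * w ^ 2 + gz 3 0 0 0) +
    (w ^ 2 - one.val u w) * ((w ^ 2) ^ 2 - (14 : ℕ) * w ^ 2 + one.val u w)) = _
  rw [gz_nat, gz_I, val_one]
  simp only [DB, cab]
  push_cast
  ring

/-! ### the exponential of the other hinge -/

lemma val_q {E : Ev} (u w : ℂ) : (Ev.mul tq E).val u w = (w ^ 2 + 1) * E.val u w := by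
  change tq.val u w * E.val u w = _
  rw [val_tq]

lemma val_neg1 {E : Ev} (u w : ℂ) : (Ev.gm 0 1 0 0 E).val u w = -E.val u w := by
  change gz 0 1 0 0 * E.val u w = _
  have h : gz 0 1 0 0 = -1 := by
    apply Complex.ext <;> simp [gz]
  rw [h]
  ring

/-- the other hinge, unsplit -/
lemma left_u {E Yl R T : ℂ} (hE : E * (Yl - I) = Yl + I) (hT : T ≠ 0)
    (h : RE I 4 Yl R T) :
    E * -(tl5.val R T) = (T ^ 2 + 1) * tl3.val R T := by
  have h1 := RE_lin (q := T ^ 2 + 1) Complex.I_mul_I hT (by ring) h.symm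
  have e5 := val_tl5 R T
  have e3 := val_tl3 R T
  simp only [DB, cab] at h1 e5 e3
  have f5 : tl5.val R T = I * R * (T ^ 4 - 10 * T ^ 2 + 5) - (5 * T ^ 4 - 10 * T ^ 2 + 1) := by
    apply mul_left_cancel₀ (two_ne_zero : (2 : ℂ) ≠ 0)
    rw [e5]
    ring
  have f3 : tl3.val R T = I * R * (3 - T ^ 2) - (1 - 3 * T ^ 2) := by
    apply mul_left_cancel₀ (two_ne_zero : (2 : ℂ) ≠ 0)
    rw [e3]
    ring
  rw [f5, f3]
  set D : ℂ := (T ^ 4 - 6 * T ^ 2 + 1) - R * (I * (4 - 4 * T ^ 2)) with hD
  set N : ℂ := T ^ 2 * (I * (4 - 4 * T ^ 2)) - R * (T ^ 4 - 6 * T ^ 2 + 1) with hN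
  have h2 : Yl * D = N := by
    rw [hD, hN]
    linear_combination h1
  have h3 : E * (N - I * D) = N + I * D := by
    rw [← h2]
    linear_combination D * hE
  have h4 : N - I * D =
      I * (I * R * (T ^ 4 - 10 * T ^ 2 + 5) - (5 * T ^ 4 - 10 * T ^ 2 + 1)) := by
    rw [hD, hN]
    linear_combination (R * (4 - 4 * T ^ 2) - R * (T ^ 4 - 10 * T ^ 2 + 5)) * Complex.I_mul_I
  have h5 : N + I * D = -I * ((T ^ 2 + 1) * (I * R * (3 - T ^ 2) - (1 - 3 * T ^ 2))) := by
    rw [hD, hN]
    linear_combination (-R * (4 - 4 * T ^ 2) + (T ^ 2 + 1) * R * (3 - T ^ 2)) * Complex.I_mul_I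
  rw [h4, h5] at h3
  apply mul_left_cancel₀ Complex.I_ne_zero
  linear_combination -h3

/-- the other hinge, the first hinge split -/
lemma left_s {E Yl R k T : ℂ} (hE : E * (Yl - I) = Yl + I) (hT : T ≠ 0) (hRI : R + I ≠ 0)
    (hk : T ^ 2 + 1 = 1 / k ^ 2) (h : RE I 4 Yl (Sp R k) T) :
    E * -(tl6.val R T) = (T ^ 2 + 1) * tl4.val R T := by
  have h1 := RE_lin (q := T ^ 2 + 1) Complex.I_mul_I hT (by ring) h.symm
  have e6 := val_tl6 R T
  have e4 := val_tl4 R T
  have hS : Sp R k * (R + I) = I * R + T ^ 2 := by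
    unfold Sp
    rw [div_mul_cancel₀ _ hRI, ← hk]
    ring
  simp only [DB, cab] at h1 e6 e4
  have f6 : tl6.val R T = I * R * (6 * T ^ 4 - 20 * T ^ 2 + 6) -
      (1 - 15 * T ^ 2 + 15 * T ^ 4 - T ^ 6) := by
    apply mul_left_cancel₀ (two_ne_zero : (2 : ℂ) ≠ 0)
    rw [e6]
    ring
  have f4 : tl4.val R T = I * R * (4 - 4 * T ^ 2) - (1 - 6 * T ^ 2 + T ^ 4) := by
    apply mul_left_cancel₀ (two_ne_zero : (2 : ℂ) ≠ 0)
    rw [e4]
    ring
  rw [f6, f4]
  set S := Sp R k
  set D : ℂ := (R + I) * (T ^ 4 - 6 * T ^ 2 + 1) - (I * R + T ^ 2) * (I * (4 - 4 * T ^ 2)) with hD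
  set N : ℂ := (R + I) * (T ^ 2 * (I * (4 - 4 * T ^ 2))) -
    (I * R + T ^ 2) * (T ^ 4 - 6 * T ^ 2 + 1) with hN
  have h2 : Yl * D = N := by
    rw [hD, hN]
    linear_combination (R + I) * h1 + (Yl * I * (4 - 4 * T ^ 2) - (T ^ 4 - 6 * T ^ 2 + 1)) * hS
  have h3 : E * (N - I * D) = N + I * D := by
    rw [← h2]
    linear_combination D * hE
  have h4 : N - I * D = -(I * R * (6 * T ^ 4 - 20 * T ^ 2 + 6) -
      (1 - 15 * T ^ 2 + 15 * T ^ 4 - T ^ 6)) := by
    rw [hD, hN]
    linear_combination (R * (4 - 4 * T ^ 2) * I + (2 * T ^ 2 * (4 - 4 * T ^ 2) -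
      (T ^ 4 - 6 * T ^ 2 + 1))) * Complex.I_mul_I
  have h5 : N + I * D = (T ^ 2 + 1) * (I * R * (4 - 4 * T ^ 2) - (1 - 6 * T ^ 2 + T ^ 4)) := by
    rw [hD, hN]
    linear_combination (-R * (4 - 4 * T ^ 2) * I + (T ^ 4 - 6 * T ^ 2 + 1)) * Complex.I_mul_I
  rw [h4, h5] at h3
  linear_combination h3

/-! ### rows -/

/-- the data of a ring with the digit `4` -/
structure LDt (K : KFam) (l x : SK) (dl : ℕ) (ll : SK) (dr : ℕ) (rr : SK) (w kl kr : ℂ) :
    Prop where
  h : RDt K 4 l x dl ll dr rr w kl kr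
  sp : x = .s → (acot2 (Sp (RR w kr) (Complex.cos w))).re < 1 / 2
  sp' : l = .s → (acot2 (Sp (RR w kl) (Complex.cos w))).re < 1 / 2

section
variable {K : KFam} {l x : SK} {dl : ℕ} {ll : SK} {dr : ℕ} {rr : SK} {w kl kr : ℂ}

lemma LDt.symm (t : LDt K l x dl ll dr rr w kl kr) : LDt K x l dr rr dl ll w kr kl :=
  ⟨t.h.symm, t.sp', t.sp⟩

lemma LDt.tdt (t : LDt K l x dl ll dr rr w kl kr) :
    TDt K x 4 l dr rr w (RR w kr) kr :=
  ⟨t.h.right, t.h.w0, t.h.w1, t.sp⟩

lemma LDt.rel (t : LDt K l x dl ll dr rr w kl kr) {E : ℂ}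
    (hE : E = cexp (2 * Real.pi * I * yH l (RR w kl) (Complex.cos w))) :
    E * (Hq l (RR w kl) (Complex.cos w) - I) = Hq l (RR w kl) (Complex.cos w) + I := by
  have hc := ne_of_re t.h.left.kre
  have hR : 0 < (RR w kl).re := r0_pos.trans t.h.left.Rre
  rw [hE]
  unfold yH
  by_cases hl : l = .s
  · subst hl
    rw [Hq_s]
    have hRI : RR w kl + I ≠ 0 := by
      intro h
      exact (ne_I_of_re hR).2 (by linear_combination h)
    have h2 := t.sp' rfl
    exact exp_acot2 (Sp_ne_I hRI hc) (ne_nI_of_half h2)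
  · rw [Hq_of_ne hl]
    exact exp_acot2 (ne_I_of_re hR).1 (ne_I_of_re hR).2

/-- the exponential of the other hinge -/
lemma LDt.expL (t : LDt K l x dl ll dr rr w kl kr) (H : List QC) :
    cexp (2 * Real.pi * I * yH l (RR w kl) (Complex.cos w)) *
      (tLx x H).M.val (RR w kr) (Complex.tan w) =
      (tLx x H).N.val (RR w kr) (Complex.tan w) := by
  have hE := t.rel rfl
  have hT : Complex.tan w ≠ 0 := by
    intro h
    have := t.h.tan_re
    rw [h] at this
    exact lt_irrefl _ this
  have hc := ne_of_re t.h.left.kre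
  have hR : 0 < (RR w kr).re := r0_pos.trans t.h.right.Rre
  have hre := t.h.reH
  by_cases hx : x = .s
  · subst hx
    rw [Hq_s] at hre
    have hRI : RR w kr + I ≠ 0 := by
      intro h
      exact (ne_I_of_re hR).2 (by linear_combination h)
    change _ * (Ev.gm 0 1 0 0 tl6).val _ _ = (Ev.mul tq tl4).val _ _
    rw [val_neg1, val_q]
    exact left_s hE hT hRI (tan_sq hc) hre
  · rw [Hq_of_ne hx] at hre
    have e : tLx x H = ⟨.mul tq tl3, .gm 0 1 0 0 tl5, (rfl : 5 = 5), H⟩ := by
      cases x
      · rfl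
      · rfl
      · rfl
      · exact absurd rfl hx
    rw [e]
    change _ * (Ev.gm 0 1 0 0 tl5).val _ _ = (Ev.mul tq tl3).val _ _
    rw [val_neg1, val_q]
    exact left_u hE hT hre

/-- the exponential of the other hinge minus the ring variable -/
lemma LDt.expM (t : LDt K l x dl ll dr rr w kl kr) (H : List QC) :
    cexp (2 * Real.pi * I * (yH l (RR w kl) (Complex.cos w) - zeta w)) *
      (tMx x H).M.val (RR w kr) (Complex.tan w) =
      (tMx x H).N.val (RR w kr) (Complex.tan w) := by
  have e1 := t.expL H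
  have e2 := expZ (R := RR w kr) t.h.left.kre H
  have e3 : 2 * Real.pi * I * (yH l (RR w kl) (Complex.cos w) - zeta w) =
      2 * Real.pi * I * yH l (RR w kl) (Complex.cos w) + 2 * Real.pi * I * (-zeta w) := by ring
  rw [e3, Complex.exp_add]
  change _ * Ev.zm.val _ _ = Ev.zp.val _ _ at e2
  by_cases hx : x = .s
  · subst hx
    change _ * (Ev.gm 0 1 0 0 tl6).val _ _ = (Ev.mul tq tl4).val _ _ at e1
    change _ * ((Ev.gm 0 1 0 0 tl6).val _ _ * Ev.zm.val _ _) =
      (Ev.mul tq tl4).val _ _ * Ev.zp.val _ _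
    rw [← e1, ← e2]
    ring
  · have e : tLx x H = ⟨.mul tq tl3, .gm 0 1 0 0 tl5, (rfl : 5 = 5), H⟩ := by
      cases x
      · rfl
      · rfl
      · rfl
      · exact absurd rfl hx
    have e' : tMx x H = ⟨.mul (.mul tq tl3) zp, .mul (.gm 0 1 0 0 tl5) zm, (rfl : 6 = 6), H⟩ := by
      cases x
      · rfl
      · rfl
      · rfl
      · exact absurd rfl hx
    rw [e] at e1
    rw [e']
    change _ * (Ev.gm 0 1 0 0 tl5).val _ _ = (Ev.mul tq tl3).val _ _ at e1
    change _ * ((Ev.gm 0 1 0 0 tl5).val _ _ * Ev.zm.val _ _) =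
      (Ev.mul tq tl3).val _ _ * Ev.zp.val _ _
    rw [← e1, ← e2]
    ring

/-- the bounds of a row with the hinge on the other side -/
theorem tuseL (hK : KOK K) (t : LDt K l x dl ll dr rr w kl kr) {B B' : ℕ} (hB : crs 4 l x = B)
    (hB' : crs dr x rr = B') {gi ui li ul : List GC} {o : List QC} {L : List Grp}
    {o' : List QC} {L' : List Grp} {gy gz gu gl : List GC} {n code : ℕ}
    (hr : trowOkL x gi ui li ul o L o' L' gy gz gu gl n code = true)
    (hi : ∀ g ∈ gi, g.G (yH x (RR w kr) (Complex.cos w)))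
    (hu : ∀ g ∈ ui, g.G (yH x (RR w kr) (Complex.cos w) - zeta w))
    (hli : ∀ g ∈ li, g.G (yH l (RR w kl) (Complex.cos w)))
    (hul : ∀ g ∈ ul, g.G (yH l (RR w kl) (Complex.cos w) - zeta w))
    (ho : InH (K.K 4 l x) o) (ho' : InH (K.K dr rr x) o')
    (hL : ∀ {q q' : ℂ}, Complex.tan w ^ 2 + 1 = q → RR w kr ^ 2 + 1 - q = q' →
      Out I B (RR w kr) q q' (port K 4 B l) → Out I B (RR w kr) q q' (some {kl}) →
      AllOk (RR w kr) (Complex.tan w) L)
    (hL' : OR x dr B' rr L') :
    (∀ g ∈ gy, g.P (yH x (RR w kr) (Complex.cos w))) ∧ (∀ g ∈ gz, g.P (-zeta w)) ∧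
      (∀ g ∈ gu, g.P (yH x (RR w kr) (Complex.cos w) - zeta w)) ∧
      ∀ g ∈ gl, g.P (yH l (RR w kl) (Complex.cos w)) := by
  subst hB hB'
  have T := t.tdt
  have hc := T.h.kre
  have hc0 := ne_of_re hc
  have hT := tan_sq hc0
  have hR : 0 < (RR w kr).re := r0_pos.trans T.h.Rre
  have hq : RR w kr ^ 2 + 1 - 1 / Complex.cos w ^ 2 = 1 / kr ^ 2 := by
    rw [T.h.hinge]
    ring
  have hm' := T.h.mem'
  have h1 := inH_ownR (x := x) ho'
  rw [← K.symm] at h1
  have hT0 : Complex.tan w ≠ 0 := by
    intro h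
    have := t.h.tan_re
    rw [h] at this
    exact lt_irrefl _ this
  have hkl0 : kl ≠ 0 := ne_of_re t.h.left.kre'
  have ht : Out I (crs 4 l x) (RR w kr) (1 / Complex.cos w ^ 2) (1 / kr ^ 2) (some {kl}) := by
    refine ⟨kl, rfl, ?_⟩
    have h3 := DB_sq (q := 1 / Complex.cos w ^ 2) (q' := 1 / kr ^ 2) (q'' := 1 / kl ^ 2)
      Complex.I_mul_I hT0 (by rw [← hT]; ring) (by rw [T.h.hinge]) (by rw [t.h.left.hinge])
      t.h.re.symm
    field_simp at h3 ⊢
    linear_combination -h3
  unfold trowOkL at hr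
  rw [Bool.and_eq_true, Bool.and_eq_true, Bool.and_eq_true, Bool.and_eq_true, Bool.and_eq_true,
    Bool.and_eq_true, Bool.and_eq_true, Bool.and_eq_true] at hr
  obtain ⟨hrow, ⟨⟨⟨⟨⟨⟨k1, k2⟩, k3⟩, k4⟩, k5⟩, k6⟩, k7⟩, k8⟩ := hr
  have hl : AllOk (RR w kr) (Complex.tan w) (tsL x gi ui li ul o L o' L') := by
    refine AllOk.cons ?_ (AllOk.cons ?_ (AllOk.cons ?_ (AllOk.cons ?_ (AllOk.cons
      (tl_ok hc0 hT (ho _ T.h.mem)) (AllOk.cons (tr_ok (ne_of_re T.h.kre') hT hq (h1 kr hm'))
      ((hL hT hq T.h.out ht).append (hL' hK hT hq T.h.out')))))))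
    · refine ⟨_, expY hc hR t.sp _, ?_⟩
      have eH : (tYx x (gi.map GC.qi)).H = gi.map GC.qi := by cases x <;> rfl
      rw [eH]
      intro Q hQ
      obtain ⟨g, hg, rfl⟩ := List.mem_map.1 hQ
      exact GC.imp (List.all_eq_true.1 k1 g hg) (hi g hg)
    · refine ⟨_, expU hc hR t.sp _, ?_⟩
      have eH : (tUx x (ui.map GC.qi)).H = ui.map GC.qi := by cases x <;> rfl
      rw [eH]
      intro Q hQ
      obtain ⟨g, hg, rfl⟩ := List.mem_map.1 hQ
      exact GC.imp (List.all_eq_true.1 k2 g hg) (hu g hg)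
    · refine ⟨_, t.expL _, ?_⟩
      have eH : (tLx x (li.map GC.qi)).H = li.map GC.qi := by cases x <;> rfl
      rw [eH]
      intro Q hQ
      obtain ⟨g, hg, rfl⟩ := List.mem_map.1 hQ
      exact GC.imp (List.all_eq_true.1 k3 g hg) (hli g hg)
    · refine ⟨_, t.expM _, ?_⟩
      have eH : (tMx x (ul.map GC.qi)).H = ul.map GC.qi := by cases x <;> rfl
      rw [eH]
      intro Q hQ
      obtain ⟨g, hg, rfl⟩ := List.mem_map.1 hQ
      exact GC.imp (List.all_eq_true.1 k4 g hg) (hul g hg)
  have hm := rootT_mem hK T.h hT (tan_re t.h.w0 t.h.w1)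
  refine ⟨fun g hg => ?_, fun g hg => ?_, fun g hg => ?_, fun g hg => ?_⟩
  · have eH : (tYx x (gy.map GC.q)).H = gy.map GC.q := by cases x <;> rfl
    exact GC.spec (List.all_eq_true.1 k5 g hg) (row_sound hrow hm hl
      (g := tYx x (gy.map GC.q)) (by simp [goT]) (expY hc hR t.sp _) g.q
      (by rw [eH]; exact List.mem_map_of_mem hg))
  · exact GC.spec (List.all_eq_true.1 k6 g hg) (row_sound hrow hm hl
      (g := tZ (gz.map GC.q)) (by simp [goT]) (expZ hc _) g.q
      (List.mem_map_of_mem hg))
  · have eH : (tUx x (gu.map GC.q)).H = gu.map GC.q := by cases x <;> rfl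
    exact GC.spec (List.all_eq_true.1 k7 g hg) (row_sound hrow hm hl
      (g := tUx x (gu.map GC.q)) (by simp [goT]) (expU hc hR t.sp _) g.q
      (by rw [eH]; exact List.mem_map_of_mem hg))
  · have eH : (tLx x (gl.map GC.q)).H = gl.map GC.q := by cases x <;> rfl
    exact GC.spec (List.all_eq_true.1 k8 g hg) (row_sound hrow hm hl
      (g := tLx x (gl.map GC.q)) (by simp [goT]) (t.expL _) g.q
      (by rw [eH]; exact List.mem_map_of_mem hg))

end

end

end Pool.Agent.Work.MP_b30479_gtS.G2.CN.TD

end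

section

/-!
# Further windows of the rings: hinges
-/

namespace Pool.Agent.Work.MP_b30479_gtS.G2.CN.TD

open Complex SR

noncomputable section

/-! ### a ring with four crossings next to an absorbed digit `1`, digit `2` behind it -/

section
variable {K : KFam} (hK : KOK K) {l : SK} {dl : ℕ} {ll : SK} {rr : SK} {w kl kr : ℂ}
include hK

/-- other side split -/
theorem tri_s (t : LDt K .s .s dl ll 2 rr w kl kr) (hrr : rr ≠ .e)
    (hl : (hbox .ring .one false).In (yH .s (RR w kl) (Complex.cos w)))
    (rg : Rg (yH .s (RR w kr) (Complex.cos w)) (zeta w))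
    (hx : (yH .s (RR w kr) (Complex.cos w)).re ≤ 2980 / 10000) :
    TB 2980 1820 4655 (yH .s (RR w kr) (Complex.cos w)) (zeta w) := by
  have ho := t.h.right.ok.left
  have hr := t.h.right.ok.right.symm
  obtain ⟨l1, l2, l3, l4⟩ := hl
  norm_num [hbox] at l1 l2 l3 l4
  cases rr
  · exact absurd rfl hrr
  · obtain ⟨-, rz, ru, -⟩ := tuseL hK t rfl rfl t_1sa mn mn
      (li_box (by norm_num; linarith only [l1]) (by norm_num; linarith only [l2]) (by norm_num; linarith only [l2])
        (by norm_num; linarith only [l3]) (by norm_num; linarith only [l4])) mn (hK.inH ho k6ss_ok) (hK.inH hr k3as_ok)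
      (fun _ _ _ _ => AllOk.nil) OR.a
    exact tb_of rg (rz _ m0) (ru _ m0) (by norm_num) (by norm_num) (by norm_num at hx ⊢; exact hx)
  · exact absurd (hr.zl rfl) (by norm_num)
  · obtain ⟨-, rz, ru, -⟩ := tuseL hK t rfl rfl t_1ss mn mn
      (li_box (by norm_num; linarith only [l1]) (by norm_num; linarith only [l2]) (by norm_num; linarith only [l2])
        (by norm_num; linarith only [l3]) (by norm_num; linarith only [l4])) mn (hK.inH ho k6ss_ok) (hK.inH hr k4ss_ok)
      (fun _ _ _ _ => AllOk.nil) OR.s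
    exact tb_of rg (rz _ m0) (ru _ m0) (by norm_num) (by norm_num) (by norm_num at hx ⊢; exact hx)

/-- other side: digit `1` -/
theorem tri_1 (t : LDt K .a .s 1 ll 2 rr w kl kr) (hrr : rr ≠ .e)
    (hl : (hbox .ring .one false).In (yH .a (RR w kl) (Complex.cos w)))
    (rg : Rg (yH .s (RR w kr) (Complex.cos w)) (zeta w))
    (hx : (yH .s (RR w kr) (Complex.cos w)).re ≤ 2980 / 10000) :
    TB 2980 1820 4655 (yH .s (RR w kr) (Complex.cos w)) (zeta w) := by
  have ho := t.h.right.ok.left
  have hr := t.h.right.ok.right.symm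
  obtain ⟨l1, l2, l3, l4⟩ := hl
  norm_num [hbox] at l1 l2 l3 l4
  cases rr
  · exact absurd rfl hrr
  · obtain ⟨-, rz, ru, -⟩ := tuseL hK t rfl rfl t_1aa mn mn
      (li_box (by norm_num; linarith only [l1]) (by norm_num; linarith only [l2]) (by norm_num; linarith only [l2])
        (by norm_num; linarith only [l3]) (by norm_num; linarith only [l4])) mn (hK.inH ho k5as_ok) (hK.inH hr k3as_ok)
      (fun _ _ _ _ => AllOk.nil) OR.a
    exact tb_of rg (rz _ m0) (ru _ m0) (by norm_num) (by norm_num) (by norm_num at hx ⊢; exact hx)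
  · exact absurd (hr.zl rfl) (by norm_num)
  · obtain ⟨-, rz, ru, -⟩ := tuseL hK t rfl rfl t_1as mn mn
      (li_box (by norm_num; linarith only [l1]) (by norm_num; linarith only [l2]) (by norm_num; linarith only [l2])
        (by norm_num; linarith only [l3]) (by norm_num; linarith only [l4])) mn (hK.inH ho k5as_ok) (hK.inH hr k4ss_ok)
      (fun _ _ _ _ => AllOk.nil) OR.s
    exact tb_of rg (rz _ m0) (ru _ m0) (by norm_num) (by norm_num) (by norm_num at hx ⊢; exact hx)

/-- other side: digit `2` inside -/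
theorem tri_2 (t : LDt K .a .s 2 ll 2 rr w kl kr) (hrr : rr ≠ .e)
    (hll : ll ≠ .e)
    (hl : (hbox .ring .two false).In (yH .a (RR w kl) (Complex.cos w)))
    (rg : Rg (yH .s (RR w kr) (Complex.cos w)) (zeta w))
    (hx : (yH .s (RR w kr) (Complex.cos w)).re ≤ 2980 / 10000) :
    TB 2980 1845 4690 (yH .s (RR w kr) (Complex.cos w)) (zeta w) := by
  have ho := t.h.right.ok.left
  have hr := t.h.right.ok.right.symm
  obtain ⟨l1, l2, l3, l4⟩ := hl
  norm_num [hbox] at l1 l2 l3 l4
  cases rr
  · exact absurd rfl hrr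
  · obtain ⟨-, rz, ru, -⟩ := tuseL hK t rfl rfl t_2a mn mn
      (li_box (by norm_num; linarith only [l1]) (by norm_num; linarith only [l2]) (by norm_num; linarith only [l2])
        (by norm_num; linarith only [l3]) (by norm_num; linarith only [l4])) mn (hK.inH ho k5as_ok) (hK.inH hr k3as_ok)
      (fun hT hq _ h => tA_all hT hq (fun k hk => by
        rw [Set.mem_singleton_iff] at hk
        subst hk
        exact (in_n2 hK t.h.left.ok.right.symm hll).mir _ (by rw [K.symm]; exact t.h.left.mem')) h) OR.a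
    exact tb_of rg (rz _ m0) (ru _ m0) (by norm_num) (by norm_num) (by norm_num at hx ⊢; exact hx)
  · exact absurd (hr.zl rfl) (by norm_num)
  · obtain ⟨-, rz, ru, -⟩ := tuseL hK t rfl rfl t_2s mn mn
      (li_box (by norm_num; linarith only [l1]) (by norm_num; linarith only [l2]) (by norm_num; linarith only [l2])
        (by norm_num; linarith only [l3]) (by norm_num; linarith only [l4])) mn (hK.inH ho k5as_ok) (hK.inH hr k4ss_ok)
      (fun hT hq _ h => tA_all hT hq (fun k hk => by
        rw [Set.mem_singleton_iff] at hk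
        subst hk
        exact (in_n2 hK t.h.left.ok.right.symm hll).mir _ (by rw [K.symm]; exact t.h.left.mem')) h) OR.s
    exact tb_of rg (rz _ m0) (ru _ m0) (by norm_num) (by norm_num) (by norm_num at hx ⊢; exact hx)

/-- other side: digit `2` at the end -/
theorem tri_E (t : LDt K .a .s 2 .e 2 rr w kl kr) (hrr : rr ≠ .e)
    (hl : (hbox .ring .twoE false).In (yH .a (RR w kl) (Complex.cos w)))
    (rg : Rg (yH .s (RR w kr) (Complex.cos w)) (zeta w)) :
    TB 2900 1880 4680 (yH .s (RR w kr) (Complex.cos w)) (zeta w) := by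
  have ho := t.h.right.ok.left
  have hr := t.h.right.ok.right.symm
  obtain ⟨l1, l2, l3, l4⟩ := hl
  norm_num [hbox] at l1 l2 l3 l4
  cases rr
  · exact absurd rfl hrr
  · obtain ⟨ry, rz, ru, -⟩ := tuseL hK t rfl rfl t_Ea mn mn
      (li_box (by norm_num; linarith only [l1]) (by norm_num; linarith only [l2]) (by norm_num; linarith only [l2])
        (by norm_num; linarith only [l3]) (by norm_num; linarith only [l4])) mn (hK.inH ho k5as_ok) (hK.inH hr k3as_ok)
      (fun _ _ _ _ => AllOk.nil) OR.a
    exact tb_of rg (rz _ m0) (ru _ m0) (by norm_num) (by norm_num) (by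
      have := arc_ub (ry _ m0) (by norm_num; linarith only [rg, rg.y1])
      norm_num at this ⊢
      exact this.le)
  · exact absurd (hr.zl rfl) (by norm_num)
  · obtain ⟨ry, rz, ru, -⟩ := tuseL hK t rfl rfl t_Es mn mn
      (li_box (by norm_num; linarith only [l1]) (by norm_num; linarith only [l2]) (by norm_num; linarith only [l2])
        (by norm_num; linarith only [l3]) (by norm_num; linarith only [l4])) mn (hK.inH ho k5as_ok) (hK.inH hr k4ss_ok)
      (fun _ _ _ _ => AllOk.nil) OR.s
    exact tb_of rg (rz _ m0) (ru _ m0) (by norm_num) (by norm_num) (by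
      have := arc_ub (ry _ m0) (by norm_num; linarith only [rg, rg.y1])
      norm_num at this ⊢
      exact this.le)

/-- other side: digit `3` inside -/
theorem tri_3 (t : LDt K .a .s 3 ll 2 rr w kl kr) (hrr : rr ≠ .e)
    (hl : (hbox .ring .three false).In (yH .a (RR w kl) (Complex.cos w)))
    (rg : Rg (yH .s (RR w kr) (Complex.cos w)) (zeta w))
    (hx : (yH .s (RR w kr) (Complex.cos w)).re ≤ 2980 / 10000) :
    TB 2980 1880 4720 (yH .s (RR w kr) (Complex.cos w)) (zeta w) := by
  have ho := t.h.right.ok.left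
  have hr := t.h.right.ok.right.symm
  obtain ⟨l1, l2, l3, l4⟩ := hl
  norm_num [hbox] at l1 l2 l3 l4
  cases rr
  · exact absurd rfl hrr
  · obtain ⟨-, rz, ru, -⟩ := tuseL hK t rfl rfl t_3a mn mn
      (li_box (by norm_num; linarith only [l1]) (by norm_num; linarith only [l2]) (by norm_num; linarith only [l2])
        (by norm_num; linarith only [l3]) (by norm_num; linarith only [l4])) mn (hK.inH ho k5as_ok) (hK.inH hr k3as_ok)
      (fun _ _ _ _ => AllOk.nil) OR.a
    exact tb_of rg (rz _ m0) (ru _ m0) (by norm_num) (by norm_num) (by norm_num at hx ⊢; exact hx)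
  · exact absurd (hr.zl rfl) (by norm_num)
  · obtain ⟨-, rz, ru, -⟩ := tuseL hK t rfl rfl t_3s mn mn
      (li_box (by norm_num; linarith only [l1]) (by norm_num; linarith only [l2]) (by norm_num; linarith only [l2])
        (by norm_num; linarith only [l3]) (by norm_num; linarith only [l4])) mn (hK.inH ho k5as_ok) (hK.inH hr k4ss_ok)
      (fun _ _ _ _ => AllOk.nil) OR.s
    exact tb_of rg (rz _ m0) (ru _ m0) (by norm_num) (by norm_num) (by norm_num at hx ⊢; exact hx)

/-- other side: digit `3` at the end -/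
theorem tri_e (t : LDt K .a .s 3 .e 2 rr w kl kr) (hrr : rr ≠ .e)
    (hl : (hbox .ring .threeE false).In (yH .a (RR w kl) (Complex.cos w)))
    (rg : Rg (yH .s (RR w kr) (Complex.cos w)) (zeta w))
    (hx : (yH .s (RR w kr) (Complex.cos w)).re ≤ 2980 / 10000) :
    TB 2980 1880 4720 (yH .s (RR w kr) (Complex.cos w)) (zeta w) := by
  have ho := t.h.right.ok.left
  have hr := t.h.right.ok.right.symm
  obtain ⟨l1, l2, l3, l4⟩ := hl
  norm_num [hbox] at l1 l2 l3 l4
  cases rr
  · exact absurd rfl hrr
  · obtain ⟨-, rz, ru, -⟩ := tuseL hK t rfl rfl t_ea mn mn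
      (li_box (by norm_num; linarith only [l1]) (by norm_num; linarith only [l2]) (by norm_num; linarith only [l2])
        (by norm_num; linarith only [l3]) (by norm_num; linarith only [l4])) mn (hK.inH ho k5as_ok) (hK.inH hr k3as_ok)
      (fun _ _ _ _ => AllOk.nil) OR.a
    exact tb_of rg (rz _ m0) (ru _ m0) (by norm_num) (by norm_num) (by norm_num at hx ⊢; exact hx)
  · exact absurd (hr.zl rfl) (by norm_num)
  · obtain ⟨-, rz, ru, -⟩ := tuseL hK t rfl rfl t_es mn mn
      (li_box (by norm_num; linarith only [l1]) (by norm_num; linarith only [l2]) (by norm_num; linarith only [l2])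
        (by norm_num; linarith only [l3]) (by norm_num; linarith only [l4])) mn (hK.inH ho k5as_ok) (hK.inH hr k4ss_ok)
      (fun _ _ _ _ => AllOk.nil) OR.s
    exact tb_of rg (rz _ m0) (ru _ m0) (by norm_num) (by norm_num) (by norm_num at hx ⊢; exact hx)

/-- other side: ring -/
theorem tri_Z (t : LDt K .a .s dl ll 2 rr w kl kr) (hrr : rr ≠ .e)
    (hl : (hbox .ring .ring false).In (yH .a (RR w kl) (Complex.cos w)))
    (rg : Rg (yH .s (RR w kr) (Complex.cos w)) (zeta w))
    (hx : (yH .s (RR w kr) (Complex.cos w)).re ≤ 2980 / 10000) :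
    TB 2980 1870 4748 (yH .s (RR w kr) (Complex.cos w)) (zeta w) := by
  have ho := t.h.right.ok.left
  have hr := t.h.right.ok.right.symm
  obtain ⟨l1, l2, l3, l4⟩ := hl
  norm_num [hbox] at l1 l2 l3 l4
  cases rr
  · exact absurd rfl hrr
  · obtain ⟨-, rz, ru, -⟩ := tuseL hK t rfl rfl t_Za mn mn
      (li_box (by norm_num; linarith only [l1]) (by norm_num; linarith only [l2]) (by norm_num; linarith only [l2])
        (by norm_num; linarith only [l3]) (by norm_num; linarith only [l4])) mn (hK.inH ho k5as_ok) (hK.inH hr k3as_ok)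
      (fun hT hq h _ => OL.a hK hT hq h) OR.a
    exact tb_of rg (rz _ m0) (ru _ m0) (by norm_num) (by norm_num) (by norm_num at hx ⊢; exact hx)
  · exact absurd (hr.zl rfl) (by norm_num)
  · obtain ⟨-, rz, ru, -⟩ := tuseL hK t rfl rfl t_Zs mn mn
      (li_box (by norm_num; linarith only [l1]) (by norm_num; linarith only [l2]) (by norm_num; linarith only [l2])
        (by norm_num; linarith only [l3]) (by norm_num; linarith only [l4])) mn (hK.inH ho k5as_ok) (hK.inH hr k4ss_ok)
      (fun hT hq h _ => OL.a hK hT hq h) OR.s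
    exact tb_of rg (rz _ m0) (ru _ m0) (by norm_num) (by norm_num) (by norm_num at hx ⊢; exact hx)

end

end

end Pool.Agent.Work.MP_b30479_gtS.G2.CN.TD

end

section

/-!
# Further windows of the rings: a ring between two digits `1`; heights
-/

namespace Pool.Agent.Work.MP_b30479_gtS.G2.CN.TD

open Complex SR

noncomputable section

/-! ### a ring between two digits `1` -/

section
variable {K : KFam} (hK : KOK K) {l x : SK} {dl : ℕ} {ll : SK} {dr : ℕ} {rr : SK} {w kl kr : ℂ}
include hK

/-- the height over the other hinge of a ring between two absorbed digits `1` -/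
theorem p_of (t : LDt K .s .s dl ll dr rr w kl kr)
    (hl : (hbox .ring .one false).In (yH .s (RR w kl) (Complex.cos w)))
    (hy : (hbox .ring .one false).In (yH .s (RR w kr) (Complex.cos w)))
    (h : 262 / 1000 ≤ (yH .s (RR w kr) (Complex.cos w)).re) :
    (yH .s (RR w kr) (Complex.cos w) - zeta w).im ≤ -(1220 / 10000) := by
  have ho := t.h.right.ok.left
  have hr := t.h.right.ok.right.symm
  obtain ⟨l1, l2, l3, l4⟩ := one_num hl
  obtain ⟨y1, y2, -, -⟩ := one_num hy
  have hd : dr = 1 ∨ dr = 2 := by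
    have h5 := t.h.right.ok.one rfl
    have h6 := hr.pos
    omega
  have hz : rr ≠ .z := fun h5 => by
    have := hr.zl h5
    omega
  rcases hd with rfl | rfl
  · cases rr
    · exact absurd rfl (hr.one rfl).2.1
    · obtain ⟨-, -, ru, -⟩ := tuseL hK t rfl rfl p_1a
        (ui_arc (by norm_num; linarith only [h]) (by norm_num; linarith only [y2])) mn
        (li_box (by norm_num; linarith only [l1]) (by norm_num; linarith only [l2]) (by norm_num; linarith only [l2])
        (by norm_num; linarith only [l3]) (by norm_num; linarith only [l4]))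
        mn (hK.inH ho k6ss_ok) (hK.inH hr k2as_ok) (fun _ _ _ _ => AllOk.nil) (OR.a1 (by norm_num))
      have g : _ ≤ ((-1220 : ℤ) : ℝ) / 10000 := ru _ m0
      norm_num at g
      rw [Complex.sub_im]
      linarith only [g]
    · exact absurd rfl hz
    · obtain ⟨-, -, ru, -⟩ := tuseL hK t rfl rfl p_1s
        (ui_arc (by norm_num; linarith only [h]) (by norm_num; linarith only [y2])) mn
        (li_box (by norm_num; linarith only [l1]) (by norm_num; linarith only [l2]) (by norm_num; linarith only [l2])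
        (by norm_num; linarith only [l3]) (by norm_num; linarith only [l4]))
        mn (hK.inH ho k6ss_ok) (hK.inH hr k3ss_ok) (fun _ _ _ _ => AllOk.nil) OR.s
      have g : _ ≤ ((-1220 : ℤ) : ℝ) / 10000 := ru _ m0
      norm_num at g
      rw [Complex.sub_im]
      linarith only [g]
  · cases rr
    · obtain ⟨-, -, ru, -⟩ := tuseL hK t rfl rfl p_2e
        (ui_arc (by norm_num; linarith only [h]) (by norm_num; linarith only [y2])) mn
        (li_box (by norm_num; linarith only [l1]) (by norm_num; linarith only [l2]) (by norm_num; linarith only [l2])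
        (by norm_num; linarith only [l3]) (by norm_num; linarith only [l4]))
        mn (hK.inH ho k6ss_ok) (hK.inH hr k3es_ok) (fun _ _ _ _ => AllOk.nil) OR.e
      have g : _ ≤ ((-1220 : ℤ) : ℝ) / 10000 := ru _ m0
      norm_num at g
      rw [Complex.sub_im]
      linarith only [g]
    · obtain ⟨-, -, ru, -⟩ := tuseL hK t rfl rfl p_2a
        (ui_arc (by norm_num; linarith only [h]) (by norm_num; linarith only [y2])) mn
        (li_box (by norm_num; linarith only [l1]) (by norm_num; linarith only [l2]) (by norm_num; linarith only [l2])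
        (by norm_num; linarith only [l3]) (by norm_num; linarith only [l4]))
        mn (hK.inH ho k6ss_ok) (hK.inH hr k3as_ok) (fun _ _ _ _ => AllOk.nil) OR.a
      have g : _ ≤ ((-1220 : ℤ) : ℝ) / 10000 := ru _ m0
      norm_num at g
      rw [Complex.sub_im]
      linarith only [g]
    · exact absurd rfl hz
    · obtain ⟨-, -, ru, -⟩ := tuseL hK t rfl rfl p_2s
        (ui_arc (by norm_num; linarith only [h]) (by norm_num; linarith only [y2])) mn
        (li_box (by norm_num; linarith only [l1]) (by norm_num; linarith only [l2]) (by norm_num; linarith only [l2])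
        (by norm_num; linarith only [l3]) (by norm_num; linarith only [l4]))
        mn (hK.inH ho k6ss_ok) (hK.inH hr k4ss_ok) (fun _ _ _ _ => AllOk.nil) OR.s
      have g : _ ≤ ((-1220 : ℤ) : ℝ) / 10000 := ru _ m0
      norm_num at g
      rw [Complex.sub_im]
      linarith only [g]

/-- the digit `1` on the right not absorbed -/
theorem vv_au (t : LDt K .a .a 1 ll 1 rr w kl kr)
    (hl : (hbox .ring .one false).In (yH .a (RR w kl) (Complex.cos w)))
    (hy : (hbox .ring .one false).In (yH .a (RR w kr) (Complex.cos w)))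
    (rg : Rg (yH .a (RR w kr) (Complex.cos w)) (zeta w))
    (hc : 4535 / 10000 ≤ (yH .a (RR w kr) (Complex.cos w)).re - (zeta w).re) :
    (yH .a (RR w kl) (Complex.cos w)).re ≤ 262 / 1000 := by
  have hs := far_s t.h.right.ok.right
  subst hs
  have ho := t.h.right.ok.left
  have hr := t.h.right.ok.right.symm
  obtain ⟨l1, l2, l3, l4⟩ := one_num hl
  obtain ⟨y1, y2, -, -⟩ := one_num hy
  obtain ⟨-, -, -, rl⟩ := tuseL hK t rfl rfl v_au mn
      (ui_arc (by rw [Complex.sub_re]; norm_num; linarith only [hc]) (by rw [Complex.sub_re]; norm_num; linarith only [y2, rg, rg.z1]))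
      (li_box (by norm_num; linarith only [l1]) (by norm_num; linarith only [l2]) (by norm_num; linarith only [l2])
        (by norm_num; linarith only [l3]) (by norm_num; linarith only [l4]))
      mn (hK.inH ho k4aa_ok) (hK.inH hr k2as_ok) (fun _ _ _ _ => AllOk.nil) (OR.st (by decide))
  have g := arc_ub (rl _ m0) (by norm_num; linarith only [l2])
  norm_num at g
  linarith only [g]

/-- the digit `1` on the right absorbed -/
theorem vv_as (t : LDt K .a .s 1 ll dr rr w kl kr)
    (hl : (hbox .ring .one false).In (yH .a (RR w kl) (Complex.cos w)))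
    (hy : (hbox .ring .one false).In (yH .s (RR w kr) (Complex.cos w)))
    (rg : Rg (yH .s (RR w kr) (Complex.cos w)) (zeta w))
    (hc : 4535 / 10000 ≤ (yH .s (RR w kr) (Complex.cos w)).re - (zeta w).re) :
    (yH .a (RR w kl) (Complex.cos w)).re ≤ 262 / 1000 := by
  have ho := t.h.right.ok.left
  have hr := t.h.right.ok.right.symm
  obtain ⟨l1, l2, l3, l4⟩ := one_num hl
  obtain ⟨y1, y2, -, -⟩ := one_num hy
  have hd : dr = 1 ∨ dr = 2 := by
    have h5 := t.h.right.ok.one rfl
    have h6 := hr.pos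
    omega
  have hz : rr ≠ .z := fun h5 => by
    have := hr.zl h5
    omega
  rcases hd with rfl | rfl
  · cases rr
    · exact absurd rfl (hr.one rfl).2.1
    · obtain ⟨-, -, -, rl⟩ := tuseL hK t rfl rfl v_a1a mn
        (ui_arc (by rw [Complex.sub_re]; norm_num; linarith only [hc]) (by rw [Complex.sub_re]; norm_num; linarith only [y2, rg, rg.z1]))
        (li_box (by norm_num; linarith only [l1]) (by norm_num; linarith only [l2]) (by norm_num; linarith only [l2])
          (by norm_num; linarith only [l3]) (by norm_num; linarith only [l4]))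
        mn (hK.inH ho k5as_ok) (hK.inH hr k2as_ok) (fun _ _ _ _ => AllOk.nil) (OR.a1 (by norm_num))
      have g := arc_ub (rl _ m0) (by norm_num; linarith only [l2])
      norm_num at g
      linarith only [g]
    · exact absurd rfl hz
    · obtain ⟨-, -, -, rl⟩ := tuseL hK t rfl rfl v_a1s mn
        (ui_arc (by rw [Complex.sub_re]; norm_num; linarith only [hc]) (by rw [Complex.sub_re]; norm_num; linarith only [y2, rg, rg.z1]))
        (li_box (by norm_num; linarith only [l1]) (by norm_num; linarith only [l2]) (by norm_num; linarith only [l2])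
          (by norm_num; linarith only [l3]) (by norm_num; linarith only [l4]))
        mn (hK.inH ho k5as_ok) (hK.inH hr k3ss_ok) (fun _ _ _ _ => AllOk.nil) OR.s
      have g := arc_ub (rl _ m0) (by norm_num; linarith only [l2])
      norm_num at g
      linarith only [g]
  · cases rr
    · obtain ⟨-, -, -, rl⟩ := tuseL hK t rfl rfl v_a2e mn
        (ui_arc (by rw [Complex.sub_re]; norm_num; linarith only [hc]) (by rw [Complex.sub_re]; norm_num; linarith only [y2, rg, rg.z1]))
        (li_box (by norm_num; linarith only [l1]) (by norm_num; linarith only [l2]) (by norm_num; linarith only [l2])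
          (by norm_num; linarith only [l3]) (by norm_num; linarith only [l4]))
        mn (hK.inH ho k5as_ok) (hK.inH hr k3es_ok) (fun _ _ _ _ => AllOk.nil) OR.e
      have g := arc_ub (rl _ m0) (by norm_num; linarith only [l2])
      norm_num at g
      linarith only [g]
    · obtain ⟨-, -, -, rl⟩ := tuseL hK t rfl rfl v_a2a mn
        (ui_arc (by rw [Complex.sub_re]; norm_num; linarith only [hc]) (by rw [Complex.sub_re]; norm_num; linarith only [y2, rg, rg.z1]))
        (li_box (by norm_num; linarith only [l1]) (by norm_num; linarith only [l2]) (by norm_num; linarith only [l2])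
          (by norm_num; linarith only [l3]) (by norm_num; linarith only [l4]))
        mn (hK.inH ho k5as_ok) (hK.inH hr k3as_ok) (fun _ _ _ _ => AllOk.nil) OR.a
      have g := arc_ub (rl _ m0) (by norm_num; linarith only [l2])
      norm_num at g
      linarith only [g]
    · exact absurd rfl hz
    · have hs := far_s t.h.left.ok.right
      subst hs
      obtain ⟨-, -, -, rl⟩ := tuseL hK t rfl rfl v_a2s mn
        (ui_arc (by rw [Complex.sub_re]; norm_num; linarith only [hc]) (by rw [Complex.sub_re]; norm_num; linarith only [y2, rg, rg.z1]))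
        mn
        mn (hK.inH ho k5as_ok) (hK.inH hr k4ss_ok) (fun hT hq _ h => tA_all hT hq (fun k hk => by
          rw [Set.mem_singleton_iff] at hk
          subst hk
          exact (hK.inH t.h.left.ok.right.symm k2as_ok).mir _ (by rw [K.symm]; exact t.h.left.mem')) h) OR.s
      have g := arc_ub (rl _ m0) (by norm_num; linarith only [l2])
      norm_num at g
      linarith only [g]

/-- the digit `1` on the right not absorbed -/
theorem vv_su (t : LDt K .s .a dl ll 1 rr w kl kr)
    (hl : (hbox .ring .one false).In (yH .s (RR w kl) (Complex.cos w)))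
    (hy : (hbox .ring .one false).In (yH .a (RR w kr) (Complex.cos w)))
    (rg : Rg (yH .a (RR w kr) (Complex.cos w)) (zeta w))
    (hc : 4535 / 10000 ≤ (yH .a (RR w kr) (Complex.cos w)).re - (zeta w).re) :
    (yH .s (RR w kl) (Complex.cos w)).re ≤ 262 / 1000 := by
  have hs := far_s t.h.right.ok.right
  subst hs
  have ho := t.h.right.ok.left
  have hr := t.h.right.ok.right.symm
  obtain ⟨l1, l2, l3, l4⟩ := one_num hl
  obtain ⟨y1, y2, -, -⟩ := one_num hy
  obtain ⟨-, -, -, rl⟩ := tuseL hK t rfl rfl v_su mn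
      (ui_arc (by rw [Complex.sub_re]; norm_num; linarith only [hc]) (by rw [Complex.sub_re]; norm_num; linarith only [y2, rg, rg.z1]))
      (li_box (by norm_num; linarith only [l1]) (by norm_num; linarith only [l2]) (by norm_num; linarith only [l2])
        (by norm_num; linarith only [l3]) (by norm_num; linarith only [l4]))
      mn (hK.inH ho k5as_ok) (hK.inH hr k2as_ok) (fun _ _ _ _ => AllOk.nil) (OR.st (by decide))
  have g := arc_ub (rl _ m0) (by norm_num; linarith only [l2])
  norm_num at g
  linarith only [g]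

/-- the digit `1` on the right absorbed -/
theorem vv_ss (t : LDt K .s .s dl ll dr rr w kl kr)
    (hl : (hbox .ring .one false).In (yH .s (RR w kl) (Complex.cos w)))
    (hy : (hbox .ring .one false).In (yH .s (RR w kr) (Complex.cos w)))
    (rg : Rg (yH .s (RR w kr) (Complex.cos w)) (zeta w))
    (hc : 4535 / 10000 ≤ (yH .s (RR w kr) (Complex.cos w)).re - (zeta w).re) :
    (yH .s (RR w kl) (Complex.cos w)).re ≤ 262 / 1000 := by
  have ho := t.h.right.ok.left
  have hr := t.h.right.ok.right.symm
  obtain ⟨l1, l2, l3, l4⟩ := one_num hl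
  obtain ⟨y1, y2, -, -⟩ := one_num hy
  have hd : dr = 1 ∨ dr = 2 := by
    have h5 := t.h.right.ok.one rfl
    have h6 := hr.pos
    omega
  have hz : rr ≠ .z := fun h5 => by
    have := hr.zl h5
    omega
  rcases hd with rfl | rfl
  · cases rr
    · exact absurd rfl (hr.one rfl).2.1
    · obtain ⟨-, -, -, rl⟩ := tuseL hK t rfl rfl v_s1a mn
        (ui_arc (by rw [Complex.sub_re]; norm_num; linarith only [hc]) (by rw [Complex.sub_re]; norm_num; linarith only [y2, rg, rg.z1]))
        (li_box (by norm_num; linarith only [l1]) (by norm_num; linarith only [l2]) (by norm_num; linarith only [l2])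
          (by norm_num; linarith only [l3]) (by norm_num; linarith only [l4]))
        mn (hK.inH ho k6ss_ok) (hK.inH hr k2as_ok) (fun _ _ _ _ => AllOk.nil) (OR.a1 (by norm_num))
      have g := arc_ub (rl _ m0) (by norm_num; linarith only [l2])
      norm_num at g
      linarith only [g]
    · exact absurd rfl hz
    · obtain ⟨-, -, -, rl⟩ := tuseL hK t rfl rfl v_s1s mn
        (ui_arc (by rw [Complex.sub_re]; norm_num; linarith only [hc]) (by rw [Complex.sub_re]; norm_num; linarith only [y2, rg, rg.z1]))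
        (li_box (by norm_num; linarith only [l1]) (by norm_num; linarith only [l2]) (by norm_num; linarith only [l2])
          (by norm_num; linarith only [l3]) (by norm_num; linarith only [l4]))
        mn (hK.inH ho k6ss_ok) (hK.inH hr k3ss_ok) (fun _ _ _ _ => AllOk.nil) OR.s
      have g := arc_ub (rl _ m0) (by norm_num; linarith only [l2])
      norm_num at g
      linarith only [g]
  · cases rr
    · obtain ⟨-, -, -, rl⟩ := tuseL hK t rfl rfl v_s2e mn
        (ui_arc (by rw [Complex.sub_re]; norm_num; linarith only [hc]) (by rw [Complex.sub_re]; norm_num; linarith only [y2, rg, rg.z1]))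
        (li_box (by norm_num; linarith only [l1]) (by norm_num; linarith only [l2]) (by norm_num; linarith only [l2])
          (by norm_num; linarith only [l3]) (by norm_num; linarith only [l4]))
        mn (hK.inH ho k6ss_ok) (hK.inH hr k3es_ok) (fun _ _ _ _ => AllOk.nil) OR.e
      have g := arc_ub (rl _ m0) (by norm_num; linarith only [l2])
      norm_num at g
      linarith only [g]
    · obtain ⟨-, -, -, rl⟩ := tuseL hK t rfl rfl v_s2a mn
        (ui_arc (by rw [Complex.sub_re]; norm_num; linarith only [hc]) (by rw [Complex.sub_re]; norm_num; linarith only [y2, rg, rg.z1]))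
        (li_box (by norm_num; linarith only [l1]) (by norm_num; linarith only [l2]) (by norm_num; linarith only [l2])
          (by norm_num; linarith only [l3]) (by norm_num; linarith only [l4]))
        mn (hK.inH ho k6ss_ok) (hK.inH hr k3as_ok) (fun _ _ _ _ => AllOk.nil) OR.a
      have g := arc_ub (rl _ m0) (by norm_num; linarith only [l2])
      norm_num at g
      linarith only [g]
    · exact absurd rfl hz
    · by_contra hcc
      push Not at hcc
      have hp := p_of hK t.symm hy hl (by linarith only [hcc])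
      rw [Complex.sub_im] at hp
      obtain ⟨-, -, -, rl⟩ := tuseL hK t rfl rfl v_s2s mn
        (ui_arc (by rw [Complex.sub_re]; norm_num; linarith only [hc]) (by rw [Complex.sub_re]; norm_num; linarith only [y2, rg, rg.z1]))
        (li_box (by norm_num; linarith only [hcc]) (by norm_num; linarith only [l2]) (by norm_num; linarith only [l2])
          (by norm_num; linarith only [l3]) (by norm_num; linarith only [l4]))
        (ui_hi (by rw [Complex.sub_im]; norm_num; linarith only [hp])) (hK.inH ho k6ss_ok) (hK.inH hr k4ss_ok)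
        (fun _ _ _ _ => AllOk.nil) OR.s
      have g := arc_ub (rl _ m0) (by norm_num; linarith only [l2])
      norm_num at g
      linarith only [hcc, g]

end

/-! ### a ring next to a digit `3` -/

section
variable {K : KFam} (hK : KOK K) {d : ℕ} {l l' : SK} {w R k' : ℂ}
include hK

/-- the height of the hinge in the frame of the ring is not positive, with two exceptions -/
theorem three_t (t : TDt K .a d l 3 l' w R k') (h4 : 4 ≤ d) (hl' : l' ≠ .e) :
    (yH .a R (Complex.cos w)).im ≤ 0 ∨
      (d = 4 ∧ (l = .z ∨ (l = .a ∧ l' = .s)) ∧ 4 / 100 ≤ (zeta w).im) := by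
  have hl := t.h.ok.left
  have hr := t.h.ok.right.symm
  have hz : l' ≠ .z := fun h5 => by
    have := hr.zl h5
    omega
  rcases le_or_gt (yH .a R (Complex.cos w)).im 0 with h0 | h0
  · exact Or.inl h0
  have hd : d = 4 ∨ d = 5 ∨ 6 ≤ d := by omega
  rcases hd with rfl | rfl | h6
  · cases l
    · cases l'
      · exact absurd rfl hl'
      · left
        obtain ⟨ry, -, -⟩ := tuse hK t rfl rfl h_4ea mn
          (hK.inH hl k4ea_ok) (hK.inH hr k3aa_ok) OL.e OR.a
        have g : _ ≤ ((0 : ℤ) : ℝ) / 10000 := ry _ m0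
        norm_num at g
        linarith only [h0, g]
      · exact absurd rfl hz
      · left
        obtain ⟨ry, -, -⟩ := tuse hK t rfl rfl h_4es mn
          (hK.inH hl k4ea_ok) (hK.inH hr k4as_ok) OL.e OR.s
        have g : _ ≤ ((0 : ℤ) : ℝ) / 10000 := ry _ m0
        norm_num at g
        linarith only [h0, g]
    · cases l'
      · exact absurd rfl hl'
      · left
        obtain ⟨ry, -, -⟩ := tuse hK t rfl rfl h_4aa mn
          (hK.inH hl k4aa_ok) (hK.inH hr k3aa_ok) OL.a OR.a
        have g : _ ≤ ((0 : ℤ) : ℝ) / 10000 := ry _ m0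
        norm_num at g
        linarith only [h0, g]
      · exact absurd rfl hz
      · refine Or.inr ⟨rfl, by simp, ?_⟩
        obtain ⟨-, rz, -⟩ := tuse hK t rfl rfl e_as (ui_lo (by norm_num; linarith only [h0]))
          (hK.inH hl k4aa_ok) (hK.inH hr k4as_ok) OL.nil OR.s
        have g := rho_mk' (rz _ m0)
        norm_num at g
        linarith only [g]
    · cases l'
      · exact absurd rfl hl'
      · refine Or.inr ⟨rfl, by simp, ?_⟩
        obtain ⟨-, rz, -⟩ := tuse hK t rfl rfl e_za (ui_lo (by norm_num; linarith only [h0]))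
          (hK.inH hl k4az_ok) (hK.inH hr k3aa_ok) OL.nil OR.a
        have g := rho_mk' (rz _ m0)
        norm_num at g
        linarith only [g]
      · exact absurd rfl hz
      · refine Or.inr ⟨rfl, by simp, ?_⟩
        obtain ⟨-, rz, -⟩ := tuse hK t rfl rfl e_zs (ui_lo (by norm_num; linarith only [h0]))
          (hK.inH hl k4az_ok) (hK.inH hr k4as_ok) OL.nil OR.s
        have g := rho_mk' (rz _ m0)
        norm_num at g
        linarith only [g]
    · cases l'
      · exact absurd rfl hl'
      · left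
        obtain ⟨ry, -, -⟩ := tuse hK t rfl rfl h_4sa mn
          (hK.inH hl k5as_ok) (hK.inH hr k3aa_ok) OL.nil OR.a
        have g : _ ≤ ((0 : ℤ) : ℝ) / 10000 := ry _ m0
        norm_num at g
        linarith only [h0, g]
      · exact absurd rfl hz
      · left
        obtain ⟨ry, -, -⟩ := tuse hK t rfl rfl h_4ss mn
          (hK.inH hl k5as_ok) (hK.inH hr k4as_ok) OL.nil OR.s
        have g : _ ≤ ((0 : ℤ) : ℝ) / 10000 := ry _ m0
        norm_num at g
        linarith only [h0, g]
  · by_cases hle : l = .e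
    · subst hle
      cases l'
      · exact absurd rfl hl'
      · left
        obtain ⟨ry, -, -⟩ := tuse hK t rfl rfl h_5ea mn
          (hK.inH hl k5ea_ok) (hK.inH hr k3aa_ok) OL.nil OR.a
        have g : _ ≤ ((0 : ℤ) : ℝ) / 10000 := ry _ m0
        norm_num at g
        linarith only [h0, g]
      · exact absurd rfl hz
      · left
        obtain ⟨ry, -, -⟩ := tuse hK t rfl rfl h_5es mn
          (hK.inH hl k5ea_ok) (hK.inH hr k4as_ok) OL.nil OR.s
        have g : _ ≤ ((0 : ℤ) : ℝ) / 10000 := ry _ m0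
        norm_num at g
        linarith only [h0, g]
    · cases l'
      · exact absurd rfl hl'
      · left
        obtain ⟨ry, -, -⟩ := tuse hK t rfl rfl h_5aa mn
          (in_m5a hK hl hle) (hK.inH hr k3aa_ok) OL.nil OR.a
        have g : _ ≤ ((0 : ℤ) : ℝ) / 10000 := ry _ m0
        norm_num at g
        linarith only [h0, g]
      · exact absurd rfl hz
      · left
        obtain ⟨ry, -, -⟩ := tuse hK t rfl rfl h_5as mn
          (in_m5a hK hl hle) (hK.inH hr k4as_ok) OL.nil OR.s
        have g : _ ≤ ((0 : ℤ) : ℝ) / 10000 := ry _ m0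
        norm_num at g
        linarith only [h0, g]
  · by_cases hle : l = .e
    · subst hle
      cases l'
      · exact absurd rfl hl'
      · left
        obtain ⟨ry, -, -⟩ := tuse hK t rfl rfl h_6ea mn
          (in_oN6e hK hl h6) (hK.inH hr k3aa_ok) OL.nil OR.a
        have g : _ ≤ ((0 : ℤ) : ℝ) / 10000 := ry _ m0
        norm_num at g
        linarith only [h0, g]
      · exact absurd rfl hz
      · left
        obtain ⟨ry, -, -⟩ := tuse hK t rfl rfl h_6es mn
          (in_oN6e hK hl h6) (hK.inH hr k4as_ok) OL.nil OR.s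
        have g : _ ≤ ((0 : ℤ) : ℝ) / 10000 := ry _ m0
        norm_num at g
        linarith only [h0, g]
    · cases l'
      · exact absurd rfl hl'
      · left
        obtain ⟨ry, -, -⟩ := tuse hK t rfl rfl h_6aa mn
          (in_oN6a hK hl h6 hle) (hK.inH hr k3aa_ok) OL.nil OR.a
        have g : _ ≤ ((0 : ℤ) : ℝ) / 10000 := ry _ m0
        norm_num at g
        linarith only [h0, g]
      · exact absurd rfl hz
      · left
        obtain ⟨ry, -, -⟩ := tuse hK t rfl rfl h_6as mn
          (in_oN6a hK hl h6 hle) (hK.inH hr k4as_ok) OL.nil OR.s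
        have g : _ ≤ ((0 : ℤ) : ℝ) / 10000 := ry _ m0
        norm_num at g
        linarith only [h0, g]

/-- one of the exceptions: the other hinge is low -/
theorem three_l {dl : ℕ} {ll : SK} {kl kr : ℂ} (t : LDt K .a .a dl ll 3 .s w kl kr)
    (h : (yH .a (RR w kl) (Complex.cos w)).im ≤ 40 / 10000) :
    (yH .a (RR w kr) (Complex.cos w)).im ≤ 0 := by
  obtain ⟨ry, -, -, -⟩ := tuseL hK t rfl rfl h_4as mn mn (ui_hi (by norm_num; linarith only [h])) mn
    (hK.inH t.h.right.ok.left k4aa_ok) (hK.inH t.h.right.ok.right.symm k4as_ok)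
    (fun hT hq h _ => OL.a hK hT hq h) OR.s
  have g : _ ≤ ((0 : ℤ) : ℝ) / 10000 := ry _ m0
  norm_num at g
  linarith only [g]

/-- a digit `2` next to an absorbed digit `1` and to a ring -/
theorem two_t {d' : ℕ} (t : TDt K .a 2 .s d' l' w R k') (h4 : 4 ≤ d') :
    (yH .a R (Complex.cos w)).im ≤ 75 / 1000 := by
  obtain ⟨ry, -, -⟩ := tuse hK t rfl rfl w_2 mn (hK.inH t.h.ok.left k3as_ok)
    (in_n3Z hK t.h.ok.right.symm (Or.inr h4)) OL.s2 OR.nil
  have g : _ ≤ ((750 : ℤ) : ℝ) / 10000 := ry _ m0
  norm_num at g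
  linarith only [g]

end

end

end Pool.Agent.Work.MP_b30479_gtS.G2.CN.TD

end
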