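import Pool.Agent.Work.MP_b30479_gt.TBS.G2.SWordL
import Pool.Agent.Work.MP_b30479_gt.TBS.G2.CN.TGoal
import Pool.Agent.Work.MP_b30479_gt.TBS.G2.CN.TUse
import Pool.Agent.Work.MP_b30479_gt.TBS.G2.CN.TUt

section

/-!
# The windows of the rings of a word
-/

namespace Pool.Agent.Work.MP_b30479_gtS.G2.CN.TD

open Complex SR
open scoped ComplexConjugate

noncomputable section

section
variable {M : ℕ} {b : Fin (M + 1) → ℤ} {w : ℕ → ℂ}

/-- the ring variable in the own frame -/
lemma ofz_own (v : ZZ (tyW b)) : ofz (b v.1) (zsW b w (.inr v)) = zeta (oW b w v.1.val) := by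
  have h := zeta_own (b := b) (w := w) v.1.val
  have e : zsW b w (.inr v) = -(sg b v.1.val : ℂ) * w v.1.val / Real.pi := rfl
  rw [e, h]
  have hs : sg b v.1.val = if 0 < b v.1 then 1 else -1 := by
    unfold sg
    rw [bb_val]
  unfold ofz
  by_cases h0 : 0 < b v.1
  · rw [if_pos h0, if_pos (by rw [hs, if_pos h0])]
  · rw [if_neg h0, if_neg (by rw [hs, if_neg h0]; norm_num), map_neg, Complex.conj_conj, neg_neg]

lemma oW_re {n : ℕ} (hw : Sol b w) (hn : n ≤ M) (hu : us b n = false) :
    0 < (oW b w n).re ∧ (oW b w n).re < 3 / 2 := by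
  unfold oW
  rw [fz_re]
  exact ⟨hw.re0 n hn hu, hw.re1 n hn hu⟩

section
variable (hb : ClassW b) (F : RingFacts) (hw : Sol b w) {K : KFam} (hS : Snd K b w)
  (Bx : BoxRows K)
variable {h h' : Fin M} {i j j' : Fin (M + 1)} {p : Fin 3}
include hb F hw hS Bx

/-- one side of a ring -/
theorem ring_view (A : Adj h i p j) (h4 : 4 ≤ (b i).natAbs) :
    ∃ (x l : SK) (d' : ℕ) (l' : SK) (R k' : ℂ),
      TDt K x (b i).natAbs l d' l' (oW b w i.val) R k' ∧
      ofr (b i) (zsW b w (.inl (.inl h))) = yH x R (Complex.cos (oW b w i.val)) ∧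
      (l = .e ↔ isEnd i = true) ∧ clsW b j = nC x d' l' ∧
      ((x = .s ∧ us b j.val = true) ∨ (us b j.val = false ∧ d' = (b j).natAbs ∧
        x = if 0 < b i * b j then .z else .a)) ∧
      (kbox x (b i).natAbs l d' l').In (yH x R (Complex.cos (oW b w i.val))) := by
  have hu : us b i.val = false := us_of_abs (by omega)
  obtain ⟨x, l, d', l', R, k', hH, hy, he, hc, hx⟩ := A.side_view hb F hw hS hu
  have ho := oW_re hw (by have := i.2; omega) hu
  refine ⟨x, l, d', l', R, k', ⟨hH, ho.1, ho.2, fun h => ?_⟩, hy, he, hc, hx, Bx.box hH⟩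
  subst h
  exact (Bx.sp hH).2

/-- an absorbed digit: data and variables on both sides -/
theorem absd_full {m : ℕ} (hu : us b (m + 1) = true) :
    HDt K .s (dg b m) (lk b m) (dg b (m + 2)) (rk b (m + 2)) (RR (oW b w m) (oR b w m))
      (Complex.cos (oW b w m)) (oR b w m) ∧
    oR b w m = Complex.cos (oW b w (m + 2)) ∧
    fz (sg b m) (acot2 (Rh b w m)) =
      acot2 (Sp (RR (oW b w m) (oR b w m)) (Complex.cos (oW b w m))) ∧
    fz (sg b (m + 2)) (acot2 (Rh b w (m + 1))) =
      acot2 (Sp (RR (oW b w m) (oR b w m)) (oR b w m)) := by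
  obtain ⟨h1, h2, h3, h4⟩ := us_true hu
  have h5 := us_lt hb hu
  rw [show m + 1 - 1 = m by omega] at h3
  have hrk : rk b m = .s := rk_s (by omega) hu
  have hrn : rn b m = m + 2 := by
    unfold rn
    rw [if_pos hu]
  have hH := hdt_right hb F hw hS (n := m) (by omega) h3
  rw [hrk, hrn] at hH
  have hsg : sg b m * sg b (m + 2) = 1 := by
    have := sg_rk hb (n := m) (by omega) h3
    rw [hrk, hrn] at this
    exact this
  have hss : sg b (m + 2) = sg b m := by
    rcases sg_or (b := b) m with h | h <;> rcases sg_or (b := b) (m + 2) with h' | h' <;>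
      rw [h, h'] at hsg ⊢ <;> norm_num at hsg
  have e0 := own_y_right F hw (n := m) (by omega) h3
  have e2 := own_y_left hb F hw (n := m + 2) (by omega) (by omega) (by simpa using h4)
  rw [show m + 2 - 1 = m + 1 by omega] at e2
  have hlk : lk b (m + 2) = .s := lk_s (by omega) (by rwa [show m + 2 - 1 = m + 1 by omega])
  have hln : ln b (m + 2) = m := by
    unfold ln
    rw [show m + 2 - 1 = m + 1 by omega, if_pos hu]
    omega
  have eo : oR b w m = fz (sg b m) (Complex.cos (w (m + 2))) := by
    unfold oR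
    rw [hrn]
  have eC : Complex.cos (oW b w (m + 2)) = oR b w m := by
    unfold oW
    rw [hss, ← fz_cos, eo]
  refine ⟨?_, eC.symm, ?_, ?_⟩
  · rw [eo]
    exact hH
  · rw [e0, hrk]
    unfold yH
    rw [Hq_s]
  · rw [e2, hlk]
    have eR : RR (oW b w (m + 2)) (oL b w (m + 2)) = RR (oW b w m) (oR b w m) := by
      unfold oW oL oR
      rw [← fz_R0_left hb F hw (by omega) (by omega) (by simpa using h4), hln, hss,
        fz_R0_right hw (by omega) h3]
    rw [eR, eC]
    unfold yH
    rw [Hq_s]

/-- the ring behind a side of an absorbed digit -/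
theorem absd_ring (A : Adj h i p j) (A' : Adj h' i p.rev j') (hu : us b i.val = true) :
    ∃ (l l' : SK) (R k' : ℂ),
      TDt K .s (b j).natAbs l (b j').natAbs l' (oW b w j.val) R k' ∧
      (acot2 (Sp R k')).re < 1 / 2 ∧
      ofr (b j) (zsW b w (.inl (.inl h))) = yH .s R (Complex.cos (oW b w j.val)) ∧
      ofr (b j') (zsW b w (.inl (.inl h'))) = acot2 (Sp R k') ∧
      clsW b j' = cK (b j').natAbs l' ∧ (l = .e ↔ isEnd j = true) := by
  obtain ⟨m, hm⟩ : ∃ m, i.val = m + 1 := ⟨i.val - 1, by have := (us_true hu).1; omega⟩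
  rw [hm] at hu
  obtain ⟨hH, eC, e1, e2⟩ := absd_full hb F hw hS Bx hu
  obtain ⟨h1, h2, h3, h4⟩ := us_true hu
  rw [show m + 1 - 1 = m by omega] at h3
  rw [show m + 1 + 1 = m + 2 by omega] at h4
  have h5 := us_lt hb hu
  have hR := hH.rev
  have f : ∀ z, fz SK.s.sgn z = z := fun z => fz_one z
  rw [f, f, f] at hR
  have hs1 := (Bx.sp hH).2
  have hs2 := (Bx.sp hR).2
  rcases A.elim with ⟨rfl, a1, a2⟩ | ⟨rfl, a1, a2⟩
  · -- the ring `j` is on the right
    have hj' : i.val = h'.val + 1 ∧ j'.val = h'.val := by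
      rcases A'.elim with ⟨h0, -⟩ | ⟨-, h6⟩
      · exact absurd h0 (by decide)
      · exact h6
    have hj : j.val = m + 2 := by omega
    have hjv' : j'.val = m := by omega
    have hjM := j.2
    have d1 : dg b (m + 2) = (b j).natAbs := by rw [← hj, dg_val]
    have d2 : dg b m = (b j').natAbs := by rw [← hjv', dg_val]
    rw [d1, d2, eC] at hR
    have ho := oW_re hw (by omega : m + 2 ≤ M) h4
    refine ⟨rk b (m + 2), lk b m, RR (oW b w m) (oR b w m), Complex.cos (oW b w m),
      ⟨?_, ?_, ?_, fun _ => ?_⟩, ?_, ?_, ?_, ?_, ?_⟩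
    · rw [hj, eC]
      exact hR
    · rw [hj]
      exact ho.1
    · rw [hj]
      exact ho.2
    · rw [hj, ← eC]
      exact hs2
    · exact hs1
    · rw [ofr_fz, zsW_val h (n := m + 1) (by omega), hj, e2, eC]
      unfold yH
      rw [Hq_s]
    · rw [ofr_fz, zsW_val h' (n := m) (by omega), hjv', e1]
    · rw [← d2, ← hjv']
      refine clsW_eq _ ?_
      constructor
      · intro h6
        left
        by_contra hc
        exact lk_ne_e (by omega) h6
      · rintro (h6 | h6)
        · rw [h6]
          exact lk_e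
        · omega
    · rw [isEnd_iff, hj]
      constructor
      · intro h6
        right
        by_contra hc
        exact rk_ne_e (by omega) h6
      · rintro (h6 | h6)
        · omega
        · exact rk_e (by omega)
  · -- the ring `j` is on the left
    have hj' : i.val = h'.val ∧ j'.val = h'.val + 1 := by
      rcases A'.elim with ⟨-, h6⟩ | ⟨h0, -⟩
      · exact h6
      · exact absurd h0 (by decide)
    have hj : j.val = m := by omega
    have hjv' : j'.val = m + 2 := by omega
    have hjM := j'.2
    have d1 : dg b m = (b j).natAbs := by rw [← hj, dg_val]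
    have d2 : dg b (m + 2) = (b j').natAbs := by rw [← hjv', dg_val]
    rw [d1, d2] at hH
    have ho := oW_re hw (by omega : m ≤ M) h3
    refine ⟨lk b m, rk b (m + 2), RR (oW b w m) (oR b w m), oR b w m,
      ⟨?_, ?_, ?_, fun _ => ?_⟩, ?_, ?_, ?_, ?_, ?_⟩
    · rw [hj]
      exact hH
    · rw [hj]
      exact ho.1
    · rw [hj]
      exact ho.2
    · rw [hj]
      exact hs1
    · exact hs2
    · rw [ofr_fz, zsW_val h (n := m) (by omega), hj, e1]
      unfold yH
      rw [Hq_s]
    · rw [ofr_fz, zsW_val h' (n := m + 1) (by omega), hjv', e2]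
    · rw [← d2, ← hjv']
      refine clsW_eq _ ?_
      constructor
      · intro h6
        right
        by_contra hc
        exact rk_ne_e (by omega) h6
      · rintro (h6 | h6)
        · omega
        · exact rk_e (by omega)
    · rw [isEnd_iff, hj]
      constructor
      · intro h6
        left
        by_contra hc
        exact lk_ne_e (by omega) h6
      · rintro (h6 | h6)
        · rw [h6]
          exact lk_e
        · omega

end

end

end

end Pool.Agent.Work.MP_b30479_gtS.G2.CN.TD

end

section

/-!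
# Windows of the rings next to the digit `2`
-/

namespace Pool.Agent.Work.MP_b30479_gtS.G2.CN.TD

open Complex SR

noncomputable section

/-! ### next to a digit `2` inside -/

lemma RB2.of {S Q C : ℝ} {y z : ℂ} (h : Bd S Q C y z) (h1 : S ≤ 2225 / 10000)
    (h2 : Q ≤ 1400 / 10000) (h3 : Q + 13 / 10 * S ≤ 3980 / 10000) (h4 : C ≤ 4495 / 10000) :
    RB2 y z :=
  ⟨h.s.trans h1, h.q.trans h2, by linarith only [h.s, h.q, h3, h], h.c.trans h4⟩

section
variable {K : KFam} (hK : KOK K) {l : SK} {l' : SK} {w R k' : ℂ}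
include hK

/-- four crossings -/
theorem b2_4 (t : TDt K .a 4 l 2 l' w R k') (hl' : l' ≠ .e)
    (rg : Rg (yH .a R (Complex.cos w)) (zeta w)) : RB2 (yH .a R (Complex.cos w)) (zeta w) := by
  have hl := t.h.ok.left
  have hr := t.h.ok.right.symm
  have h2 := hr.zl
  cases l'
  · exact absurd rfl hl'
  · have hn := hK.inH hr k2aa_ok
    cases l
    · have h := bd_of hK t rfl rfl t2_4ea (hK.inH hl k4ea_ok) hn OL.e OR.a rg (by norm_num)
        (by norm_num)
      norm_num at h
      exact RB2.of h (by norm_num) (by norm_num) (by norm_num) (by norm_num)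
    · have h := bd_of hK t rfl rfl t2_4aa (hK.inH hl k4aa_ok) hn OL.a OR.a rg (by norm_num)
        (by norm_num)
      norm_num at h
      exact RB2.of h (by norm_num) (by norm_num) (by norm_num) (by norm_num)
    · have h := bd_of hK t rfl rfl t2_4za (hK.inH hl k4az_ok) hn OL.z OR.a rg (by norm_num)
        (by norm_num)
      norm_num at h
      obtain ⟨e1, e2, e3⟩ := h
      refine ⟨by linarith only [e1], by linarith only [e2], ?_, by linarith only [e3]⟩
      rcases le_or_gt (2030 / 10000) (-(zeta w).re) with h5 | h5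
      · have h6 := slab hK t rfl rfl t2_4ya (by decide +kernel) (hK.inH hl k4az_ok) hn OL.z OR.a
          (by norm_num; linarith only [h5]) (by norm_num; linarith only [rg.z1, e1])
        norm_num at h6
        linarith only [e1, h6]
      · linarith only [e2, h5]
    · have h := bd_of hK t rfl rfl t2_4sa (hK.inH hl k5as_ok) hn (OL.s (by norm_num)) OR.a rg
        (by norm_num) (by norm_num)
      norm_num at h
      exact RB2.of h (by norm_num) (by norm_num) (by norm_num) (by norm_num)
  · have := h2 rfl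
    omega
  · have hn := hK.inH hr k3as_ok
    cases l
    · have h := bd_of hK t rfl rfl t2_4es (hK.inH hl k4ea_ok) hn OL.e OR.s rg (by norm_num)
        (by norm_num)
      norm_num at h
      exact RB2.of h (by norm_num) (by norm_num) (by norm_num) (by norm_num)
    · have h := bd_of hK t rfl rfl t2_4as (hK.inH hl k4aa_ok) hn OL.a OR.s rg (by norm_num)
        (by norm_num)
      norm_num at h
      exact RB2.of h (by norm_num) (by norm_num) (by norm_num) (by norm_num)
    · have h := bd_of hK t rfl rfl t2_4zs (hK.inH hl k4az_ok) hn OL.z OR.s rg (by norm_num)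
        (by norm_num)
      norm_num at h
      obtain ⟨e1, e2, e3⟩ := h
      refine ⟨by linarith only [e1], by linarith only [e2], ?_, by linarith only [e3]⟩
      rcases le_or_gt (2030 / 10000) (-(zeta w).re) with h5 | h5
      · have h6 := slab hK t rfl rfl t2_4ys (by decide +kernel) (hK.inH hl k4az_ok) hn OL.z OR.s
          (by norm_num; linarith only [h5]) (by norm_num; linarith only [rg.z1, e1])
        norm_num at h6
        linarith only [e1, h6]
      · linarith only [e2, h5]
    · have h := bd_of hK t rfl rfl t2_4ss (hK.inH hl k5as_ok) hn (OL.s (by norm_num)) OR.s rg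
        (by norm_num) (by norm_num)
      norm_num at h
      exact RB2.of h (by norm_num) (by norm_num) (by norm_num) (by norm_num)

/-- five crossings -/
theorem b2_5 (t : TDt K .a 5 l 2 l' w R k') (hl' : l' ≠ .e) (hz : ZB 5 l (zeta w))
    (rg : Rg (yH .a R (Complex.cos w)) (zeta w))
    (y1 : (yH .a R (Complex.cos w)).re ≤ 252 / 1000) :
    RB2 (yH .a R (Complex.cos w)) (zeta w) := by
  have hl := t.h.ok.left
  have hn := in_n2 hK t.h.ok.right.symm hl'
  by_cases hle : l = .e
  · subst hle
    have h := bd_of hK t rfl rfl t2_5e (hK.inH hl k5ea_ok) hn OL.nil OR.nil rg (by norm_num)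
      (by norm_num)
    norm_num at h
    exact RB2.of h (by norm_num) (by norm_num) (by norm_num) (by norm_num)
  · obtain ⟨a1, a2, a3, a4⟩ := zb5 (hz.i hle)
    have key : (zeta w).im - (yH .a R (Complex.cos w)).im ≤ 1400 / 10000 := by
      cases l
      · exact absurd rfl hle
      · have h := q_of hK t rfl rfl t2_5a (hK.inH hl k5aa_ok) hn OL.a OR.nil
        norm_num at h
        linarith only [h]
      · have h := q_of hK t rfl rfl t2_5z (hK.inH hl k5az_ok) hn OL.z OR.nil
        norm_num at h
        linarith only [h]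
      · have h := q_of hK t rfl rfl t2_5s (hK.inH hl k6as_ok) hn OL.nil OR.nil
        norm_num at h
        linarith only [h]
    exact ⟨by linarith only [a1], key, by linarith only [a1, key], by linarith only [y1, a1]⟩

end

/-- **Next to a digit `2` inside.** -/
theorem b2 {K : KFam} (hK : KOK K) {d : ℕ} {l : SK} {l' : SK} {w R k' : ℂ}
    (t : TDt K .a d l 2 l' w R k') (h4 : 4 ≤ d) (hl' : l' ≠ .e)
    (hz : ZB d l (zeta w)) (hy : YB .a 2 l' (yH .a R (Complex.cos w))) :
    RB2 (yH .a R (Complex.cos w)) (zeta w) := by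
  have z0 := zb_rg h4 hz
  obtain ⟨y0, y1, y2, y3⟩ := yb2 hl' hy
  have rg : Rg (yH .a R (Complex.cos w)) (zeta w) :=
    ⟨by linarith only [y0], by linarith only [y1], z0.1, z0.2⟩
  rcases Nat.lt_or_ge d 6 with h6 | h6
  · have : d = 4 ∨ d = 5 := by omega
    rcases this with rfl | rfl
    · exact b2_4 hK t hl' rg
    · exact b2_5 hK t hl' hz rg y1
  · by_cases hle : l = .e
    · subst hle
      obtain ⟨a1, a2, a3, a4⟩ := zb6e h6 hz
      exact ⟨by linarith only [a1], by linarith only [y2, a4], by linarith only [y2, a1, a4], by linarith only [y1, a1]⟩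
    · obtain ⟨a1, a2, a3, a4⟩ := zb6 h6 (hz.i hle)
      have h := q_of hK t rfl rfl t2_6 (in_oN6a hK t.h.ok.left h6 hle)
        (in_n2 hK t.h.ok.right.symm hl') OL.nil OR.nil
      norm_num at h
      exact ⟨by linarith only [a1], by linarith only [h], by linarith only [y2, a1, a4], by linarith only [y1, a1]⟩

/-! ### next to a digit `2` at the end -/

lemma yb2e {y : ℂ} (h : YB .a 2 .e y) :
    164 / 1000 ≤ y.re ∧ y.re ≤ 186 / 1000 ∧ -(131 / 1000) ≤ y.im ∧ y.im ≤ -(88 / 1000) := by
  unfold YB at h
  obtain ⟨a1, a2, a3, a4⟩ := h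
  norm_num [hbox, cK] at a1 a2 a3 a4
  norm_num
  exact ⟨a1, a2, a3, a4⟩

lemma zb67 {d : ℕ} (h7 : d = 6 ∨ d = 7) {l : SK} {z : ℂ} (h : ZB d l z) : z.re ≤ -(3 / 100) := by
  unfold ZB at h
  obtain ⟨-, a2, -, -⟩ := h
  by_cases hl : l = .e
  · rw [decide_eq_true hl] at a2
    rcases h7 with rfl | rfl <;> norm_num [zbox] at a2 <;> linarith only [a2]
  · rw [decide_eq_false hl] at a2
    rcases h7 with rfl | rfl <;> norm_num [zbox] at a2 <;> linarith only [a2]

section
variable {K : KFam} (hK : KOK K) {l : SK} {w R k' : ℂ}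
include hK

/-- a row with bounds of the hinge and a bound of the difference of the heights -/
theorem xsq_of {x : SK} {d : ℕ} {l : SK} {d' : ℕ} {l' : SK} (t : TDt K x d l d' l' w R k')
    {B B' : ℕ} (hB : crs d l x = B) (hB' : crs d' x l' = B') {o : List QC} {L : List Grp}
    {o' : List QC} {L' : List Grp} {x0 x1 s1 m1 m2 : ℕ} {a1 b1 a2 b2 a3 b3 mq cq : ℤ} {n code : ℕ}
    (hr : trowOk x [] o L o' L' [.arc 0 x0 a2 b2, .arc x1 m2 a3 b3] [.arc s1 m1 a1 b1]
      [.lo mq cq] n code = true)
    (ho : InH (K.K d l x) o) (ho' : InH (K.K d' l' x) o') (hL : OL d B l L)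
    (hL' : OR x d' B' l' L') (rg : Rg (yH x R (Complex.cos w)) (zeta w)) (h1 : 2500 ≤ m1)
    (h2 : 4000 ≤ m2) :
    (x0 : ℝ) / 10000 ≤ (yH x R (Complex.cos w)).re ∧
      (yH x R (Complex.cos w)).re ≤ (x1 : ℝ) / 10000 ∧ -(zeta w).re ≤ (s1 : ℝ) / 10000 ∧
      (zeta w).im - (yH x R (Complex.cos w)).im ≤ -(mq : ℝ) / 10000 := by
  obtain ⟨ry, rz, ru⟩ := tuse hK t hB hB' hr (fun g hg => absurd hg (List.not_mem_nil)) ho ho'
    hL hL'
  have m1' : (2500 : ℝ) ≤ m1 := by exact_mod_cast h1
  have m2' : (4000 : ℝ) ≤ m2 := by exact_mod_cast h2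
  have g1 := arc_ub (rz _ (List.mem_cons_self)) (by rw [Complex.neg_re]; linarith only [rg.z1, m1', rg])
  have g2 : (mq : ℝ) / 10000 ≤ (yH x R (Complex.cos w) - zeta w).im :=
    ru _ (List.mem_cons_self)
  have g3 := arc_lb (ry _ (List.mem_cons_self)) (by simpa using rg.y0)
  have g4 := arc_ub (ry _ (List.mem_cons_of_mem _ List.mem_cons_self)) (by linarith only [rg.y1, m2', rg])
  rw [Complex.neg_re] at g1
  rw [Complex.sub_im] at g2
  exact ⟨g3.le, g4.le, g1.le, by rw [neg_div]; linarith only [g2]⟩

/-- four crossings inside -/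
theorem b2f (t : TDt K .a 4 l 2 .e w R k') (hl' : l ≠ .e) (hz : ZB 4 l (zeta w))
    (hy : YB .a 2 .e (yH .a R (Complex.cos w))) : RB2f (yH .a R (Complex.cos w)) (zeta w) := by
  have hl := t.h.ok.left
  have hn := hK.inH t.h.ok.right.symm k2ea_ok
  obtain ⟨y0, y1, y2, y3⟩ := yb2e hy
  obtain ⟨a1, a2, a3, a4⟩ := zb4 (hz.i hl')
  have rg : Rg (yH .a R (Complex.cos w)) (zeta w) :=
    ⟨by linarith only [y0], by linarith only [y1], by linarith only [a2], by linarith only [a1]⟩
  cases l
  · exact absurd rfl hl'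
  · have h := xsq_of hK t rfl rfl te_4a (hK.inH hl k4aa_ok) hn OL.a OR.e rg (by norm_num)
      (by norm_num)
    norm_num at h
    obtain ⟨e1, e2, e3, e4⟩ := h
    refine ⟨by linarith only [e1], by linarith only [e2], by linarith only [e3], by linarith only [e4], ?_⟩
    rcases le_or_gt (2000 / 10000) (-(zeta w).re) with h5 | h5
    · have h6 := slab hK t rfl rfl te_4aS (by decide +kernel) (hK.inH hl k4aa_ok) hn OL.a OR.e
        (by norm_num; linarith only [h5]) (by norm_num; linarith only [rg.z1, e3])
      norm_num at h6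
      linarith only [e3, h6]
    · linarith only [e4, h5]
  · have h := xsq_of hK t rfl rfl te_4z (hK.inH hl k4az_ok) hn OL.z OR.e rg (by norm_num)
      (by norm_num)
    norm_num at h
    obtain ⟨e1, e2, e3, e4⟩ := h
    refine ⟨by linarith only [e1], by linarith only [e2], by linarith only [e3], by linarith only [e4], ?_⟩
    rcases le_or_gt (2025 / 10000) (-(zeta w).re) with h5 | h5
    · have h6 := slab hK t rfl rfl te_4zS (by decide +kernel) (hK.inH hl k4az_ok) hn OL.z OR.e
        (by norm_num; linarith only [h5]) (by norm_num; linarith only [rg.z1, e3])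
      norm_num at h6
      linarith only [e3, h6]
    · linarith only [e4, h5]
  · have h := xsq_of hK t rfl rfl te_4s (hK.inH hl k5as_ok) hn (OL.s (by norm_num)) OR.e rg
      (by norm_num) (by norm_num)
    norm_num at h
    obtain ⟨e1, e2, e3, e4⟩ := h
    exact ⟨by linarith only [e1], by linarith only [e2], by linarith only [e3], by linarith only [e4], by linarith only [e3, e4]⟩

/-- the word `4 2` -/
theorem b42 (t : TDt K .a 4 .e 2 .e w R k') (hz : ZB 4 .e (zeta w))
    (hy : YB .a 2 .e (yH .a R (Complex.cos w))) : RB42 (yH .a R (Complex.cos w)) (zeta w) := by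
  have hl := t.h.ok.left
  have hn := hK.inH t.h.ok.right.symm k2ea_ok
  obtain ⟨y0, y1, y2, y3⟩ := yb2e hy
  obtain ⟨a1, a2, a3, a4⟩ := zb4e hz
  obtain ⟨ry, rz, -⟩ := tuse hK t rfl rfl te_4e (fun g hg => absurd hg (List.not_mem_nil))
    (hK.inH hl k4ea_ok) hn OL.e OR.e
  have g1 := arc_lb (ry _ (List.mem_cons_self)) (by norm_num; linarith only [y0])
  have g2 := arc_ub (ry _ (List.mem_cons_of_mem _ List.mem_cons_self)) (by norm_num; linarith only [y1])
  have g3 : ((-930 : ℤ) : ℝ) / 10000 ≤ _ := ry _ (List.mem_cons_of_mem _ (List.mem_cons_of_mem _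
    List.mem_cons_self))
  have g4 : _ ≤ ((-925 : ℤ) : ℝ) / 10000 := ry _ (List.mem_cons_of_mem _ (List.mem_cons_of_mem _
    (List.mem_cons_of_mem _ List.mem_cons_self)))
  have g5 := arc_ub (rz _ (List.mem_cons_self)) (by rw [Complex.neg_re]; norm_num; linarith only [a1, g1, g2])
  have g6 := arc_lb (rz _ (List.mem_cons_of_mem _ List.mem_cons_self))
    (by rw [Complex.neg_re]; norm_num; linarith only [a2, g1, g2])
  have g7 : ((-265 : ℤ) : ℝ) / 10000 ≤ _ := rz _ (List.mem_cons_of_mem _ (List.mem_cons_of_mem _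
    List.mem_cons_self))
  rw [Complex.neg_re] at g5 g6
  rw [Complex.neg_im] at g7
  norm_num at g1 g2 g3 g4 g5 g6 g7
  exact ⟨by linarith only [g1], by linarith only [g2], by linarith only [g3], by linarith only [g4], by linarith only [g6], by linarith only [g5],
    by linarith only [g7]⟩

/-- at least five crossings -/
theorem b2e {d : ℕ} (t : TDt K .a d l 2 .e w R k') (h5 : 5 ≤ d) (hz : ZB d l (zeta w))
    (hy : YB .a 2 .e (yH .a R (Complex.cos w))) : RB2e (yH .a R (Complex.cos w)) (zeta w) := by
  have hl := t.h.ok.left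
  have hn := hK.inH t.h.ok.right.symm k2ea_ok
  obtain ⟨y0, y1, y2, y3⟩ := yb2e hy
  have z0 := zb_rg (by omega : 4 ≤ d) hz
  have rg : Rg (yH .a R (Complex.cos w)) (zeta w) :=
    ⟨by linarith only [y0], by linarith only [y1], z0.1, z0.2⟩
  rcases h5.eq_or_lt with h6 | h6
  · subst h6
    by_cases hle : l = .e
    · subst hle
      obtain ⟨a1, a2, a3, a4⟩ := zb5e hz
      have h := bd_of hK t rfl rfl te_5e (hK.inH hl k5ea_ok) hn OL.e OR.e rg (by norm_num)
        (by norm_num)
      norm_num at h
      obtain ⟨e1, e2, e3⟩ := h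
      exact ⟨by linarith only [e1], by linarith only [y2, a4, e2], by linarith only [e1, e2], by linarith only [e3], Or.inl (by linarith only [a2])⟩
    · obtain ⟨a1, a2, a3, a4⟩ := zb5 (hz.i hle)
      cases l
      · exact absurd rfl hle
      · have h := bd_of hK t rfl rfl te_5a (hK.inH hl k5aa_ok) hn OL.a OR.e rg (by norm_num)
          (by norm_num)
        norm_num at h
        obtain ⟨e1, e2, e3⟩ := h
        exact ⟨by linarith only [e1], by linarith only [e2], by linarith only [e1, e2], by linarith only [y1, e1], Or.inl (by linarith only [a2])⟩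
      · have h := bd_of hK t rfl rfl te_5z (hK.inH hl k5az_ok) hn OL.z OR.e rg (by norm_num)
          (by norm_num)
        norm_num at h
        obtain ⟨e1, e2, e3⟩ := h
        exact ⟨by linarith only [e1], by linarith only [e2], by linarith only [e1, e2], by linarith only [y1, e1], Or.inl (by linarith only [a2])⟩
      · have h := bd_of hK t rfl rfl te_5s (hK.inH hl k6as_ok) hn OL.nil OR.e rg (by norm_num)
          (by norm_num)
        norm_num at h
        obtain ⟨e1, e2, e3⟩ := h
        exact ⟨by linarith only [e1], by linarith only [e2], by linarith only [e1, e2], by linarith only [y1, e1], Or.inl (by linarith only [a2])⟩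
  · have key : 3 / 100 ≤ -(zeta w).re ∨ 171 / 1000 ≤ (yH .a R (Complex.cos w)).re := by
      rcases Nat.lt_or_ge d 8 with h8 | h8
      · left
        have h7 : d = 6 ∨ d = 7 := by omega
        linarith only [zb67 h7 hz, h7, hz]
      · by_contra hc
        push Not at hc
        obtain ⟨c1, c2⟩ := hc
        have kz := trow hK t te_8 (fun g hg => absurd hg (List.not_mem_nil))
          ((in_oN8 hK hl h8) _ t.h.mem) hn (by
            intro q q' hT hq e1 e2
            refine allOk_one ⟨_, expZ t.h.kre _, ?_⟩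
            intro Q hQ
            obtain ⟨g, hg, rfl⟩ := List.mem_map.1 hQ
            rw [List.mem_singleton] at hg
            subst hg
            refine GC.imp (by decide +kernel) ⟨?_, ?_⟩
            · rw [Complex.neg_re]
              norm_num
              linarith only [z0]
            · rw [Complex.neg_re]
              norm_num
              linarith only [c1]) (by
            intro q q' hT hq h
            exact OR.e hK hT hq h)
        have g1 := arc_lb (kz.1 _ (List.mem_cons_self)) (by norm_num; linarith only [y0])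
        norm_num at g1
        linarith only [c2, g1]
    by_cases hle : l = .e
    · subst hle
      obtain ⟨a1, a2, a3, a4⟩ := zb6e h6 hz
      exact ⟨by linarith only [a1], by linarith only [y2, a4], by linarith only [y2, a1, a4], by linarith only [y1, a1], key⟩
    · obtain ⟨a1, a2, a3, a4⟩ := zb6 h6 (hz.i hle)
      have h := q_of hK t rfl rfl te_6 (in_oN6a hK hl h6 hle) hn OL.nil OR.e
      norm_num at h
      exact ⟨by linarith only [a1], by linarith only [h], by linarith only [a1, h], by linarith only [y1, a1], key⟩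

end

end

end Pool.Agent.Work.MP_b30479_gtS.G2.CN.TD

end

section

/-!
# The windows of the rings of a word: assembly
-/

namespace Pool.Agent.Work.MP_b30479_gtS.G2.CN.TD

open Complex SR
open scoped ComplexConjugate

noncomputable section

variable {M : ℕ} {b : Fin (M + 1) → ℤ} {w : ℕ → ℂ}

/-- the box of the ring variable -/
lemma zb_of (hL : Loc b (zsW b w)) (v : ZZ (tyW b)) {l : SK} (hl : l = .e ↔ isEnd v.1 = true) :
    ZB (b v.1).natAbs l (zeta (oW b w v.1.val)) := by
  have h := hL.ring v
  rw [ofz_own] at h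
  unfold ZB
  have e : decide (l = .e) = isEnd v.1 := by
    rcases Bool.eq_false_or_eq_true (isEnd v.1) with h1 | h1
    · rw [h1, decide_eq_true (hl.2 h1)]
    · rw [h1, decide_eq_false (fun h2 => by rw [hl.1 h2] at h1; exact absurd h1 (by decide))]
  rw [e]
  exact h

lemma kbox_un {x : SK} {d : ℕ} {l : SK} {d' : ℕ} {l' : SK} {y : ℂ} (h4 : 4 ≤ d) (hx : x ≠ .s)
    (h : (kbox x d l d' l').In y) : YB x d' l' y := by
  unfold kbox at h
  rw [if_neg hx, cK_ring h4] at h
  exact h

lemma kbox_s {d : ℕ} {l : SK} {d' : ℕ} {l' : SK} {y : ℂ} (h4 : 4 ≤ d)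
    (h : (kbox .s d l d' l').In y) : (hbox .ring .one false).In y := by
  unfold kbox at h
  rw [if_pos rfl, cK_ring h4] at h
  exact h

lemma nC_ne_s {x : SK} {d' : ℕ} {l' : SK} {A : Cl} (h : A = nC x d' l') (hA : A ≠ .one) :
    x ≠ .s ∧ A = cK d' l' := by
  unfold nC at h
  split_ifs at h with h1
  · exact absurd h hA
  · exact ⟨h1, h⟩

lemma cK_two' {d : ℕ} {l : SK} (h : Cl.two = cK d l) : d = 2 ∧ l ≠ .e := cK_two h.symm

lemma cK_twoE {d : ℕ} {l : SK} (h : Cl.twoE = cK d l) : d = 2 ∧ l = .e := by
  unfold cK at h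
  split_ifs at h with h1 h2 h3 h4 h5
  exact ⟨h2, h3⟩

lemma cK_ge3 {d : ℕ} {l : SK} {A : Cl} (hd : 1 ≤ d) (h : A = cK d l)
    (hA : A = .three ∨ A = .threeE ∨ A = .ring) : 3 ≤ d := by
  subst h
  by_contra hc
  have h1 : d = 1 ∨ d = 2 := by omega
  rcases h1 with rfl | rfl
  · simp [cK] at hA
  · unfold cK at hA
    split_ifs at hA <;> simp_all

lemma one_nat {i : Fin (M + 1)} (hc : clsW b i = .one) : (b i).natAbs = 1 := by
  unfold clsW cls at hc
  split_ifs at hc with h1
  exact h1

lemma one_box {y : ℂ} (h : (hbox .ring .one false).In y) : 0 ≤ y.re ∧ y.re ≤ 2 / 5 := by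
  obtain ⟨a1, a2, -, -⟩ := h
  norm_num [hbox] at a1 a2
  constructor <;> linarith

section
variable (hb : ClassW b) (F : RingFacts) (hw : Sol b w) {K : KFam} (hS : Snd K b w)
  (Bx : BoxRows K)
variable {h h' : Fin M} {i j j' : Fin (M + 1)} {p : Fin 3}
include hb F hw hS Bx

/-- the side of a ring next to a digit `1` -/
theorem one_side (A : Adj h j p i) (h4 : 4 ≤ (b j).natAbs) (hc : clsW b i = .one) :
    ∃ (x l : SK) (d' : ℕ) (l' : SK) (R k' : ℂ),
      TDt K x (b j).natAbs l d' l' (oW b w j.val) R k' ∧
      ofr (b j) (zsW b w (.inl (.inl h))) = yH x R (Complex.cos (oW b w j.val)) ∧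
      (l = .e ↔ isEnd j = true) ∧
      ((x = .s ∧ us b i.val = true) ∨ (us b i.val = false ∧ d' = 1 ∧ x = .a)) ∧
      (hbox .ring .one false).In (yH x R (Complex.cos (oW b w j.val))) := by
  obtain ⟨x, l, d', l', R, k', t, hy, he, hc', hx, hB⟩ := ring_view hb F hw hS Bx A h4
  have h1 := one_nat hc
  refine ⟨x, l, d', l', R, k', t, hy, he, ?_, ?_⟩
  · rcases hx with hx | ⟨hu, hd, hx⟩
    · exact Or.inl hx
    · refine Or.inr ⟨hu, by omega, ?_⟩
      by_contra hc2
      have hz : x = .z := by
        rw [hx] at hc2 ⊢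
        split_ifs at hc2 ⊢ with h2
        · rfl
        · exact absurd rfl hc2
      have := t.h.ok.right.zl hz
      omega
  · rcases hx with ⟨rfl, -⟩ | ⟨hu, hd, hx⟩
    · exact kbox_s h4 hB
    · have hd' : d' = 1 := by omega
      subst hd'
      have hxs : x ≠ .s := by
        rw [hx]
        split_ifs <;> decide
      have hB' := kbox_un h4 hxs hB
      unfold YB at hB'
      have hz : x ≠ .z := fun hz => by
        have := t.h.ok.right.zl hz
        omega
      rw [decide_eq_false hz] at hB'
      exact hB'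

end

section
variable (hb : ClassW b) (F : RingFacts) (hw : Sol b w) (hM : 1 ≤ M) {K : KFam} (hK : KOK K)
  (hS : Snd K b w) (Bx : BoxRows K)
include hb F hw hM hK hS Bx

/-- **The windows of the rings of a word.** -/
theorem locRg_of : LocRg b (zsW b w) := by
  have hL := loc_of_boxes hb F hw hM hS Bx
  have hr4 : ∀ v : ZZ (tyW b), 4 ≤ (b v.1).natAbs := by
    rintro ⟨i, hv⟩
    exact ring_four hb (by
      cases h : tyW b i <;> rw [h] at hv <;> first | rfl | exact absurd hv (by decide))
  have base : ∀ {h : Fin M} {i j : Fin (M + 1)} {p : Fin 3} (v : ZZ (tyW b)), v.1 = i →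
      Adj h i p j → clsW b j ≠ .one →
      ∃ (x l : SK) (d' : ℕ) (l' : SK) (R k' : ℂ),
        TDt K x (b i).natAbs l d' l' (oW b w i.val) R k' ∧ 4 ≤ (b i).natAbs ∧
        ofr (b i) (zsW b w (.inl (.inl h))) = yH x R (Complex.cos (oW b w i.val)) ∧
        ofz (b i) (zsW b w (.inr v)) = zeta (oW b w i.val) ∧
        (l = .e ↔ isEnd i = true) ∧ clsW b j = cK d' l' ∧ (x = .a ∨ x = .z) ∧ 1 ≤ d' ∧
        ZB (b i).natAbs l (zeta (oW b w i.val)) ∧
        YB x d' l' (yH x R (Complex.cos (oW b w i.val))) := by
    intro h i j p v hv A hc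
    subst hv
    have h4 := hr4 v
    obtain ⟨x, l, d', l', R, k', t, hy, he, hc', hx, hB⟩ := ring_view hb F hw hS Bx A h4
    obtain ⟨hxs, hcc⟩ := nC_ne_s hc' hc
    refine ⟨x, l, d', l', R, k', t, h4, hy, ofz_own v, he, hcc, ?_, t.h.ok.right.pos,
      zb_of hL v he, kbox_un h4 hxs hB⟩
    rcases hx with ⟨h1, -⟩ | ⟨-, -, h1⟩
    · exact absurd h1 hxs
    · rw [h1]
      split_ifs
      · exact Or.inr rfl
      · exact Or.inl rfl
  have rg : ∀ {x l : SK} {R : ℂ} {j : Fin (M + 1)} (v : ZZ (tyW b)), v.1 = j →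
      (l = .e ↔ isEnd j = true) →
      (hbox .ring .one false).In (yH x R (Complex.cos (oW b w j.val))) →
      Rg (yH x R (Complex.cos (oW b w j.val))) (zeta (oW b w j.val)) := by
    intro x l R j v hv he hB
    subst hv
    have z0 := zb_rg (hr4 v) (zb_of hL v he)
    have y0 := one_box hB
    exact ⟨y0.1, y0.2, z0.1, z0.2⟩
  -- a digit `1` which is not absorbed: the other neighbour is absorbed
  have far : ∀ {h h' : Fin M} {i j j' : Fin (M + 1)} {p : Fin 3}, Adj h i p j →
      Adj h' i p.rev j' → us b i.val = false → (b i).natAbs = 1 → clsW b j ≠ .one →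
      clsW b j' = .one := by
    intro h h' i j j' p A A' hu h1 hj
    obtain ⟨x, x', dl, ll, dr, rr, kl, kr, hE, -, -, c1, c2⟩ := A.pair_view hb F hw hS A' hu
    obtain ⟨hxs, -⟩ := nC_ne_s c1 hj
    rw [h1] at hE
    have h2 : x' = .s := (hE.left.ok.left.one rfl).1.resolve_right hxs
    rw [c2, h2]
    rfl
  refine ⟨?_, ?_, ?_, ?_, ?_, ?_, ?_, ?_⟩
  · -- three
    intro h i j p v hv A hc hcj
    obtain ⟨x, l, d', l', R, k', t, h4, hy, hz, he, hcc, hx, hd, hZ, hY⟩ :=
      base v hv A (by rcases hcj with h | h | h <;> rw [h] <;> decide)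
    rw [hy, hz]
    exact b3 hK t h4 hx (cK_ge3 hd hcc hcj) hZ hY
  · -- two
    intro h i j p v hv A hc hcj
    obtain ⟨x, l, d', l', R, k', t, h4, hy, hz, he, hcc, hx, hd, hZ, hY⟩ :=
      base v hv A (by rw [hcj]; decide)
    rw [hcj] at hcc
    obtain ⟨rfl, hl'⟩ := cK_two' hcc
    obtain rfl : x = .a := hx.resolve_right fun h5 => by
      have := t.h.ok.right.zl h5
      omega
    rw [hy, hz]
    exact b2 hK t h4 hl' hZ hY
  · -- twoE5
    intro h i j p v hv A h5 hcj
    obtain ⟨x, l, d', l', R, k', t, h4, hy, hz, he, hcc, hx, hd, hZ, hY⟩ :=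
      base v hv A (by rw [hcj]; decide)
    rw [hcj] at hcc
    obtain ⟨rfl, rfl⟩ := cK_twoE hcc
    obtain rfl : x = .a := hx.resolve_right fun h5 => by
      have := t.h.ok.right.zl h5
      omega
    rw [hy, hz]
    exact b2e hK t h5 hZ hY
  · -- twoE4
    intro h i j p v hv A h5 hend hcj
    obtain ⟨x, l, d', l', R, k', t, h4, hy, hz, he, hcc, hx, hd, hZ, hY⟩ :=
      base v hv A (by rw [hcj]; decide)
    rw [hcj] at hcc
    obtain ⟨rfl, rfl⟩ := cK_twoE hcc
    obtain rfl : x = .a := hx.resolve_right fun h5 => by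
      have := t.h.ok.right.zl h5
      omega
    have hl : l ≠ .e := fun h6 => by
      rw [he.1 h6] at hend
      exact absurd hend (by decide)
    rw [hy, hz]
    rw [h5] at t hZ
    exact b2f hK t hl hZ hY
  · -- w42
    intro h i j p v hv A h5 hend hcj
    obtain ⟨x, l, d', l', R, k', t, h4, hy, hz, he, hcc, hx, hd, hZ, hY⟩ :=
      base v hv A (by rw [hcj]; decide)
    rw [hcj] at hcc
    obtain ⟨rfl, rfl⟩ := cK_twoE hcc
    obtain rfl : x = .a := hx.resolve_right fun h5 => by
      have := t.h.ok.right.zl h5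
      omega
    obtain rfl : l = .e := he.2 hend
    rw [hy, hz]
    rw [h5] at t hZ
    exact b42 hK t hZ hY
  · -- one
    intro h h' i j j' p v hv A A' hc h45
    have h4 : 4 ≤ (b j).natAbs := by omega
    have hi := one_nat hc
    obtain ⟨x, l, d', l', R, k', t, hy, he, hx', hB⟩ := one_side hb F hw hS Bx A.symm h4 hc
    have hdec : ∀ {l : SK}, (l = .e ↔ isEnd j = true) → decide (l = .e) = isEnd j := by
      intro l he
      rcases Bool.eq_false_or_eq_true (isEnd j) with h1 | h1
      · rw [h1, decide_eq_true (he.2 h1)]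
      · rw [h1, decide_eq_false (fun h2 => by rw [he.1 h2] at h1; exact absurd h1 (by decide))]
    rcases hx' with ⟨rfl, hu⟩ | ⟨hu, rfl, rfl⟩
    · -- absorbed
      clear he
      obtain ⟨l, l', R, k', t, h3, hy, -, hc', he⟩ := absd_ring hb F hw hS Bx A A' hu
      have hB : (hbox .ring .one false).In (yH .s R (Complex.cos (oW b w j.val))) := by
        obtain ⟨x, l, d', l', R2, k2, t2, hy2, he2, hx2, hB2⟩ :=
          one_side hb F hw hS Bx A.symm h4 hc
        rw [← hy, hy2]
        exact hB2
      have r0 := rg v hv he hB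
      have hd : (b j').natAbs = 1 ∨ (b j').natAbs = 2 := by
        have h5 := t.h.ok.one rfl
        have h6 := t.h.ok.right.pos
        omega
      have hz : l' ≠ .z := fun h5 => by
        have := t.h.ok.right.zr h5
        omega
      subst hv
      rw [ofz_own, hy, hc']
      rw [← hdec he]
      generalize (b j').natAbs = d' at t hd hc'
      generalize (b v.1).natAbs = d at t h45
      rcases hd with rfl | rfl
      · rw [show cK 1 l' = .one by simp [cK]]
        cases l'
        · exact absurd rfl (t.h.ok.right.one rfl).2.2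
        · rcases h45 with rfl | rfl
          · exact (one4_1a hK t r0).1
          · exact one5_1a hK t r0
        · exact absurd rfl hz
        · rcases h45 with rfl | rfl
          · exact (one4_1s hK t r0).1
          · exact one5_1s hK t r0
      · cases l'
        · rw [show cK 2 .e = .twoE by simp [cK]]
          rcases h45 with rfl | rfl
          · exact (one4_2e hK t r0).1
          · exact one5_2e hK t r0
        · rw [show cK 2 .a = .two by simp [cK]]
          rcases h45 with rfl | rfl
          · exact (one4_2a hK t h3 r0).1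
          · exact one5_2a hK t r0
        · exact absurd rfl hz
        · rw [show cK 2 .s = .two by simp [cK]]
          rcases h45 with rfl | rfl
          · exact (one4_2s hK t h3 r0).1
          · exact one5_2s hK t r0
    · -- not absorbed
      have r0 := rg v hv he hB
      have hc' := far A A' hu hi (fun h5 => by
        have := one_nat h5
        omega)
      subst hv
      rw [ofz_own, hy, hc', ← hdec he]
      rcases h45 with h5 | h5
      · rw [h5] at t ⊢
        exact (one4_a hK t r0).1
      · rw [h5] at t ⊢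
        exact one5_a hK t r0
  · -- one6
    intro h i j p v hv A hc h6 hx
    have h4 : 4 ≤ (b j).natAbs := by omega
    obtain ⟨x, l, d', l', R, k', t, hy, he, hx', hB⟩ := one_side hb F hw hS Bx A.symm h4 hc
    subst hv
    rw [ofz_own, hy]
    have y0 := one_box hB
    refine one6 hK t h6 ?_ ?_ y0.2
    · rcases hx' with ⟨h1, -⟩ | ⟨-, h1, h2⟩
      · exact Or.inr h1
      · exact Or.inl ⟨h2, h1⟩
    · rw [← hy, ofr_re]
      exact hx
  · -- kr
    intro h h' i j j' p v hv A A' hc h5 hend
    have h4 : 4 ≤ (b j).natAbs := by omega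
    have hi := one_nat hc
    obtain ⟨x, l, d', l', R, k', t, hy, he, hx', hB⟩ := one_side hb F hw hS Bx A.symm h4 hc
    rcases hx' with ⟨rfl, hu⟩ | ⟨hu, rfl, rfl⟩
    · -- absorbed
      clear he
      obtain ⟨l, l', R, k', t, h3, hy, hy', hc', he⟩ := absd_ring hb F hw hS Bx A A' hu
      have hB : (hbox .ring .one false).In (yH .s R (Complex.cos (oW b w j.val))) := by
        obtain ⟨x, l, d', l', R2, k2, t2, hy2, he2, hx2, hB2⟩ :=
          one_side hb F hw hS Bx A.symm h4 hc
        rw [← hy, hy2]
        exact hB2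
      have r0 := rg v hv he hB
      have hl : l ≠ .e := fun h6 => by
        rw [he.1 h6] at hend
        exact absurd hend (by decide)
      have hd : (b j').natAbs = 1 ∨ (b j').natAbs = 2 := by
        have h5 := t.h.ok.one rfl
        have h6 := t.h.ok.right.pos
        omega
      have hz : l' ≠ .z := fun h5 => by
        have := t.h.ok.right.zr h5
        omega
      have hop : b j' * b i < 0 := A'.symm.opp hb (Or.inr (by rw [hc]; decide))
      have es : ofs (b i) (zsW b w (.inl (.inl h'))).im = -(acot2 (Sp R k')).im := by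
        rw [ofs_opp hop, ← ofr_im, hy']
      have ez : (zsW b w (.inr v)).im = (zeta (oW b w v.1.val)).im := by
        rw [← ofz_own v, ofz_im]
      subst hv
      rw [es, ez, hc']
      generalize (b j').natAbs = d' at t hd hc'
      rw [h5] at t
      rcases hd with rfl | rfl
      · rw [show cK 1 l' = .one by simp [cK]]
        refine ⟨?_, fun h6 => absurd h6 (by decide)⟩
        cases l'
        · exact absurd rfl (t.h.ok.right.one rfl).2.2
        · exact (one4_1a hK t r0).2 hl
        · exact absurd rfl hz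
        · exact (one4_1s hK t r0).2 hl
      · cases l'
        · rw [show cK 2 .e = .twoE by simp [cK]]
          exact ⟨((one4_2e hK t r0).2 hl).trans (by norm_num), fun h6 => absurd h6 (by decide)⟩
        · have h7 := (one4_2a hK t h3 r0).2 hl
          exact ⟨h7.1.trans (by norm_num), fun _ => h7⟩
        · exact absurd rfl hz
        · have h7 := (one4_2s hK t h3 r0).2 hl
          exact ⟨h7.1.trans (by norm_num), fun _ => h7⟩
    · -- not absorbed
      have r0 := rg v hv he hB
      have hl : l ≠ .e := fun h6 => by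
        rw [he.1 h6] at hend
        exact absurd hend (by decide)
      have hc' := far A A' hu hi (fun h5 => by
        have := one_nat h5
        omega)
      have ez : (zsW b w (.inr v)).im = (zeta (oW b w v.1.val)).im := by
        rw [← ofz_own v, ofz_im]
      subst hv
      rw [h5] at t
      rw [ez, hc']
      exact ⟨(one4_a hK t r0).2 hl, fun h6 => absurd h6 (by decide)⟩

end

end

end Pool.Agent.Work.MP_b30479_gtS.G2.CN.TD

end
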