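import Pool.Agent.Work.MP_b30479_gt.TBS.G2.SWordL
import Pool.Agent.Work.MP_b30479_gt.TBS.G2.CN.TGoal
import Pool.Agent.Work.MP_b30479_gt.TBS.G2.SZa
import Pool.Agent.Work.MP_b30479_gt.TBS.G2.CN.TLef
import Pool.Agent.Work.MP_b30479_gt.TBS.G2.CN.TUse
import Pool.Agent.Work.MP_b30479_gt.TBS.G2.CN.TTabB
import Pool.Agent.Work.MP_b30479_gt.TBS.G2.CN.TUt
import Pool.Agent.Work.MP_b30479_gt.TBS.G2.CN.M3Mid

section

/-!
# The two sides of a region of a word
-/

namespace Pool.Agent.Work.MP_b30479_gtS.G2.CN.TD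

open Complex SR
open scoped ComplexConjugate

noncomputable section

variable {M : ℕ} {b : Fin (M + 1) → ℤ} {w : ℕ → ℂ}

/-- the side of the region `i` towards its neighbour `j` at slot `p`: kind `x`, next ring
`(d, x, l)` -/
structure Sd (b : Fin (M + 1) → ℤ) (i j : Fin (M + 1)) (p : Fin 3) (x : SK) (d : ℕ) (l : SK) :
    Prop where
  cls : clsW b j = nC x d l
  s : us b j.val = true → x = .s
  u : us b j.val = false → d = (b j).natAbs ∧ x = if 0 < b i * b j then .z else .a
  far : ∀ {h' : Fin M} {j' : Fin (M + 1)}, Adj h' j p j' → us b j.val = true →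
    d = (b j').natAbs ∧ clsW b j' = cK d l
  kd : ∀ {h' : Fin M} {j' : Fin (M + 1)}, Adj h' j p j' → us b j.val = false →
    (us b j'.val = true → l = .s) ∧
      (us b j'.val = false → l = if 0 < b j * b j' then .z else .a)

lemma sd_right {h : Fin M} {i j : Fin (M + 1)} (A : Adj h i 2 j) :
    Sd b i j 2 (rk b i.val) (dg b (rn b i.val)) (rk b (rn b i.val)) := by
  have e : i.val = h.val ∧ j.val = h.val + 1 := by
    rcases A.elim with ⟨-, h1⟩ | ⟨h0, -⟩
    · exact h1
    · exact absurd h0 (by decide)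
  have hj := j.2
  have hji : j.val = i.val + 1 := by omega
  refine ⟨cls_right hji, fun h1 => rk_s (by omega) (by rwa [← hji]), fun h1 => ?_, ?_, ?_⟩
  · have h1' : us b (i.val + 1) = false := by rwa [← hji]
    have hrn : rn b i.val = j.val := by
      unfold rn
      rw [if_neg (by rw [h1']; decide)]
      omega
    refine ⟨?_, ?_⟩
    · rw [hrn, dg_val]
    · rw [rk_f (by omega) h1', ← bb_val (b := b) i, ← bb_val (b := b) j, hji]
  · intro h' j' A' h1
    have h1' : us b (i.val + 1) = true := by rwa [← hji]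
    have e' : j.val = h'.val ∧ j'.val = h'.val + 1 := by
      rcases A'.elim with ⟨-, h2⟩ | ⟨h0, -⟩
      · exact h2
      · exact absurd h0 (by decide)
    have hj' := j'.2
    have hrn : rn b i.val = j'.val := by
      unfold rn
      rw [if_pos h1']
      omega
    rw [hrn]
    refine ⟨dg_val j', ?_⟩
    refine clsW_eq _ ?_
    constructor
    · intro h6
      right
      by_contra hc
      exact rk_ne_e (by omega) h6
    · rintro (h6 | h6)
      · omega
      · exact rk_e (by omega)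
  · intro h' j' A' h1
    have h1' : us b (i.val + 1) = false := by rwa [← hji]
    have e' : j.val = h'.val ∧ j'.val = h'.val + 1 := by
      rcases A'.elim with ⟨-, h2⟩ | ⟨h0, -⟩
      · exact h2
      · exact absurd h0 (by decide)
    have hj' := j'.2
    have hrn : rn b i.val = j.val := by
      unfold rn
      rw [if_neg (by rw [h1']; decide)]
      omega
    have hjj : j'.val = j.val + 1 := by omega
    rw [hrn]
    refine ⟨fun h3 => rk_s (by omega) (by rwa [← hjj]), fun h3 => ?_⟩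
    have h3' : us b (j.val + 1) = false := by rwa [← hjj]
    rw [rk_f (by omega) h3', ← bb_val (b := b) j, ← bb_val (b := b) j', hjj]

lemma sd_left {h : Fin M} {i j : Fin (M + 1)} (A : Adj h i 0 j) :
    Sd b i j 0 (lk b i.val) (dg b (ln b i.val)) (lk b (ln b i.val)) := by
  have e : i.val = h.val + 1 ∧ j.val = h.val := by
    rcases A.elim with ⟨h0, -⟩ | ⟨-, h1⟩
    · exact absurd h0 (by decide)
    · exact h1
  have hi := i.2
  have hji : i.val = j.val + 1 := by omega
  refine ⟨cls_left hji, fun h1 => lk_s (by omega) (by rwa [show i.val - 1 = j.val by omega]),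
    fun h1 => ?_, ?_, ?_⟩
  · have h1' : us b (i.val - 1) = false := by rwa [show i.val - 1 = j.val by omega]
    have hln : ln b i.val = j.val := by
      unfold ln
      rw [if_neg (by rw [h1']; decide)]
      omega
    refine ⟨?_, ?_⟩
    · rw [hln, dg_val]
    · rw [lk_f (by omega) h1', ← bb_val (b := b) i, ← bb_val (b := b) j,
        show i.val - 1 = j.val by omega]
  · intro h' j' A' h1
    have h1' : us b (i.val - 1) = true := by rwa [show i.val - 1 = j.val by omega]
    have e' : j.val = h'.val + 1 ∧ j'.val = h'.val := by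
      rcases A'.elim with ⟨h0, -⟩ | ⟨-, h2⟩
      · exact absurd h0 (by decide)
      · exact h2
    have hln : ln b i.val = j'.val := by
      unfold ln
      rw [if_pos h1']
      omega
    rw [hln]
    refine ⟨dg_val j', ?_⟩
    refine clsW_eq _ ?_
    constructor
    · intro h6
      left
      by_contra hc
      exact lk_ne_e (by omega) h6
    · rintro (h6 | h6)
      · rw [h6]
        exact lk_e
      · omega
  · intro h' j' A' h1
    have h1' : us b (i.val - 1) = false := by rwa [show i.val - 1 = j.val by omega]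
    have e' : j.val = h'.val + 1 ∧ j'.val = h'.val := by
      rcases A'.elim with ⟨h0, -⟩ | ⟨-, h2⟩
      · exact absurd h0 (by decide)
      · exact h2
    have hln : ln b i.val = j.val := by
      unfold ln
      rw [if_neg (by rw [h1']; decide)]
      omega
    have hjj : j.val - 1 = j'.val := by omega
    rw [hln]
    refine ⟨fun h3 => lk_s (by omega) (by rwa [hjj]), fun h3 => ?_⟩
    have h3' : us b (j.val - 1) = false := by rwa [hjj]
    rw [lk_f (by omega) h3', ← bb_val (b := b) j, ← bb_val (b := b) j', hjj]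

section
variable (hb : ClassW b) (F : RingFacts) (hw : Sol b w) {K : KFam} (hS : Snd K b w)
variable {h h' : Fin M} {i j j' : Fin (M + 1)} {p : Fin 3}
include hb F hw hS

/-- both sides of an inner region which is not absorbed -/
theorem pair_sd (A : Adj h i p j) (A' : Adj h' i p.rev j') (hu : us b i.val = false) :
    ∃ (x x' : SK) (dl : ℕ) (ll : SK) (dr : ℕ) (rr : SK) (kl kr : ℂ),
      RDt K (b i).natAbs x x' dl ll dr rr (oW b w i.val) kl kr ∧
      ofr (b i) (zsW b w (.inl (.inl h))) =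
        yH x (RR (oW b w i.val) kl) (Complex.cos (oW b w i.val)) ∧
      ofr (b i) (zsW b w (.inl (.inl h'))) =
        yH x' (RR (oW b w i.val) kr) (Complex.cos (oW b w i.val)) ∧
      Sd b i j p x dl ll ∧ Sd b i j' p.rev x' dr rr := by
  rcases A.elim with ⟨rfl, e1, e2⟩ | ⟨rfl, e1, e2⟩
  · have e3 : i.val = h'.val + 1 ∧ j'.val = h'.val := by
      rcases A'.elim with ⟨h0, -⟩ | ⟨-, h1⟩
      · exact absurd h0 (by decide)
      · exact h1
    have hh := h.2
    have hE := (rdt hb F hw hS (n := i.val) (by omega) (by omega) hu).symm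
    rw [dg_val] at hE
    refine ⟨rk b i.val, lk b i.val, _, _, _, _, oR b w i.val, oL b w i.val, hE, ?_, ?_,
      sd_right A, sd_left A'⟩
    · have ey := own_y_right F hw (n := i.val) (by omega) hu
      rw [ofr_fz, zsW_val h e1.symm]
      exact ey
    · have ey := own_y_left hb F hw (n := i.val) (by omega) (by omega) hu
      rw [ofr_fz, zsW_val h' (n := i.val - 1) (by omega)]
      exact ey
  · have e3 : i.val = h'.val ∧ j'.val = h'.val + 1 := by
      rcases A'.elim with ⟨-, h1⟩ | ⟨h0, -⟩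
      · exact h1
      · exact absurd h0 (by decide)
    have hh := h'.2
    have hE := rdt hb F hw hS (n := i.val) (by omega) (by omega) hu
    rw [dg_val] at hE
    refine ⟨lk b i.val, rk b i.val, _, _, _, _, oL b w i.val, oR b w i.val, hE, ?_, ?_,
      sd_left A, sd_right A'⟩
    · have ey := own_y_left hb F hw (n := i.val) (by omega) (by omega) hu
      rw [ofr_fz, zsW_val h (n := i.val - 1) (by omega)]
      exact ey
    · have ey := own_y_right F hw (n := i.val) (by omega) hu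
      rw [ofr_fz, zsW_val h' e3.1.symm]
      exact ey

end

end

end Pool.Agent.Work.MP_b30479_gtS.G2.CN.TD

end

section

/-!
# Part of `LocRT`
-/
namespace Pool.Agent.Work.MP_b30479_gtS.G2.CN.TD

open Complex SR
open scoped ComplexConjugate

noncomputable section

variable {M : ℕ} {b : Fin (M + 1) → ℤ} {w : ℕ → ℂ}

/-- the split hinge on the other side -/
lemma sp_far {K : KFam} (Bx : BoxRows K) {d : ℕ} {l : SK} {d' : ℕ} {l' : SK} {R k k' : ℂ}
    (h : HDt K .s d l d' l' R k k') : (acot2 (Sp R k')).re < 1 / 2 := by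
  have hR := h.rev
  have f : ∀ z, fz SK.s.sgn z = z := fun z => fz_one z
  rw [f, f, f] at hR
  exact (Bx.sp hR).2

lemma RDt.tdt {K : KFam} (Bx : BoxRows K) {d : ℕ} {l x : SK} {dl : ℕ} {ll : SK} {dr : ℕ} {rr : SK}
    {w kl kr : ℂ} (h : RDt K d l x dl ll dr rr w kl kr) :
    TDt K x d l dr rr w (RR w kr) kr := by
  refine ⟨h.right, h.w0, h.w1, fun hx => ?_⟩
  subst hx
  exact (Bx.sp h.right).2

end

end Pool.Agent.Work.MP_b30479_gtS.G2.CN.TD

end

section

/-!
# Further windows of the rings of a word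
-/

namespace Pool.Agent.Work.MP_b30479_gtS.G2.CN.TD

open Complex SR
open scoped ComplexConjugate

noncomputable section

variable {M : ℕ} {b : Fin (M + 1) → ℤ} {w : ℕ → ℂ}

/-- an inner region has a neighbour on the other side -/
lemma adj_other {h : Fin M} {i j : Fin (M + 1)} {p : Fin 3} (A : Adj h i p j)
    (hi : isEnd i = false) : ∃ (h' : Fin M) (j' : Fin (M + 1)), Adj h' i p.rev j' := by
  rcases A.other (fun _ => 0) (fun _ => 0) (fun _ => 0) with ⟨h1, -⟩ | ⟨-, h1⟩
  · rw [hi] at h1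
    exact absurd h1 (by decide)
  · exact h1

lemma mid_of {h g : Fin M} {i j k : Fin (M + 1)} {p : Fin 3} (A : Adj h i p j)
    (A2 : Adj g j p k) : isEnd j = false := by
  rw [← Bool.not_eq_true, isEnd_iff]
  have hh := h.2
  have hg := g.2
  rcases A.elim with ⟨rfl, a1, a2⟩ | ⟨rfl, a1, a2⟩
  · rcases A2.elim with ⟨-, a3, a4⟩ | ⟨h0, -⟩
    · omega
    · exact absurd h0 (by decide)
  · rcases A2.elim with ⟨h0, -⟩ | ⟨-, a3, a4⟩
    · exact absurd h0 (by decide)
    · omega

lemma adj_rev {h : Fin M} {i j : Fin (M + 1)} {p : Fin 3} (A : Adj h i p.rev.rev j) :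
    Adj h i p j := by
  rwa [Fin.rev_rev] at A

/-- the imaginary part in the other frame -/
lemma ofs_opp {c c' : ℤ} (h1 : c * c' < 0) (z : ℂ) : ofs c' z.im = -(ofr c z).im := by
  rw [← ofr_im, ofr_opp h1, Complex.conj_im]

lemma ofz_im (c : ℤ) (z : ℂ) : (ofz c z).im = z.im := by
  unfold ofz
  split_ifs
  · rfl
  · rw [Complex.neg_im, Complex.conj_im, neg_neg]

lemma two_nat {i : Fin (M + 1)} (hc : clsW b i = .two) : (b i).natAbs = 2 := by
  unfold clsW cls at hc
  split_ifs at hc with h1 h2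
  exact h2

lemma three_nat {i : Fin (M + 1)} (hc : clsW b i = .three) : (b i).natAbs = 3 := by
  unfold clsW cls at hc
  split_ifs at hc with h1 h2 h3 h4 h5
  exact h4

lemma cK_three {d : ℕ} {l : SK} (h : Cl.three = cK d l) : l ≠ .e := by
  intro hl
  subst hl
  unfold cK at h
  split_ifs at h
  simp_all

lemma LDt.of {K : KFam} (Bx : BoxRows K) {l x : SK} {dl : ℕ} {ll : SK} {dr : ℕ} {rr : SK}
    {w kl kr : ℂ} (h : RDt K 4 l x dl ll dr rr w kl kr) : LDt K l x dl ll dr rr w kl kr := by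
  refine ⟨h, fun hx => ?_, fun hl => ?_⟩
  · subst hx
    exact (Bx.sp h.right).2
  · subst hl
    exact (Bx.sp h.left).2

/-- the box of a hinge of a ring next to a class -/
lemma box_cls {K : KFam} (Bx : BoxRows K) {x : SK} {d : ℕ} {l : SK} {d' : ℕ} {l' : SK}
    {R k k' : ℂ} (h : HDt K x d l d' l' R k k') (h4 : 4 ≤ d) {A : Cl} (hA : A = nC x d' l') :
    (hbox .ring A (decide (x = .z))).In (yH x R k) := by
  have hB := Bx.box h
  by_cases hx : x = .s
  · subst hx
    rw [hA]
    have := kbox_s h4 hB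
    unfold nC
    rw [if_pos rfl]
    exact this
  · have := kbox_un h4 hx hB
    unfold YB at this
    unfold nC at hA
    rw [if_neg hx] at hA
    rw [hA]
    exact this

lemma box_one {x : SK} {y : ℂ} (h : (hbox .ring .one (decide (x = .z))).In y) :
    (hbox .ring .one false).In y := by
  cases x <;> exact h

section
variable (hb : ClassW b) (F : RingFacts) (hw : Sol b w) {K : KFam} (hS : Snd K b w)
include hb F hw hS

/-- a digit `1` which is not absorbed: the other neighbour is absorbed -/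
lemma far_one {h h' : Fin M} {i j j' : Fin (M + 1)} {p : Fin 3} (A : Adj h i p j)
    (A' : Adj h' i p.rev j') (hu : us b i.val = false) (h1 : (b i).natAbs = 1)
    (hj : clsW b j ≠ .one) : clsW b j' = .one := by
  obtain ⟨x, x', dl, ll, dr, rr, kl, kr, hE, -, -, c1, c2⟩ := A.pair_view hb F hw hS A' hu
  obtain ⟨hxs, -⟩ := nC_ne_s c1 hj
  rw [h1] at hE
  have h2 : x' = .s := (hE.left.ok.left.one rfl).1.resolve_right hxs
  rw [c2, h2]
  rfl

end

section
variable (hb : ClassW b) (F : RingFacts) (hw : Sol b w) (hM : 1 ≤ M) {K : KFam} (hK : KOK K)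
  (hS : Snd K b w) (Bx : BoxRows K)
include hb F hw hM hK hS Bx

lemma ring_nat {i : Fin (M + 1)} (hc : clsW b i = .ring) : 4 ≤ (b i).natAbs :=
  ring_four hb (tyW_of_ring hb hc)

/-- the rough ranges of the ring variable and of a hinge next to a digit `1` -/
lemma rg_of {x l : SK} {R : ℂ} {j : Fin (M + 1)} (v : ZZ (tyW b)) (hv : v.1 = j)
    (h4 : 4 ≤ (b j).natAbs) (he : l = .e ↔ isEnd j = true)
    (hB : (hbox .ring .one false).In (yH x R (Complex.cos (oW b w j.val)))) :
    Rg (yH x R (Complex.cos (oW b w j.val))) (zeta (oW b w j.val)) := by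
  have hL := loc_of_boxes hb F hw hM hS Bx
  subst hv
  have z0 := zb_rg h4 (zb_of hL v he)
  have y0 := one_box hB
  exact ⟨y0.1, y0.2, z0.1, z0.2⟩

theorem qs_of {h : Fin M} {i j : Fin (M + 1)} {p : Fin 3} (v : ZZ (tyW b)) (hv : v.1 = j)
    (A : Adj h i p j) (hc : clsW b i = .one) (h4 : (b j).natAbs = 4) (hend : isEnd j = false) :
    QS (ofr (b j) (zsW b w (.inl (.inl h)))) (ofz (b j) (zsW b w (.inr v))) := by
  obtain ⟨x, l, d', l', R, k', t, hy, he, hx', hB⟩ :=
    one_side hb F hw hS Bx A.symm (by omega : 4 ≤ (b j).natAbs) hc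
  have r0 := rg_of hb F hw hM hK hS Bx v hv (by omega) he hB
  have hl : l ≠ .e := fun h6 => by
    rw [he.1 h6] at hend
    exact absurd hend (by decide)
  subst hv
  rw [ofz_own, hy]
  rw [h4] at t
  rcases hx' with ⟨rfl, hu⟩ | ⟨hu, rfl, rfl⟩
  · have h3 := sp_far Bx t.h
    have hd : d' = 1 ∨ d' = 2 := by
      have h5 := t.h.ok.one rfl
      have h6 := t.h.ok.right.pos
      omega
    have hz : l' ≠ .z := fun h5 => by
      have := t.h.ok.right.zr h5
      omega
    rcases hd with rfl | rfl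
    · cases l'
      · exact absurd rfl (t.h.ok.right.one rfl).2.2
      · exact qs_1a hK t hl r0
      · exact absurd rfl hz
      · exact qs_1s hK t hl r0
    · cases l'
      · exact qs_2e hK t hl r0
      · exact qs_2a hK t hl h3 r0
      · exact absurd rfl hz
      · exact qs_2s hK t hl h3 r0
  · exact qs_u hK t hl r0

/-- the data of a ring with four crossings next to a digit `1` -/
lemma four_of {h g : Fin M} {i j k : Fin (M + 1)} {p : Fin 3} (A : Adj h i p j)
    (A2 : Adj g j p k) (hc : clsW b i = .one) (h4 : (b j).natAbs = 4) :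
    ∃ (l x : SK) (dl : ℕ) (ll : SK) (dr : ℕ) (rr : SK) (kl kr : ℂ),
      LDt K l x dl ll dr rr (oW b w j.val) kl kr ∧
      ofr (b j) (zsW b w (.inl (.inl g))) =
        yH l (RR (oW b w j.val) kl) (Complex.cos (oW b w j.val)) ∧
      ofr (b j) (zsW b w (.inl (.inl h))) =
        yH x (RR (oW b w j.val) kr) (Complex.cos (oW b w j.val)) ∧
      Sd b j k p l dl ll ∧ Sd b j i p.rev x dr rr ∧
      (hbox .ring (clsW b k) (decide (l = .z))).In
        (yH l (RR (oW b w j.val) kl) (Complex.cos (oW b w j.val))) ∧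
      (hbox .ring .one false).In
        (yH x (RR (oW b w j.val) kr) (Complex.cos (oW b w j.val))) := by
  obtain ⟨l, x, dl, ll, dr, rr, kl, kr, hE, y1, y2, s1, s2⟩ :=
    pair_sd hb F hw hS A2 A.symm (us_of_abs (by omega))
  rw [h4] at hE
  have b1 := box_cls Bx hE.left (by norm_num) s1.cls
  have b2 := box_cls Bx hE.right (by norm_num) s2.cls
  rw [hc] at b2
  exact ⟨l, x, dl, ll, dr, rr, kl, kr, LDt.of Bx hE, y1, y2, s1, s2, b1, box_one b2⟩

theorem tri_of {h h' g : Fin M} {i j j' k : Fin (M + 1)} {p : Fin 3} (v : ZZ (tyW b))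
    (hv : v.1 = j) (A : Adj h i p j) (A' : Adj h' i p.rev j') (A2 : Adj g j p k)
    (hc : clsW b i = .one) (hc' : clsW b j' = .two) (h4 : (b j).natAbs = 4) :
    Tri (clsW b k) (decide (0 < b j * b k)) (ofr (b j) (zsW b w (.inl (.inl h))))
      (ofz (b j) (zsW b w (.inr v))) := by
  obtain ⟨l, x, dl, ll, dr, rr, kl, kr, t, y1, y2, s1, s2, b1, b2⟩ :=
    four_of hb F hw hM hK hS Bx A A2 hc h4
  have hui : us b i.val = true := by
    by_contra hu
    rw [Bool.not_eq_true] at hu
    have := far_one hb F hw hS A A' hu (one_nat hc) (fun h5 => by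
      have := one_nat h5
      omega)
    rw [this] at hc'
    exact absurd hc' (by decide)
  have hxs := s2.s hui
  subst hxs
  obtain ⟨hd, hcr⟩ := s2.far A' hui
  rw [hc'] at hcr
  obtain ⟨rfl, hrr⟩ := cK_two' hcr
  have hm := mid_of A A2
  have hend : (rr = .e) ↔ isEnd j = true :=
    ⟨fun h5 => absurd h5 hrr, fun h5 => by rw [hm] at h5; exact absurd h5 (by decide)⟩
  have r0 := rg_of hb F hw hM hK hS Bx v hv (by omega) hend b2
  have x0 := b2.2.1
  norm_num [hbox] at x0
  subst hv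
  rw [ofz_own, y2]
  by_cases hk : us b k.val = true
  · have hls := s1.s hk
    subst hls
    have e : clsW b k = .one := s1.cls
    rw [e] at b1 ⊢
    have := tri_s hK t hrr b1 r0 (by linarith only [x0])
    cases decide (0 < b v.1 * b k) <;> exact this
  · rw [Bool.not_eq_true] at hk
    obtain ⟨hdl, hl⟩ := s1.u hk
    by_cases hp : 0 < b v.1 * b k
    · rw [if_pos hp] at hl
      subst hl
      have e : clsW b k = .ring := by
        rw [s1.cls]
        unfold nC
        rw [if_neg (by decide), cK_ring (t.h.left.ok.right.zl rfl)]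
      rw [e, decide_eq_true hp]
      trivial
    · rw [if_neg hp] at hl
      subst hl
      rw [decide_eq_false hp]
      have e : clsW b k = cK dl ll := s1.cls
      rw [show decide (SK.a = SK.z) = false from rfl] at b1
      rw [e] at b1 ⊢
      have hpos := t.h.left.ok.right.pos
      have hd4 : dl = 1 ∨ dl = 2 ∨ dl = 3 ∨ 4 ≤ dl := by omega
      rcases hd4 with rfl | rfl | rfl | h5
      · exact tri_1 hK t hrr b1 r0 (by linarith only [x0])
      · by_cases hle : ll = .e
        · subst hle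
          exact tri_E hK t hrr b1 r0
        · have e2 : cK 2 ll = .two := by simp [cK, hle]
          rw [e2] at b1 ⊢
          exact tri_2 hK t hrr hle b1 r0 (by linarith only [x0])
      · by_cases hle : ll = .e
        · subst hle
          exact tri_e hK t hrr b1 r0 (by linarith only [x0])
        · have e2 : cK 3 ll = .three := by simp [cK, hle]
          rw [e2] at b1 ⊢
          exact tri_3 hK t hrr b1 r0 (by linarith only [x0])
      · rw [cK_ring h5] at b1 ⊢
        exact tri_Z hK t hrr b1 r0 (by linarith only [x0])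

/-- the kind of the hinge next to a digit `1` which is not absorbed -/
lemma one_kind {x : SK} {d l d' l'} {R k k' : ℂ} (h : HDt K x d l d' l' R k k')
    (hc : Cl.one = nC x d' l') : x = .s ∨ (x = .a ∧ d' = 1) := by
  by_cases hs : x = .s
  · exact Or.inl hs
  · right
    unfold nC at hc
    rw [if_neg hs] at hc
    have h1 := cK_one hc.symm
    refine ⟨?_, h1⟩
    cases x
    · exact absurd rfl h.ok.ne
    · rfl
    · have := h.ok.right.zl rfl
      omega
    · exact absurd rfl hs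

theorem tri1_of {h g : Fin M} {i j k : Fin (M + 1)} {p : Fin 3} (v : ZZ (tyW b)) (hv : v.1 = j)
    (A : Adj h i p j) (A2 : Adj g j p k) (hc : clsW b i = .one) (hk : clsW b k = .one)
    (h4 : (b j).natAbs = 4)
    (hx : 4535 / 10000 ≤ (zsW b w (.inl (.inl h))).re - (ofz (b j) (zsW b w (.inr v))).re) :
    (zsW b w (.inl (.inl g))).re ≤ 262 / 1000 := by
  obtain ⟨l, x, dl, ll, dr, rr, kl, kr, t, y1, y2, s1, s2, b1, b2⟩ :=
    four_of hb F hw hM hK hS Bx A A2 hc h4
  have hm := mid_of A A2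
  have hend : (SK.a = .e) ↔ isEnd j = true :=
    ⟨fun h5 => absurd h5 (by decide), fun h5 => by rw [hm] at h5; exact absurd h5 (by decide)⟩
  have r0 := rg_of hb F hw hM hK hS Bx v hv (by omega) hend b2
  rw [hk] at b1
  have b1' := box_one b1
  have e1 := s1.cls
  have e2 := s2.cls
  rw [hk] at e1
  rw [hc] at e2
  have k1 := one_kind hb F hw hM hK hS Bx t.h.left e1
  have k2 := one_kind hb F hw hM hK hS Bx t.h.right e2
  subst hv
  rw [ofz_own, ← ofr_re (b v.1) (zsW b w (.inl (.inl h))), y2] at hx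
  rw [← ofr_re (b v.1) (zsW b w (.inl (.inl g))), y1]
  rcases k1 with rfl | ⟨rfl, rfl⟩
  · rcases k2 with rfl | ⟨rfl, rfl⟩
    · exact vv_ss hK t b1' b2 r0 hx
    · exact vv_su hK t b1' b2 r0 hx
  · rcases k2 with rfl | ⟨rfl, rfl⟩
    · exact vv_as hK t b1' b2 r0 hx
    · exact vv_au hK t b1' b2 r0 hx

theorem three_of {h : Fin M} {i j : Fin (M + 1)} {p : Fin 3} (A : Adj h i p j)
    (hc : clsW b i = .three) (hj : clsW b j = .ring)
    (hx : -(1 / 1000) ≤ ofs (b i) (zsW b w (.inl (.inl h))).im) :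
    0 ≤ ofs (b i) (zsW b w (.inl (.inl h))).im ∨
      (-(1 / 1000) ≤ ofs (b i) (zsW b w (.inl (.inl h))).im ∧ (b j).natAbs = 4 ∧
        (∃ (g : Fin M) (k : Fin (M + 1)), Adj g j p k ∧ clsW b k = .ring) ∧
        ∀ v : ZZ (tyW b), v.1 = j → 4 / 100 ≤ (zsW b w (.inr v)).im) := by
  have h4 := ring_nat hb F hw hM hK hS Bx hj
  have h3 := three_nat hc
  have hop : b j * b i < 0 := A.symm.opp hb (Or.inr (by rw [hc]; decide))
  have hui : us b i.val = false := us_of_abs (by omega)
  have hci : ∀ {x d' l'}, clsW b i = nC x d' l' → x ≠ .s → l' ≠ .e := by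
    intro x d' l' e hxs
    unfold nC at e
    rw [if_neg hxs, hc] at e
    exact cK_three e
  rw [ofs_opp hop]
  rw [ofs_opp hop] at hx
  rcases Bool.eq_false_or_eq_true (isEnd j) with hend | hend
  · obtain ⟨x, l, d', l', R, k', t, hy, he, hc', hx', -⟩ := ring_view hb F hw hS Bx A.symm h4
    have hle := he.2 hend
    subst hle
    rcases hx' with ⟨-, hu⟩ | ⟨-, hd, hxx⟩
    · rw [hui] at hu
      exact absurd hu (by decide)
    · rw [if_neg (by omega)] at hxx
      rw [h3] at hd
      subst hxx hd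
      left
      rw [hy]
      rcases three_t hK t h4 (hci hc' (by decide)) with h5 | ⟨-, h5 | ⟨h5, -⟩, -⟩
      · linarith only [h5]
      · exact absurd h5 (by decide)
      · exact absurd h5 (by decide)
  · obtain ⟨g, k, A2⟩ := adj_other A.symm hend
    have A2' : Adj g j p k := adj_rev A2
    obtain ⟨l, x, dl, ll, dr, rr, kl, kr, hE, y1, y2, s1, s2⟩ :=
      pair_sd hb F hw hS A2' A.symm (us_of_abs (by omega))
    obtain ⟨hd, hxx⟩ := s2.u hui
    rw [if_neg (by omega)] at hxx
    rw [h3] at hd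
    subst hxx hd
    rw [y2]
    rw [y2] at hx
    have hrr := hci s2.cls (by decide)
    rcases three_t hK (RDt.tdt Bx hE) h4 hrr with h5 | ⟨hd4, h5, h6⟩
    · left
      linarith only [h5]
    have hrho : ∀ v : ZZ (tyW b), v.1 = j → 4 / 100 ≤ (zsW b w (.inr v)).im := by
      intro v hv
      subst hv
      rw [← ofz_im (b v.1), ofz_own]
      exact h6
    by_cases hk : clsW b k = .ring
    · exact Or.inr ⟨hx, hd4, ⟨g, k, A2', hk⟩, hrho⟩
    rcases h5 with rfl | ⟨rfl, rfl⟩
    · exfalso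
      apply hk
      rw [s1.cls]
      unfold nC
      rw [if_neg (by decide), cK_ring (hE.left.ok.right.zl rfl)]
    · left
      have b1 := box_cls Bx hE.left h4 s1.cls
      rw [hd4] at hE
      have h7 : (yH .a (RR (oW b w j.val) kl) (Complex.cos (oW b w j.val))).im ≤ 40 / 10000 := by
        revert b1 hk
        rw [show decide (SK.a = SK.z) = false from rfl]
        cases clsW b k
        all_goals
          intro hk b1
          obtain ⟨-, -, -, b4⟩ := b1
          norm_num [hbox] at b4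
          first
            | (norm_num; linarith only [b4])
            | exact absurd rfl hk
      have := three_l hK (LDt.of Bx hE) h7
      linarith only [this]

/-- the data of a digit `2` next to an absorbed digit `1` and to a ring -/
lemma two_data {h h' g : Fin M} {i j k m : Fin (M + 1)} {p : Fin 3} (A : Adj h i p j)
    (A' : Adj h' i p.rev k) (A2 : Adj g k p.rev m) (hc : clsW b i = .two) (hj : clsW b j = .ring)
    (hk : clsW b k = .one) (hm : clsW b m ≠ .one) :
    ∃ (dl : ℕ) (ll : SK) (dr : ℕ) (rr : SK) (kl kr : ℂ),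
      RDt K 2 .s .a dl ll dr rr (oW b w i.val) kl kr ∧
      ofs (b i) (zsW b w (.inl (.inl h))).im =
        (yH .a (RR (oW b w i.val) kr) (Complex.cos (oW b w i.val))).im ∧
      dl = (b m).natAbs ∧ 4 ≤ dr := by
  have h2 := two_nat hc
  have h4 := ring_nat hb F hw hM hK hS Bx hj
  have huk : us b k.val = true := by
    by_contra hu
    rw [Bool.not_eq_true] at hu
    have A'' : Adj h' k p i := adj_rev A'.symm
    exact hm (far_one hb F hw hS A'' A2 hu (one_nat hk) (by rw [hc]; decide))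
  have hui : us b i.val = false := us_of_abs (by omega)
  have huj : us b j.val = false := us_of_abs (by omega)
  obtain ⟨x, x', dl, ll, dr, rr, kl, kr, hE, y1, y2, s1, s2⟩ := pair_sd hb F hw hS A A' hui
  have hx' := s2.s huk
  subst hx'
  obtain ⟨hd, -⟩ := s2.far A2 huk
  obtain ⟨hd', hx⟩ := s1.u huj
  have hop : b i * b j < 0 := A.opp hb (Or.inl (by rw [hc]; decide))
  rw [if_neg (by omega)] at hx
  subst hx
  rw [h2] at hE
  refine ⟨dr, rr, dl, ll, kr, kl, hE.symm, ?_, hd, by omega⟩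
  rw [← y1, ofr_im]

/-- **Further windows of the rings of a word.** -/
theorem locRt_of (h3 : ∀ {h : Fin M} {i j : Fin (M + 1)} {p : Fin 3}, Adj h i p j →
    clsW b i = .three → clsW b j = .ring →
    -(1 / 1000) ≤ ofs (b i) (zsW b w (.inl (.inl h))).im) : LocRt b (zsW b w) where
  qs v hv A hc h4 he := qs_of hb F hw hM hK hS Bx v hv A hc h4 he
  tri v hv A A' A2 hc hc' h4 := tri_of hb F hw hM hK hS Bx v hv A A' A2 hc hc' h4
  tri1 v hv A A2 hc hk h4 hx := tri1_of hb F hw hM hK hS Bx v hv A A2 hc hk h4 hx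
  three A hc hj := three_of hb F hw hM hK hS Bx A hc hj (h3 A hc hj)
  two1 A A' A2 hc hj hk hm := by
    obtain ⟨dl, ll, dr, rr, kl, kr, t, e, -, h4⟩ :=
      two_data hb F hw hM hK hS Bx A A' A2 hc hj hk hm
    rw [e]
    exact two_t hK (RDt.tdt Bx t) h4
  twoZ A A' A2 hc hj hk hm := by
    obtain ⟨dl, ll, dr, rr, kl, kr, t, e, hd, h4⟩ :=
      two_data hb F hw hM hK hS Bx A A' A2 hc hj hk (by rw [hm]; decide)
    rw [e]
    exact two_z hK t (by rw [hd]; exact ring_nat hb F hw hM hK hS Bx hm) h4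

end

end

end Pool.Agent.Work.MP_b30479_gtS.G2.CN.TD

end

section

/-!
# Runs with alternatives

A certificate as before; a cell on which the goals fail carries in addition the index of a pair of
constraints both of which fail.  `stair`: pairs which bound the sum of the real parts by a constant
plus the height of the ring variable.
-/

namespace Pool.Agent.Work.MP_b30479_gtS.G2.CN

open Complex SR

noncomputable section

lemma anyAt_spec {C : Cell} {u w : ℂ} (hC : C.In) (h : C.Mem u w) : ∀ {al : List (Con × Con)} {k : ℕ},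
    (∀ p ∈ al, p.1.g = true ∧ p.2.g = true) → anyAt (envOf C) al k = true →
    ∃ p ∈ al, ¬ p.1.Holds u w ∧ ¬ p.2.Holds u w
  | [], k, _, hf => by
    have : (false : Bool) = true := hf
    simp at this
  | p :: al, 0, hg, hf => by
    have h1 : cond (p.1.fails (envOf C)) (p.2.fails (envOf C)) false = true := hf
    have h2 := hg p List.mem_cons_self
    rcases hb : p.1.fails (envOf C) with _ | _
    · rw [hb] at h1
      simp at h1
    · rw [hb, cond_true] at h1
      exact ⟨p, List.mem_cons_self, Con.fails_cell hC h h2.1 hb, Con.fails_cell hC h h2.2 h1⟩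
  | p :: al, k + 1, hg, hf => by
    have h1 : anyAt (envOf C) al k = true := hf
    obtain ⟨p', h2, h3⟩ := anyAt_spec hC h (fun q hq => hg q (List.mem_cons_of_mem _ hq)) h1
    exact ⟨p', List.mem_cons_of_mem _ h2, h3⟩

lemma allG2_spec : ∀ {al : List (Con × Con)}, allG2 al = true → ∀ p ∈ al, p.1.g = true ∧ p.2.g = true
  | [], _, _, hp => absurd hp (by simp)
  | q :: al, h, p, hp => by
    have h1 : cB q.1.g (cB q.2.g (allG2 al) false) false = true := h
    have h2 := cB_and h1
    have h3 := cB_and h2.2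
    rcases List.mem_cons.1 hp with rfl | h4
    · exact ⟨h2.1, h3.1⟩
    · exact allG2_spec h3.2 p h4

/-- the claim for a cell -/
def ClA (gs : List Con) (al : List (Con × Con)) (u w : ℂ) : Prop :=
  (∀ g ∈ gs, ¬ g.Holds u w) ∧ ∃ p ∈ al, ¬ p.1.Holds u w ∧ ¬ p.2.Holds u w

/-- the claim for the cells of a stack -/
def StA (gs : List Con) (al : List (Con × Con)) (u w : ℂ) : Bool → List Cell → Prop
  | false, st => ∀ C ∈ st, C.In → C.Mem u w → ClA gs al u w
  | true, [] => True
  | true, C :: st => (C.In → C.Mem u w → ∃ p ∈ al, ¬ p.1.Holds u w ∧ ¬ p.2.Holds u w) ∧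
      ∀ C ∈ st, C.In → C.Mem u w → ClA gs al u w

lemma StA_nil (gs : List Con) (al : List (Con × Con)) (u w : ℂ) (pd : Bool) : StA gs al u w pd [] := by
  cases pd
  · exact fun C hC => absurd hC (by simp)
  · trivial

lemma stepA_spec {cs : CT} {gs : List Con} {al : List (Con × Con)} {u w : ℂ} (hc : cs.All u w)
    (hG : ∀ g ∈ gs, g.g = true) (hA : ∀ p ∈ al, p.1.g = true ∧ p.2.g = true)
    {t : ℕ} {pd : Bool} {st' : List Cell} {C : Cell} {k : Bool → List Cell → Bool}
    (h0 : stepA cs gs al t pd st' C k = true)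
    (hk : ∀ pd s, k pd s = true → StA gs al u w pd s) : StA gs al u w pd (C :: st') := by
  rcases cB_cases h0 with ⟨rfl, h⟩ | ⟨rfl, h⟩
  · obtain ⟨h1, h2⟩ := cB_and h
    exact ⟨fun hI hm => anyAt_spec hI hm hA h1, hk _ _ h2⟩
  · intro C' hC' hI hm
    rcases cB_cases h with ⟨c1, h⟩ | ⟨_, h⟩
    · have c1' : t ≤ 11 := Nat.le_of_ble_eq_true c1
      rcases List.mem_cons.1 hC' with rfl | h2
      · obtain ⟨A, B, h3, hA, hB, h4⟩ := cut_spec hI hm c1' h
        have h5 := hk _ _ h3
        rcases h4 with h4 | h4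
        · exact h5 A (by simp) hA h4
        · exact h5 B (by simp) hB h4
      · have hcut : ∃ A B, k false (A :: B :: st') = true := by
          obtain ⟨xl, xh, yl, yh, ul, uh, vl, vh⟩ := C
          rcases cB_cases h with ⟨_, h⟩ | ⟨_, h⟩
          · rcases cB_cases h with ⟨_, h⟩ | ⟨_, h⟩
            · exact ⟨_, _, h⟩
            · exact ⟨_, _, h⟩
          · rcases cB_cases h with ⟨_, h⟩ | ⟨_, h⟩
            · exact ⟨_, _, h⟩
            · exact ⟨_, _, h⟩
        obtain ⟨A, B, h3⟩ := hcut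
        exact hk _ _ h3 C' (by simp [h2]) hI hm
    · rcases cB_cases h with ⟨_, h⟩ | ⟨_, h⟩
      · obtain ⟨h3, h4⟩ := cB_and h
        have h5 := hk _ _ h4
        rcases List.mem_cons.1 hC' with rfl | h2
        · exact ⟨allF_spec hI hm hG h3, h5.1 hI hm⟩
        · exact h5.2 C' h2 hI hm
      · obtain ⟨h3, h4⟩ := cB_and h
        rcases List.mem_cons.1 hC' with rfl | h2
        · exact absurd h3 (CT.get_holds hI hm cs hc _)
        · exact hk _ _ h4 C' h2 hI hm

lemma innerA_spec {cs : CT} {gs : List Con} {al : List (Con × Con)} {u w : ℂ} (hc : cs.All u w)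
    (hG : ∀ g ∈ gs, g.g = true) (hA : ∀ p ∈ al, p.1.g = true ∧ p.2.g = true) :
    ∀ (n code : ℕ) (pd : Bool) (st : List Cell) (k : Bool → List Cell → Bool),
    innerA cs gs al n code pd st k = true → (∀ pd s, k pd s = true → StA gs al u w pd s) →
    StA gs al u w pd st
  | 0, _, pd, st, _, h, hk => hk pd st h
  | _ + 1, _, pd, [], _, _, _ => StA_nil _ _ _ _ pd
  | n + 1, code, pd, C :: st', k, h, hk => by
    have h1 : stepA cs gs al (Nat.mod code (nat_lit 64)) pd st' C
        (fun pd' s => innerA cs gs al n (Nat.div code (nat_lit 64)) pd' s k) = true := h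
    exact stepA_spec hc hG hA h1 fun pd' s hs => innerA_spec hc hG hA n _ pd' s k hs hk

theorem runA_spec {cs : CT} {gs : List Con} {al : List (Con × Con)} {u w : ℂ} (hc : cs.All u w)
    (hG : ∀ g ∈ gs, g.g = true) (hA : ∀ p ∈ al, p.1.g = true ∧ p.2.g = true) :
    ∀ (n code : ℕ) (pd : Bool) (st : List Cell), runA cs gs al n code pd st = true → StA gs al u w pd st
  | 0, _, pd, [], _ => StA_nil _ _ _ _ pd
  | 0, _, _, _ :: _, h => by
    have : (false : Bool) = true := h
    simp at this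
  | n + 1, code, pd, st, h => by
    have h1 : innerA cs gs al (nat_lit 64) (Nat.mod code (nat_lit 39402006196394479212279040100143613805079739270465446667948293404245721771497210611414266254884915640806627990306816)) pd st
      (runA cs gs al n (Nat.div code (nat_lit 39402006196394479212279040100143613805079739270465446667948293404245721771497210611414266254884915640806627990306816))) = true := h
    exact innerA_spec hc hG hA _ _ pd st _ h1 fun pd s hs => runA_spec hc hG hA n _ pd s hs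

lemma mk1_bit {m : ℕ} (h : m % 2 = 0) (j : ℕ) : (Nat.succ m).testBit (j + 1) = m.testBit (j + 1) := by
  rw [Nat.testBit_succ, Nat.testBit_succ]
  have : Nat.succ m / 2 = m / 2 := by
    change (m + 1) / 2 = m / 2
    omega
  rw [this]

lemma mk1_zero {m : ℕ} (h : m % 2 = 0) : (Nat.succ m).testBit 0 = true := by
  rw [Nat.testBit_zero]
  change decide ((m + 1) % 2 = 1) = true
  exact decide_eq_true (by omega)

/-- **Soundness of a run with alternatives.** -/
theorem rowA_sound {l go : List Grp} {gZ gU : Grp} {al : List (QC × QC)} {n code : ℕ} {C : Cell}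
    (h : rowA l go gZ gU al n code C = true) {u w : ℂ} (hm : C.Mem u w)
    (hl : ∀ g ∈ l, g.Ok u w) {cZ cU : ℂ} (hZ : cZ * gZ.M.val u w = gZ.N.val u w)
    (hU : cU * gU.M.val u w = gU.N.val u w) :
    (∀ g ∈ go, ∀ c : ℂ, c * g.M.val u w = g.N.val u w → ∀ Q ∈ g.H, ¬ Q.Sat c) ∧
      ∃ p ∈ al, ¬ p.1.Sat cZ ∧ ¬ p.2.Sat cU := by
  have g1 := cB_and h
  have g2 := cB_and g1.2
  have g3 := cB_and g2.2
  have g4 := cB_and g3.2
  have hC := inC_spec g1.1
  have hcs : ∀ c ∈ csOf l, c.g = true ∧ c.Holds u w := fun c hc => ⟨allG_spec g2.1 c hc, csOf_holds hl c hc⟩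
  have key : ClA (csOf go) (al.map fun p => (mkCon p.1 gZ.N gZ.M gZ.hd, mkCon p.2 gU.N gU.M gU.hd)) u w := by
    rcases cB_cases g4.2 with ⟨_, h4⟩ | ⟨_, h4⟩
    · obtain ⟨h5, h6⟩ := cB_and h4
      have h7 := partC_spec (ofL_all 7 _ _ hcs) (allG_spec g3.1) (allG2_spec g4.1) _ _ _ h6
      have h8 := h7.1 hC hm
      refine ⟨fun g hg => ?_, h8.2 (mk1_zero (mk0_even _))⟩
      obtain ⟨j, k1, k2⟩ := getG_goal (al.map fun p => (mkCon p.1 gZ.N gZ.M gZ.hd, mkCon p.2 gU.N gU.M gU.hd)) hg h5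
      have h9 := h8.1 j ((mk1_bit (mk0_even _) j).trans k1)
      rw [k2] at h9
      exact h9
    · exact runA_spec (ofL_all 6 _ _ hcs) (allG_spec g3.1) (allG2_spec g4.1) n code false [C] h4 C
        List.mem_cons_self hC hm
  obtain ⟨h1, p, hp, h2, h3⟩ := key
  refine ⟨fun g hg c hc Q hQ hS => ?_, ?_⟩
  · exact h1 (mkCon Q g.N g.M g.hd) (List.mem_flatMap.2 ⟨g, hg, List.mem_map.2 ⟨Q, hQ, rfl⟩⟩)
      (mkCon_holds hc hS)
  · obtain ⟨q, hq, rfl⟩ := List.mem_map.1 hp
    exact ⟨q, hq, fun hS => h2 (mkCon_holds hZ hS), fun hS => h3 (mkCon_holds hU hS)⟩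

/-- the data of a run with alternatives are in the range -/
def rdyA (l go : List Grp) (gZ gU : Grp) (al : List (QC × QC)) (C : Cell) : Bool :=
  cB (inC C) (cB (allG (csOf l)) (cB (allG (csOf go))
    (cB (allG2 (al.map fun p => (mkCon p.1 gZ.N gZ.M gZ.hd, mkCon p.2 gU.N gU.M gU.hd)))
      (Nat.ble (mk0 (csOf go)) (nat_lit 4294967295)) false) false) false) false

/-- **A run with alternatives in parts.** -/
theorem rowA_mk {l go : List Grp} {gZ gU : Grp} {al : List (QC × QC)} {n code : ℕ} {C : Cell}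
    (h1 : rdyA l go gZ gU al C = true)
    (h2 : partC (ofL 7 (nat_lit 0) (csOf l)) (csOf go)
      (al.map fun p => (mkCon p.1 gZ.N gZ.M gZ.hd, mkCon p.2 gU.N gU.M gU.hd)) n code
      (.cons C (Nat.succ (mk0 (csOf go))) .nil) .nil = true) :
    rowA l go gZ gU al (pn n) code C = true := by
  obtain ⟨k1, h3⟩ := cB_and h1
  obtain ⟨k2, h4⟩ := cB_and h3
  obtain ⟨k3, h5⟩ := cB_and h4
  obtain ⟨k4, k5⟩ := cB_and h5
  unfold rowA
  rw [k1, k2, k3, k4, k5, pn_le, pn_sub, h2]
  rfl

namespace TD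

lemma alt_ok {al : List (GC × GC)} (hk : (al.all fun p => p.1.ok && p.2.ok) = true) {y z : ℂ}
    (h : ∃ p ∈ al.map fun p : GC × GC => (p.1.q, p.2.q), ¬ p.1.Sat (cexp (2 * Real.pi * I * y)) ∧
      ¬ p.2.Sat (cexp (2 * Real.pi * I * z))) : ∃ p ∈ al, p.1.P y ∧ p.2.P z := by
  obtain ⟨q, hq, h1, h2⟩ := h
  obtain ⟨p, hp, rfl⟩ := List.mem_map.1 hq
  have h3 := List.all_eq_true.1 hk p hp
  rw [Bool.and_eq_true] at h3
  exact ⟨p, hp, GC.spec h3.1 h1, GC.spec h3.2 h2⟩

section
variable {K : KFam} {x : SK} {d : ℕ} {l : SK} {d' : ℕ} {l' : SK} {w R k' : ℂ}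

/-- the bounds of a row with alternatives, one side -/
theorem tuseA (hK : KOK K) (t : TDt K x d l d' l' w R k') {B B' : ℕ} (hB : crs d l x = B)
    (hB' : crs d' x l' = B') {gi : List GC} {o : List QC} {L : List Grp} {o' : List QC}
    {L' : List Grp} {gy gz gu : List GC} {al : List (GC × GC)} {n code : ℕ}
    (hr : trowOkA x gi o L o' L' gy gz gu al n code = true)
    (hi : ∀ g ∈ gi, g.G (yH x R (Complex.cos w)))
    (ho : InH (K.K d l x) o) (ho' : InH (K.K d' l' x) o') (hL : OL d B l L)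
    (hL' : OR x d' B' l' L') :
    ((∀ g ∈ gy, g.P (yH x R (Complex.cos w))) ∧ (∀ g ∈ gz, g.P (-zeta w)) ∧
      ∀ g ∈ gu, g.P (yH x R (Complex.cos w) - zeta w)) ∧
      ∃ p ∈ al, p.1.P (-zeta w) ∧ p.2.P (yH x R (Complex.cos w) - zeta w) := by
  subst hB hB'
  have hc := t.h.kre
  have hc0 := ne_of_re hc
  have hT := tan_sq hc0
  have hR : 0 < R.re := r0_pos.trans t.h.Rre
  have hq : R ^ 2 + 1 - 1 / Complex.cos w ^ 2 = 1 / k' ^ 2 := by
    rw [t.h.hinge]
    ring
  have hm' := t.h.mem'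
  have h1 := inH_ownR (x := x) ho'
  rw [← K.symm] at h1
  unfold trowOkA at hr
  rw [Bool.and_eq_true, Bool.and_eq_true, Bool.and_eq_true, Bool.and_eq_true,
    Bool.and_eq_true] at hr
  obtain ⟨hrow, ⟨⟨⟨k1, k5⟩, k6⟩, k7⟩, k8⟩ := hr
  have hl : AllOk R (Complex.tan w) (tsOf x gi o L o' L') := by
    refine AllOk.cons ?_ (AllOk.cons (tl_ok hc0 hT (ho _ t.h.mem))
      (AllOk.cons (tr_ok (ne_of_re t.h.kre') hT hq (h1 k' hm'))
      ((hL hK hT hq t.h.out).append (hL' hK hT hq t.h.out'))))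
    refine ⟨_, expY hc hR t.sp _, ?_⟩
    have eH : (tYx x (gi.map GC.qi)).H = gi.map GC.qi := by cases x <;> rfl
    rw [eH]
    intro Q hQ
    obtain ⟨g, hg, rfl⟩ := List.mem_map.1 hQ
    exact GC.imp (List.all_eq_true.1 k1 g hg) (hi g hg)
  have hm := rootT_mem hK t.h hT (tan_re t.w0 t.w1)
  obtain ⟨hgo, hal⟩ := rowA_sound hrow hm hl (expZ hc _) (expU hc hR t.sp _)
  refine ⟨⟨fun g hg => ?_, fun g hg => ?_, fun g hg => ?_⟩, alt_ok k8 hal⟩
  · have eH : (tYx x (gy.map GC.q)).H = gy.map GC.q := by cases x <;> rfl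
    exact GC.spec (List.all_eq_true.1 k5 g hg) (hgo (tYx x (gy.map GC.q)) (by simp [goT]) _
      (expY hc hR t.sp _) g.q (by rw [eH]; exact List.mem_map_of_mem hg))
  · exact GC.spec (List.all_eq_true.1 k6 g hg) (hgo (tZ (gz.map GC.q)) (by simp [goT]) _
      (expZ hc _) g.q (List.mem_map_of_mem hg))
  · have eH : (tUx x (gu.map GC.q)).H = gu.map GC.q := by cases x <;> rfl
    exact GC.spec (List.all_eq_true.1 k7 g hg) (hgo (tUx x (gu.map GC.q)) (by simp [goT]) _
      (expU hc hR t.sp _) g.q (by rw [eH]; exact List.mem_map_of_mem hg))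

end

section
variable {K : KFam} {l x : SK} {dl : ℕ} {ll : SK} {dr : ℕ} {rr : SK} {w kl kr : ℂ}

/-- the bounds of a row with alternatives, both sides -/
theorem tuseLA (hK : KOK K) (t : LDt K l x dl ll dr rr w kl kr) {B B' : ℕ} (hB : crs 4 l x = B)
    (hB' : crs dr x rr = B') {li : List GC} {o : List QC} {L : List Grp}
    {o' : List QC} {L' : List Grp} {gy gz gu : List GC} {al : List (GC × GC)} {n code : ℕ}
    (hr : trowOkLA x [] [] li [] o L o' L' gy gz gu [] al n code = true)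
    (hli : ∀ g ∈ li, g.G (yH l (RR w kl) (Complex.cos w)))
    (ho : InH (K.K 4 l x) o) (ho' : InH (K.K dr rr x) o') (hL : OL 4 B l L)
    (hL' : OR x dr B' rr L') :
    ((∀ g ∈ gy, g.P (yH x (RR w kr) (Complex.cos w))) ∧ (∀ g ∈ gz, g.P (-zeta w)) ∧
      ∀ g ∈ gu, g.P (yH x (RR w kr) (Complex.cos w) - zeta w)) ∧
      ∃ p ∈ al, p.1.P (-zeta w) ∧ p.2.P (yH x (RR w kr) (Complex.cos w) - zeta w) := by
  subst hB hB'
  have T := t.tdt
  have hc := T.h.kre
  have hc0 := ne_of_re hc
  have hT := tan_sq hc0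
  have hR : 0 < (RR w kr).re := r0_pos.trans T.h.Rre
  have hq : RR w kr ^ 2 + 1 - 1 / Complex.cos w ^ 2 = 1 / kr ^ 2 := by
    rw [T.h.hinge]
    ring
  have hm' := T.h.mem'
  have h1 := inH_ownR (x := x) ho'
  rw [← K.symm] at h1
  unfold trowOkLA at hr
  rw [Bool.and_eq_true, Bool.and_eq_true, Bool.and_eq_true, Bool.and_eq_true, Bool.and_eq_true,
    Bool.and_eq_true, Bool.and_eq_true, Bool.and_eq_true, Bool.and_eq_true] at hr
  obtain ⟨hrow, ⟨⟨⟨⟨⟨⟨⟨k1, k2⟩, k3⟩, k4⟩, k5⟩, k6⟩, k7⟩, k8⟩, k9⟩ := hr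
  have hl : AllOk (RR w kr) (Complex.tan w) (tsL x [] [] li [] o L o' L') := by
    refine AllOk.cons ?_ (AllOk.cons ?_ (AllOk.cons ?_ (AllOk.cons ?_ (AllOk.cons
      (tl_ok hc0 hT (ho _ T.h.mem)) (AllOk.cons (tr_ok (ne_of_re T.h.kre') hT hq (h1 kr hm'))
      ((hL hK hT hq T.h.out).append (hL' hK hT hq T.h.out')))))))
    · refine ⟨_, expY hc hR t.sp _, ?_⟩
      have eH : (tYx x (([] : List GC).map GC.qi)).H = [] := by cases x <;> rfl
      rw [eH]
      exact fun Q hQ => absurd hQ (List.not_mem_nil)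
    · refine ⟨_, expU hc hR t.sp _, ?_⟩
      have eH : (tUx x (([] : List GC).map GC.qi)).H = [] := by cases x <;> rfl
      rw [eH]
      exact fun Q hQ => absurd hQ (List.not_mem_nil)
    · refine ⟨_, t.expL _, ?_⟩
      have eH : (tLx x (li.map GC.qi)).H = li.map GC.qi := by cases x <;> rfl
      rw [eH]
      intro Q hQ
      obtain ⟨g, hg, rfl⟩ := List.mem_map.1 hQ
      exact GC.imp (List.all_eq_true.1 k3 g hg) (hli g hg)
    · refine ⟨_, t.expM _, ?_⟩
      have eH : (tMx x (([] : List GC).map GC.qi)).H = [] := by cases x <;> rfl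
      rw [eH]
      exact fun Q hQ => absurd hQ (List.not_mem_nil)
  have hm := rootT_mem hK T.h hT (tan_re t.h.w0 t.h.w1)
  obtain ⟨hgo, hal⟩ := rowA_sound hrow hm hl (expZ hc _) (expU hc hR t.sp _)
  refine ⟨⟨fun g hg => ?_, fun g hg => ?_, fun g hg => ?_⟩, alt_ok k9 hal⟩
  · have eH : (tYx x (gy.map GC.q)).H = gy.map GC.q := by cases x <;> rfl
    exact GC.spec (List.all_eq_true.1 k5 g hg) (hgo (tYx x (gy.map GC.q)) (by simp [goT]) _
      (expY hc hR t.sp _) g.q (by rw [eH]; exact List.mem_map_of_mem hg))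
  · exact GC.spec (List.all_eq_true.1 k6 g hg) (hgo (tZ (gz.map GC.q)) (by simp [goT]) _
      (expZ hc _) g.q (List.mem_map_of_mem hg))
  · have eH : (tUx x (gu.map GC.q)).H = gu.map GC.q := by cases x <;> rfl
    exact GC.spec (List.all_eq_true.1 k7 g hg) (hgo (tUx x (gu.map GC.q)) (by simp [goT]) _
      (expU hc hR t.sp _) g.q (by rw [eH]; exact List.mem_map_of_mem hg))

end

/-- pairs bounding the sum of the real parts by `cr / 10000` plus the height of the ring variable -/
def stair (cr : ℕ) (al : List (GC × GC)) : Bool :=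
  al.all fun p => match p with
    | (.hi m _, .arc n m' _ _) => decide ((n : ℤ) = (cr : ℤ) - m) && Nat.ble 6500 m'
    | _ => false

lemma stair_use {cr : ℕ} {al : List (GC × GC)} (h : stair cr al = true) {y z : ℂ} (rg : Rg y z)
    (ha : ∃ p ∈ al, p.1.P (-z) ∧ p.2.P (y - z)) : y.re - z.re ≤ (cr : ℝ) / 10000 + z.im := by
  obtain ⟨⟨p, q⟩, hp, h1, h2⟩ := ha
  have h3 := List.all_eq_true.1 h _ hp
  cases p with
  | arc _ _ _ _ => simp at h3
  | lo _ _ => simp at h3
  | hi m c =>
    cases q with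
    | lo _ _ => simp at h3
    | hi _ _ => simp at h3
    | arc n m' a b =>
      simp only [Bool.and_eq_true, decide_eq_true_eq] at h3
      obtain ⟨h4, h5⟩ := h3
      have h6 : 6500 ≤ m' := Nat.le_of_ble_eq_true h5
      have m2' : (6500 : ℝ) ≤ m' := by exact_mod_cast h6
      have g3 := arc_ub h2 (by rw [Complex.sub_re]; linarith only [m2', rg, rg.z1, rg.y1])
      have g1 : (-z).im ≤ (m : ℝ) / 10000 := h1
      rw [Complex.sub_re] at g3
      rw [Complex.neg_im] at g1
      have h7 : (n : ℝ) = (cr : ℝ) - m := by exact_mod_cast h4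
      rw [h7] at g3
      linarith only [g3, g1]

/-- bounds of the hinge, the ring variable, the difference of the heights, the sum -/
structure B4 (x0 x1 s0 s1 q0 q1 r0 r1 t0 t1 c1 cr : ℤ) (y z : ℂ) : Prop where
  x0 : (x0 : ℝ) / 10000 ≤ y.re
  x1 : y.re ≤ (x1 : ℝ) / 10000
  s0 : (s0 : ℝ) / 10000 ≤ -z.re
  s1 : -z.re ≤ (s1 : ℝ) / 10000
  q0 : (q0 : ℝ) / 10000 ≤ z.im - y.im
  q1 : z.im - y.im ≤ (q1 : ℝ) / 10000
  r0 : (r0 : ℝ) / 10000 ≤ z.im
  r1 : z.im ≤ (r1 : ℝ) / 10000
  t0 : (t0 : ℝ) / 10000 ≤ y.im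
  t1 : y.im ≤ (t1 : ℝ) / 10000
  c1 : y.re - z.re ≤ (c1 : ℝ) / 10000
  cr : y.re - z.re ≤ (cr : ℝ) / 10000 + z.im

lemma b4_of {x0 x1 m1 s0 s1 m2 c1 m3 cr : ℕ} {t0 t1 r1 r0 q1 q0 : ℤ}
    {a1 b1 a2 b2 e1 e2 a3 b3 a4 b4 e3 e4 a5 b5 e5 e6 : ℤ} {al : List (GC × GC)} {y z : ℂ}
    (h : ((∀ g ∈ [GC.arc 0 x0 a1 b1, .arc x1 m1 a2 b2, .lo t0 e1, .hi t1 e2], g.P y) ∧
      (∀ g ∈ [GC.arc 0 s0 a3 b3, .arc s1 m2 a4 b4, .lo (-r1) e3, .hi (-r0) e4], g.P (-z)) ∧
      ∀ g ∈ [GC.arc c1 m3 a5 b5, .lo (-q1) e5, .hi (-q0) e6], g.P (y - z)) ∧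
      ∃ p ∈ al, p.1.P (-z) ∧ p.2.P (y - z)) (hst : stair cr al = true) (rg : Rg y z)
    (h1 : 4000 ≤ m1) (h2 : 2500 ≤ m2) (h3 : 6500 ≤ m3) :
    B4 x0 x1 s0 s1 q0 q1 r0 r1 t0 t1 c1 cr y z := by
  obtain ⟨⟨hy, hz, hu⟩, ha⟩ := h
  have m1' : (4000 : ℝ) ≤ m1 := by exact_mod_cast h1
  have m2' : (2500 : ℝ) ≤ m2 := by exact_mod_cast h2
  have m3' : (6500 : ℝ) ≤ m3 := by exact_mod_cast h3
  have ya := arc_lb (hy (.arc 0 x0 a1 b1) (by simp)) (by simpa using rg.y0)
  have yb := arc_ub (hy (.arc x1 m1 a2 b2) (by simp)) (by linarith only [m1', rg, rg.y1])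
  have yc : (t0 : ℝ) / 10000 ≤ y.im := hy (.lo t0 e1) (by simp)
  have yd : y.im ≤ (t1 : ℝ) / 10000 := hy (.hi t1 e2) (by simp)
  have za := arc_lb (hz (.arc 0 s0 a3 b3) (by simp)) (by simpa using rg.z0)
  have zb := arc_ub (hz (.arc s1 m2 a4 b4) (by simp)) (by
    rw [Complex.neg_re]; linarith only [m2', rg, rg.z1])
  have zc : ((-r1 : ℤ) : ℝ) / 10000 ≤ (-z).im := hz (.lo (-r1) e3) (by simp)
  have zd : (-z).im ≤ ((-r0 : ℤ) : ℝ) / 10000 := hz (.hi (-r0) e4) (by simp)
  have ua := arc_ub (hu (.arc c1 m3 a5 b5) (by simp)) (by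
    rw [Complex.sub_re]; linarith only [m3', rg, rg.z1, rg.y1])
  have ub : ((-q1 : ℤ) : ℝ) / 10000 ≤ (y - z).im := hu (.lo (-q1) e5) (by simp)
  have uc : (y - z).im ≤ ((-q0 : ℤ) : ℝ) / 10000 := hu (.hi (-q0) e6) (by simp)
  rw [Complex.neg_re] at za zb
  rw [Complex.neg_im] at zc zd
  rw [Complex.sub_re] at ua
  rw [Complex.sub_im] at ub uc
  push_cast at zc zd ub uc
  have st := stair_use hst rg ha
  refine ⟨?_, ?_, ?_, ?_, ?_, ?_, ?_, ?_, ?_, ?_, ?_, ?_⟩
  · push_cast; exact ya.le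
  · push_cast; exact yb.le
  · push_cast; exact za.le
  · push_cast; exact zb.le
  · linarith only [uc]
  · linarith only [ub]
  · linarith only [zd]
  · linarith only [zc]
  · exact yc
  · exact yd
  · push_cast; exact ua.le
  · push_cast; exact st

end TD

end

end Pool.Agent.Work.MP_b30479_gtS.G2.CN

end

section

/-!
# Conditions for rings with four crossings
-/

set_option deprecated.oldSectionVars true

namespace Pool.Agent.Work.MP_b30479_gtS.G2.CN.TD

open Complex SR

/-- rings -/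
def loZa (l : SK) : ℕ := match l with | .s => 5 | _ => 4

theorem nZa_ok : chkU nZa .a loZa (fun _ => 8) = true := by decide +kernel

lemma in_nZa {K : KFam} (hK : KOK K) {d' : ℕ} {l' : SK} (h : ROK d' l' .a) (hc : 4 ≤ d') :
    InH (K.K d' l' .a) nZa := by
  intro k hk
  refine hK.inU h nZa_ok ?_ (min_le_right _ _) k hk
  unfold crs
  cases l' <;> simp only [SK.u, loZa] <;> omega

theorem al4e1_st : stair 4380 al4e1 = true := by decide
theorem al4e2_st : stair 4020 al4e2 = true := by decide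
theorem al4e2e_st : stair 3700 al4e2e = true := by decide
theorem al4e3_st : stair 3850 al4e3 = true := by decide
theorem al4e3e_st : stair 3670 al4e3e = true := by decide
theorem al4eZ_st : stair 3820 al4eZ = true := by decide
theorem al4eZs_st : stair 3820 al4eZs = true := by decide
theorem al4i1_st : stair 4150 al4i1 = true := by decide
theorem al4i2_st : stair 3750 al4i2 = true := by decide
theorem al4i2e_st : stair 3290 al4i2e = true := by decide
theorem al4i3_st : stair 3560 al4i3 = true := by decide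
theorem al4i3e_st : stair 3320 al4i3e = true := by decide
theorem al4iZ_st : stair 3560 al4iZ = true := by decide
theorem al4iZs_st : stair 3560 al4iZs = true := by decide

end Pool.Agent.Work.MP_b30479_gtS.G2.CN.TD

end

section

/-!
# Rows for the inner variable of a region with three crossings, II

The hinge at the first slot of kind `x`, with the variable `R`. `tIx`: the exponential of the inner
variable, `tJx`: of the inner variable minus the hinge, `tFx`: of the hinge behind the digit `1` at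
the first slot, up to reflection.
-/

namespace Pool.Agent.Work.MP_b30479_gtS.G2.CN.TD

open Complex SR Ev
open scoped ComplexConjugate

noncomputable section

section
variable {K : KFam} {x r : SK} {dl : ℕ} {ll : SK} {dr : ℕ} {rr : SK} {w kl kr : ℂ}

/-- the exponential of the inner variable -/
lemma expI (t : RDt K 3 x r dl ll dr rr w kl kr)
    (hu : (yH x (RR w kl) (Complex.cos w)).re < 1 / 2)
    (hv : (yH r (RR w kr) (Complex.cos w)).re < 1 / 2) (H : List QC) :
    cexp (2 * Real.pi * I * mH x (RR w kl) (Complex.cos w)) *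
      (tIx x H).M.val (RR w kl) (Complex.tan w) = (tIx x H).N.val (RR w kl) (Complex.tan w) := by
  by_cases hx : x = .s
  · subst hx
    have T := M3.tri_of t hu hv
    have E := M3.exps_of T hu hv
    have hc0 := ne_of_re t.left.kre
    have ht := tan_sq hc0
    have hR : 0 < (RR w kl).re := r0_pos.trans t.left.Rre
    have hRI : RR w kl + I ≠ 0 := by
      intro h
      exact (ne_I_of_re hR).2 (by linear_combination h)
    have em := E.em
    have e1 := T.hy
    have e2 := T.um
    rw [Hq_s] at em e1 e2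
    have hS : Sp (RR w kl) (Complex.cos w) * (RR w kl + I) =
        I * RR w kl + (1 / Complex.cos w ^ 2 - 1) := by
      unfold Sp
      rw [div_mul_cancel₀ _ hRI]
    unfold mH
    rw [Hq_s]
    change _ * (Ev.tq.val _ _ * Ev.rp.val _ _) = gz 0 0 1 0 * Ev.tl3.val _ _
    have h4 := Ev.val_tl3 (RR w kl) (Complex.tan w)
    have h5 : Ev.tl3.val (RR w kl) (Complex.tan w) =
        I * RR w kl * (4 - 1 / Complex.cos w ^ 2) - (4 - 3 * (1 / Complex.cos w ^ 2)) := by
      apply mul_left_cancel₀ (two_ne_zero : (2 : ℂ) ≠ 0)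
      rw [h4, ht]
      simp only [DB, cab]
      ring
    rw [Ev.val_tq, Ev.val_rp, ht, h5, gz_I]
    set U := Sp (RR w kl) (Complex.cos w)
    set M := Sp U (Complex.cos w)
    set E0 := cexp (2 * Real.pi * I * acot2 M)
    set Q := 1 / Complex.cos w ^ 2
    have key : E0 * Q = Q - 2 + 2 * I * U := by
      linear_combination (-E0) * e2 - (E0 * (U + I)) * e1 + ((U + I) * (M + I)) * em +
        e2 + 2 * Complex.I_mul_I
    linear_combination (RR w kl + I) * key + 2 * I * hS +
      (2 * RR w kl - RR w kl * (4 - Q)) * Complex.I_mul_I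
  · have e : tIx x H = tYs H := by
      cases x
      · rfl
      · rfl
      · rfl
      · exact absurd rfl hx
    rw [e]
    have T := M3.tri_of t hu hv
    have E := M3.exps_of T hu hv
    have hc0 := ne_of_re t.left.kre
    have ht := tan_sq hc0
    have em := E.em
    have e1 := T.hy
    have e2 := T.um
    rw [Hq_of_ne hx] at em e1 e2
    unfold mH
    rw [Hq_of_ne hx]
    change _ * Ev.tq.val _ _ = Ev.tl2.val _ _
    have h4 := Ev.val_tl2 (RR w kl) (Complex.tan w)
    have h5 : Ev.tl2.val (RR w kl) (Complex.tan w) =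
        1 / Complex.cos w ^ 2 - 2 + 2 * I * RR w kl := by
      apply mul_left_cancel₀ (two_ne_zero : (2 : ℂ) ≠ 0)
      rw [h4, ht]
      simp only [DB, cab]
      ring
    rw [Ev.val_tq, ht, h5]
    set M := Sp (RR w kl) (Complex.cos w)
    set E0 := cexp (2 * Real.pi * I * acot2 M)
    linear_combination (-E0) * e2 - (E0 * (RR w kl + I)) * e1 + ((RR w kl + I) * (M + I)) * em +
      e2 + 2 * Complex.I_mul_I

/-- the exponential of the inner variable minus the hinge -/
lemma expJ (t : RDt K 3 x r dl ll dr rr w kl kr)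
    (hu : (yH x (RR w kl) (Complex.cos w)).re < 1 / 2)
    (hv : (yH r (RR w kr) (Complex.cos w)).re < 1 / 2)
    (h2 : x = .s → (acot2 (Sp (RR w kl) (Complex.cos w))).re < 1 / 2) (H : List QC) :
    cexp (2 * Real.pi * I * (mH x (RR w kl) (Complex.cos w) - yH x (RR w kl) (Complex.cos w))) *
      (tJx x H).M.val (RR w kl) (Complex.tan w) = (tJx x H).N.val (RR w kl) (Complex.tan w) := by
  have e1 := expI t hu hv H
  have hR : 0 < (RR w kl).re := r0_pos.trans t.left.Rre
  have e2 := expY (w := w) t.left.kre hR h2 H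
  have h0 := Complex.exp_ne_zero (2 * Real.pi * I * yH x (RR w kl) (Complex.cos w))
  by_cases hx : x = .s
  · subst hx
    change _ * (Ev.tq.val _ _ * Ev.rp.val _ _) = gz 0 0 1 0 * Ev.tl3.val _ _ at e1
    change _ * Ev.tq.val _ _ = Ev.tl2.val _ _ at e2
    change _ * (Ev.rp.val _ _ * Ev.tl2.val _ _) = gz 0 0 1 0 * Ev.tl3.val _ _
    rw [← e1, ← e2, mul_sub, Complex.exp_sub]
    field_simp
  · have e : tIx x H = tYs H := by
      cases x
      · rfl
      · rfl
      · rfl
      · exact absurd rfl hx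
    have e' : tJx x H = tSs H := by
      cases x
      · rfl
      · rfl
      · rfl
      · exact absurd rfl hx
    have e3 : tYx x H = tY H := by
      cases x
      · rfl
      · rfl
      · rfl
      · exact absurd rfl hx
    rw [e] at e1
    rw [e3] at e2
    rw [e']
    change _ * Ev.tq.val _ _ = Ev.tl2.val _ _ at e1
    change _ * Ev.rm.val _ _ = Ev.rp.val _ _ at e2
    change _ * (Ev.tq.val _ _ * Ev.rp.val _ _) = Ev.tl2.val _ _ * Ev.rm.val _ _
    rw [← e1, ← e2, mul_sub, Complex.exp_sub]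
    field_simp

/-- the far hinge as a variable `v` of the row -/
def Far (x : SK) (R q' v : ℂ) : Prop :=
  match x with
  | .a => cexp (2 * Real.pi * I * v) * (q' - 2 - 2 * I * R) = q'
  | _ => cexp (2 * Real.pi * I * v) * (q' - 2 + 2 * I * R) = q'

lemma expF {q' R T v : ℂ} (hq : R ^ 2 - T ^ 2 = q') (h : Far x R q' v) (H : List QC) :
    cexp (2 * Real.pi * I * v) * (tFx x H).M.val R T = (tFx x H).N.val R T := by
  have e1 : ∀ a b : ℕ, (Ev.tr2 a b).val R T = q' - 2 + 2 * (((a : ℂ) - b) * I) * R := by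
    intro a b
    apply mul_left_cancel₀ (two_ne_zero : (2 : ℂ) ≠ 0)
    rw [Ev.val_tr2, show R ^ 2 + 1 - (T ^ 2 + 1) = q' by rw [← hq]; ring]
    simp only [DB, cab]
    ring
  have e2 : Ev.tq2.val R T = q' := by
    rw [Ev.val_tq2, ← hq]
    ring
  cases x
  · change _ * (Ev.tr2 1 0).val _ _ = Ev.tq2.val _ _
    rw [e1, e2]
    have h' : cexp (2 * Real.pi * I * v) * (q' - 2 + 2 * I * R) = q' := h
    push_cast
    linear_combination h'
  · change _ * (Ev.tr2 0 1).val _ _ = Ev.tq2.val _ _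
    rw [e1, e2]
    have h' : cexp (2 * Real.pi * I * v) * (q' - 2 - 2 * I * R) = q' := h
    push_cast
    linear_combination h'
  · change _ * (Ev.tr2 1 0).val _ _ = Ev.tq2.val _ _
    rw [e1, e2]
    have h' : cexp (2 * Real.pi * I * v) * (q' - 2 + 2 * I * R) = q' := h
    push_cast
    linear_combination h'
  · change _ * (Ev.tr2 1 0).val _ _ = Ev.tq2.val _ _
    rw [e1, e2]
    have h' : cexp (2 * Real.pi * I * v) * (q' - 2 + 2 * I * R) = q' := h
    push_cast
    linear_combination h'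

/-- the hinges of a region with three crossings -/
lemma re_halfx (Bx : BoxRows K) (t : RDt K 3 x r dl ll dr rr w kl kr) (hx : x ≠ .e)
    (hr : r ≠ .e) :
    (yH x (RR w kl) (Complex.cos w)).re < 1 / 2 ∧ (yH r (RR w kr) (Complex.cos w)).re < 1 / 2 := by
  obtain ⟨c, hc⟩ := M3.fits t.left
  obtain ⟨c', hc'⟩ := M3.fits t.right
  exact ⟨(M3.box_fits (bxs_of Bx) t.left hr hc).2.1,
    (M3.box_fits (bxs_of Bx) t.right hx hc').2.1⟩

/-- **The bounds of a row.** `v`: the far hinge. -/
theorem tuseN (hK : KOK K) (Bx : BoxRows K) (t : RDt K 3 x r dl ll dr rr w kl kr)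
    {v : ℂ} (hv : Far x (RR w kl) (1 / kl ^ 2) v)
    {gi mi si fi : List GC} {o : List QC} {L : List Grp} {o' : List QC} {L' : List Grp}
    {gy gm gs gf : List GC} {n code : ℕ}
    (hr : trowOkN x gi mi si fi o L o' L' gy gm gs gf n code = true)
    (hi : ∀ g ∈ gi, g.G (yH x (RR w kl) (Complex.cos w)))
    (hmi : ∀ g ∈ mi, g.G (mH x (RR w kl) (Complex.cos w)))
    (hsi : ∀ g ∈ si, g.G (mH x (RR w kl) (Complex.cos w) - yH x (RR w kl) (Complex.cos w)))
    (hfi : ∀ g ∈ fi, g.G v)
    (ho : InH (K.K 3 r x) o) (ho' : InH (K.K dl ll x) o')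
    (hL : AllOk (RR w kl) (Complex.tan w) L) (hL' : AllOk (RR w kl) (Complex.tan w) L') :
    (∀ g ∈ gy, g.P (yH x (RR w kl) (Complex.cos w))) ∧
      (∀ g ∈ gm, g.P (mH x (RR w kl) (Complex.cos w))) ∧
      (∀ g ∈ gs, g.P (mH x (RR w kl) (Complex.cos w) - yH x (RR w kl) (Complex.cos w))) ∧
      ∀ g ∈ gf, g.P v := by
  have hxe : x ≠ .e := t.left.ok.ne
  have hre : r ≠ .e := t.right.ok.ne
  obtain ⟨hu, hv'⟩ := re_halfx Bx t hxe hre
  have hc := t.left.kre
  have hc0 := ne_of_re hc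
  have hT := tan_sq hc0
  have hR : 0 < (RR w kl).re := r0_pos.trans t.left.Rre
  have hq : RR w kl ^ 2 + 1 - 1 / Complex.cos w ^ 2 = 1 / kl ^ 2 := by
    rw [t.left.hinge]
    ring
  have hq2 : RR w kl ^ 2 - Complex.tan w ^ 2 = 1 / kl ^ 2 := by
    rw [← hq, ← hT]
    ring
  have hm' := t.left.mem'
  have h1 := inH_ownR (x := x) ho'
  rw [← K.symm] at h1
  have hsp : x = .s → (acot2 (Sp (RR w kl) (Complex.cos w))).re < 1 / 2 := by
    intro hx
    subst hx
    exact (Bx.sp t.left).2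
  unfold trowOkN at hr
  rw [Bool.and_eq_true, Bool.and_eq_true, Bool.and_eq_true, Bool.and_eq_true, Bool.and_eq_true,
    Bool.and_eq_true, Bool.and_eq_true, Bool.and_eq_true] at hr
  obtain ⟨hrow, ⟨⟨⟨⟨⟨⟨k1, k2⟩, k3⟩, k4⟩, k5⟩, k6⟩, k7⟩, k8⟩ := hr
  have hl : AllOk (RR w kl) (Complex.tan w) (tsN x gi mi si fi o L o' L') := by
    refine AllOk.cons ?_ (AllOk.cons (tl_ok hc0 hT (ho _ t.left.mem))
      (AllOk.cons (tr_ok (ne_of_re t.left.kre') hT hq (h1 kl hm'))
      (hL.append (hL'.append (AllOk.cons ?_ (AllOk.cons ?_ (AllOk.cons ?_ AllOk.nil)))))))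
    · refine ⟨_, expY hc hR hsp _, ?_⟩
      have eH : (tYx x (gi.map GC.qi)).H = gi.map GC.qi := by cases x <;> rfl
      rw [eH]
      intro Q hQ
      obtain ⟨g, hg, rfl⟩ := List.mem_map.1 hQ
      exact GC.imp (List.all_eq_true.1 k1 g hg) (hi g hg)
    · refine ⟨_, expI t hu hv' _, ?_⟩
      have eH : (tIx x (mi.map GC.qi)).H = mi.map GC.qi := by cases x <;> rfl
      rw [eH]
      intro Q hQ
      obtain ⟨g, hg, rfl⟩ := List.mem_map.1 hQ
      exact GC.imp (List.all_eq_true.1 k2 g hg) (hmi g hg)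
    · refine ⟨_, expJ t hu hv' hsp _, ?_⟩
      have eH : (tJx x (si.map GC.qi)).H = si.map GC.qi := by cases x <;> rfl
      rw [eH]
      intro Q hQ
      obtain ⟨g, hg, rfl⟩ := List.mem_map.1 hQ
      exact GC.imp (List.all_eq_true.1 k3 g hg) (hsi g hg)
    · refine ⟨_, expF hq2 hv _, ?_⟩
      have eH : (tFx x (fi.map GC.qi)).H = fi.map GC.qi := by cases x <;> rfl
      rw [eH]
      intro Q hQ
      obtain ⟨g, hg, rfl⟩ := List.mem_map.1 hQ
      exact GC.imp (List.all_eq_true.1 k4 g hg) (hfi g hg)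
  have hm := rootT_mem hK t.left hT (tan_re t.w0 t.w1)
  refine ⟨fun g hg => ?_, fun g hg => ?_, fun g hg => ?_, fun g hg => ?_⟩
  · have eH : (tYx x (gy.map GC.q)).H = gy.map GC.q := by cases x <;> rfl
    exact GC.spec (List.all_eq_true.1 k5 g hg) (row_sound hrow hm hl
      (g := tYx x (gy.map GC.q)) (by simp [goN]) (expY hc hR hsp _) g.q
      (by rw [eH]; exact List.mem_map_of_mem hg))
  · have eH : (tIx x (gm.map GC.q)).H = gm.map GC.q := by cases x <;> rfl
    exact GC.spec (List.all_eq_true.1 k6 g hg) (row_sound hrow hm hl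
      (g := tIx x (gm.map GC.q)) (by simp [goN]) (expI t hu hv' _) g.q
      (by rw [eH]; exact List.mem_map_of_mem hg))
  · have eH : (tJx x (gs.map GC.q)).H = gs.map GC.q := by cases x <;> rfl
    exact GC.spec (List.all_eq_true.1 k7 g hg) (row_sound hrow hm hl
      (g := tJx x (gs.map GC.q)) (by simp [goN]) (expJ t hu hv' hsp _) g.q
      (by rw [eH]; exact List.mem_map_of_mem hg))
  · have eH : (tFx x (gf.map GC.q)).H = gf.map GC.q := by cases x <;> rfl
    exact GC.spec (List.all_eq_true.1 k8 g hg) (row_sound hrow hm hl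
      (g := tFx x (gf.map GC.q)) (by simp [goN]) (expF hq2 hv _) g.q
      (by rw [eH]; exact List.mem_map_of_mem hg))

/-- the neighbour on the other side -/
lemma allLx (t : RDt K 3 x r dl ll dr rr w kl kr) {B : ℕ} (hB : crs 3 r x = B) {H : List QC}
    (hH : InH {kr} H) : AllOk (RR w kl) (Complex.tan w) (tA B H) := by
  subst hB
  have hT := tan_sq (ne_of_re t.left.kre)
  exact tA_all hT (by rw [t.left.hinge]; ring) hH (out_left t.symm)

/-- the far hinge, the digit `1` absorbed -/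
lemma far_split (Bx : BoxRows K) {d : ℕ} {l : SK} {d' : ℕ} {l' : SK} {R k k' : ℂ}
    (h : HDt K .s d l d' l' R k k') : Far .s R (1 / k' ^ 2) (-acot2 (Sp R k')) := by
  have hR : 0 < R.re := r0_pos.trans h.Rre
  have e := exp_split hR (ne_of_re h.kre') (sp_far Bx h)
  change cexp _ * (1 / k' ^ 2 - 2 + 2 * I * R) = _
  rw [← e, ← mul_assoc, ← Complex.exp_add]
  rw [show 2 * Real.pi * I * -acot2 (Sp R k') + 2 * Real.pi * I * acot2 (Sp R k') = 0 by ring,
    Complex.exp_zero, one_mul]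

/-- the other hinge of a digit `1` which is not absorbed, in its own frame -/
lemma one_left (Bx : BoxRows K) (t : RDt K 1 .s .a dl ll dr rr w kl kr) :
    cexp (2 * Real.pi * I * yH .s (RR w kl) (Complex.cos w)) *
      (1 / Complex.cos w ^ 2 - 2 + 2 * I * RR w kr) = 1 / Complex.cos w ^ 2 := by
  have hc0 := ne_of_re t.left.kre
  have hT := tan_sq hc0
  have hT0 : Complex.tan w ≠ 0 := by
    intro h
    have := t.tan_re
    rw [h] at this
    exact lt_irrefl _ this
  have hR : 0 < (RR w kl).re := r0_pos.trans t.left.Rre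
  have hRI : RR w kl + I ≠ 0 := by
    intro h
    exact (ne_I_of_re hR).2 (by linear_combination h)
  have hE : cexp (2 * Real.pi * I * yH .s (RR w kl) (Complex.cos w)) *
      (Hq .s (RR w kl) (Complex.cos w) - I) = Hq .s (RR w kl) (Complex.cos w) + I := by
    unfold yH
    rw [Hq_s]
    exact exp_acot2 (Sp_ne_I hRI hc0) (ne_nI_of_half (Bx.sp t.left).2)
  have h := t.reH
  rw [Hq_of_ne (by decide : SK.a ≠ .s)] at h
  have h1 := RE_lin (q := Complex.tan w ^ 2 + 1) Complex.I_mul_I hT0 (by ring) h.symm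
  simp only [cab] at h1
  rw [← hT]
  set E := cexp (2 * Real.pi * I * yH .s (RR w kl) (Complex.cos w))
  set Y := Hq .s (RR w kl) (Complex.cos w)
  set R := RR w kr
  set T := Complex.tan w
  have h2 : Y * (1 - R * I) = T ^ 2 * I - R := by
    linear_combination h1
  have h3 : E * (I * T ^ 2 - 2 * R - I) = I * (T ^ 2 + 1) := by
    linear_combination (1 - I * R) * hE + (1 - E) * h2 - (R * (E + 1)) * Complex.I_mul_I
  apply mul_left_cancel₀ Complex.I_ne_zero
  linear_combination h3 + (2 * R * E) * Complex.I_mul_I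

end

end

end Pool.Agent.Work.MP_b30479_gtS.G2.CN.TD

end

section

/-!
# Part of `TLg`
-/
namespace Pool.Agent.Work.MP_b30479_gtS.G2.CN.TD

open Complex SR Ev
open scoped ComplexConjugate

noncomputable section

lemma val_tl7 (u w : ℂ) : 2 * tl7.val u w = DB I 7 u (w ^ 2 + 1) := by
  change 2 * (gz 0 0 1 0 * u * (gz 7 0 0 0 + (21 : ℕ) * (w ^ 2) ^ 2 -
    ((35 : ℕ) * w ^ 2 + (w ^ 2) ^ 2 * w ^ 2)) - (one.val u w + (35 : ℕ) * (w ^ 2) ^ 2 -
    ((21 : ℕ) * w ^ 2 + (7 : ℕ) * ((w ^ 2) ^ 2 * w ^ 2)))) = _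
  rw [gz_nat, gz_I, val_one]
  simp only [DB, cab]
  push_cast
  ring

/-- the digits for which the other hinge is available -/
def LgD (d : ℕ) : Prop := d = 3 ∨ d = 4 ∨ d = 5 ∨ d = 6

end

end Pool.Agent.Work.MP_b30479_gtS.G2.CN.TD

end

section

/-!
# Rows with the hinge on the other side, for all digits

`lg_u`, `lg_s`: the exponential of the other hinge of a region with the digit `d` is a quotient of
two ring polynomials in the variables of a hinge; `trowOkB`: the check of a row with conditions for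
the hinge, the ring variable, their difference and the other hinge, and with alternatives.
-/

namespace Pool.Agent.Work.MP_b30479_gtS.G2.CN.TD

open Complex SR Ev
open scoped ComplexConjugate

noncomputable section

lemma val_tl8 (u w : ℂ) : 2 * tl8.val u w = DB I 8 u (w ^ 2 + 1) := by
  change 2 * (gz 0 0 8 0 * u * ((one.val u w - w ^ 2) * ((w ^ 2) ^ 2 - (6 : ℕ) * w ^ 2 +
    one.val u w)) - (one.val u w + (70 : ℕ) * (w ^ 2) ^ 2 + ((w ^ 2) ^ 2) ^ 2 -
    ((28 : ℕ) * w ^ 2 + (28 : ℕ) * ((w ^ 2) ^ 2 * w ^ 2)))) = _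
  rw [gz_I, val_one]
  simp only [DB, cab]
  push_cast
  ring

/-! ### the exponential of the other hinge -/

/-- the other hinge, unsplit -/
lemma left_ug {n : ℕ} {E Yl R T : ℂ} (hE : E * (Yl - I) = Yl + I) (hT : T ≠ 0)
    (h : RE I (n + 1) Yl R T) :
    E * -(DB I (n + 2) R (T ^ 2 + 1)) = (T ^ 2 + 1) * DB I n R (T ^ 2 + 1) := by
  have h1 := RE_lin (q := T ^ 2 + 1) Complex.I_mul_I hT (by ring) h.symm
  simp only [DB, cab] at h1 ⊢
  set c := (cab (T ^ 2 + 1 - 1) n).1
  set s := (cab (T ^ 2 + 1 - 1) n).2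
  set D : ℂ := (c - T ^ 2 * s) - R * (I * (c + s)) with hD
  set N : ℂ := T ^ 2 * (I * (c + s)) - R * (c - T ^ 2 * s) with hN
  have h2 : Yl * D = N := by
    rw [hD, hN]
    linear_combination h1
  have h3 : E * (N - I * D) = N + I * D := by
    rw [← h2]
    linear_combination D * hE
  have h4 : N - I * D = I * (I * R * (c - T ^ 2 * s + (c + s)) -
      (c - T ^ 2 * s - T ^ 2 * (c + s))) := by
    rw [hD, hN]
    linear_combination (R * (c + s) - R * (c - T ^ 2 * s + (c + s))) * Complex.I_mul_I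
  have h5 : N + I * D = -I * ((T ^ 2 + 1) * (I * R * s - c)) := by
    rw [hD, hN]
    linear_combination (-R * (c + s) + (T ^ 2 + 1) * R * s) * Complex.I_mul_I
  rw [h4, h5] at h3
  apply mul_left_cancel₀ Complex.I_ne_zero
  linear_combination -2 * h3

/-- the other hinge, the first hinge split -/
lemma left_sg {n : ℕ} {E Yl R k T : ℂ} (hE : E * (Yl - I) = Yl + I) (hT : T ≠ 0)
    (hRI : R + I ≠ 0) (hk : T ^ 2 + 1 = 1 / k ^ 2) (h : RE I n Yl (Sp R k) T) :
    E * -(DB I (n + 2) R (T ^ 2 + 1)) = (T ^ 2 + 1) * DB I n R (T ^ 2 + 1) := by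
  have h1 := RE_lin (q := T ^ 2 + 1) Complex.I_mul_I hT (by ring) h.symm
  have hS : Sp R k * (R + I) = I * R + T ^ 2 := by
    unfold Sp
    rw [div_mul_cancel₀ _ hRI, ← hk]
    ring
  simp only [DB, cab] at h1 ⊢
  set c := (cab (T ^ 2 + 1 - 1) n).1
  set s := (cab (T ^ 2 + 1 - 1) n).2
  set S := Sp R k
  set D : ℂ := (R + I) * c - (I * R + T ^ 2) * (I * s) with hD
  set N : ℂ := (R + I) * (T ^ 2 * (I * s)) - (I * R + T ^ 2) * c with hN
  have h2 : Yl * D = N := by
    rw [hD, hN]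
    linear_combination (R + I) * h1 + (Yl * I * s - c) * hS
  have h3 : E * (N - I * D) = N + I * D := by
    rw [← h2]
    linear_combination D * hE
  have h4 : N - I * D = -(I * R * (c - T ^ 2 * s + (c + s)) -
      (c - T ^ 2 * s - T ^ 2 * (c + s))) + 0 * (R + I) := by
    rw [hD, hN]
    linear_combination (R * s * I + (2 * T ^ 2 * s - c)) * Complex.I_mul_I
  have h5 : N + I * D = (T ^ 2 + 1) * (I * R * s - c) := by
    rw [hD, hN]
    linear_combination (-R * s * I + c) * Complex.I_mul_I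
  rw [h4, h5] at h3
  linear_combination 2 * h3

section
variable {K : KFam} {d : ℕ} {l x : SK} {dl : ℕ} {ll : SK} {dr : ℕ} {rr : SK} {w kl kr : ℂ}

lemma rel_left (Bx : BoxRows K) (t : RDt K d l x dl ll dr rr w kl kr) :
    cexp (2 * Real.pi * I * yH l (RR w kl) (Complex.cos w)) *
      (Hq l (RR w kl) (Complex.cos w) - I) = Hq l (RR w kl) (Complex.cos w) + I := by
  have hc := ne_of_re t.left.kre
  have hR : 0 < (RR w kl).re := r0_pos.trans t.left.Rre
  unfold yH
  by_cases hl : l = .s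
  · subst hl
    rw [Hq_s]
    exact exp_acot2 (Sp_ne_I (by
      intro h
      exact (ne_I_of_re hR).2 (by linear_combination h)) hc) (ne_nI_of_half (Bx.sp t.left).2)
  · rw [Hq_of_ne hl]
    exact exp_acot2 (ne_I_of_re hR).1 (ne_I_of_re hR).2

lemma tan_ne (t : RDt K d l x dl ll dr rr w kl kr) : Complex.tan w ≠ 0 := by
  intro h
  have := t.tan_re
  rw [h] at this
  exact lt_irrefl _ this

/-- the exponential of the other hinge, this hinge not split -/
lemma lg_u (Bx : BoxRows K) {n : ℕ} {A B : Ev}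
    (hA : ∀ u w : ℂ, 2 * A.val u w = DB I n u (w ^ 2 + 1))
    (hB : ∀ u w : ℂ, 2 * B.val u w = DB I (n + 2) u (w ^ 2 + 1))
    (t : RDt K (n + 1) l x dl ll dr rr w kl kr) (hx : x ≠ .s) :
    cexp (2 * Real.pi * I * yH l (RR w kl) (Complex.cos w)) *
      (Ev.gm 0 1 0 0 B).val (RR w kr) (Complex.tan w) =
      (Ev.mul tq A).val (RR w kr) (Complex.tan w) := by
  have hre := t.reH
  rw [Hq_of_ne hx] at hre
  have h := left_ug (rel_left Bx t) (tan_ne t) hre
  have a := hA (RR w kr) (Complex.tan w)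
  have b := hB (RR w kr) (Complex.tan w)
  rw [val_neg1, val_q]
  rw [← a, ← b] at h
  apply mul_left_cancel₀ (two_ne_zero : (2 : ℂ) ≠ 0)
  linear_combination h

/-- the exponential of the other hinge, this hinge split -/
lemma lg_s (Bx : BoxRows K) {n : ℕ} {A B : Ev}
    (hA : ∀ u w : ℂ, 2 * A.val u w = DB I n u (w ^ 2 + 1))
    (hB : ∀ u w : ℂ, 2 * B.val u w = DB I (n + 2) u (w ^ 2 + 1))
    (t : RDt K n l .s dl ll dr rr w kl kr) :
    cexp (2 * Real.pi * I * yH l (RR w kl) (Complex.cos w)) *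
      (Ev.gm 0 1 0 0 B).val (RR w kr) (Complex.tan w) =
      (Ev.mul tq A).val (RR w kr) (Complex.tan w) := by
  have hre := t.reH
  rw [Hq_s] at hre
  have hR : 0 < (RR w kr).re := r0_pos.trans t.right.Rre
  have hRI : RR w kr + I ≠ 0 := by
    intro h
    exact (ne_I_of_re hR).2 (by linear_combination h)
  have h := left_sg (rel_left Bx t) (tan_ne t) hRI (tan_sq (ne_of_re t.left.kre)) hre
  have a := hA (RR w kr) (Complex.tan w)
  have b := hB (RR w kr) (Complex.tan w)
  rw [val_neg1, val_q]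
  rw [← a, ← b] at h
  apply mul_left_cancel₀ (two_ne_zero : (2 : ℂ) ≠ 0)
  linear_combination h

end

/-! ### the groups -/

lemma tLg_H {d : ℕ} (hd : LgD d) (x : SK) (H : List QC) : (tLg d x H).H = H := by
  rcases hd with rfl | rfl | rfl | rfl <;> cases x <;> rfl

section
variable {K : KFam} {d : ℕ} {l x : SK} {dl : ℕ} {ll : SK} {dr : ℕ} {rr : SK} {w kl kr : ℂ}

/-- the exponential of the other hinge -/
lemma expLg (Bx : BoxRows K) (hd : LgD d) (t : RDt K d l x dl ll dr rr w kl kr) (H : List QC) :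
    cexp (2 * Real.pi * I * yH l (RR w kl) (Complex.cos w)) *
      (tLg d x H).M.val (RR w kr) (Complex.tan w) =
      (tLg d x H).N.val (RR w kr) (Complex.tan w) := by
  rcases hd with rfl | rfl | rfl | rfl <;> cases x
  · exact lg_u Bx val_tl2 val_tl4 t (by decide)
  · exact lg_u Bx val_tl2 val_tl4 t (by decide)
  · exact lg_u Bx val_tl2 val_tl4 t (by decide)
  · exact lg_s Bx val_tl3 val_tl5 t
  · exact lg_u Bx val_tl3 val_tl5 t (by decide)
  · exact lg_u Bx val_tl3 val_tl5 t (by decide)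
  · exact lg_u Bx val_tl3 val_tl5 t (by decide)
  · exact lg_s Bx val_tl4 val_tl6 t
  · exact lg_u Bx val_tl4 val_tl6 t (by decide)
  · exact lg_u Bx val_tl4 val_tl6 t (by decide)
  · exact lg_u Bx val_tl4 val_tl6 t (by decide)
  · exact lg_s Bx val_tl5 val_tl7 t
  · exact lg_u Bx val_tl5 val_tl7 t (by decide)
  · exact lg_u Bx val_tl5 val_tl7 t (by decide)
  · exact lg_u Bx val_tl5 val_tl7 t (by decide)
  · exact lg_s Bx val_tl6 val_tl8 t

end

/-! ### rows -/

/-- the check of a row; `gl`: goals for the other hinge; `al`: alternatives -/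
def trowOkB (d : ℕ) (x : SK) (gi zi ui li : List GC) (o : List QC) (L : List Grp) (o' : List QC)
    (L' : List Grp) (gy gz gu gl : List GC) (al : List (GC × GC)) (n code : ℕ) : Bool :=
  rowA (tsB d x gi zi ui li o L o' L') (goT x gy gz gu ++ [tLg d x (gl.map GC.q)]) (tZ [])
      (tUx x []) (al.map fun p => (p.1.q, p.2.q)) n code rootT &&
    (gi.all GC.oki && zi.all GC.oki && ui.all GC.oki && li.all GC.oki && gy.all GC.ok &&
      gz.all GC.ok && gu.all GC.ok && gl.all GC.ok && al.all fun p => p.1.ok && p.2.ok)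

section
variable {K : KFam} {d : ℕ} {l x : SK} {dl : ℕ} {ll : SK} {dr : ℕ} {rr : SK} {w kl kr : ℂ}

/-- **The bounds of a row.** -/
theorem tuseB (hK : KOK K) (Bx : BoxRows K) (hd : LgD d) (t : RDt K d l x dl ll dr rr w kl kr)
    {gi zi ui li : List GC} {o : List QC} {L : List Grp}
    {o' : List QC} {L' : List Grp} {gy gz gu gl : List GC} {al : List (GC × GC)} {n code : ℕ}
    (hr : trowOkB d x gi zi ui li o L o' L' gy gz gu gl al n code = true)
    (hi : ∀ g ∈ gi, g.G (yH x (RR w kr) (Complex.cos w)))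
    (hzi : ∀ g ∈ zi, g.G (-zeta w))
    (hui : ∀ g ∈ ui, g.G (yH x (RR w kr) (Complex.cos w) - zeta w))
    (hli : ∀ g ∈ li, g.G (yH l (RR w kl) (Complex.cos w)))
    (ho : InH (K.K d l x) o) (ho' : InH (K.K dr rr x) o')
    (hL : AllOk (RR w kr) (Complex.tan w) L) (hL' : AllOk (RR w kr) (Complex.tan w) L') :
    ((∀ g ∈ gy, g.P (yH x (RR w kr) (Complex.cos w))) ∧ (∀ g ∈ gz, g.P (-zeta w)) ∧
      (∀ g ∈ gu, g.P (yH x (RR w kr) (Complex.cos w) - zeta w)) ∧
      ∀ g ∈ gl, g.P (yH l (RR w kl) (Complex.cos w))) ∧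
      ∃ p ∈ al, p.1.P (-zeta w) ∧ p.2.P (yH x (RR w kr) (Complex.cos w) - zeta w) := by
  have T := RDt.tdt Bx t
  have hc := T.h.kre
  have hc0 := ne_of_re hc
  have hT := tan_sq hc0
  have hR : 0 < (RR w kr).re := r0_pos.trans T.h.Rre
  have hq : RR w kr ^ 2 + 1 - 1 / Complex.cos w ^ 2 = 1 / kr ^ 2 := by
    rw [T.h.hinge]
    ring
  have hm' := T.h.mem'
  have h1 := inH_ownR (x := x) ho'
  rw [← K.symm] at h1
  unfold trowOkB at hr
  rw [Bool.and_eq_true, Bool.and_eq_true, Bool.and_eq_true, Bool.and_eq_true, Bool.and_eq_true,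
    Bool.and_eq_true, Bool.and_eq_true, Bool.and_eq_true, Bool.and_eq_true] at hr
  obtain ⟨hrow, ⟨⟨⟨⟨⟨⟨⟨k1, k2⟩, k3⟩, k4⟩, k5⟩, k6⟩, k7⟩, k8⟩, k9⟩ := hr
  have hl : AllOk (RR w kr) (Complex.tan w) (tsB d x gi zi ui li o L o' L') := by
    refine AllOk.cons ?_ (AllOk.cons ?_ (AllOk.cons ?_ (AllOk.cons
      (tl_ok hc0 hT (ho _ T.h.mem)) (AllOk.cons (tr_ok (ne_of_re T.h.kre') hT hq (h1 kr hm'))
      (AllOk.cons ?_ (hL.append hL'))))))
    · refine ⟨_, expY hc hR T.sp _, ?_⟩
      have eH : (tYx x (gi.map GC.qi)).H = gi.map GC.qi := by cases x <;> rfl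
      rw [eH]
      intro Q hQ
      obtain ⟨g, hg, rfl⟩ := List.mem_map.1 hQ
      exact GC.imp (List.all_eq_true.1 k1 g hg) (hi g hg)
    · refine ⟨_, expU hc hR T.sp _, ?_⟩
      have eH : (tUx x (ui.map GC.qi)).H = ui.map GC.qi := by cases x <;> rfl
      rw [eH]
      intro Q hQ
      obtain ⟨g, hg, rfl⟩ := List.mem_map.1 hQ
      exact GC.imp (List.all_eq_true.1 k3 g hg) (hui g hg)
    · refine ⟨_, expLg Bx hd t _, ?_⟩
      rw [tLg_H hd]
      intro Q hQ
      obtain ⟨g, hg, rfl⟩ := List.mem_map.1 hQ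
      exact GC.imp (List.all_eq_true.1 k4 g hg) (hli g hg)
    · refine ⟨_, expZ hc _, ?_⟩
      intro Q hQ
      obtain ⟨g, hg, rfl⟩ := List.mem_map.1 hQ
      exact GC.imp (List.all_eq_true.1 k2 g hg) (hzi g hg)
  have hm := rootT_mem hK T.h hT (tan_re T.w0 T.w1)
  obtain ⟨hgo, hal⟩ := rowA_sound hrow hm hl (expZ hc _) (expU hc hR T.sp _)
  refine ⟨⟨fun g hg => ?_, fun g hg => ?_, fun g hg => ?_, fun g hg => ?_⟩, alt_ok k9 hal⟩
  · have eH : (tYx x (gy.map GC.q)).H = gy.map GC.q := by cases x <;> rfl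
    exact GC.spec (List.all_eq_true.1 k5 g hg) (hgo (tYx x (gy.map GC.q)) (by simp [goT]) _
      (expY hc hR T.sp _) g.q (by rw [eH]; exact List.mem_map_of_mem hg))
  · exact GC.spec (List.all_eq_true.1 k6 g hg) (hgo (tZ (gz.map GC.q)) (by simp [goT]) _
      (expZ hc _) g.q (List.mem_map_of_mem hg))
  · have eH : (tUx x (gu.map GC.q)).H = gu.map GC.q := by cases x <;> rfl
    exact GC.spec (List.all_eq_true.1 k7 g hg) (hgo (tUx x (gu.map GC.q)) (by simp [goT]) _
      (expU hc hR T.sp _) g.q (by rw [eH]; exact List.mem_map_of_mem hg))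
  · exact GC.spec (List.all_eq_true.1 k8 g hg) (hgo (tLg d x (gl.map GC.q)) (by simp [goT]) _
      (expLg Bx hd t _) g.q (by rw [tLg_H hd]; exact List.mem_map_of_mem hg))

end

section
variable {K : KFam} {d : ℕ} {l x : SK} {dl : ℕ} {ll : SK} {dr : ℕ} {rr : SK} {w kl kr : ℂ}

/-- **The bounds of a row.** -/
theorem tuseC (hK : KOK K) (Bx : BoxRows K) (hd : LgD d) (t : RDt K d l x dl ll dr rr w kl kr)
    {gi zi ui li : List GC} {o : List QC} {L : List Grp}
    {o' : List QC} {L' : List Grp} {gy gz gu gl : List GC} {n code : ℕ}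
    (hr : trowOkC d x gi zi ui li o L o' L' gy gz gu gl n code = true)
    (hi : ∀ g ∈ gi, g.G (yH x (RR w kr) (Complex.cos w)))
    (hzi : ∀ g ∈ zi, g.G (-zeta w))
    (hui : ∀ g ∈ ui, g.G (yH x (RR w kr) (Complex.cos w) - zeta w))
    (hli : ∀ g ∈ li, g.G (yH l (RR w kl) (Complex.cos w)))
    (ho : InH (K.K d l x) o) (ho' : InH (K.K dr rr x) o')
    (hL : AllOk (RR w kr) (Complex.tan w) L) (hL' : AllOk (RR w kr) (Complex.tan w) L') :
    (∀ g ∈ gy, g.P (yH x (RR w kr) (Complex.cos w))) ∧ (∀ g ∈ gz, g.P (-zeta w)) ∧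
      (∀ g ∈ gu, g.P (yH x (RR w kr) (Complex.cos w) - zeta w)) ∧
      ∀ g ∈ gl, g.P (yH l (RR w kl) (Complex.cos w)) := by
  have T := RDt.tdt Bx t
  have hc := T.h.kre
  have hc0 := ne_of_re hc
  have hT := tan_sq hc0
  have hR : 0 < (RR w kr).re := r0_pos.trans T.h.Rre
  have hq : RR w kr ^ 2 + 1 - 1 / Complex.cos w ^ 2 = 1 / kr ^ 2 := by
    rw [T.h.hinge]
    ring
  have hm' := T.h.mem'
  have h1 := inH_ownR (x := x) ho'
  rw [← K.symm] at h1
  unfold trowOkC at hr
  rw [Bool.and_eq_true, Bool.and_eq_true, Bool.and_eq_true, Bool.and_eq_true, Bool.and_eq_true,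
    Bool.and_eq_true, Bool.and_eq_true, Bool.and_eq_true] at hr
  obtain ⟨hrow, ⟨⟨⟨⟨⟨⟨k1, k2⟩, k3⟩, k4⟩, k5⟩, k6⟩, k7⟩, k8⟩ := hr
  have hl : AllOk (RR w kr) (Complex.tan w) (tsB d x gi zi ui li o L o' L') := by
    refine AllOk.cons ?_ (AllOk.cons ?_ (AllOk.cons ?_ (AllOk.cons
      (tl_ok hc0 hT (ho _ T.h.mem)) (AllOk.cons (tr_ok (ne_of_re T.h.kre') hT hq (h1 kr hm'))
      (AllOk.cons ?_ (hL.append hL'))))))
    · refine ⟨_, expY hc hR T.sp _, ?_⟩
      have eH : (tYx x (gi.map GC.qi)).H = gi.map GC.qi := by cases x <;> rfl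
      rw [eH]
      intro Q hQ
      obtain ⟨g, hg, rfl⟩ := List.mem_map.1 hQ
      exact GC.imp (List.all_eq_true.1 k1 g hg) (hi g hg)
    · refine ⟨_, expU hc hR T.sp _, ?_⟩
      have eH : (tUx x (ui.map GC.qi)).H = ui.map GC.qi := by cases x <;> rfl
      rw [eH]
      intro Q hQ
      obtain ⟨g, hg, rfl⟩ := List.mem_map.1 hQ
      exact GC.imp (List.all_eq_true.1 k3 g hg) (hui g hg)
    · refine ⟨_, expLg Bx hd t _, ?_⟩
      rw [tLg_H hd]
      intro Q hQ
      obtain ⟨g, hg, rfl⟩ := List.mem_map.1 hQ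
      exact GC.imp (List.all_eq_true.1 k4 g hg) (hli g hg)
    · refine ⟨_, expZ hc _, ?_⟩
      intro Q hQ
      obtain ⟨g, hg, rfl⟩ := List.mem_map.1 hQ
      exact GC.imp (List.all_eq_true.1 k2 g hg) (hzi g hg)
  have hm := rootT_mem hK T.h hT (tan_re T.w0 T.w1)
  refine ⟨fun g hg => ?_, fun g hg => ?_, fun g hg => ?_, fun g hg => ?_⟩
  · have eH : (tYx x (gy.map GC.q)).H = gy.map GC.q := by cases x <;> rfl
    exact GC.spec (List.all_eq_true.1 k5 g hg) (row_sound hrow hm hl
      (g := tYx x (gy.map GC.q)) (by simp [goT]) (expY hc hR T.sp _) g.q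
      (by rw [eH]; exact List.mem_map_of_mem hg))
  · exact GC.spec (List.all_eq_true.1 k6 g hg) (row_sound hrow hm hl
      (g := tZ (gz.map GC.q)) (by simp [goT]) (expZ hc _) g.q (List.mem_map_of_mem hg))
  · have eH : (tUx x (gu.map GC.q)).H = gu.map GC.q := by cases x <;> rfl
    exact GC.spec (List.all_eq_true.1 k7 g hg) (row_sound hrow hm hl
      (g := tUx x (gu.map GC.q)) (by simp [goT]) (expU hc hR T.sp _) g.q
      (by rw [eH]; exact List.mem_map_of_mem hg))
  · exact GC.spec (List.all_eq_true.1 k8 g hg) (row_sound hrow hm hl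
      (g := tLg d x (gl.map GC.q)) (by simp [goT]) (expLg Bx hd t _) g.q
      (by rw [tLg_H hd]; exact List.mem_map_of_mem hg))

end

/-! ### rows for a region with three crossings -/

/-- the groups of a row: conditions for the hinge (`gi`), the inner variable (`mi`), their
difference (`si`), the other hinge (`li`) -/
def tsR (x : SK) (gi mi si li : List GC) (o : List QC) (L : List Grp) (o' : List QC)
    (L' : List Grp) : List Grp :=
  tYx x (gi.map GC.qi) :: tl o :: tr (ownR x o') ::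
    (L ++ (L' ++ [tIx x (mi.map GC.qi), tJx x (si.map GC.qi), tLg 3 x (li.map GC.qi)]))

/-- the goals of a row -/
def goR (x : SK) (gy gm gs gl : List GC) : List Grp :=
  [tYx x (gy.map GC.q), tIx x (gm.map GC.q), tJx x (gs.map GC.q), tLg 3 x (gl.map GC.q)]

/-- the check of a row -/
def trowOkR (x : SK) (gi mi si li : List GC) (o : List QC) (L : List Grp) (o' : List QC)
    (L' : List Grp) (gy gm gs gl : List GC) (n code : ℕ) : Bool :=
  row (tsR x gi mi si li o L o' L') (goR x gy gm gs gl) n code rootT &&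
    (gi.all GC.oki && mi.all GC.oki && si.all GC.oki && li.all GC.oki && gy.all GC.ok &&
      gm.all GC.ok && gs.all GC.ok && gl.all GC.ok)

section
variable {K : KFam} {x r : SK} {dl : ℕ} {ll : SK} {dr : ℕ} {rr : SK} {w kl kr : ℂ}

/-- **The bounds of a row.** -/
theorem tuseR (hK : KOK K) (Bx : BoxRows K) (t : RDt K 3 x r dl ll dr rr w kl kr)
    {gi mi si li : List GC} {o : List QC} {L : List Grp} {o' : List QC} {L' : List Grp}
    {gy gm gs gl : List GC} {n code : ℕ}
    (hr : trowOkR x gi mi si li o L o' L' gy gm gs gl n code = true)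
    (hi : ∀ g ∈ gi, g.G (yH x (RR w kl) (Complex.cos w)))
    (hmi : ∀ g ∈ mi, g.G (mH x (RR w kl) (Complex.cos w)))
    (hsi : ∀ g ∈ si, g.G (mH x (RR w kl) (Complex.cos w) - yH x (RR w kl) (Complex.cos w)))
    (hli : ∀ g ∈ li, g.G (yH r (RR w kr) (Complex.cos w)))
    (ho : InH (K.K 3 r x) o) (ho' : InH (K.K dl ll x) o')
    (hL : AllOk (RR w kl) (Complex.tan w) L) (hL' : AllOk (RR w kl) (Complex.tan w) L') :
    (∀ g ∈ gy, g.P (yH x (RR w kl) (Complex.cos w))) ∧
      (∀ g ∈ gm, g.P (mH x (RR w kl) (Complex.cos w))) ∧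
      (∀ g ∈ gs, g.P (mH x (RR w kl) (Complex.cos w) - yH x (RR w kl) (Complex.cos w))) ∧
      ∀ g ∈ gl, g.P (yH r (RR w kr) (Complex.cos w)) := by
  have hd : LgD 3 := Or.inl rfl
  have hxe : x ≠ .e := t.left.ok.ne
  have hre : r ≠ .e := t.right.ok.ne
  obtain ⟨hu, hv'⟩ := re_halfx Bx t hxe hre
  have hc := t.left.kre
  have hc0 := ne_of_re hc
  have hT := tan_sq hc0
  have hR : 0 < (RR w kl).re := r0_pos.trans t.left.Rre
  have hq : RR w kl ^ 2 + 1 - 1 / Complex.cos w ^ 2 = 1 / kl ^ 2 := by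
    rw [t.left.hinge]
    ring
  have hm' := t.left.mem'
  have h1 := inH_ownR (x := x) ho'
  rw [← K.symm] at h1
  have hsp : x = .s → (acot2 (Sp (RR w kl) (Complex.cos w))).re < 1 / 2 := by
    intro hx
    subst hx
    exact (Bx.sp t.left).2
  unfold trowOkR at hr
  rw [Bool.and_eq_true, Bool.and_eq_true, Bool.and_eq_true, Bool.and_eq_true, Bool.and_eq_true,
    Bool.and_eq_true, Bool.and_eq_true, Bool.and_eq_true] at hr
  obtain ⟨hrow, ⟨⟨⟨⟨⟨⟨k1, k2⟩, k3⟩, k4⟩, k5⟩, k6⟩, k7⟩, k8⟩ := hr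
  have hl : AllOk (RR w kl) (Complex.tan w) (tsR x gi mi si li o L o' L') := by
    refine AllOk.cons ?_ (AllOk.cons (tl_ok hc0 hT (ho _ t.left.mem))
      (AllOk.cons (tr_ok (ne_of_re t.left.kre') hT hq (h1 kl hm'))
      (hL.append (hL'.append (AllOk.cons ?_ (AllOk.cons ?_ (AllOk.cons ?_ AllOk.nil)))))))
    · refine ⟨_, expY hc hR hsp _, ?_⟩
      have eH : (tYx x (gi.map GC.qi)).H = gi.map GC.qi := by cases x <;> rfl
      rw [eH]
      intro Q hQ
      obtain ⟨g, hg, rfl⟩ := List.mem_map.1 hQ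
      exact GC.imp (List.all_eq_true.1 k1 g hg) (hi g hg)
    · refine ⟨_, expI t hu hv' _, ?_⟩
      have eH : (tIx x (mi.map GC.qi)).H = mi.map GC.qi := by cases x <;> rfl
      rw [eH]
      intro Q hQ
      obtain ⟨g, hg, rfl⟩ := List.mem_map.1 hQ
      exact GC.imp (List.all_eq_true.1 k2 g hg) (hmi g hg)
    · refine ⟨_, expJ t hu hv' hsp _, ?_⟩
      have eH : (tJx x (si.map GC.qi)).H = si.map GC.qi := by cases x <;> rfl
      rw [eH]
      intro Q hQ
      obtain ⟨g, hg, rfl⟩ := List.mem_map.1 hQ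
      exact GC.imp (List.all_eq_true.1 k3 g hg) (hsi g hg)
    · refine ⟨_, expLg Bx hd t.symm _, ?_⟩
      rw [tLg_H hd]
      intro Q hQ
      obtain ⟨g, hg, rfl⟩ := List.mem_map.1 hQ
      exact GC.imp (List.all_eq_true.1 k4 g hg) (hli g hg)
  have hm := rootT_mem hK t.left hT (tan_re t.w0 t.w1)
  refine ⟨fun g hg => ?_, fun g hg => ?_, fun g hg => ?_, fun g hg => ?_⟩
  · have eH : (tYx x (gy.map GC.q)).H = gy.map GC.q := by cases x <;> rfl
    exact GC.spec (List.all_eq_true.1 k5 g hg) (row_sound hrow hm hl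
      (g := tYx x (gy.map GC.q)) (by simp [goR]) (expY hc hR hsp _) g.q
      (by rw [eH]; exact List.mem_map_of_mem hg))
  · have eH : (tIx x (gm.map GC.q)).H = gm.map GC.q := by cases x <;> rfl
    exact GC.spec (List.all_eq_true.1 k6 g hg) (row_sound hrow hm hl
      (g := tIx x (gm.map GC.q)) (by simp [goR]) (expI t hu hv' _) g.q
      (by rw [eH]; exact List.mem_map_of_mem hg))
  · have eH : (tJx x (gs.map GC.q)).H = gs.map GC.q := by cases x <;> rfl
    exact GC.spec (List.all_eq_true.1 k7 g hg) (row_sound hrow hm hl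
      (g := tJx x (gs.map GC.q)) (by simp [goR]) (expJ t hu hv' hsp _) g.q
      (by rw [eH]; exact List.mem_map_of_mem hg))
  · exact GC.spec (List.all_eq_true.1 k8 g hg) (row_sound hrow hm hl
      (g := tLg 3 x (gl.map GC.q)) (by simp [goR]) (expLg Bx hd t.symm _) g.q
      (by rw [tLg_H hd]; exact List.mem_map_of_mem hg))

end

end

end Pool.Agent.Work.MP_b30479_gtS.G2.CN.TD

end

section

/-!
# Rows for both hinges of a ring: the groups of the outer values

`Oh l d ll k s`: kind and neighbour of the other hinge of a ring next to a region of class `k`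
(`s`: equal signs).
-/

namespace Pool.Agent.Work.MP_b30479_gtS.G2.CN.TD

open Complex SR Ev
open scoped ComplexConjugate

noncomputable section

lemma ld4 : LgD 4 := Or.inr (Or.inl rfl)
lemma ld5 : LgD 5 := Or.inr (Or.inr (Or.inl rfl))
lemma ld6 : LgD 6 := Or.inr (Or.inr (Or.inr rfl))

/-- the first ring is an end, more crossings -/
def tFy (B : ℕ) : List Grp :=
  match B with
  | 6 => [⟨tl6, .sc 6 one, (rfl : 6 = 6), zeroQ⟩]
  | 7 => [⟨tl7, .sc 7 one, (rfl : 7 = 7), zeroQ⟩]
  | _ => []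

lemma OL.ex {d B : ℕ} : OL d B .e (tFy B) := by
  intro K hK R T q q' hT hq h
  unfold tFy
  split
  · exact allOk_one (zero_ok rfl ((val_tl6 R T).trans (by rw [hT]; exact h)))
  · exact allOk_one (zero_ok rfl ((val_tl7 R T).trans (by rw [hT]; exact h)))
  · exact AllOk.nil

/-- kind and neighbour of the other hinge -/
def Oh (l : SK) (d : ℕ) (ll : SK) (k : Cl) (s : Bool) : Prop :=
  k = nC l d ll ∧ (l ≠ .s → s = decide (l = .z))

section
variable {K : KFam} {d : ℕ} {l x : SK} {dl : ℕ} {ll : SK} {dr : ℕ} {rr : SK} {w kl kr : ℂ}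

lemma aOkH (t : RDt K d l x dl ll dr rr w kl kr) {B : ℕ} (hB : crs d l x = B) {H : List QC}
    (hH : InH {kl} H) : AllOk (RR w kr) (Complex.tan w) (tA B H) := by
  subst hB
  have hT := tan_sq (ne_of_re t.right.kre)
  exact tA_all hT (by rw [t.right.hinge]; ring) hH (out_left t)

lemma kl_a (t : RDt K d .a x dl ll dr rr w kl kr) {H : List QC} (hH : InH (K.K dl ll .a) H) :
    InH {kl} (mirH H) := by
  intro k hk
  rw [Set.mem_singleton_iff] at hk
  subst hk
  exact hH.mir _ (by rw [K.symm]; exact t.left.mem')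

lemma kl_s (t : RDt K d .s x dl ll dr rr w kl kr) {H : List QC} (hH : InH (K.K dl ll .s) H) :
    InH {kl} H := by
  intro k hk
  rw [Set.mem_singleton_iff] at hk
  subst hk
  have h3 := t.left.mem'
  rw [K.symm] at h3
  have e : frS SK.s.sgn (K.K dl ll .s) = K.K dl ll .s := frS_one _
  rw [e] at h3
  exact hH _ h3

lemma kl_z (t : RDt K d .z x dl ll dr rr w kl kr) {H : List QC} (hH : InH (K.K dl ll .z) H) :
    InH {kl} H := by
  intro k hk
  rw [Set.mem_singleton_iff] at hk
  subst hk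
  have h3 := t.left.mem'
  rw [K.symm] at h3
  have e : frS SK.z.sgn (K.K dl ll .z) = K.K dl ll .z := frS_one _
  rw [e] at h3
  exact hH _ h3

lemma aPa (hK : KOK K) (t : RDt K d .a x dl ll dr rr w kl kr) {B : ℕ} (hB : crs d .a x = B) :
    AllOk (RR w kr) (Complex.tan w) (tA B (mirH PA2)) := by
  subst hB
  have hT := tan_sq (ne_of_re t.right.kre)
  exact OL.a hK hT (by rw [t.right.hinge]; ring) t.right.out

lemma aPs (hK : KOK K) (h3 : 3 ≤ d) (t : RDt K d .s x dl ll dr rr w kl kr) {B : ℕ}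
    (hB : crs d .s x = B) : AllOk (RR w kr) (Complex.tan w) (tA B PS3) := by
  subst hB
  have hT := tan_sq (ne_of_re t.right.kre)
  exact OL.s h3 hK hT (by rw [t.right.hinge]; ring) t.right.out

lemma dOk (hK : KOK K) (t : RDt K d l x dl ll dr rr w kl kr) {B : ℕ} (hB : crs dr x rr = B)
    {L : List Grp} (h : OR x dr B rr L) : AllOk (RR w kr) (Complex.tan w) L := by
  subst hB
  have hT := tan_sq (ne_of_re t.right.kre)
  exact h hK hT (by rw [t.right.hinge]; ring) t.right.out'

end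

section
variable {l : SK} {d : ℕ} {ll r : SK}

lemma Oh.one {s : Bool} (h : Oh l d ll .one s) (hz : l = .z → 4 ≤ d) (he : l ≠ .e) :
    (l = .a ∧ d = 1) ∨ l = .s := by
  obtain ⟨h1, -⟩ := h
  unfold nC at h1
  split_ifs at h1 with h2
  · exact Or.inr h2
  · have h3 : d = 1 := by
      unfold cK at h1
      split_ifs at h1 with h4
      exact h4
    cases l
    · exact absurd rfl he
    · exact Or.inl ⟨rfl, h3⟩
    · have := hz rfl
      omega
    · exact absurd rfl h2

lemma Oh.cl {k : Cl} {s : Bool} (h : Oh l d ll k s) (hk : k ≠ .one) : l ≠ .s ∧ k = cK d ll :=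
  nC_ne_s h.1 hk

lemma Oh.a_of {k : Cl} {s : Bool} (h : Oh l d ll k s) (hk : k ≠ .one) (hz : l = .z → 4 ≤ d)
    (he : l ≠ .e) (hd : d < 4) : l = .a := by
  have h1 := (h.cl hk).1
  cases l
  · exact absurd rfl he
  · rfl
  · have := hz rfl
    omega
  · exact absurd rfl h1

lemma Oh.two {s : Bool} (h : Oh l d ll .two s) (hz : l = .z → 4 ≤ d) (he : l ≠ .e) :
    l = .a ∧ d = 2 ∧ ll ≠ .e := by
  have hk : Cl.two ≠ .one := by decide
  have h1 := cK_two' (h.cl hk).2
  exact ⟨h.a_of hk hz he (by omega), h1⟩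

lemma Oh.twoE {s : Bool} (h : Oh l d ll .twoE s) (hz : l = .z → 4 ≤ d) (he : l ≠ .e) :
    l = .a ∧ d = 2 ∧ ll = .e := by
  have hk : Cl.twoE ≠ .one := by decide
  have h1 := cK_twoE (h.cl hk).2
  exact ⟨h.a_of hk hz he (by omega), h1⟩

lemma Oh.three {s : Bool} (h : Oh l d ll .three s) (hz : l = .z → 4 ≤ d) (he : l ≠ .e) :
    l = .a ∧ d = 3 ∧ ll ≠ .e := by
  have hk : Cl.three ≠ .one := by decide
  have h1 : d = 3 ∧ ll ≠ .e := by
    have h2 := (h.cl hk).2
    unfold cK at h2
    split_ifs at h2 with g1 g2 g3 g4 g5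
    exact ⟨g4, g5⟩
  exact ⟨h.a_of hk hz he (by omega), h1⟩

lemma Oh.threeE {s : Bool} (h : Oh l d ll .threeE s) (hz : l = .z → 4 ≤ d) (he : l ≠ .e) :
    l = .a ∧ d = 3 ∧ ll = .e := by
  have hk : Cl.threeE ≠ .one := by decide
  have h1 : d = 3 ∧ ll = .e := by
    have h2 := (h.cl hk).2
    unfold cK at h2
    split_ifs at h2 with g1 g2 g3 g4 g5
    exact ⟨g4, g5⟩
  exact ⟨h.a_of hk hz he (by omega), h1⟩

lemma Oh.ring {s : Bool} (h : Oh l d ll .ring s) (hp : 1 ≤ d) (he : l ≠ .e) :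
    (l = .a ∧ s = false ∧ 4 ≤ d) ∨ (l = .z ∧ s = true ∧ 4 ≤ d) := by
  have hk : Cl.ring ≠ .one := by decide
  obtain ⟨h1, h2⟩ := h.cl hk
  have h4 : 4 ≤ d := by
    by_contra hc
    unfold cK at h2
    split_ifs at h2 with g1 g2 g3 g4 g5
    omega
  have h3 := h.2 h1
  cases l
  · exact absurd rfl he
  · exact Or.inl ⟨rfl, h3, h4⟩
  · exact Or.inr ⟨rfl, h3, h4⟩
  · exact absurd rfl h1

end

end

end Pool.Agent.Work.MP_b30479_gtS.G2.CN.TD

end
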