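import Pool.Agent.Work.MP_b30479_gt.TBS.G2.WLocF
import Pool.Agent.Work.MP_b30479_gt.TBS.G2.CN.TDate
import Pool.Agent.Work.MP_b30479_gt.TBS.G2.CN.LocRTd
import Pool.Agent.Work.MP_b30479_gt.TBS.G2.CN.TRyE
import Pool.Agent.Work.MP_b30479_gt.TBS.G2.CN.TRxG
import Pool.Agent.Work.MP_b30479_gt.TBS.G2.CN.TRwQ_6
import Pool.Agent.Work.MP_b30479_gt.TBS.G2.CN.TRxD_0
import Pool.Agent.Work.MP_b30479_gt.TBS.G2.CN.TRyL
import Pool.Agent.Work.MP_b30479_gt.TBS.G2.CN.TRwX
import Pool.Agent.Work.MP_b30479_gt.TBS.G2.CN.TRyP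
import Pool.Agent.Work.MP_b30479_gt.TBS.G2.CN.M3Mid
import Pool.Agent.Work.MP_b30479_gt.TBS.G2.CN.TTabG

section

/-!
# The inner variable of a digit `3` between two digits `1`
-/

namespace Pool.Agent.Work.MP_b30479_gtS.G2.CN.TD

open Complex SR
open scoped ComplexConjugate

noncomputable section

section
variable {K : KFam} {x r : SK} {dl : ℕ} {ll : SK} {dr : ℕ} {rr : SK} {w kl kr v : ℂ}

/-- a lower bound from a row -/
lemma lo_of {m c : ℤ} {A B C : Prop} {z : ℂ}
    (h : A ∧ (∀ g ∈ [GC.lo m c], g.P z) ∧ B ∧ C) : (m : ℝ) / 10000 ≤ z.im :=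
  h.2.1 _ List.mem_cons_self

/-- a given lower bound -/
lemma fi_lo {m c : ℤ} {z : ℂ} (h : (m : ℝ) / 10000 ≤ z.im) : ∀ g ∈ [GC.lo m c], g.G z := by
  intro g hg
  rw [List.mem_singleton] at hg
  subst hg
  exact h

lemma allK (hK : KOK K) (t : RDt K 3 x .a dl ll 1 rr w kl kr) {B : ℕ} (hB : crs 3 .a x = B) :
    AllOk (RR w kl) (Complex.tan w) (tA B (mirH k2as)) := by
  have h1 := t.right.ok.right.symm
  have hr : rr = .s := far_s t.right.ok.right
  subst hr
  refine allLx t hB ?_
  intro k hk
  rw [Set.mem_singleton_iff] at hk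
  subst hk
  exact (hK.inH h1 k2as_ok).mir _ (by rw [K.symm]; exact t.right.mem')

lemma allS (hK : KOK K) (t : RDt K 3 x .s dl ll dr rr w kl kr) {B : ℕ} (hB : crs 3 .s x = B) :
    AllOk (RR w kl) (Complex.tan w) (tA B PS3) := by
  subst hB
  have hT := tan_sq (ne_of_re t.left.kre)
  exact OL.s le_rfl hK hT (by rw [t.left.hinge]; ring) t.left.out

/-- the digit `1` at the first slot absorbed, a digit `1` behind it -/
theorem m1_s1 (hK : KOK K) (Bx : BoxRows K) (t : RDt K 3 .s r 1 ll dr rr w kl kr)
    (hr : r = .s ∨ (r = .a ∧ dr = 1)) (hv : Far .s (RR w kl) (1 / kl ^ 2) v) :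
    -(78 / 1000) ≤ (mH .s (RR w kl) (Complex.cos w)).im ∧
      (-(20 / 1000) ≤ v.im → -(69 / 1000) ≤ (mH .s (RR w kl) (Complex.cos w)).im) := by
  have h2 := t.left.ok.right.symm
  have ho := t.left.ok.left
  have hT := tan_sq (ne_of_re t.left.kre)
  have hq : RR w kl ^ 2 + 1 - 1 / Complex.cos w ^ 2 = 1 / kl ^ 2 := by
    rw [t.left.hinge]
    ring
  have f : -(20 / 1000) ≤ v.im → ((-200 : ℤ) : ℝ) / 10000 ≤ v.im := by
    intro h
    norm_num
    linarith only [h]
  cases ll
  · exact absurd rfl (h2.one rfl).2.1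
  · have hD : AllOk (RR w kl) (Complex.tan w) (tD .s 2 (mirH PA1)) :=
      OR.a1 (le_refl 1) hK hT hq t.left.out'
    have hn := hK.inH h2 k2as_ok
    rcases hr with rfl | ⟨rfl, rfl⟩
    · constructor
      · have g := lo_of (tuseN hK Bx t hv n1_A1a_s mn mn mn mn (hK.inH ho k5ss_ok) hn
          (allS hK t rfl) hD)
        norm_num at g
        linarith only [g]
      · intro h
        have g := lo_of (tuseN hK Bx t hv n1_A1a_st mn mn mn (fi_lo (f h)) (hK.inH ho k5ss_ok) hn
          (allS hK t rfl) hD)
        norm_num at g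
        linarith only [g]
    · constructor
      · have g := lo_of (tuseN hK Bx t hv n1_A1a_a mn mn mn mn (hK.inH ho k4as_ok) hn
          (allK hK t rfl) hD)
        norm_num at g
        linarith only [g]
      · intro h
        have g := lo_of (tuseN hK Bx t hv n1_A1a_at mn mn mn (fi_lo (f h)) (hK.inH ho k4as_ok) hn
          (allK hK t rfl) hD)
        norm_num at g
        linarith only [g]
  · exact absurd (h2.zl rfl) (by norm_num)
  · have hD : AllOk (RR w kl) (Complex.tan w) (tD .s 3 PS2) :=
      OR.s hK hT hq t.left.out'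
    have hn := hK.inH h2 k3ss_ok
    rcases hr with rfl | ⟨rfl, rfl⟩
    · have g := lo_of (tuseN hK Bx t hv n1_A1s_s mn mn mn mn (hK.inH ho k5ss_ok) hn
        (allS hK t rfl) hD)
      norm_num at g
      exact ⟨by linarith only [g], fun _ => by linarith only [g]⟩
    · have g := lo_of (tuseN hK Bx t hv n1_A1s_a mn mn mn mn (hK.inH ho k4as_ok) hn
        (allK hK t rfl) hD)
      norm_num at g
      exact ⟨by linarith only [g], fun _ => by linarith only [g]⟩

/-- the digit `1` at the first slot absorbed, a digit `2` behind it -/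
theorem m1_s2 (hK : KOK K) (Bx : BoxRows K) (t : RDt K 3 .s r 2 ll dr rr w kl kr) (hl : ll ≠ .e)
    (hr : r = .s ∨ (r = .a ∧ dr = 1)) (hv : Far .s (RR w kl) (1 / kl ^ 2) v) :
    -(58 / 1000) ≤ (mH .s (RR w kl) (Complex.cos w)).im ∧
      (45 / 1000 ≤ v.im → -(51 / 1000) ≤ (mH .s (RR w kl) (Complex.cos w)).im) := by
  have h2 := t.left.ok.right.symm
  have ho := t.left.ok.left
  have hT := tan_sq (ne_of_re t.left.kre)
  have hq : RR w kl ^ 2 + 1 - 1 / Complex.cos w ^ 2 = 1 / kl ^ 2 := by
    rw [t.left.hinge]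
    ring
  have f : 45 / 1000 ≤ v.im → ((450 : ℤ) : ℝ) / 10000 ≤ v.im := by
    intro h
    norm_num
    linarith only [h]
  cases ll
  · exact absurd rfl hl
  · have hD : AllOk (RR w kl) (Complex.tan w) (tD .s 3 (mirH PA2)) :=
      OR.a hK hT hq t.left.out'
    have hn := hK.inH h2 k3as_ok
    rcases hr with rfl | ⟨rfl, rfl⟩
    · constructor
      · have g := lo_of (tuseN hK Bx t hv n1_A2a_s mn mn mn mn (hK.inH ho k5ss_ok) hn
          (allS hK t rfl) hD)
        norm_num at g
        linarith only [g]
      · intro h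
        have g := lo_of (tuseN hK Bx t hv n1_A2a_st mn mn mn (fi_lo (f h)) (hK.inH ho k5ss_ok) hn
          (allS hK t rfl) hD)
        norm_num at g
        linarith only [g]
    · constructor
      · have g := lo_of (tuseN hK Bx t hv n1_A2a_a mn mn mn mn (hK.inH ho k4as_ok) hn
          (allK hK t rfl) hD)
        norm_num at g
        linarith only [g]
      · intro h
        have g := lo_of (tuseN hK Bx t hv n1_A2a_at mn mn mn (fi_lo (f h)) (hK.inH ho k4as_ok) hn
          (allK hK t rfl) hD)
        norm_num at g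
        linarith only [g]
  · exact absurd (h2.zl rfl) (by norm_num)
  · have hD : AllOk (RR w kl) (Complex.tan w) (tD .s 4 PS2) :=
      OR.s hK hT hq t.left.out'
    have hn := hK.inH h2 k4ss_ok
    rcases hr with rfl | ⟨rfl, rfl⟩
    · constructor
      · have g := lo_of (tuseN hK Bx t hv n1_A2s_s mn mn mn mn (hK.inH ho k5ss_ok) hn
          (allS hK t rfl) hD)
        norm_num at g
        linarith only [g]
      · intro h
        have g := lo_of (tuseN hK Bx t hv n1_A2s_st mn mn mn (fi_lo (f h)) (hK.inH ho k5ss_ok) hn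
          (allS hK t rfl) hD)
        norm_num at g
        linarith only [g]
    · constructor
      · have g := lo_of (tuseN hK Bx t hv n1_A2s_a mn mn mn mn (hK.inH ho k4as_ok) hn
          (allK hK t rfl) hD)
        norm_num at g
        linarith only [g]
      · intro h
        have g := lo_of (tuseN hK Bx t hv n1_A2s_at mn mn mn (fi_lo (f h)) (hK.inH ho k4as_ok) hn
          (allK hK t rfl) hD)
        norm_num at g
        linarith only [g]

/-- the digit `1` at the first slot not absorbed -/
theorem m1_a (hK : KOK K) (Bx : BoxRows K) (t : RDt K 3 .a r 1 .s dr rr w kl kr)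
    (hr : r = .s ∨ (r = .a ∧ dr = 1)) (hv : Far .a (RR w kl) (1 / kl ^ 2) v) :
    -(78 / 1000) ≤ (mH .a (RR w kl) (Complex.cos w)).im ∧
      (-(20 / 1000) ≤ v.im → -(69 / 1000) ≤ (mH .a (RR w kl) (Complex.cos w)).im) := by
  have h2 := t.left.ok.right.symm
  have ho := t.left.ok.left
  have hT := tan_sq (ne_of_re t.left.kre)
  have hq : RR w kl ^ 2 + 1 - 1 / Complex.cos w ^ 2 = 1 / kl ^ 2 := by
    rw [t.left.hinge]
    ring
  have f : -(20 / 1000) ≤ v.im → ((-200 : ℤ) : ℝ) / 10000 ≤ v.im := by
    intro h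
    norm_num
    linarith only [h]
  have hD : AllOk (RR w kl) (Complex.tan w) (tD .a 2 PST) :=
    OR.st (by decide) hK hT hq t.left.out'
  have hn := hK.inH h2 k2as_ok
  rcases hr with rfl | ⟨rfl, rfl⟩
  · constructor
    · have g := lo_of (tuseN hK Bx t hv n1_B_s mn mn mn mn (hK.inH ho k4as_ok) hn
        (allS hK t rfl) hD)
      norm_num at g
      linarith only [g]
    · intro h
      have g := lo_of (tuseN hK Bx t hv n1_B_st mn mn mn (fi_lo (f h)) (hK.inH ho k4as_ok) hn
        (allS hK t rfl) hD)
      norm_num at g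
      linarith only [g]
  · constructor
    · have g := lo_of (tuseN hK Bx t hv n1_B_a mn mn mn mn (hK.inH ho k3aa_ok) hn
        (allK hK t rfl) hD)
      norm_num at g
      linarith only [g]
    · intro h
      have g := lo_of (tuseN hK Bx t hv n1_B_at mn mn mn (fi_lo (f h)) (hK.inH ho k3aa_ok) hn
        (allK hK t rfl) hD)
      norm_num at g
      linarith only [g]

end

section
variable {M : ℕ} {b : Fin (M + 1) → ℤ} {w : ℕ → ℂ}
variable (hb : ClassW b) (F : RingFacts) (hw : Sol b w)
include hb F hw

/-- the hinge on the left, seen from the region on the left -/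
lemma flip_left {n : ℕ} (h0 : 0 < n) (hn : n ≤ M) (hu : us b n = false)
    (hv : us b (n - 1) = false) :
    RR (oW b w n) (oL b w n) =
      fz (lk b n).sgn (RR (oW b w (n - 1)) (oR b w (n - 1))) ∧
      oL b w n = fz (lk b n).sgn (Complex.cos (oW b w (n - 1))) := by
  have h1 := ln_spec hb h0 hu
  have hln : ln b n = n - 1 := by
    unfold ln
    rw [if_neg (by rw [hv]; decide)]
  have hrs := sg_rk hb (n := ln b n) (by omega) h1.2.1
  rw [h1.2.2, rk_ln hb h0 hu hn] at hrs
  have hss : (lk b n).sgn * sg b (ln b n) = sg b n := by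
    rw [← hrs]
    have := sg_mul_self (b := b) (ln b n)
    linear_combination (sg b n) * this
  rw [hln] at hss
  constructor
  · have e1 : RR (oW b w n) (oL b w n) = fz (sg b n) (R0 b w (n - 1)) := by
      unfold oW oL
      rw [← fz_R0_left hb F hw h0 hn hu, hln]
    have e2 : RR (oW b w (n - 1)) (oR b w (n - 1)) = fz (sg b (n - 1)) (R0 b w (n - 1)) := by
      unfold oW oR
      rw [← fz_R0_right hw (by omega) hv]
    rw [e1, e2, ← fz_mul (SK.sgn_or _) (sg_or _), hss]
  · unfold oL oW
    rw [hln, ← fz_cos, ← fz_mul (SK.sgn_or _) (sg_or _), hss]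

/-- the far hinge of an absorbed digit on the left -/
lemma far_abs {K : KFam} (hS : Snd K b w) {n : ℕ} (h2 : 2 ≤ n) (hn : n ≤ M)
    (hu : us b n = false) (hv : us b (n - 1) = true) :
    fz (sg b (n - 1)) (acot2 (Rh b w (n - 2))) =
      conj (acot2 (Sp (RR (oW b w n) (oL b w n)) (oL b w n))) := by
  obtain ⟨m, rfl⟩ : ∃ m, n = m + 2 := ⟨n - 2, by omega⟩
  have hv' : us b (m + 1) = true := hv
  obtain ⟨hH, e1, -⟩ := absd_nat hb F hw hS hv'
  obtain ⟨g1, g2, g3, g4⟩ := us_true hv'
  rw [show m + 1 - 1 = m by omega] at g3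
  have hrk : rk b m = .s := rk_s (by omega) hv'
  have hrn : rn b m = m + 2 := by
    unfold rn
    rw [if_pos hv']
  have hsg : sg b m * sg b (m + 2) = 1 := by
    have := sg_rk hb (n := m) (by omega) g3
    rw [hrk, hrn] at this
    exact this
  have hss : sg b (m + 2) = sg b m := by
    rcases sg_or (b := b) m with h | h <;> rcases sg_or (b := b) (m + 2) with h' | h' <;>
      rw [h, h'] at hsg ⊢ <;> norm_num at hsg
  have hln : ln b (m + 2) = m := by
    unfold ln
    rw [show m + 2 - 1 = m + 1 by omega, if_pos hv']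
    omega
  have eR : RR (oW b w (m + 2)) (oL b w (m + 2)) = RR (oW b w m) (oR b w m) := by
    unfold oW oL oR
    rw [← fz_R0_left hb F hw (by omega) (by omega) (by simpa using g4), hln, hss,
      fz_R0_right hw (by omega) g3]
  have eC : oL b w (m + 2) = Complex.cos (oW b w m) := by
    unfold oL oW
    rw [hln, hss, fz_cos]
  rw [show m + 2 - 1 = m + 1 by omega, show m + 2 - 2 = m by omega, e1, ← eR, ← eC]

end

lemma cK_m1 {d : ℕ} {l : SK} (h : cK d l = .one) : d = 1 := by
  unfold cK at h
  split_ifs at h with h1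
  exact h1

lemma cK_m2 {d : ℕ} {l : SK} (h : cK d l = .two) : d = 2 ∧ l ≠ .e := by
  unfold cK at h
  split_ifs at h with h1 h2 h3
  · exact ⟨h2, h3⟩

lemma nC_one {x : SK} {d : ℕ} {l : SK} (h : nC x d l = .one) : x = .s ∨ d = 1 := by
  unfold nC at h
  split_ifs at h with hx
  · exact Or.inl hx
  · exact Or.inr (cK_m1 h)

section
variable {M : ℕ} {b : Fin (M + 1) → ℤ} {w : ℕ → ℂ}
variable (hb : ClassW b) (F : RingFacts) (hw : Sol b w) {K : KFam} (hK : KOK K)
  (hS : Snd K b w) (Bx : BoxRows K)
include hb F hw hK hS Bx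

/-- all cases -/
theorem m1_word {h h' h2 : Fin M} {i j k r : Fin (M + 1)} (hm : (tyW b i).isMid = true)
    (A : Adj h i 0 j) (A' : Adj h' i 2 k) (A3 : Adj h2 j 0 r) (hi : clsW b i = .three)
    (hj : clsW b j = .one) (hk : clsW b k = .one) :
    (clsW b r = .one → -(78 / 1000) ≤ ofs (b i) (zsW b w (.inl (.inr ⟨i, hm⟩))).im ∧
      (-(20 / 1000) ≤ ofs (b j) (zsW b w (.inl (.inl h2))).im →
        -(69 / 1000) ≤ ofs (b i) (zsW b w (.inl (.inr ⟨i, hm⟩))).im)) ∧
    (clsW b r = .two → -(58 / 1000) ≤ ofs (b i) (zsW b w (.inl (.inr ⟨i, hm⟩))).im ∧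
      (45 / 1000 ≤ ofs (b j) (zsW b w (.inl (.inl h2))).im →
        -(51 / 1000) ≤ ofs (b i) (zsW b w (.inl (.inr ⟨i, hm⟩))).im)) := by
  have h3 := three_nat hi
  have hui : us b i.val = false := us_of_abs (by omega)
  have e : i.val = h.val + 1 ∧ j.val = h.val := by
    rcases A.elim with ⟨h0, -⟩ | ⟨-, h1⟩
    · exact absurd h0 (by decide)
    · exact h1
  have e3 : i.val = h'.val ∧ k.val = h'.val + 1 := by
    rcases A'.elim with ⟨-, h1⟩ | ⟨h0, -⟩
    · exact h1
    · exact absurd h0 (by decide)
  have e2 : j.val = h2.val + 1 ∧ r.val = h2.val := by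
    rcases A3.elim with ⟨h0, -⟩ | ⟨-, h1⟩
    · exact absurd h0 (by decide)
    · exact h1
  have hh := h'.2
  have hE := rdt hb F hw hS (n := i.val) (by omega) (by omega) hui
  have em : ofr (b i) (zsW b w (.inl (.inr ⟨i, hm⟩))) =
      mH (lk b i.val) (RR (oW b w i.val) (oL b w i.val)) (Complex.cos (oW b w i.val)) := by
    have ez : zsW b w (.inl (.inr ⟨i, hm⟩)) = acot2 (Rm b w i.val) := rfl
    rw [ez, ofr_fz, ← acot2_fz, own_mid hb F hw (n := i.val) (by omega) (by omega) hui]
    rfl
  rw [← ofr_im, ← ofr_im, em]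
  rw [dg_val, h3] at hE
  have hr : rk b i.val = .s ∨ (rk b i.val = .a ∧ dg b (rn b i.val) = 1) := by
    have c2 := cls_right (b := b) (i := i) (j := k) (by omega)
    rw [hk] at c2
    rcases nC_one c2.symm with h4 | h4
    · exact Or.inl h4
    · rcases M3.kinds hE.right with h5 | h5
      · exact Or.inr ⟨h5, h4⟩
      · exact Or.inl h5
  have sd := sd_left (b := b) A
  have hj1 : (b j).natAbs = 1 := by
    unfold clsW cls at hj
    split_ifs at hj with h1
    exact h1
  rcases Bool.eq_false_or_eq_true (us b j.val) with huj | huj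
  · -- absorbed
    have hx := sd.s huj
    obtain ⟨hd, hc⟩ := sd.far A3 huj
    have hv : Far .s (RR (oW b w i.val) (oL b w i.val)) (1 / oL b w i.val ^ 2)
        (-acot2 (Sp (RR (oW b w i.val) (oL b w i.val)) (oL b w i.val))) := by
      have h4 := hE.left
      rw [hx] at h4
      exact far_split Bx h4
    have ef : (ofr (b j) (zsW b w (.inl (.inl h2)))).im =
        (-acot2 (Sp (RR (oW b w i.val) (oL b w i.val)) (oL b w i.val))).im := by
      have h5 := far_abs hb F hw hS (n := i.val) (by omega) (by omega) hui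
        (by rwa [show i.val - 1 = j.val by omega])
      rw [show i.val - 1 = j.val by omega, show i.val - 2 = h2.val by omega] at h5
      rw [ofr_fz, zsW_val h2 (n := h2.val) rfl, h5, Complex.conj_im, Complex.neg_im]
    rw [ef]
    rw [hx] at hE ⊢
    constructor
    · intro hc1
      rw [hc1] at hc
      have h6 := cK_m1 hc.symm
      rw [h6] at hE
      exact m1_s1 hK Bx hE hr hv
    · intro hc1
      rw [hc1] at hc
      obtain ⟨h6, h7⟩ := cK_m2 hc.symm
      rw [h6] at hE
      exact m1_s2 hK Bx hE h7 hr hv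
  · -- not absorbed
    obtain ⟨hd, hx⟩ := sd.u huj
    have hop : b i * b j < 0 := A.opp hb (Or.inl (by rw [hi]; decide))
    rw [if_neg (by omega)] at hx
    have hur : us b r.val = true := by
      by_contra hc
      rw [Bool.not_eq_true] at hc
      have h5 : us b (h2.val + 1) = true := by
        rw [us_succ, Bool.and_eq_true, decide_eq_true_eq, Bool.not_eq_true']
        refine ⟨?_, by rwa [← e2.2]⟩
        rw [← e2.1, bb_val, hj1]
      rw [← e2.1, huj] at h5
      exact absurd h5 (by decide)
    have hl := (sd.kd A3 huj).1 hur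
    have hcr : clsW b r = .one := by
      have h6 := (us_true hur).2.1
      rw [bb_val] at h6
      unfold clsW cls
      rw [if_pos h6]
    have hjM := j.2
    -- the region `j`
    have hj0 : 0 < j.val := by omega
    have hEj := rdt hb F hw hS (n := j.val) hj0 (by omega) huj
    rw [dg_val, hj1] at hEj
    have hlj : lk b j.val = .s := (sd_left (b := b) A3).s hur
    have hrj : rk b j.val = .a := by
      have sd2 := sd_right (b := b) (A.symm : Adj h j 2 i)
      rw [(sd2.u hui).2, if_neg (by rw [mul_comm]; omega)]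
    rw [hlj, hrj] at hEj
    obtain ⟨f1, f2⟩ := flip_left hb F hw (n := i.val) (by omega) (by omega) hui
      (by rwa [show i.val - 1 = j.val by omega])
    rw [hx, show i.val - 1 = j.val by omega] at f1 f2
    have f1' : RR (oW b w i.val) (oL b w i.val) = conj (RR (oW b w j.val) (oR b w j.val)) := by
      rw [f1]
      exact fz_neg _
    have f2' : oL b w i.val = conj (Complex.cos (oW b w j.val)) := by
      rw [f2]
      exact fz_neg _
    have key : cexp (2 * Real.pi * I * yH .s (RR (oW b w j.val) (oL b w j.val))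
        (Complex.cos (oW b w j.val))) * (1 / Complex.cos (oW b w j.val) ^ 2 - 2 +
          2 * I * RR (oW b w j.val) (oR b w j.val)) = 1 / Complex.cos (oW b w j.val) ^ 2 :=
      one_left Bx hEj
    have ey := own_y_left hb F hw (n := j.val) hj0 (by omega) huj
    rw [hlj] at ey
    set y := yH .s (RR (oW b w j.val) (oL b w j.val)) (Complex.cos (oW b w j.val)) with hy
    have hv : Far .a (RR (oW b w i.val) (oL b w i.val)) (1 / oL b w i.val ^ 2) (-conj y) := by
      change cexp _ * (_ - 2 - 2 * I * _) = _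
      rw [f1', f2']
      have h7 := congrArg (starRingEnd ℂ) key
      rw [map_mul, ← Complex.exp_conj] at h7
      simp only [map_mul, map_add, map_sub, map_div₀, map_pow, map_one, Complex.conj_I,
        Complex.conj_ofReal, map_ofNat] at h7
      rw [show 2 * Real.pi * I * -conj y = 2 * Real.pi * -I * conj y by ring]
      linear_combination h7
    have ef : (ofr (b j) (zsW b w (.inl (.inl h2)))).im = (-conj y).im := by
      rw [ofr_fz, zsW_val h2 (n := j.val - 1) (by omega), ey, Complex.neg_im, Complex.conj_im,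
        neg_neg]
    rw [ef]
    rw [hx, hd, hj1, hl] at hE
    rw [hx]
    constructor
    · intro _
      exact m1_a hK Bx hE hr hv
    · intro h8
      rw [hcr] at h8
      exact absurd h8 (by decide)

/-- **The inner variable of a digit `3` of a word between two digits `1`.** -/
theorem locM1_of : LocM1 b (zsW b w) where
  one0 hm A A' A3 hi hj hk hr := ((m1_word hb F hw hK hS Bx hm A A' A3 hi hj hk).1 hr).1
  one1 hm A A' A3 hi hj hk hr := ((m1_word hb F hw hK hS Bx hm A A' A3 hi hj hk).1 hr).2
  two0 hm A A' A3 hi hj hk hr := ((m1_word hb F hw hK hS Bx hm A A' A3 hi hj hk).2 hr).1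
  two1 hm A A' A3 hi hj hk hr := ((m1_word hb F hw hK hS Bx hm A A' A3 hi hj hk).2 hr).2

end

end

end Pool.Agent.Work.MP_b30479_gtS.G2.CN.TD

end

section

/-!
# The inner variable of a digit `3` next to a digit `1` at the first slot
-/

namespace Pool.Agent.Work.MP_b30479_gtS.G2.CN.TD

open Complex SR
open scoped ComplexConjugate

noncomputable section

/-- the windows from the conditions of a row -/
lemma mw_mn {c : MWin} {y0 y1 t0 t1 s0 s1 c1 c2 c3 c4 c5 c6 : ℤ} {y m : ℂ} {C : Prop}
    (e : c = ⟨(t0 : ℝ) / 10000, (t1 : ℝ) / 10000, (s0 : ℝ) / 10000, (s1 : ℝ) / 10000,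
      (y0 : ℝ) / 10000, (y1 : ℝ) / 10000⟩)
    (h : (∀ g ∈ [GC.lo y0 c1, GC.hi y1 c2], g.P y) ∧
      (∀ g ∈ [GC.lo t0 c3, GC.hi t1 c4], g.P m) ∧
      (∀ g ∈ [GC.lo s0 c5, GC.hi s1 c6], g.P (m - y)) ∧ C) : c.In m.im y.im := by
  obtain ⟨hy, hm, hs, -⟩ := h
  subst e
  have a1 := hs _ m0
  have a2 := hs _ m1
  change _ ≤ (m - y).im at a1
  change (m - y).im ≤ _ at a2
  rw [Complex.sub_im] at a1 a2
  exact ⟨hm _ m0, hm _ m1, a1, a2, hy _ m0, hy _ m1⟩

section
variable {K : KFam} {r : SK} {dr : ℕ} {rr : SK} {w kl kr v : ℂ}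

theorem m3_A1s (hK : KOK K) (Bx : BoxRows K) (t : RDt K 3 .s r 1 .s dr rr w kl kr)
    (hr : r = .s ∨ (r = .a ∧ dr ≠ 1)) (hv : Far .s (RR w kl) (1 / kl ^ 2) v) :
    (mw3 false (nC r dr rr)).In (mH .s (RR w kl) (Complex.cos w)).im
      (yH .s (RR w kl) (Complex.cos w)).im := by
  have h1 := t.right.ok.right.symm
  have h2 := t.left.ok.right.symm
  have ho := t.left.ok.left
  have hT := tan_sq (ne_of_re t.left.kre)
  have hq : RR w kl ^ 2 + 1 - 1 / Complex.cos w ^ 2 = 1 / kl ^ 2 := by
    rw [t.left.hinge]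
    ring
  have hD := (OR.s : OR .s 1 3 .s _) hK hT hq t.left.out'
  have hn := hK.inH h2 k3ss_ok
  rcases hr with rfl | ⟨rfl, hr1⟩
  · have e : nC .s dr rr = .one := rfl
    rw [e]
    exact mw_mn (by norm_num [mw3]) (tuseN hK Bx t hv m3_A1s_1 mn mn mn mn
      (hK.inH ho k5ss_ok) hn (allS hK t rfl) hD)
  · have e : nC .a dr rr = cK dr rr := rfl
    rw [e]
    have kA : ∀ {H : List QC}, InH (K.K dr rr .a) H → InH {kr} (mirH H) := by
      intro H hH k hk
      rw [Set.mem_singleton_iff] at hk
      subst hk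
      exact hH.mir _ (by rw [K.symm]; exact t.right.mem')
    have hpos := h1.pos
    rcases Nat.lt_or_ge dr 4 with h4 | h4
    · have h5 : dr = 2 ∨ dr = 3 := by omega
      rcases h5 with rfl | rfl
      · cases rr
        · have e : cK 2 .e = .twoE := rfl
          rw [e]
          exact mw_mn (by norm_num [mw3]) (tuseN hK Bx t hv m3_A1s_2e mn mn mn mn
            (hK.inH ho k4as_ok) hn (allLx t rfl (kA (hK.inH h1 k2ea_ok))) hD)
        · have e : cK 2 .a = .two := rfl
          rw [e]
          exact mw_mn (by norm_num [mw3]) (tuseN hK Bx t hv m3_A1s_2a mn mn mn mn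
            (hK.inH ho k4as_ok) hn (allLx t rfl (kA (hK.inH h1 k2aa_ok))) hD)
        · exact absurd (h1.zl rfl) (by norm_num)
        · have e : cK 2 .s = .two := rfl
          rw [e]
          exact mw_mn (by norm_num [mw3]) (tuseN hK Bx t hv m3_A1s_2s mn mn mn mn
            (hK.inH ho k4as_ok) hn (allLx t rfl (kA (hK.inH h1 k3as_ok))) hD)
      · cases rr
        · have e : cK 3 .e = .threeE := rfl
          rw [e]
          exact mw_mn (by norm_num [mw3]) (tuseN hK Bx t hv m3_A1s_3e mn mn mn mn
            (hK.inH ho k4as_ok) hn (allLx t rfl (kA (hK.inH h1 k3ea_ok))) hD)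
        · have e : cK 3 .a = .three := rfl
          rw [e]
          exact mw_mn (by norm_num [mw3]) (tuseN hK Bx t hv m3_A1s_3a mn mn mn mn
            (hK.inH ho k4as_ok) hn (allLx t rfl (kA (hK.inH h1 k3aa_ok))) hD)
        · exact absurd (h1.zl rfl) (by norm_num)
        · have e : cK 3 .s = .three := rfl
          rw [e]
          exact mw_mn (by norm_num [mw3]) (tuseN hK Bx t hv m3_A1s_3s mn mn mn mn
            (hK.inH ho k4as_ok) hn (allLx t rfl (kA (hK.inH h1 k4as_ok))) hD)
    · rw [cK_ring h4]
      exact mw_mn (by norm_num [mw3]) (tuseN hK Bx t hv m3_A1s_Z mn mn mn mn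
        (hK.inH ho k4as_ok) hn (allLx t rfl (kA (in_nZa hK h1 h4))) hD)

theorem m3_B (hK : KOK K) (Bx : BoxRows K) (t : RDt K 3 .a r 1 .s dr rr w kl kr)
    (hr : r = .s ∨ (r = .a ∧ dr ≠ 1)) (hv : Far .a (RR w kl) (1 / kl ^ 2) v) :
    (mw3 false (nC r dr rr)).In (mH .a (RR w kl) (Complex.cos w)).im
      (yH .a (RR w kl) (Complex.cos w)).im := by
  have h1 := t.right.ok.right.symm
  have h2 := t.left.ok.right.symm
  have ho := t.left.ok.left
  have hT := tan_sq (ne_of_re t.left.kre)
  have hq : RR w kl ^ 2 + 1 - 1 / Complex.cos w ^ 2 = 1 / kl ^ 2 := by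
    rw [t.left.hinge]
    ring
  have hD := (OR.st (by decide) : OR .a 1 2 .s _) hK hT hq t.left.out'
  have hn := hK.inH h2 k2as_ok
  rcases hr with rfl | ⟨rfl, hr1⟩
  · have e : nC .s dr rr = .one := rfl
    rw [e]
    exact mw_mn (by norm_num [mw3]) (tuseN hK Bx t hv m3_B_1 mn mn mn mn
      (hK.inH ho k4as_ok) hn (allS hK t rfl) hD)
  · have e : nC .a dr rr = cK dr rr := rfl
    rw [e]
    have kA : ∀ {H : List QC}, InH (K.K dr rr .a) H → InH {kr} (mirH H) := by
      intro H hH k hk
      rw [Set.mem_singleton_iff] at hk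
      subst hk
      exact hH.mir _ (by rw [K.symm]; exact t.right.mem')
    have hpos := h1.pos
    rcases Nat.lt_or_ge dr 4 with h4 | h4
    · have h5 : dr = 2 ∨ dr = 3 := by omega
      rcases h5 with rfl | rfl
      · cases rr
        · have e : cK 2 .e = .twoE := rfl
          rw [e]
          exact mw_mn (by norm_num [mw3]) (tuseN hK Bx t hv m3_B_2e mn mn mn mn
            (hK.inH ho k3aa_ok) hn (allLx t rfl (kA (hK.inH h1 k2ea_ok))) hD)
        · have e : cK 2 .a = .two := rfl
          rw [e]
          exact mw_mn (by norm_num [mw3]) (tuseN hK Bx t hv m3_B_2a mn mn mn mn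
            (hK.inH ho k3aa_ok) hn (allLx t rfl (kA (hK.inH h1 k2aa_ok))) hD)
        · exact absurd (h1.zl rfl) (by norm_num)
        · have e : cK 2 .s = .two := rfl
          rw [e]
          exact mw_mn (by norm_num [mw3]) (tuseN hK Bx t hv m3_B_2s mn mn mn mn
            (hK.inH ho k3aa_ok) hn (allLx t rfl (kA (hK.inH h1 k3as_ok))) hD)
      · cases rr
        · have e : cK 3 .e = .threeE := rfl
          rw [e]
          exact mw_mn (by norm_num [mw3]) (tuseN hK Bx t hv m3_B_3e mn mn mn mn
            (hK.inH ho k3aa_ok) hn (allLx t rfl (kA (hK.inH h1 k3ea_ok))) hD)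
        · have e : cK 3 .a = .three := rfl
          rw [e]
          exact mw_mn (by norm_num [mw3]) (tuseN hK Bx t hv m3_B_3a mn mn mn mn
            (hK.inH ho k3aa_ok) hn (allLx t rfl (kA (hK.inH h1 k3aa_ok))) hD)
        · exact absurd (h1.zl rfl) (by norm_num)
        · have e : cK 3 .s = .three := rfl
          rw [e]
          exact mw_mn (by norm_num [mw3]) (tuseN hK Bx t hv m3_B_3s mn mn mn mn
            (hK.inH ho k3aa_ok) hn (allLx t rfl (kA (hK.inH h1 k4as_ok))) hD)
    · rw [cK_ring h4]
      exact mw_mn (by norm_num [mw3]) (tuseN hK Bx t hv m3_B_Z mn mn mn mn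
        (hK.inH ho k3aa_ok) hn (allLx t rfl (kA (in_nZa hK h1 h4))) hD)

theorem m3_A2a (hK : KOK K) (Bx : BoxRows K) (t : RDt K 3 .s r 2 .a dr rr w kl kr)
    (hr : r = .s ∨ (r = .a ∧ dr ≠ 1)) (hv : Far .s (RR w kl) (1 / kl ^ 2) v) :
    (mw3 true (nC r dr rr)).In (mH .s (RR w kl) (Complex.cos w)).im
      (yH .s (RR w kl) (Complex.cos w)).im := by
  have h1 := t.right.ok.right.symm
  have h2 := t.left.ok.right.symm
  have ho := t.left.ok.left
  have hT := tan_sq (ne_of_re t.left.kre)
  have hq : RR w kl ^ 2 + 1 - 1 / Complex.cos w ^ 2 = 1 / kl ^ 2 := by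
    rw [t.left.hinge]
    ring
  have hD := (OR.a : OR .s 2 3 .a _) hK hT hq t.left.out'
  have hn := hK.inH h2 k3as_ok
  rcases hr with rfl | ⟨rfl, hr1⟩
  · have e : nC .s dr rr = .one := rfl
    rw [e]
    exact mw_mn (by norm_num [mw3]) (tuseN hK Bx t hv m3_A2a_1 mn mn mn mn
      (hK.inH ho k5ss_ok) hn (allS hK t rfl) hD)
  · have e : nC .a dr rr = cK dr rr := rfl
    rw [e]
    have kA : ∀ {H : List QC}, InH (K.K dr rr .a) H → InH {kr} (mirH H) := by
      intro H hH k hk
      rw [Set.mem_singleton_iff] at hk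
      subst hk
      exact hH.mir _ (by rw [K.symm]; exact t.right.mem')
    have hpos := h1.pos
    rcases Nat.lt_or_ge dr 4 with h4 | h4
    · have h5 : dr = 2 ∨ dr = 3 := by omega
      rcases h5 with rfl | rfl
      · cases rr
        · have e : cK 2 .e = .twoE := rfl
          rw [e]
          exact mw_mn (by norm_num [mw3]) (tuseN hK Bx t hv m3_A2a_2e mn mn mn mn
            (hK.inH ho k4as_ok) hn (allLx t rfl (kA (hK.inH h1 k2ea_ok))) hD)
        · have e : cK 2 .a = .two := rfl
          rw [e]
          exact mw_mn (by norm_num [mw3]) (tuseN hK Bx t hv m3_A2a_2a mn mn mn mn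
            (hK.inH ho k4as_ok) hn (allLx t rfl (kA (hK.inH h1 k2aa_ok))) hD)
        · exact absurd (h1.zl rfl) (by norm_num)
        · have e : cK 2 .s = .two := rfl
          rw [e]
          exact mw_mn (by norm_num [mw3]) (tuseN hK Bx t hv m3_A2a_2s mn mn mn mn
            (hK.inH ho k4as_ok) hn (allLx t rfl (kA (hK.inH h1 k3as_ok))) hD)
      · cases rr
        · have e : cK 3 .e = .threeE := rfl
          rw [e]
          exact mw_mn (by norm_num [mw3]) (tuseN hK Bx t hv m3_A2a_3e mn mn mn mn
            (hK.inH ho k4as_ok) hn (allLx t rfl (kA (hK.inH h1 k3ea_ok))) hD)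
        · have e : cK 3 .a = .three := rfl
          rw [e]
          exact mw_mn (by norm_num [mw3]) (tuseN hK Bx t hv m3_A2a_3a mn mn mn mn
            (hK.inH ho k4as_ok) hn (allLx t rfl (kA (hK.inH h1 k3aa_ok))) hD)
        · exact absurd (h1.zl rfl) (by norm_num)
        · have e : cK 3 .s = .three := rfl
          rw [e]
          exact mw_mn (by norm_num [mw3]) (tuseN hK Bx t hv m3_A2a_3s mn mn mn mn
            (hK.inH ho k4as_ok) hn (allLx t rfl (kA (hK.inH h1 k4as_ok))) hD)
    · rw [cK_ring h4]
      exact mw_mn (by norm_num [mw3]) (tuseN hK Bx t hv m3_A2a_Z mn mn mn mn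
        (hK.inH ho k4as_ok) hn (allLx t rfl (kA (in_nZa hK h1 h4))) hD)

theorem m3_A2s (hK : KOK K) (Bx : BoxRows K) (t : RDt K 3 .s r 2 .s dr rr w kl kr)
    (hr : r = .s ∨ (r = .a ∧ dr ≠ 1)) (hv : Far .s (RR w kl) (1 / kl ^ 2) v) :
    (mw3 true (nC r dr rr)).In (mH .s (RR w kl) (Complex.cos w)).im
      (yH .s (RR w kl) (Complex.cos w)).im := by
  have h1 := t.right.ok.right.symm
  have h2 := t.left.ok.right.symm
  have ho := t.left.ok.left
  have hT := tan_sq (ne_of_re t.left.kre)
  have hq : RR w kl ^ 2 + 1 - 1 / Complex.cos w ^ 2 = 1 / kl ^ 2 := by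
    rw [t.left.hinge]
    ring
  have hD := (OR.s : OR .s 2 4 .s _) hK hT hq t.left.out'
  have hn := hK.inH h2 k4ss_ok
  rcases hr with rfl | ⟨rfl, hr1⟩
  · have e : nC .s dr rr = .one := rfl
    rw [e]
    exact mw_mn (by norm_num [mw3]) (tuseN hK Bx t hv m3_A2s_1 mn mn mn mn
      (hK.inH ho k5ss_ok) hn (allS hK t rfl) hD)
  · have e : nC .a dr rr = cK dr rr := rfl
    rw [e]
    have kA : ∀ {H : List QC}, InH (K.K dr rr .a) H → InH {kr} (mirH H) := by
      intro H hH k hk
      rw [Set.mem_singleton_iff] at hk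
      subst hk
      exact hH.mir _ (by rw [K.symm]; exact t.right.mem')
    have hpos := h1.pos
    rcases Nat.lt_or_ge dr 4 with h4 | h4
    · have h5 : dr = 2 ∨ dr = 3 := by omega
      rcases h5 with rfl | rfl
      · cases rr
        · have e : cK 2 .e = .twoE := rfl
          rw [e]
          exact mw_mn (by norm_num [mw3]) (tuseN hK Bx t hv m3_A2s_2e mn mn mn mn
            (hK.inH ho k4as_ok) hn (allLx t rfl (kA (hK.inH h1 k2ea_ok))) hD)
        · have e : cK 2 .a = .two := rfl
          rw [e]
          exact mw_mn (by norm_num [mw3]) (tuseN hK Bx t hv m3_A2s_2a mn mn mn mn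
            (hK.inH ho k4as_ok) hn (allLx t rfl (kA (hK.inH h1 k2aa_ok))) hD)
        · exact absurd (h1.zl rfl) (by norm_num)
        · have e : cK 2 .s = .two := rfl
          rw [e]
          exact mw_mn (by norm_num [mw3]) (tuseN hK Bx t hv m3_A2s_2s mn mn mn mn
            (hK.inH ho k4as_ok) hn (allLx t rfl (kA (hK.inH h1 k3as_ok))) hD)
      · cases rr
        · have e : cK 3 .e = .threeE := rfl
          rw [e]
          exact mw_mn (by norm_num [mw3]) (tuseN hK Bx t hv m3_A2s_3e mn mn mn mn
            (hK.inH ho k4as_ok) hn (allLx t rfl (kA (hK.inH h1 k3ea_ok))) hD)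
        · have e : cK 3 .a = .three := rfl
          rw [e]
          exact mw_mn (by norm_num [mw3]) (tuseN hK Bx t hv m3_A2s_3a mn mn mn mn
            (hK.inH ho k4as_ok) hn (allLx t rfl (kA (hK.inH h1 k3aa_ok))) hD)
        · exact absurd (h1.zl rfl) (by norm_num)
        · have e : cK 3 .s = .three := rfl
          rw [e]
          exact mw_mn (by norm_num [mw3]) (tuseN hK Bx t hv m3_A2s_3s mn mn mn mn
            (hK.inH ho k4as_ok) hn (allLx t rfl (kA (hK.inH h1 k4as_ok))) hD)
    · rw [cK_ring h4]
      exact mw_mn (by norm_num [mw3]) (tuseN hK Bx t hv m3_A2s_Z mn mn mn mn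
        (hK.inH ho k4as_ok) hn (allLx t rfl (kA (in_nZa hK h1 h4))) hD)

end

section
variable {M : ℕ} {b : Fin (M + 1) → ℤ} {w : ℕ → ℂ}

/-- the side at the last slot of a region which is not absorbed -/
lemma last_side {K : KFam} {h' : Fin M} {i k : Fin (M + 1)} {x : SK} {dl : ℕ} {ll : SK}
    {rr : SK} {w' kl kr : ℂ} (A' : Adj h' i 2 k) (hui : us b i.val = false)
    (hE : RDt K 3 x (rk b i.val) dl ll (dg b (rn b i.val)) rr w' kl kr) :
    rk b i.val = .s ∨ (rk b i.val = .a ∧ dg b (rn b i.val) ≠ 1) := by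
  have e3 : i.val = h'.val ∧ k.val = h'.val + 1 := by
    rcases A'.elim with ⟨-, h1⟩ | ⟨h0, -⟩
    · exact h1
    · exact absurd h0 (by decide)
  have sd := sd_right (b := b) A'
  rcases Bool.eq_false_or_eq_true (us b k.val) with hu | hu
  · exact Or.inl (sd.s hu)
  · right
    have hx : rk b i.val = .a := by
      rcases M3.kinds hE.right with h5 | h5
      · exact h5
      · have h6 := (sd.u hu).2
        rw [h5] at h6
        split_ifs at h6
    refine ⟨hx, fun hd => ?_⟩
    rw [(sd.u hu).1] at hd
    have h5 : us b (i.val + 1) = true := by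
      rw [us_succ, Bool.and_eq_true, decide_eq_true_eq, Bool.not_eq_true']
      refine ⟨?_, hui⟩
      rw [show i.val + 1 = k.val by omega, bb_val, hd]
    rw [show i.val + 1 = k.val by omega, hu] at h5
    exact absurd h5 (by decide)

variable (hb : ClassW b) (F : RingFacts) (hw : Sol b w) {K : KFam} (hK : KOK K)
  (hS : Snd K b w) (Bx : BoxRows K)
include hb F hw hK hS Bx

/-- all cases -/
theorem m3_word {h h' h2 : Fin M} {i j k r : Fin (M + 1)} (hm : (tyW b i).isMid = true)
    (A : Adj h i 0 j) (A' : Adj h' i 2 k) (A3 : Adj h2 j 0 r) (hi : clsW b i = .three)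
    (hj : clsW b j = .one) :
    (clsW b r = .one → (mw3 false (clsW b k)).In
      (ofs (b i) (zsW b w (.inl (.inr ⟨i, hm⟩))).im) (ofs (b i) (zsW b w (.inl (.inl h))).im)) ∧
    (clsW b r = .two → (mw3 true (clsW b k)).In
      (ofs (b i) (zsW b w (.inl (.inr ⟨i, hm⟩))).im)
      (ofs (b i) (zsW b w (.inl (.inl h))).im)) := by
  have h3 := three_nat hi
  have hui : us b i.val = false := us_of_abs (by omega)
  have e : i.val = h.val + 1 ∧ j.val = h.val := by
    rcases A.elim with ⟨h0, -⟩ | ⟨-, h1⟩
    · exact absurd h0 (by decide)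
    · exact h1
  have e3 : i.val = h'.val ∧ k.val = h'.val + 1 := by
    rcases A'.elim with ⟨-, h1⟩ | ⟨h0, -⟩
    · exact h1
    · exact absurd h0 (by decide)
  have e2 : j.val = h2.val + 1 ∧ r.val = h2.val := by
    rcases A3.elim with ⟨h0, -⟩ | ⟨-, h1⟩
    · exact absurd h0 (by decide)
    · exact h1
  have hh := h'.2
  have hE := rdt hb F hw hS (n := i.val) (by omega) (by omega) hui
  have em : ofr (b i) (zsW b w (.inl (.inr ⟨i, hm⟩))) =
      mH (lk b i.val) (RR (oW b w i.val) (oL b w i.val)) (Complex.cos (oW b w i.val)) := by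
    have ez : zsW b w (.inl (.inr ⟨i, hm⟩)) = acot2 (Rm b w i.val) := rfl
    rw [ez, ofr_fz, ← acot2_fz, own_mid hb F hw (n := i.val) (by omega) (by omega) hui]
    rfl
  have ey : ofr (b i) (zsW b w (.inl (.inl h))) =
      yH (lk b i.val) (RR (oW b w i.val) (oL b w i.val)) (Complex.cos (oW b w i.val)) := by
    rw [ofr_fz, zsW_val h (n := i.val - 1) (by omega),
      own_y_left hb F hw (n := i.val) (by omega) (by omega) hui]
  rw [← ofr_im, ← ofr_im, em, ey]
  rw [dg_val, h3] at hE
  have hr := last_side A' hui hE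
  have hck : clsW b k = nC (rk b i.val) (dg b (rn b i.val)) (rk b (rn b i.val)) :=
    cls_right (b := b) (i := i) (j := k) (by omega)
  rw [hck]
  have sd := sd_left (b := b) A
  have hj1 : (b j).natAbs = 1 := by
    unfold clsW cls at hj
    split_ifs at hj with h1
    exact h1
  rcases Bool.eq_false_or_eq_true (us b j.val) with huj | huj
  · -- absorbed
    have hx := sd.s huj
    obtain ⟨hd, hc⟩ := sd.far A3 huj
    have hv : Far .s (RR (oW b w i.val) (oL b w i.val)) (1 / oL b w i.val ^ 2)
        (-acot2 (Sp (RR (oW b w i.val) (oL b w i.val)) (oL b w i.val))) := by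
      have h4 := hE.left
      rw [hx] at h4
      exact far_split Bx h4
    have hur : us b r.val = false := by
      have h5 := (us_true huj).2.2.1
      rwa [show j.val - 1 = r.val by omega] at h5
    have hln : ln b i.val = r.val := by
      unfold ln
      rw [if_pos (by rwa [show i.val - 1 = j.val by omega])]
      omega
    rw [hx] at hE ⊢
    have h2' := hE.left.ok.right.symm
    constructor
    · intro hc1
      rw [hc1] at hc
      have h6 := cK_m1 hc.symm
      rw [h6] at hE h2'
      have hl : lk b (ln b i.val) = .s := by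
        have hne := (h2'.one rfl).2.1
        rw [hln] at hne ⊢
        have hr0 : r.val ≠ 0 := by
          intro h0
          rw [h0] at hne
          exact hne rfl
        apply lk_s (by omega)
        by_contra hcn
        rw [Bool.not_eq_true] at hcn
        have h5 : us b (r.val - 1 + 1) = true := by
          rw [us_succ, Bool.and_eq_true, decide_eq_true_eq, Bool.not_eq_true']
          refine ⟨?_, hcn⟩
          rw [show r.val - 1 + 1 = r.val by omega, bb_val, ← hd, h6]
        rw [show r.val - 1 + 1 = r.val by omega, hur] at h5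
        exact absurd h5 (by decide)
      rw [hl] at hE
      exact m3_A1s hK Bx hE hr hv
    · intro hc1
      rw [hc1] at hc
      obtain ⟨h6, h7⟩ := cK_m2 hc.symm
      rw [h6] at hE h2'
      have hl : lk b (ln b i.val) = .a ∨ lk b (ln b i.val) = .s := by
        generalize lk b (ln b i.val) = l at h7 h2'
        cases l
        · exact absurd rfl h7
        · exact Or.inl rfl
        · exact absurd (h2'.zl rfl) (by norm_num)
        · exact Or.inr rfl
      rcases hl with hl | hl
      · rw [hl] at hE
        exact m3_A2a hK Bx hE hr hv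
      · rw [hl] at hE
        exact m3_A2s hK Bx hE hr hv
  · -- not absorbed
    obtain ⟨hd, hx⟩ := sd.u huj
    have hop : b i * b j < 0 := A.opp hb (Or.inl (by rw [hi]; decide))
    rw [if_neg (by omega)] at hx
    have hur : us b r.val = true := by
      by_contra hc
      rw [Bool.not_eq_true] at hc
      have h5 : us b (h2.val + 1) = true := by
        rw [us_succ, Bool.and_eq_true, decide_eq_true_eq, Bool.not_eq_true']
        refine ⟨?_, by rwa [← e2.2]⟩
        rw [← e2.1, bb_val, hj1]
      rw [← e2.1, huj] at h5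
      exact absurd h5 (by decide)
    have hl := (sd.kd A3 huj).1 hur
    have hcr : clsW b r = .one := by
      have h6 := (us_true hur).2.1
      rw [bb_val] at h6
      unfold clsW cls
      rw [if_pos h6]
    have hjM := j.2
    have hj0 : 0 < j.val := by omega
    have hEj := rdt hb F hw hS (n := j.val) hj0 (by omega) huj
    rw [dg_val, hj1] at hEj
    have hlj : lk b j.val = .s := (sd_left (b := b) A3).s hur
    have hrj : rk b j.val = .a := by
      have sd2 := sd_right (b := b) (A.symm : Adj h j 2 i)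
      rw [(sd2.u hui).2, if_neg (by rw [mul_comm]; omega)]
    rw [hlj, hrj] at hEj
    obtain ⟨f1, f2⟩ := flip_left hb F hw (n := i.val) (by omega) (by omega) hui
      (by rwa [show i.val - 1 = j.val by omega])
    rw [hx, show i.val - 1 = j.val by omega] at f1 f2
    have f1' : RR (oW b w i.val) (oL b w i.val) = conj (RR (oW b w j.val) (oR b w j.val)) := by
      rw [f1]
      exact fz_neg _
    have f2' : oL b w i.val = conj (Complex.cos (oW b w j.val)) := by
      rw [f2]
      exact fz_neg _
    have key : cexp (2 * Real.pi * I * yH .s (RR (oW b w j.val) (oL b w j.val))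
        (Complex.cos (oW b w j.val))) * (1 / Complex.cos (oW b w j.val) ^ 2 - 2 +
          2 * I * RR (oW b w j.val) (oR b w j.val)) = 1 / Complex.cos (oW b w j.val) ^ 2 :=
      one_left Bx hEj
    set y := yH .s (RR (oW b w j.val) (oL b w j.val)) (Complex.cos (oW b w j.val)) with hy
    have hv : Far .a (RR (oW b w i.val) (oL b w i.val)) (1 / oL b w i.val ^ 2) (-conj y) := by
      change cexp _ * (_ - 2 - 2 * I * _) = _
      rw [f1', f2']
      have h7 := congrArg (starRingEnd ℂ) key
      rw [map_mul, ← Complex.exp_conj] at h7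
      simp only [map_mul, map_add, map_sub, map_div₀, map_pow, map_one, Complex.conj_I,
        Complex.conj_ofReal, map_ofNat] at h7
      rw [show 2 * Real.pi * I * -conj y = 2 * Real.pi * -I * conj y by ring]
      linear_combination h7
    rw [hx, hd, hj1, hl] at hE
    rw [hx]
    constructor
    · intro _
      exact m3_B hK Bx hE hr hv
    · intro h8
      rw [hcr] at h8
      exact absurd h8 (by decide)

/-- **The inner variable of a digit `3` of a word next to a digit `1` at the first slot.** -/
theorem locM2_of : LocM2 b (zsW b w) where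
  one hm A A' A3 hi hj := (m3_word hb F hw hK hS Bx hm A A' A3 hi hj).1
  two hm A A' A3 hi hj := (m3_word hb F hw hK hS Bx hm A A' A3 hi hj).2

end

end

end Pool.Agent.Work.MP_b30479_gtS.G2.CN.TD

end

section

/-!
# The inner variable of a digit `3` next to a digit `2` at the first slot
-/

namespace Pool.Agent.Work.MP_b30479_gtS.G2.CN.TD

open Complex SR
open scoped ComplexConjugate

noncomputable section

/-- the windows from the conditions of a row -/
lemma mw_mk {c : MWin} {y0 y1 t0 t1 s0 s1 c1 c2 c3 c4 c5 c6 : ℤ} {y m : ℂ} {A B : Prop}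
    (e : c = ⟨(t0 : ℝ) / 10000, (t1 : ℝ) / 10000, (s0 : ℝ) / 10000, (s1 : ℝ) / 10000,
      (y0 : ℝ) / 10000, (y1 : ℝ) / 10000⟩)
    (h : (∀ g ∈ [GC.lo y0 c1, GC.hi y1 c2], g.P y) ∧ A ∧ B ∧
      (∀ g ∈ [GC.lo t0 c3, GC.hi t1 c4], g.P m) ∧
      ∀ g ∈ [GC.lo s0 c5, GC.hi s1 c6], g.P (m - y)) : c.In m.im y.im := by
  obtain ⟨hy, -, -, hm, hs⟩ := h
  subst e
  have a1 := hs _ m0
  have a2 := hs _ m1
  change _ ≤ (m - y).im at a1
  change (m - y).im ≤ _ at a2
  rw [Complex.sub_im] at a1 a2
  exact ⟨hm _ m0, hm _ m1, a1, a2, hy _ m0, hy _ m1⟩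

section
variable {K : KFam} {r : SK} {ll : SK} {dr : ℕ} {rr : SK} {w kl kr : ℂ}

/-- the digit `2` -/
lemma two_kind (t : RDt K 3 .a r 2 ll dr rr w kl kr) (hl : ll ≠ .e) : ll = .a ∨ ll = .s := by
  cases ll
  · exact absurd rfl hl
  · exact Or.inl rfl
  · exact absurd (t.left.ok.right.symm.zl rfl) (by norm_num)
  · exact Or.inr rfl

/-- all cases -/
theorem md_cases (hK : KOK K) (Bx : BoxRows K) (t : RDt K 3 .a r 2 ll dr rr w kl kr)
    (hl : ll ≠ .e) (hre : r ≠ .e) :
    (mw2 (nC r dr rr)).In (mH .a (RR w kl) (Complex.cos w)).im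
      (yH .a (RR w kl) (Complex.cos w)).im := by
  have h1 := t.right.ok.right.symm
  have h2 := t.left.ok.right.symm
  have ho := t.left.ok.left
  have hT := tan_sq (ne_of_re t.left.kre)
  have hq : RR w kl ^ 2 + 1 - 1 / Complex.cos w ^ 2 = 1 / kl ^ 2 := by
    rw [t.left.hinge]
    ring
  have hpos := h1.pos
  have ha : ll = .a → AllOk (RR w kl) (Complex.tan w) (tD .a 2 (mirH PA2)) := by
    rintro rfl
    exact OR.a hK hT hq t.left.out'
  have hs : ll = .s → AllOk (RR w kl) (Complex.tan w) (tD .a 3 PS2) := by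
    rintro rfl
    exact OR.s hK hT hq t.left.out'
  have kA : ∀ {H : List QC}, InH (K.K dr rr .a) H → r = .a → InH {kr} (mirH H) := by
    intro H hH h2 k hk
    subst h2
    rw [Set.mem_singleton_iff] at hk
    subst hk
    exact hH.mir _ (by rw [K.symm]; exact t.right.mem')
  have hk := two_kind t hl
  have hx : r = .a ∨ r = .s := by
    cases r
    · exact absurd rfl hre
    · exact Or.inl rfl
    · exact absurd (t.left.ok.left.zl rfl) (by decide)
    · exact Or.inr rfl
  rcases hx with rfl | rfl
  · have hz : nC .a dr rr = cK dr rr := by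
      unfold nC
      rw [if_neg (by decide)]
    rw [hz]
    rcases Nat.lt_or_ge dr 4 with h4 | h4
    · have h5 : dr = 1 ∨ dr = 2 ∨ dr = 3 := by omega
      rcases h5 with rfl | rfl | rfl
      · have hr : rr = .s := far_s t.right.ok.right
        subst hr
        have e : cK 1 .s = .one := rfl
        rw [e]
        rcases hk with rfl | rfl
        · exact mw_mk (by norm_num [mw2]) (tuseM hK Bx t hre md_1u_a mn mn mn
            (hK.inH ho k3aa_ok) (hK.inH h2 k2aa_ok) (allL t rfl (kA (hK.inH h1 k2as_ok) rfl))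
            (ha rfl))
        · exact mw_mk (by norm_num [mw2]) (tuseM hK Bx t hre md_1u_s mn mn mn
            (hK.inH ho k3aa_ok) (hK.inH h2 k3as_ok) (allL t rfl (kA (hK.inH h1 k2as_ok) rfl))
            (hs rfl))
      · cases rr
        · have e : cK 2 .e = .twoE := rfl
          rw [e]
          rcases hk with rfl | rfl
          · exact mw_mk (by norm_num [mw2]) (tuseM hK Bx t hre md_2e_a mn mn mn
              (hK.inH ho k3aa_ok) (hK.inH h2 k2aa_ok) (allL t rfl (kA (hK.inH h1 k2ea_ok) rfl))
              (ha rfl))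
          · exact mw_mk (by norm_num [mw2]) (tuseM hK Bx t hre md_2e_s mn mn mn
              (hK.inH ho k3aa_ok) (hK.inH h2 k3as_ok) (allL t rfl (kA (hK.inH h1 k2ea_ok) rfl))
              (hs rfl))
        · have e : cK 2 .a = .two := rfl
          rw [e]
          rcases hk with rfl | rfl
          · exact mw_mk (by norm_num [mw2]) (tuseM hK Bx t hre md_2a_a mn mn mn
              (hK.inH ho k3aa_ok) (hK.inH h2 k2aa_ok) (allL t rfl (kA (hK.inH h1 k2aa_ok) rfl))
              (ha rfl))
          · exact mw_mk (by norm_num [mw2]) (tuseM hK Bx t hre md_2a_s mn mn mn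
              (hK.inH ho k3aa_ok) (hK.inH h2 k3as_ok) (allL t rfl (kA (hK.inH h1 k2aa_ok) rfl))
              (hs rfl))
        · exact absurd (h1.zl rfl) (by norm_num)
        · have e : cK 2 .s = .two := rfl
          rw [e]
          rcases hk with rfl | rfl
          · exact mw_mk (by norm_num [mw2]) (tuseM hK Bx t hre md_2s_a mn mn mn
              (hK.inH ho k3aa_ok) (hK.inH h2 k2aa_ok) (allL t rfl (kA (hK.inH h1 k3as_ok) rfl))
              (ha rfl))
          · exact mw_mk (by norm_num [mw2]) (tuseM hK Bx t hre md_2s_s mn mn mn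
              (hK.inH ho k3aa_ok) (hK.inH h2 k3as_ok) (allL t rfl (kA (hK.inH h1 k3as_ok) rfl))
              (hs rfl))
      · cases rr
        · have e : cK 3 .e = .threeE := rfl
          rw [e]
          rcases hk with rfl | rfl
          · exact mw_mk (by norm_num [mw2]) (tuseM hK Bx t hre md_3e_a mn mn mn
              (hK.inH ho k3aa_ok) (hK.inH h2 k2aa_ok) (allL t rfl (kA (hK.inH h1 k3ea_ok) rfl))
              (ha rfl))
          · exact mw_mk (by norm_num [mw2]) (tuseM hK Bx t hre md_3e_s mn mn mn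
              (hK.inH ho k3aa_ok) (hK.inH h2 k3as_ok) (allL t rfl (kA (hK.inH h1 k3ea_ok) rfl))
              (hs rfl))
        · have e : cK 3 .a = .three := rfl
          rw [e]
          rcases hk with rfl | rfl
          · exact mw_mk (by norm_num [mw2]) (tuseM hK Bx t hre md_3a_a mn mn mn
              (hK.inH ho k3aa_ok) (hK.inH h2 k2aa_ok) (allL t rfl (kA (hK.inH h1 k3aa_ok) rfl))
              (ha rfl))
          · exact mw_mk (by norm_num [mw2]) (tuseM hK Bx t hre md_3a_s mn mn mn
              (hK.inH ho k3aa_ok) (hK.inH h2 k3as_ok) (allL t rfl (kA (hK.inH h1 k3aa_ok) rfl))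
              (hs rfl))
        · exact absurd (h1.zl rfl) (by norm_num)
        · have e : cK 3 .s = .three := rfl
          rw [e]
          rcases hk with rfl | rfl
          · exact mw_mk (by norm_num [mw2]) (tuseM hK Bx t hre md_3s_a mn mn mn
              (hK.inH ho k3aa_ok) (hK.inH h2 k2aa_ok) (allL t rfl (kA (hK.inH h1 k4as_ok) rfl))
              (ha rfl))
          · exact mw_mk (by norm_num [mw2]) (tuseM hK Bx t hre md_3s_s mn mn mn
              (hK.inH ho k3aa_ok) (hK.inH h2 k3as_ok) (allL t rfl (kA (hK.inH h1 k4as_ok) rfl))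
              (hs rfl))
    · rw [cK_ring h4]
      rcases hk with rfl | rfl
      · exact mw_mk (by norm_num [mw2]) (tuseM hK Bx t hre md_Z_a mn mn mn
          (hK.inH ho k3aa_ok) (hK.inH h2 k2aa_ok) (allL t rfl (kA (in_nZa hK h1 h4) rfl))
          (ha rfl))
      · exact mw_mk (by norm_num [mw2]) (tuseM hK Bx t hre md_Z_s mn mn mn
          (hK.inH ho k3aa_ok) (hK.inH h2 k3as_ok) (allL t rfl (kA (in_nZa hK h1 h4) rfl))
          (hs rfl))
  · have hz : nC .s dr rr = .one := by
      unfold nC
      rw [if_pos rfl]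
    rw [hz]
    have hL : AllOk (RR w kl) (Complex.tan w) (tA 4 PS3) :=
      OL.s le_rfl hK hT hq t.left.out
    rcases hk with rfl | rfl
    · exact mw_mk (by norm_num [mw2]) (tuseM hK Bx t hre md_1s_a mn mn mn
        (hK.inH ho k4as_ok) (hK.inH h2 k2aa_ok) hL (ha rfl))
    · exact mw_mk (by norm_num [mw2]) (tuseM hK Bx t hre md_1s_s mn mn mn
        (hK.inH ho k4as_ok) (hK.inH h2 k3as_ok) hL (hs rfl))

end

section
variable {M : ℕ} {b : Fin (M + 1) → ℤ} {w : ℕ → ℂ}
variable (hb : ClassW b) (F : RingFacts) (hw : Sol b w) {K : KFam} (hK : KOK K)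
  (hS : Snd K b w) (Bx : BoxRows K)
include hb F hw hK hS Bx

/-- **The inner variable of a digit `3` of a word next to a digit `2` at the first slot.** -/
theorem locMd_of : LocMd b (zsW b w) := by
  constructor
  intro h h' i j k hm A A' hc hj
  have h3 := three_nat hc
  obtain ⟨x, x', dl, ll, dr, rr, kl, kr, hE, y1, y2, c1, c2⟩ :=
    A.mid_view hb F hw hS A' (us_of_abs (by omega)) hm
  rw [h3] at hE
  rw [← ofr_im, ← ofr_im, y1, y2, c2]
  rw [hj] at c1
  have hx : x = .a ∧ dl = 2 ∧ ll ≠ .e := by
    unfold nC at c1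
    split_ifs at c1 with hs
    have hx := M3.kinds hE.left
    refine ⟨hx.resolve_right hs, ?_, ?_⟩
    · unfold cK at c1
      split_ifs at c1 with g1 g2
      exact g2
    · rintro rfl
      unfold cK at c1
      split_ifs at c1
      simp_all
  obtain ⟨rfl, rfl, hl⟩ := hx
  exact md_cases hK Bx hE hl hE.right.ok.ne

end

end

end Pool.Agent.Work.MP_b30479_gtS.G2.CN.TD

end

section

/-!
# The inner variable of a digit `3` next to a digit `3`
-/

namespace Pool.Agent.Work.MP_b30479_gtS.G2.CN.TD

open Complex SR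
open scoped ComplexConjugate

noncomputable section

lemma m4_u {c : ℤ} {m : ℂ} {A B C D : Prop}
    (h : A ∧ B ∧ C ∧ (∀ g ∈ [GC.hi (-50) c], g.P m) ∧ D) : m.im ≤ -(5 / 1000) := by
  obtain ⟨-, -, -, h1, -⟩ := h
  have h2 : m.im ≤ ((-50 : ℤ) : ℝ) / 10000 := h1 _ m0
  norm_num at h2
  linarith only [h2]

lemma m4_s {c : ℤ} {m : ℂ} {A C : Prop}
    (h : A ∧ (∀ g ∈ [GC.hi (-50) c], g.P m) ∧ C) : m.im ≤ -(5 / 1000) := by
  obtain ⟨-, h1, -⟩ := h
  have h2 : m.im ≤ ((-50 : ℤ) : ℝ) / 10000 := h1 _ m0
  norm_num at h2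
  linarith only [h2]

section
variable {K : KFam} {x : SK} {dl : ℕ} {ll rr : SK} {w kl kr : ℂ}

/-- a digit `3` at the last slot -/
theorem m4_cases (hK : KOK K) (Bx : BoxRows K) (t : RDt K 3 x .a dl ll 3 rr w kl kr)
    (hr : rr ≠ .e) : (mH x (RR w kl) (Complex.cos w)).im ≤ -(5 / 1000) := by
  have h1 := t.right.ok.right.symm
  have h2 := t.left.ok.right.symm
  have ho := t.left.ok.left
  have hT := tan_sq (ne_of_re t.left.kre)
  have hq : RR w kl ^ 2 + 1 - 1 / Complex.cos w ^ 2 = 1 / kl ^ 2 := by
    rw [t.left.hinge]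
    ring
  have hpos := h2.pos
  have kA : ∀ {H : List QC}, InH (K.K 3 rr .a) H → InH {kr} (mirH H) := by
    intro H hH k hk
    rw [Set.mem_singleton_iff] at hk
    subst hk
    exact hH.mir _ (by rw [K.symm]; exact t.right.mem')
  have hrr : rr = .a ∨ rr = .s := by
    cases rr
    · exact absurd rfl hr
    · exact Or.inl rfl
    · exact absurd (h1.zl rfl) (by norm_num)
    · exact Or.inr rfl
  have hk : nC .a 3 rr = .three := by
    unfold nC
    rw [if_neg (by decide)]
    exact cK_c3 hr
  cases x
  · exact absurd rfl t.left.ok.ne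
  · -- the hinge of kind `a`
    rcases Nat.lt_or_ge dl 4 with h4 | h4
    · have h5 : dl = 1 ∨ dl = 2 ∨ dl = 3 := by omega
      rcases h5 with rfl | rfl | rfl
      · have hl : ll = .s := far_s t.left.ok.right
        subst hl
        rcases hrr with rfl | rfl
        · exact m4_u (tuseM hK Bx t (by decide) m4_1u_3a mn mn mn
            (hK.inH ho k3aa_ok) (hK.inH h2 k2as_ok) (allL t rfl (kA (hK.inH h1 k3aa_ok)))
            (OR.st (by decide) hK hT hq t.left.out'))
        · exact m4_u (tuseM hK Bx t (by decide) m4_1u_3s mn mn mn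
            (hK.inH ho k3aa_ok) (hK.inH h2 k2as_ok) (allL t rfl (kA (hK.inH h1 k4as_ok)))
            (OR.st (by decide) hK hT hq t.left.out'))
      · by_cases hl : ll = .e
        · subst hl
          rcases hrr with rfl | rfl
          · exact m4_u (tuseM hK Bx t (by decide) m4_2e_3a mn mn mn
              (hK.inH ho k3aa_ok) (hK.inH h2 k2ea_ok) (allL t rfl (kA (hK.inH h1 k3aa_ok)))
              (OR.e hK hT hq t.left.out'))
          · exact m4_u (tuseM hK Bx t (by decide) m4_2e_3s mn mn mn
              (hK.inH ho k3aa_ok) (hK.inH h2 k2ea_ok) (allL t rfl (kA (hK.inH h1 k4as_ok)))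
              (OR.e hK hT hq t.left.out'))
        · have g := md_cases hK Bx t hl (by decide)
          rw [hk] at g
          have g1 := g.2.1
          norm_num [mw2] at g1
          linarith only [g1]
      · cases ll
        · rcases hrr with rfl | rfl
          · exact m4_u (tuseM hK Bx t (by decide) m4_3e_3a mn mn mn
              (hK.inH ho k3aa_ok) (hK.inH h2 k3ea_ok) (allL t rfl (kA (hK.inH h1 k3aa_ok)))
              (OR.e hK hT hq t.left.out'))
          · exact m4_u (tuseM hK Bx t (by decide) m4_3e_3s mn mn mn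
              (hK.inH ho k3aa_ok) (hK.inH h2 k3ea_ok) (allL t rfl (kA (hK.inH h1 k4as_ok)))
              (OR.e hK hT hq t.left.out'))
        · rcases hrr with rfl | rfl
          · exact m4_u (tuseM hK Bx t (by decide) m4_3a_3a mn mn mn
              (hK.inH ho k3aa_ok) (hK.inH h2 k3aa_ok) (allL t rfl (kA (hK.inH h1 k3aa_ok)))
              (OR.a hK hT hq t.left.out'))
          · exact m4_u (tuseM hK Bx t (by decide) m4_3a_3s mn mn mn
              (hK.inH ho k3aa_ok) (hK.inH h2 k3aa_ok) (allL t rfl (kA (hK.inH h1 k4as_ok)))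
              (OR.a hK hT hq t.left.out'))
        · exact absurd (h2.zl rfl) (by norm_num)
        · rcases hrr with rfl | rfl
          · exact m4_u (tuseM hK Bx t (by decide) m4_3s_3a mn mn mn
              (hK.inH ho k3aa_ok) (hK.inH h2 k4as_ok) (allL t rfl (kA (hK.inH h1 k3aa_ok)))
              (OR.s hK hT hq t.left.out'))
          · exact m4_u (tuseM hK Bx t (by decide) m4_3s_3s mn mn mn
              (hK.inH ho k3aa_ok) (hK.inH h2 k4as_ok) (allL t rfl (kA (hK.inH h1 k4as_ok)))
              (OR.s hK hT hq t.left.out'))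
    · rcases hrr with rfl | rfl
      · exact m4_u (tuseM hK Bx t (by decide) m4_Z_3a mn mn mn
          (hK.inH ho k3aa_ok) (in_nZa hK h2 h4) (allL t rfl (kA (hK.inH h1 k3aa_ok)))
          AllOk.nil)
      · exact m4_u (tuseM hK Bx t (by decide) m4_Z_3s mn mn mn
          (hK.inH ho k3aa_ok) (in_nZa hK h2 h4) (allL t rfl (kA (hK.inH h1 k4as_ok)))
          AllOk.nil)
  · exact absurd (t.left.ok.left.zr rfl) (by norm_num)
  · -- a split hinge
    have hd : dl = 1 ∨ dl = 2 := by
      have h5 := t.left.ok.one rfl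
      omega
    have hv := far_split Bx t.left
    have hrx : SK.a = .s ∨ (SK.a = .a ∧ (3 : ℕ) ≠ 1) := Or.inr ⟨rfl, by decide⟩
    rcases hd with rfl | rfl
    · cases ll
      · exact absurd rfl (h2.one rfl).2.1
      · rcases hrr with rfl | rfl
        · exact m4_s (tuseN hK Bx t hv m4_1a_3a mn mn mn mn (hK.inH ho k4as_ok)
            (hK.inH h2 k2as_ok) (allLx t rfl (kA (hK.inH h1 k3aa_ok)))
            (OR.a1 (by norm_num) hK hT hq t.left.out'))
        · exact m4_s (tuseN hK Bx t hv m4_1a_3s mn mn mn mn (hK.inH ho k4as_ok)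
            (hK.inH h2 k2as_ok) (allLx t rfl (kA (hK.inH h1 k4as_ok)))
            (OR.a1 (by norm_num) hK hT hq t.left.out'))
      · exact absurd (h2.zl rfl) (by norm_num)
      · have g := m3_A1s hK Bx t hrx hv
        rw [hk] at g
        have g1 := g.2.1
        norm_num [mw3] at g1
        linarith only [g1]
    · cases ll
      · rcases hrr with rfl | rfl
        · exact m4_s (tuseN hK Bx t hv m4_12e_3a mn mn mn mn (hK.inH ho k4as_ok)
            (hK.inH h2 k3es_ok) (allLx t rfl (kA (hK.inH h1 k3aa_ok)))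
            (OR.e hK hT hq t.left.out'))
        · exact m4_s (tuseN hK Bx t hv m4_12e_3s mn mn mn mn (hK.inH ho k4as_ok)
            (hK.inH h2 k3es_ok) (allLx t rfl (kA (hK.inH h1 k4as_ok)))
            (OR.e hK hT hq t.left.out'))
      · have g := m3_A2a hK Bx t hrx hv
        rw [hk] at g
        have g1 := g.2.1
        norm_num [mw3] at g1
        linarith only [g1]
      · exact absurd (h2.zl rfl) (by norm_num)
      · have g := m3_A2s hK Bx t hrx hv
        rw [hk] at g
        have g1 := g.2.1
        norm_num [mw3] at g1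
        linarith only [g1]

end

section
variable {M : ℕ} {b : Fin (M + 1) → ℤ} {w : ℕ → ℂ}
variable (hb : ClassW b) (F : RingFacts) (hw : Sol b w) {K : KFam} (hK : KOK K)
  (hS : Snd K b w) (Bx : BoxRows K)
include hb F hw hK hS Bx

/-- **The inner variable of a digit `3` of a word next to a digit `3` at the last slot.** -/
theorem locM3_of : LocM3 b (zsW b w) := by
  constructor
  intro h h' i j k hm A A' hc hk
  have h3 := three_nat hc
  obtain ⟨x, x', dl, ll, dr, rr, kl, kr, hE, y1, y2, c1, c2⟩ :=
    A.mid_view hb F hw hS A' (us_of_abs (by omega)) hm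
  rw [h3] at hE
  rw [← ofr_im, y2]
  rw [hk] at c2
  have hx : x' = .a ∧ dr = 3 ∧ rr ≠ .e := by
    unfold nC at c2
    split_ifs at c2 with hs
    have hx := M3.kinds hE.right
    refine ⟨hx.resolve_right hs, ?_, ?_⟩
    · unfold cK at c2
      split_ifs at c2
      assumption
    · rintro rfl
      unfold cK at c2
      split_ifs at c2
      simp_all
  obtain ⟨rfl, rfl, hl⟩ := hx
  exact m4_cases hK Bx hE hl

end

end

end Pool.Agent.Work.MP_b30479_gtS.G2.CN.TD

end

section

/-!
# The inner variable of a digit `3` between two digits `1`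
-/

set_option deprecated.oldSectionVars true

namespace Pool.Agent.Work.MP_b30479_gtS.G2.CN.TD

open Complex SR
open scoped ComplexConjugate

theorem m7_1 : trowOkN .s [] [] [] []
    k5ss (tA 5 PS3) k3es (tE .s 3)
    [.lo (-1120) 4085455, .hi (-965) 3362401] [.lo (-725) 2486960, .hi (-440) 1738324] [.lo 370 628161, .hi 560 494745] []
    1048620
    0x5349803786014a00cf2000db0000de111e403cb802013005d008f0700000308600ea148f003e8a0061008f003e8a0061008f0020060050028f00250a014c0001ae4d9e362011916445a000db0000de111e403cb8020060055028f12000f31600804d1e00402600b8011e02df4400c24d1e00402600e0011e02eb4402b21801849b3c193002a1302c4448f1b1e282264c3c03143003093025b44cf10000000000000000309300740c8f006986006f2604f0899e00480c00804c0771133c00b41801509a3c40585186050c3444180329300540c8f08260a0040068f100000000019b3006126018e011e4800de4c0344023c4c480ec8a00610c8f10162822a54a8382302c09111002013478012898120a2478012898127a2005f02cf160000000542603ac891e00402603b8891e5e1cea4c43c11003789678d10062c90c4600c20c392c023c00a84c0939123ca8013c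9802006478300309300c6008f110000000000000000924c0100323c4848037930279448f00201301df448f3300422601ba880100333c1888b0630993420198040150323c00da040100323c6881300c0a06610006d80006f088f201e5c01003002a814780100880340a4793261e00c244032c523c00a844031850032006793204c50ba61e140184880bc0b47841a0530140150880ac8b4784264c3d3204c50ba61e600150880e58b478070058030864783077f060040048f261c02942c01bc323c608ab1228181798b0061228f1e00010688a30061061c96011e0ec5221de82801bc1b3c1eac2801bc1876c91679180200d0cec148f002c830040241aaa0041cd243c18035c980a600004a14cf0c0000000000000008c01bc188392310e448cf2000540620988c41e5233c8c01bc188322310cc48cf003083105f4619bc0041f1243ca801841882d2310c348cf090000002a006f0620d08c4339233c34000200401d34603ec919e302c2002a0402d2488f080a4819942582121410883425c0184686bf8a478012850120a447951b0000000000000000000000000000000000000000003492002a234780184908a1a447803112002a234780129180262447803252002a234786006ba4006f468f070000000000d64800de8d1e0c50080378801e546049a919e2e10018430163a302f848cf100040041d88191e220c503006f041da2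051e2e1088061110061148f130000fe4221fb01001001b3c1dc41001bc188bd2467918020030ec8082298919e4000c2100b09200e122678d00308802584804de899e160888127a20040028f0c000000503425c039488037884780b55100378847830908c62013824006f448f00f3240040028f012d24006f028f003011889064428a088d1802013005d008f1b00000002000611401fe951e00d7260298000128533c191802009126046218e0049512c3c8d0082f091fe2463ea6918030853a2194247ded18fb9a5600c20ce8a0011d44a21ec890037813a00c09001011a3c00fe8c01852a3c00c27283f51d03e247038c14e80201c9ff1473fe895c079833a02ee0c47212887322600c204e860000000000000000403942e29285151b3c0080727db9123c00de70c0ac033a00de827ff51d02c25702ba0ce9a00404140f08d40b5053a22ea948020013a442090c8b0068440080911e1014c8fbaa31edb488010029d1f5d463f84950030833a1da4288030813a4481752100610874830921004004747b7510ff2254008014e8d000000000000000eac861ff6443efa958030843a3fc08881c92a00400674771030fe6224008008e89262511d6448018409d061dfa1845b920869a36009400e86000000000000000344c58039a50061448f01007c440080911e1200809401251a3c8c0100bc8f3a291d94acf400040413ef8891e34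400100bc92122924c4acf0f00000000000000018006f2f268e924f91133c25217240186940129123c0c037920037a34780150bc8e4a391fe4adcd0419d0040413f808e81152b80fc0674d0c000000000000000000000000000000000000000000000000000000000184bc96e23925d48dcf0c29d004a2f25b89139b7853a00805e431124927226e5dc0ce8300000a1fef4a401bc29d20544441d2950037833a080100bc9aaa592c644e07d009d006f2e5cb7829d00612f24ba953979833a00c25e4f012c97722704a804e8800000000000000000b8fbc23200c214e80201ea0d14741f695c0f0033a22ba9441e91200400274800a09e9fca4a00c2619e2f44c6880100c50eaa40e5f2f0f080200150c51f025a37b44cf011fcb463dd8910030853a00de6287811d12da5705e40ce802018a2694b438289c8a1013a400150c076117478b0ffca52008014e8a0000000010242220da4a8018419d00543145f8968b051390f9027408ff7221fca4a801bc21d1fdf444018411d11e148401bc01d0a4401bc080f1a4026744cf090000000000000020035528037a247808b3084b006e25006f448f0100400202c49007fd133c2090064a50061448f021600a4940101123c0809c91002a01478493009f91002a0b02e64acf023284b002a0000fc16018e4d9e023001bc9803e8b4780ab10488a12e00c24c0314023c8001a8980200a478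01bc3012ea3025f4acf14002023005c488f00378602644604ae959e4000de8c0341223c3dc018831d19066a56008010e8fe30621724642b0958037823a20ea1849b1188ee25600a800e870000612d24988a47bd2b72cd08740184b48a0a290e848dc97011d104c0c21ac8c458123004000748181210061087481a91907624400c208e8fe9a2200de10e860000000004703b6cb00309fa0f644e079821d0eed2c00de7e815115026a4902ce08e920400c25a4f49249b223703f600e80201f0df02d41d88a85412c3c0cc0900000000000000000000000000000000000000000076e9600613f40a2959e200192880185223c24032518037a5478810d2100400874819d19077a4400c208e870000000008faa411c2468010001d00404a00ae8d1e00403f40e68a81612b80f308740184fcfff22501c208e88ee24200c200e8d7e440150fd0a4a5a0d744cf09000000000000000000018416600100c50b625502c010e803098302e208e80b10211d2468010001d2c00c2083718323c3c60ebe8a200c214e902225200de0ce8d0000000000011d14a4015009d006f04218e88436d2b3c0429a00540a22a28c43e52b3c5860500400420ca944165133c0858071a40061468f003d220040488f0e103424200c210e906da42008008ed0b124a2684400c261c0f2843b44cc880184c280d30474250aea4a2744400c261c0f3843a00c26289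ad150f2a4702f808e8700000003289191002518a24448e415401da14f4400806285f92b8172087443b028fa224400de08e80bf0211d6488018401d3142aa928b3d1003098703da10e870000000000000000000000403144c88a870d2381570474053c108e2a410e244c010001d163eee8c8030853a3ed694802a033a00de628d3d2d12522723b404e8603010010010835a5105a44cf0200d6440080911e122801bc106ed0647878030850f6d028f160040041afe191e1e00a80841c110861a5678080a5a20040488f1000000000000000800400a20fc88433d2b3c04600308210e34420e4959e0423a68801bc123c200100606f20b478119006f041c80191e2200801439b80a3c58610000378980378600ea16cf010fdd1600de091e100080083b10323c4401bc1076881478b91064c9a100cc0200a8191e006d020080191e3440c0037910075088f130000009b82003791034216cf3101c61602ac0401288b3c1809c858037934781ab1644281a08b0054228f09420198040150323c00da040100323c688181460515 = true := by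
  decide +kernel

noncomputable section

section
set_option deprecated.oldSectionVars false
variable {K : KFam} {dr : ℕ} {rr : SK} {w kl kr : ℂ}

/-- a digit `2` at an end behind the digit `1` -/
theorem m7_of (hK : KOK K) (Bx : BoxRows K) (t : RDt K 3 .s .s 2 .e dr rr w kl kr) :
    (⟨-(725 / 10000), -(440 / 10000), 370 / 10000, 560 / 10000, -(1120 / 10000),
      -(965 / 10000)⟩ : MWin).In (mH .s (RR w kl) (Complex.cos w)).im
      (yH .s (RR w kl) (Complex.cos w)).im := by
  have h2 := t.left.ok.right.symm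
  have ho := t.left.ok.left
  have hT := tan_sq (ne_of_re t.left.kre)
  have hq : RR w kl ^ 2 + 1 - 1 / Complex.cos w ^ 2 = 1 / kl ^ 2 := by
    rw [t.left.hinge]
    ring
  exact mw_mn (by norm_num) (tuseN hK Bx t (far_split Bx t.left) m7_1 mn mn mn mn
    (hK.inH ho k5ss_ok) (hK.inH h2 k3es_ok) (allS hK t rfl)
    ((OR.e : OR .s 2 3 .e _) hK hT hq t.left.out'))

end

section
set_option deprecated.oldSectionVars false
variable {M : ℕ} {b : Fin (M + 1) → ℤ} {w : ℕ → ℂ}

/-- the side of a digit `1`, by the class of the region behind it -/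
lemma Sd.one_of {h h2 : Fin M} {i j r : Fin (M + 1)} {p : Fin 3} {x : SK} {d : ℕ} {l : SK}
    (sd : Sd b i j p x d l) (A : Adj h i p j) (A3 : Adj h2 j p r) (hj : clsW b j = .one)
    (hui : us b i.val = false) (hr : clsW b r ≠ .one) :
    x = .s ∧ d = (b r).natAbs ∧ clsW b r = cK d l := by
  have hj1 := one_nat hj
  have huj : us b j.val = true := by
    by_contra hc
    rw [Bool.not_eq_true] at hc
    rcases A.elim with ⟨rfl, e1, e2⟩ | ⟨rfl, e1, e2⟩
    · have h5 : us b (i.val + 1) = true := by
        rw [us_succ, Bool.and_eq_true, decide_eq_true_eq, Bool.not_eq_true']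
        refine ⟨?_, hui⟩
        rw [show i.val + 1 = j.val by omega, bb_val, hj1]
      rw [show i.val + 1 = j.val by omega, hc] at h5
      exact absurd h5 (by decide)
    · have e3 : j.val = h2.val + 1 ∧ r.val = h2.val := by
        rcases A3.elim with ⟨h0, -⟩ | ⟨-, h1⟩
        · exact absurd h0 (by decide)
        · exact h1
      have hur : us b r.val = true := by
        by_contra hc2
        rw [Bool.not_eq_true] at hc2
        have h5 : us b (h2.val + 1) = true := by
          rw [us_succ, Bool.and_eq_true, decide_eq_true_eq, Bool.not_eq_true']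
          refine ⟨?_, by rwa [← e3.2]⟩
          rw [← e3.1, bb_val, hj1]
        rw [← e3.1, hc] at h5
        exact absurd h5 (by decide)
      apply hr
      have h6 := (us_true hur).2.1
      rw [bb_val] at h6
      simp [clsW, SR.cls, h6]
  exact ⟨sd.s huj, (sd.far A3 huj).1, (sd.far A3 huj).2⟩

set_option deprecated.oldSectionVars false
variable (hb : ClassW b) (F : RingFacts) (hw : Sol b w) (hM : 1 ≤ M) {K : KFam} (hK : KOK K)
  (hS : Snd K b w) (Bx : BoxRows K)

section
set_option deprecated.oldSectionVars false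
include hb F hw hS

/-- both sides and the inner variable of a digit `3` -/
theorem mid_sd {h h' : Fin M} {i j k : Fin (M + 1)} (A : Adj h i 0 j) (A' : Adj h' i 2 k)
    (h3 : (b i).natAbs = 3) (hm : (tyW b i).isMid = true) :
    ∃ (x x' : SK) (dl : ℕ) (ll : SK) (dr : ℕ) (rr : SK) (kl kr : ℂ),
      RDt K 3 x x' dl ll dr rr (oW b w i.val) kl kr ∧
      ofr (b i) (zsW b w (.inl (.inl h))) =
        yH x (RR (oW b w i.val) kl) (Complex.cos (oW b w i.val)) ∧
      ofr (b i) (zsW b w (.inl (.inr ⟨i, hm⟩))) =
        mH x (RR (oW b w i.val) kl) (Complex.cos (oW b w i.val)) ∧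
      ofr (b i) (zsW b w (.inl (.inl h'))) =
        yH x' (RR (oW b w i.val) kr) (Complex.cos (oW b w i.val)) ∧
      Sd b i j 0 x dl ll ∧ Sd b i k 2 x' dr rr ∧
      (us b j.val = true → ∀ {h2 : Fin M} {r : Fin (M + 1)}, Adj h2 j 0 r → (b r).natAbs = 1 →
        ll ≠ .e → ll = .s) := by
  have hui : us b i.val = false := us_of_abs (by omega)
  have e : i.val = h.val + 1 ∧ j.val = h.val := by
    rcases A.elim with ⟨h0, -⟩ | ⟨-, h1⟩
    · exact absurd h0 (by decide)
    · exact h1
  have e3 : i.val = h'.val ∧ k.val = h'.val + 1 := by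
    rcases A'.elim with ⟨-, h1⟩ | ⟨h0, -⟩
    · exact h1
    · exact absurd h0 (by decide)
  have hh := h'.2
  have hE := rdt hb F hw hS (n := i.val) (by omega) (by omega) hui
  rw [dg_val, h3] at hE
  refine ⟨lk b i.val, rk b i.val, _, _, _, _, oL b w i.val, oR b w i.val, hE, ?_, ?_, ?_,
    sd_left A, sd_right A', ?_⟩
  rotate_right
  · intro huj h2 r A3 hr1 hne
    have e2 : j.val = h2.val + 1 ∧ r.val = h2.val := by
      rcases A3.elim with ⟨h0, -⟩ | ⟨-, h1⟩
      · exact absurd h0 (by decide)
      · exact h1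
    have hur : us b r.val = false := by
      have h5 := (us_true huj).2.2.1
      rwa [show j.val - 1 = r.val by omega] at h5
    have hln : ln b i.val = r.val := by
      unfold ln
      rw [if_pos (by rwa [show i.val - 1 = j.val by omega])]
      omega
    rw [hln] at hne ⊢
    have hr0 : r.val ≠ 0 := by
      intro h0
      rw [h0] at hne
      exact hne rfl
    apply lk_s (by omega)
    by_contra hcn
    rw [Bool.not_eq_true] at hcn
    have h5 : us b (r.val - 1 + 1) = true := by
      rw [us_succ, Bool.and_eq_true, decide_eq_true_eq, Bool.not_eq_true']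
      refine ⟨?_, hcn⟩
      rw [show r.val - 1 + 1 = r.val by omega, bb_val, hr1]
    rw [show r.val - 1 + 1 = r.val by omega, hur] at h5
    exact absurd h5 (by decide)
  · rw [ofr_fz, zsW_val h (n := i.val - 1) (by omega),
      own_y_left hb F hw (n := i.val) (by omega) (by omega) hui]
  · have ez : zsW b w (.inl (.inr ⟨i, hm⟩)) = acot2 (Rm b w i.val) := rfl
    rw [ez, ofr_fz, ← acot2_fz, own_mid hb F hw (n := i.val) (by omega) (by omega) hui]
    rfl
  · have ey := own_y_right F hw (n := i.val) (by omega) hui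
    rw [ofr_fz, zsW_val h' e3.1.symm]
    exact ey

end

section
set_option deprecated.oldSectionVars false
include hb F hw hK hS Bx

/-- **The inner variable of a digit `3` of a word between two digits `1`.** -/
theorem locM4_of : LocM4 b (zsW b w) := by
  constructor
  intro h h' h2 i j k r hm A A' A3 hi hj hr hk
  have h3 := three_nat hi
  have hui : us b i.val = false := us_of_abs (by omega)
  obtain ⟨x, x', dl, ll, dr, rr, kl, kr, t, y1, y2, y3, s1, s2, -⟩ :=
    mid_sd hb F hw hS A A' h3 hm
  obtain ⟨rfl, hd, hc⟩ := s1.one_of A A3 hj hui (by rw [hr]; decide)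
  rw [hr] at hc
  have h9 : dl = 2 ∧ ll = .e := by
    have h10 := hc.symm
    unfold cK at h10
    split_ifs at h10
    exact ⟨by assumption, by assumption⟩
  obtain ⟨rfl, rfl⟩ := h9
  have huk : us b k.val = true := by
    have e3 : k.val = i.val + 1 := by
      rcases A'.elim with ⟨-, h1⟩ | ⟨h0, -⟩
      · omega
      · exact absurd h0 (by decide)
    rw [e3, us_succ, Bool.and_eq_true, decide_eq_true_eq, Bool.not_eq_true']
    refine ⟨?_, hui⟩
    rw [← e3, bb_val]
    exact one_nat hk
  have hx' := s2.s huk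
  subst hx'
  rw [← ofr_im, ← ofr_im, y1, y2]
  exact m7_of hK Bx t

end

end

end

end Pool.Agent.Work.MP_b30479_gtS.G2.CN.TD

end
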