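import Pool.Agent.Work.MP_b30479_gt.TBS.G2.CN.SDat
import Pool.Agent.Work.MP_b30479_gt.TBS.G2.CN.TGoal
import Pool.Agent.Work.MP_b30479_gt.TBS.G2.SZa

section

/-!
# Split hinges: classes of rings
-/

namespace Pool.Agent.Work.MP_b30479_gtS.G2.CN.S6

open Complex SR

noncomputable section

/-! ### the ports -/

section
variable {K : KFam} (hK : KOK K) {d₀ B : ℕ}
include hK

lemma pA1 (hd : d₀ ≤ 1) :
    InH {k | ∃ d l, ROK d l .a ∧ (2 ≤ d₀ ∨ 2 ≤ d) ∧ k ∈ K.K d l .a} HPA1 := by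
  rintro k ⟨d, l, h1, h2, h3⟩
  have h5 : 2 ≤ d := by omega
  have h6 := h1.zl
  refine hK.inU h1 HPA1_ok ?_ (min_le_right _ _) k h3
  unfold crs
  cases l
  · simp only [SK.u, lA1]; omega
  · simp only [SK.u, lA1]; omega
  · have := h6 rfl
    simp only [SK.u, lA1]; omega
  · simp only [SK.u, lA1]; omega

lemma pA2 : InH {k | ∃ d l, ROK d l .a ∧ (2 ≤ d₀ ∨ 2 ≤ d) ∧ k ∈ K.K d l .a} HPA2 := by
  rintro k ⟨d, l, h1, -, h3⟩
  exact hK.inU h1 HPA2_ok (lo_le h1 (by decide)) (min_le_right _ _) k h3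

lemma pZ : InH {k | ∃ d l, ROK d l .z ∧ k ∈ K.K d l .z} HPZ := by
  rintro k ⟨d, l, h1, h3⟩
  exact hK.inU h1 HPZ_ok (lo_le h1 (by decide)) (min_le_right _ _) k h3

lemma pS2 : InH {k | ∃ d l, ROK d l .s ∧ (3 ≤ B ∨ 3 ≤ crs d l .s) ∧ (d₀ ≤ 2 ∨ d ≤ 2) ∧
    k ∈ K.K d l .s} HPS2 := by
  rintro k ⟨d, l, h1, -, -, h3⟩
  exact hK.inU h1 HPS2_ok (lo_le h1 (by decide)) (min_le_right _ _) k h3

lemma pST (hB : B ≤ 2) : InH {k | ∃ d l, ROK d l .s ∧ (3 ≤ B ∨ 3 ≤ crs d l .s) ∧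
    (d₀ ≤ 2 ∨ d ≤ 2) ∧ k ∈ K.K d l .s} HPST := by
  rintro k ⟨d, l, h1, h2, -, h3⟩
  have h4 := lo_le h1 (by decide)
  have h5 : 3 ≤ crs d l .s := by omega
  refine hK.inU h1 HPST_ok ?_ (min_le_right _ _) k h3
  cases l
  · exact h4
  · show 3 ≤ _
    omega
  · exact h4
  · exact h4

lemma pS3 (hd : 3 ≤ d₀) : InH {k | ∃ d l, ROK d l .s ∧ (3 ≤ B ∨ 3 ≤ crs d l .s) ∧
    (d₀ ≤ 2 ∨ d ≤ 2) ∧ k ∈ K.K d l .s} HPS3 := by
  rintro k ⟨d, l, h1, -, h2, h3⟩
  have h5 : d ≤ 2 := by omega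
  have h6 := h1.zl
  refine hK.inU h1 HPS3_ok (lo_le h1 (by decide)) ?_ k h3
  unfold crs
  cases l
  · simp only [SK.u, hi3]; omega
  · simp only [SK.u, hi3]; omega
  · have := h6 rfl; omega
  · simp only [SK.u, hi3]; omega

end

lemma InH.pp {S : Set ℂ} {H : List QC} (h : InH S H) : InH (frS 1 S) H := h.fr

/-! ### side `s` -/

/-- digit `1` -/
def c1a : Cls := ⟨H2as, [gA2 (mirH HPA1)], [gD2 1 0 (mirH HPA1)]⟩

theorem c1a_ok : c1a.Ok .s 1 .a where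
  own := fun hK h => hK.inH h H2as_ok
  L := fun hK _ _ _ hq h => ok1 (gA2_ok (pA1 hK le_rfl).mir hq h)
  R := fun hK _ _ _ hq h => ok1 (gD2_ok one_I (pA1 hK le_rfl).mir.fr hq h)

/-- digit `1`, two split sides -/
def c1s : Cls := ⟨H3ss, [gA3 HPS2], [gD3 1 0 HPS2]⟩

theorem c1s_ok : c1s.Ok .s 1 .s where
  own := fun hK h => hK.inH h H3ss_ok
  L := fun hK _ _ _ hq h => ok1 (gA3_ok (pS2 hK) hq h)
  R := fun hK _ _ _ hq h => ok1 (gD3_ok one_I (pS2 hK).fr hq h)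

/-- digit `2`, end -/
def c2e : Cls := ⟨H3es, [gF3], [gE3 1 0]⟩

theorem c2e_ok : c2e.Ok .s 2 .e where
  own := fun hK h => hK.inH h H3es_ok
  L := fun _ _ _ _ _ h => ok1 (gF3_ok h)
  R := fun _ _ _ _ hq h => ok1 (gE3_ok one_I hq h)

/-- digit `2` -/
def c2a : Cls := ⟨H3as, [gA3 (mirH HPA2)], [gD3 1 0 (mirH HPA2)]⟩

theorem c2a_ok : c2a.Ok .s 2 .a where
  own := fun hK h => hK.inH h H3as_ok
  L := fun hK _ _ _ hq h => ok1 (gA3_ok (pA2 hK).mir hq h)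
  R := fun hK _ _ _ hq h => ok1 (gD3_ok one_I (pA2 hK).mir.fr hq h)

/-- digit `2`, two split sides -/
def c2s : Cls := ⟨H4ss, [gA4 HPS2], [gD4 1 0 HPS2]⟩

theorem c2s_ok : c2s.Ok .s 2 .s where
  own := fun hK h => hK.inH h H4ss_ok
  L := fun hK _ _ _ hq h => ok1 (gA4_ok (pS2 hK) hq h)
  R := fun hK _ _ _ hq h => ok1 (gD4_ok one_I (pS2 hK).fr hq h)

/-- digit `3`, end -/
def c3e : Cls := ⟨H4es, [gF4], [gE4 1 0]⟩

theorem c3e_ok : c3e.Ok .s 3 .e where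
  own := fun hK h => hK.inH h H4es_ok
  L := fun _ _ _ _ _ h => ok1 (gF4_ok h)
  R := fun _ _ _ _ hq h => ok1 (gE4_ok one_I hq h)

/-- digit `3` -/
def c3a : Cls := ⟨H4as, [gA4 (mirH HPA2)], [gD4 1 0 (mirH HPA2)]⟩

theorem c3a_ok : c3a.Ok .s 3 .a where
  own := fun hK h => hK.inH h H4as_ok
  L := fun hK _ _ _ hq h => ok1 (gA4_ok (pA2 hK).mir hq h)
  R := fun hK _ _ _ hq h => ok1 (gD4_ok one_I (pA2 hK).mir.fr hq h)

/-- digit `3`, two split sides -/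
def c3s : Cls := ⟨H5ss, [gA5 HPS3], [gD5 1 0 HPS3]⟩

theorem c3s_ok : c3s.Ok .s 3 .s where
  own := fun hK h => hK.inH h H5ss_ok
  L := fun hK _ _ _ hq h => ok1 (gA5_ok (pS3 hK (by decide)) hq h)
  R := fun hK _ _ _ hq h => ok1 (gD5_ok one_I (pS3 hK (by decide)).fr hq h)

/-- digit `4`, end -/
def c4e : Cls := ⟨H5es, [gF5], [gE5 1 0]⟩

theorem c4e_ok : c4e.Ok .s 4 .e where
  own := fun hK h => hK.inH h H5es_ok
  L := fun _ _ _ _ _ h => ok1 (gF5_ok h)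
  R := fun _ _ _ _ hq h => ok1 (gE5_ok one_I hq h)

/-- digit `4` -/
def c4a : Cls := ⟨H5as, [gA5 (mirH HPA2)], [gD5 1 0 (mirH HPA2)]⟩

theorem c4a_ok : c4a.Ok .s 4 .a where
  own := fun hK h => hK.inH h H5as_ok
  L := fun hK _ _ _ hq h => ok1 (gA5_ok (pA2 hK).mir hq h)
  R := fun hK _ _ _ hq h => ok1 (gD5_ok one_I (pA2 hK).mir.fr hq h)

/-- digit `4`, side `z` -/
def c4z : Cls := ⟨H5zs, [gA5 HPZ], [gD5 1 0 HPZ]⟩

theorem c4z_ok : c4z.Ok .s 4 .z where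
  own := fun hK h => hK.inH h H5zs_ok
  L := fun hK _ _ _ hq h => ok1 (gA5_ok (pZ hK) hq h)
  R := fun hK _ _ _ hq h => ok1 (gD5_ok one_I (pZ hK).fr hq h)

/-- digit `4`, two split sides -/
def c4s : Cls := ⟨H6ss, [], []⟩

theorem c4s_ok : c4s.Ok .s 4 .s where
  own := fun hK h => hK.inH h H6ss_ok
  L := fun _ _ _ _ _ _ => AllOk.nil
  R := fun _ _ _ _ _ _ => AllOk.nil

/-- digit `5` -/
def cD5 : Cls := ⟨HD5, [], []⟩

theorem cD5_ok {l : SK} : cD5.Ok .s 5 l where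
  own := fun hK h => by
    refine hK.inU h HD5_ok ?_ ?_
    · unfold crs
      cases l <;> simp only [SK.u, lD5] <;> omega
    · unfold crs
      cases l <;> simp only [SK.u, hD5] <;> omega
  L := fun _ _ _ _ _ _ => AllOk.nil
  R := fun _ _ _ _ _ _ => AllOk.nil

/-- digits at least `4`, at least `6` crossings -/
def cZL : Cls := ⟨HZL, [], []⟩

theorem cZL_ok {d : ℕ} {l : SK} (hd : 6 ≤ crs d l .s) : cZL.Ok .s d l where
  own := fun hK h => by
    refine hK.inU h HZL_ok ?_ (min_le_right _ _)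
    unfold lZL
    omega
  L := fun _ _ _ _ _ _ => AllOk.nil
  R := fun _ _ _ _ _ _ => AllOk.nil

/-- digit `4`, `5` crossings -/
def cZ5 : Cls := ⟨HZ5, [], []⟩

theorem cZ5_ok {l : SK} (hl : l ≠ .s) : cZ5.Ok .s 4 l where
  own := fun hK h => by
    refine hK.inU h HZ5_ok ?_ ?_
    · unfold crs
      cases l <;> simp only [SK.u, lZ5] <;> first | omega | exact absurd rfl hl
    · unfold crs
      cases l <;> simp only [SK.u, S6.hZ5] <;> first | omega | exact absurd rfl hl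
  L := fun _ _ _ _ _ _ => AllOk.nil
  R := fun _ _ _ _ _ _ => AllOk.nil

/-- digits at least `4` -/
def cZS : Cls := ⟨HZS, [], []⟩

theorem cZS_ok {d : ℕ} {l : SK} (hd : 4 ≤ d) : cZS.Ok .s d l where
  own := fun hK h => by
    refine hK.inU h HZS_ok ?_ (min_le_right _ _)
    unfold crs
    cases l <;> simp only [SK.u, lZS] <;> omega
  L := fun _ _ _ _ _ _ => AllOk.nil
  R := fun _ _ _ _ _ _ => AllOk.nil

end

end Pool.Agent.Work.MP_b30479_gtS.G2.CN.S6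

end

section

/-!
# Split hinges: cases
-/

namespace Pool.Agent.Work.MP_b30479_gtS.G2.CN.S6

open Complex SR NumIs

/-- the cases of a ring at a split hinge -/
inductive CS
  | s1a | s1s | s2e | s2a | s2s | s3e | s3a | s3s | s4e | s4a | s4z | s4s | s5 | s6
  deriving DecidableEq

namespace CS

/-- the ring is in the case -/
def Has (d : ℕ) (l : SK) : CS → Prop
  | .s1a => d = 1 ∧ l = .a
  | .s1s => d = 1 ∧ l = .s
  | .s2e => d = 2 ∧ l = .e
  | .s2a => d = 2 ∧ l = .a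
  | .s2s => d = 2 ∧ l = .s
  | .s3e => d = 3 ∧ l = .e
  | .s3a => d = 3 ∧ l = .a
  | .s3s => d = 3 ∧ l = .s
  | .s4e => d = 4 ∧ l = .e
  | .s4a => d = 4 ∧ l = .a
  | .s4z => d = 4 ∧ l = .z
  | .s4s => d = 4 ∧ l = .s
  | .s5 => d = 5
  | .s6 => 6 ≤ d

/-- the class of the region -/
def cl : CS → Cl
  | .s1a | .s1s => .one
  | .s2e => .twoE
  | .s2a | .s2s => .two
  | .s3e => .threeE
  | .s3a | .s3s => .three
  | _ => .ring

/-- the digit, at most `6` -/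
def dig : CS → ℕ
  | .s1a | .s1s => 1
  | .s2e | .s2a | .s2s => 2
  | .s3e | .s3a | .s3s => 3
  | .s4e | .s4a | .s4z | .s4s => 4
  | .s5 => 5
  | .s6 => 6

lemma has_of {d : ℕ} {l : SK} (h : ROK d l .s) : ∃ c : CS, c.Has d l := by
  have h1 := h.pos
  have h2 := h.one
  have h3 := h.zl
  rcases Nat.lt_or_ge d 6 with h5 | h5
  · have h6 : d = 1 ∨ d = 2 ∨ d = 3 ∨ d = 4 ∨ d = 5 := by omega
    rcases h6 with rfl | rfl | rfl | rfl | rfl
    · cases l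
      · exact absurd rfl (h2 rfl).2.1
      · exact ⟨.s1a, rfl, rfl⟩
      · exact absurd (h3 rfl) (by decide)
      · exact ⟨.s1s, rfl, rfl⟩
    · cases l
      · exact ⟨.s2e, rfl, rfl⟩
      · exact ⟨.s2a, rfl, rfl⟩
      · exact absurd (h3 rfl) (by decide)
      · exact ⟨.s2s, rfl, rfl⟩
    · cases l
      · exact ⟨.s3e, rfl, rfl⟩
      · exact ⟨.s3a, rfl, rfl⟩
      · exact absurd (h3 rfl) (by decide)
      · exact ⟨.s3s, rfl, rfl⟩
    · cases l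
      · exact ⟨.s4e, rfl, rfl⟩
      · exact ⟨.s4a, rfl, rfl⟩
      · exact ⟨.s4z, rfl, rfl⟩
      · exact ⟨.s4s, rfl, rfl⟩
    · exact ⟨.s5, rfl⟩
  · exact ⟨.s6, h5⟩

lemma dig_of {c : CS} {d : ℕ} {l : SK} (h : c.Has d l) : min d 6 = c.dig := by
  cases c
  case s5 => rw [show d = 5 from h]; rfl
  case s6 => exact min_eq_right h
  all_goals
    obtain ⟨rfl, rfl⟩ := h
    rfl

lemma cl_eq {c : CS} {d : ℕ} {l : SK} (h : c.Has d l) : cK d l = c.cl := by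
  cases c
  case s5 => rw [show d = 5 from h]; rfl
  case s6 =>
    have h' : 6 ≤ d := h
    unfold cK
    rw [if_neg (by omega), if_neg (by omega), if_neg (by omega)]
    rfl
  all_goals
    obtain ⟨rfl, rfl⟩ := h
    rfl

noncomputable section

/-- the class -/
def cE : CS → Cls
  | .s1a => c1a
  | .s1s => c1s
  | .s2e => c2e
  | .s2a => c2a
  | .s2s => c2s
  | .s3e => c3e
  | .s3a => c3a
  | .s3s => c3s
  | .s4e => c4e
  | .s4a => c4a
  | .s4z => c4z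
  | .s4s => c4s
  | .s5 => cD5
  | .s6 => cZL

/-- at least `6` crossings: one class -/
def cL : CS → Cls
  | .s4s | .s5 | .s6 => cZL
  | c => c.cE

/-- digit `4` with `5` crossings: one class -/
def cM : CS → Cls
  | .s4e | .s4a | .s4z => cZ5
  | c => c.cL

/-- digits at least `4`: one class -/
def cZ : CS → Cls
  | .s4e | .s4a | .s4z | .s4s | .s5 | .s6 => cZS
  | c => c.cE

end

section
variable {c : CS} {d : ℕ} {l : SK}

lemma okE (h : c.Has d l) : c.cE.Ok .s d l := by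
  cases c
  case s5 =>
    obtain rfl : d = 5 := h
    exact cD5_ok
  case s6 =>
    have h' : 6 ≤ d := h
    exact cZL_ok (by unfold crs; omega)
  case s1a => obtain ⟨rfl, rfl⟩ := h; exact c1a_ok
  case s1s => obtain ⟨rfl, rfl⟩ := h; exact c1s_ok
  case s2e => obtain ⟨rfl, rfl⟩ := h; exact c2e_ok
  case s2a => obtain ⟨rfl, rfl⟩ := h; exact c2a_ok
  case s2s => obtain ⟨rfl, rfl⟩ := h; exact c2s_ok
  case s3e => obtain ⟨rfl, rfl⟩ := h; exact c3e_ok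
  case s3a => obtain ⟨rfl, rfl⟩ := h; exact c3a_ok
  case s3s => obtain ⟨rfl, rfl⟩ := h; exact c3s_ok
  case s4e => obtain ⟨rfl, rfl⟩ := h; exact c4e_ok
  case s4a => obtain ⟨rfl, rfl⟩ := h; exact c4a_ok
  case s4z => obtain ⟨rfl, rfl⟩ := h; exact c4z_ok
  case s4s => obtain ⟨rfl, rfl⟩ := h; exact c4s_ok

lemma okL (h : c.Has d l) : c.cL.Ok .s d l := by
  cases c
  case s5 =>
    obtain rfl : d = 5 := h
    exact cZL_ok (by unfold crs; rw [show SK.s.u = 1 from rfl]; omega)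
  case s4s =>
    obtain ⟨rfl, rfl⟩ := h
    exact cZL_ok (by decide)
  all_goals exact okE h

lemma okM (h : c.Has d l) : c.cM.Ok .s d l := by
  cases c
  case s4e => obtain ⟨rfl, rfl⟩ := h; exact cZ5_ok (by decide)
  case s4a => obtain ⟨rfl, rfl⟩ := h; exact cZ5_ok (by decide)
  case s4z => obtain ⟨rfl, rfl⟩ := h; exact cZ5_ok (by decide)
  all_goals exact okL h

lemma okZ (h : c.Has d l) : c.cZ.Ok .s d l := by
  cases c
  case s4e => obtain ⟨rfl, rfl⟩ := h; exact cZS_ok le_rfl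
  case s4a => obtain ⟨rfl, rfl⟩ := h; exact cZS_ok le_rfl
  case s4z => obtain ⟨rfl, rfl⟩ := h; exact cZS_ok le_rfl
  case s4s => obtain ⟨rfl, rfl⟩ := h; exact cZS_ok le_rfl
  case s5 =>
    obtain rfl : d = 5 := h
    exact cZS_ok (by norm_num)
  case s6 =>
    have h' : 6 ≤ d := h
    exact cZS_ok (by omega)
  all_goals exact okE h

end

/-- the possible pairs -/
def adm (c c' : CS) : Bool :=
  (Nat.ble c.dig 2 || Nat.ble c'.dig 2) && !(decide (c = .s1a) && decide (c' = .s1a))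

lemma adm_of {c c' : CS} {d : ℕ} {l : SK} {d' : ℕ} {l' : SK} (h : c.Has d l) (h' : c'.Has d' l')
    (ho : HOK .s d l d' l') : adm c c' = true := by
  have h1 := dig_of h
  have h2 := dig_of h'
  have h3 := ho.one rfl
  have h4 := ho.abs rfl
  unfold adm
  rw [Bool.and_eq_true, Bool.or_eq_true, Nat.ble_eq, Nat.ble_eq]
  refine ⟨by omega, ?_⟩
  rw [Bool.not_eq_true', Bool.and_eq_false_iff]
  by_contra hc
  push Not at hc
  obtain ⟨h5, h6⟩ := hc
  have e1 : c = .s1a := by simpa using h5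
  have e2 : c' = .s1a := by simpa using h6
  subst e1 e2
  obtain ⟨rfl, rfl⟩ := h
  obtain ⟨rfl, rfl⟩ := h'
  exact absurd h4 (by decide)

end CS

/-! ### symmetry -/

/-- a split hinge, seen from the other side -/
lemma rev_s {K : KFam} {d : ℕ} {l : SK} {d' : ℕ} {l' : SK} {R k k' : ℂ}
    (h : HDt K .s d l d' l' R k k') : HDt K .s d' l' d l R k' k := by
  have h1 := h.rev
  rw [show SK.s.sgn = 1 from rfl, fz_one, fz_one, fz_one] at h1
  exact h1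

end Pool.Agent.Work.MP_b30479_gtS.G2.CN.S6

end
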