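import Pool.Agent.Work.MP_b30479_gt.TBS.G2.CN.SDat
import Pool.Agent.Work.MP_b30479_gt.TBS.G2.ZDa
import Pool.Agent.Work.MP_b30479_gt.TBS.G2.SWordL
import Pool.Agent.Work.MP_b30479_gt.TBS.G2.CN.HUn
import Pool.Agent.Work.MP_b30479_gt.TBS.G2.CN.SCls
import Pool.Agent.Work.MP_b30479_gt.TBS.G2.CN.SBx
import Pool.Agent.Work.MP_b30479_gt.TBS.G2.CN.SHalf
import Pool.Agent.Work.MP_b30479_gt.TBS.G2.CN.SRwQ
import Pool.Agent.Work.MP_b30479_gt.TBS.G2.CN.M3Mid
import Pool.Agent.Work.MP_b30479_gt.TBS.G2.WLocX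

section

/-!
# Two adjacent digits `1`: classes of the neighbours and use of the runs
-/

namespace Pool.Agent.Work.MP_b30479_gtS.G2.CN.PW

open Complex SR NumIs CN.Ev S6

noncomputable section

/-- the groups of a neighbour -/
structure NC where
  own : List QC
  V : List Grp
  U : List Grp

/-! ### the absorbed side -/

/-- digit `1`, the end digit `2` behind it -/
def p1X : NC := ⟨H2as, [vA2 (mirH h2ea), vX2 zeroQ], [uA2 (mirH h2ea), uX2 zeroQ]⟩
/-- digit `1`, not the end digit `2` behind it -/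
def p1Y : NC := ⟨H2as, [vA2 (mirH HPA1x)], [uA2 (mirH HPA1x)]⟩
/-- digit `1`, two split sides -/
def p1s : NC := ⟨H3ss, [vA3 HPS2], [uA3 HPS2]⟩
/-- digit `2`, end -/
def p2e : NC := ⟨H3es, [vF3 zeroQ], [uF3 zeroQ]⟩
/-- digit `2` -/
def p2a : NC := ⟨H3as, [vA3 (mirH HPA2)], [uA3 (mirH HPA2)]⟩
/-- digit `2`, two split sides -/
def p2s : NC := ⟨H4ss, [vA4 HPS2], []⟩
/-- digit `3`, end -/
def p3e : NC := ⟨H4es, [vF4 zeroQ], [uF4 zeroQ]⟩
/-- digit `3` -/
def p3a : NC := ⟨H4as, [vA4 (mirH HPA2)], []⟩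
/-- digit `3`, two split sides -/
def p3s : NC := ⟨H5ss, [vA5 HPS3], []⟩
/-- digits at least `4` -/
def pZ : NC := ⟨HZS, [], []⟩
/-- digit `4`, `5` crossings -/
def pZ5 : NC := ⟨HZ5, [], []⟩
/-- at least `6` crossings -/
def pZL : NC := ⟨HZL, [], []⟩

/-! ### the second neighbour, side `a` -/

/-- digit `2`, end -/
def q2e : NC := ⟨mirH h2ea, [vE2 zeroQ], [uE2 zeroQ]⟩
/-- digit `2` -/
def q2a : NC := ⟨mirH h2aa, [vD2 hA2], [uD2 hA2]⟩
/-- digit `2`, split side -/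
def q2s : NC := ⟨mirH h3as, [], [uD3 (mirH hS2)]⟩
/-- digit `3`, end -/
def q3e : NC := ⟨mirH h3ea, [vE3 zeroQ], [uE3 zeroQ]⟩
/-- digit `3` -/
def q3a : NC := ⟨mirH h3aa, [], [uD3 hA2]⟩
/-- digit `3`, split side -/
def q3s : NC := ⟨mirH h4as, [], [uD4 (mirH hS3)]⟩
/-- digit `4`, end -/
def q4e : NC := ⟨mirH h4ea, [vE4 zeroQ], [uE4 zeroQ]⟩
/-- digit `4` -/
def q4a : NC := ⟨mirH h4aa, [], [uD4 hA2]⟩
/-- digit `4`, side `z` -/
def q4z : NC := ⟨mirH h4az, [], [uD4 (mirH hPZ)]⟩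
/-- digit `4`, split side -/
def q4s : NC := ⟨mirH h5as, [], [uD5 (mirH hS3)]⟩
/-- digits at least `5` -/
def q5 : NC := ⟨mirH hn5, [], []⟩

/-! ### the second neighbour, side `s` -/

/-- all rings -/
def r2 : NC := ⟨HPS2, [], []⟩
/-- without the end digit `2` -/
def r3 : NC := ⟨HPS2x, [], []⟩
/-- without the end digit `2` and the digit `1` with one split side -/
def r4 : NC := ⟨HPSTx, [], []⟩
/-- the end digit `2` -/
def r2e : NC := ⟨H3es, [], [uG3 zeroQ]⟩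
/-- digit `1` with one split side -/
def r1a : NC := ⟨H2as, [], [uS2 (mirH HPA1)]⟩
/-- digit `1` with one split side, the end digit `2` behind it -/
def r1X : NC := ⟨H2as, [], [uS2 (mirH h2ea), uX3 zeroQ]⟩
/-- digit `1` with one split side, not the end digit `2` behind it -/
def r1Y : NC := ⟨H2as, [], [uS2 (mirH HPA1x)]⟩

/-- digit `3`, end -/
def r3e : NC := ⟨H4es, [], [uG4 zeroQ]⟩
/-- digit `2` -/
def r2a : NC := ⟨H3as, [], [uS3 (mirH HPA2)]⟩
/-- digit `2`, two split sides -/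
def r2s : NC := ⟨H4ss, [], []⟩
/-- digits at least `4` -/
def rZ : NC := ⟨HZS, [], []⟩

/-- the groups, side `a` -/
def aU (P Q : NC) : List Grp := uJ H2as :: uP P.own :: uQ Q.own :: (P.U ++ Q.U)
/-- the groups, side `a` -/
def aV (P Q : NC) : List Grp := vJ H2as :: vP P.own :: vQ Q.own :: (P.V ++ Q.V)
/-- the groups, side `s` -/
def sU (P Q : NC) : List Grp := uJ H3ss :: uP P.own :: uR Q.own :: (P.U ++ Q.U)
/-- the groups, side `s` -/
def sV (P Q : NC) : List Grp := vJ H3ss :: vP P.own :: vR Q.own :: (P.V ++ Q.V)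

/-! ### selection -/

/-- the elements selected by the binary digits of `m` -/
def pk {α : Type} (l : List α) : ℕ → List α :=
  @List.rec α (fun _ => ℕ → List α) (fun _ => [])
    (fun a _ ih m => @cond (List α) (Nat.beq (Nat.mod m 2) 1) (a :: ih (Nat.div m 2))
      (ih (Nat.div m 2))) l

lemma pk_cons {α : Type} (a : α) (l : List α) (m : ℕ) : pk (a :: l) m =
    cond (Nat.beq (Nat.mod m 2) 1) (a :: pk l (Nat.div m 2)) (pk l (Nat.div m 2)) := rfl

lemma pk_sub {α : Type} {x : α} : ∀ (l : List α) (m : ℕ), x ∈ pk l m → x ∈ l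
  | [], _, h => absurd h List.not_mem_nil
  | a :: l, m, h => by
    rw [pk_cons] at h
    cases hb : Nat.beq (Nat.mod m 2) 1
    · rw [hb, cond_false] at h
      exact List.mem_cons_of_mem _ (pk_sub l _ h)
    · rw [hb, cond_true] at h
      rcases List.mem_cons.1 h with rfl | h'
      · exact List.mem_cons_self
      · exact List.mem_cons_of_mem _ (pk_sub l _ h')

/-- every element is selected by one of the two numbers -/
def cv {α : Type} (l : List α) : ℕ → ℕ → Bool :=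
  @List.rec α (fun _ => ℕ → ℕ → Bool) (fun _ _ => true)
    (fun _ _ ih m n => (Nat.beq (Nat.mod m 2) 1 || Nat.beq (Nat.mod n 2) 1) &&
      ih (Nat.div m 2) (Nat.div n 2)) l

lemma cv_mem {α : Type} {x : α} : ∀ (l : List α) (m n : ℕ), cv l m n = true → x ∈ l →
    x ∈ pk l m ∨ x ∈ pk l n
  | [], _, _, _, h => absurd h List.not_mem_nil
  | a :: l, m, n, hc, h => by
    have hc' : ((Nat.beq (Nat.mod m 2) 1 || Nat.beq (Nat.mod n 2) 1) &&
      cv l (Nat.div m 2) (Nat.div n 2)) = true := hc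
    rw [Bool.and_eq_true, Bool.or_eq_true] at hc'
    obtain ⟨h1, h2⟩ := hc'
    rw [pk_cons, pk_cons]
    rcases List.mem_cons.1 h with rfl | h'
    · rcases h1 with h1 | h1
      · left
        rw [h1, cond_true]
        exact List.mem_cons_self
      · right
        rw [h1, cond_true]
        exact List.mem_cons_self
    · rcases cv_mem l _ _ h2 h' with h3 | h3
      · left
        cases Nat.beq (Nat.mod m 2) 1
        · exact h3
        · exact List.mem_cons_of_mem _ h3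
      · right
        cases Nat.beq (Nat.mod n 2) 1
        · exact h3
        · exact List.mem_cons_of_mem _ h3

/-- fewer conditions -/
def Grp.pk (g : Grp) (m : ℕ) : Grp := ⟨g.N, g.M, g.hd, PW.pk g.H m⟩

/-- fewer conditions in every group -/
def pks (ms : List ℕ) : List Grp → List Grp :=
  @List.rec ℕ (fun _ => List Grp → List Grp) (fun _ => [])
    (fun m _ ih l => @List.rec Grp (fun _ => List Grp) [] (fun g l' _ => Grp.pk g m :: ih l') l) ms

lemma Grp.pk_ok {g : Grp} {u w : ℂ} (h : g.Ok u w) (m : ℕ) : (Grp.pk g m).Ok u w := by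
  obtain ⟨c, h1, h2⟩ := h
  exact ⟨c, h1, fun Q hQ => h2 Q (pk_sub _ _ hQ)⟩

lemma pks_ok {u w : ℂ} : ∀ (ms : List ℕ) (l : List Grp), AllOk u w l → AllOk u w (pks ms l)
  | [], _, _ => AllOk.nil
  | _ :: _, [], _ => AllOk.nil
  | m :: ms, g :: l, h => AllOk.cons (Grp.pk_ok (h g List.mem_cons_self) m)
      (pks_ok ms l fun x hx => h x (List.mem_cons_of_mem _ hx))

/-! ### bounds -/

/-- the conditions of one kind -/
def kd (i : ℕ) (l : List (ℕ × GC)) : List QC :=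
  @List.rec (ℕ × GC) (fun _ => List QC) []
    (fun a _ ih => @cond (List QC) (Nat.beq a.1 i) (a.2.q :: ih) ih) l

lemma kd_mem {i : ℕ} {x : ℕ × GC} (hi : x.1 = i) : ∀ (l : List (ℕ × GC)), x ∈ l →
    x.2.q ∈ kd i l
  | [], h => absurd h List.not_mem_nil
  | a :: l, h => by
    have e : kd i (a :: l) = cond (Nat.beq a.1 i) (a.2.q :: kd i l) (kd i l) := rfl
    rw [e]
    rcases List.mem_cons.1 h with rfl | h'
    · rw [hi, Nat.beq_refl, cond_true]
      exact List.mem_cons_self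
    · have := kd_mem hi l h'
      cases Nat.beq a.1 i
      · exact this
      · exact List.mem_cons_of_mem _ this

/-- the goals, variables `U`, `V` -/
def goU (l : List (ℕ × GC)) : List Grp :=
  [ugT (kd 0 l), ugK (kd 1 l), ugR (kd 2 l), ugA (kd 3 l), ugB (kd 4 l), ugC (kd 5 l)]
/-- the goals, variables `V`, `W` -/
def goV (l : List (ℕ × GC)) : List Grp :=
  [vgT (kd 0 l), vgK (kd 1 l), vgR (kd 2 l), vgA (kd 3 l), vgB (kd 4 l), vgC (kd 5 l)]

/-- the variable of a kind -/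
def yk (yU yV yW : ℂ) : ℕ → ℂ
  | 0 => yV
  | 1 => yW
  | 2 => yU
  | 3 => yV + yW
  | 4 => yV + yU
  | _ => yU - yW

/-- all bounds hold -/
def Bd (yU yV yW : ℂ) (l : List (ℕ × GC)) : Prop := ∀ x ∈ l, x.2.P (yk yU yV yW x.1)

/-- the check of the bounds -/
def okL (l : List (ℕ × GC)) : Bool := l.all fun x => x.2.ok && Nat.ble x.1 5

lemma Bd.sub {yU yV yW : ℂ} {l l' : List (ℕ × GC)} (h : Bd yU yV yW l)
    (hs : ∀ x ∈ l', x ∈ l) : Bd yU yV yW l' := fun x hx => h x (hs x hx)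

/-- two parts give all bounds -/
lemma Bd.join {yU yV yW : ℂ} {l : List (ℕ × GC)} {m n : ℕ} (h : Bd yU yV yW (pk l m))
    (h' : Bd yU yV yW (pk l n)) (hc : cv l m n = true) : Bd yU yV yW l := by
  intro x hx
  rcases cv_mem l m n hc hx with h1 | h1
  · exact h x h1
  · exact h' x h1

/-- a rectangle -/
structure RC where
  x0 : ℕ
  x1 : ℕ
  y0 : ℕ
  y1 : ℕ

/-- the point is in the rectangle -/
def RC.Mem (c : RC) (z : ℂ) : Prop := InI c.x0 c.x1 z.re ∧ InI c.y0 c.y1 z.im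

/-- the product of two rectangles -/
def RC.cell (a b : RC) : Cell := ⟨a.x0, a.x1, a.y0, a.y1, b.x0, b.x1, b.y0, b.y1⟩

lemma RC.cell_mem {a b : RC} {u w : ℂ} (h : a.Mem u) (h' : b.Mem w) : (a.cell b).Mem u w :=
  ⟨h.1, h.2, h'.1, h'.2⟩

/-- the data at a pair of digits `1` -/
structure Dat (gU gV : List Grp) (cU cV cW : RC) (U V W yU yV yW : ℂ) : Prop where
  pv : PV U V W
  eU : cexp (2 * Real.pi * I * yU) * (U - I) = U + I
  eV : cexp (2 * Real.pi * I * yV) * (V - I) = V + I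
  eW : cexp (2 * Real.pi * I * yW) * (W - I) = W + I
  gu : AllOk U V gU
  gv : AllOk V W gV
  mU : cU.Mem U
  mV : cV.Mem V
  mW : cW.Mem W

section
variable {gU gV : List Grp} {cU cV cW : RC} {U V W yU yV yW : ℂ}
  (D : Dat gU gV cU cV cW U V W yU yV yW)
include D

lemma kinds {i : ℕ} (hi : i ≤ 5) {l : List (ℕ × GC)} :
    ∃ g ∈ goU l, g.H = kd i l ∧
      EG (cexp (2 * Real.pi * I * yk yU yV yW i)) g U V := by
  have h : i = 0 ∨ i = 1 ∨ i = 2 ∨ i = 3 ∨ i = 4 ∨ i = 5 := by omega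
  rcases h with rfl | rfl | rfl | rfl | rfl | rfl
  · exact ⟨ugT (kd 0 l), by simp only [goU, List.mem_cons, true_or], rfl,
      eugT (U := U) D.eV _⟩
  · exact ⟨ugK (kd 1 l), by simp only [goU, List.mem_cons, true_or, or_true], rfl,
      eugK D.pv D.eW _⟩
  · exact ⟨ugR (kd 2 l), by simp only [goU, List.mem_cons, true_or, or_true], rfl,
      eugR (V := V) D.eU _⟩
  · exact ⟨ugA (kd 3 l), by simp only [goU, List.mem_cons, true_or, or_true], rfl,
      eugA D.pv D.eV D.eW _⟩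
  · exact ⟨ugB (kd 4 l), by simp only [goU, List.mem_cons, true_or, or_true], rfl,
      eugB D.eU D.eV _⟩
  · exact ⟨ugC (kd 5 l), by simp only [goU, List.mem_cons, true_or, or_true], rfl,
      eugC D.pv D.eU D.eW _⟩

lemma kindsV {i : ℕ} (hi : i ≤ 5) {l : List (ℕ × GC)} :
    ∃ g ∈ goV l, g.H = kd i l ∧
      EG (cexp (2 * Real.pi * I * yk yU yV yW i)) g V W := by
  have h : i = 0 ∨ i = 1 ∨ i = 2 ∨ i = 3 ∨ i = 4 ∨ i = 5 := by omega
  rcases h with rfl | rfl | rfl | rfl | rfl | rfl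
  · exact ⟨vgT (kd 0 l), by simp only [goV, List.mem_cons, true_or], rfl,
      evgT (W := W) D.eV _⟩
  · exact ⟨vgK (kd 1 l), by simp only [goV, List.mem_cons, true_or, or_true], rfl,
      evgK (V := V) D.eW _⟩
  · exact ⟨vgR (kd 2 l), by simp only [goV, List.mem_cons, true_or, or_true], rfl,
      evgR D.pv D.eU _⟩
  · exact ⟨vgA (kd 3 l), by simp only [goV, List.mem_cons, true_or, or_true], rfl,
      evgA D.eV D.eW _⟩
  · exact ⟨vgB (kd 4 l), by simp only [goV, List.mem_cons, true_or, or_true], rfl,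
      evgB D.pv D.eU D.eV _⟩
  · exact ⟨vgC (kd 5 l), by simp only [goV, List.mem_cons, true_or, or_true], rfl,
      evgC D.pv D.eU D.eW _⟩

/-- a run in the variables `U`, `V` -/
theorem runU {ms : List ℕ} {l : List (ℕ × GC)} {n code : ℕ} (ho : okL l = true)
    (hr : row (pks ms gU) (goU l) n code (cU.cell cV) = true) : Bd yU yV yW l := by
  intro x hx
  have h1 := List.all_eq_true.1 ho x hx
  rw [Bool.and_eq_true, Nat.ble_eq] at h1
  refine GC.spec h1.1 ?_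
  obtain ⟨g, hg, hH, he⟩ := kinds D h1.2 (l := l)
  refine row_sound hr (RC.cell_mem D.mU D.mV) (pks_ok ms gU D.gu) hg he _ ?_
  rw [hH]
  exact kd_mem rfl l hx

/-- a run in the variables `V`, `W` -/
theorem runV {ms : List ℕ} {l : List (ℕ × GC)} {n code : ℕ} (ho : okL l = true)
    (hr : row (pks ms gV) (goV l) n code (cV.cell cW) = true) : Bd yU yV yW l := by
  intro x hx
  have h1 := List.all_eq_true.1 ho x hx
  rw [Bool.and_eq_true, Nat.ble_eq] at h1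
  refine GC.spec h1.1 ?_
  obtain ⟨g, hg, hH, he⟩ := kindsV D h1.2 (l := l)
  refine row_sound hr (RC.cell_mem D.mV D.mW) (pks_ok ms gV D.gv) hg he _ ?_
  rw [hH]
  exact kd_mem rfl l hx

end

end

end Pool.Agent.Work.MP_b30479_gtS.G2.CN.PW

end

section

/-!
# Two adjacent digits `1`: from boxes to rectangles
-/

namespace Pool.Agent.Work.MP_b30479_gtS.G2.CN.PW

open Complex SR NumIs CN.Ev S6

noncomputable section

/-- a box of a hinge variable with the data of its four conditions -/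
structure BG where
  n0 : ℕ
  n1 : ℕ
  m0 : ℤ
  m1 : ℤ
  a : ℤ
  b : ℤ
  a' : ℤ
  b' : ℤ
  c0 : ℤ
  c1 : ℤ

namespace BG

/-- the bounds -/
def L (s : BG) : List GC :=
  [.arc s.n0 s.n1 s.a s.b, .arc s.n0 s.n1 s.a' s.b', .lo s.m0 s.c0, .hi s.m1 s.c1]

/-- the conditions on the exponential -/
def H (s : BG) : List QC :=
  [⟨s.a, s.b, 0, 0⟩, ⟨s.a', s.b', 0, 0⟩, ⟨0, 0, 1000000, -s.c0⟩, ⟨0, 0, -1000000, s.c1⟩]

/-- the check -/
def ok (s : BG) : Bool := s.L.all GC.oki && Nat.ble 1667 s.n0 && Nat.ble s.n1 8333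

/-- the variable is in the box -/
structure In (s : BG) (y : ℂ) : Prop where
  x0 : (s.n0 : ℝ) / 10000 ≤ y.re
  x1 : y.re ≤ (s.n1 : ℝ) / 10000
  t0 : (s.m0 : ℝ) / 10000 ≤ y.im
  t1 : y.im ≤ (s.m1 : ℝ) / 10000

/-- the box of a table is a part -/
def sub (s : BG) (b : BB) : Bool :=
  Nat.ble s.n0 b.n0 && (Nat.ble b.n1 s.n1 || Nat.ble 5000 s.n1) && decide (s.m0 ≤ b.m0) &&
    decide (b.m1 ≤ s.m1)

theorem In.of {s : BG} {b : BB} (h : s.sub b = true) {y : ℂ} (hb : b.box.In y)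
    (hh : y.re < 1 / 2) : s.In y := by
  unfold sub at h
  rw [Bool.and_eq_true, Bool.and_eq_true, Bool.and_eq_true, Bool.or_eq_true, Nat.ble_eq,
    Nat.ble_eq, Nat.ble_eq, decide_eq_true_eq, decide_eq_true_eq] at h
  obtain ⟨⟨⟨h1, h2⟩, h3⟩, h4⟩ := h
  obtain ⟨b1, b2, b3, b4⟩ := hb
  change (b.n0 : ℝ) / 10000 ≤ y.re at b1
  change y.re ≤ (b.n1 : ℝ) / 10000 at b2
  change (b.m0 : ℝ) / 10000 ≤ y.im at b3
  change y.im ≤ (b.m1 : ℝ) / 10000 at b4
  have e1 : (s.n0 : ℝ) ≤ b.n0 := by exact_mod_cast h1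
  have e3 : (s.m0 : ℝ) ≤ b.m0 := by exact_mod_cast h3
  have e4 : (b.m1 : ℝ) ≤ s.m1 := by exact_mod_cast h4
  refine ⟨by linarith only [b1, e1], ?_, by linarith only [b3, e3], by linarith only [b4, e4]⟩
  rcases h2 with h2 | h2
  · have : (b.n1 : ℝ) ≤ s.n1 := by exact_mod_cast h2
    linarith only [b2, this]
  · have : (5000 : ℝ) ≤ s.n1 := by exact_mod_cast h2
    linarith only [hh, this]

/-- the box of a table is a part, no bound by `1 / 2` -/
def sub' (s : BG) (b : BB) : Bool :=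
  Nat.ble s.n0 b.n0 && Nat.ble b.n1 s.n1 && decide (s.m0 ≤ b.m0) && decide (b.m1 ≤ s.m1)

theorem In.of' {s : BG} {b : BB} (h : s.sub' b = true) {y : ℂ} (hb : b.box.In y) : s.In y := by
  unfold sub' at h
  rw [Bool.and_eq_true, Bool.and_eq_true, Bool.and_eq_true, Nat.ble_eq,
    Nat.ble_eq, decide_eq_true_eq, decide_eq_true_eq] at h
  obtain ⟨⟨⟨h1, h2⟩, h3⟩, h4⟩ := h
  obtain ⟨b1, b2, b3, b4⟩ := hb
  change (b.n0 : ℝ) / 10000 ≤ y.re at b1
  change y.re ≤ (b.n1 : ℝ) / 10000 at b2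
  change (b.m0 : ℝ) / 10000 ≤ y.im at b3
  change y.im ≤ (b.m1 : ℝ) / 10000 at b4
  have e1 : (s.n0 : ℝ) ≤ b.n0 := by exact_mod_cast h1
  have e2 : (b.n1 : ℝ) ≤ s.n1 := by exact_mod_cast h2
  have e3 : (s.m0 : ℝ) ≤ b.m0 := by exact_mod_cast h3
  have e4 : (b.m1 : ℝ) ≤ s.m1 := by exact_mod_cast h4
  exact ⟨by linarith only [b1, e1], by linarith only [b2, e2], by linarith only [b3, e3], by linarith only [b4, e4]⟩

/-- the conditions hold -/
theorem sat {s : BG} (h : s.ok = true) {y : ℂ} (hy : s.In y) :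
    Sat s.H (cexp (2 * Real.pi * I * y)) := by
  unfold ok at h
  rw [Bool.and_eq_true, Bool.and_eq_true] at h
  have h1 := List.all_eq_true.1 h.1.1
  intro Q hQ
  have g1 := GC.imp (h1 (.arc s.n0 s.n1 s.a s.b) (by simp [L])) (y := y) ⟨hy.x0, hy.x1⟩
  have g2 := GC.imp (h1 (.arc s.n0 s.n1 s.a' s.b') (by simp [L])) (y := y) ⟨hy.x0, hy.x1⟩
  have g3 := GC.imp (h1 (.lo s.m0 s.c0) (by simp [L])) (y := y) hy.t0
  have g4 := GC.imp (h1 (.hi s.m1 s.c1) (by simp [L])) (y := y) hy.t1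
  unfold H at hQ
  simp only [List.mem_cons, List.not_mem_nil, or_false] at hQ
  rcases hQ with rfl | rfl | rfl | rfl
  · exact g1
  · exact g2
  · exact g3
  · exact g4

end BG

/-- the variable is bounded -/
theorem norm_lt_two {y z : ℂ} (h0 : 1 / 6 ≤ y.re) (h1 : y.re ≤ 5 / 6)
    (he : cexp (2 * Real.pi * I * y) * (z - I) = z + I) : ‖z‖ < 2 := by
  have hpi := Real.pi_pos
  have hc : Real.cos (2 * Real.pi * y.re) ≤ 1 / 2 := by
    rcases le_total y.re (1 / 2) with h | h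
    · have := Real.cos_le_cos_of_nonneg_of_le_pi (x := Real.pi / 3) (y := 2 * Real.pi * y.re)
        (by positivity) (by nlinarith only [hpi, h]) (by nlinarith only [h0, hpi])
      rw [Real.cos_pi_div_three] at this
      exact this
    · have e : Real.cos (2 * Real.pi * y.re) = Real.cos (2 * Real.pi - 2 * Real.pi * y.re) := by
        rw [Real.cos_two_pi_sub]
      rw [e]
      have := Real.cos_le_cos_of_nonneg_of_le_pi (x := Real.pi / 3)
        (y := 2 * Real.pi - 2 * Real.pi * y.re) (by positivity) (by nlinarith only [hpi, h]) (by nlinarith only [h1, hpi])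
      rw [Real.cos_pi_div_three] at this
      exact this
  have hp := Real.exp_pos (-(2 * Real.pi * y.im))
  have r1 := exp_re y
  have r2 := exp_im y
  have r3 : ‖cexp (2 * Real.pi * I * y)‖ = Real.exp (-(2 * Real.pi * y.im)) := by
    rw [Complex.norm_exp]
    congr 1
    simp
  generalize cexp (2 * Real.pi * I * y) = E at *
  have e1 : z * (E - 1) = I * (E + 1) := by linear_combination he
  have e2 : ‖z‖ * ‖E - 1‖ = ‖E + 1‖ := by
    rw [← norm_mul, e1, norm_mul, Complex.norm_I, one_mul]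
  have n1 : ‖E - 1‖ ^ 2 = ‖E‖ ^ 2 - 2 * E.re + 1 := by
    rw [← Complex.normSq_eq_norm_sq, ← Complex.normSq_eq_norm_sq, Complex.normSq_apply,
      Complex.normSq_apply]
    simp
    ring
  have n2 : ‖E + 1‖ ^ 2 = ‖E‖ ^ 2 + 2 * E.re + 1 := by
    rw [← Complex.normSq_eq_norm_sq, ← Complex.normSq_eq_norm_sq, Complex.normSq_apply,
      Complex.normSq_apply]
    simp
    ring
  have hr : E.re ≤ ‖E‖ / 2 := by
    rw [r1, r3]
    nlinarith only [hc, hp]
  have h2 : ‖E + 1‖ ^ 2 < 4 * ‖E - 1‖ ^ 2 := by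
    rw [n1, n2]
    nlinarith only [hr, norm_nonneg E, sq_nonneg (‖E‖ - 5 / 6)]
  by_contra hcon
  push Not at hcon
  have h3 : 2 * ‖E - 1‖ ≤ ‖E + 1‖ := by
    rw [← e2]
    exact mul_le_mul_of_nonneg_right hcon (norm_nonneg _)
  nlinarith only [h2, hcon, e2, h3, norm_nonneg (E - 1), norm_nonneg (E + 1)]

/-- the cell of the bounded variables; the second variable is `0` -/
def cell2 : Cell :=
  ⟨1015808, 1081344, 1015808, 1081344, 1048576, 1048576, 1048576, 1048576⟩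

/-- the sides of a rectangle as goals -/
def gRc (r : RC) : Grp :=
  ⟨.R, .sc 1 one, (rfl : 1 = 1),
    [⟨-16384, 0, 0, 1048576 - r.x0⟩, ⟨16384, 0, 0, r.x1 - 1048576⟩,
     ⟨0, -16384, 0, 1048576 - r.y0⟩, ⟨0, 16384, 0, r.y1 - 1048576⟩]⟩

/-- the run of a rectangle -/
def rrow (s : BG) (r : RC) (n code : ℕ) : Bool := row [gH s.H] [gRc r] n code cell2

/-- **The rectangle of a box.** -/
theorem rect {s : BG} (hs : s.ok = true) {r : RC} {n code : ℕ} (hr : rrow s r n code = true)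
    {z : ℂ} (h1 : z ≠ I) (h2 : z ≠ -I) (hy : s.In (acot2 z)) : r.Mem z := by
  have he := exp_acot2 h1 h2
  have hok := hs
  unfold BG.ok at hok
  rw [Bool.and_eq_true, Bool.and_eq_true, Nat.ble_eq, Nat.ble_eq] at hok
  have k0 : (1667 : ℝ) ≤ s.n0 := by exact_mod_cast hok.1.2
  have k1 : (s.n1 : ℝ) ≤ 8333 := by exact_mod_cast hok.2
  have hn := norm_lt_two (y := acot2 z) (by linarith only [k0, hy, hy.x0]) (by linarith only [k1, hy, hy.x1]) he
  have a1 := abs_le.1 ((Complex.abs_re_le_norm z).trans hn.le)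
  have a2 := abs_le.1 ((Complex.abs_im_le_norm z).trans hn.le)
  have hm : cell2.Mem z 0 := by
    refine ⟨⟨?_, ?_⟩, ⟨?_, ?_⟩, ⟨?_, ?_⟩, ⟨?_, ?_⟩⟩
    · show ((1015808 : ℕ) : ℝ) ≤ D * z.re + 1048576
      unfold D; push_cast; linarith only [a1, a1.1]
    · show D * z.re + 1048576 ≤ ((1081344 : ℕ) : ℝ)
      unfold D; push_cast; linarith only [a1, a1.2]
    · show ((1015808 : ℕ) : ℝ) ≤ D * z.im + 1048576
      unfold D; push_cast; linarith only [a2, a2.1]
    · show D * z.im + 1048576 ≤ ((1081344 : ℕ) : ℝ)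
      unfold D; push_cast; linarith only [a2, a2.2]
    · show ((1048576 : ℕ) : ℝ) ≤ D * (0 : ℂ).re + 1048576
      simp
    · show D * (0 : ℂ).re + 1048576 ≤ ((1048576 : ℕ) : ℝ)
      simp
    · show ((1048576 : ℕ) : ℝ) ≤ D * (0 : ℂ).im + 1048576
      simp
    · show D * (0 : ℂ).im + 1048576 ≤ ((1048576 : ℕ) : ℝ)
      simp
  have hg : AllOk z 0 [gH s.H] := by
    refine ok1 ⟨_, ?_, BG.sat hs hy⟩
    change _ * (z - gz 0 0 1 0) = z + gz 0 0 1 0
    rw [gzI z]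
    exact he
  have key := row_sound hr hm hg (g := gRc r) List.mem_cons_self (c := z) (by
    change z * (Ev.sc 1 one).val z 0 = z
    rw [v_one, mul_one])
  have g1 := key ⟨-16384, 0, 0, 1048576 - r.x0⟩ (by simp [gRc])
  have g2 := key ⟨16384, 0, 0, r.x1 - 1048576⟩ (by simp [gRc])
  have g3 := key ⟨0, -16384, 0, 1048576 - r.y0⟩ (by simp [gRc])
  have g4 := key ⟨0, 16384, 0, r.y1 - 1048576⟩ (by simp [gRc])
  unfold QC.Sat at g1 g2 g3 g4
  push_cast at g1 g2 g3 g4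
  refine ⟨⟨?_, ?_⟩, ⟨?_, ?_⟩⟩
  · show (r.x0 : ℝ) ≤ D * z.re + 1048576
    unfold D; linarith only [g1]
  · show D * z.re + 1048576 ≤ (r.x1 : ℝ)
    unfold D; linarith only [g2]
  · show (r.y0 : ℝ) ≤ D * z.im + 1048576
    unfold D; linarith only [g3]
  · show D * z.im + 1048576 ≤ (r.y1 : ℝ)
    unfold D; linarith only [g4]

end

end Pool.Agent.Work.MP_b30479_gtS.G2.CN.PW

end

section

/-!
# Two adjacent digits `1`: the groups of the neighbours hold
-/

namespace Pool.Agent.Work.MP_b30479_gtS.G2.CN.PW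

open Complex SR NumIs CN.Ev S6

noncomputable section

/-- the facts about a neighbour -/
structure NOk (c : NC) (k U V W : ℂ) : Prop where
  own : Sat c.own (k ^ 2)
  U : AllOk U V c.U
  V : AllOk V W c.V

section
variable {K : KFam} (hK : KOK K) {r : SK} {dl : ℕ} {ll : SK} {dr : ℕ} {rr : SK} {w kl kr : ℂ}
  (h : RDt K 1 .s r dl ll dr rr w kl kr)
include hK h

/-- the value of the absorbed side -/
lemma ownL {c : Cls} (hc : c.Ok .s dl ll) : Sat c.own (kl ^ 2) := by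
  have h1 := inH_ownR (x := .s) (hc.own hK h.left.ok.right.symm)
  rw [← K.symm] at h1
  exact h1 kl h.left.mem'

/-- the outer value of the absorbed side -/
lemma farL {c : Cls} (hc : c.Ok .s dl ll) : AllOk (RR w kl) (1 / Complex.cos w ^ 2) c.R := by
  have hq : RR w kl ^ 2 + 1 - 1 / Complex.cos w ^ 2 = 1 / kl ^ 2 := by
    rw [h.left.hinge]
    ring
  have h2 := h.left.out'
  rw [crs_symm] at h2
  exact hc.R hK hq h2

end

section
variable {K : KFam} {r : SK} {dl : ℕ} {ll : SK} {dr : ℕ} {rr : SK} {w kl kr : ℂ}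
  (h : RDt K 1 .s r dl ll dr rr w kl kr)
include h

lemma sumL : Sp (RR w kl) (Complex.cos w) + Sp (RR w kl) kl = RR w kl + I :=
  sp_sum (add_I_ne h.left.Rre) h.left.hinge

lemma hqL : RR w kl ^ 2 + 1 - 1 / Complex.cos w ^ 2 = 1 / kl ^ 2 := by
  rw [h.left.hinge]
  ring

end

/-- the hinges of the absorbed digit and the other hinge -/
abbrev hV (w kl : ℂ) : ℂ := Sp (RR w kl) (Complex.cos w)
/-- the outer hinge of the absorbed digit -/
abbrev hW (w kl : ℂ) : ℂ := Sp (RR w kl) kl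
/-- the other hinge of the digit `1` -/
abbrev hU (r : SK) (w kr : ℂ) : ℂ := Hq r (RR w kr) (Complex.cos w)

/-! ### the absorbed side -/

section
variable {K : KFam} (hK : KOK K) {r : SK} {dl : ℕ} {ll : SK} {dr : ℕ} {rr : SK} {w kl kr : ℂ}
  (h : RDt K 1 .s r dl ll dr rr w kl kr)
include hK h

lemma n2e (hc : CS.s2e.Has dl ll) : NOk p2e kl (hU r w kr) (hV w kl) (hW w kl) := by
  have hc' := CS.okE hc
  have h1 := farL hK h hc' _ List.mem_cons_self
  have h2 := vF3_ok (pd h) (sumL h) (hqL h) h1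
  exact ⟨ownL hK h hc', ok1 (uF3_ok (pd h).toPV h2), ok1 h2⟩

lemma n3e (hc : CS.s3e.Has dl ll) : NOk p3e kl (hU r w kr) (hV w kl) (hW w kl) := by
  have hc' := CS.okE hc
  have h1 := farL hK h hc' _ List.mem_cons_self
  have h2 := vF4_ok (pd h) (sumL h) (hqL h) h1
  exact ⟨ownL hK h hc', ok1 (uF4_ok (pd h).toPV h2), ok1 h2⟩

lemma n1s (hc : CS.s1s.Has dl ll) : NOk p1s kl (hU r w kr) (hV w kl) (hW w kl) := by
  have hc' := CS.okE hc
  have h1 := farL hK h hc' _ List.mem_cons_self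
  have h2 := vA3_ok (pd h) (sumL h) (hqL h) h1
  exact ⟨ownL hK h hc', ok1 (uA3_ok (pd h).toPV h2), ok1 h2⟩

lemma n2a (hc : CS.s2a.Has dl ll) : NOk p2a kl (hU r w kr) (hV w kl) (hW w kl) := by
  have hc' := CS.okE hc
  have h1 := farL hK h hc' _ List.mem_cons_self
  have h2 := vA3_ok (pd h) (sumL h) (hqL h) h1
  exact ⟨ownL hK h hc', ok1 (uA3_ok (pd h).toPV h2), ok1 h2⟩

lemma n2s (hc : CS.s2s.Has dl ll) : NOk p2s kl (hU r w kr) (hV w kl) (hW w kl) := by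
  have hc' := CS.okE hc
  have h1 := farL hK h hc' _ List.mem_cons_self
  have h2 := vA4_ok (pd h) (sumL h) (hqL h) h1
  exact ⟨ownL hK h hc', AllOk.nil, ok1 h2⟩

lemma n3a (hc : CS.s3a.Has dl ll) : NOk p3a kl (hU r w kr) (hV w kl) (hW w kl) := by
  have hc' := CS.okE hc
  have h1 := farL hK h hc' _ List.mem_cons_self
  have h2 := vA4_ok (pd h) (sumL h) (hqL h) h1
  exact ⟨ownL hK h hc', AllOk.nil, ok1 h2⟩

lemma n3s (hc : CS.s3s.Has dl ll) : NOk p3s kl (hU r w kr) (hV w kl) (hW w kl) := by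
  have hc' := CS.okE hc
  have h1 := farL hK h hc' _ List.mem_cons_self
  have h2 := vA5_ok (pd h) (sumL h) (hqL h) h1
  exact ⟨ownL hK h hc', AllOk.nil, ok1 h2⟩

lemma nZ (hd : 4 ≤ dl) : NOk pZ kl (hU r w kr) (hV w kl) (hW w kl) :=
  ⟨ownL hK h (cZS_ok hd), AllOk.nil, AllOk.nil⟩

lemma nZ5 (hd : dl = 4) (hl : ll ≠ .s) : NOk pZ5 kl (hU r w kr) (hV w kl) (hW w kl) := by
  subst hd
  exact ⟨ownL hK h (cZ5_ok hl), AllOk.nil, AllOk.nil⟩

lemma nZL (hd : 6 ≤ crs dl ll .s) : NOk pZL kl (hU r w kr) (hV w kl) (hW w kl) :=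
  ⟨ownL hK h (cZL_ok hd), AllOk.nil, AllOk.nil⟩

end

/-! ### a digit `1` with known data behind it -/

/-- the outer value of a digit `1` -/
lemma vA2X {Y V W k : ℂ} {H : List QC} (h : PV Y W V) (hk : (Y + I) * (Y + W) = 1 / k ^ 2)
    (k0 : k ≠ 0) (hS : Sat H (k ^ 2)) : (vA2 H).Ok V W := by
  refine ⟨k ^ 2, ?_, hS⟩
  change k ^ 2 * (vrh.val V W * (vh.val V W * ve.val V W)) = vi.val V W ^ 2
  rw [val_vrh, val_vh, val_ve, val_vi]
  have e1 := h.e
  have e2 := h.he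
  have e3 : k ^ 2 * ((Y + I) * (Y + W)) = 1 := by
    rw [hk, mul_one_div_cancel (pow_ne_zero 2 k0)]
  have e4 : (V + W) * (W - I) * ((W - I) * (V - I)) =
      (W + I) ^ 2 * ((Y + I) * (Y + W)) := by
    calc (V + W) * (W - I) * ((W - I) * (V - I)) =
        ((W + V) * (W - I)) * ((V - I) * (W - I)) := by ring
      _ = _ := by rw [e1, e2]; ring
  rw [e4]
  linear_combination (W + I) ^ 2 * e3

/-- the end digit `2` behind a digit `1` -/
lemma vX2_ok {Y V W p : ℂ} (h : PV Y W V) (hp : Y ^ 2 + 1 - p = (Y + I) * (Y + W))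
    (hg : (gE2 0 1).Ok Y p) : (vX2 zeroQ).Ok V W := by
  have h1 : (dr2 0 1).val Y p = 0 := zero_val rfl hg
  rw [d2v, hp, pD2] at h1
  refine zeroN rfl ?_
  change vX2e.val V W = 0
  rw [val_vX2e, val_vrh, val_vh, val_ve, val_vi]
  have e1 := h.e
  have e2 := h.he
  have e3 : (V + W) * (W - I) = -((Y + I) * (W + I)) := by rw [← e1]; ring
  have e4 : (W - I) * (V - I) = -((W + I) * (Y + W)) := by rw [← e2]; ring
  rw [e3, e4]
  linear_combination (W + I) ^ 2 * h1 + (4 * (W + I) ^ 2 - 2 * (W + I) ^ 2) * Complex.I_mul_I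

section
variable {K : KFam} (hK : KOK K) {r : SK} {w kl : ℂ}
include hK

/-- a digit `1` behind the absorbed digit -/
theorem farX_ok (hF : FarX K r w kl) :
    (vA2 (mirH h2ea)).Ok (hV w kl) (hW w kl) ∧ (vX2 zeroQ).Ok (hV w kl) (hW w kl) ∨
      (vA2 (mirH HPA1x)).Ok (hV w kl) (hW w kl) := by
  obtain ⟨dX, lX, wP, kX, hP, rfl, hR⟩ := hF
  have hpd := pd hP
  have hq := qQ_a hP
  rw [hR] at hpd hq
  have k0 : kX ≠ 0 := ne_of_re hP.right.kre'
  have hm : ∀ {H : List QC}, InH (K.K dX lX .a) H → Sat (mirH H) (kX ^ 2) := by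
    intro H h1
    have h2 := h1.mir
    have h3 := hP.right.mem'
    rw [← K.symm] at h2
    exact h2 kX h3
  by_cases hc : dX = 2 ∧ lX = .e
  · left
    obtain ⟨rfl, rfl⟩ := hc
    have h1 := hm (a2e_ok.own hK hP.right.ok.right.symm)
    refine ⟨vA2X hpd.toPV hq k0 h1, ?_⟩
    have hq2 : RR wP kX ^ 2 + 1 - 1 / Complex.cos wP ^ 2 = 1 / kX ^ 2 := by
      rw [hP.right.hinge]
      ring
    have h2 := hP.right.out'
    rw [crs_symm] at h2
    have h3 := a2e_ok.R hK hq2 h2 _ List.mem_cons_self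
    rw [Hq_of_ne (by decide)] at hpd hq
    exact vX2_ok hpd.toPV (by rw [hq2, hq]) h3
  · right
    have hd : 2 ≤ dX := by
      have := hP.right.ok.opp rfl
      omega
    have hok := hP.right.ok.right.symm
    refine vA2X hpd.toPV hq k0 (hm (hK.inU hok HPA1x_ok ?_ (min_le_right _ _)))
    have h3 := hok.zl
    unfold crs
    cases lX
    · have : dX ≠ 2 := fun h5 => hc ⟨h5, rfl⟩
      simp only [SK.u, lA1x]; omega
    · simp only [SK.u, lA1x]; omega
    · have := h3 rfl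
      simp only [SK.u, lA1x]; omega
    · simp only [SK.u, lA1x]; omega

end

section
variable {K : KFam} (hK : KOK K) {r : SK} {dl : ℕ} {ll : SK} {dr : ℕ} {rr : SK} {w kl kr : ℂ}
  (h : RDt K 1 .s r dl ll dr rr w kl kr)
include hK h

/-- a digit `1` with one split side on the absorbed side -/
lemma n1a (hc : CS.s1a.Has dl ll) (hF : FarX K r w kl) :
    NOk p1X kl (hU r w kr) (hV w kl) (hW w kl) ∨ NOk p1Y kl (hU r w kr) (hV w kl) (hW w kl) := by
  have ho := ownL hK h (CS.okE hc)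
  rcases farX_ok hK hF with ⟨h1, h2⟩ | h1
  · left
    exact ⟨ho, AllOk.cons (uA2_ok (pd h).toPV h1) (ok1 (uX2_ok (pd h).toPV h2)),
      AllOk.cons h1 (ok1 h2)⟩
  · right
    exact ⟨ho, ok1 (uA2_ok (pd h).toPV h1), ok1 h1⟩

end

/-! ### the second neighbour, side `a` -/

section
variable {K : KFam} (hK : KOK K) {dl : ℕ} {ll : SK} {dr : ℕ} {rr : SK} {w kl kr : ℂ}
  (h : RDt K 1 .s .a dl ll dr rr w kl kr)
include hK h

lemma ownR_a {c : Cls} (hc : c.Ok .a dr rr) : Sat (mirH c.own) (kr ^ 2) := by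
  have h1 := inH_ownR (x := .a) (hc.own hK h.right.ok.right.symm)
  rw [← K.symm] at h1
  exact h1 kr h.right.mem'

lemma farR_a {c : Cls} (hc : c.Ok .a dr rr) :
    AllOk (hU .a w kr) (1 / Complex.cos w ^ 2) c.R := by
  have hq : RR w kr ^ 2 + 1 - 1 / Complex.cos w ^ 2 = 1 / kr ^ 2 := by
    rw [h.right.hinge]
    ring
  have h2 := h.right.out'
  rw [crs_symm] at h2
  unfold hU
  rw [Hq_of_ne (by decide)]
  exact hc.R hK hq h2

lemma m2e (hc : CA.a2e.Has dr rr) : NOk q2e kr (hU .a w kr) (hV w kl) (hW w kl) := by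
  have hc' := CA.ok hc
  have h1 := farR_a hK h hc' _ List.mem_cons_self
  have h2 := uE2_ok (q_uv (pd h)) h1
  exact ⟨ownR_a hK h hc', ok1 h2, ok1 (vE2_ok (pd h).toPV h2)⟩

lemma m2a (hc : CA.a2a.Has dr rr) : NOk q2a kr (hU .a w kr) (hV w kl) (hW w kl) := by
  have hc' := CA.ok hc
  have h1 := farR_a hK h hc' _ List.mem_cons_self
  have h2 := uD2_ok (q_uv (pd h)) h1
  exact ⟨ownR_a hK h hc', ok1 h2, ok1 (vD2_ok (pd h).toPV h2)⟩

lemma m2s (hc : CA.a2s.Has dr rr) : NOk q2s kr (hU .a w kr) (hV w kl) (hW w kl) := by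
  have hc' := CA.ok hc
  have h1 := farR_a hK h hc' _ List.mem_cons_self
  exact ⟨ownR_a hK h hc', ok1 (uD3_ok (q_uv (pd h)) h1), AllOk.nil⟩

lemma m3e (hc : CA.a3e.Has dr rr) : NOk q3e kr (hU .a w kr) (hV w kl) (hW w kl) := by
  have hc' := CA.ok hc
  have h1 := farR_a hK h hc' _ List.mem_cons_self
  have h2 := uE3_ok (q_uv (pd h)) h1
  exact ⟨ownR_a hK h hc', ok1 h2, ok1 (vE3_ok (pd h).toPV h2)⟩

lemma m3a (hc : CA.a3a.Has dr rr) : NOk q3a kr (hU .a w kr) (hV w kl) (hW w kl) := by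
  have hc' := CA.ok hc
  have h1 := farR_a hK h hc' _ List.mem_cons_self
  exact ⟨ownR_a hK h hc', ok1 (uD3_ok (q_uv (pd h)) h1), AllOk.nil⟩

lemma m3s (hc : CA.a3s.Has dr rr) : NOk q3s kr (hU .a w kr) (hV w kl) (hW w kl) := by
  have hc' := CA.ok hc
  have h1 := farR_a hK h hc' _ List.mem_cons_self
  exact ⟨ownR_a hK h hc', ok1 (uD4_ok (q_uv (pd h)) h1), AllOk.nil⟩

lemma m4e (hc : CA.a4e.Has dr rr) : NOk q4e kr (hU .a w kr) (hV w kl) (hW w kl) := by
  have hc' := CA.ok hc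
  have h1 := farR_a hK h hc' _ List.mem_cons_self
  have h2 := uE4_ok (q_uv (pd h)) h1
  exact ⟨ownR_a hK h hc', ok1 h2, ok1 (vE4_ok (pd h).toPV h2)⟩

lemma m4a (hc : CA.a4a.Has dr rr) : NOk q4a kr (hU .a w kr) (hV w kl) (hW w kl) := by
  have hc' := CA.ok hc
  have h1 := farR_a hK h hc' _ List.mem_cons_self
  exact ⟨ownR_a hK h hc', ok1 (uD4_ok (q_uv (pd h)) h1), AllOk.nil⟩

lemma m4z (hc : CA.a4z.Has dr rr) : NOk q4z kr (hU .a w kr) (hV w kl) (hW w kl) := by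
  have hc' := CA.ok hc
  have h1 := farR_a hK h hc' _ List.mem_cons_self
  exact ⟨ownR_a hK h hc', ok1 (uD4_ok (q_uv (pd h)) h1), AllOk.nil⟩

lemma m4s (hc : CA.a4s.Has dr rr) : NOk q4s kr (hU .a w kr) (hV w kl) (hW w kl) := by
  have hc' := CA.ok hc
  have h1 := farR_a hK h hc' _ List.mem_cons_self
  exact ⟨ownR_a hK h hc', ok1 (uD5_ok (q_uv (pd h)) h1), AllOk.nil⟩

lemma m5 (hc : CA.n5.Has dr rr) : NOk q5 kr (hU .a w kr) (hV w kl) (hW w kl) :=
  ⟨ownR_a hK h (CA.ok hc), AllOk.nil, AllOk.nil⟩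

/-- all groups, side `a` -/
theorem aUV_ok {P Q : NC} (hP : NOk P kl (hU .a w kr) (hV w kl) (hW w kl))
    (hQ : NOk Q kr (hU .a w kr) (hV w kl) (hW w kl)) :
    AllOk (hU .a w kr) (hV w kl) (aU P Q) ∧ AllOk (hV w kl) (hW w kl) (aV P Q) := by
  have hd := pd h
  have c0 := h.cos_ne
  have l0 := ne_of_re h.left.kre'
  have r0 := ne_of_re h.right.kre'
  have ho : Sat H2as (Complex.cos w ^ 2) := c1a_ok.own hK h.left.ok.left _ h.left.mem
  have hm : (hU .a w kr + I) * (hU .a w kr + hV w kl) = 1 / kr ^ 2 := qQ_a h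
  exact ⟨AllOk.cons (uJ_ok hd c0 ho) (AllOk.cons (uP_ok hd l0 hP.own) (AllOk.cons
      (uQ_ok hm r0 hQ.own) (hP.U.append hQ.U))),
    AllOk.cons (vJ_ok hd c0 ho) (AllOk.cons (vP_ok hd l0 hP.own) (AllOk.cons
      (vQ_ok hd.toPV hm r0 hQ.own) (hP.V.append hQ.V)))⟩

end

/-! ### the second neighbour, side `s` -/

lemma hU_s {w kr : ℂ} : hU .s w kr = hV w kr := Hq_s _ _

section
variable {K : KFam} (hK : KOK K) {dl : ℕ} {ll : SK} {dr : ℕ} {rr : SK} {w kl kr : ℂ}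
  (h : RDt K 1 .s .s dl ll dr rr w kl kr)
include hK h

lemma t2 : NOk r2 kr (hU .s w kr) (hV w kl) (hW w kl) := by
  have hok := h.right.ok.right.symm
  refine ⟨?_, AllOk.nil, AllOk.nil⟩
  have h1 : InH (K.K dr rr .s) HPS2 := hK.inU hok HPS2_ok (lo_le hok (by decide))
    (min_le_right _ _)
  have h2 := h1.fr
  rw [← K.symm] at h2
  exact h2 kr h.right.mem'

lemma t3 (hc : ¬ (dr = 2 ∧ rr = .e)) : NOk r3 kr (hU .s w kr) (hV w kl) (hW w kl) := by
  have hok := h.right.ok.right.symm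
  refine ⟨?_, AllOk.nil, AllOk.nil⟩
  have h1 : InH (K.K dr rr .s) HPS2x := by
    refine hK.inU hok HPS2x_ok ?_ (min_le_right _ _)
    have a1 := hok.pos
    have a2 := hok.one
    have a3 := hok.zl
    unfold crs
    cases rr
    · have : dr ≠ 2 := fun h5 => hc ⟨h5, rfl⟩
      have : dr ≠ 1 := fun h5 => (a2 h5).2.1 rfl
      simp only [SK.u, lS2x]; omega
    · simp only [SK.u, lS2x]; omega
    · have := a3 rfl
      simp only [SK.u, lS2x]; omega
    · simp only [SK.u, lS2x]; omega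
  have h2 := h1.fr
  rw [← K.symm] at h2
  exact h2 kr h.right.mem'

lemma t4 (hc : ¬ (dr = 2 ∧ rr = .e)) (hc' : ¬ (dr = 1 ∧ rr = .a)) :
    NOk r4 kr (hU .s w kr) (hV w kl) (hW w kl) := by
  have hok := h.right.ok.right.symm
  refine ⟨?_, AllOk.nil, AllOk.nil⟩
  have h1 : InH (K.K dr rr .s) HPSTx := by
    refine hK.inU hok HPSTx_ok ?_ (min_le_right _ _)
    have a1 := hok.pos
    have a2 := hok.one
    have a3 := hok.zl
    unfold crs
    cases rr
    · have : dr ≠ 2 := fun h5 => hc ⟨h5, rfl⟩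
      have : dr ≠ 1 := fun h5 => (a2 h5).2.1 rfl
      simp only [SK.u, lSTx]; omega
    · have : dr ≠ 1 := fun h5 => hc' ⟨h5, rfl⟩
      simp only [SK.u, lSTx]; omega
    · have := a3 rfl
      simp only [SK.u, lSTx]; omega
    · simp only [SK.u, lSTx]; omega
  have h2 := h1.fr
  rw [← K.symm] at h2
  exact h2 kr h.right.mem'

lemma t2e (hc : CS.s2e.Has dr rr) : NOk r2e kr (hU .s w kr) (hV w kl) (hW w kl) := by
  have h1 := n2e hK h.symm hc
  rw [hU_s]
  have h2 : (uF3 zeroQ).Ok (hU .s w kl) (hV w kr) := h1.U _ List.mem_cons_self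
  rw [hU_s] at h2
  exact ⟨h1.own, ok1 (uG3_ok h2), AllOk.nil⟩

lemma t3e (hc : CS.s3e.Has dr rr) : NOk r3e kr (hU .s w kr) (hV w kl) (hW w kl) := by
  have h1 := n3e hK h.symm hc
  rw [hU_s]
  have h2 : (uF4 zeroQ).Ok (hU .s w kl) (hV w kr) := h1.U _ List.mem_cons_self
  rw [hU_s] at h2
  exact ⟨h1.own, ok1 (uG4_ok h2), AllOk.nil⟩

lemma t2a (hc : CS.s2a.Has dr rr) : NOk r2a kr (hU .s w kr) (hV w kl) (hW w kl) := by
  have h1 := n2a hK h.symm hc
  rw [hU_s]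
  have h2 : (uA3 (mirH HPA2)).Ok (hU .s w kl) (hV w kr) := h1.U _ List.mem_cons_self
  rw [hU_s] at h2
  exact ⟨h1.own, ok1 (uS3_ok h2), AllOk.nil⟩

lemma t2s (hc : CS.s2s.Has dr rr) : NOk r2s kr (hU .s w kr) (hV w kl) (hW w kl) :=
  ⟨(n2s hK h.symm hc).own, AllOk.nil, AllOk.nil⟩

lemma tZ (hd : 4 ≤ dr) : NOk rZ kr (hU .s w kr) (hV w kl) (hW w kl) :=
  ⟨(nZ hK h.symm hd).own, AllOk.nil, AllOk.nil⟩

lemma t1a (hc : CS.s1a.Has dr rr) : NOk r1a kr (hU .s w kr) (hV w kl) (hW w kl) := by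
  have hc' := CS.okE hc
  have h0 := h.symm
  have h1 := farL hK h0 hc' _ List.mem_cons_self
  have h2 := uA2_ok (pd h0).toPV (vA2_ok (pd h0) (sumL h0) (hqL h0) h1)
  rw [hU_s]
  have e : Hq .s (RR w kl) (Complex.cos w) = hV w kl := Hq_s _ _
  rw [e] at h2
  exact ⟨ownL hK h0 hc', ok1 (uS2_ok h2), AllOk.nil⟩

lemma t1 (hc : CS.s1a.Has dr rr) (hF : FarX K .s w kr) :
    NOk r1X kr (hU .s w kr) (hV w kl) (hW w kl) ∨
      NOk r1Y kr (hU .s w kr) (hV w kl) (hW w kl) := by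
  rcases n1a hK h.symm hc hF with h1 | h1
  · left
    have g1 : (uA2 (mirH h2ea)).Ok (hU .s w kl) (hV w kr) := h1.U _ List.mem_cons_self
    have g2 : (uX2 zeroQ).Ok (hU .s w kl) (hV w kr) :=
      h1.U _ (List.mem_cons_of_mem _ List.mem_cons_self)
    rw [hU_s] at g1 g2
    rw [hU_s]
    exact ⟨h1.own, AllOk.cons (uS2_ok g1) (ok1 (uX3_ok g2)), AllOk.nil⟩
  · right
    have g1 : (uA2 (mirH HPA1x)).Ok (hU .s w kl) (hV w kr) := h1.U _ List.mem_cons_self
    rw [hU_s] at g1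
    rw [hU_s]
    exact ⟨h1.own, ok1 (uS2_ok g1), AllOk.nil⟩

/-- all groups, side `s` -/
theorem sUV_ok {P Q : NC} (hP : NOk P kl (hU .s w kr) (hV w kl) (hW w kl))
    (hQ : NOk Q kr (hU .s w kr) (hV w kl) (hW w kl)) :
    AllOk (hU .s w kr) (hV w kl) (sU P Q) ∧ AllOk (hV w kl) (hW w kl) (sV P Q) := by
  have hd := pd h
  have hd' := pd h.symm
  have c0 := h.cos_ne
  have l0 := ne_of_re h.left.kre'
  have r0 := ne_of_re h.right.kre'
  have ho : Sat H3ss (Complex.cos w ^ 2) := c1s_ok.own hK h.left.ok.left _ h.left.mem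
  have e1 : Hq .s (RR w kr) (Complex.cos w) = hV w kr := Hq_s _ _
  have e2 : Hq .s (RR w kl) (Complex.cos w) = hV w kl := Hq_s _ _
  have g1 := uP_ok hd' r0 hQ.own
  rw [e2] at g1
  have g2 : (uR Q.own).Ok (hU .s w kr) (hV w kl) := by
    rw [hU_s]
    exact uR_ok g1
  exact ⟨AllOk.cons (uJ_ok hd c0 ho) (AllOk.cons (uP_ok hd l0 hP.own) (AllOk.cons
      g2 (hP.U.append hQ.U))),
    AllOk.cons (vJ_ok hd c0 ho) (AllOk.cons (vP_ok hd l0 hP.own) (AllOk.cons
      (vR_ok hd.toPV g2) (hP.V.append hQ.V)))⟩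

end

end

end Pool.Agent.Work.MP_b30479_gtS.G2.CN.PW

end

section

/-!
# Split hinges: the box and the bounds of the sum for every pair of rings
-/

namespace Pool.Agent.Work.MP_b30479_gtS.G2.CN.S6

open Complex SR NumIs

/-- the box of the hinge variable of the first ring -/
def BX : CS → CS → BB
  | .s1a, .s1s => sb2750_4365_m560_960
  | .s1a, .s2e => sb2750_4999_m800_330
  | .s1a, .s2a => sb2750_4625_m540_930
  | .s1a, .s2s => sb2750_4625_m540_930
  | .s1a, .s3e => sb2750_4999_m650_610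
  | .s1a, .s3a => sb2750_4999_m490_910
  | .s1a, .s3s => sb2750_4999_m490_910
  | .s1a, .s4e => sb2750_4999_m510_1170
  | .s1a, .s4a => sb2750_4999_m510_1170
  | .s1a, .s4z => sb2750_4999_m510_1170
  | .s1a, .s4s => sb2750_7000_m510_1170
  | .s1a, .s5 => sb2750_7000_m510_1170
  | .s1a, .s6 => sb2750_7000_m510_1170
  | .s1s, .s1a => sb2750_4365_m560_560
  | .s1s, .s1s => sb2750_4365_m560_560
  | .s1s, .s2e => sb2750_4365_m800_330
  | .s1s, .s2a => sb2750_4365_m540_560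
  | .s1s, .s2s => sb2750_4365_m540_560
  | .s1s, .s3e => sb2750_4365_m650_560
  | .s1s, .s3a => sb2750_4365_m490_560
  | .s1s, .s3s => sb2750_4365_m490_560
  | .s1s, .s4e => sb2750_4365_m510_560
  | .s1s, .s4a => sb2750_4365_m510_560
  | .s1s, .s4z => sb2750_4365_m510_560
  | .s1s, .s4s => sb2750_4365_m510_560
  | .s1s, .s5 => sb2750_4365_m510_560
  | .s1s, .s6 => sb2750_4365_m510_560
  | .s2e, .s1a => sb2170_3110_160_660
  | .s2e, .s1s => sb2170_3110_160_660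
  | .s2e, .s2e => sb2170_3110_m10_60
  | .s2e, .s2a => sb2170_3110_200_490
  | .s2e, .s2s => sb2170_3110_200_490
  | .s2e, .s3e => sb2170_3110_110_240
  | .s2e, .s3a => sb2170_3110_250_450
  | .s2e, .s3s => sb2170_3110_250_450
  | .s2e, .s4e => sb2170_3110_240_610
  | .s2e, .s4a => sb2170_3110_240_610
  | .s2e, .s4z => sb2170_3110_240_610
  | .s2e, .s4s => sb2170_3110_240_610
  | .s2e, .s5 => sb2170_3110_240_610
  | .s2e, .s6 => sb2170_3110_240_610
  | .s2a, .s1a => sb2360_3920_m790_180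
  | .s2a, .s1s => sb2360_3920_m790_180
  | .s2a, .s2e => sb2360_3920_m985_m480
  | .s2a, .s2a => sb2360_3920_m790_m50
  | .s2a, .s2s => sb2360_3920_m790_m50
  | .s2a, .s3e => sb2360_3920_m910_m320
  | .s2a, .s3a => sb2360_3920_m770_m100
  | .s2a, .s3s => sb2360_3920_m770_m100
  | .s2a, .s4e => sb2360_3920_m800_80
  | .s2a, .s4a => sb2360_3920_m800_80
  | .s2a, .s4z => sb2360_3920_m800_80
  | .s2a, .s4s => sb2360_3920_m800_80
  | .s2a, .s5 => sb2360_3920_m800_80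
  | .s2a, .s6 => sb2360_3920_m800_80
  | .s2s, .s1a => sb2360_3920_m790_180
  | .s2s, .s1s => sb2360_3920_m790_180
  | .s2s, .s2e => sb2360_3920_m985_m480
  | .s2s, .s2a => sb2360_3920_m790_m50
  | .s2s, .s2s => sb2360_3920_m790_m50
  | .s2s, .s3e => sb2360_3920_m910_m320
  | .s2s, .s3a => sb2360_3920_m770_m100
  | .s2s, .s3s => sb2360_3920_m770_m100
  | .s2s, .s4e => sb2360_3920_m800_80
  | .s2s, .s4a => sb2360_3920_m800_80
  | .s2s, .s4z => sb2360_3920_m800_80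
  | .s2s, .s4s => sb2360_3920_m800_80
  | .s2s, .s5 => sb2360_3920_m800_80
  | .s2s, .s6 => sb2360_3920_m800_80
  | .s3e, .s1a => sb2120_2740_m580_m100
  | .s3e, .s1s => sb2120_2740_m580_m100
  | .s3e, .s2e => sb2120_2740_m780_m690
  | .s3e, .s2a => sb2120_2740_m590_m300
  | .s3e, .s2s => sb2120_2740_m590_m300
  | .s3a, .s1a => sb2260_3140_m920_m210
  | .s3a, .s1s => sb2260_3140_m920_m210
  | .s3a, .s2e => sb2260_3140_m1145_m870
  | .s3a, .s2a => sb2260_3140_m940_m460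
  | .s3a, .s2s => sb2260_3140_m940_m460
  | .s3s, .s1a => sb2260_3140_m920_m210
  | .s3s, .s1s => sb2260_3140_m920_m210
  | .s3s, .s2e => sb2260_3140_m1145_m870
  | .s3s, .s2a => sb2260_3140_m940_m460
  | .s3s, .s2s => sb2260_3140_m940_m460
  | .s4e, .s1a => sb2160_2780_m1280_m380
  | .s4e, .s1s => sb2160_2780_m1280_m380
  | .s4e, .s2e => sb2160_2780_m1280_m1000
  | .s4e, .s2a => sb2160_2780_m1280_m630
  | .s4e, .s2s => sb2160_2780_m1280_m630
  | .s4a, .s1a => sb2140_2980_m1280_m380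
  | .s4a, .s1s => sb2140_2980_m1280_m380
  | .s4a, .s2e => sb2140_2980_m1280_m1000
  | .s4a, .s2a => sb2140_2980_m1280_m630
  | .s4a, .s2s => sb2140_2980_m1280_m630
  | .s4z, .s1a => sb2140_2969_m1280_m380
  | .s4z, .s1s => sb2140_2969_m1280_m380
  | .s4z, .s2e => sb2140_2969_m1280_m1000
  | .s4z, .s2a => sb2140_2969_m1280_m630
  | .s4z, .s2s => sb2140_2969_m1280_m630
  | .s4s, .s1a => sb2140_2980_m1280_m380
  | .s4s, .s1s => sb2140_2980_m1280_m380
  | .s4s, .s2e => sb2140_2980_m1280_m1000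
  | .s4s, .s2a => sb2140_2980_m1280_m630
  | .s4s, .s2s => sb2140_2980_m1280_m630
  | .s5, .s1a => sb2140_2980_m1360_m380
  | .s5, .s1s => sb2140_2980_m1360_m380
  | .s5, .s2e => sb2140_2980_m1380_m1000
  | .s5, .s2a => sb2140_2980_m1380_m630
  | .s5, .s2s => sb2140_2980_m1380_m630
  | .s6, .s1a => sb2140_2980_m1360_m380
  | .s6, .s1s => sb2140_2980_m1360_m380
  | .s6, .s2e => sb2140_2980_m1580_m1000
  | .s6, .s2a => sb2140_2980_m1450_m630
  | .s6, .s2s => sb2140_2980_m1450_m630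
  | _, _ => sb2120_2740_m580_m100

/-- the statement for two cases -/
def PB (c c' : CS) : Prop :=
  ∀ {K : KFam} {d : ℕ} {l : SK} {d' : ℕ} {l' : SK} {R k k' : ℂ}, KOK K → c.Has d l →
    c'.Has d' l' → HDt K .s d l d' l' R k k' → (BX c c').box.In (acot2 (Sp R k))

section

open CS

theorem pb_1a_1s : PB .s1a .s1s := fun hK h1 h2 h =>
  useS (okE h1) (okE h2) r_1a_1s hK h sb2750_4365_m560_960_ok
theorem pb_1a_2e : PB .s1a .s2e := fun hK h1 h2 h =>
  useS (okE h1) (okE h2) r_1a_2e hK h sb2750_4999_m800_330_ok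
theorem pb_1a_2a : PB .s1a .s2a := fun hK h1 h2 h =>
  useS (okE h1) (okE h2) r_1a_2a hK h sb2750_4625_m540_930_ok
theorem pb_1a_2s : PB .s1a .s2s := fun hK h1 h2 h =>
  useS (okE h1) (okE h2) r_1a_2s hK h sb2750_4625_m540_930_ok
theorem pb_1a_3e : PB .s1a .s3e := fun hK h1 h2 h =>
  useS (okE h1) (okE h2) r_1a_3e hK h sb2750_4999_m650_610_ok
theorem pb_1a_3a : PB .s1a .s3a := fun hK h1 h2 h =>
  useS (okE h1) (okE h2) r_1a_3a hK h sb2750_4999_m490_910_ok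
theorem pb_1a_3s : PB .s1a .s3s := fun hK h1 h2 h =>
  useS (okE h1) (okE h2) r_1a_3s hK h sb2750_4999_m490_910_ok
theorem pb_1a_4e : PB .s1a .s4e := fun hK h1 h2 h =>
  useS (okE h1) (okM h2) r_1a_Z5 hK h sb2750_4999_m510_1170_ok
theorem pb_1a_4a : PB .s1a .s4a := fun hK h1 h2 h =>
  useS (okE h1) (okM h2) r_1a_Z5 hK h sb2750_4999_m510_1170_ok
theorem pb_1a_4z : PB .s1a .s4z := fun hK h1 h2 h =>
  useS (okE h1) (okM h2) r_1a_Z5 hK h sb2750_4999_m510_1170_ok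
theorem pb_1a_4s : PB .s1a .s4s := fun hK h1 h2 h =>
  useS (okE h1) (okM h2) r_1a_ZL hK h sb2750_7000_m510_1170_ok
theorem pb_1a_5 : PB .s1a .s5 := fun hK h1 h2 h =>
  useS (okE h1) (okM h2) r_1a_ZL hK h sb2750_7000_m510_1170_ok
theorem pb_1a_6 : PB .s1a .s6 := fun hK h1 h2 h =>
  useS (okE h1) (okM h2) r_1a_ZL hK h sb2750_7000_m510_1170_ok
theorem pb_1s_1a : PB .s1s .s1a := fun hK h1 h2 h =>
  useS' (okE h1) (okE h2) r_1s_1a hK h sb2750_4365_m560_560_ok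
theorem pb_1s_1s : PB .s1s .s1s := fun hK h1 h2 h =>
  useS' (okE h1) (okE h2) r_1s_1s hK h sb2750_4365_m560_560_ok
theorem pb_1s_2e : PB .s1s .s2e := fun hK h1 h2 h =>
  useS' (okE h1) (okE h2) r_1s_2e hK h sb2750_4365_m800_330_ok
theorem pb_1s_2a : PB .s1s .s2a := fun hK h1 h2 h =>
  useS' (okE h1) (okE h2) r_1s_2a hK h sb2750_4365_m540_560_ok
theorem pb_1s_2s : PB .s1s .s2s := fun hK h1 h2 h =>
  useS' (okE h1) (okE h2) r_1s_2s hK h sb2750_4365_m540_560_ok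
theorem pb_1s_3e : PB .s1s .s3e := fun hK h1 h2 h =>
  useS' (okE h1) (okE h2) r_1s_3e hK h sb2750_4365_m650_560_ok
theorem pb_1s_3a : PB .s1s .s3a := fun hK h1 h2 h =>
  useS' (okE h1) (okE h2) r_1s_3a hK h sb2750_4365_m490_560_ok
theorem pb_1s_3s : PB .s1s .s3s := fun hK h1 h2 h =>
  useS' (okE h1) (okE h2) r_1s_3s hK h sb2750_4365_m490_560_ok
theorem pb_1s_4e : PB .s1s .s4e := fun hK h1 h2 h =>
  useS' (okE h1) (okE h2) r_1s_4e hK h sb2750_4365_m510_560_ok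
theorem pb_1s_4a : PB .s1s .s4a := fun hK h1 h2 h =>
  useS' (okE h1) (okE h2) r_1s_4a hK h sb2750_4365_m510_560_ok
theorem pb_1s_4z : PB .s1s .s4z := fun hK h1 h2 h =>
  useS' (okE h1) (okE h2) r_1s_4z hK h sb2750_4365_m510_560_ok
theorem pb_1s_4s : PB .s1s .s4s := fun hK h1 h2 h =>
  useS' (okE h1) (okL h2) r_1s_ZL hK h sb2750_4365_m510_560_ok
theorem pb_1s_5 : PB .s1s .s5 := fun hK h1 h2 h =>
  useS' (okE h1) (okL h2) r_1s_ZL hK h sb2750_4365_m510_560_ok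
theorem pb_1s_6 : PB .s1s .s6 := fun hK h1 h2 h =>
  useS' (okE h1) (okL h2) r_1s_ZL hK h sb2750_4365_m510_560_ok
theorem pb_2e_1a : PB .s2e .s1a := fun hK h1 h2 h =>
  useS (okE h1) (okE h2) r_2e_1a hK h sb2170_3110_160_660_ok
theorem pb_2e_1s : PB .s2e .s1s := fun hK h1 h2 h =>
  useS (okE h1) (okE h2) r_2e_1s hK h sb2170_3110_160_660_ok
theorem pb_2e_2e : PB .s2e .s2e := fun hK h1 h2 h =>
  useS (okE h1) (okE h2) r_2e_2e hK h sb2170_3110_m10_60_ok
theorem pb_2e_2a : PB .s2e .s2a := fun hK h1 h2 h =>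
  useS (okE h1) (okE h2) r_2e_2a hK h sb2170_3110_200_490_ok
theorem pb_2e_2s : PB .s2e .s2s := fun hK h1 h2 h =>
  useS (okE h1) (okE h2) r_2e_2s hK h sb2170_3110_200_490_ok
theorem pb_2e_3e : PB .s2e .s3e := fun hK h1 h2 h =>
  useS (okE h1) (okE h2) r_2e_3e hK h sb2170_3110_110_240_ok
theorem pb_2e_3a : PB .s2e .s3a := fun hK h1 h2 h =>
  useS (okE h1) (okE h2) r_2e_3a hK h sb2170_3110_250_450_ok
theorem pb_2e_3s : PB .s2e .s3s := fun hK h1 h2 h =>
  useS (okE h1) (okE h2) r_2e_3s hK h sb2170_3110_250_450_ok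
theorem pb_2e_4e : PB .s2e .s4e := fun hK h1 h2 h =>
  useS (okE h1) (okZ h2) r_2e_Z hK h sb2170_3110_240_610_ok
theorem pb_2e_4a : PB .s2e .s4a := fun hK h1 h2 h =>
  useS (okE h1) (okZ h2) r_2e_Z hK h sb2170_3110_240_610_ok
theorem pb_2e_4z : PB .s2e .s4z := fun hK h1 h2 h =>
  useS (okE h1) (okZ h2) r_2e_Z hK h sb2170_3110_240_610_ok
theorem pb_2e_4s : PB .s2e .s4s := fun hK h1 h2 h =>
  useS (okE h1) (okZ h2) r_2e_Z hK h sb2170_3110_240_610_ok
theorem pb_2e_5 : PB .s2e .s5 := fun hK h1 h2 h =>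
  useS (okE h1) (okZ h2) r_2e_Z hK h sb2170_3110_240_610_ok
theorem pb_2e_6 : PB .s2e .s6 := fun hK h1 h2 h =>
  useS (okE h1) (okZ h2) r_2e_Z hK h sb2170_3110_240_610_ok
theorem pb_2a_1a : PB .s2a .s1a := fun hK h1 h2 h =>
  useS (okE h1) (okE h2) r_2a_1a hK h sb2360_3920_m790_180_ok
theorem pb_2a_1s : PB .s2a .s1s := fun hK h1 h2 h =>
  useS (okE h1) (okE h2) r_2a_1s hK h sb2360_3920_m790_180_ok
theorem pb_2a_2e : PB .s2a .s2e := fun hK h1 h2 h =>
  useS (okE h1) (okE h2) r_2a_2e hK h sb2360_3920_m985_m480_ok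
theorem pb_2a_2a : PB .s2a .s2a := fun hK h1 h2 h =>
  useS (okE h1) (okE h2) r_2a_2a hK h sb2360_3920_m790_m50_ok
theorem pb_2a_2s : PB .s2a .s2s := fun hK h1 h2 h =>
  useS (okE h1) (okE h2) r_2a_2s hK h sb2360_3920_m790_m50_ok
theorem pb_2a_3e : PB .s2a .s3e := fun hK h1 h2 h =>
  useS (okE h1) (okE h2) r_2a_3e hK h sb2360_3920_m910_m320_ok
theorem pb_2a_3a : PB .s2a .s3a := fun hK h1 h2 h =>
  useS (okE h1) (okE h2) r_2a_3a hK h sb2360_3920_m770_m100_ok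
theorem pb_2a_3s : PB .s2a .s3s := fun hK h1 h2 h =>
  useS (okE h1) (okE h2) r_2a_3s hK h sb2360_3920_m770_m100_ok
theorem pb_2a_4e : PB .s2a .s4e := fun hK h1 h2 h =>
  useS (okE h1) (okE h2) r_2a_4e hK h sb2360_3920_m800_80_ok
theorem pb_2a_4a : PB .s2a .s4a := fun hK h1 h2 h =>
  useS (okE h1) (okE h2) r_2a_4a hK h sb2360_3920_m800_80_ok
theorem pb_2a_4z : PB .s2a .s4z := fun hK h1 h2 h =>
  useS (okE h1) (okE h2) r_2a_4z hK h sb2360_3920_m800_80_ok
theorem pb_2a_4s : PB .s2a .s4s := fun hK h1 h2 h =>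
  useS (okE h1) (okL h2) r_2a_ZL hK h sb2360_3920_m800_80_ok
theorem pb_2a_5 : PB .s2a .s5 := fun hK h1 h2 h =>
  useS (okE h1) (okL h2) r_2a_ZL hK h sb2360_3920_m800_80_ok
theorem pb_2a_6 : PB .s2a .s6 := fun hK h1 h2 h =>
  useS (okE h1) (okL h2) r_2a_ZL hK h sb2360_3920_m800_80_ok
theorem pb_2s_1a : PB .s2s .s1a := fun hK h1 h2 h =>
  useS (okE h1) (okE h2) r_2s_1a hK h sb2360_3920_m790_180_ok
theorem pb_2s_1s : PB .s2s .s1s := fun hK h1 h2 h =>
  useS (okE h1) (okE h2) r_2s_1s hK h sb2360_3920_m790_180_ok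
theorem pb_2s_2e : PB .s2s .s2e := fun hK h1 h2 h =>
  useS (okE h1) (okE h2) r_2s_2e hK h sb2360_3920_m985_m480_ok
theorem pb_2s_2a : PB .s2s .s2a := fun hK h1 h2 h =>
  useS (okE h1) (okE h2) r_2s_2a hK h sb2360_3920_m790_m50_ok
theorem pb_2s_2s : PB .s2s .s2s := fun hK h1 h2 h =>
  useS (okE h1) (okE h2) r_2s_2s hK h sb2360_3920_m790_m50_ok
theorem pb_2s_3e : PB .s2s .s3e := fun hK h1 h2 h =>
  useS (okE h1) (okE h2) r_2s_3e hK h sb2360_3920_m910_m320_ok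
theorem pb_2s_3a : PB .s2s .s3a := fun hK h1 h2 h =>
  useS (okE h1) (okE h2) r_2s_3a hK h sb2360_3920_m770_m100_ok
theorem pb_2s_3s : PB .s2s .s3s := fun hK h1 h2 h =>
  useS (okE h1) (okE h2) r_2s_3s hK h sb2360_3920_m770_m100_ok
theorem pb_2s_4e : PB .s2s .s4e := fun hK h1 h2 h =>
  useS (okE h1) (okE h2) r_2s_4e hK h sb2360_3920_m800_80_ok
theorem pb_2s_4a : PB .s2s .s4a := fun hK h1 h2 h =>
  useS (okE h1) (okE h2) r_2s_4a hK h sb2360_3920_m800_80_ok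
theorem pb_2s_4z : PB .s2s .s4z := fun hK h1 h2 h =>
  useS (okE h1) (okE h2) r_2s_4z hK h sb2360_3920_m800_80_ok
theorem pb_2s_4s : PB .s2s .s4s := fun hK h1 h2 h =>
  useS (okE h1) (okL h2) r_2s_ZL hK h sb2360_3920_m800_80_ok
theorem pb_2s_5 : PB .s2s .s5 := fun hK h1 h2 h =>
  useS (okE h1) (okL h2) r_2s_ZL hK h sb2360_3920_m800_80_ok
theorem pb_2s_6 : PB .s2s .s6 := fun hK h1 h2 h =>
  useS (okE h1) (okL h2) r_2s_ZL hK h sb2360_3920_m800_80_ok
theorem pb_3e_1a : PB .s3e .s1a := fun hK h1 h2 h =>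
  useS (okE h1) (okE h2) r_3e_1a hK h sb2120_2740_m580_m100_ok
theorem pb_3e_1s : PB .s3e .s1s := fun hK h1 h2 h =>
  useS (okE h1) (okE h2) r_3e_1s hK h sb2120_2740_m580_m100_ok
theorem pb_3e_2e : PB .s3e .s2e := fun hK h1 h2 h =>
  useS (okE h1) (okE h2) r_3e_2e hK h sb2120_2740_m780_m690_ok
theorem pb_3e_2a : PB .s3e .s2a := fun hK h1 h2 h =>
  useS (okE h1) (okE h2) r_3e_2a hK h sb2120_2740_m590_m300_ok
theorem pb_3e_2s : PB .s3e .s2s := fun hK h1 h2 h =>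
  useS (okE h1) (okE h2) r_3e_2s hK h sb2120_2740_m590_m300_ok
theorem pb_3a_1a : PB .s3a .s1a := fun hK h1 h2 h =>
  useS (okE h1) (okE h2) r_3a_1a hK h sb2260_3140_m920_m210_ok
theorem pb_3a_1s : PB .s3a .s1s := fun hK h1 h2 h =>
  useS (okE h1) (okE h2) r_3a_1s hK h sb2260_3140_m920_m210_ok
theorem pb_3a_2e : PB .s3a .s2e := fun hK h1 h2 h =>
  useS (okE h1) (okE h2) r_3a_2e hK h sb2260_3140_m1145_m870_ok
theorem pb_3a_2a : PB .s3a .s2a := fun hK h1 h2 h =>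
  useS (okE h1) (okE h2) r_3a_2a hK h sb2260_3140_m940_m460_ok
theorem pb_3a_2s : PB .s3a .s2s := fun hK h1 h2 h =>
  useS (okE h1) (okE h2) r_3a_2s hK h sb2260_3140_m940_m460_ok
theorem pb_3s_1a : PB .s3s .s1a := fun hK h1 h2 h =>
  useS (okE h1) (okE h2) r_3s_1a hK h sb2260_3140_m920_m210_ok
theorem pb_3s_1s : PB .s3s .s1s := fun hK h1 h2 h =>
  useS (okE h1) (okE h2) r_3s_1s hK h sb2260_3140_m920_m210_ok
theorem pb_3s_2e : PB .s3s .s2e := fun hK h1 h2 h =>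
  useS (okE h1) (okE h2) r_3s_2e hK h sb2260_3140_m1145_m870_ok
theorem pb_3s_2a : PB .s3s .s2a := fun hK h1 h2 h =>
  useS (okE h1) (okE h2) r_3s_2a hK h sb2260_3140_m940_m460_ok
theorem pb_3s_2s : PB .s3s .s2s := fun hK h1 h2 h =>
  useS (okE h1) (okE h2) r_3s_2s hK h sb2260_3140_m940_m460_ok
theorem pb_4e_1a : PB .s4e .s1a := fun hK h1 h2 h =>
  useS (okE h1) (okE h2) r_4e_1a hK h sb2160_2780_m1280_m380_ok
theorem pb_4e_1s : PB .s4e .s1s := fun hK h1 h2 h =>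
  useS (okE h1) (okE h2) r_4e_1s hK h sb2160_2780_m1280_m380_ok
theorem pb_4e_2e : PB .s4e .s2e := fun hK h1 h2 h =>
  useS (okE h1) (okE h2) r_4e_2e hK h sb2160_2780_m1280_m1000_ok
theorem pb_4e_2a : PB .s4e .s2a := fun hK h1 h2 h =>
  useS (okE h1) (okE h2) r_4e_2a hK h sb2160_2780_m1280_m630_ok
theorem pb_4e_2s : PB .s4e .s2s := fun hK h1 h2 h =>
  useS (okE h1) (okE h2) r_4e_2s hK h sb2160_2780_m1280_m630_ok
theorem pb_4a_1a : PB .s4a .s1a := fun hK h1 h2 h =>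
  useS (okE h1) (okE h2) r_4a_1a hK h sb2140_2980_m1280_m380_ok
theorem pb_4a_1s : PB .s4a .s1s := fun hK h1 h2 h =>
  useS (okE h1) (okE h2) r_4a_1s hK h sb2140_2980_m1280_m380_ok
theorem pb_4a_2e : PB .s4a .s2e := fun hK h1 h2 h =>
  useS (okE h1) (okE h2) r_4a_2e hK h sb2140_2980_m1280_m1000_ok
theorem pb_4a_2a : PB .s4a .s2a := fun hK h1 h2 h =>
  useS (okE h1) (okE h2) r_4a_2a hK h sb2140_2980_m1280_m630_ok
theorem pb_4a_2s : PB .s4a .s2s := fun hK h1 h2 h =>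
  useS (okE h1) (okE h2) r_4a_2s hK h sb2140_2980_m1280_m630_ok
theorem pb_4z_1a : PB .s4z .s1a := fun hK h1 h2 h =>
  useS (okE h1) (okE h2) r_4z_1a hK h sb2140_2969_m1280_m380_ok
theorem pb_4z_1s : PB .s4z .s1s := fun hK h1 h2 h =>
  useS (okE h1) (okE h2) r_4z_1s hK h sb2140_2969_m1280_m380_ok
theorem pb_4z_2e : PB .s4z .s2e := fun hK h1 h2 h =>
  useS (okE h1) (okE h2) r_4z_2e hK h sb2140_2969_m1280_m1000_ok
theorem pb_4z_2a : PB .s4z .s2a := fun hK h1 h2 h =>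
  useS (okE h1) (okE h2) r_4z_2a hK h sb2140_2969_m1280_m630_ok
theorem pb_4z_2s : PB .s4z .s2s := fun hK h1 h2 h =>
  useS (okE h1) (okE h2) r_4z_2s hK h sb2140_2969_m1280_m630_ok
theorem pb_4s_1a : PB .s4s .s1a := fun hK h1 h2 h =>
  useS (okE h1) (okE h2) r_4s_1a hK h sb2140_2980_m1280_m380_ok
theorem pb_4s_1s : PB .s4s .s1s := fun hK h1 h2 h =>
  useS (okE h1) (okE h2) r_4s_1s hK h sb2140_2980_m1280_m380_ok
theorem pb_4s_2e : PB .s4s .s2e := fun hK h1 h2 h =>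
  useS (okE h1) (okE h2) r_4s_2e hK h sb2140_2980_m1280_m1000_ok
theorem pb_4s_2a : PB .s4s .s2a := fun hK h1 h2 h =>
  useS (okE h1) (okE h2) r_4s_2a hK h sb2140_2980_m1280_m630_ok
theorem pb_4s_2s : PB .s4s .s2s := fun hK h1 h2 h =>
  useS (okE h1) (okE h2) r_4s_2s hK h sb2140_2980_m1280_m630_ok
theorem pb_5_1a : PB .s5 .s1a := fun hK h1 h2 h =>
  useS (okL h1) (okE h2) r_ZL_1a hK h sb2140_2980_m1360_m380_ok
theorem pb_5_1s : PB .s5 .s1s := fun hK h1 h2 h =>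
  useS (okL h1) (okE h2) r_ZL_1s hK h sb2140_2980_m1360_m380_ok
theorem pb_5_2e : PB .s5 .s2e := fun hK h1 h2 h =>
  useS (okE h1) (okE h2) r_D5_2e hK h sb2140_2980_m1380_m1000_ok
theorem pb_5_2a : PB .s5 .s2a := fun hK h1 h2 h =>
  useS (okE h1) (okE h2) r_D5_2a hK h sb2140_2980_m1380_m630_ok
theorem pb_5_2s : PB .s5 .s2s := fun hK h1 h2 h =>
  useS (okE h1) (okE h2) r_D5_2s hK h sb2140_2980_m1380_m630_ok
theorem pb_6_1a : PB .s6 .s1a := fun hK h1 h2 h =>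
  useS (okE h1) (okE h2) r_ZL_1a hK h sb2140_2980_m1360_m380_ok
theorem pb_6_1s : PB .s6 .s1s := fun hK h1 h2 h =>
  useS (okE h1) (okE h2) r_ZL_1s hK h sb2140_2980_m1360_m380_ok
theorem pb_6_2e : PB .s6 .s2e := fun hK h1 h2 h =>
  useS (okE h1) (okE h2) r_ZL_2e hK h sb2140_2980_m1580_m1000_ok
theorem pb_6_2a : PB .s6 .s2a := fun hK h1 h2 h =>
  useS (okE h1) (okE h2) r_ZL_2a hK h sb2140_2980_m1450_m630_ok
theorem pb_6_2s : PB .s6 .s2s := fun hK h1 h2 h =>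
  useS (okE h1) (okE h2) r_ZL_2s hK h sb2140_2980_m1450_m630_ok

end

/-- the box of a split hinge -/
theorem pb_all {c c' : CS} (ha : CS.adm c c' = true) : PB c c' := by
  cases c <;> cases c'
  · exact absurd ha (by decide)
  · exact pb_1a_1s
  · exact pb_1a_2e
  · exact pb_1a_2a
  · exact pb_1a_2s
  · exact pb_1a_3e
  · exact pb_1a_3a
  · exact pb_1a_3s
  · exact pb_1a_4e
  · exact pb_1a_4a
  · exact pb_1a_4z
  · exact pb_1a_4s
  · exact pb_1a_5
  · exact pb_1a_6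
  · exact pb_1s_1a
  · exact pb_1s_1s
  · exact pb_1s_2e
  · exact pb_1s_2a
  · exact pb_1s_2s
  · exact pb_1s_3e
  · exact pb_1s_3a
  · exact pb_1s_3s
  · exact pb_1s_4e
  · exact pb_1s_4a
  · exact pb_1s_4z
  · exact pb_1s_4s
  · exact pb_1s_5
  · exact pb_1s_6
  · exact pb_2e_1a
  · exact pb_2e_1s
  · exact pb_2e_2e
  · exact pb_2e_2a
  · exact pb_2e_2s
  · exact pb_2e_3e
  · exact pb_2e_3a
  · exact pb_2e_3s
  · exact pb_2e_4e
  · exact pb_2e_4a
  · exact pb_2e_4z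
  · exact pb_2e_4s
  · exact pb_2e_5
  · exact pb_2e_6
  · exact pb_2a_1a
  · exact pb_2a_1s
  · exact pb_2a_2e
  · exact pb_2a_2a
  · exact pb_2a_2s
  · exact pb_2a_3e
  · exact pb_2a_3a
  · exact pb_2a_3s
  · exact pb_2a_4e
  · exact pb_2a_4a
  · exact pb_2a_4z
  · exact pb_2a_4s
  · exact pb_2a_5
  · exact pb_2a_6
  · exact pb_2s_1a
  · exact pb_2s_1s
  · exact pb_2s_2e
  · exact pb_2s_2a
  · exact pb_2s_2s
  · exact pb_2s_3e
  · exact pb_2s_3a
  · exact pb_2s_3s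
  · exact pb_2s_4e
  · exact pb_2s_4a
  · exact pb_2s_4z
  · exact pb_2s_4s
  · exact pb_2s_5
  · exact pb_2s_6
  · exact pb_3e_1a
  · exact pb_3e_1s
  · exact pb_3e_2e
  · exact pb_3e_2a
  · exact pb_3e_2s
  · exact absurd ha (by decide)
  · exact absurd ha (by decide)
  · exact absurd ha (by decide)
  · exact absurd ha (by decide)
  · exact absurd ha (by decide)
  · exact absurd ha (by decide)
  · exact absurd ha (by decide)
  · exact absurd ha (by decide)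
  · exact absurd ha (by decide)
  · exact pb_3a_1a
  · exact pb_3a_1s
  · exact pb_3a_2e
  · exact pb_3a_2a
  · exact pb_3a_2s
  · exact absurd ha (by decide)
  · exact absurd ha (by decide)
  · exact absurd ha (by decide)
  · exact absurd ha (by decide)
  · exact absurd ha (by decide)
  · exact absurd ha (by decide)
  · exact absurd ha (by decide)
  · exact absurd ha (by decide)
  · exact absurd ha (by decide)
  · exact pb_3s_1a
  · exact pb_3s_1s
  · exact pb_3s_2e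
  · exact pb_3s_2a
  · exact pb_3s_2s
  · exact absurd ha (by decide)
  · exact absurd ha (by decide)
  · exact absurd ha (by decide)
  · exact absurd ha (by decide)
  · exact absurd ha (by decide)
  · exact absurd ha (by decide)
  · exact absurd ha (by decide)
  · exact absurd ha (by decide)
  · exact absurd ha (by decide)
  · exact pb_4e_1a
  · exact pb_4e_1s
  · exact pb_4e_2e
  · exact pb_4e_2a
  · exact pb_4e_2s
  · exact absurd ha (by decide)
  · exact absurd ha (by decide)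
  · exact absurd ha (by decide)
  · exact absurd ha (by decide)
  · exact absurd ha (by decide)
  · exact absurd ha (by decide)
  · exact absurd ha (by decide)
  · exact absurd ha (by decide)
  · exact absurd ha (by decide)
  · exact pb_4a_1a
  · exact pb_4a_1s
  · exact pb_4a_2e
  · exact pb_4a_2a
  · exact pb_4a_2s
  · exact absurd ha (by decide)
  · exact absurd ha (by decide)
  · exact absurd ha (by decide)
  · exact absurd ha (by decide)
  · exact absurd ha (by decide)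
  · exact absurd ha (by decide)
  · exact absurd ha (by decide)
  · exact absurd ha (by decide)
  · exact absurd ha (by decide)
  · exact pb_4z_1a
  · exact pb_4z_1s
  · exact pb_4z_2e
  · exact pb_4z_2a
  · exact pb_4z_2s
  · exact absurd ha (by decide)
  · exact absurd ha (by decide)
  · exact absurd ha (by decide)
  · exact absurd ha (by decide)
  · exact absurd ha (by decide)
  · exact absurd ha (by decide)
  · exact absurd ha (by decide)
  · exact absurd ha (by decide)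
  · exact absurd ha (by decide)
  · exact pb_4s_1a
  · exact pb_4s_1s
  · exact pb_4s_2e
  · exact pb_4s_2a
  · exact pb_4s_2s
  · exact absurd ha (by decide)
  · exact absurd ha (by decide)
  · exact absurd ha (by decide)
  · exact absurd ha (by decide)
  · exact absurd ha (by decide)
  · exact absurd ha (by decide)
  · exact absurd ha (by decide)
  · exact absurd ha (by decide)
  · exact absurd ha (by decide)
  · exact pb_5_1a
  · exact pb_5_1s
  · exact pb_5_2e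
  · exact pb_5_2a
  · exact pb_5_2s
  · exact absurd ha (by decide)
  · exact absurd ha (by decide)
  · exact absurd ha (by decide)
  · exact absurd ha (by decide)
  · exact absurd ha (by decide)
  · exact absurd ha (by decide)
  · exact absurd ha (by decide)
  · exact absurd ha (by decide)
  · exact absurd ha (by decide)
  · exact pb_6_1a
  · exact pb_6_1s
  · exact pb_6_2e
  · exact pb_6_2a
  · exact pb_6_2s
  · exact absurd ha (by decide)
  · exact absurd ha (by decide)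
  · exact absurd ha (by decide)
  · exact absurd ha (by decide)
  · exact absurd ha (by decide)
  · exact absurd ha (by decide)
  · exact absurd ha (by decide)
  · exact absurd ha (by decide)
  · exact absurd ha (by decide)

/-- the bounds of the sum -/
def GU : CS → CS → List GC
  | .s1a, .s1s => gu1_1
  | .s1a, .s2e => gu1_2e
  | .s1a, .s2a => gu1_2
  | .s1a, .s2s => gu1_2
  | .s1a, .s3e => gu1_3e
  | .s1a, .s3a => gu1_3
  | .s1a, .s3s => gu1_3
  | .s1a, .s4e => gu1_r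
  | .s1a, .s4a => gu1_r
  | .s1a, .s4z => gu1_r
  | .s1a, .s4s => gu1_r
  | .s1a, .s5 => gu1_r
  | .s1a, .s6 => gu1_r
  | .s1s, .s1a => gu1_1
  | .s1s, .s1s => gu1_1
  | .s1s, .s2e => gu1_2e
  | .s1s, .s2a => gu1_2
  | .s1s, .s2s => gu1_2
  | .s1s, .s3e => gu1_3e
  | .s1s, .s3a => gu1_3
  | .s1s, .s3s => gu1_3
  | .s1s, .s4e => gu1_r
  | .s1s, .s4a => gu1_r
  | .s1s, .s4z => gu1_r
  | .s1s, .s4s => gu1_r
  | .s1s, .s5 => gu1_r
  | .s1s, .s6 => gu1_r
  | .s2e, .s1a => gu1_2e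
  | .s2e, .s1s => gu1_2e
  | .s2e, .s2e => gu2e_2e
  | .s2e, .s2a => gu2e_2
  | .s2e, .s2s => gu2e_2
  | .s2e, .s3e => gu2e_3e
  | .s2e, .s3a => gu2e_3
  | .s2e, .s3s => gu2e_3
  | .s2e, .s4e => gu2e_r
  | .s2e, .s4a => gu2e_r
  | .s2e, .s4z => gu2e_r
  | .s2e, .s4s => gu2e_r
  | .s2e, .s5 => gu2e_r
  | .s2e, .s6 => gu2e_r
  | .s2a, .s1a => gu1_2
  | .s2a, .s1s => gu1_2
  | .s2a, .s2e => gu2e_2
  | .s2a, .s2a => gu2_2
  | .s2a, .s2s => gu2_2
  | .s2a, .s3e => gu2_3e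
  | .s2a, .s3a => gu2_3
  | .s2a, .s3s => gu2_3
  | .s2a, .s4e => gu2_r
  | .s2a, .s4a => gu2_r
  | .s2a, .s4z => gu2_r
  | .s2a, .s4s => gu2_r
  | .s2a, .s5 => gu2_r
  | .s2a, .s6 => gu2_r
  | .s2s, .s1a => gu1_2
  | .s2s, .s1s => gu1_2
  | .s2s, .s2e => gu2e_2
  | .s2s, .s2a => gu2_2
  | .s2s, .s2s => gu2_2
  | .s2s, .s3e => gu2_3e
  | .s2s, .s3a => gu2_3
  | .s2s, .s3s => gu2_3
  | .s2s, .s4e => gu2_r
  | .s2s, .s4a => gu2_r
  | .s2s, .s4z => gu2_r
  | .s2s, .s4s => gu2_r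
  | .s2s, .s5 => gu2_r
  | .s2s, .s6 => gu2_r
  | .s3e, .s1a => gu1_3e
  | .s3e, .s1s => gu1_3e
  | .s3e, .s2e => gu2e_3e
  | .s3e, .s2a => gu2_3e
  | .s3e, .s2s => gu2_3e
  | .s3a, .s1a => gu1_3
  | .s3a, .s1s => gu1_3
  | .s3a, .s2e => gu2e_3
  | .s3a, .s2a => gu2_3
  | .s3a, .s2s => gu2_3
  | .s3s, .s1a => gu1_3
  | .s3s, .s1s => gu1_3
  | .s3s, .s2e => gu2e_3
  | .s3s, .s2a => gu2_3
  | .s3s, .s2s => gu2_3
  | .s4e, .s1a => gu1_r
  | .s4e, .s1s => gu1_r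
  | .s4e, .s2e => gu2e_r
  | .s4e, .s2a => gu2_r
  | .s4e, .s2s => gu2_r
  | .s4a, .s1a => gu1_r
  | .s4a, .s1s => gu1_r
  | .s4a, .s2e => gu2e_r
  | .s4a, .s2a => gu2_r
  | .s4a, .s2s => gu2_r
  | .s4z, .s1a => gu1_r
  | .s4z, .s1s => gu1_r
  | .s4z, .s2e => gu2e_r
  | .s4z, .s2a => gu2_r
  | .s4z, .s2s => gu2_r
  | .s4s, .s1a => gu1_r
  | .s4s, .s1s => gu1_r
  | .s4s, .s2e => gu2e_r
  | .s4s, .s2a => gu2_r
  | .s4s, .s2s => gu2_r
  | .s5, .s1a => gu1_r
  | .s5, .s1s => gu1_r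
  | .s5, .s2e => gu2e_r
  | .s5, .s2a => gu2_r
  | .s5, .s2s => gu2_r
  | .s6, .s1a => gu1_r
  | .s6, .s1s => gu1_r
  | .s6, .s2e => gu2e_r
  | .s6, .s2a => gu2_r
  | .s6, .s2s => gu2_r
  | _, _ => []

/-- the statement for the sum for two cases -/
def PU (c c' : CS) : Prop :=
  ∀ {K : KFam} {d : ℕ} {l : SK} {d' : ℕ} {l' : SK} {R k k' : ℂ}, KOK K → c.Has d l →
    c'.Has d' l' → HDt K .s d l d' l' R k k' → (acot2 (Sp R k)).re < 1 / 2 →
    (acot2 (Sp R k')).re < 1 / 2 → ∀ e ∈ GU c c', e.P (acot2 (Sp R k) + acot2 (Sp R k'))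

section

open CS

theorem pu_1a_1s : PU .s1a .s1s := fun hK h1 h2 h e1 e2 =>
  useU (okE h1) (okE h2) r_1a_1s hK h gu1_1_ok e1 e2
theorem pu_1a_2e : PU .s1a .s2e := fun hK h1 h2 h e1 e2 =>
  useU (okE h1) (okE h2) r_1a_2e hK h gu1_2e_ok e1 e2
theorem pu_1a_2a : PU .s1a .s2a := fun hK h1 h2 h e1 e2 =>
  useU (okE h1) (okE h2) r_1a_2a hK h gu1_2_ok e1 e2
theorem pu_1a_2s : PU .s1a .s2s := fun hK h1 h2 h e1 e2 =>
  useU (okE h1) (okE h2) r_1a_2s hK h gu1_2_ok e1 e2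
theorem pu_1a_3e : PU .s1a .s3e := fun hK h1 h2 h e1 e2 =>
  useU (okE h1) (okE h2) r_1a_3e hK h gu1_3e_ok e1 e2
theorem pu_1a_3a : PU .s1a .s3a := fun hK h1 h2 h e1 e2 =>
  useU (okE h1) (okE h2) r_1a_3a hK h gu1_3_ok e1 e2
theorem pu_1a_3s : PU .s1a .s3s := fun hK h1 h2 h e1 e2 =>
  useU (okE h1) (okE h2) r_1a_3s hK h gu1_3_ok e1 e2
theorem pu_1a_4e : PU .s1a .s4e := fun hK h1 h2 h e1 e2 =>
  useU (okE h1) (okM h2) r_1a_Z5 hK h gu1_r_ok e1 e2
theorem pu_1a_4a : PU .s1a .s4a := fun hK h1 h2 h e1 e2 =>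
  useU (okE h1) (okM h2) r_1a_Z5 hK h gu1_r_ok e1 e2
theorem pu_1a_4z : PU .s1a .s4z := fun hK h1 h2 h e1 e2 =>
  useU (okE h1) (okM h2) r_1a_Z5 hK h gu1_r_ok e1 e2
theorem pu_1a_4s : PU .s1a .s4s := fun hK h1 h2 h e1 e2 =>
  useU (okE h1) (okM h2) r_1a_ZL hK h gu1_r_ok e1 e2
theorem pu_1a_5 : PU .s1a .s5 := fun hK h1 h2 h e1 e2 =>
  useU (okE h1) (okM h2) r_1a_ZL hK h gu1_r_ok e1 e2
theorem pu_1a_6 : PU .s1a .s6 := fun hK h1 h2 h e1 e2 =>
  useU (okE h1) (okM h2) r_1a_ZL hK h gu1_r_ok e1 e2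
theorem pu_1s_1s : PU .s1s .s1s := fun hK h1 h2 h e1 e2 =>
  useU' (okE h1) (okE h2) r_1s_1s hK h gu1_1_ok e1 e2
theorem pu_1s_2e : PU .s1s .s2e := fun hK h1 h2 h e1 e2 =>
  useU' (okE h1) (okE h2) r_1s_2e hK h gu1_2e_ok e1 e2
theorem pu_1s_2a : PU .s1s .s2a := fun hK h1 h2 h e1 e2 =>
  useU' (okE h1) (okE h2) r_1s_2a hK h gu1_2_ok e1 e2
theorem pu_1s_2s : PU .s1s .s2s := fun hK h1 h2 h e1 e2 =>
  useU' (okE h1) (okE h2) r_1s_2s hK h gu1_2_ok e1 e2
theorem pu_1s_3e : PU .s1s .s3e := fun hK h1 h2 h e1 e2 =>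
  useU' (okE h1) (okE h2) r_1s_3e hK h gu1_3e_ok e1 e2
theorem pu_1s_3a : PU .s1s .s3a := fun hK h1 h2 h e1 e2 =>
  useU' (okE h1) (okE h2) r_1s_3a hK h gu1_3_ok e1 e2
theorem pu_1s_3s : PU .s1s .s3s := fun hK h1 h2 h e1 e2 =>
  useU' (okE h1) (okE h2) r_1s_3s hK h gu1_3_ok e1 e2
theorem pu_1s_4e : PU .s1s .s4e := fun hK h1 h2 h e1 e2 =>
  useU' (okE h1) (okE h2) r_1s_4e hK h gu1_r_ok e1 e2
theorem pu_1s_4a : PU .s1s .s4a := fun hK h1 h2 h e1 e2 =>
  useU' (okE h1) (okE h2) r_1s_4a hK h gu1_r_ok e1 e2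
theorem pu_1s_4z : PU .s1s .s4z := fun hK h1 h2 h e1 e2 =>
  useU' (okE h1) (okE h2) r_1s_4z hK h gu1_r_ok e1 e2
theorem pu_1s_4s : PU .s1s .s4s := fun hK h1 h2 h e1 e2 =>
  useU' (okE h1) (okL h2) r_1s_ZL hK h gu1_r_ok e1 e2
theorem pu_1s_5 : PU .s1s .s5 := fun hK h1 h2 h e1 e2 =>
  useU' (okE h1) (okL h2) r_1s_ZL hK h gu1_r_ok e1 e2
theorem pu_1s_6 : PU .s1s .s6 := fun hK h1 h2 h e1 e2 =>
  useU' (okE h1) (okL h2) r_1s_ZL hK h gu1_r_ok e1 e2
theorem pu_2e_2e : PU .s2e .s2e := fun hK h1 h2 h e1 e2 =>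
  useU (okE h1) (okE h2) r_2e_2e hK h gu2e_2e_ok e1 e2
theorem pu_2e_2a : PU .s2e .s2a := fun hK h1 h2 h e1 e2 =>
  useU (okE h1) (okE h2) r_2e_2a hK h gu2e_2_ok e1 e2
theorem pu_2e_2s : PU .s2e .s2s := fun hK h1 h2 h e1 e2 =>
  useU (okE h1) (okE h2) r_2e_2s hK h gu2e_2_ok e1 e2
theorem pu_2e_3e : PU .s2e .s3e := fun hK h1 h2 h e1 e2 =>
  useU (okE h1) (okE h2) r_2e_3e hK h gu2e_3e_ok e1 e2
theorem pu_2e_3a : PU .s2e .s3a := fun hK h1 h2 h e1 e2 =>
  useU (okE h1) (okE h2) r_2e_3a hK h gu2e_3_ok e1 e2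
theorem pu_2e_3s : PU .s2e .s3s := fun hK h1 h2 h e1 e2 =>
  useU (okE h1) (okE h2) r_2e_3s hK h gu2e_3_ok e1 e2
theorem pu_2e_4e : PU .s2e .s4e := fun hK h1 h2 h e1 e2 =>
  useU (okE h1) (okZ h2) r_2e_Z hK h gu2e_r_ok e1 e2
theorem pu_2e_4a : PU .s2e .s4a := fun hK h1 h2 h e1 e2 =>
  useU (okE h1) (okZ h2) r_2e_Z hK h gu2e_r_ok e1 e2
theorem pu_2e_4z : PU .s2e .s4z := fun hK h1 h2 h e1 e2 =>
  useU (okE h1) (okZ h2) r_2e_Z hK h gu2e_r_ok e1 e2
theorem pu_2e_4s : PU .s2e .s4s := fun hK h1 h2 h e1 e2 =>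
  useU (okE h1) (okZ h2) r_2e_Z hK h gu2e_r_ok e1 e2
theorem pu_2e_5 : PU .s2e .s5 := fun hK h1 h2 h e1 e2 =>
  useU (okE h1) (okZ h2) r_2e_Z hK h gu2e_r_ok e1 e2
theorem pu_2e_6 : PU .s2e .s6 := fun hK h1 h2 h e1 e2 =>
  useU (okE h1) (okZ h2) r_2e_Z hK h gu2e_r_ok e1 e2
theorem pu_2a_2a : PU .s2a .s2a := fun hK h1 h2 h e1 e2 =>
  useU (okE h1) (okE h2) r_2a_2a hK h gu2_2_ok e1 e2
theorem pu_2a_2s : PU .s2a .s2s := fun hK h1 h2 h e1 e2 =>
  useU (okE h1) (okE h2) r_2a_2s hK h gu2_2_ok e1 e2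
theorem pu_2a_3e : PU .s2a .s3e := fun hK h1 h2 h e1 e2 =>
  useU (okE h1) (okE h2) r_2a_3e hK h gu2_3e_ok e1 e2
theorem pu_2a_3a : PU .s2a .s3a := fun hK h1 h2 h e1 e2 =>
  useU (okE h1) (okE h2) r_2a_3a hK h gu2_3_ok e1 e2
theorem pu_2a_3s : PU .s2a .s3s := fun hK h1 h2 h e1 e2 =>
  useU (okE h1) (okE h2) r_2a_3s hK h gu2_3_ok e1 e2
theorem pu_2a_4e : PU .s2a .s4e := fun hK h1 h2 h e1 e2 =>
  useU (okE h1) (okE h2) r_2a_4e hK h gu2_r_ok e1 e2
theorem pu_2a_4a : PU .s2a .s4a := fun hK h1 h2 h e1 e2 =>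
  useU (okE h1) (okE h2) r_2a_4a hK h gu2_r_ok e1 e2
theorem pu_2a_4z : PU .s2a .s4z := fun hK h1 h2 h e1 e2 =>
  useU (okE h1) (okE h2) r_2a_4z hK h gu2_r_ok e1 e2
theorem pu_2a_4s : PU .s2a .s4s := fun hK h1 h2 h e1 e2 =>
  useU (okE h1) (okL h2) r_2a_ZL hK h gu2_r_ok e1 e2
theorem pu_2a_5 : PU .s2a .s5 := fun hK h1 h2 h e1 e2 =>
  useU (okE h1) (okL h2) r_2a_ZL hK h gu2_r_ok e1 e2
theorem pu_2a_6 : PU .s2a .s6 := fun hK h1 h2 h e1 e2 =>
  useU (okE h1) (okL h2) r_2a_ZL hK h gu2_r_ok e1 e2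
theorem pu_2s_2s : PU .s2s .s2s := fun hK h1 h2 h e1 e2 =>
  useU (okE h1) (okE h2) r_2s_2s hK h gu2_2_ok e1 e2
theorem pu_2s_3e : PU .s2s .s3e := fun hK h1 h2 h e1 e2 =>
  useU (okE h1) (okE h2) r_2s_3e hK h gu2_3e_ok e1 e2
theorem pu_2s_3a : PU .s2s .s3a := fun hK h1 h2 h e1 e2 =>
  useU (okE h1) (okE h2) r_2s_3a hK h gu2_3_ok e1 e2
theorem pu_2s_3s : PU .s2s .s3s := fun hK h1 h2 h e1 e2 =>
  useU (okE h1) (okE h2) r_2s_3s hK h gu2_3_ok e1 e2
theorem pu_2s_4e : PU .s2s .s4e := fun hK h1 h2 h e1 e2 =>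
  useU (okE h1) (okE h2) r_2s_4e hK h gu2_r_ok e1 e2
theorem pu_2s_4a : PU .s2s .s4a := fun hK h1 h2 h e1 e2 =>
  useU (okE h1) (okE h2) r_2s_4a hK h gu2_r_ok e1 e2
theorem pu_2s_4z : PU .s2s .s4z := fun hK h1 h2 h e1 e2 =>
  useU (okE h1) (okE h2) r_2s_4z hK h gu2_r_ok e1 e2
theorem pu_2s_4s : PU .s2s .s4s := fun hK h1 h2 h e1 e2 =>
  useU (okE h1) (okL h2) r_2s_ZL hK h gu2_r_ok e1 e2
theorem pu_2s_5 : PU .s2s .s5 := fun hK h1 h2 h e1 e2 =>
  useU (okE h1) (okL h2) r_2s_ZL hK h gu2_r_ok e1 e2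
theorem pu_2s_6 : PU .s2s .s6 := fun hK h1 h2 h e1 e2 =>
  useU (okE h1) (okL h2) r_2s_ZL hK h gu2_r_ok e1 e2

lemma PU.rev {c c' : CS} (h : PU c c') (hs : GU c c' = GU c' c) : PU c' c := by
  intro K d l d' l' R k k' hK h1 h2 h' e1 e2
  rw [add_comm, ← hs]
  exact h hK h2 h1 (rev_s h') e2 e1

end

/-- the bounds of the sum at a split hinge -/
theorem pu_all {c c' : CS} (ha : CS.adm c c' = true) : PU c c' := by
  cases c <;> cases c'
  · exact absurd ha (by decide)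
  · exact pu_1a_1s
  · exact pu_1a_2e
  · exact pu_1a_2a
  · exact pu_1a_2s
  · exact pu_1a_3e
  · exact pu_1a_3a
  · exact pu_1a_3s
  · exact pu_1a_4e
  · exact pu_1a_4a
  · exact pu_1a_4z
  · exact pu_1a_4s
  · exact pu_1a_5
  · exact pu_1a_6
  · exact PU.rev @pu_1a_1s rfl
  · exact pu_1s_1s
  · exact pu_1s_2e
  · exact pu_1s_2a
  · exact pu_1s_2s
  · exact pu_1s_3e
  · exact pu_1s_3a
  · exact pu_1s_3s
  · exact pu_1s_4e
  · exact pu_1s_4a
  · exact pu_1s_4z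
  · exact pu_1s_4s
  · exact pu_1s_5
  · exact pu_1s_6
  · exact PU.rev @pu_1a_2e rfl
  · exact PU.rev @pu_1s_2e rfl
  · exact pu_2e_2e
  · exact pu_2e_2a
  · exact pu_2e_2s
  · exact pu_2e_3e
  · exact pu_2e_3a
  · exact pu_2e_3s
  · exact pu_2e_4e
  · exact pu_2e_4a
  · exact pu_2e_4z
  · exact pu_2e_4s
  · exact pu_2e_5
  · exact pu_2e_6
  · exact PU.rev @pu_1a_2a rfl
  · exact PU.rev @pu_1s_2a rfl
  · exact PU.rev @pu_2e_2a rfl
  · exact pu_2a_2a
  · exact pu_2a_2s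
  · exact pu_2a_3e
  · exact pu_2a_3a
  · exact pu_2a_3s
  · exact pu_2a_4e
  · exact pu_2a_4a
  · exact pu_2a_4z
  · exact pu_2a_4s
  · exact pu_2a_5
  · exact pu_2a_6
  · exact PU.rev @pu_1a_2s rfl
  · exact PU.rev @pu_1s_2s rfl
  · exact PU.rev @pu_2e_2s rfl
  · exact PU.rev @pu_2a_2s rfl
  · exact pu_2s_2s
  · exact pu_2s_3e
  · exact pu_2s_3a
  · exact pu_2s_3s
  · exact pu_2s_4e
  · exact pu_2s_4a
  · exact pu_2s_4z
  · exact pu_2s_4s
  · exact pu_2s_5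
  · exact pu_2s_6
  · exact PU.rev @pu_1a_3e rfl
  · exact PU.rev @pu_1s_3e rfl
  · exact PU.rev @pu_2e_3e rfl
  · exact PU.rev @pu_2a_3e rfl
  · exact PU.rev @pu_2s_3e rfl
  · exact absurd ha (by decide)
  · exact absurd ha (by decide)
  · exact absurd ha (by decide)
  · exact absurd ha (by decide)
  · exact absurd ha (by decide)
  · exact absurd ha (by decide)
  · exact absurd ha (by decide)
  · exact absurd ha (by decide)
  · exact absurd ha (by decide)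
  · exact PU.rev @pu_1a_3a rfl
  · exact PU.rev @pu_1s_3a rfl
  · exact PU.rev @pu_2e_3a rfl
  · exact PU.rev @pu_2a_3a rfl
  · exact PU.rev @pu_2s_3a rfl
  · exact absurd ha (by decide)
  · exact absurd ha (by decide)
  · exact absurd ha (by decide)
  · exact absurd ha (by decide)
  · exact absurd ha (by decide)
  · exact absurd ha (by decide)
  · exact absurd ha (by decide)
  · exact absurd ha (by decide)
  · exact absurd ha (by decide)
  · exact PU.rev @pu_1a_3s rfl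
  · exact PU.rev @pu_1s_3s rfl
  · exact PU.rev @pu_2e_3s rfl
  · exact PU.rev @pu_2a_3s rfl
  · exact PU.rev @pu_2s_3s rfl
  · exact absurd ha (by decide)
  · exact absurd ha (by decide)
  · exact absurd ha (by decide)
  · exact absurd ha (by decide)
  · exact absurd ha (by decide)
  · exact absurd ha (by decide)
  · exact absurd ha (by decide)
  · exact absurd ha (by decide)
  · exact absurd ha (by decide)
  · exact PU.rev @pu_1a_4e rfl
  · exact PU.rev @pu_1s_4e rfl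
  · exact PU.rev @pu_2e_4e rfl
  · exact PU.rev @pu_2a_4e rfl
  · exact PU.rev @pu_2s_4e rfl
  · exact absurd ha (by decide)
  · exact absurd ha (by decide)
  · exact absurd ha (by decide)
  · exact absurd ha (by decide)
  · exact absurd ha (by decide)
  · exact absurd ha (by decide)
  · exact absurd ha (by decide)
  · exact absurd ha (by decide)
  · exact absurd ha (by decide)
  · exact PU.rev @pu_1a_4a rfl
  · exact PU.rev @pu_1s_4a rfl
  · exact PU.rev @pu_2e_4a rfl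
  · exact PU.rev @pu_2a_4a rfl
  · exact PU.rev @pu_2s_4a rfl
  · exact absurd ha (by decide)
  · exact absurd ha (by decide)
  · exact absurd ha (by decide)
  · exact absurd ha (by decide)
  · exact absurd ha (by decide)
  · exact absurd ha (by decide)
  · exact absurd ha (by decide)
  · exact absurd ha (by decide)
  · exact absurd ha (by decide)
  · exact PU.rev @pu_1a_4z rfl
  · exact PU.rev @pu_1s_4z rfl
  · exact PU.rev @pu_2e_4z rfl
  · exact PU.rev @pu_2a_4z rfl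
  · exact PU.rev @pu_2s_4z rfl
  · exact absurd ha (by decide)
  · exact absurd ha (by decide)
  · exact absurd ha (by decide)
  · exact absurd ha (by decide)
  · exact absurd ha (by decide)
  · exact absurd ha (by decide)
  · exact absurd ha (by decide)
  · exact absurd ha (by decide)
  · exact absurd ha (by decide)
  · exact PU.rev @pu_1a_4s rfl
  · exact PU.rev @pu_1s_4s rfl
  · exact PU.rev @pu_2e_4s rfl
  · exact PU.rev @pu_2a_4s rfl
  · exact PU.rev @pu_2s_4s rfl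
  · exact absurd ha (by decide)
  · exact absurd ha (by decide)
  · exact absurd ha (by decide)
  · exact absurd ha (by decide)
  · exact absurd ha (by decide)
  · exact absurd ha (by decide)
  · exact absurd ha (by decide)
  · exact absurd ha (by decide)
  · exact absurd ha (by decide)
  · exact PU.rev @pu_1a_5 rfl
  · exact PU.rev @pu_1s_5 rfl
  · exact PU.rev @pu_2e_5 rfl
  · exact PU.rev @pu_2a_5 rfl
  · exact PU.rev @pu_2s_5 rfl
  · exact absurd ha (by decide)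
  · exact absurd ha (by decide)
  · exact absurd ha (by decide)
  · exact absurd ha (by decide)
  · exact absurd ha (by decide)
  · exact absurd ha (by decide)
  · exact absurd ha (by decide)
  · exact absurd ha (by decide)
  · exact absurd ha (by decide)
  · exact PU.rev @pu_1a_6 rfl
  · exact PU.rev @pu_1s_6 rfl
  · exact PU.rev @pu_2e_6 rfl
  · exact PU.rev @pu_2a_6 rfl
  · exact PU.rev @pu_2s_6 rfl
  · exact absurd ha (by decide)
  · exact absurd ha (by decide)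
  · exact absurd ha (by decide)
  · exact absurd ha (by decide)
  · exact absurd ha (by decide)
  · exact absurd ha (by decide)
  · exact absurd ha (by decide)
  · exact absurd ha (by decide)
  · exact absurd ha (by decide)

/-- digit `1` with two split sides: the sum -/
def PV (c : CS) : Prop :=
  ∀ {K : KFam} {dl : ℕ} {ll : SK} {dr : ℕ} {rr : SK} {w kl kr : ℂ}, KOK K → c.Has dr rr →
    RDt K 1 .s .s dl ll dr rr w kl kr → (acot2 (Sp (RR w kl) (Complex.cos w))).re < 1 / 2 →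
    (acot2 (Sp (RR w kr) (Complex.cos w))).re < 1 / 2 → ∀ e ∈ gvv, e.P
      (acot2 (Sp (RR w kl) (Complex.cos w)) + acot2 (Sp (RR w kr) (Complex.cos w)))

section

open CS

theorem pv_1a : PV .s1a := fun hK h2 h e1 e2 =>
  useV c1s_ok (okE h2) r_1s_1a hK h gvv_ok e1 e2
theorem pv_1s : PV .s1s := fun hK h2 h e1 e2 =>
  useV c1s_ok (okE h2) r_1s_1s hK h gvv_ok e1 e2
theorem pv_2e : PV .s2e := fun hK h2 h e1 e2 =>
  useV c1s_ok (okE h2) r_1s_2e hK h gvv_ok e1 e2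
theorem pv_2a : PV .s2a := fun hK h2 h e1 e2 =>
  useV c1s_ok (okE h2) r_1s_2a hK h gvv_ok e1 e2
theorem pv_2s : PV .s2s := fun hK h2 h e1 e2 =>
  useV c1s_ok (okE h2) r_1s_2s hK h gvv_ok e1 e2
theorem pv_3e : PV .s3e := fun hK h2 h e1 e2 =>
  useV c1s_ok (okE h2) r_1s_3e hK h gvv_ok e1 e2
theorem pv_3a : PV .s3a := fun hK h2 h e1 e2 =>
  useV c1s_ok (okE h2) r_1s_3a hK h gvv_ok e1 e2
theorem pv_3s : PV .s3s := fun hK h2 h e1 e2 =>
  useV c1s_ok (okE h2) r_1s_3s hK h gvv_ok e1 e2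
theorem pv_4e : PV .s4e := fun hK h2 h e1 e2 =>
  useV c1s_ok (okE h2) r_1s_4e hK h gvv_ok e1 e2
theorem pv_4a : PV .s4a := fun hK h2 h e1 e2 =>
  useV c1s_ok (okE h2) r_1s_4a hK h gvv_ok e1 e2
theorem pv_4z : PV .s4z := fun hK h2 h e1 e2 =>
  useV c1s_ok (okE h2) r_1s_4z hK h gvv_ok e1 e2
theorem pv_4s : PV .s4s := fun hK h2 h e1 e2 =>
  useV c1s_ok (okL h2) r_1s_ZL hK h gvv_ok e1 e2
theorem pv_5 : PV .s5 := fun hK h2 h e1 e2 =>
  useV c1s_ok (okL h2) r_1s_ZL hK h gvv_ok e1 e2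
theorem pv_6 : PV .s6 := fun hK h2 h e1 e2 =>
  useV c1s_ok (okL h2) r_1s_ZL hK h gvv_ok e1 e2

end

theorem pv_all (c : CS) : PV c := by
  cases c
  · exact pv_1a
  · exact pv_1s
  · exact pv_2e
  · exact pv_2a
  · exact pv_2s
  · exact pv_3e
  · exact pv_3a
  · exact pv_3s
  · exact pv_4e
  · exact pv_4a
  · exact pv_4z
  · exact pv_4s
  · exact pv_5
  · exact pv_6

end Pool.Agent.Work.MP_b30479_gtS.G2.CN.S6

end

section

/-!
# Split hinges: the bounds at a digit `1` with one split side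
-/

namespace Pool.Agent.Work.MP_b30479_gtS.G2.CN.S6

open Complex SR NumIs

/-- digit `1` with one split side: bounds of the unsplit hinge -/
def GXa : CA → List GC
  | .a3a => gx3a
  | .a3s => gx3a
  | .a3e => gx3ea
  | .a2a => gx2a
  | .a2s => gx2a
  | .a2e => gx2ea
  | .a4a => gxra
  | .a4z => gxra
  | .a4e => gxra
  | .a4s => gxra
  | .n5 => gxra
  | _ => []

/-- bounds of the split hinge -/
def GXb : CA → List GC
  | .a3a => gx3b
  | .a3s => gx3b
  | .a3e => gx3eb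
  | .a2a => gx2b
  | .a2s => gx2b
  | .a2e => gx2eb
  | .a4a => gxrb
  | .a4z => gxrb
  | .a4e => gxrb
  | .a4s => gxrb
  | .n5 => gxrb
  | _ => []

/-- bounds of the sum -/
def GXc : CA → List GC
  | .a3a => gx3c
  | .a3s => gx3c
  | .a3e => gx3ec
  | .a2a => gx2c
  | .a2s => gx2c
  | .a2e => gx2ec
  | .a4a => gxrc
  | .a4z => gxrc
  | .a4e => gxrc
  | .a4s => gxrc
  | .n5 => gxrc
  | _ => []

/-- digit `1` with one split side -/
def PX (c : CA) : Prop :=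
  ∀ {K : KFam} {dl : ℕ} {ll : SK} {dr : ℕ} {rr : SK} {w kl kr : ℂ}, KOK K → c.Has dr rr →
    RDt K 1 .s .a dl ll dr rr w kl kr → (acot2 (Sp (RR w kl) (Complex.cos w))).re < 1 / 2 →
    (∀ e ∈ GXa c, e.P (acot2 (RR w kr))) ∧
    (∀ e ∈ GXb c, e.P (acot2 (Sp (RR w kl) (Complex.cos w)))) ∧
    ∀ e ∈ GXc c, e.P (acot2 (Sp (RR w kl) (Complex.cos w)) + acot2 (RR w kr))

theorem px_a3a : PX .a3a := fun hK h2 h e1 =>
  useX a1s_ok (CA.ok h2) r_x_a3a hK h gx3_ok e1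
theorem px_a3s : PX .a3s := fun hK h2 h e1 =>
  useX a1s_ok (CA.ok h2) r_x_a3s hK h gx3_ok e1
theorem px_a3e : PX .a3e := fun hK h2 h e1 =>
  useX a1s_ok (CA.ok h2) r_x_a3e hK h gx3e_ok e1
theorem px_a2a : PX .a2a := fun hK h2 h e1 =>
  useX a1s_ok (CA.ok h2) r_x_a2a hK h gx2_ok e1
theorem px_a2s : PX .a2s := fun hK h2 h e1 =>
  useX a1s_ok (CA.ok h2) r_x_a2s hK h gx2_ok e1
theorem px_a2e : PX .a2e := fun hK h2 h e1 =>
  useX a1s_ok (CA.ok h2) r_x_a2e hK h gx2e_ok e1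
theorem px_a4a : PX .a4a := fun hK h2 h e1 =>
  useX a1s_ok (CA.ok h2) r_x_a4a hK h gxr_ok e1
theorem px_a4z : PX .a4z := fun hK h2 h e1 =>
  useX a1s_ok (CA.ok h2) r_x_a4z hK h gxr_ok e1
theorem px_a4e : PX .a4e := fun hK h2 h e1 =>
  useX a1s_ok (CA.ok h2) r_x_a4e hK h gxr_ok e1
theorem px_a4s : PX .a4s := fun hK h2 h e1 =>
  useX a1s_ok (CA.ok h2) r_x_a4s hK h gxr_ok e1
theorem px_n5 : PX .n5 := fun hK h2 h e1 =>
  useX a1s_ok (CA.ok h2) r_x_n5 hK h gxr_ok e1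

theorem px_all {c : CA} (hc : c ≠ .a1s) : PX c := by
  cases c
  · exact px_a3a
  · exact px_a3s
  · exact px_a3e
  · exact absurd rfl hc
  · exact px_a2a
  · exact px_a2s
  · exact px_a2e
  · exact px_a4a
  · exact px_a4z
  · exact px_a4e
  · exact px_a4s
  · exact px_n5

end Pool.Agent.Work.MP_b30479_gtS.G2.CN.S6

end

section

/-!
# The facts about the split hinges

`locS`: the facts about the split hinges hold for every family of sets in the polygons; further facts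
about the sums of the real parts.
-/

namespace Pool.Agent.Work.MP_b30479_gtS.G2.CN.S6

open Complex SR NumIs

/-! ### the numbers -/

/-- the box of a split hinge, in units of `1 / 10000` -/
def hbI : Cl → ℤ × ℤ × ℤ × ℤ
  | .one => (2750, 5000, -1180, 1180)
  | .two => (2360, 3920, -985, 180)
  | .twoE => (2170, 3110, -10, 660)
  | .three => (2260, 3140, -1145, -210)
  | .threeE => (2120, 2740, -780, -100)
  | .ring => (2140, 2980, -1580, -380)

theorem hb_eq (c : Cl) : hbox c .one false = ⟨((hbI c).1 : ℝ) / 10000, ((hbI c).2.1 : ℝ) / 10000,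
    ((hbI c).2.2.1 : ℝ) / 10000, ((hbI c).2.2.2 : ℝ) / 10000⟩ := by
  cases c <;> simp only [hbox, hbI] <;> push_cast <;> congr 1 <;> norm_num

/-- the windows at a digit `1`, in units of `1 / 10000` -/
def cwI : Cl → Cl → ℤ × ℤ × ℤ × ℤ
  | .one, .one => (-960, 560, -850, 600)
  | .one, .two => (-180, 790, -490, 950)
  | .one, .twoE => (-660, -160, -560, 370)
  | .one, .three => (210, 920, -220, 1110)
  | .one, .threeE => (100, 580, -110, 1010)
  | .one, .ring => (380, 1360, -100, 1430)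
  | .two, .one => (-930, 540, -490, 950)
  | .two, .two => (50, 790, 420, 1300)
  | .two, .twoE => (-490, -200, 210, 640)
  | .two, .three => (460, 940, 780, 1480)
  | .two, .threeE => (300, 590, 830, 1340)
  | .two, .ring => (630, 1450, 940, 1870)
  | .twoE, .one => (-330, 800, -560, 370)
  | .twoE, .two => (480, 985, 210, 640)
  | .twoE, .twoE => (-60, 10, -60, 60)
  | .twoE, .three => (870, 1145, 510, 770)
  | .twoE, .threeE => (690, 780, 510, 640)
  | .twoE, .ring => (1000, 1580, 640, 1060)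
  | .three, .one => (-910, 490, -220, 1110)
  | .three, .two => (100, 770, 780, 1480)
  | .three, .twoE => (-450, -250, 510, 770)
  | .threeE, .one => (-610, 650, -110, 1010)
  | .threeE, .two => (320, 910, 830, 1340)
  | .threeE, .twoE => (-240, -110, 510, 640)
  | .ring, .one => (-1170, 510, -100, 1430)
  | .ring, .two => (-80, 800, 940, 1870)
  | .ring, .twoE => (-610, -240, 640, 1060)
  | _, _ => (0, 0, 0, 0)

/-- classes of digits at most `2` -/
def low : Cl → Bool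
  | .one | .two | .twoE => true
  | _ => false

theorem cw_eq {P B : Cl} (h : (low P || low B) = true) : cw P B = ⟨((cwI P B).1 : ℝ) / 10000,
    ((cwI P B).2.1 : ℝ) / 10000, ((cwI P B).2.2.1 : ℝ) / 10000,
    ((cwI P B).2.2.2 : ℝ) / 10000⟩ := by
  cases P <;> cases B <;> first
    | exact absurd h (by decide)
    | (simp only [cw, cwI]; push_cast; congr 1 <;> norm_num)

/-! ### the boxes of the table -/

/-- the box of the table is good enough -/
def chkB (c c' : CS) : Bool :=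
  !(CS.adm c c') || (decide ((hbI c.cl).1 ≤ (BX c c').n0) &&
    decide (min ((BX c c').n1 : ℤ) 5000 ≤ (hbI c.cl).2.1) &&
    decide ((hbI c.cl).2.2.1 ≤ (BX c c').m0) && decide ((BX c c').m1 ≤ (hbI c.cl).2.2.2) &&
    decide (-(cwI c'.cl c.cl).2.1 ≤ (BX c c').m0) && decide ((BX c c').m1 ≤ -(cwI c'.cl c.cl).1) &&
    (low c.cl || low c'.cl) &&
    (decide ((BX c c').n1 < 5000) || (decide (c = .s1a) && decide (4 ≤ c'.dig) &&
      decide ((BX c c').n1 ≤ 7000))) &&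
    (decide (c.dig ≠ 4) || decide (-1280 ≤ (BX c c').m0)) &&
    (decide (c.dig ≠ 5) || decide (-1380 ≤ (BX c c').m0)) &&
    (decide (c ≠ .s4z) || decide ((BX c c').n1 ≤ 2969)) &&
    (decide (c ≠ .s4e) || (decide (2160 ≤ (BX c c').n0) && decide ((BX c c').n1 ≤ 2780))) &&
    (decide (c ≠ .s1s) || (decide ((cwI .one .one).1 ≤ (BX c c').m0) &&
      decide ((BX c c').m1 ≤ (cwI .one .one).2.1))))

theorem chkB_all (c c' : CS) : chkB c c' = true := by
  cases c <;> cases c' <;> rfl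

/-- the facts which follow from the table -/
structure ChkB (c c' : CS) : Prop where
  a1 : (hbI c.cl).1 ≤ (BX c c').n0
  a2 : min ((BX c c').n1 : ℤ) 5000 ≤ (hbI c.cl).2.1
  a3 : (hbI c.cl).2.2.1 ≤ (BX c c').m0
  a4 : (BX c c').m1 ≤ (hbI c.cl).2.2.2
  a5 : -(cwI c'.cl c.cl).2.1 ≤ (BX c c').m0
  a6 : (BX c c').m1 ≤ -(cwI c'.cl c.cl).1
  a7 : (low c.cl || low c'.cl) = true
  a8 : (BX c c').n1 < 5000 ∨ (c = .s1a ∧ 4 ≤ c'.dig ∧ (BX c c').n1 ≤ 7000)
  a9 : c.dig = 4 → -1280 ≤ (BX c c').m0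
  a10 : c.dig = 5 → -1380 ≤ (BX c c').m0
  a11 : c = .s4z → (BX c c').n1 ≤ 2969
  a12 : c = .s4e → 2160 ≤ (BX c c').n0 ∧ (BX c c').n1 ≤ 2780
  a13 : c = .s1s → (cwI .one .one).1 ≤ (BX c c').m0 ∧ (BX c c').m1 ≤ (cwI .one .one).2.1

theorem chkB_of {c c' : CS} (ha : CS.adm c c' = true) : ChkB c c' := by
  have h := chkB_all c c'
  unfold chkB at h
  rw [ha, Bool.not_true, Bool.false_or] at h
  simp only [Bool.and_eq_true, Bool.or_eq_true, decide_eq_true_eq] at h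
  obtain ⟨⟨⟨⟨⟨⟨⟨⟨⟨⟨⟨⟨h1, h2⟩, h3⟩, h4⟩, h5⟩, h6⟩, h7⟩, h8⟩, h9⟩, h10⟩, h11⟩, h12⟩, h13⟩ := h
  exact ⟨h1, h2, h3, h4, h5, h6, by rw [Bool.or_eq_true]; exact h7,
    h8.imp_right fun h => ⟨h.1.1, h.1.2, h.2⟩, fun h => h9.resolve_left (not_not.2 h),
    fun h => h10.resolve_left (not_not.2 h), fun h => h11.resolve_left (not_not.2 h),
    fun h => h12.resolve_left (not_not.2 h), fun h => h13.resolve_left (not_not.2 h)⟩

/-! ### the box -/

section
variable {K : KFam} (hK : KOK K) {d : ℕ} {l : SK} {d' : ℕ} {l' : SK} {R k k' : ℂ}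
include hK

omit hK in
lemma two_of (h : HDt K .s d l d' l' R k k') : ∃ c c' : CS, c.Has d l ∧ c'.Has d' l' ∧
    CS.adm c c' = true := by
  obtain ⟨c, h1⟩ := CS.has_of h.ok.left
  obtain ⟨c', h2⟩ := CS.has_of h.ok.right.symm
  exact ⟨c, c', h1, h2, CS.adm_of h1 h2 h.ok⟩

omit hK in
lemma dig4 {c : CS} (h : c.Has d l) (h4 : 4 ≤ c.dig) : 4 ≤ d := by
  have := CS.dig_of h
  omega

/-- the real part is less than `1 / 2` -/
theorem half_of {c c' : CS} (h1 : c.Has d l) (h2 : c'.Has d' l') (ha : CS.adm c c' = true)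
    (h : HDt K .s d l d' l' R k k') : (acot2 (Sp R k)).re < 1 / 2 := by
  have hb := pb_all ha hK h1 h2 h
  have t := chkB_of ha
  have hx : (acot2 (Sp R k)).re ≤ ((BX c c').n1 : ℝ) / 10000 := hb.2.1
  rcases t.a8 with h5 | ⟨rfl, h6, h7⟩
  · have : ((BX c c').n1 : ℝ) < 5000 := by exact_mod_cast h5
    linarith only [hx, this]
  · obtain ⟨rfl, rfl⟩ := h1
    refine half_1a hK h (dig4 h2 h6) ?_
    have : ((BX .s1a c').n1 : ℝ) ≤ 7000 := by exact_mod_cast h7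
    linarith only [hx, this]

theorem half (h : HDt K .s d l d' l' R k k') : (acot2 (Sp R k)).re < 1 / 2 := by
  obtain ⟨c, c', h1, h2, ha⟩ := two_of h
  exact half_of hK h1 h2 ha h

theorem half' (h : HDt K .s d l d' l' R k k') : (acot2 (Sp R k')).re < 1 / 2 :=
  half hK (rev_s h)

/-- the box of a split hinge -/
theorem sp_box (h : HDt K .s d l d' l' R k k') :
    (hbox (cK d l) .one false).In (acot2 (Sp R k)) ∧ (acot2 (Sp R k)).re < 1 / 2 := by
  obtain ⟨c, c', h1, h2, ha⟩ := two_of h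
  have hb := pb_all ha hK h1 h2 h
  have t := chkB_of ha
  have hh := half_of hK h1 h2 ha h
  refine ⟨?_, hh⟩
  rw [CS.cl_eq h1, hb_eq]
  obtain ⟨b1, b2, b3, b4⟩ := hb
  change ((BX c c').n0 : ℝ) / 10000 ≤ _ at b1
  change _ ≤ ((BX c c').n1 : ℝ) / 10000 at b2
  change ((BX c c').m0 : ℝ) / 10000 ≤ _ at b3
  change _ ≤ ((BX c c').m1 : ℝ) / 10000 at b4
  have e1 : ((hbI c.cl).1 : ℝ) ≤ (BX c c').n0 := by exact_mod_cast t.a1
  have e3 : ((hbI c.cl).2.2.1 : ℝ) ≤ (BX c c').m0 := by exact_mod_cast t.a3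
  have e4 : ((BX c c').m1 : ℝ) ≤ (hbI c.cl).2.2.2 := by exact_mod_cast t.a4
  refine ⟨?_, ?_, ?_, ?_⟩
  · show ((hbI c.cl).1 : ℝ) / 10000 ≤ _
    linarith only [b1, e1]
  · show _ ≤ ((hbI c.cl).2.1 : ℝ) / 10000
    rcases min_le_iff.1 t.a2 with h5 | h5
    · have : ((BX c c').n1 : ℝ) ≤ (hbI c.cl).2.1 := by exact_mod_cast h5
      linarith only [b2, this]
    · have : (5000 : ℝ) ≤ (hbI c.cl).2.1 := by exact_mod_cast h5
      linarith only [hh, this]
  · show ((hbI c.cl).2.2.1 : ℝ) / 10000 ≤ _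
    linarith only [b3, e3]
  · show _ ≤ ((hbI c.cl).2.2.2 : ℝ) / 10000
    linarith only [b4, e4]

end

/-! ### the sums -/

/-- the bounds of the sum of the table, in units of `1 / 10000` -/
def guI (l : List GC) : Option (ℤ × ℤ × ℕ) :=
  match l with
  | [.lo m _, .hi m' _, .arc n m'' _ _] => if 10000 ≤ m'' then some (m, m', n) else none
  | [.lo m _, .hi m' _, .arc n m'' _ _, _] => if 10000 ≤ m'' then some (m, m', n) else none
  | _ => none

lemma gu_spec {l : List GC} {m m' : ℤ} {n : ℕ} (h : guI l = some (m, m', n)) {v : ℂ}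
    (hl : ∀ e ∈ l, e.P v) (hv : v.re ≤ 1) :
    (m : ℝ) / 10000 ≤ v.im ∧ v.im ≤ (m' : ℝ) / 10000 ∧ v.re ≤ (n : ℝ) / 10000 := by
  have key : ∀ {a : ℤ} {c : ℤ} {b : ℤ} {c' : ℤ} {p q : ℕ} {x y : ℤ} {l' : List GC},
      (∀ e ∈ (GC.lo a c :: GC.hi b c' :: GC.arc p q x y :: l'), e.P v) → 10000 ≤ q →
      (a : ℝ) / 10000 ≤ v.im ∧ v.im ≤ (b : ℝ) / 10000 ∧ v.re ≤ (p : ℝ) / 10000 := by
    intro a c b c' p q x y l' hl hq
    have g1 : (GC.lo a c).P v := hl _ (by simp)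
    have g2 : (GC.hi b c').P v := hl _ (by simp)
    have g3 : (GC.arc p q x y).P v := hl _ (by simp)
    refine ⟨g1, g2, ?_⟩
    by_contra hc
    push Not at hc
    have : (10000 : ℝ) ≤ q := by exact_mod_cast hq
    exact g3 ⟨hc.le, by linarith only [hv, this]⟩
  unfold guI at h
  split at h
  · split_ifs at h with h5
    obtain ⟨rfl, rfl, rfl⟩ := by simpa using h
    exact key hl h5
  · split_ifs at h with h5
    obtain ⟨rfl, rfl, rfl⟩ := by simpa using h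
    exact key hl h5
  · simp at h

/-- the table of the sums is good enough -/
def chkU' (c c' : CS) : Bool :=
  !(CS.adm c c') || (match guI (GU c c') with
    | some (m, m', n) => decide (-(cwI c'.cl c.cl).2.2.2 ≤ m) && decide (m' ≤ -(cwI c'.cl c.cl).2.2.1) &&
        decide (n ≤ if (c.cl = .one ∧ c'.cl = .ring) ∨ (c.cl = .ring ∧ c'.cl = .one) then 7600
          else 8000)
    | none => false)

theorem chkU'_all (c c' : CS) : chkU' c c' = true := by
  cases c <;> cases c' <;> rfl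

section
variable {K : KFam} (hK : KOK K) {d : ℕ} {l : SK} {d' : ℕ} {l' : SK} {R k k' : ℂ}
include hK

/-- the sum at a split hinge -/
theorem sum_s (h : HDt K .s d l d' l' R k k') :
    -(cw (cK d' l') (cK d l)).s1 ≤ (acot2 (Sp R k) + acot2 (Sp R k')).im ∧
    (acot2 (Sp R k) + acot2 (Sp R k')).im ≤ -(cw (cK d' l') (cK d l)).s0 ∧
    (acot2 (Sp R k) + acot2 (Sp R k')).re ≤ 80 / 100 ∧
    ((cK d l = .one ∧ cK d' l' = .ring) ∨ (cK d l = .ring ∧ cK d' l' = .one) →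
      (acot2 (Sp R k) + acot2 (Sp R k')).re ≤ 76 / 100) := by
  obtain ⟨c, c', h1, h2, ha⟩ := two_of h
  have hu := pu_all ha hK h1 h2 h (half hK h) (half' hK h)
  have t := chkB_of ha
  have hv : (acot2 (Sp R k) + acot2 (Sp R k')).re ≤ 1 := by
    rw [Complex.add_re]
    linarith only [hK, h, half hK h, half' hK h]
  have g := chkU'_all c c'
  unfold chkU' at g
  rw [ha, Bool.not_true, Bool.false_or] at g
  rw [CS.cl_eq h1, CS.cl_eq h2, cw_eq (by rw [Bool.or_comm]; exact t.a7)]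
  split at g
  · rename_i m m' n e
    simp only [Bool.and_eq_true, decide_eq_true_eq] at g
    obtain ⟨⟨g1, g2⟩, g3⟩ := g
    obtain ⟨k1, k2, k3⟩ := gu_spec e hu hv
    have e1 : (-(cwI c'.cl c.cl).2.2.2 : ℝ) ≤ m := by exact_mod_cast g1
    have e2 : (m' : ℝ) ≤ -(cwI c'.cl c.cl).2.2.1 := by exact_mod_cast g2
    have e3 : (n : ℝ) ≤ 8000 := by
      have : n ≤ 8000 := g3.trans (by split_ifs <;> norm_num)
      exact_mod_cast this
    refine ⟨?_, ?_, by linarith only [k3, e3], fun h5 => ?_⟩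
    · show -(((cwI c'.cl c.cl).2.2.2 : ℝ) / 10000) ≤ _
      linarith only [k1, e1]
    · show _ ≤ -(((cwI c'.cl c.cl).2.2.1 : ℝ) / 10000)
      linarith only [k2, e2]
    · rw [if_pos h5] at g3
      have : (n : ℝ) ≤ 7600 := by exact_mod_cast g3
      linarith only [k3, this]
  · simp at g

/-- the window at a split hinge -/
theorem absd (h : HDt K .s d l d' l' R k k') :
    (cw (cK d' l') (cK d l)).In (-(acot2 (Sp R k)).im) (-(acot2 (Sp R k')).im) := by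
  obtain ⟨c, c', h1, h2, ha⟩ := two_of h
  have hb := pb_all ha hK h1 h2 h
  have t := chkB_of ha
  obtain ⟨s1, s2, -⟩ := sum_s hK h
  rw [Complex.add_im] at s1 s2
  have e := cw_eq (P := c'.cl) (B := c.cl) (by rw [Bool.or_comm]; exact t.a7)
  rw [CS.cl_eq h1, CS.cl_eq h2] at s1 s2 ⊢
  refine ⟨?_, ?_, by linarith only [s2], by linarith only [s1]⟩
  · rw [e]
    have b4 : _ ≤ ((BX c c').m1 : ℝ) / 10000 := hb.2.2.2
    have e6 : ((BX c c').m1 : ℝ) ≤ -(cwI c'.cl c.cl).1 := by exact_mod_cast t.a6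
    show ((cwI c'.cl c.cl).1 : ℝ) / 10000 ≤ _
    linarith only [b4, e6]
  · rw [e]
    have b3 : ((BX c c').m0 : ℝ) / 10000 ≤ _ := hb.2.2.1
    have e5 : (-(cwI c'.cl c.cl).2.1 : ℝ) ≤ (BX c c').m0 := by exact_mod_cast t.a5
    show _ ≤ ((cwI c'.cl c.cl).2.1 : ℝ) / 10000
    linarith only [b3, e5]

theorem one4 {d' : ℕ} (h : HDt K .s 4 l d' l' R k k') : -(acot2 (Sp R k)).im ≤ 128 / 1000 := by
  obtain ⟨c, c', h1, h2, ha⟩ := two_of h
  have b3 : ((BX c c').m0 : ℝ) / 10000 ≤ _ := (pb_all ha hK h1 h2 h).2.2.1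
  have e : (-1280 : ℝ) ≤ (BX c c').m0 := by exact_mod_cast (chkB_of ha).a9 (CS.dig_of h1).symm
  linarith only [b3, e]

theorem one5 {d' : ℕ} (h : HDt K .s 5 l d' l' R k k') : -(acot2 (Sp R k)).im ≤ 138 / 1000 := by
  obtain ⟨c, c', h1, h2, ha⟩ := two_of h
  have b3 : ((BX c c').m0 : ℝ) / 10000 ≤ _ := (pb_all ha hK h1 h2 h).2.2.1
  have e : (-1380 : ℝ) ≤ (BX c c').m0 := by exact_mod_cast (chkB_of ha).a10 (CS.dig_of h1).symm
  linarith only [b3, e]

theorem y4s {d' : ℕ} (h : HDt K .s 4 .z d' l' R k k') : (acot2 (Sp R k)).re ≤ 2969 / 10000 := by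
  obtain ⟨c', h2⟩ := CS.has_of h.ok.right.symm
  have h1 : CS.Has 4 .z .s4z := ⟨rfl, rfl⟩
  have ha := CS.adm_of h1 h2 h.ok
  have b2 : _ ≤ ((BX .s4z c').n1 : ℝ) / 10000 := (pb_all ha hK h1 h2 h).2.1
  have e : ((BX .s4z c').n1 : ℝ) ≤ 2969 := by exact_mod_cast (chkB_of ha).a11 rfl
  linarith only [b2, e]

theorem y4se {d' : ℕ} (h : HDt K .s 4 .e d' l' R k k') :
    216 / 1000 ≤ (acot2 (Sp R k)).re ∧ (acot2 (Sp R k)).re ≤ 278 / 1000 := by
  obtain ⟨c', h2⟩ := CS.has_of h.ok.right.symm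
  have h1 : CS.Has 4 .e .s4e := ⟨rfl, rfl⟩
  have ha := CS.adm_of h1 h2 h.ok
  have b1 : ((BX .s4e c').n0 : ℝ) / 10000 ≤ _ := (pb_all ha hK h1 h2 h).1
  have b2 : _ ≤ ((BX .s4e c').n1 : ℝ) / 10000 := (pb_all ha hK h1 h2 h).2.1
  have e := (chkB_of ha).a12 rfl
  have e1 : (2160 : ℝ) ≤ (BX .s4e c').n0 := by exact_mod_cast e.1
  have e2 : ((BX .s4e c').n1 : ℝ) ≤ 2780 := by exact_mod_cast e.2
  constructor <;> linarith only [b1, e1, b2, e2]

end

/-! ### a digit `1` which is not absorbed -/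

/-- the bounds of the height of the table -/
def lhI (l : List GC) : Option (ℤ × ℤ) :=
  match l with
  | .lo m _ :: .hi m' _ :: _ => some (m, m')
  | _ => none

lemma lh_spec {l : List GC} {m m' : ℤ} (h : lhI l = some (m, m')) {v : ℂ} (hl : ∀ e ∈ l, e.P v) :
    (m : ℝ) / 10000 ≤ v.im ∧ v.im ≤ (m' : ℝ) / 10000 := by
  unfold lhI at h
  split at h
  · obtain ⟨rfl, rfl⟩ := by simpa using h
    refine ⟨?_, ?_⟩
    · rename_i a c b c' l'
      have g1 : (GC.lo a c).P v := hl _ (by simp)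
      exact g1
    · rename_i a c b c' l'
      have g2 : (GC.hi b c').P v := hl _ (by simp)
      exact g2
  · simp at h

/-- the tables at a digit `1` with one split side -/
def chkX (c : CA) : Bool :=
  decide (lhI (GXa c) = some ((cwI .one c.cl).1, (cwI .one c.cl).2.1)) &&
  decide (lhI (GXb c) = some ((cwI c.cl .one).1, (cwI c.cl .one).2.1)) &&
  (match guI (GXc c) with
    | some (m, m', n) => decide ((cwI c.cl .one).2.2.1 = m) && decide (m' = (cwI c.cl .one).2.2.2) &&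
        decide (n ≤ if c.cl = .ring then 7600 else 8000)
    | none => false)

theorem chkX_of {c : CA} (hc : c ≠ .a1s) : chkX c = true := by
  cases c
  case a1s => exact absurd rfl hc
  all_goals rfl

section
variable {K : KFam} (hK : KOK K) {dl : ℕ} {ll : SK} {dr : ℕ} {rr : SK} {w kl kr : ℂ}
include hK

/-- the facts at a digit `1` -/
structure One (K : KFam) (P B : Cl) (y y' : ℂ) : Prop where
  win : (cw P B).In y.im y'.im
  sum : y.re + y'.re ≤ 80 / 100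
  sumZ : P = .ring ∨ B = .ring → y.re + y'.re ≤ 76 / 100

theorem one_sa (h : RDt K 1 .s .a dl ll dr rr w kl kr) :
    One K (cK dr rr) .one (yH .s (RR w kl) (Complex.cos w)) (yH .a (RR w kr) (Complex.cos w)) ∧
    One K .one (cK dr rr) (yH .a (RR w kr) (Complex.cos w)) (yH .s (RR w kl) (Complex.cos w)) := by
  obtain ⟨c, h2⟩ := CA.has_of h.right.ok.right.symm
  have hc : c ≠ .a1s := by
    rintro rfl
    have := h.right.ok.opp rfl
    obtain ⟨rfl, -⟩ := h2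
    omega
  obtain ⟨u1, u2, u3⟩ := px_all hc hK h2 h (half hK h.left)
  have hv : (acot2 (Sp (RR w kl) (Complex.cos w)) + acot2 (RR w kr)).re ≤ 1 := by
    rw [Complex.add_re]
    have e1 := half hK h.left
    have e2 := (un_a hK h.right).2.1
    have e3 : (hbox (cK 1 .s) (cK dr rr) false).x1 ≤ 1 / 2 := by
      rw [show cK 1 .s = .one from rfl]
      cases cK dr rr <;> norm_num [hbox]
    linarith only [e1, e2, e3]
  have g := chkX_of hc
  unfold chkX at g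
  rw [Bool.and_eq_true, Bool.and_eq_true, decide_eq_true_eq, decide_eq_true_eq] at g
  obtain ⟨⟨g1, g2⟩, g3⟩ := g
  have k1 := lh_spec g1 u1
  have k2 := lh_spec g2 u2
  rw [CA.cl_eq h2]
  unfold yH
  rw [Hq_s, Hq_of_ne (by decide)]
  split at g3
  · rename_i m m' n e
    simp only [Bool.and_eq_true, decide_eq_true_eq] at g3
    obtain ⟨⟨g4, g5⟩, g6⟩ := g3
    obtain ⟨k3, k4, k5⟩ := gu_spec e u3 hv
    rw [Complex.add_im] at k3 k4
    rw [Complex.add_re] at k5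
    subst g4 g5
    have e8 : (n : ℝ) ≤ 8000 := by
      have : n ≤ 8000 := g6.trans (by split_ifs <;> norm_num)
      exact_mod_cast this
    have e7 : c.cl = .ring → (n : ℝ) ≤ 7600 := by
      intro h5
      rw [if_pos h5] at g6
      exact_mod_cast g6
    have s1 : (cwI .one c.cl).2.2.1 = (cwI c.cl .one).2.2.1 := by cases c <;> rfl
    have s2 : (cwI .one c.cl).2.2.2 = (cwI c.cl .one).2.2.2 := by cases c <;> rfl
    refine ⟨⟨?_, by linarith only [k5, e8], ?_⟩, ⟨?_, by linarith only [k5, e8], ?_⟩⟩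
    · rw [cw_eq (by rw [Bool.or_comm]; rfl)]
      exact ⟨k2.1, k2.2, k3, k4⟩
    · rintro (h5 | h5)
      · linarith only [k5, e7, h5, e7 h5]
      · exact absurd h5 (by decide)
    · rw [cw_eq (by rfl)]
      refine ⟨k1.1, k1.2, ?_, ?_⟩
      · show ((cwI .one c.cl).2.2.1 : ℝ) / 10000 ≤ _
        rw [s1]
        linarith only [k3]
      · show _ ≤ ((cwI .one c.cl).2.2.2 : ℝ) / 10000
        rw [s2]
        linarith only [k4]
    · rintro (h5 | h5)
      · exact absurd h5 (by decide)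
      · linarith only [k5, e7, h5, e7 h5]
  · simp at g3

theorem one_ss (h : RDt K 1 .s .s dl ll dr rr w kl kr) :
    One K .one .one (yH .s (RR w kl) (Complex.cos w)) (yH .s (RR w kr) (Complex.cos w)) := by
  obtain ⟨c, h2⟩ := CS.has_of h.right.ok.right.symm
  obtain ⟨c', h3⟩ := CS.has_of h.left.ok.right.symm
  have h1 : CS.Has 1 .s .s1s := ⟨rfl, rfl⟩
  have ha := CS.adm_of h1 h3 h.left.ok
  have b := pb_all ha hK h1 h3 h.left
  have t := (chkB_of ha).a13 rfl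
  have u := pv_all c hK h2 h (half hK h.left) (half hK h.right)
  have hv : (acot2 (Sp (RR w kl) (Complex.cos w)) + acot2 (Sp (RR w kr) (Complex.cos w))).re ≤
      1 := by
    rw [Complex.add_re]
    linarith only [hK, h, half hK h.left, half hK h.right]
  obtain ⟨k3, k4, k5⟩ := gu_spec (l := gvv) rfl u hv
  rw [Complex.add_im] at k3 k4
  rw [Complex.add_re] at k5
  have b3 : ((BX .s1s c').m0 : ℝ) / 10000 ≤ _ := b.2.2.1
  have b4 : _ ≤ ((BX .s1s c').m1 : ℝ) / 10000 := b.2.2.2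
  have e1 : ((cwI .one .one).1 : ℝ) ≤ (BX .s1s c').m0 := by exact_mod_cast t.1
  have e2 : ((BX .s1s c').m1 : ℝ) ≤ (cwI .one .one).2.1 := by exact_mod_cast t.2
  unfold yH
  rw [Hq_s, Hq_s]
  refine ⟨?_, ?_, ?_⟩
  · rw [cw_eq rfl]
    refine ⟨?_, ?_, ?_, ?_⟩
    · show ((cwI .one .one).1 : ℝ) / 10000 ≤ _
      linarith only [b3, e1]
    · show _ ≤ ((cwI .one .one).2.1 : ℝ) / 10000
      linarith only [b4, e2]
    · show ((cwI .one .one).2.2.1 : ℝ) / 10000 ≤ _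
      exact k3
    · show _ ≤ ((cwI .one .one).2.2.2 : ℝ) / 10000
      exact k4
  · push_cast at k5
    linarith only [k5]
  · rintro (h5 | h5) <;> exact absurd h5 (by decide)

/-- the facts at a digit `1` which is not absorbed -/
theorem one_all {l r : SK} (h : RDt K 1 l r dl ll dr rr w kl kr) :
    One K (nC r dr rr) (nC l dl ll) (yH l (RR w kl) (Complex.cos w))
      (yH r (RR w kr) (Complex.cos w)) := by
  have o := h.right.ok.left
  obtain ⟨o1, o2, o3⟩ := o.one rfl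
  have o4 : l ≠ .z := fun h0 => by have := o.zl h0; omega
  have o5 : r ≠ .z := fun h0 => by have := o.zr h0; omega
  cases l
  · exact absurd rfl o2
  · cases r
    · exact absurd rfl o3
    · rcases o1 with o1 | o1 <;> exact absurd o1 (by decide)
    · exact absurd rfl o5
    · exact (one_sa hK h.symm).2
  · exact absurd rfl o4
  · cases r
    · exact absurd rfl o3
    · exact (one_sa hK h).1
    · exact absurd rfl o5
    · exact one_ss hK h

/-- **The facts about the split hinges.** -/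
theorem locS : LA.LocS K where
  sp := sp_box hK
  one h := (one_all hK h).win
  absd := absd hK
  one4 := one4 hK
  one5 := one5 hK
  y4s := y4s hK
  y4se := y4se hK

end

end Pool.Agent.Work.MP_b30479_gtS.G2.CN.S6

end

section

/-!
# Two adjacent digits `1`: the facts about the neighbours
-/

namespace Pool.Agent.Work.MP_b30479_gtS.G2.CN.PW

open Complex SR NumIs CN.Ev S6

noncomputable section

/-- the facts about the absorbed side -/
structure PF (c : NC) (cV cW : RC) (k U V W : ℂ) : Prop where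
  n : NOk c k U V W
  v : cV.Mem V
  w : cW.Mem W

/-- the facts about the other side -/
structure QF (c : NC) (cU : RC) (k U V W : ℂ) : Prop where
  n : NOk c k U V W
  u : cU.Mem U

section
variable {K : KFam} (hK : KOK K) {r : SK} {dl : ℕ} {ll : SK} {dr : ℕ} {rr : SK} {w kl kr : ℂ}
  (h : RDt K 1 .s r dl ll dr rr w kl kr)
include hK h

lemma neV : hV w kl ≠ I ∧ hV w kl ≠ -I :=
  ⟨Sp_ne_I (add_I_ne h.left.Rre) h.cos_ne, ne_nI_of_half (half hK h.left)⟩

lemma neW : hW w kl ≠ I ∧ hW w kl ≠ -I :=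
  ⟨Sp_ne_I (add_I_ne h.left.Rre) (ne_of_re h.left.kre'), ne_nI_of_half (half' hK h.left)⟩

lemma mV {cj c : S6.CS} (hj : cj.Has 1 r) (hc : c.Has dl ll) {s : BG} (hs : s.ok = true) {rc : RC}
    {n code : ℕ} (hr : rrow s rc n code = true) (hb : s.sub (BX cj c) = true) :
    rc.Mem (hV w kl) :=
  rect hs hr (neV hK h).1 (neV hK h).2
    (BG.In.of hb (pb_all (S6.CS.adm_of hj hc h.left.ok) hK hj hc h.left) (half hK h.left))

lemma mW {cj c : S6.CS} (hj : cj.Has 1 r) (hc : c.Has dl ll) {s : BG} (hs : s.ok = true) {rc : RC}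
    {n code : ℕ} (hr : rrow s rc n code = true) (hb : s.sub (BX c cj) = true) :
    rc.Mem (hW w kl) :=
  rect hs hr (neW hK h).1 (neW hK h).2
    (BG.In.of hb (pb_all (S6.CS.adm_of hc hj (rev_s h.left).ok) hK hc hj (rev_s h.left))
      (half' hK h.left))

/-- the facts about the absorbed side -/
lemma mkPF {cj c : S6.CS} (hj : cj.Has 1 r) (hc : c.Has dl ll) {P : NC} {s : BG}
    (hs : s.ok = true) {rc : RC} {n code : ℕ} (hr : rrow s rc n code = true)
    {s' : BG} (hs' : s'.ok = true) {rc' : RC} {n' code' : ℕ}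
    (hr' : rrow s' rc' n' code' = true)
    (hb : (s.sub (BX cj c) && s'.sub (BX c cj)) = true)
    (hn : NOk P kl (hU r w kr) (hV w kl) (hW w kl)) :
    PF P rc rc' kl (hU r w kr) (hV w kl) (hW w kl) := by
  rw [Bool.and_eq_true] at hb
  exact ⟨hn, mV hK h hj hc hs hr hb.1, mW hK h hj hc hs' hr' hb.2⟩

end

/-! ### side `a` -/

lemma hU_a {w kr : ℂ} : hU .a w kr = RR w kr := Hq_of_ne (by decide) _ _

lemma BG.In.box {s : BG} {B : Box} {y : ℂ} (hb : B.In y) (h : (s.n0 : ℝ) / 10000 ≤ B.x0 ∧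
    B.x1 ≤ (s.n1 : ℝ) / 10000 ∧ (s.m0 : ℝ) / 10000 ≤ B.t0 ∧ B.t1 ≤ (s.m1 : ℝ) / 10000) :
    s.In y :=
  ⟨h.1.trans hb.1, hb.2.1.trans h.2.1, h.2.2.1.trans hb.2.2.1, hb.2.2.2.trans h.2.2.2⟩

section
variable {K : KFam} (hK : KOK K) {dl : ℕ} {ll : SK} {dr : ℕ} {rr : SK} {w kl kr : ℂ}
  (h : RDt K 1 .s .a dl ll dr rr w kl kr)
include h

lemma neU : hU .a w kr ≠ I ∧ hU .a w kr ≠ -I := by
  rw [hU_a]
  exact ne_I_of_re (r0_pos.trans h.right.Rre)

include hK

/-- the facts about the other side from the box of a table -/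
lemma mkQ {c : CA} (hc : c.Has dr rr) {Q : NC} {b : BB} (hp : PairA .a1s c b.box) {s : BG}
    (hs : s.ok = true) {rc : RC} {n code : ℕ} (hr : rrow s rc n code = true)
    (hb : s.sub' b = true) (hn : NOk Q kr (hU .a w kr) (hV w kl) (hW w kl)) :
    QF Q rc kr (hU .a w kr) (hV w kl) (hW w kl) := by
  refine ⟨hn, rect hs hr (neU h).1 (neU h).2 (BG.In.of' hb ?_)⟩
  rw [hU_a]
  exact hp hK (show CA.a1s.Has 1 .s from ⟨rfl, rfl⟩) hc h.right

/-- the facts about the other side from the general box -/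
lemma mkQ' {c : CA} (hc : c.Has dr rr) {Q : NC} {s : BG}
    (hs : s.ok = true) {rc : RC} {n code : ℕ} (hr : rrow s rc n code = true)
    (hb : (s.n0 : ℝ) / 10000 ≤ (hbox .one c.cl false).x0 ∧
      (hbox .one c.cl false).x1 ≤ (s.n1 : ℝ) / 10000 ∧
      (s.m0 : ℝ) / 10000 ≤ (hbox .one c.cl false).t0 ∧
      (hbox .one c.cl false).t1 ≤ (s.m1 : ℝ) / 10000)
    (hn : NOk Q kr (hU .a w kr) (hV w kl) (hW w kl)) :
    QF Q rc kr (hU .a w kr) (hV w kl) (hW w kl) := by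
  refine ⟨hn, rect hs hr (neU h).1 (neU h).2 (BG.In.box ?_ hb)⟩
  rw [hU_a]
  have h1 := un_a hK h.right
  rw [CA.cl_eq hc] at h1
  exact h1

/-- the data, side `a` -/
theorem datA {P Q : NC} {cU cV cW : RC} (hP : PF P cV cW kl (hU .a w kr) (hV w kl) (hW w kl))
    (hQ : QF Q cU kr (hU .a w kr) (hV w kl) (hW w kl)) :
    Dat (aU P Q) (aV P Q) cU cV cW (hU .a w kr) (hV w kl) (hW w kl) (acot2 (hU .a w kr))
      (acot2 (hV w kl)) (acot2 (hW w kl)) where
  pv := (pd h).toPV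
  eU := exp_acot2 (neU h).1 (neU h).2
  eV := exp_acot2 (neV hK h).1 (neV hK h).2
  eW := exp_acot2 (neW hK h).1 (neW hK h).2
  gu := (aUV_ok hK h hP.n hQ.n).1
  gv := (aUV_ok hK h hP.n hQ.n).2
  mU := hQ.u
  mV := hP.v
  mW := hP.w

end

/-! ### side `s` -/

section
variable {K : KFam} (hK : KOK K) {dl : ℕ} {ll : SK} {dr : ℕ} {rr : SK} {w kl kr : ℂ}
  (h : RDt K 1 .s .s dl ll dr rr w kl kr)
include hK h

/-- the facts about the other side -/
lemma mkR {c : S6.CS} (hc : c.Has dr rr) {Q : NC} {s : BG}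
    (hs : s.ok = true) {rc : RC} {n code : ℕ} (hr : rrow s rc n code = true)
    (hb : s.sub (BX .s1s c) = true) (hn : NOk Q kr (hU .s w kr) (hV w kl) (hW w kl)) :
    QF Q rc kr (hU .s w kr) (hV w kl) (hW w kl) := by
  refine ⟨hn, ?_⟩
  rw [hU_s]
  exact mV hK h.symm (show S6.CS.s1s.Has 1 .s from ⟨rfl, rfl⟩) hc hs hr hb

/-- the data, side `s` -/
theorem datS {P Q : NC} {cU cV cW : RC} (hP : PF P cV cW kl (hU .s w kr) (hV w kl) (hW w kl))
    (hQ : QF Q cU kr (hU .s w kr) (hV w kl) (hW w kl)) :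
    Dat (sU P Q) (sV P Q) cU cV cW (hU .s w kr) (hV w kl) (hW w kl) (acot2 (hU .s w kr))
      (acot2 (hV w kl)) (acot2 (hW w kl)) where
  pv := (pd h).toPV
  eU := by
    rw [hU_s]
    exact exp_acot2 (neV hK h.symm).1 (neV hK h.symm).2
  eV := exp_acot2 (neV hK h).1 (neV hK h).2
  eW := exp_acot2 (neW hK h).1 (neW hK h).2
  gu := (sUV_ok hK h hP.n hQ.n).1
  gv := (sUV_ok hK h hP.n hQ.n).2
  mU := hQ.u
  mV := hP.v
  mW := hP.w

end

end

end Pool.Agent.Work.MP_b30479_gtS.G2.CN.PW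

end

section

/-!
# The sums of the real parts at a digit `±1` of a word
-/

namespace Pool.Agent.Work.MP_b30479_gtS.G2.CN.S6

open Complex SR

variable {M : ℕ} {b : Fin (M + 1) → ℤ} {w : ℕ → ℂ}

/-- **Location facts: real parts of the two hinges of a digit `±1`.** -/
theorem locS_word {K : KFam} (hb : ClassW b) (F : RingFacts) (hw : Sol b w) (hK : Snd K b w)
    (h0 : KOK K) : SR.LocS b (zsW b w) := by
  have key : ∀ {h h' : Fin M} {i j j' : Fin (M + 1)} {p : Fin 3}, Adj h i p j →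
      Adj h' i p.rev j' → clsW b i = .one →
      (zsW b w (.inl (.inl h))).re + (zsW b w (.inl (.inl h'))).re ≤ 80 / 100 ∧
      (clsW b j = .ring → clsW b j' = .one →
        (zsW b w (.inl (.inl h))).re + (zsW b w (.inl (.inl h'))).re ≤ 76 / 100) := by
    intro h h' i j j' p A A' hc
    by_cases hu : us b i.val = true
    · obtain ⟨l, l', R, k, k', hH, y1, y2, c1, c2⟩ := A.absd_view hb F hw hK A' hu
      obtain ⟨-, -, s3, s4⟩ := sum_s h0 hH
      rw [Complex.add_re] at s3 s4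
      rw [← ofr_re (b i) (zsW b w (.inl (.inl h))), ← ofr_re (b i) (zsW b w (.inl (.inl h'))), y1,
        y2, c1, c2, Complex.conj_re, Complex.conj_re]
      exact ⟨s3, fun e1 e2 => s4 (Or.inr ⟨e1, e2⟩)⟩
    · rw [Bool.not_eq_true] at hu
      obtain ⟨x, x', dl, ll, dr, rr, kl, kr, hE, y1, y2, c1, c2⟩ := A.pair_view hb F hw hK A' hu
      have h1 : (b i).natAbs = 1 := by
        unfold clsW cls at hc
        split_ifs at hc with h1
        exact h1
      rw [h1] at hE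
      have o := one_all h0 hE
      rw [← ofr_re (b i) (zsW b w (.inl (.inl h))), ← ofr_re (b i) (zsW b w (.inl (.inl h'))), y1,
        y2, c1, c2]
      exact ⟨o.sum, fun e1 _ => o.sumZ (Or.inr e1)⟩
  exact ⟨fun A A' hc => (key A A' hc).1, fun A A' hc h1 h2 => (key A A' hc).2 h1 h2⟩

end Pool.Agent.Work.MP_b30479_gtS.G2.CN.S6

end
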