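import Pool.Agent.Work.MP_b30479_gt.TBS.G2.CN.LocRTd
import Pool.Agent.Work.MP_b30479_gt.TBS.G2.CN.TUt
import Pool.Agent.Work.MP_b30479_gt.TBS.G2.CN.TGoal
import Pool.Agent.Work.MP_b30479_gt.TBS.G2.WLocF
import Pool.Agent.Work.MP_b30479_gt.TBS.G2.CN.TTabG
import Pool.Agent.Work.MP_b30479_gt.TBS.G2.CN.TDatg
import Pool.Agent.Work.MP_b30479_gt.TBS.G2.CN.TC6A
import Pool.Agent.Work.MP_b30479_gt.TBS.G2.CN.TQ4A
import Pool.Agent.Work.MP_b30479_gt.TBS.G2.CN.TK4D

section

/-!
# Rows bounding the hinge by the difference of the heights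

`trowOkK`: the check of a row with pairs (bound for the real part of the hinge, bound for the
difference of the heights).
-/

namespace Pool.Agent.Work.MP_b30479_gtS.G2.CN.TD

open Complex SR Ev
open scoped ComplexConjugate

noncomputable section

section
variable {K : KFam} {d : ℕ} {l x : SK} {dl : ℕ} {ll : SK} {dr : ℕ} {rr : SK} {w kl kr : ℂ}

/-- **The bounds of a row.** -/
theorem tuseK (hK : KOK K) (Bx : BoxRows K) (hd : LgD d) (t : RDt K d l x dl ll dr rr w kl kr)
    {gi zi ui li : List GC} {o : List QC} {L : List Grp}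
    {o' : List QC} {L' : List Grp} {gy gz gu gl : List GC} {al : List (GC × GC)} {n code : ℕ}
    (hr : trowOkK d x gi zi ui li o L o' L' gy gz gu gl al n code = true)
    (hi : ∀ g ∈ gi, g.G (yH x (RR w kr) (Complex.cos w)))
    (hzi : ∀ g ∈ zi, g.G (-zeta w))
    (hui : ∀ g ∈ ui, g.G (yH x (RR w kr) (Complex.cos w) - zeta w))
    (hli : ∀ g ∈ li, g.G (yH l (RR w kl) (Complex.cos w)))
    (ho : InH (K.K d l x) o) (ho' : InH (K.K dr rr x) o')
    (hL : AllOk (RR w kr) (Complex.tan w) L) (hL' : AllOk (RR w kr) (Complex.tan w) L') :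
    ((∀ g ∈ gy, g.P (yH x (RR w kr) (Complex.cos w))) ∧ (∀ g ∈ gz, g.P (-zeta w)) ∧
      (∀ g ∈ gu, g.P (yH x (RR w kr) (Complex.cos w) - zeta w)) ∧
      ∀ g ∈ gl, g.P (yH l (RR w kl) (Complex.cos w))) ∧
      ∃ p ∈ al, p.1.P (yH x (RR w kr) (Complex.cos w)) ∧
        p.2.P (yH x (RR w kr) (Complex.cos w) - zeta w) := by
  have T := RDt.tdt Bx t
  have hc := T.h.kre
  have hc0 := ne_of_re hc
  have hT := tan_sq hc0
  have hR : 0 < (RR w kr).re := r0_pos.trans T.h.Rre
  have hq : RR w kr ^ 2 + 1 - 1 / Complex.cos w ^ 2 = 1 / kr ^ 2 := by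
    rw [T.h.hinge]
    ring
  have hm' := T.h.mem'
  have h1 := inH_ownR (x := x) ho'
  rw [← K.symm] at h1
  unfold trowOkK at hr
  rw [Bool.and_eq_true, Bool.and_eq_true, Bool.and_eq_true, Bool.and_eq_true, Bool.and_eq_true,
    Bool.and_eq_true, Bool.and_eq_true, Bool.and_eq_true, Bool.and_eq_true] at hr
  obtain ⟨hrow, ⟨⟨⟨⟨⟨⟨⟨k1, k2⟩, k3⟩, k4⟩, k5⟩, k6⟩, k7⟩, k8⟩, k9⟩ := hr
  have hl : AllOk (RR w kr) (Complex.tan w) (tsB d x gi zi ui li o L o' L') := by
    refine AllOk.cons ?_ (AllOk.cons ?_ (AllOk.cons ?_ (AllOk.cons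
      (tl_ok hc0 hT (ho _ T.h.mem)) (AllOk.cons (tr_ok (ne_of_re T.h.kre') hT hq (h1 kr hm'))
      (AllOk.cons ?_ (hL.append hL'))))))
    · refine ⟨_, expY hc hR T.sp _, ?_⟩
      have eH : (tYx x (gi.map GC.qi)).H = gi.map GC.qi := by cases x <;> rfl
      rw [eH]
      intro Q hQ
      obtain ⟨g, hg, rfl⟩ := List.mem_map.1 hQ
      exact GC.imp (List.all_eq_true.1 k1 g hg) (hi g hg)
    · refine ⟨_, expU hc hR T.sp _, ?_⟩
      have eH : (tUx x (ui.map GC.qi)).H = ui.map GC.qi := by cases x <;> rfl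
      rw [eH]
      intro Q hQ
      obtain ⟨g, hg, rfl⟩ := List.mem_map.1 hQ
      exact GC.imp (List.all_eq_true.1 k3 g hg) (hui g hg)
    · refine ⟨_, expLg Bx hd t _, ?_⟩
      rw [tLg_H hd]
      intro Q hQ
      obtain ⟨g, hg, rfl⟩ := List.mem_map.1 hQ
      exact GC.imp (List.all_eq_true.1 k4 g hg) (hli g hg)
    · refine ⟨_, expZ hc _, ?_⟩
      intro Q hQ
      obtain ⟨g, hg, rfl⟩ := List.mem_map.1 hQ
      exact GC.imp (List.all_eq_true.1 k2 g hg) (hzi g hg)
  have hm := rootT_mem hK T.h hT (tan_re T.w0 T.w1)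
  obtain ⟨hgo, hal⟩ := rowA_sound hrow hm hl (expY hc hR T.sp _) (expU hc hR T.sp _)
  refine ⟨⟨fun g hg => ?_, fun g hg => ?_, fun g hg => ?_, fun g hg => ?_⟩, alt_ok k9 hal⟩
  · have eH : (tYx x (gy.map GC.q)).H = gy.map GC.q := by cases x <;> rfl
    exact GC.spec (List.all_eq_true.1 k5 g hg) (hgo (tYx x (gy.map GC.q)) (by simp [goT]) _
      (expY hc hR T.sp _) g.q (by rw [eH]; exact List.mem_map_of_mem hg))
  · exact GC.spec (List.all_eq_true.1 k6 g hg) (hgo (tZ (gz.map GC.q)) (by simp [goT]) _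
      (expZ hc _) g.q (List.mem_map_of_mem hg))
  · have eH : (tUx x (gu.map GC.q)).H = gu.map GC.q := by cases x <;> rfl
    exact GC.spec (List.all_eq_true.1 k7 g hg) (hgo (tUx x (gu.map GC.q)) (by simp [goT]) _
      (expU hc hR T.sp _) g.q (by rw [eH]; exact List.mem_map_of_mem hg))
  · exact GC.spec (List.all_eq_true.1 k8 g hg) (hgo (tLg d x (gl.map GC.q)) (by simp [goT]) _
      (expLg Bx hd t _) g.q (by rw [tLg_H hd]; exact List.mem_map_of_mem hg))

end

/-- pairs bounding the real part by `ka / 10000` plus the difference of the heights -/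
def stairK (ka : ℤ) (al : List (GC × GC)) : Bool :=
  al.all fun p => match p with
    | (.arc n m' _ _, .hi m _) => decide (m = ka - n) && Nat.ble 4000 m'
    | _ => false

lemma stairK_use {ka : ℤ} {al : List (GC × GC)} (h : stairK ka al = true) {y z : ℂ} (rg : Rg y z)
    (ha : ∃ p ∈ al, p.1.P y ∧ p.2.P (y - z)) : y.re - (ka : ℝ) / 10000 ≤ z.im - y.im := by
  obtain ⟨⟨p, q⟩, hp, h1, h2⟩ := ha
  have h3 := List.all_eq_true.1 h _ hp
  cases q with
  | arc _ _ _ _ => cases p <;> simp at h3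
  | lo _ _ => cases p <;> simp at h3
  | hi m c =>
    cases p with
    | lo _ _ => simp at h3
    | hi _ _ => simp at h3
    | arc n m' a b =>
      simp only [Bool.and_eq_true, decide_eq_true_eq] at h3
      obtain ⟨h4, h5⟩ := h3
      have h6 : 4000 ≤ m' := Nat.le_of_ble_eq_true h5
      have m2' : (4000 : ℝ) ≤ m' := by exact_mod_cast h6
      have g3 := arc_ub h1 (by linarith [rg.y1])
      have g1 : (y - z).im ≤ (m : ℝ) / 10000 := h2
      rw [Complex.sub_im] at g1
      have h7 : (m : ℝ) = (ka : ℝ) - n := by exact_mod_cast h4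
      rw [h7] at g1
      linarith

end

end Pool.Agent.Work.MP_b30479_gtS.G2.CN.TD

end

section

/-!
# Conditions from the boxes, part 1
-/

namespace Pool.Agent.Work.MP_b30479_gtS.G2.CN.TD

open Complex SR

noncomputable section

lemma l4_one_of {s : Bool} {y z : ℂ} (h : (r4 false .one s).In y z) : ∀ g ∈ l4_one, g.G y := by
  have a0 := h.x0
  have a1 := h.x1
  have a2 := h.t0
  have a3 := h.t1
  norm_num [r4, mk4] at a0 a1 a2 a3
  exact li_box (by norm_num; linarith) (by norm_num; linarith) (by norm_num; linarith) (by norm_num; linarith) (by norm_num; linarith)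

lemma l4_one3_of {s : Bool} {y z : ℂ} (h : (r4 false .one s).In y z) : ∀ g ∈ l4_one3, g.G y := by
  have a0 := h.x0
  have a1 := h.x1
  have a2 := h.t0
  have a3 := h.t1
  norm_num [r4, mk4] at a0 a1 a2 a3
  exact li_box3 (by norm_num; linarith) (by norm_num; linarith) (by norm_num; linarith) (by norm_num; linarith)

lemma l4_ringA_of {y z : ℂ} (h : (r4 false .ring false).In y z) : ∀ g ∈ l4_ringA, g.G y := by
  have a0 := h.x0
  have a1 := h.x1
  have a2 := h.t0
  have a3 := h.t1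
  norm_num [r4, mk4] at a0 a1 a2 a3
  exact li_box (by norm_num; linarith) (by norm_num; linarith) (by norm_num; linarith) (by norm_num; linarith) (by norm_num; linarith)

lemma l4_ringA4_of {y z : ℂ} (h : (r4 false .ring false).In y z) : ∀ g ∈ l4_ringA4, g.G y := by
  have a0 := h.x0
  have a1 := h.x1
  have a2 := h.t0
  have a3 := h.t1
  norm_num [r4, mk4] at a0 a1 a2 a3
  exact li_box4 (by norm_num; linarith) (by norm_num; linarith) (by norm_num; linarith) (by norm_num; linarith)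

lemma l4_ringZ_of {y z : ℂ} (h : (r4 false .ring true).In y z) : ∀ g ∈ l4_ringZ, g.G y := by
  have a0 := h.x0
  have a1 := h.x1
  have a2 := h.t0
  have a3 := h.t1
  norm_num [r4, mk4] at a0 a1 a2 a3
  exact li_box (by norm_num; linarith) (by norm_num; linarith) (by norm_num; linarith) (by norm_num; linarith) (by norm_num; linarith)

lemma l4_three_of {s : Bool} {y z : ℂ} (h : (r4 false .three s).In y z) : ∀ g ∈ l4_three, g.G y := by
  have a0 := h.x0
  have a1 := h.x1
  have a2 := h.t0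
  have a3 := h.t1
  norm_num [r4, mk4] at a0 a1 a2 a3
  exact li_box (by norm_num; linarith) (by norm_num; linarith) (by norm_num; linarith) (by norm_num; linarith) (by norm_num; linarith)

lemma l4_three3_of {s : Bool} {y z : ℂ} (h : (r4 false .three s).In y z) : ∀ g ∈ l4_three3, g.G y := by
  have a0 := h.x0
  have a1 := h.x1
  have a2 := h.t0
  have a3 := h.t1
  norm_num [r4, mk4] at a0 a1 a2 a3
  exact li_box3 (by norm_num; linarith) (by norm_num; linarith) (by norm_num; linarith) (by norm_num; linarith)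

lemma l4_threeE_of {s : Bool} {y z : ℂ} (h : (r4 false .threeE s).In y z) : ∀ g ∈ l4_threeE, g.G y := by
  have a0 := h.x0
  have a1 := h.x1
  have a2 := h.t0
  have a3 := h.t1
  norm_num [r4, mk4] at a0 a1 a2 a3
  exact li_box (by norm_num; linarith) (by norm_num; linarith) (by norm_num; linarith) (by norm_num; linarith) (by norm_num; linarith)

lemma l4_threeE4_of {s : Bool} {y z : ℂ} (h : (r4 false .threeE s).In y z) : ∀ g ∈ l4_threeE4, g.G y := by
  have a0 := h.x0
  have a1 := h.x1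
  have a2 := h.t0
  have a3 := h.t1
  norm_num [r4, mk4] at a0 a1 a2 a3
  exact li_box4 (by norm_num; linarith) (by norm_num; linarith) (by norm_num; linarith) (by norm_num; linarith)

lemma l4_two_of {s : Bool} {y z : ℂ} (h : (r4 false .two s).In y z) : ∀ g ∈ l4_two, g.G y := by
  have a0 := h.x0
  have a1 := h.x1
  have a2 := h.t0
  have a3 := h.t1
  norm_num [r4, mk4] at a0 a1 a2 a3
  exact li_box (by norm_num; linarith) (by norm_num; linarith) (by norm_num; linarith) (by norm_num; linarith) (by norm_num; linarith)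

lemma l4_two3_of {s : Bool} {y z : ℂ} (h : (r4 false .two s).In y z) : ∀ g ∈ l4_two3, g.G y := by
  have a0 := h.x0
  have a1 := h.x1
  have a2 := h.t0
  have a3 := h.t1
  norm_num [r4, mk4] at a0 a1 a2 a3
  exact li_box3 (by norm_num; linarith) (by norm_num; linarith) (by norm_num; linarith) (by norm_num; linarith)

lemma l4_twoE_of {s : Bool} {y z : ℂ} (h : (r4 false .twoE s).In y z) : ∀ g ∈ l4_twoE, g.G y := by
  have a0 := h.x0
  have a1 := h.x1
  have a2 := h.t0
  have a3 := h.t1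
  norm_num [r4, mk4] at a0 a1 a2 a3
  exact li_box (by norm_num; linarith) (by norm_num; linarith) (by norm_num; linarith) (by norm_num; linarith) (by norm_num; linarith)

lemma l4_twoE3_of {s : Bool} {y z : ℂ} (h : (r4 false .twoE s).In y z) : ∀ g ∈ l4_twoE3, g.G y := by
  have a0 := h.x0
  have a1 := h.x1
  have a2 := h.t0
  have a3 := h.t1
  norm_num [r4, mk4] at a0 a1 a2 a3
  exact li_box3 (by norm_num; linarith) (by norm_num; linarith) (by norm_num; linarith) (by norm_num; linarith)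

lemma lh_one_of {s : Bool} {y : ℂ} (h : (hbox .ring .one s).In y) : ∀ g ∈ lh_one, g.G y := by
  obtain ⟨a0, a1, a2, a3⟩ := h
  norm_num [hbox] at a0 a1 a2 a3
  exact li_box (by norm_num; linarith) (by norm_num; linarith) (by norm_num; linarith) (by norm_num; linarith) (by norm_num; linarith)

lemma lh_ringA_of {y : ℂ} (h : (hbox .ring .ring false).In y) : ∀ g ∈ lh_ringA, g.G y := by
  obtain ⟨a0, a1, a2, a3⟩ := h
  norm_num [hbox] at a0 a1 a2 a3
  exact li_box (by norm_num; linarith) (by norm_num; linarith) (by norm_num; linarith) (by norm_num; linarith) (by norm_num; linarith)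

lemma lh_ringZ_of {y : ℂ} (h : (hbox .ring .ring true).In y) : ∀ g ∈ lh_ringZ, g.G y := by
  obtain ⟨a0, a1, a2, a3⟩ := h
  norm_num [hbox] at a0 a1 a2 a3
  exact li_box (by norm_num; linarith) (by norm_num; linarith) (by norm_num; linarith) (by norm_num; linarith) (by norm_num; linarith)

lemma lh_three_of {s : Bool} {y : ℂ} (h : (hbox .ring .three s).In y) : ∀ g ∈ lh_three, g.G y := by
  obtain ⟨a0, a1, a2, a3⟩ := h
  norm_num [hbox] at a0 a1 a2 a3
  exact li_box (by norm_num; linarith) (by norm_num; linarith) (by norm_num; linarith) (by norm_num; linarith) (by norm_num; linarith)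

lemma lh_threeE_of {s : Bool} {y : ℂ} (h : (hbox .ring .threeE s).In y) : ∀ g ∈ lh_threeE, g.G y := by
  obtain ⟨a0, a1, a2, a3⟩ := h
  norm_num [hbox] at a0 a1 a2 a3
  exact li_box (by norm_num; linarith) (by norm_num; linarith) (by norm_num; linarith) (by norm_num; linarith) (by norm_num; linarith)

lemma lh_two_of {s : Bool} {y : ℂ} (h : (hbox .ring .two s).In y) : ∀ g ∈ lh_two, g.G y := by
  obtain ⟨a0, a1, a2, a3⟩ := h
  norm_num [hbox] at a0 a1 a2 a3
  exact li_box (by norm_num; linarith) (by norm_num; linarith) (by norm_num; linarith) (by norm_num; linarith) (by norm_num; linarith)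

end

end Pool.Agent.Work.MP_b30479_gtS.G2.CN.TD

end

section

/-!
# Pairs of conditions; the conditions for the other hinge, any class
-/

namespace Pool.Agent.Work.MP_b30479_gtS.G2.CN.TD

open Complex SR

theorem ak4_one_st : stairK 1530 ak4_one = true := by decide

theorem ak4_two_st : stairK 1520 ak4_two = true := by decide

theorem ak4_twoE_st : stairK 1540 ak4_twoE = true := by decide

theorem ak4_three_st : stairK 1520 ak4_three = true := by decide

theorem ak4_threeE_st : stairK 1530 ak4_threeE = true := by decide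

theorem ak4_ringA_st : stairK 1515 ak4_ringA = true := by decide

theorem ak4_ringZ_st : stairK 1520 ak4_ringZ = true := by decide

theorem ak5_one_st : stairK 1530 ak5_one = true := by decide

theorem ak5_two_st : stairK 1520 ak5_two = true := by decide

theorem ak5_twoE_st : stairK 1530 ak5_twoE = true := by decide

theorem ak5_three_st : stairK 1510 ak5_three = true := by decide

theorem ak5_threeE_st : stairK 1520 ak5_threeE = true := by decide

theorem ak5_ringA_st : stairK 1510 ak5_ringA = true := by decide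

theorem ak5_ringZ_st : stairK 1515 ak5_ringZ = true := by decide

lemma lhA_of {k : Cl} {y : ℂ} (h : (hbox .ring k false).In y) : ∀ g ∈ lhA, g.G y := by
  obtain ⟨a0, a1, a2, a3⟩ := h
  cases k <;> norm_num [hbox] at a0 a1 a2 a3 <;>
    exact li_box (by norm_num; linarith only [a0]) (by norm_num; linarith only [a1]) (by norm_num; linarith only [a1])
      (by norm_num; linarith only [a2]) (by norm_num; linarith only [a3])

/-- the bounds of a row with pairs -/
lemma bk_of {x0 x1 m1 s0 s1 m2 c1 m3 : ℕ} {cr ka : ℤ} {t0 t1 r1 r0 q1 q0 : ℤ}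
    {a1 b1 a2 b2 e1 e2 a3 b3 a4 b4 e3 e4 a5 b5 e5 e6 : ℤ} {y z : ℂ} {A : Prop}
    {al : List (GC × GC)}
    (h : ((∀ g ∈ [GC.arc 0 x0 a1 b1, .arc x1 m1 a2 b2, .lo t0 e1, .hi t1 e2], g.P y) ∧
      (∀ g ∈ [GC.arc 0 s0 a3 b3, .arc s1 m2 a4 b4, .lo (-r1) e3, .hi (-r0) e4], g.P (-z)) ∧
      (∀ g ∈ [GC.arc c1 m3 a5 b5, .lo (-q1) e5, .hi (-q0) e6], g.P (y - z)) ∧ A) ∧
      ∃ p ∈ al, p.1.P y ∧ p.2.P (y - z)) (hst : stairK ka al = true) (rg : Rg y z)
    (h1 : 4000 ≤ m1) (h2 : 2500 ≤ m2) (h3 : 6500 ≤ m3) (h4 : (c1 : ℤ) - r0 ≤ cr) :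
    (mk4 x0 x1 s0 s1 q0 q1 r0 r1 t0 t1 c1 cr).In y z ∧
      y.re - (ka : ℝ) / 10000 ≤ z.im - y.im :=
  ⟨b4c_of h.1 rg h1 h2 h3 h4, stairK_use hst rg h.2⟩

/-- a lower bound for the height of the ring variable -/
lemma br_of {r0 c0 : ℤ} {z : ℂ} {A B : Prop} (h : A ∧ (∀ g ∈ [GC.hi (-r0) c0], g.P (-z)) ∧ B) :
    (r0 : ℝ) / 10000 ≤ z.im := by
  have zd : (-z).im ≤ ((-r0 : ℤ) : ℝ) / 10000 := h.2.1 (.hi (-r0) c0) (by simp)
  rw [Complex.neg_im] at zd
  push_cast at zd
  linarith only [zd]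

section
variable {l : SK} {d : ℕ} {ll r : SK}

/-- the class at the other hinge of kind `z` -/
lemma Oh.z_ {k : Cl} {s : Bool} (h : Oh .z d ll k s) (hz : 4 ≤ d) : k = .ring ∧ s = true := by
  obtain ⟨h1, h2⟩ := h
  refine ⟨?_, (h2 (by decide)).trans (by decide)⟩
  rw [h1]
  unfold nC cK
  simp only [show ¬(SK.z = .s) by decide, if_false]
  split_ifs <;> first | rfl | omega

/-- the class at the other hinge of kind `s` -/
lemma Oh.s_ {k : Cl} {s : Bool} (h : Oh .s d ll k s) : k = .one := by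
  rw [h.1]
  unfold nC
  simp

/-- equal signs at the other hinge of kind `a` -/
lemma Oh.a_ {k : Cl} {s : Bool} (h : Oh .a d ll k s) : s = false :=
  (h.2 (by decide)).trans (by decide)

end

end Pool.Agent.Work.MP_b30479_gtS.G2.CN.TD

end

section

/-!
# Rings with five or six crossings next to a digit `1`
-/

namespace Pool.Agent.Work.MP_b30479_gtS.G2.CN.TD

open Complex SR

noncomputable section

section
variable {K : KFam} (hK : KOK K) (Bx : BoxRows K) {l x : SK} {dl : ℕ} {ll : SK} {dr : ℕ} {rr : SK}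
  {w kl kr : ℂ}
include hK Bx

theorem c6_one {k : Cl} {s : Bool} (t : RDt K 6 l x dl ll dr rr w kl kr)
    (hC : Bh x dr rr .one) (hk : Oh l dl ll k s)
    (hl : (hbox .ring k s).In (yH l (RR w kl) (Complex.cos w)))
    (rg : Rg (yH x (RR w kr) (Complex.cos w)) (zeta w)) :
    (rc6 .one).In (yH x (RR w kr) (Complex.cos w)) (zeta w) := by
  have hN := t.right.ok.right.symm
  have hO := t.right.ok.left
  have hL := t.left.ok.right.symm
  rcases hC.one with ⟨rfl, rfl⟩ | ⟨rfl, rfl⟩
  · have e2 := far_s t.right.ok.right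
    subst e2
    cases l
    · exact absurd rfl t.left.ok.ne
    · obtain rfl := hk.a_
      exact b4c_of (tuseC hK Bx ld6 t c6_1a_u_a mn mn mn
        (lhA_of hl) (hK.inH hO k6aa_ok) (hK.inH hN k2as_ok)
        AllOk.nil (dOk hK t rfl (OR.st (by decide)))) rg
        (by norm_num) (by norm_num) (by norm_num) (by norm_num)
    · obtain ⟨rfl, rfl⟩ := hk.z_ (hL.zr rfl)
      exact b4c_of (tuseC hK Bx ld6 t c6_1a_u_z mn mn mn
        (lh_ringZ_of hl) (hK.inH hO k6az_ok) (hK.inH hN k2as_ok)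
        AllOk.nil (dOk hK t rfl (OR.st (by decide)))) rg
        (by norm_num) (by norm_num) (by norm_num) (by norm_num)
    · obtain rfl := hk.s_
      exact b4c_of (tuseC hK Bx ld6 t c6_1a_u_s mn mn mn
        (lh_one_of hl) (hK.inH hO k7as_ok) (hK.inH hN k2as_ok)
        AllOk.nil (dOk hK t rfl (OR.st (by decide)))) rg
        (by norm_num) (by norm_num) (by norm_num) (by norm_num)
  · cases rr
    · exact absurd rfl (hN.one rfl).2.1
    · cases l
      · exact absurd rfl t.left.ok.ne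
      · obtain rfl := hk.a_
        exact b4c_of (tuseC hK Bx ld6 t c6_1a_1a_a mn mn mn
          (lhA_of hl) (hK.inH hO k7as_ok) (hK.inH hN k2as_ok)
          AllOk.nil (dOk hK t rfl (OR.a1 (by norm_num)))) rg
          (by norm_num) (by norm_num) (by norm_num) (by norm_num)
      · obtain ⟨rfl, rfl⟩ := hk.z_ (hL.zr rfl)
        exact b4c_of (tuseC hK Bx ld6 t c6_1a_1a_z mn mn mn
          (lh_ringZ_of hl) (hK.inH hO k7zs_ok) (hK.inH hN k2as_ok)
          AllOk.nil (dOk hK t rfl (OR.a1 (by norm_num)))) rg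
          (by norm_num) (by norm_num) (by norm_num) (by norm_num)
      · obtain rfl := hk.s_
        exact b4c_of (tuseC hK Bx ld6 t c6_1a_1a_s mn mn mn
          (lh_one_of hl) (hK.inH hO k8ss_ok) (hK.inH hN k2as_ok)
          AllOk.nil (dOk hK t rfl (OR.a1 (by norm_num)))) rg
          (by norm_num) (by norm_num) (by norm_num) (by norm_num)
    · exact absurd (hN.zl rfl) (by norm_num)
    · cases l
      · exact absurd rfl t.left.ok.ne
      · obtain rfl := hk.a_
        exact b4c_of (tuseC hK Bx ld6 t c6_1a_1s_a mn mn mn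
          (lhA_of hl) (hK.inH hO k7as_ok) (hK.inH hN k3ss_ok)
          AllOk.nil (dOk hK t rfl OR.s)) rg
          (by norm_num) (by norm_num) (by norm_num) (by norm_num)
      · obtain ⟨rfl, rfl⟩ := hk.z_ (hL.zr rfl)
        exact b4c_of (tuseC hK Bx ld6 t c6_1a_1s_z mn mn mn
          (lh_ringZ_of hl) (hK.inH hO k7zs_ok) (hK.inH hN k3ss_ok)
          AllOk.nil (dOk hK t rfl OR.s)) rg
          (by norm_num) (by norm_num) (by norm_num) (by norm_num)
      · obtain rfl := hk.s_
        exact b4c_of (tuseC hK Bx ld6 t c6_1a_1s_s mn mn mn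
          (lh_one_of hl) (hK.inH hO k8ss_ok) (hK.inH hN k3ss_ok)
          AllOk.nil (dOk hK t rfl OR.s)) rg
          (by norm_num) (by norm_num) (by norm_num) (by norm_num)

theorem c6_two {k : Cl} {s : Bool} (t : RDt K 6 l x dl ll dr rr w kl kr)
    (hC : Bh x dr rr .two) (hk : Oh l dl ll k s)
    (hl : (hbox .ring k s).In (yH l (RR w kl) (Complex.cos w)))
    (rg : Rg (yH x (RR w kr) (Complex.cos w)) (zeta w)) :
    (rc6 .two).In (yH x (RR w kr) (Complex.cos w)) (zeta w) := by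
  have hN := t.right.ok.right.symm
  have hO := t.right.ok.left
  have hL := t.left.ok.right.symm
  obtain ⟨rfl, rfl, hre⟩ := hC.two
  cases rr
  · exact absurd rfl hre
  · cases l
    · exact absurd rfl t.left.ok.ne
    · obtain rfl := hk.a_
      exact b4c_of (tuseC hK Bx ld6 t c6_1b_2a_a mn mn mn
        (lhA_of hl) (hK.inH hO k7as_ok) (hK.inH hN k3as_ok)
        AllOk.nil (dOk hK t rfl OR.a)) rg
        (by norm_num) (by norm_num) (by norm_num) (by norm_num)
    · obtain ⟨rfl, rfl⟩ := hk.z_ (hL.zr rfl)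
      exact b4c_of (tuseC hK Bx ld6 t c6_1b_2a_z mn mn mn
        (lh_ringZ_of hl) (hK.inH hO k7zs_ok) (hK.inH hN k3as_ok)
        AllOk.nil (dOk hK t rfl OR.a)) rg
        (by norm_num) (by norm_num) (by norm_num) (by norm_num)
    · obtain rfl := hk.s_
      exact b4c_of (tuseC hK Bx ld6 t c6_1b_2a_s mn mn mn
        (lh_one_of hl) (hK.inH hO k8ss_ok) (hK.inH hN k3as_ok)
        AllOk.nil (dOk hK t rfl OR.a)) rg
        (by norm_num) (by norm_num) (by norm_num) (by norm_num)
  · exact absurd (hN.zl rfl) (by norm_num)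
  · cases l
    · exact absurd rfl t.left.ok.ne
    · obtain rfl := hk.a_
      exact b4c_of (tuseC hK Bx ld6 t c6_1b_2s_a mn mn mn
        (lhA_of hl) (hK.inH hO k7as_ok) (hK.inH hN k4ss_ok)
        AllOk.nil (dOk hK t rfl OR.s)) rg
        (by norm_num) (by norm_num) (by norm_num) (by norm_num)
    · obtain ⟨rfl, rfl⟩ := hk.z_ (hL.zr rfl)
      exact b4c_of (tuseC hK Bx ld6 t c6_1b_2s_z mn mn mn
        (lh_ringZ_of hl) (hK.inH hO k7zs_ok) (hK.inH hN k4ss_ok)
        AllOk.nil (dOk hK t rfl OR.s)) rg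
        (by norm_num) (by norm_num) (by norm_num) (by norm_num)
    · obtain rfl := hk.s_
      exact b4c_of (tuseC hK Bx ld6 t c6_1b_2s_s mn mn mn
        (lh_one_of hl) (hK.inH hO k8ss_ok) (hK.inH hN k4ss_ok)
        AllOk.nil (dOk hK t rfl OR.s)) rg
        (by norm_num) (by norm_num) (by norm_num) (by norm_num)

theorem c6_twoE {k : Cl} {s : Bool} (t : RDt K 6 l x dl ll dr rr w kl kr)
    (hC : Bh x dr rr .twoE) (hk : Oh l dl ll k s)
    (hl : (hbox .ring k s).In (yH l (RR w kl) (Complex.cos w)))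
    (rg : Rg (yH x (RR w kr) (Complex.cos w)) (zeta w)) :
    (rc6 .twoE).In (yH x (RR w kr) (Complex.cos w)) (zeta w) := by
  have hN := t.right.ok.right.symm
  have hO := t.right.ok.left
  have hL := t.left.ok.right.symm
  obtain ⟨rfl, rfl, rfl⟩ := hC.twoE
  cases l
  · exact absurd rfl t.left.ok.ne
  · obtain rfl := hk.a_
    exact b4c_of (tuseC hK Bx ld6 t c6_1c_2e_a mn mn mn
      (lhA_of hl) (hK.inH hO k7as_ok) (hK.inH hN k3es_ok)
      AllOk.nil (dOk hK t rfl OR.e)) rg
      (by norm_num) (by norm_num) (by norm_num) (by norm_num)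
  · obtain ⟨rfl, rfl⟩ := hk.z_ (hL.zr rfl)
    exact b4c_of (tuseC hK Bx ld6 t c6_1c_2e_z mn mn mn
      (lh_ringZ_of hl) (hK.inH hO k7zs_ok) (hK.inH hN k3es_ok)
      AllOk.nil (dOk hK t rfl OR.e)) rg
      (by norm_num) (by norm_num) (by norm_num) (by norm_num)
  · obtain rfl := hk.s_
    exact b4c_of (tuseC hK Bx ld6 t c6_1c_2e_s mn mn mn
      (lh_one_of hl) (hK.inH hO k8ss_ok) (hK.inH hN k3es_ok)
      AllOk.nil (dOk hK t rfl OR.e)) rg
      (by norm_num) (by norm_num) (by norm_num) (by norm_num)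

theorem c5_one {k : Cl} {s : Bool} (t : RDt K 5 l x dl ll dr rr w kl kr)
    (hC : Bh x dr rr .one) (hk : Oh l dl ll k s)
    (hl : (hbox .ring k s).In (yH l (RR w kl) (Complex.cos w))) :
    ((240 : ℤ) : ℝ) / 10000 ≤ (zeta w).im := by
  have hN := t.right.ok.right.symm
  have hO := t.right.ok.left
  have hL := t.left.ok.right.symm
  rcases hC.one with ⟨rfl, rfl⟩ | ⟨rfl, rfl⟩
  · have e2 := far_s t.right.ok.right
    subst e2
    cases l
    · exact absurd rfl t.left.ok.ne
    · obtain rfl := hk.a_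
      exact br_of (tuseC hK Bx ld5 t r5_1a_u_a mn mn mn
        (lhA_of hl) (hK.inH hO k5aa_ok) (hK.inH hN k2as_ok)
        (aPa hK t rfl) (dOk hK t rfl (OR.st (by decide))))
    · obtain ⟨rfl, rfl⟩ := hk.z_ (hL.zr rfl)
      exact br_of (tuseC hK Bx ld5 t r5_1a_u_z mn mn mn
        (lh_ringZ_of hl) (hK.inH hO k5az_ok) (hK.inH hN k2as_ok)
        AllOk.nil (dOk hK t rfl (OR.st (by decide))))
    · obtain rfl := hk.s_
      exact br_of (tuseC hK Bx ld5 t r5_1a_u_s mn mn mn
        (lh_one_of hl) (hK.inH hO k6as_ok) (hK.inH hN k2as_ok)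
        AllOk.nil (dOk hK t rfl (OR.st (by decide))))
  · cases rr
    · exact absurd rfl (hN.one rfl).2.1
    · cases l
      · exact absurd rfl t.left.ok.ne
      · obtain rfl := hk.a_
        exact br_of (tuseC hK Bx ld5 t r5_1a_1a_a mn mn mn
          (lhA_of hl) (hK.inH hO k6as_ok) (hK.inH hN k2as_ok)
          AllOk.nil (dOk hK t rfl (OR.a1 (by norm_num))))
      · obtain ⟨rfl, rfl⟩ := hk.z_ (hL.zr rfl)
        exact br_of (tuseC hK Bx ld5 t r5_1a_1a_z mn mn mn
          (lh_ringZ_of hl) (hK.inH hO k6zs_ok) (hK.inH hN k2as_ok)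
          AllOk.nil (dOk hK t rfl (OR.a1 (by norm_num))))
      · obtain rfl := hk.s_
        exact br_of (tuseC hK Bx ld5 t r5_1a_1a_s mn mn mn
          (lh_one_of hl) (hK.inH hO k7ss_ok) (hK.inH hN k2as_ok)
          AllOk.nil (dOk hK t rfl (OR.a1 (by norm_num))))
    · exact absurd (hN.zl rfl) (by norm_num)
    · cases l
      · exact absurd rfl t.left.ok.ne
      · obtain rfl := hk.a_
        exact br_of (tuseC hK Bx ld5 t r5_1a_1s_a mn mn mn
          (lhA_of hl) (hK.inH hO k6as_ok) (hK.inH hN k3ss_ok)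
          AllOk.nil (dOk hK t rfl OR.s))
      · obtain ⟨rfl, rfl⟩ := hk.z_ (hL.zr rfl)
        exact br_of (tuseC hK Bx ld5 t r5_1a_1s_z mn mn mn
          (lh_ringZ_of hl) (hK.inH hO k6zs_ok) (hK.inH hN k3ss_ok)
          AllOk.nil (dOk hK t rfl OR.s))
      · obtain rfl := hk.s_
        exact br_of (tuseC hK Bx ld5 t r5_1a_1s_s mn mn mn
          (lh_one_of hl) (hK.inH hO k7ss_ok) (hK.inH hN k3ss_ok)
          AllOk.nil (dOk hK t rfl OR.s))

theorem c5_two {k : Cl} {s : Bool} (t : RDt K 5 l x dl ll dr rr w kl kr)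
    (hC : Bh x dr rr .two) (hk : Oh l dl ll k s)
    (hl : (hbox .ring k s).In (yH l (RR w kl) (Complex.cos w))) :
    ((240 : ℤ) : ℝ) / 10000 ≤ (zeta w).im := by
  have hN := t.right.ok.right.symm
  have hO := t.right.ok.left
  have hL := t.left.ok.right.symm
  obtain ⟨rfl, rfl, hre⟩ := hC.two
  cases rr
  · exact absurd rfl hre
  · cases l
    · exact absurd rfl t.left.ok.ne
    · obtain rfl := hk.a_
      exact br_of (tuseC hK Bx ld5 t r5_1b_2a_a mn mn mn
        (lhA_of hl) (hK.inH hO k6as_ok) (hK.inH hN k3as_ok)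
        AllOk.nil (dOk hK t rfl OR.a))
    · obtain ⟨rfl, rfl⟩ := hk.z_ (hL.zr rfl)
      exact br_of (tuseC hK Bx ld5 t r5_1b_2a_z mn mn mn
        (lh_ringZ_of hl) (hK.inH hO k6zs_ok) (hK.inH hN k3as_ok)
        AllOk.nil (dOk hK t rfl OR.a))
    · obtain rfl := hk.s_
      exact br_of (tuseC hK Bx ld5 t r5_1b_2a_s mn mn mn
        (lh_one_of hl) (hK.inH hO k7ss_ok) (hK.inH hN k3as_ok)
        AllOk.nil (dOk hK t rfl OR.a))
  · exact absurd (hN.zl rfl) (by norm_num)
  · cases l
    · exact absurd rfl t.left.ok.ne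
    · obtain rfl := hk.a_
      exact br_of (tuseC hK Bx ld5 t r5_1b_2s_a mn mn mn
        (lhA_of hl) (hK.inH hO k6as_ok) (hK.inH hN k4ss_ok)
        AllOk.nil (dOk hK t rfl OR.s))
    · obtain ⟨rfl, rfl⟩ := hk.z_ (hL.zr rfl)
      exact br_of (tuseC hK Bx ld5 t r5_1b_2s_z mn mn mn
        (lh_ringZ_of hl) (hK.inH hO k6zs_ok) (hK.inH hN k4ss_ok)
        AllOk.nil (dOk hK t rfl OR.s))
    · obtain rfl := hk.s_
      exact br_of (tuseC hK Bx ld5 t r5_1b_2s_s mn mn mn
        (lh_one_of hl) (hK.inH hO k7ss_ok) (hK.inH hN k4ss_ok)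
        AllOk.nil (dOk hK t rfl OR.s))

theorem c5_twoE {k : Cl} {s : Bool} (t : RDt K 5 l x dl ll dr rr w kl kr)
    (hC : Bh x dr rr .twoE) (hk : Oh l dl ll k s)
    (hl : (hbox .ring k s).In (yH l (RR w kl) (Complex.cos w))) :
    ((240 : ℤ) : ℝ) / 10000 ≤ (zeta w).im := by
  have hN := t.right.ok.right.symm
  have hO := t.right.ok.left
  have hL := t.left.ok.right.symm
  obtain ⟨rfl, rfl, rfl⟩ := hC.twoE
  cases l
  · exact absurd rfl t.left.ok.ne
  · obtain rfl := hk.a_
    exact br_of (tuseC hK Bx ld5 t r5_1c_2e_a mn mn mn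
      (lhA_of hl) (hK.inH hO k6as_ok) (hK.inH hN k3es_ok)
      AllOk.nil (dOk hK t rfl OR.e))
  · obtain ⟨rfl, rfl⟩ := hk.z_ (hL.zr rfl)
    exact br_of (tuseC hK Bx ld5 t r5_1c_2e_z mn mn mn
      (lh_ringZ_of hl) (hK.inH hO k6zs_ok) (hK.inH hN k3es_ok)
      AllOk.nil (dOk hK t rfl OR.e))
  · obtain rfl := hk.s_
    exact br_of (tuseC hK Bx ld5 t r5_1c_2e_s mn mn mn
      (lh_one_of hl) (hK.inH hO k7ss_ok) (hK.inH hN k3es_ok)
      AllOk.nil (dOk hK t rfl OR.e))

/-- the hinge next to the digit `1`, 6 crossings -/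
theorem rc6_of {C k : Cl} {s : Bool} (t : RDt K 6 l x dl ll dr rr w kl kr) (hC : Bh x dr rr C)
    (hk : Oh l dl ll k s) (hl : (hbox .ring k s).In (yH l (RR w kl) (Complex.cos w)))
    (rg : Rg (yH x (RR w kr) (Complex.cos w)) (zeta w)) :
    (rc6 C).In (yH x (RR w kr) (Complex.cos w)) (zeta w) := by
  rcases hC.cases t.right (by norm_num) with rfl | rfl | rfl
  · exact c6_one hK Bx t hC hk hl rg
  · exact c6_two hK Bx t hC hk hl rg
  · exact c6_twoE hK Bx t hC hk hl rg

/-- the height of the ring variable, 5 crossings -/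
theorem rh5_of {C k : Cl} {s : Bool} (t : RDt K 5 l x dl ll dr rr w kl kr) (hC : Bh x dr rr C)
    (hk : Oh l dl ll k s) (hl : (hbox .ring k s).In (yH l (RR w kl) (Complex.cos w))) :
    ((240 : ℤ) : ℝ) / 10000 ≤ (zeta w).im := by
  rcases hC.cases t.right (by norm_num) with rfl | rfl | rfl
  · exact c5_one hK Bx t hC hk hl
  · exact c5_two hK Bx t hC hk hl
  · exact c5_twoE hK Bx t hC hk hl

end

end

end Pool.Agent.Work.MP_b30479_gtS.G2.CN.TD

end
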