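import Pool.Agent.Work.MP_b30479_gt.TBS.G2.WLocF
import Pool.Agent.Work.MP_b30479_gt.TBS.G2.MPHess
import Pool.Agent.Work.MP_b30479_gt.TBS.G2.CN.TQ5E
import Pool.Agent.Work.MP_b30479_gt.TBS.G2.MDf
import Pool.Agent.Work.MP_b30479_gt.TBS.G2.RW4e
import Pool.Agent.Work.MP_b30479_gt.TBS.G2.WLocC
import Pool.Agent.Work.MP_b30479_gt.TBS.G2.CN.TY7E
import Pool.Agent.Work.MP_b30479_gt.TBS.G2.CN.TRzJ
import Pool.Agent.Work.MP_b30479_gt.TBS.G2.WCap3

section

/-!
# Windows of the rings in the words `2 1 n 1 2`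
-/

namespace Pool.Agent.Work.MP_b30479_gtS.G2.CN.TD

open Complex SR
open scoped ComplexConjugate

noncomputable section

lemma lo4_two_one_of {s : Bool} {y z : ℂ} (h : (rq4 .two .one s).In y z) :
    ∀ g ∈ lo4_two_one, g.G y := by
  have a0 := h.x0
  have a1 := h.x1
  have a2 := h.t0
  have a3 := h.t1
  norm_num [rq4, mk4] at a0 a1 a2 a3
  exact li_box (by norm_num; linarith only [a0]) (by norm_num; linarith only [a1]) (by norm_num; linarith only [a1])
    (by norm_num; linarith only [a2]) (by norm_num; linarith only [a3])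

lemma lo5_two_one_of {s : Bool} {y z : ℂ} (h : (rq5 .two .one s).In y z) :
    ∀ g ∈ lo5_two_one, g.G y := by
  have a0 := h.x0
  have a1 := h.x1
  have a2 := h.t0
  have a3 := h.t1
  norm_num [rq5, mk4] at a0 a1 a2 a3
  exact li_box (by norm_num; linarith only [a0]) (by norm_num; linarith only [a1]) (by norm_num; linarith only [a1])
    (by norm_num; linarith only [a2]) (by norm_num; linarith only [a3])

section
variable {K : KFam} (hK : KOK K) (Bx : BoxRows K) {l x : SK} {dl : ℕ} {ll : SK} {dr : ℕ} {rr : SK}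
  {w kl kr : ℂ}
include hK Bx

theorem rw4_of {s : Bool} (t : RDt K 4 l x dl ll dr rr w kl kr) (hC : Bh x dr rr .two)
    (hC' : Bh l dl ll .two)
    (hl : (rq4 .two .one s).In (yH l (RR w kl) (Complex.cos w)) (zeta w))
    (rg : Rg (yH x (RR w kr) (Complex.cos w)) (zeta w)) :
    rw4.In (yH x (RR w kr) (Complex.cos w)) (zeta w) := by
  have hN := t.right.ok.right.symm
  have hO := t.right.ok.left
  obtain ⟨rfl, rfl, hre⟩ := hC.two
  obtain ⟨rfl, rfl, hle⟩ := hC'.two
  cases rr
  · exact absurd rfl hre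
  · exact b4c_of (tuseC hK Bx ld4 t w4_2a mn mn mn
      (lo4_two_one_of hl) (hK.inH hO k6ss_ok) (hK.inH hN k3as_ok)
      AllOk.nil (dOk hK t rfl OR.a)) rg
      (by norm_num) (by norm_num) (by norm_num) (by norm_num)
  · exact absurd (hN.zl rfl) (by norm_num)
  · exact b4c_of (tuseC hK Bx ld4 t w4_2s mn mn mn
      (lo4_two_one_of hl) (hK.inH hO k6ss_ok) (hK.inH hN k4ss_ok)
      AllOk.nil (dOk hK t rfl OR.s)) rg
      (by norm_num) (by norm_num) (by norm_num) (by norm_num)

theorem rw5_of {s : Bool} (t : RDt K 5 l x dl ll dr rr w kl kr) (hC : Bh x dr rr .two)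
    (hC' : Bh l dl ll .two)
    (hl : (rq5 .two .one s).In (yH l (RR w kl) (Complex.cos w)) (zeta w))
    (rg : Rg (yH x (RR w kr) (Complex.cos w)) (zeta w)) :
    rw5.In (yH x (RR w kr) (Complex.cos w)) (zeta w) := by
  have hN := t.right.ok.right.symm
  have hO := t.right.ok.left
  obtain ⟨rfl, rfl, hre⟩ := hC.two
  obtain ⟨rfl, rfl, hle⟩ := hC'.two
  cases rr
  · exact absurd rfl hre
  · exact b4c_of (tuseC hK Bx ld5 t w5_2a mn mn mn
      (lo5_two_one_of hl) (hK.inH hO k7ss_ok) (hK.inH hN k3as_ok)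
      AllOk.nil (dOk hK t rfl OR.a)) rg
      (by norm_num) (by norm_num) (by norm_num) (by norm_num)
  · exact absurd (hN.zl rfl) (by norm_num)
  · exact b4c_of (tuseC hK Bx ld5 t w5_2s mn mn mn
      (lo5_two_one_of hl) (hK.inH hO k7ss_ok) (hK.inH hN k4ss_ok)
      AllOk.nil (dOk hK t rfl OR.s)) rg
      (by norm_num) (by norm_num) (by norm_num) (by norm_num)

end

section
variable {M : ℕ} {b : Fin (M + 1) → ℤ} {w : ℕ → ℂ}
variable (hb : ClassW b) (F : RingFacts) (hw : Sol b w) (hM : 1 ≤ M) {K : KFam}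
  (hS : Snd K b w) (Bx : BoxRows K)
include hb F hw hM hS Bx

theorem locR2_mk {n : ℕ} (hn : 4 ≤ n) {q r : Cl → Cl → Bool → R4} {e : Cl → R4} {f : R4}
    (H : LocRw n q r e b (zsW b w))
    (Q : ∀ {l x : SK} {dl : ℕ} {ll : SK} {dr : ℕ} {rr : SK} {w kl kr : ℂ} {s : Bool},
      RDt K n l x dl ll dr rr w kl kr → Bh x dr rr .two → Bh l dl ll .two →
      (q .two .one s).In (yH l (RR w kl) (Complex.cos w)) (zeta w) →
      Rg (yH x (RR w kr) (Complex.cos w)) (zeta w) →
      f.In (yH x (RR w kr) (Complex.cos w)) (zeta w)) : LocR2 n f b (zsW b w) := by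
  constructor
  intro h h' h2 h3 i j k g g' p v hv A A3 A2 A4 hi hni hj hk hg hg'
  have hL := loc_of_boxes hb F hw hM hS Bx
  have A' : Adj h i p.rev.rev j := by rwa [Fin.rev_rev]
  have hui : us b i.val = false := us_of_abs (by omega)
  have hend : isEnd i = false := mid_of A.symm A2
  obtain ⟨l, x, dl, ll, dr, rr, kl, kr, hE, y1, y2, s1, s2⟩ := pair_sd hb F hw hS A2 A' hui
  rw [Fin.rev_rev] at s2
  have hbx := box_cls Bx hE.right (by omega) s2.cls
  have hi1 : clsW b i ≠ .one := by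
    rw [hi]
    decide
  have hC := beh_of hb F hw hS A A3 s2 hi1 hj hE.right.ok.right.symm.zr
  have hC' := beh_of hb F hw hS A2 A4 s1 hi1 hk hE.left.ok.right.symm.zr
  rw [hg] at hC
  rw [hg'] at hC'
  have he : SK.a = .e ↔ isEnd i = true :=
    ⟨fun h5 => absurd h5 (by decide), fun h5 => by rw [hend] at h5; exact absurd h5 (by decide)⟩
  have hl := H.own v hv A2 A4 A' hi hni hk
  rw [hg', hj, y1] at hl
  subst hv
  have z0 := zb_rg (by omega) (zb_of hL v he)
  have y0 := hb_rg hbx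
  rw [ofz_own] at hl ⊢
  rw [y2]
  rw [hni] at hE
  exact Q hE hC hC' hl ⟨y0.1, y0.2, z0.1, z0.2⟩

variable (hK : KOK K)
include hK

/-- **The words `2 1 4 1 2`.** -/
theorem locR24_of : LocR2 4 rw4 b (zsW b w) :=
  locR2_mk hb F hw hM hS Bx (by norm_num) (locRw4_of hb F hw hM hK hS Bx)
    (fun t hC hC' hl rg => rw4_of hK Bx t hC hC' hl rg)

/-- **The words `2 1 5 1 2`.** -/
theorem locR25_of : LocR2 5 rw5 b (zsW b w) :=
  locR2_mk hb F hw hM hS Bx (by norm_num) (locRw5_of hb F hw hM hK hS Bx)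
    (fun t hC hC' hl rg => rw5_of hK Bx t hC hC' hl rg)

end

end

end Pool.Agent.Work.MP_b30479_gtS.G2.CN.TD

end

section

/-!
# All facts about the rings of a word
-/

namespace Pool.Agent.Work.MP_b30479_gtS.G2

namespace SR

open CN.LA CN.TD

variable {M : ℕ} {b : Fin (M + 1) → ℤ} {w : ℕ → ℂ}

/-- **All facts about the location of the saddle point at the rings.** -/
theorem rfacts_of (hb : ClassW b) (hM : 1 ≤ M) (hw : Sol b w) (hC : Crit b (zsW b w)) :
    RFacts b (zsW b w) := by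
  have A := locA_of hb hM hw hC
  have hK := CN.kok_kr3
  have hS := snd3 hb hw hM
  have Bx := boxRows hK (locZ hK) (CN.S6.locS hK) Kr3_le
  exact
    { H := RLoc.of hb A.L hC A.X A.R A.G A.F
      H4 := A.F
      w4 := locRw4_of hb ringFacts hw hM hK hS Bx
      w5 := locRw5_of hb ringFacts hw hM hK hS Bx
      w6 := locRw6_of hb ringFacts hw hM hK hS Bx
      k4 := locRk4_of hb ringFacts hw hM hK hS Bx
      k5 := locRk5_of hb ringFacts hw hM hK hS Bx
      h5 := locRh5_of hb ringFacts hw hM hK hS Bx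
      d4 := locR24_of hb ringFacts hw hM hS Bx hK
      d5 := locR25_of hb ringFacts hw hM hS Bx hK
      c7 := locRc7_of hb ringFacts hw hM hK Kr3_le hS Bx
      e7 := locRd7_of hb ringFacts hw hM hK Kr3_le hS Bx
      c8 := locRc8_of hb ringFacts hw hM hK Kr3_le hS Bx
      e2 := locR2e_of hb ringFacts hw hM hK hS Bx }

end SR

end Pool.Agent.Work.MP_b30479_gtS.G2

end

section

/-!
# The saddle point data of every word, with the extra windows at the digits `3`

The facts `LocM5`, `LocM6` about the digits `3` next to a digit `1` are passed to the rest of the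
domination besides `LocA`.
-/

namespace Pool.Agent.Work.MP_b30479_gtS.G2

namespace SR

open CN.LA CN.TD

/-- **The saddle point data of a word** from the rest of the domination; `P` is any further fact
about the solution of the ring equations. -/
theorem hsad_word_restP {M : ℕ} {b : Fin (M + 2) → ℤ} (hb : ClassW (M := M + 1) b)
    (P : (DD (tyW (M := M + 1) b) ⊕ ZZ (tyW (M := M + 1) b) → ℂ) → Prop)
    (hP : ∀ w, Sol (M := M + 1) b w → P (zsW (M := M + 1) b w))
    (hrest : ∀ zs, LocA (M := M + 1) b zs → RFacts (M := M + 1) b zs → P zs →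
      RestQ (M := M + 1) b zs) : HSad b := by
  obtain ⟨w, hw⟩ := exists_sol (M := M + 1) hb ringFacts (by omega)
  obtain ⟨hO, hL, -⟩ := loc_kr3 (M := M + 1) (locZ CN.kok_kr3) (CN.S6.locS CN.kok_kr3) hb
    ringFacts hw (by omega)
  refine hsad_of_domQ hb ringFacts hw hO hL fun hC => ?_
  have hA := locA_of hb (by omega) hw hC
  have hR := rfacts_of hb (by omega) hw hC
  exact ⟨mainPartsS_all (by omega) hR hA, hrest _ hA hR (hP w hw)⟩

section
variable {M : ℕ} {b : Fin (M + 1) → ℤ} {w : ℕ → ℂ}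

/-- windows at the digits `3` next to a digit `1` -/
theorem locM5_sol (hb : ClassW b) (hM : 1 ≤ M) (hw : Sol b w) : LocM5 b (zsW b w) :=
  locM5_of hb ringFacts hw CN.kok_kr3 (snd3 hb hw hM)
    (boxRows CN.kok_kr3 (locZ CN.kok_kr3) (CN.S6.locS CN.kok_kr3) Kr3_le)

/-- windows at the digits `3` next to a digit `1` -/
theorem locM6_sol (hb : ClassW b) (hM : 1 ≤ M) (hw : Sol b w) : LocM6 b (zsW b w) :=
  locM6_of hb ringFacts hw CN.kok_kr3 (snd3 hb hw hM)
    (boxRows CN.kok_kr3 (locZ CN.kok_kr3) (CN.S6.locS CN.kok_kr3) Kr3_le)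

end

/-- **The saddle point data of all words** from the rest of the domination. -/
theorem hsad_all_rest'
    (hrest : ∀ {M : ℕ} {b : Fin (M + 1) → ℤ} {zs}, 1 ≤ M → ClassW b → LocA b zs → LocM5 b zs →
      LocM6 b zs → RestQ b zs)
    (K : ℕ) (b : Fin (K + 2) → ℤ) (hb : ClassW (M := K + 1) b) : HSad b :=
  hsad_word_restP hb (fun zs => LocM5 (M := K + 1) b zs ∧ LocM6 (M := K + 1) b zs)
    (fun _ hw => ⟨locM5_sol hb (by omega) hw, locM6_sol hb (by omega) hw⟩)
    fun _ hA _ h => hrest (by omega) hb hA h.1 h.2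

end SR

end Pool.Agent.Work.MP_b30479_gtS.G2

end
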