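import Pool.Agent.Work.MP_b30479_gt.TBS.G2.CN.TGoal
import Pool.Agent.Work.MP_b30479_gt.TBS.G2.CN.TUse
import Pool.Agent.Work.MP_b30479_gt.TBS.G2.SWordL
import Pool.Agent.Work.MP_b30479_gt.TBS.G2.CN.TDatc
import Pool.Agent.Work.MP_b30479_gt.TBS.G2.CN.LocRTd
import Pool.Agent.Work.MP_b30479_gt.TBS.G2.WLocF
import Pool.Agent.Work.MP_b30479_gt.TBS.G2.CN.TRyN
import Pool.Agent.Work.MP_b30479_gt.TBS.G2.CN.TUt
import Pool.Agent.Work.MP_b30479_gt.TBS.G2.CN.TTabG

section

/-!
# Rows for the two terms of a ring equation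

The equation of a ring is `B w - π + i (Q + Q') = 0`.  `yQ Q = 1 - i Q / π`: the variable of the term
`Q`; `exp (2 π i yQ) = (R + T) / (R - T)`, and the sum of the two variables is
`1 + B w / π`.  `tuseQ`: bounds of `yQ` from a run, for ring variables in a box; `tuseZ`: a run for
a hinge, for ring variables in a box; `QB.ring`: the box of the ring variable from those of the terms.
-/

namespace Pool.Agent.Work.MP_b30479_gtS.G2.CN.TD

open Complex SR Ev

noncomputable section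

/-- the variable of a term -/
def yQ (Q : ℂ) : ℂ := 1 - I * Q / Real.pi

lemma yQ_re (Q : ℂ) : (yQ Q).re = 1 + Q.im / Real.pi := by
  unfold yQ
  rw [Complex.sub_re, Complex.div_ofReal_re, Complex.one_re, Complex.I_mul_re]
  ring

lemma yQ_im (Q : ℂ) : (yQ Q).im = -Q.re / Real.pi := by
  unfold yQ
  rw [Complex.sub_im, Complex.div_ofReal_im, Complex.one_im, Complex.I_mul_im]
  ring

lemma expQ {w k : ℂ} (hR : 0 < (RR w k).re) (h0 : 0 ≤ w.re) (h1 : w.re ≤ 3 / 2) (hk : 0 < k.re)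
    (H : List QC) :
    cexp (2 * Real.pi * I * yQ (QQ w k)) * (tQ H).M.val (RR w k) (Complex.tan w) =
      (tQ H).N.val (RR w k) (Complex.tan w) := by
  obtain ⟨e1, e2⟩ := exp_QQ hR h0 h1 hk
  have hpi : (Real.pi : ℂ) ≠ 0 := by exact_mod_cast Real.pi_pos.ne'
  have e : 2 * Real.pi * I * yQ (QQ w k) = 2 * Real.pi * I + (QQ w k + QQ w k) := by
    unfold yQ
    field_simp
    linear_combination (-2 * QQ w k) * Complex.I_sq
  have h3 : ((Complex.tan w + RR w k) * k) * ((RR w k - Complex.tan w) * k) = 1 := by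
    rw [← e1, ← e2, ← Complex.exp_add, add_neg_cancel, Complex.exp_zero]
  change _ * (RR w k - Complex.tan w) = RR w k + Complex.tan w
  rw [e, Complex.exp_add, Complex.exp_two_pi_mul_I, Complex.exp_add, one_mul, e1]
  linear_combination (RR w k + Complex.tan w) * h3

/-! ### runs -/

section
variable {K : KFam} (hK : KOK K) {x : SK} {d : ℕ} {l : SK} {d' : ℕ} {l' : SK} {w R k : ℂ}
include hK

/-- the bounds of a row for the term of the second ring -/
theorem tuseQ (h : HDt K x d l d' l' (RR w k) (Complex.cos w) k) (h0 : 0 < w.re)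
    (h1 : w.re < 3 / 2) {B' : ℕ} (hB' : crs d' x l' = B') {zi : List GC} {o o' : List QC}
    {L' : List Grp} {gq : List GC} {n code : ℕ}
    (hr : trowOkQ x zi o o' L' gq n code = true) (hz : ∀ g ∈ zi, g.G (-zeta w))
    (ho : InH (K.K d l x) o) (ho' : InH (K.K d' l' x) o') (hL' : OR x d' B' l' L') :
    ∀ g ∈ gq, g.P (yQ (QQ w k)) := by
  subst hB'
  have hc := h.kre
  have hc0 := ne_of_re hc
  have hT := tan_sq hc0
  have hR : 0 < (RR w k).re := r0_pos.trans h.Rre
  have hq : RR w k ^ 2 + 1 - 1 / Complex.cos w ^ 2 = 1 / k ^ 2 := by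
    rw [h.hinge]
    ring
  have hm' := h.mem'
  have h2 := inH_ownR (x := x) ho'
  rw [← K.symm] at h2
  unfold trowOkQ at hr
  rw [Bool.and_eq_true, Bool.and_eq_true] at hr
  obtain ⟨hrow, k1, k2⟩ := hr
  have hl : AllOk (RR w k) (Complex.tan w)
      (tZ (zi.map GC.qi) :: tl o :: tr (ownR x o') :: L') := by
    refine AllOk.cons ⟨_, expZ hc _, ?_⟩ (AllOk.cons (tl_ok hc0 hT (ho _ h.mem))
      (AllOk.cons (tr_ok (ne_of_re h.kre') hT hq (h2 k hm')) (hL' hK hT hq h.out')))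
    intro Q hQ
    obtain ⟨g, hg, rfl⟩ := List.mem_map.1 hQ
    exact GC.imp (List.all_eq_true.1 k1 g hg) (hz g hg)
  intro g hg
  exact GC.spec (List.all_eq_true.1 k2 g hg) (row_sound hrow
    (rootT_mem hK h hT (tan_re h0 h1)) hl (g := tQ (gq.map GC.q)) (by simp)
    (expQ hR h0.le h1.le h.kre' _) g.q (List.mem_map_of_mem hg))

/-- the bounds of a row for a hinge, with conditions for the ring variable -/
theorem tuseZ {k' : ℂ} (t : TDt K x d l d' l' w R k') {B B' : ℕ} (hB : crs d l x = B)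
    (hB' : crs d' x l' = B') {gi zi : List GC} {o : List QC} {L : List Grp} {o' : List QC}
    {L' : List Grp} {gy gz gu : List GC} {n code : ℕ}
    (hr : trowOk x gi o (tZ (zi.map GC.qi) :: L) o' L' gy gz gu n code = true)
    (hzi : zi.all GC.oki = true)
    (hi : ∀ g ∈ gi, g.G (yH x R (Complex.cos w))) (hz : ∀ g ∈ zi, g.G (-zeta w))
    (ho : InH (K.K d l x) o) (ho' : InH (K.K d' l' x) o') (hL : OL d B l L)
    (hL' : OR x d' B' l' L') :
    (∀ g ∈ gy, g.P (yH x R (Complex.cos w))) ∧ (∀ g ∈ gz, g.P (-zeta w)) ∧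
      ∀ g ∈ gu, g.P (yH x R (Complex.cos w) - zeta w) := by
  refine trow hK t hr hi (ho _ t.h.mem) ho' ?_ ?_
  · intro q q' hT hq e1 e2
    refine AllOk.cons ⟨_, expZ t.h.kre _, ?_⟩ (hL hK hT hq (by rw [e1, e2, ← hB]; exact t.h.out))
    intro Q hQ
    obtain ⟨g, hg, rfl⟩ := List.mem_map.1 hQ
    exact GC.imp (List.all_eq_true.1 hzi g hg) (hz g hg)
  · intro q q' hT hq h
    exact hL' hK hT hq (by rw [← hB']; exact h)

end

/-! ### boxes -/

/-- bounds of a number, in units of `1 / 10000` -/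
structure QB (a b c e : ℤ) (y : ℂ) : Prop where
  a : (a : ℝ) / 10000 ≤ y.re
  b : y.re ≤ (b : ℝ) / 10000
  c : (c : ℝ) / 10000 ≤ y.im
  e : y.im ≤ (e : ℝ) / 10000

/-- the conditions of a box: upper bound of the real part, bounds of the imaginary part -/
lemma zi2 {a b c e : ℤ} {y : ℂ} (h : QB a b c e y) (ha : 0 ≤ a) {m : ℕ} {a0 b0 c0 : ℤ}
    (h1 : b ≤ m) :
    ∀ g ∈ [GC.arc 0 m a0 b0, GC.lo c c0], g.G y := by
  have ha' : (0 : ℝ) ≤ (a : ℝ) / 10000 := div_nonneg (by exact_mod_cast ha) (by norm_num)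
  have h1' : (b : ℝ) ≤ m := by exact_mod_cast h1
  have h2 := h.a
  have h3 := h.b
  intro g hg
  simp only [List.mem_cons, List.not_mem_nil, or_false] at hg
  rcases hg with rfl | rfl
  · refine ⟨by rw [Nat.cast_zero, zero_div]; linarith only [ha', h2], ?_⟩
    linarith only [h1', h3, div_le_div_of_nonneg_right h1' (by norm_num : (0 : ℝ) ≤ 10000)]
  · exact h.c

/-- the conditions of a box -/
lemma zi4 {a b c e : ℤ} {y : ℂ} (h : QB a b c e y) {n m n' m' : ℕ} {a0 b0 a1 b1 c0 e0 : ℤ}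
    (g1 : (n : ℤ) ≤ a) (g2 : b ≤ m) (g3 : (n' : ℤ) ≤ a) (g4 : b ≤ m') :
    ∀ g ∈ [GC.arc n m a0 b0, GC.arc n' m' a1 b1, GC.lo c c0, GC.hi e e0], g.G y := by
  have g1' : (n : ℝ) ≤ a := by exact_mod_cast g1
  have g2' : (b : ℝ) ≤ m := by exact_mod_cast g2
  have g3' : (n' : ℝ) ≤ a := by exact_mod_cast g3
  have g4' : (b : ℝ) ≤ m' := by exact_mod_cast g4
  have h2 := h.a
  have h3 := h.b
  have p := (by norm_num : (0 : ℝ) ≤ 10000)
  have l1 := div_le_div_of_nonneg_right g1' p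
  have l2 := div_le_div_of_nonneg_right g2' p
  have l3 := div_le_div_of_nonneg_right g3' p
  have l4 := div_le_div_of_nonneg_right g4' p
  intro g hg
  simp only [List.mem_cons, List.not_mem_nil, or_false] at hg
  rcases hg with rfl | rfl | rfl | rfl
  · exact ⟨by linarith only [g1', h2], by linarith only [g2', h3]⟩
  · exact ⟨by linarith only [g3', h2], by linarith only [g4', h3]⟩
  · exact h.c
  · exact h.e

/-! ### the ring equation -/

section
variable {K : KFam} {d : ℕ} {l x : SK} {dl : ℕ} {ll : SK} {dr : ℕ} {rr : SK} {w kl kr : ℂ}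

lemma ring_rel (h : RDt K d l x dl ll dr rr w kl kr) :
    (crs d l x : ℂ) * -zeta w = yQ (QQ w kl) + yQ (QQ w kr) - 1 := by
  have hpi : (Real.pi : ℂ) ≠ 0 := by exact_mod_cast Real.pi_pos.ne'
  have e := h.eq
  unfold yQ zeta
  field_simp
  linear_combination e

lemma end_rel (h : RDe K d x dr rr w kr) : (crs d .e x : ℂ) * -zeta w = yQ (QQ w kr) := by
  have hpi : (Real.pi : ℂ) ≠ 0 := by exact_mod_cast Real.pi_pos.ne'
  have e := h.eq
  unfold yQ zeta
  field_simp
  linear_combination e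

/-- the box of the ring variable of an interior ring -/
lemma QB.ring (h : RDt K d l x dl ll dr rr w kl kr) {a b c e a' b' c' e' : ℤ}
    (q : QB a b c e (yQ (QQ w kl))) (q' : QB a' b' c' e' (yQ (QQ w kr))) {B : ℕ}
    (hB : crs d l x = B) :
    (a + a' - 10000 : ℝ) / 10000 ≤ B * (-zeta w).re ∧
    B * (-zeta w).re ≤ (b + b' - 10000 : ℝ) / 10000 ∧
    (c + c' : ℝ) / 10000 ≤ B * (-zeta w).im ∧ B * (-zeta w).im ≤ (e + e' : ℝ) / 10000 := by
  subst hB
  have e0 := ring_rel h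
  have e1 := congrArg Complex.re e0
  have e2 := congrArg Complex.im e0
  rw [Complex.mul_re, Complex.natCast_re, Complex.natCast_im, zero_mul, sub_zero, Complex.sub_re,
    Complex.add_re, Complex.one_re] at e1
  rw [Complex.mul_im, Complex.natCast_re, Complex.natCast_im, zero_mul, add_zero, Complex.sub_im,
    Complex.add_im, Complex.one_im] at e2
  rw [e1, e2]
  have := q.a; have := q.b; have := q.c; have := q.e
  have := q'.a; have := q'.b; have := q'.c; have := q'.e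
  refine ⟨?_, ?_, ?_, ?_⟩ <;> linarith

/-- the box of the ring variable of an end -/
lemma QB.end (h : RDe K d x dr rr w kr) {a' b' c' e' : ℤ}
    (q' : QB a' b' c' e' (yQ (QQ w kr))) {B : ℕ} (hB : crs d .e x = B) :
    (a' : ℝ) / 10000 ≤ B * (-zeta w).re ∧ B * (-zeta w).re ≤ (b' : ℝ) / 10000 ∧
    (c' : ℝ) / 10000 ≤ B * (-zeta w).im ∧ B * (-zeta w).im ≤ (e' : ℝ) / 10000 := by
  subst hB
  have e0 := end_rel h
  have e1 := congrArg Complex.re e0
  have e2 := congrArg Complex.im e0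
  rw [Complex.mul_re, Complex.natCast_re, Complex.natCast_im, zero_mul, sub_zero] at e1
  rw [Complex.mul_im, Complex.natCast_re, Complex.natCast_im, zero_mul, add_zero] at e2
  rw [e1, e2]
  exact ⟨q'.a, q'.b, q'.c, q'.e⟩

end

/-! ### rough bounds of a term -/

/-- rough bounds of the variable of a term -/
structure QR (x : SK) (y : ℂ) : Prop where
  lo : 1 / 2 < y.re
  hi : y.re < 3 / 2
  le : x = .a → y.re ≤ 1

lemma qr_of {x : SK} {d : ℕ} {l : SK} {d' : ℕ} {l' : SK} {w k : ℂ}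
    (h : HDt K0 x d l d' l' (RR w k) (Complex.cos w) k) (h4 : 4 ≤ crs d l x) (h0 : 0 < w.re)
    (h1 : w.re < 3 / 2) : QR x (yQ (QQ w k)) := by
  have hpi := Real.pi_pos
  have hm : Complex.cos w ∈ Poly (vt (rty d l x)) := Z8.Poly_of_U h.mem
  have f := (Z8.side_of h).fa (Z8.rty_typS h4) hm h0 h1.le
  have f1 := abs_lt.1 f.half
  have e : (yQ (QQ w k)).re = 1 + (QQ w k).im / Real.pi := yQ_re _
  refine ⟨?_, ?_, fun hx => ?_⟩
  · rw [e]
    have : -(1 / 2) < (QQ w k).im / Real.pi := by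
      rw [lt_div_iff₀ hpi]
      linarith only [f1]
    linarith only [this]
  · rw [e]
    have : (QQ w k).im / Real.pi < 1 / 2 := by
      rw [div_lt_iff₀ hpi]
      linarith only [f1]
    linarith only [this]
  · rw [e]
    have := div_nonpos_of_nonpos_of_nonneg (f.nonpos (Or.inr hx)) hpi.le
    linarith only [this]

/-- bounds from the conditions of a row -/
lemma qb_of {x : SK} {y : ℂ} (r : QR x y) {m n m' : ℕ} {n0 : ℕ} {a0 b0 a1 b1 c c0 e e0 : ℤ}
    (h : ∀ g ∈ [GC.arc n0 m a0 b0, GC.arc n m' a1 b1, GC.lo c c0, GC.hi e e0], g.P y)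
    (g1 : n0 ≤ 5000) (g2 : 15000 ≤ m') : QB m n c e y := by
  have G1 : (n0 : ℝ) ≤ 5000 := by exact_mod_cast g1
  have G2 : (15000 : ℝ) ≤ m' := by exact_mod_cast g2
  have h1 := h _ List.mem_cons_self
  have h2 := h _ (List.mem_cons_of_mem _ List.mem_cons_self)
  have h3 := h _ (List.mem_cons_of_mem _ (List.mem_cons_of_mem _ List.mem_cons_self))
  have h4 := h _ (List.mem_cons_of_mem _ (List.mem_cons_of_mem _ (List.mem_cons_of_mem _
    List.mem_cons_self)))
  exact ⟨(arc_lb h1 (by linarith only [G1, r, r.lo])).le, (arc_ub h2 (by linarith only [G2, r, r.hi])).le, h3, h4⟩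

/-- bounds from the conditions of a row, side `a` -/
lemma qb_of_a {y : ℂ} (r : QR .a y) {m : ℕ} {n0 : ℕ} {a0 b0 c c0 e e0 : ℤ}
    (h : ∀ g ∈ [GC.arc n0 m a0 b0, GC.lo c c0, GC.hi e e0], g.P y)
    (g1 : n0 ≤ 5000) : QB m 10000 c e y := by
  have G1 : (n0 : ℝ) ≤ 5000 := by exact_mod_cast g1
  have h1 := h _ List.mem_cons_self
  have h3 := h _ (List.mem_cons_of_mem _ List.mem_cons_self)
  have h4 := h _ (List.mem_cons_of_mem _ (List.mem_cons_of_mem _ List.mem_cons_self))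
  exact ⟨(arc_lb h1 (by linarith only [G1, r, r.lo])).le, by have := r.le rfl; norm_num; linarith only [this], h3, h4⟩

end

end Pool.Agent.Work.MP_b30479_gtS.G2.CN.TD

end

section

/-!
# Types of the sides of a ring

`NT`: kind of the hinge, digit and next side of the ring behind it; `NT.Is`; `nt_one`, `nt_all`: the
types of the sides next to a digit `1` and of all sides.
-/

namespace Pool.Agent.Work.MP_b30479_gtS.G2.CN.TD

open Complex SR Ev

noncomputable section

/-- types of sides -/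
inductive NT
  | u | a1 | s1 | a2 | s2 | e2 | p2a | p2s | p2e | p3a | p3s | p3e | pZ | pS
  deriving DecidableEq

namespace NT

/-- kind of the hinge -/
def x : NT → SK
  | .u => .a | .a1 => .s | .s1 => .s | .a2 => .s | .s2 => .s | .e2 => .s | .p2a => .a | .p2s => .a
  | .p2e => .a | .p3a => .a | .p3s => .a | .p3e => .a | .pZ => .a | .pS => .z

/-- conditions for the ring behind the hinge -/
def nb : NT → List QC
  | .u => k2as | .a1 => k2as | .s1 => k3ss | .a2 => k3as | .s2 => k4ss | .e2 => k3es | .p2a => k2aa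
  | .p2s => k3as | .p2e => k2ea | .p3a => k3aa | .p3s => k4as | .p3e => k3ea | .pZ => nZa
  | .pS => nZz

/-- its outer value -/
def L : NT → List Grp
  | .u => tD .a 2 PST | .a1 => tD .s 2 (mirH PA1) | .s1 => tD .s 3 PS2 | .a2 => tD .s 3 (mirH PA2)
  | .s2 => tD .s 4 PS2 | .e2 => tE .s 3 | .p2a => tD .a 2 (mirH PA2) | .p2s => tD .a 3 PS2
  | .p2e => tE .a 2 | .p3a => tD .a 3 (mirH PA2) | .p3s => tD .a 4 PS2 | .p3e => tE .a 3
  | .pZ => [] | .pS => []

/-- the hinge of kind `x` to the ring `(d, x, l)` has the type -/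
def Is : NT → SK → ℕ → SK → Prop
  | .u, x, d, l => x = .a ∧ d = 1 ∧ l = .s
  | .a1, x, d, l => x = .s ∧ d = 1 ∧ l = .a
  | .s1, x, d, l => x = .s ∧ d = 1 ∧ l = .s
  | .a2, x, d, l => x = .s ∧ d = 2 ∧ l = .a
  | .s2, x, d, l => x = .s ∧ d = 2 ∧ l = .s
  | .e2, x, d, l => x = .s ∧ d = 2 ∧ l = .e
  | .p2a, x, d, l => x = .a ∧ d = 2 ∧ l = .a
  | .p2s, x, d, l => x = .a ∧ d = 2 ∧ l = .s
  | .p2e, x, d, l => x = .a ∧ d = 2 ∧ l = .e
  | .p3a, x, d, l => x = .a ∧ d = 3 ∧ l = .a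
  | .p3s, x, d, l => x = .a ∧ d = 3 ∧ l = .s
  | .p3e, x, d, l => x = .a ∧ d = 3 ∧ l = .e
  | .pZ, x, d, _ => x = .a ∧ 4 ≤ d
  | .pS, x, _, _ => x = .z

/-- the side is next to a digit `1` -/
def one : NT → Bool
  | .u => true | .a1 => true | .s1 => true | .a2 => true | .s2 => true | .e2 => true | _ => false

lemma is_x {t : NT} {x : SK} {d : ℕ} {l : SK} (h : t.Is x d l) : x = t.x := by
  cases t
  · exact h.1
  · exact h.1
  · exact h.1
  · exact h.1
  · exact h.1
  · exact h.1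
  · exact h.1
  · exact h.1
  · exact h.1
  · exact h.1
  · exact h.1
  · exact h.1
  · exact h.1
  · exact h

end NT

lemma far_s' {l' : SK} (h : ROK 1 .a l') : l' = .s := by
  rcases (h.one rfl).1 with h1 | h1
  · exact absurd h1 (by decide)
  · exact h1

section
variable {K : KFam} (hK : KOK K)
include hK

lemma NT.inn {t : NT} {x : SK} {d : ℕ} {l : SK} (h : t.Is x d l) (hr : ROK d l x) :
    InH (K.K d l x) t.nb := by
  cases t
  · obtain ⟨rfl, rfl, rfl⟩ := h; exact hK.inH hr k2as_ok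
  · obtain ⟨rfl, rfl, rfl⟩ := h; exact hK.inH hr k2as_ok
  · obtain ⟨rfl, rfl, rfl⟩ := h; exact hK.inH hr k3ss_ok
  · obtain ⟨rfl, rfl, rfl⟩ := h; exact hK.inH hr k3as_ok
  · obtain ⟨rfl, rfl, rfl⟩ := h; exact hK.inH hr k4ss_ok
  · obtain ⟨rfl, rfl, rfl⟩ := h; exact hK.inH hr k3es_ok
  · obtain ⟨rfl, rfl, rfl⟩ := h; exact hK.inH hr k2aa_ok
  · obtain ⟨rfl, rfl, rfl⟩ := h; exact hK.inH hr k3as_ok
  · obtain ⟨rfl, rfl, rfl⟩ := h; exact hK.inH hr k2ea_ok
  · obtain ⟨rfl, rfl, rfl⟩ := h; exact hK.inH hr k3aa_ok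
  · obtain ⟨rfl, rfl, rfl⟩ := h; exact hK.inH hr k4as_ok
  · obtain ⟨rfl, rfl, rfl⟩ := h; exact hK.inH hr k3ea_ok
  · obtain ⟨rfl, h4⟩ := h; exact in_nZa hK hr h4
  · obtain rfl := h; exact hK.inU hr nZz_ok (lo_le hr (by decide)) (min_le_right _ _)

omit hK in
lemma NT.or {t : NT} {x : SK} {d : ℕ} {l : SK} (h : t.Is x d l) : OR x d (crs d x l) l t.L := by
  cases t
  · obtain ⟨rfl, rfl, rfl⟩ := h; exact OR.st (by decide)
  · obtain ⟨rfl, rfl, rfl⟩ := h; exact OR.a1 (by norm_num)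
  · obtain ⟨rfl, rfl, rfl⟩ := h; exact OR.s
  · obtain ⟨rfl, rfl, rfl⟩ := h; exact OR.a
  · obtain ⟨rfl, rfl, rfl⟩ := h; exact OR.s
  · obtain ⟨rfl, rfl, rfl⟩ := h; exact OR.e
  · obtain ⟨rfl, rfl, rfl⟩ := h; exact OR.a
  · obtain ⟨rfl, rfl, rfl⟩ := h; exact OR.s
  · obtain ⟨rfl, rfl, rfl⟩ := h; exact OR.e
  · obtain ⟨rfl, rfl, rfl⟩ := h; exact OR.a
  · obtain ⟨rfl, rfl, rfl⟩ := h; exact OR.s
  · obtain ⟨rfl, rfl, rfl⟩ := h; exact OR.e
  · exact OR.nil
  · exact OR.nil

end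

/-- the type of a side of a ring -/
lemma nt_all {x : SK} {d : ℕ} {l : SK} {d' : ℕ} {l' : SK} (h : HOK x d l d' l') (hd : 4 ≤ d) :
    ∃ t : NT, t.Is x d' l' := by
  have hr := h.right
  have hpos := hr.pos
  have hz : d' < 4 → l' ≠ .z := fun h4 h5 => by
    have := hr.zr h5
    omega
  cases x
  · exact absurd rfl h.ne
  · by_cases h4 : 4 ≤ d'
    · exact ⟨.pZ, rfl, h4⟩
    · have h5 : d' = 1 ∨ d' = 2 ∨ d' = 3 := by omega
      rcases h5 with rfl | rfl | rfl
      · have hs : l' = .s := far_s' hr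
        exact ⟨.u, rfl, rfl, hs⟩
      · cases l'
        · exact ⟨.p2e, rfl, rfl, rfl⟩
        · exact ⟨.p2a, rfl, rfl, rfl⟩
        · exact absurd rfl (hz (by norm_num))
        · exact ⟨.p2s, rfl, rfl, rfl⟩
      · cases l'
        · exact ⟨.p3e, rfl, rfl, rfl⟩
        · exact ⟨.p3a, rfl, rfl, rfl⟩
        · exact absurd rfl (hz (by norm_num))
        · exact ⟨.p3s, rfl, rfl, rfl⟩
  · exact ⟨.pS, rfl⟩
  · have h5 : d' = 1 ∨ d' = 2 := by
      have := h.one rfl
      omega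
    rcases h5 with rfl | rfl
    · cases l'
      · exact absurd rfl (hr.one rfl).2.2
      · exact ⟨.a1, rfl, rfl, rfl⟩
      · exact absurd rfl (hz (by norm_num))
      · exact ⟨.s1, rfl, rfl, rfl⟩
    · cases l'
      · exact ⟨.e2, rfl, rfl, rfl⟩
      · exact ⟨.a2, rfl, rfl, rfl⟩
      · exact absurd rfl (hz (by norm_num))
      · exact ⟨.s2, rfl, rfl, rfl⟩

/-- a side next to a digit `1` -/
lemma NT.one_of {t : NT} {x : SK} {d' : ℕ} {l' : SK} (h : t.Is x d' l') (hr : ROK d' x l')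
    (hx : x = .s ∨ d' = 1) : t.one = true := by
  cases t
  · rfl
  · rfl
  · rfl
  · rfl
  · rfl
  · rfl
  · obtain ⟨h1, h2, -⟩ := h; rcases hx with h3 | h3
    · rw [h3] at h1; exact absurd h1 (by decide)
    · omega
  · obtain ⟨h1, h2, -⟩ := h; rcases hx with h3 | h3
    · rw [h3] at h1; exact absurd h1 (by decide)
    · omega
  · obtain ⟨h1, h2, -⟩ := h; rcases hx with h3 | h3
    · rw [h3] at h1; exact absurd h1 (by decide)
    · omega
  · obtain ⟨h1, h2, -⟩ := h; rcases hx with h3 | h3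
    · rw [h3] at h1; exact absurd h1 (by decide)
    · omega
  · obtain ⟨h1, h2, -⟩ := h; rcases hx with h3 | h3
    · rw [h3] at h1; exact absurd h1 (by decide)
    · omega
  · obtain ⟨h1, h2, -⟩ := h; rcases hx with h3 | h3
    · rw [h3] at h1; exact absurd h1 (by decide)
    · omega
  · obtain ⟨h1, h2⟩ := h; rcases hx with h3 | h3
    · rw [h3] at h1; exact absurd h1 (by decide)
    · omega
  · obtain rfl := h
    have := hr.zl rfl
    rcases hx with h3 | h3
    · exact absurd h3 (by decide)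
    · omega

/-! ### the own value -/

/-- the check -/
noncomputable def k8chk : Bool :=
  [SK.e, .a, .z, .s].all fun l => [SK.a, .z, .s].all fun x =>
    okH k8ss (pg8 l x) && (decide (l = .s) || decide (x = .s) || okH k8ss (pg7 l x))

theorem k8chk_ok : k8chk = true := by decide +kernel

lemma in_k8 {K : KFam} (hK : KOK K) {d : ℕ} {l x : SK} (h : ROK d l x) (hd : 7 ≤ d)
    (hx : x ≠ .e) : InH (K.K d l x) k8ss := by
  apply hK.inH h
  have h1 := List.all_eq_true.1 k8chk_ok l (by cases l <;> simp)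
  have h2 := List.all_eq_true.1 h1 x (by cases x <;> simp_all)
  rw [Bool.and_eq_true] at h2
  by_cases h8 : 8 ≤ crs d l x
  · unfold pg
    rw [if_neg (by omega), if_neg (by omega), if_neg (by omega), if_neg (by omega),
      if_neg (by omega), if_neg (by omega)]
    exact h2.1
  · have h7 : crs d l x = 7 := by
      unfold crs at h8 ⊢
      omega
    rw [h7]
    have h3 := h2.2
    rw [Bool.or_eq_true, Bool.or_eq_true, decide_eq_true_eq, decide_eq_true_eq] at h3
    rcases h3 with (h3 | h3) | h3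
    · subst h3
      unfold crs at h8
      simp only [SK.u] at h8
      omega
    · subst h3
      unfold crs at h8
      simp only [SK.u] at h8
      omega
    · exact h3

/-! ### tables of boxes -/

/-- four bounds, in units of `1 / 10000` -/
structure I4 where
  a : ℤ
  b : ℤ
  c : ℤ
  e : ℤ

/-- the box -/
def I4.In (I : I4) (y : ℂ) : Prop := QB I.a I.b I.c I.e y

end

end Pool.Agent.Work.MP_b30479_gtS.G2.CN.TD

end

section

/-!
# Rings with seven or more crossings next to a digit `1`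

`q7`, `q8`: boxes of the variables of the terms; `g7`, `g8`, `h8`: regions of the ring variable;
`rw7`, `rw8`, `rv8`: windows, by the type of the side.
-/

namespace Pool.Agent.Work.MP_b30479_gtS.G2.CN.TD

open Complex SR

noncomputable section

/-- is the hinge split -/
def NT.us : NT → ℕ
  | .a1 => 1 | .s1 => 1 | .a2 => 1 | .s2 => 1 | .e2 => 1 | _ => 0

lemma NT.us_eq (τ : NT) : τ.us = τ.x.u := by cases τ <;> rfl

/-- the class at the side, as seen from the ring, or behind the digit `1` -/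
def NT.C : NT → Cl
  | .u => .one | .a1 => .one | .s1 => .one | .a2 => .two | .s2 => .two | .e2 => .twoE
  | .p2a => .two | .p2s => .two | .p2e => .twoE | .p3a => .three | .p3s => .three | .p3e => .threeE
  | .pZ => .ring | .pS => .ring

/-- the side is next to a ring -/
def NT.ring : NT → Bool
  | .pZ => true | .pS => true | _ => false

/-- boxes of the terms, 7 crossings -/
def q7 : NT → I4
  | .u => ⟨8612, 9549, -1368, -453⟩
  | .a1 => ⟨9969, 10784, -1560, -661⟩
  | .s1 => ⟨9912, 10626, -1477, -737⟩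
  | .a2 => ⟨9816, 10463, -1454, -742⟩
  | .s2 => ⟨9798, 10367, -1417, -781⟩
  | .e2 => ⟨9952, 10375, -1126, -644⟩
  | .p2a => ⟨8848, 9751, -1389, -497⟩
  | .p2s => ⟨9033, 9760, -1355, -595⟩
  | .p2e => ⟨9015, 9527, -785, -278⟩
  | .p3a => ⟨9174, 9852, -1368, -644⟩
  | .p3s => ⟨9266, 9856, -1355, -694⟩
  | .p3e => ⟨9323, 9769, -1047, -541⟩
  | .pZ => ⟨9305, 10000, -1571, -677⟩
  | .pS => ⟨9542, 10319, -1571, -710⟩

/-- regions of the ring variable, 7 crossings -/
def g7 : NT → I4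
  | .u => ⟨1032, 1410, -400, -104⟩
  | .a1 => ⟨1072, 1388, -392, -117⟩
  | .s1 => ⟨1065, 1369, -381, -126⟩
  | .a2 => ⟨1053, 1348, -379, -127⟩
  | .s2 => ⟨1051, 1336, -374, -132⟩
  | .e2 => ⟨1070, 1337, -338, -115⟩
  | .p2a => ⟨1065, 1329, -394, -135⟩
  | .p2s => ⟨1092, 1330, -389, -149⟩
  | .p2e => ⟨1089, 1297, -308, -104⟩
  | .p3a => ⟨1112, 1343, -391, -156⟩
  | .p3s => ⟨1125, 1344, -389, -163⟩
  | .p3e => ⟨1133, 1332, -345, -142⟩
  | .pZ => ⟨1131, 1365, -400, -161⟩
  | .pS => ⟨1164, 1410, -400, -166⟩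

/-- bounds of the terms, at least 8 crossings -/
def q8 : NT → ℤ × ℤ
  | .u => (10000, -1410)
  | .a1 => (10806, -1581)
  | .s1 => (10635, -1491)
  | .a2 => (10480, -1481)
  | .s2 => (10380, -1454)
  | .e2 => (10384, -1156)
  | .p2a => (10000, -1423)
  | .p2s => (10000, -1386)
  | .p2e => (10000, -805)
  | .p3a => (10000, -1400)
  | .p3s => (10000, -1403)
  | .p3e => (10000, -1086)
  | .pZ => (10000, -1626)
  | .pS => (10328, -1626)

/-- regions of the ring variable, at least 8 crossings -/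
def g8 : NT → I4
  | .u => ⟨0, 1291, -360, 0⟩
  | .a1 => ⟨0, 1238, -357, 0⟩
  | .s1 => ⟨0, 1219, -347, 0⟩
  | .a2 => ⟨0, 1201, -346, 0⟩
  | .s2 => ⟨0, 1190, -343, 0⟩
  | .e2 => ⟨0, 1191, -310, 0⟩
  | .p2a => ⟨0, 1250, -355, 0⟩
  | .p2s => ⟨0, 1250, -350, 0⟩
  | .p2e => ⟨0, 1250, -277, 0⟩
  | .p3a => ⟨0, 1250, -352, 0⟩
  | .p3s => ⟨0, 1250, -352, 0⟩
  | .p3e => ⟨0, 1250, -312, 0⟩
  | .pZ => ⟨0, 1250, -360, 0⟩
  | .pS => ⟨0, 1291, -360, 0⟩

/-- regions of the ring variable of an end, at least 8 crossings -/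
def h8 : NT → I4
  | .u => ⟨0, 1250, -172, 0⟩
  | .a1 => ⟨0, 1201, -172, 0⟩
  | .s1 => ⟨0, 1182, -166, 0⟩
  | .a2 => ⟨0, 1165, -165, 0⟩
  | .s2 => ⟨0, 1154, -162, 0⟩
  | .e2 => ⟨0, 1154, -129, 0⟩
  | _ => ⟨0, 10000, -10000, 0⟩

/-- upper bound of the real part, lower bound of the imaginary part -/
structure QU (b c : ℤ) (y : ℂ) : Prop where
  b : y.re ≤ (b : ℝ) / 10000
  c : (c : ℝ) / 10000 ≤ y.im

lemma qu_of {x : SK} {y : ℂ} (r : QR x y) {n m' : ℕ} {a1 b1 c c0 : ℤ}
    (h : ∀ g ∈ [GC.arc n m' a1 b1, GC.lo c c0], g.P y) (g2 : 15000 ≤ m') : QU n c y := by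
  have G2 : (15000 : ℝ) ≤ m' := by exact_mod_cast g2
  exact ⟨(arc_ub (h _ List.mem_cons_self) (by linarith only [G2, r, r.hi])).le,
    h _ (List.mem_cons_of_mem _ List.mem_cons_self)⟩

lemma ql_of {y : ℂ} (r : QR .a y) {c c0 : ℤ} (h : ∀ g ∈ [GC.lo c c0], g.P y) :
    QU 10000 c y :=
  ⟨by have := r.le rfl; norm_num; linarith only [this], h _ List.mem_cons_self⟩

lemma qb_of_b {y : ℂ} (r : QR .a y) {m n m' : ℕ} {n0 : ℕ} {a0 b0 a1 b1 c c0 e e0 : ℤ}
    (h : ∀ g ∈ [GC.arc n0 m a0 b0, GC.arc n m' a1 b1, GC.lo c c0, GC.hi e e0], g.P y)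
    (g1 : n0 ≤ 5000) (g2 : 12000 ≤ m') : QB m n c e y := by
  have G1 : (n0 : ℝ) ≤ 5000 := by exact_mod_cast g1
  have G2 : (12000 : ℝ) ≤ m' := by exact_mod_cast g2
  have h1 := h _ List.mem_cons_self
  have h2 := h _ (List.mem_cons_of_mem _ List.mem_cons_self)
  have h3 := h _ (List.mem_cons_of_mem _ (List.mem_cons_of_mem _ List.mem_cons_self))
  have h4 := h _ (List.mem_cons_of_mem _ (List.mem_cons_of_mem _ (List.mem_cons_of_mem _
    List.mem_cons_self)))
  exact ⟨(arc_lb h1 (by linarith only [G1, r, r.lo])).le, (arc_ub h2 (by linarith only [G2, r, r.le rfl])).le, h3, h4⟩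

/-! ### regions -/

/-- the region follows from the boxes of the terms -/
def im7 (B : ℤ) (q q' Z G : I4) : Bool :=
  (decide (G.a * B ≤ q.a + q'.a - 10000) || decide (G.a ≤ Z.a)) &&
  (decide (q.b + q'.b - 10000 ≤ G.b * B) || decide (Z.b ≤ G.b)) &&
  (decide (G.c * B ≤ q.c + q'.c) || decide (G.c ≤ Z.c)) &&
  (decide (q.e + q'.e ≤ G.e * B) || decide (Z.e ≤ G.e))

lemma im7_use {B : ℕ} (hB : 0 < B) {q q' Z G : I4} {y : ℂ} (h : im7 B q q' Z G = true)
    (hz : Z.In y)
    (e : (q.a + q'.a - 10000 : ℝ) / 10000 ≤ B * y.re ∧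
      B * y.re ≤ (q.b + q'.b - 10000 : ℝ) / 10000 ∧
      (q.c + q'.c : ℝ) / 10000 ≤ B * y.im ∧ B * y.im ≤ (q.e + q'.e : ℝ) / 10000) : G.In y := by
  have hB' : (0 : ℝ) < B := by exact_mod_cast hB
  obtain ⟨e1, e2, e3, e4⟩ := e
  unfold im7 at h
  simp only [Bool.and_eq_true, Bool.or_eq_true, decide_eq_true_eq] at h
  obtain ⟨⟨⟨h1, h2⟩, h3⟩, h4⟩ := h
  have z1 := hz.a
  have z2 := hz.b
  have z3 := hz.c
  have z4 := hz.e
  refine ⟨?_, ?_, ?_, ?_⟩
  · rcases h1 with h1 | h1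
    · have h5 : (G.a : ℝ) * B ≤ q.a + q'.a - 10000 := by exact_mod_cast h1
      rw [div_le_iff₀ (by norm_num)]
      nlinarith only [e1, h5, hB']
    · have h5 : (G.a : ℝ) ≤ Z.a := by exact_mod_cast h1
      linarith only [z1, h5]
  · rcases h2 with h2 | h2
    · have h5 : (q.b : ℝ) + q'.b - 10000 ≤ G.b * B := by exact_mod_cast h2
      rw [le_div_iff₀ (by norm_num)]
      nlinarith only [e2, h5, hB']
    · have h5 : (Z.b : ℝ) ≤ G.b := by exact_mod_cast h2
      linarith only [z2, h5]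
  · rcases h3 with h3 | h3
    · have h5 : (G.c : ℝ) * B ≤ q.c + q'.c := by exact_mod_cast h3
      rw [div_le_iff₀ (by norm_num)]
      nlinarith only [e3, h5, hB']
    · have h5 : (G.c : ℝ) ≤ Z.c := by exact_mod_cast h3
      linarith only [z3, h5]
  · rcases h4 with h4 | h4
    · have h5 : (q.e : ℝ) + q'.e ≤ G.e * B := by exact_mod_cast h4
      rw [le_div_iff₀ (by norm_num)]
      nlinarith only [e4, h5, hB']
    · have h5 : (Z.e : ℝ) ≤ G.e := by exact_mod_cast h4
      linarith only [z4, h5]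

/-- the region follows from the bounds of the terms -/
def im8 (B b c : ℤ) (Z G : I4) : Bool :=
  ((decide (b ≤ G.b * B) && decide (0 ≤ G.b)) || decide (Z.b ≤ G.b)) &&
  ((decide (G.c * B ≤ c) && decide (G.c ≤ 0)) || decide (G.c ≤ Z.c)) &&
  decide (G.a ≤ Z.a) && decide (Z.e ≤ G.e)

lemma im8_use {B B0 : ℕ} (hB0 : 0 < B0) (hB : B0 ≤ B) {b c : ℤ} {Z G : I4} {y : ℂ}
    (h : im8 B0 b c Z G = true) (hz : Z.In y) (e2 : B * y.re ≤ (b : ℝ) / 10000)
    (e3 : (c : ℝ) / 10000 ≤ B * y.im) : G.In y := by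
  have hB' : (0 : ℝ) < B0 := by exact_mod_cast hB0
  have hB2 : (B0 : ℝ) ≤ B := by exact_mod_cast hB
  unfold im8 at h
  simp only [Bool.and_eq_true, Bool.or_eq_true, decide_eq_true_eq] at h
  obtain ⟨⟨⟨h1, h2⟩, h3⟩, h4⟩ := h
  have z1 := hz.a
  have z2 := hz.b
  have z3 := hz.c
  have z4 := hz.e
  have g3 : (G.a : ℝ) ≤ Z.a := by exact_mod_cast h3
  have g4 : (Z.e : ℝ) ≤ G.e := by exact_mod_cast h4
  refine ⟨by linarith only [z1, g3], ?_, ?_, by linarith only [z4, g4]⟩
  · rcases h1 with ⟨h1, h5⟩ | h1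
    · have h6 : (b : ℝ) ≤ G.b * B0 := by exact_mod_cast h1
      have h7 : (0 : ℝ) ≤ G.b := by exact_mod_cast h5
      have h8 : (G.b : ℝ) * B0 ≤ G.b * B := mul_le_mul_of_nonneg_left hB2 h7
      have h9 : (B : ℝ) * y.re ≤ B * ((G.b : ℝ) / 10000) := by
        rw [mul_div_assoc']
        refine e2.trans ?_
        apply div_le_div_of_nonneg_right _ (by norm_num)
        linarith only [h6, h8]
      exact le_of_mul_le_mul_left h9 (by linarith only [hB', hB2])
    · have h5 : (Z.b : ℝ) ≤ G.b := by exact_mod_cast h1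
      linarith only [z2, h5]
  · rcases h2 with ⟨h2, h5⟩ | h2
    · have h6 : (G.c : ℝ) * B0 ≤ c := by exact_mod_cast h2
      have h7 : (G.c : ℝ) ≤ 0 := by exact_mod_cast h5
      have h8 : (G.c : ℝ) * B ≤ G.c * B0 := mul_le_mul_of_nonpos_left hB2 h7
      have h9 : (B : ℝ) * ((G.c : ℝ) / 10000) ≤ B * y.im := by
        rw [mul_div_assoc']
        refine le_trans ?_ e3
        apply div_le_div_of_nonneg_right _ (by norm_num)
        linarith only [h6, h8]
      exact le_of_mul_le_mul_left h9 (by linarith only [hB', hB2])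
    · have h5 : (G.c : ℝ) ≤ Z.c := by exact_mod_cast h2
      linarith only [z3, h5]

/-- the check of the regions, 7 crossings -/
theorem im7_ok : ∀ τ τ' : NT, (τ.one || τ'.one) = true →
    im7 ((7 + τ'.us + τ.us : ℕ) : ℤ) (q7 τ') (q7 τ) ⟨970, 1500, -400, 0⟩ (g7 τ) = true := by
  intro τ τ'
  cases τ <;> cases τ' <;> decide

/-- the check of the regions, at least 8 crossings -/
theorem im8_ok : ∀ τ τ' : NT, (τ.one || τ'.one) = true →
    im8 ((8 + τ'.us + τ.us : ℕ) : ℤ) ((q8 τ').1 + (q8 τ).1 - 10000) ((q8 τ').2 + (q8 τ).2)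
      ⟨0, 1550, -360, 0⟩ (g8 τ) = true := by
  intro τ τ'
  cases τ <;> cases τ' <;> decide

/-- the check of the regions of the ends, at least 8 crossings -/
theorem ie8_ok : ∀ τ : NT, τ.one = true →
    im8 ((8 + τ.us : ℕ) : ℤ) (q8 τ).1 (q8 τ).2 ⟨0, 1550, -172, 0⟩ (h8 τ) = true := by
  intro τ
  cases τ <;> decide

section
variable {K : KFam} (hK : KOK K) (h0 : K.Le K0) {x : SK} {d : ℕ} {l : SK} {d' : ℕ} {l' : SK}
  {w k : ℂ}
include hK h0

/-- the boxes of the terms, 7 crossings -/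
theorem q7_of {τ : NT} (h : HDt K x 7 l d' l' (RR w k) (Complex.cos w) k) (w0 : 0 < w.re)
    (w1 : w.re < 3 / 2) (hτ : τ.Is x d' l') (hz : QB 970 1500 (-400) 0 (-zeta w)) :
    (q7 τ).In (yQ (QQ w k)) := by
  have r := qr_of (HDt.mono h0 h) (by unfold crs; omega) w0 w1
  have hx := NT.is_x hτ
  have ho := in_k8 hK h.ok.left (by norm_num) h.ok.ne
  have hn := NT.inn hK hτ h.ok.right.symm
  have hL : OR x d' (crs d' x l') l' τ.L := NT.or hτ
  subst hx
  cases τ
  · exact qb_of_b r (tuseQ hK h w0 w1 rfl q7_u (zi4 hz (by norm_num) (by norm_num)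
      (by norm_num) (by norm_num)) ho hn hL) (by norm_num) (by norm_num)
  · exact qb_of r (tuseQ hK h w0 w1 rfl q7_a1 (zi4 hz (by norm_num) (by norm_num)
      (by norm_num) (by norm_num)) ho hn hL) (by norm_num) (by norm_num)
  · exact qb_of r (tuseQ hK h w0 w1 rfl q7_s1 (zi4 hz (by norm_num) (by norm_num)
      (by norm_num) (by norm_num)) ho hn hL) (by norm_num) (by norm_num)
  · exact qb_of r (tuseQ hK h w0 w1 rfl q7_a2 (zi4 hz (by norm_num) (by norm_num)
      (by norm_num) (by norm_num)) ho hn hL) (by norm_num) (by norm_num)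
  · exact qb_of r (tuseQ hK h w0 w1 rfl q7_s2 (zi4 hz (by norm_num) (by norm_num)
      (by norm_num) (by norm_num)) ho hn hL) (by norm_num) (by norm_num)
  · exact qb_of r (tuseQ hK h w0 w1 rfl q7_e2 (zi4 hz (by norm_num) (by norm_num)
      (by norm_num) (by norm_num)) ho hn hL) (by norm_num) (by norm_num)
  · exact qb_of_b r (tuseQ hK h w0 w1 rfl q7_p2a (zi4 hz (by norm_num) (by norm_num)
      (by norm_num) (by norm_num)) ho hn hL) (by norm_num) (by norm_num)
  · exact qb_of_b r (tuseQ hK h w0 w1 rfl q7_p2s (zi4 hz (by norm_num) (by norm_num)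
      (by norm_num) (by norm_num)) ho hn hL) (by norm_num) (by norm_num)
  · exact qb_of_b r (tuseQ hK h w0 w1 rfl q7_p2e (zi4 hz (by norm_num) (by norm_num)
      (by norm_num) (by norm_num)) ho hn hL) (by norm_num) (by norm_num)
  · exact qb_of_b r (tuseQ hK h w0 w1 rfl q7_p3a (zi4 hz (by norm_num) (by norm_num)
      (by norm_num) (by norm_num)) ho hn hL) (by norm_num) (by norm_num)
  · exact qb_of_b r (tuseQ hK h w0 w1 rfl q7_p3s (zi4 hz (by norm_num) (by norm_num)
      (by norm_num) (by norm_num)) ho hn hL) (by norm_num) (by norm_num)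
  · exact qb_of_b r (tuseQ hK h w0 w1 rfl q7_p3e (zi4 hz (by norm_num) (by norm_num)
      (by norm_num) (by norm_num)) ho hn hL) (by norm_num) (by norm_num)
  · exact qb_of_a r (tuseQ hK h w0 w1 rfl q7_pZ (zi4 hz (by norm_num) (by norm_num)
      (by norm_num) (by norm_num)) ho hn hL) (by norm_num)
  · exact qb_of r (tuseQ hK h w0 w1 rfl q7_pS (zi4 hz (by norm_num) (by norm_num)
      (by norm_num) (by norm_num)) ho hn hL) (by norm_num) (by norm_num)

/-- the bounds of the terms, at least 8 crossings -/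
theorem q8_of {τ : NT} (hd : 8 ≤ d) (h : HDt K x d l d' l' (RR w k) (Complex.cos w) k)
    (w0 : 0 < w.re) (w1 : w.re < 3 / 2) (hτ : τ.Is x d' l')
    (hz : QB 0 1550 (-360) 0 (-zeta w)) : QU (q8 τ).1 (q8 τ).2 (yQ (QQ w k)) := by
  have r := qr_of (HDt.mono h0 h) (by unfold crs; omega) w0 w1
  have hx := NT.is_x hτ
  have ho := in_k8 hK h.ok.left (by omega) h.ok.ne
  have hn := NT.inn hK hτ h.ok.right.symm
  have hL : OR x d' (crs d' x l') l' τ.L := NT.or hτ
  subst hx
  cases τ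
  · exact ql_of r (tuseQ hK h w0 w1 rfl q8_u (zi2 hz (by norm_num) (by norm_num)) ho hn hL)
  · exact qu_of r (tuseQ hK h w0 w1 rfl q8_a1 (zi2 hz (by norm_num) (by norm_num)) ho hn hL)
      (by norm_num)
  · exact qu_of r (tuseQ hK h w0 w1 rfl q8_s1 (zi2 hz (by norm_num) (by norm_num)) ho hn hL)
      (by norm_num)
  · exact qu_of r (tuseQ hK h w0 w1 rfl q8_a2 (zi2 hz (by norm_num) (by norm_num)) ho hn hL)
      (by norm_num)
  · exact qu_of r (tuseQ hK h w0 w1 rfl q8_s2 (zi2 hz (by norm_num) (by norm_num)) ho hn hL)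
      (by norm_num)
  · exact qu_of r (tuseQ hK h w0 w1 rfl q8_e2 (zi2 hz (by norm_num) (by norm_num)) ho hn hL)
      (by norm_num)
  · exact ql_of r (tuseQ hK h w0 w1 rfl q8_p2a (zi2 hz (by norm_num) (by norm_num)) ho hn hL)
  · exact ql_of r (tuseQ hK h w0 w1 rfl q8_p2s (zi2 hz (by norm_num) (by norm_num)) ho hn hL)
  · exact ql_of r (tuseQ hK h w0 w1 rfl q8_p2e (zi2 hz (by norm_num) (by norm_num)) ho hn hL)
  · exact ql_of r (tuseQ hK h w0 w1 rfl q8_p3a (zi2 hz (by norm_num) (by norm_num)) ho hn hL)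
  · exact ql_of r (tuseQ hK h w0 w1 rfl q8_p3s (zi2 hz (by norm_num) (by norm_num)) ho hn hL)
  · exact ql_of r (tuseQ hK h w0 w1 rfl q8_p3e (zi2 hz (by norm_num) (by norm_num)) ho hn hL)
  · exact ql_of r (tuseQ hK h w0 w1 rfl q8_pZ (zi2 hz (by norm_num) (by norm_num)) ho hn hL)
  · exact qu_of r (tuseQ hK h w0 w1 rfl q8_pS (zi2 hz (by norm_num) (by norm_num)) ho hn hL)
      (by norm_num)

end

section
variable {K : KFam} (hK : KOK K) (h0 : K.Le K0) {d : ℕ} {l x : SK} {dl : ℕ} {ll : SK} {dr : ℕ}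
  {rr : SK} {w kl kr : ℂ}
include hK h0

/-- the region of the ring variable, 7 crossings -/
theorem g7_of {τ τ' : NT} (t : RDt K 7 l x dl ll dr rr w kl kr) (hτ : τ.Is x dr rr)
    (hτ' : τ'.Is l dl ll) (h1 : (τ.one || τ'.one) = true)
    (hz : QB 970 1500 (-400) 0 (-zeta w)) : (g7 τ).In (-zeta w) := by
  have ql := q7_of hK h0 t.left t.w0 t.w1 hτ' hz
  have qr := q7_of hK h0 t.right t.w0 t.w1 hτ hz
  have hB : crs 7 l x = 7 + τ'.us + τ.us := by
    rw [NT.us_eq, NT.us_eq, ← NT.is_x hτ, ← NT.is_x hτ']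
    rfl
  exact im7_use (by omega) (im7_ok τ τ' h1) hz (QB.ring t ql qr hB)

/-- the region of the ring variable, at least 8 crossings -/
theorem g8_of {τ τ' : NT} (hd : 8 ≤ d) (t : RDt K d l x dl ll dr rr w kl kr) (hτ : τ.Is x dr rr)
    (hτ' : τ'.Is l dl ll) (h1 : (τ.one || τ'.one) = true)
    (hz : QB 0 1550 (-360) 0 (-zeta w)) : (g8 τ).In (-zeta w) := by
  have ql := q8_of hK h0 hd t.left t.w0 t.w1 hτ' hz
  have qr := q8_of hK h0 hd t.right t.w0 t.w1 hτ hz
  have hB : 8 + τ'.us + τ.us ≤ crs d l x := by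
    rw [NT.us_eq, NT.us_eq, ← NT.is_x hτ, ← NT.is_x hτ']
    unfold crs
    omega
  have e0 := ring_rel t
  have e1 := congrArg Complex.re e0
  have e2 := congrArg Complex.im e0
  rw [Complex.mul_re, Complex.natCast_re, Complex.natCast_im, zero_mul, sub_zero, Complex.sub_re,
    Complex.add_re, Complex.one_re] at e1
  rw [Complex.mul_im, Complex.natCast_re, Complex.natCast_im, zero_mul, add_zero, Complex.sub_im,
    Complex.add_im, Complex.one_im] at e2
  refine im8_use (by omega) hB (im8_ok τ τ' h1) hz ?_ ?_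
  · rw [e1]
    have := ql.b
    have := qr.b
    push_cast
    linarith
  · rw [e2]
    have := ql.c
    have := qr.c
    push_cast
    linarith

/-- the region of the ring variable of an end, at least 8 crossings -/
theorem h8_of {τ : NT} (hd : 8 ≤ d) (t : RDe K d x dr rr w kr) (hτ : τ.Is x dr rr)
    (h1 : τ.one = true) (hz : QB 0 1550 (-172) 0 (-zeta w)) : (h8 τ).In (-zeta w) := by
  have hz' : QB 0 1550 (-360) 0 (-zeta w) :=
    ⟨hz.a, hz.b, by have := hz.c; norm_num at this ⊢; linarith only [this], hz.e⟩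
  have qr := q8_of hK h0 hd t.right t.w0 t.w1 hτ hz'
  have hB : 8 + τ.us ≤ crs d .e x := by
    rw [NT.us_eq, ← NT.is_x hτ]
    unfold crs
    omega
  have e0 := end_rel t
  have e1 := congrArg Complex.re e0
  have e2 := congrArg Complex.im e0
  rw [Complex.mul_re, Complex.natCast_re, Complex.natCast_im, zero_mul, sub_zero] at e1
  rw [Complex.mul_im, Complex.natCast_re, Complex.natCast_im, zero_mul, add_zero] at e2
  exact im8_use (by omega) hB (ie8_ok τ h1) hz (by rw [e1]; exact qr.b) (by rw [e2]; exact qr.c)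

end

/-! ### windows -/

/-- windows, 7 crossings, by the type of the side -/
def rw7 (τ : NT) : R4 := if τ.one then rc7 τ.C else rd7 τ.C

/-- windows, at least 8 crossings, by the type of the side -/
def rw8 (τ : NT) : R4 := if τ.one then rc8 τ.C else rd8 τ.C

lemma wq_of {x0 x1 m1 c1 m3 : ℕ} {cr s0 s1 r0 r1 q1 a b c e : ℤ} {t0 t1 q0 : ℤ}
    {a1 b1 a2 b2 e1 e2 a5 b5 e6 : ℤ} {y z : ℂ} {A : Prop}
    (h : (∀ g ∈ [GC.arc 0 x0 a1 b1, .arc x1 m1 a2 b2, .lo t0 e1, .hi t1 e2], g.P y) ∧ A ∧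
      (∀ g ∈ [GC.arc c1 m3 a5 b5, .hi (-q0) e6], g.P (y - z))) (hg : QB a b c e (-z))
    (rg : Rg y z) (h1 : 4000 ≤ m1) (h3 : 6500 ≤ m3)
    (k : s0 ≤ a ∧ b ≤ s1 ∧ -r1 ≤ c ∧ e ≤ -r0 ∧ -c - t0 ≤ q1 ∧ (c1 : ℤ) + e ≤ cr) :
    (mk4 x0 x1 s0 s1 q0 q1 r0 r1 t0 t1 c1 cr).In y z := by
  obtain ⟨hy, -, hu⟩ := h
  obtain ⟨k1, k2, k3, k4, k5, k6⟩ := k
  have m1' : (4000 : ℝ) ≤ m1 := by exact_mod_cast h1
  have m3' : (6500 : ℝ) ≤ m3 := by exact_mod_cast h3
  have k1' : (s0 : ℝ) ≤ a := by exact_mod_cast k1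
  have k2' : (b : ℝ) ≤ s1 := by exact_mod_cast k2
  have k3' : (-r1 : ℝ) ≤ c := by exact_mod_cast k3
  have k4' : (e : ℝ) ≤ -r0 := by exact_mod_cast k4
  have k5' : (-c - t0 : ℝ) ≤ q1 := by exact_mod_cast k5
  have k6' : (c1 + e : ℝ) ≤ cr := by exact_mod_cast k6
  have ya := arc_lb (hy (.arc 0 x0 a1 b1) (by simp)) (by simpa using rg.y0)
  have yb := arc_ub (hy (.arc x1 m1 a2 b2) (by simp)) (by linarith only [m1', rg, rg.y1])
  have yc : (t0 : ℝ) / 10000 ≤ y.im := hy (.lo t0 e1) (by simp)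
  have yd : y.im ≤ (t1 : ℝ) / 10000 := hy (.hi t1 e2) (by simp)
  have ua := arc_ub (hu (.arc c1 m3 a5 b5) (by simp)) (by
    rw [Complex.sub_re]; linarith only [m3', rg, rg.z1, rg.y1])
  have uc : (y - z).im ≤ ((-q0 : ℤ) : ℝ) / 10000 := hu (.hi (-q0) e6) (by simp)
  have z1 := hg.a
  have z2 := hg.b
  have z3 := hg.c
  have z4 := hg.e
  rw [Complex.neg_re] at z1 z2
  rw [Complex.neg_im] at z3 z4
  rw [Complex.sub_re] at ua
  rw [Complex.sub_im] at uc
  push_cast at uc
  refine ⟨?_, ?_, ?_, ?_, ?_, ?_, ?_, ?_, ?_, ?_, ?_, ?_⟩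
  · simp only [mk4]
    push_cast
    linarith only [ya]
  · simp only [mk4]
    push_cast
    linarith only [yb]
  · simp only [mk4]
    push_cast
    linarith only [k1', z1]
  · simp only [mk4]
    push_cast
    linarith only [k2', z2]
  · simp only [mk4]
    push_cast
    linarith only [uc]
  · simp only [mk4]
    push_cast
    linarith only [k5', yc, z3]
  · simp only [mk4]
    push_cast
    linarith only [k4', z4]
  · simp only [mk4]
    push_cast
    linarith only [k3', z3]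
  · simp only [mk4]
    push_cast
    linarith only [yc]
  · simp only [mk4]
    push_cast
    linarith only [yd]
  · simp only [mk4]
    push_cast
    linarith only [ua]
  · simp only [mk4]
    push_cast
    linarith only [k6', ua, z4]

lemma wr_of {x0 x1 m1 c1 m3 : ℕ} {cr s0 s1 q0 r0 r1 q1 a b c e : ℤ} {t0 t1 : ℤ}
    {a1 b1 a2 b2 e1 e2 a5 b5 : ℤ} {y z : ℂ} {A : Prop}
    (h : (∀ g ∈ [GC.arc 0 x0 a1 b1, .arc x1 m1 a2 b2, .lo t0 e1, .hi t1 e2], g.P y) ∧ A ∧
      (∀ g ∈ [GC.arc c1 m3 a5 b5], g.P (y - z))) (hg : QB a b c e (-z))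
    (rg : Rg y z) (h1 : 4000 ≤ m1) (h3 : 6500 ≤ m3)
    (k : s0 ≤ a ∧ b ≤ s1 ∧ -r1 ≤ c ∧ e ≤ -r0 ∧ -c - t0 ≤ q1 ∧ q0 ≤ -e - t1 ∧ (c1 : ℤ) + e ≤ cr) :
    (mk4 x0 x1 s0 s1 q0 q1 r0 r1 t0 t1 c1 cr).In y z := by
  obtain ⟨hy, -, hu⟩ := h
  obtain ⟨k1, k2, k3, k4, k5, k7, k6⟩ := k
  have m1' : (4000 : ℝ) ≤ m1 := by exact_mod_cast h1
  have m3' : (6500 : ℝ) ≤ m3 := by exact_mod_cast h3
  have k1' : (s0 : ℝ) ≤ a := by exact_mod_cast k1
  have k2' : (b : ℝ) ≤ s1 := by exact_mod_cast k2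
  have k3' : (-r1 : ℝ) ≤ c := by exact_mod_cast k3
  have k4' : (e : ℝ) ≤ -r0 := by exact_mod_cast k4
  have k5' : (-c - t0 : ℝ) ≤ q1 := by exact_mod_cast k5
  have k7' : (q0 : ℝ) ≤ -e - t1 := by exact_mod_cast k7
  have k6' : (c1 + e : ℝ) ≤ cr := by exact_mod_cast k6
  have ya := arc_lb (hy (.arc 0 x0 a1 b1) (by simp)) (by simpa using rg.y0)
  have yb := arc_ub (hy (.arc x1 m1 a2 b2) (by simp)) (by linarith only [m1', rg, rg.y1])
  have yc : (t0 : ℝ) / 10000 ≤ y.im := hy (.lo t0 e1) (by simp)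
  have yd : y.im ≤ (t1 : ℝ) / 10000 := hy (.hi t1 e2) (by simp)
  have ua := arc_ub (hu (.arc c1 m3 a5 b5) (by simp)) (by
    rw [Complex.sub_re]; linarith only [m3', rg, rg.z1, rg.y1])
  have z1 := hg.a
  have z2 := hg.b
  have z3 := hg.c
  have z4 := hg.e
  rw [Complex.neg_re] at z1 z2
  rw [Complex.neg_im] at z3 z4
  rw [Complex.sub_re] at ua
  refine ⟨?_, ?_, ?_, ?_, ?_, ?_, ?_, ?_, ?_, ?_, ?_, ?_⟩
  · simp only [mk4]
    push_cast
    linarith only [ya]
  · simp only [mk4]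
    push_cast
    linarith only [yb]
  · simp only [mk4]
    push_cast
    linarith only [k1', z1]
  · simp only [mk4]
    push_cast
    linarith only [k2', z2]
  · simp only [mk4]
    push_cast
    linarith only [k7', yd, z4]
  · simp only [mk4]
    push_cast
    linarith only [k5', yc, z3]
  · simp only [mk4]
    push_cast
    linarith only [k4', z4]
  · simp only [mk4]
    push_cast
    linarith only [k3', z3]
  · simp only [mk4]
    push_cast
    linarith only [yc]
  · simp only [mk4]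
    push_cast
    linarith only [yd]
  · simp only [mk4]
    push_cast
    linarith only [ua]
  · simp only [mk4]
    push_cast
    linarith only [k6', ua, z4]

section
variable {K : KFam} (hK : KOK K) {x : SK} {d : ℕ} {l : SK} {d' : ℕ} {l' : SK} {w R k' : ℂ}
include hK

/-- **the windows, 7 crossings** -/
theorem rw7_of {τ : NT} (t : TDt K x 7 l d' l' w R k') (hτ : τ.Is x d' l')
    (hr : τ.ring = false) (hg : (g7 τ).In (-zeta w))
    (rg : Rg (yH x R (Complex.cos w)) (zeta w)) :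
    (rw7 τ).In (yH x R (Complex.cos w)) (zeta w) := by
  have hx := NT.is_x hτ
  have ho := in_k8 hK t.h.ok.left (by norm_num) t.h.ok.ne
  have hn := NT.inn hK hτ t.h.ok.right.symm
  have hL : OR x d' (crs d' x l') l' τ.L := NT.or hτ
  subst hx
  cases τ
  · exact wq_of (tuseZ hK t rfl rfl w7_u (by decide) mn (zi4 hg (by norm_num [g7])
      (by norm_num [g7]) (by norm_num [g7]) (by norm_num [g7])) ho hn OL.nil hL) hg rg (by norm_num)
      (by norm_num) (by decide)
  · exact wq_of (tuseZ hK t rfl rfl w7_a1 (by decide) mn (zi4 hg (by norm_num [g7])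
      (by norm_num [g7]) (by norm_num [g7]) (by norm_num [g7])) ho hn OL.nil hL) hg rg (by norm_num)
      (by norm_num) (by decide)
  · exact wq_of (tuseZ hK t rfl rfl w7_s1 (by decide) mn (zi4 hg (by norm_num [g7])
      (by norm_num [g7]) (by norm_num [g7]) (by norm_num [g7])) ho hn OL.nil hL) hg rg (by norm_num)
      (by norm_num) (by decide)
  · exact wq_of (tuseZ hK t rfl rfl w7_a2 (by decide) mn (zi4 hg (by norm_num [g7])
      (by norm_num [g7]) (by norm_num [g7]) (by norm_num [g7])) ho hn OL.nil hL) hg rg (by norm_num)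
      (by norm_num) (by decide)
  · exact wq_of (tuseZ hK t rfl rfl w7_s2 (by decide) mn (zi4 hg (by norm_num [g7])
      (by norm_num [g7]) (by norm_num [g7]) (by norm_num [g7])) ho hn OL.nil hL) hg rg (by norm_num)
      (by norm_num) (by decide)
  · exact wq_of (tuseZ hK t rfl rfl w7_e2 (by decide) mn (zi4 hg (by norm_num [g7])
      (by norm_num [g7]) (by norm_num [g7]) (by norm_num [g7])) ho hn OL.nil hL) hg rg (by norm_num)
      (by norm_num) (by decide)
  · exact wq_of (tuseZ hK t rfl rfl w7_p2a (by decide) mn (zi4 hg (by norm_num [g7])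
      (by norm_num [g7]) (by norm_num [g7]) (by norm_num [g7])) ho hn OL.nil hL) hg rg (by norm_num)
      (by norm_num) (by decide)
  · exact wq_of (tuseZ hK t rfl rfl w7_p2s (by decide) mn (zi4 hg (by norm_num [g7])
      (by norm_num [g7]) (by norm_num [g7]) (by norm_num [g7])) ho hn OL.nil hL) hg rg (by norm_num)
      (by norm_num) (by decide)
  · exact wq_of (tuseZ hK t rfl rfl w7_p2e (by decide) mn (zi4 hg (by norm_num [g7])
      (by norm_num [g7]) (by norm_num [g7]) (by norm_num [g7])) ho hn OL.nil hL) hg rg (by norm_num)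
      (by norm_num) (by decide)
  · exact wq_of (tuseZ hK t rfl rfl w7_p3a (by decide) mn (zi4 hg (by norm_num [g7])
      (by norm_num [g7]) (by norm_num [g7]) (by norm_num [g7])) ho hn OL.nil hL) hg rg (by norm_num)
      (by norm_num) (by decide)
  · exact wq_of (tuseZ hK t rfl rfl w7_p3s (by decide) mn (zi4 hg (by norm_num [g7])
      (by norm_num [g7]) (by norm_num [g7]) (by norm_num [g7])) ho hn OL.nil hL) hg rg (by norm_num)
      (by norm_num) (by decide)
  · exact wq_of (tuseZ hK t rfl rfl w7_p3e (by decide) mn (zi4 hg (by norm_num [g7])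
      (by norm_num [g7]) (by norm_num [g7]) (by norm_num [g7])) ho hn OL.nil hL) hg rg (by norm_num)
      (by norm_num) (by decide)
  · exact absurd hr (by decide)
  · exact absurd hr (by decide)

/-- **the windows, at least 8 crossings** -/
theorem rw8_of {τ : NT} (hd : 8 ≤ d) (t : TDt K x d l d' l' w R k') (hτ : τ.Is x d' l')
    (hr : τ.ring = false) (hg : (g8 τ).In (-zeta w))
    (rg : Rg (yH x R (Complex.cos w)) (zeta w)) :
    (rw8 τ).In (yH x R (Complex.cos w)) (zeta w) := by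
  have hx := NT.is_x hτ
  have ho := in_k8 hK t.h.ok.left (by omega) t.h.ok.ne
  have hn := NT.inn hK hτ t.h.ok.right.symm
  have hL : OR x d' (crs d' x l') l' τ.L := NT.or hτ
  subst hx
  cases τ
  · exact wr_of (tuseZ hK t rfl rfl w8_u (by decide) mn (zi2 hg (by norm_num [g8])
      (by norm_num [g8])) ho hn OL.nil hL) hg rg (by norm_num) (by norm_num) (by decide)
  · exact wr_of (tuseZ hK t rfl rfl w8_a1 (by decide) mn (zi2 hg (by norm_num [g8])
      (by norm_num [g8])) ho hn OL.nil hL) hg rg (by norm_num) (by norm_num) (by decide)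
  · exact wr_of (tuseZ hK t rfl rfl w8_s1 (by decide) mn (zi2 hg (by norm_num [g8])
      (by norm_num [g8])) ho hn OL.nil hL) hg rg (by norm_num) (by norm_num) (by decide)
  · exact wr_of (tuseZ hK t rfl rfl w8_a2 (by decide) mn (zi2 hg (by norm_num [g8])
      (by norm_num [g8])) ho hn OL.nil hL) hg rg (by norm_num) (by norm_num) (by decide)
  · exact wr_of (tuseZ hK t rfl rfl w8_s2 (by decide) mn (zi2 hg (by norm_num [g8])
      (by norm_num [g8])) ho hn OL.nil hL) hg rg (by norm_num) (by norm_num) (by decide)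
  · exact wr_of (tuseZ hK t rfl rfl w8_e2 (by decide) mn (zi2 hg (by norm_num [g8])
      (by norm_num [g8])) ho hn OL.nil hL) hg rg (by norm_num) (by norm_num) (by decide)
  · exact wr_of (tuseZ hK t rfl rfl w8_p2a (by decide) mn (zi2 hg (by norm_num [g8])
      (by norm_num [g8])) ho hn OL.nil hL) hg rg (by norm_num) (by norm_num) (by decide)
  · exact wr_of (tuseZ hK t rfl rfl w8_p2s (by decide) mn (zi2 hg (by norm_num [g8])
      (by norm_num [g8])) ho hn OL.nil hL) hg rg (by norm_num) (by norm_num) (by decide)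
  · exact wr_of (tuseZ hK t rfl rfl w8_p2e (by decide) mn (zi2 hg (by norm_num [g8])
      (by norm_num [g8])) ho hn OL.nil hL) hg rg (by norm_num) (by norm_num) (by decide)
  · exact wr_of (tuseZ hK t rfl rfl w8_p3a (by decide) mn (zi2 hg (by norm_num [g8])
      (by norm_num [g8])) ho hn OL.nil hL) hg rg (by norm_num) (by norm_num) (by decide)
  · exact wr_of (tuseZ hK t rfl rfl w8_p3s (by decide) mn (zi2 hg (by norm_num [g8])
      (by norm_num [g8])) ho hn OL.nil hL) hg rg (by norm_num) (by norm_num) (by decide)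
  · exact wr_of (tuseZ hK t rfl rfl w8_p3e (by decide) mn (zi2 hg (by norm_num [g8])
      (by norm_num [g8])) ho hn OL.nil hL) hg rg (by norm_num) (by norm_num) (by decide)
  · exact absurd hr (by decide)
  · exact absurd hr (by decide)

end

end

end Pool.Agent.Work.MP_b30479_gtS.G2.CN.TD

end

section

/-!
# Windows of the rings next to a digit `1`, seven or more crossings: the hinge of the digit `1`
-/

namespace Pool.Agent.Work.MP_b30479_gtS.G2.CN.TD

open Complex SR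
open scoped ComplexConjugate

noncomputable section

lemma zq7 {z : ℂ} (h : (zbox 7 false).In z) : QB 970 1500 (-400) 0 (-z) := by
  obtain ⟨h1, h2, h3, h4⟩ := h
  norm_num [zbox] at h1 h2 h3 h4
  constructor
  · simp only [Complex.neg_re, Complex.neg_im]
    push_cast
    linarith only [h2]
  · simp only [Complex.neg_re, Complex.neg_im]
    push_cast
    linarith only [h1]
  · simp only [Complex.neg_re, Complex.neg_im]
    push_cast
    linarith only [h4]
  · simp only [Complex.neg_re, Complex.neg_im]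
    push_cast
    linarith only [h3]

lemma sq64 {n : ℕ} (h8 : 8 ≤ n) : (64 : ℝ) ≤ (n : ℝ) ^ 2 := by
  have : (8 : ℝ) ≤ n := by exact_mod_cast h8
  nlinarith only [this]

lemma zq8 {n : ℕ} (h8 : 8 ≤ n) {z : ℂ} (h : (zbox n false).In z) :
    QB 0 1550 (-360) 0 (-z) := by
  have hs := sq64 h8
  obtain ⟨h1, h2, h3, h4⟩ := h
  have n4 : n ≠ 4 := by omega
  have n5 : n ≠ 5 := by omega
  have n6 : n ≠ 6 := by omega
  have n7 : n ≠ 7 := by omega
  simp only [zbox, n4, n5, n6, n7, if_false, Bool.false_eq_true] at h1 h2 h3 h4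
  have h5 : (23 : ℝ) / 10 / (n : ℝ) ^ 2 ≤ 360 / 10000 := by
    rw [div_le_iff₀ (by linarith only [hs])]
    nlinarith only [hs]
  constructor
  · simp only [Complex.neg_re, Complex.neg_im]
    push_cast
    linarith only [h2]
  · simp only [Complex.neg_re, Complex.neg_im]
    push_cast
    linarith only [h1]
  · simp only [Complex.neg_re, Complex.neg_im]
    push_cast
    linarith only [h4, h5]
  · simp only [Complex.neg_re, Complex.neg_im]
    push_cast
    linarith only [h3]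

lemma zq8e {n : ℕ} (h8 : 8 ≤ n) {z : ℂ} (h : (zbox n true).In z) :
    QB 0 1550 (-172) 0 (-z) := by
  have hs := sq64 h8
  obtain ⟨h1, h2, h3, h4⟩ := h
  have n4 : n ≠ 4 := by omega
  have n5 : n ≠ 5 := by omega
  have n6 : n ≠ 6 := by omega
  have n7 : n ≠ 7 := by omega
  simp only [zbox, n4, n5, n6, n7, if_false, if_true] at h1 h2 h3 h4
  have h5 : (11 : ℝ) / 10 / (n : ℝ) ^ 2 ≤ 172 / 10000 := by
    rw [div_le_iff₀ (by linarith only [hs])]
    nlinarith only [hs]
  constructor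
  · simp only [Complex.neg_re, Complex.neg_im]
    push_cast
    linarith only [h2]
  · simp only [Complex.neg_re, Complex.neg_im]
    push_cast
    linarith only [h1]
  · simp only [Complex.neg_re, Complex.neg_im]
    push_cast
    linarith only [h4, h5]
  · simp only [Complex.neg_re, Complex.neg_im]
    push_cast
    linarith only [h3]

/-- the type of a side next to a digit `1` -/
lemma bh_nt {τ : NT} {x : SK} {d : ℕ} {l : SK} {C : Cl} (h : Bh x d l C) (hτ : τ.Is x d l) :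
    τ.one = true ∧ τ.ring = false ∧ τ.C = C := by
  rcases h with ⟨h1, h2, h3⟩ | ⟨h1, h2⟩
  · subst h1 h2 h3
    cases τ <;> simp_all [NT.Is, NT.one, NT.ring, NT.C]
  · subst h1 h2
    cases τ <;> simp_all [NT.Is, NT.one, NT.ring, NT.C, cK]

section
variable {K : KFam} (Bx : BoxRows K) {d : ℕ} {l x : SK} {dl : ℕ} {ll : SK} {dr : ℕ} {rr : SK}
  {w kl kr : ℂ}
include Bx

lemma tdt_r (t : RDt K d l x dl ll dr rr w kl kr) : TDt K x d l dr rr w (RR w kr) kr :=
  ⟨t.right, t.w0, t.w1, fun h5 => by subst h5; exact (Bx.sp t.right).2⟩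

lemma tdt_e (t : RDe K d x dr rr w kr) : TDt K x d .e dr rr w (RR w kr) kr :=
  ⟨t.right, t.w0, t.w1, fun h5 => by subst h5; exact (Bx.sp t.right).2⟩

end

section
variable {K : KFam} (hK : KOK K) (h0 : K.Le K0) (Bx : BoxRows K) {d : ℕ} {l x : SK} {dl : ℕ}
  {ll : SK} {dr : ℕ} {rr : SK} {w kl kr : ℂ} {C k : Cl} {s : Bool}
include hK h0 Bx

/-- the hinge next to the digit `1`, 7 crossings -/
theorem rc7_of (t : RDt K 7 l x dl ll dr rr w kl kr) (hC : Bh x dr rr C)
    (rg : Rg (yH x (RR w kr) (Complex.cos w)) (zeta w)) :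
    (rc7 C).In (yH x (RR w kr) (Complex.cos w)) (zeta w) := by
  obtain ⟨τ, hτ⟩ := nt_all t.right.ok (by norm_num)
  obtain ⟨τ', hτ'⟩ := nt_all t.left.ok (by norm_num)
  obtain ⟨e1, e2, e3⟩ := bh_nt hC hτ
  have hz := zq7 (Bx.ring (by norm_num) t).1
  have hg := g7_of hK h0 t hτ hτ' (by rw [e1, Bool.true_or]) hz
  have h := rw7_of hK (tdt_r Bx t) hτ e2 hg rg
  rw [rw7, if_pos e1, e3] at h
  exact h

/-- the hinge next to the digit `1`, at least 8 crossings -/
theorem rc8_of (hd : 8 ≤ d) (t : RDt K d l x dl ll dr rr w kl kr) (hC : Bh x dr rr C)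
    (rg : Rg (yH x (RR w kr) (Complex.cos w)) (zeta w)) :
    (rc8 C).In (yH x (RR w kr) (Complex.cos w)) (zeta w) := by
  obtain ⟨τ, hτ⟩ := nt_all t.right.ok (by omega)
  obtain ⟨τ', hτ'⟩ := nt_all t.left.ok (by omega)
  obtain ⟨e1, e2, e3⟩ := bh_nt hC hτ
  have hz := zq8 hd (Bx.ring (by omega) t).1
  have hg := g8_of hK h0 hd t hτ hτ' (by rw [e1, Bool.true_or]) hz
  have h := rw8_of hK hd (tdt_r Bx t) hτ e2 hg rg
  rw [rw8, if_pos e1, e3] at h
  exact h

/-- a ring at an end, at least 8 crossings -/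
theorem re8_of (hd : 8 ≤ d) (t : RDe K d x dr rr w kr) (hC : Bh x dr rr C)
    (rg : Rg (yH x (RR w kr) (Complex.cos w)) (zeta w)) :
    (re8 C).In (yH x (RR w kr) (Complex.cos w)) (zeta w) := by
  obtain ⟨τ, hτ⟩ := nt_all t.right.ok (by omega)
  obtain ⟨e1, e2, e3⟩ := bh_nt hC hτ
  have hz := zq8e hd (Bx.ringE (by omega) t).1
  have hg := h8_of hK h0 hd t hτ e1 hz
  have hg' : (g8 τ).In (-zeta w) := by
    obtain ⟨g1, g2, g3, g4⟩ := hg
    revert e1 g1 g2 g3 g4
    cases τ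
    all_goals
      intro e1 g1 g2 g3 g4
      first
      | exact absurd e1 (by decide)
      | (norm_num [h8] at g1 g2 g3 g4
         refine ⟨?_, ?_, ?_, ?_⟩ <;> norm_num [g8] <;> linarith only [g1, g2, g3, g4])
  have h := rw8_of hK hd (tdt_e Bx t) hτ e2 hg' rg
  rw [rw8, if_pos e1] at h
  rw [← e3]
  obtain ⟨g1, g2, g3, g4⟩ := hg
  obtain ⟨x0, x1, s0, s1, q0, q1, r0, r1, t0, t1, c1, cr⟩ := h
  rw [Complex.neg_re] at g1 g2
  rw [Complex.neg_im] at g3 g4
  clear e2 e3 hz hg' hτ hC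
  revert e1 g1 g2 g3 g4 x0 x1 s0 s1 q0 q1 r0 r1 t0 t1 c1 cr
  cases τ
  all_goals
    intro e1 g1 g2 g3 g4 x0 x1 s0 s1 q0 q1 r0 r1 t0 t1 c1 cr
    first
    | exact absurd e1 (by decide)
    | (norm_num [h8] at g1 g2 g3 g4
       norm_num [rc8, NT.C, mk4] at x0 x1 s0 s1 q0 q1 r0 r1 t0 t1 c1 cr
       constructor
       all_goals
         norm_num [re8, NT.C, mk4]
         linarith only [x0, x1, g1, g2, q0, g3, t0, g4, t1, c1])

end

end

end Pool.Agent.Work.MP_b30479_gtS.G2.CN.TD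

end
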